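import Pool.Agent.RieszWin.Rng

set_option autoImplicit false

open Real Finset

namespace Pool.Agent.RieszWin

open Pool.Agent.RieszSmall Pool.Agent.RieszLin Pool.Agent.RieszTr

open RngAux

/-- Upper end of the window, with the constant `500`. -/
theorem high_end' {u q m : ℝ} (hu : (10 : ℝ) ^ 200 ≤ u) (hu' : Real.exp 501 ≤ u)
    (hm : m = Real.exp (u ^ 4))
    (hq : q ≤ m * (Real.log m + 500)) : 1 / u ≤ m * K0 q m := by
  have hu2 := u20 hu
  have hup := u_pos hu2
  have hU := U_ge hu2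
  have hU20 : (10 : ℝ) ^ 20 ≤ u ^ 4 := (pow_le_pow_right₀ (by norm_num) (by norm_num)).trans hU
  have hmg := m_ge' hu2 hm
  have hUp : 0 < u ^ 4 := pow_pos hup 4
  have hm2 : 2 ≤ m := by linarith
  have hmp : 0 < m := by linarith
  have hlm : Real.log m = u ^ 4 := by rw [hm, Real.log_exp]
  rw [hlm] at hq
  set Q := m * (u ^ 4 + 500) with hQ
  have hQ0 : 0 ≤ Q := by positivity
  have hK := K0_pos (q := Q) hm2
  have hmK := mul_pos hmp hK
  have hl := log_mK0 (q := Q) hm2 hm
  have hchi := cc_hi hm2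
  have h1 : m * K0 Q m ≤ m * K0 q m := mul_le_mul_of_nonneg_left (K0_anti hm2 hq) hmp.le
  refine le_trans ?_ h1
  have h2 : (Q + 1) * cc m ≤ u ^ 4 + 501 := by
    have h6 : (Q + 1) * cc m ≤ (Q + 1) * (1 / (m - 1)) :=
      mul_le_mul_of_nonneg_left hchi (by linarith)
    refine h6.trans ?_
    rw [mul_one_div, div_le_iff₀ (by linarith)]
    nlinarith
  have h3 : (501 : ℝ) ≤ Real.log u := (Real.le_log_iff_exp_le hup).2 hu'
  have h6 : Real.log (1 / u) ≤ Real.log (m * K0 Q m) := by
    rw [hl, one_div, Real.log_inv]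
    linarith
  exact (Real.log_le_log_iff (by positivity) hmK).1 h6

end Pool.Agent.RieszWin
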