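import Pool.Agent.RieszWin.CCross

set_option autoImplicit false

open Real Finset

namespace Pool.Agent.RieszWin

open Pool.Agent.RieszSmall Pool.Agent.RieszLin Pool.Agent.RieszTr

open Pool.Agent.Riesz (InDom om G)

namespace ThrAux

lemma dom_facts {n : ℕ} (hn : 2 ≤ n) {α γ : ℝ} (hd : InDom n α γ) :
    0 < α ∧ α < 1 ∧ 0 ≤ γ ∧ γ < 1 ∧ 0 ≤ om n α γ ∧ om n α γ < 1 := by
  obtain ⟨ha, hg, hg1, ho⟩ := hd
  have hn' : (2 : ℝ) ≤ n := by exact_mod_cast hn
  have hd0 : 0 < 1 - ((n : ℝ) - 1) * γ := by linarith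
  have hd1 : 1 - ((n : ℝ) - 1) * γ ≤ 1 := by
    have : 0 ≤ ((n : ℝ) - 1) * γ := mul_nonneg (by linarith) hg
    linarith
  have hg2 : γ < 1 := by nlinarith
  have ho0 : 0 ≤ om n α γ := by
    unfold om
    positivity
  have ha1 : α < 1 := by
    have h1 : (n : ℝ) * α ^ 2 < 1 := by
      unfold om at ho
      rw [div_lt_one hd0] at ho
      linarith
    nlinarith
  exact ⟨ha, ha1, hg, hg2, ho0, ho⟩

lemma G_back {q h g : ℝ} (h0 : 0 ≤ h) (h1 : 0 < 1 - g) (h2 : 1 - g ≤ 2) :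
    G q g ≤ (2 : ℝ) ^ h * G (q + h) g := by
  unfold Pool.Agent.Riesz.G Pool.Agent.Riesz.LL
  rw [Real.rpow_def_of_pos (by norm_num), ← Real.exp_add]
  apply Real.exp_le_exp.2
  have h3 : Real.log (1 - g) ≤ Real.log 2 := Real.log_le_log h1 h2
  nlinarith [mul_le_mul_of_nonneg_left h3 h0]

end ThrAux

open ThrAux

/-- MODULE RW69 (the threshold). All distances `1+α`, `1+γ`, `1-ω`, `2-2ω` are at most `2`
(`α < 1`, `γ < 1` from `InDom`, `ω ≥ 0`), so each term `D^(-q)` is at most `2^h D^(-(q+h))`. -/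
theorem Phi_back {n : ℕ} (hn : 2 ≤ n) {q h α γ : ℝ} (hd : InDom n α γ) (h0 : 0 ≤ h) :
    Pool.Agent.Riesz.Phi n q α γ ≤ (2 : ℝ) ^ h * Pool.Agent.Riesz.Phi n (q + h) α γ := by
  obtain ⟨ha, ha1, hg, hg1, ho, ho1⟩ := dom_facts hn hd
  have hn' : (2 : ℝ) ≤ n := by exact_mod_cast hn
  have e1 := G_back (q := q) (g := -α) h0 (by linarith) (by linarith)
  have e2 := G_back (q := q) (g := -γ) h0 (by linarith) (by linarith)
  have e3 := G_back (q := q) (g := om n α γ) h0 (by linarith) (by linarith)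
  have e4 := G_back (q := q) (g := 2 * om n α γ - 1) h0 (by linarith) (by linarith)
  unfold Pool.Agent.Riesz.Phi
  have c1 : (0 : ℝ) ≤ 4 * n := by positivity
  have c2 : (0 : ℝ) ≤ (n : ℝ) * (n - 1) / 2 := by
    have : (0 : ℝ) ≤ (n : ℝ) - 1 := by linarith
    positivity
  have f1 := mul_le_mul_of_nonneg_left e1 c1
  have f2 := mul_le_mul_of_nonneg_left e2 c2
  nlinarith [f1, f2, e3, e4]

/-- `TT q m = 2·2^(-q) + 4m + m(m-1)(1-1/m)^q` (`TT_eq`) is antitone and continuous in `q`. -/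
theorem TT_anti {m q q' : ℝ} (hm : 2 ≤ m) (h : q ≤ q') : TT q' m ≤ TT q m := by
  rw [TT_eq hm, TT_eq hm]
  have h1 : 1 / m ≤ 1 / 2 := one_div_le_one_div_of_le (by norm_num) hm
  have h1' : 0 < 1 / m := by positivity
  have h2 : (2 : ℝ) ^ (-q') ≤ (2 : ℝ) ^ (-q) :=
    Real.rpow_le_rpow_of_exponent_le (by norm_num) (by linarith)
  have h3 : (1 - 1 / m) ^ q' ≤ (1 - 1 / m) ^ q :=
    Real.rpow_le_rpow_of_exponent_ge (by linarith) (by linarith) h
  have h4 : 0 ≤ m * (m - 1) := mul_nonneg (by linarith) (by linarith)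
  have h5 := mul_le_mul_of_nonneg_left h3 h4
  linarith

theorem TT_cont {m : ℝ} (hm : 2 ≤ m) : Continuous (fun q => TT q m) := by
  have h1 : 1 / m ≤ 1 / 2 := one_div_le_one_div_of_le (by norm_num) hm
  have h2 : (fun q => TT q m) = fun q : ℝ =>
      2 * (2 : ℝ) ^ (-q) + 4 * m + m * (m - 1) * (1 - 1 / m) ^ q := by
    funext q
    exact TT_eq hm
  rw [h2]
  have c1 : Continuous (fun q : ℝ => (2 : ℝ) ^ (-q)) :=
    (Real.continuous_const_rpow (by norm_num)).comp continuous_neg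
  have c2 : Continuous (fun q : ℝ => (1 - 1 / m) ^ q) :=
    Real.continuous_const_rpow (by
      have : (0 : ℝ) < 1 - 1 / m := by linarith
      exact this.ne')
  exact ((continuous_const.mul c1).add continuous_const).add (continuous_const.mul c2)

theorem Phi_cont {n : ℕ} {α γ : ℝ} (hd : InDom n α γ) :
    Continuous (fun q => Pool.Agent.Riesz.Phi n q α γ) := by
  unfold Pool.Agent.Riesz.Phi Pool.Agent.Riesz.G Pool.Agent.Riesz.LL
  fun_prop

/-- One step: the minimizer at `q` (`Rg.exists_min`) and `Rg.cross`. -/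
theorem step {u q : ℝ} {n : ℕ} (hR : Rg u q ((n : ℝ) + 2))
    (hS : ∃ α γ : ℝ, InDom n α γ ∧ 2 * Pool.Agent.Riesz.Phi n q α γ ≤ TT q ((n : ℝ) + 2))
    {h : ℝ} (h0 : 0 < h) (h1 : h ≤ 1) :
    ∃ α γ : ℝ, InDom n α γ ∧
      2 * Pool.Agent.Riesz.Phi n (q + h) α γ < TT (q + h) ((n : ℝ) + 2) := by
  obtain ⟨a, g, hd, hle⟩ := hS
  obtain ⟨α, γ, hd1, hγ, hmin⟩ := hR.exists_min
  refine ⟨α, γ, hd1, hR.cross hd1 hγ hmin ?_ h0 h1⟩
  have := hmin a g hd
  linarith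

/-- Many steps: if `q1` is good then every `q ∈ (q1, q2]` is strictly good (induction on
`⌈q - q1⌉`; for `q - q1 > 1` use the point `q - 1`). -/
theorem steps {u q1 q2 : ℝ} {n : ℕ} (hR : ∀ q, q1 ≤ q → q ≤ q2 → Rg u q ((n : ℝ) + 2))
    (hS : ∃ α γ : ℝ, InDom n α γ ∧ 2 * Pool.Agent.Riesz.Phi n q1 α γ ≤ TT q1 ((n : ℝ) + 2))
    {q : ℝ} (h0 : q1 < q) (h1 : q ≤ q2) :
    ∃ α γ : ℝ, InDom n α γ ∧ 2 * Pool.Agent.Riesz.Phi n q α γ < TT q ((n : ℝ) + 2) := by
  have key : ∀ k : ℕ, ∀ q : ℝ, q1 < q → q ≤ q2 → q - q1 ≤ k →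
      ∃ α γ : ℝ, InDom n α γ ∧ 2 * Pool.Agent.Riesz.Phi n q α γ < TT q ((n : ℝ) + 2) := by
    intro k
    induction k with
    | zero =>
      intro q h0 _ h2
      push_cast at h2
      linarith
    | succ k ih =>
      intro q h0 h1 h2
      push_cast at h2
      rcases le_or_gt (q - q1) 1 with h3 | h3
      · have h4 := step (hR q1 le_rfl (by linarith)) hS (h := q - q1) (by linarith) h3
        have h5 : q1 + (q - q1) = q := by ring
        rw [h5] at h4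
        exact h4
      · obtain ⟨a, g, hd, hlt⟩ := ih (q - 1) (by linarith) (by linarith) (by linarith)
        have h4 := step (hR (q - 1) (by linarith) (by linarith)) ⟨a, g, hd, hlt.le⟩
          (h := 1) one_pos le_rfl
        have h5 : q - 1 + 1 = q := by ring
        rw [h5] at h4
        exact h4
  obtain ⟨k, hk⟩ := exists_nat_ge (q - q1)
  exact key k q h0 h1 hk

/-- The threshold `q* = inf {q ∈ [qa, qb] | S q}`, `S q` = (some `(α, γ)` has
`2 Phi n q α γ ≤ TT q`). Below `q*` nothing is good by definition, above `q*` `steps`. At `q*`: for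
every `δ ∈ (0,1]` there is a good `q0 ∈ [q*, q*+δ)`, and the minimum `μ` of `2 Phi n q*` satisfies
`μ ≤ 2^δ 2 Phi n q0 ≤ 2^δ TT q0 ≤ 2^δ TT q*` (`Phi_back`, `TT_anti`); so `μ ≤ TT q*` (minimum exists
by `Rg.exists_min`), in particular `q* ≠ qa`. If `2 Phi n q* α γ < TT q*` for some `(α, γ)` then the
same holds for `q` slightly below `q*` (continuity), a contradiction. -/
theorem threshold {u qa qb : ℝ} {n : ℕ} (hn : 2 ≤ n) (hab : qa ≤ qb)
    (hR : ∀ q, qa ≤ q → q ≤ qb → Rg u q ((n : ℝ) + 2))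
    (ha : ∀ α γ : ℝ, InDom n α γ → TT qa ((n : ℝ) + 2) < 2 * Pool.Agent.Riesz.Phi n qa α γ)
    (hb : ∃ α γ : ℝ, InDom n α γ ∧ 2 * Pool.Agent.Riesz.Phi n qb α γ ≤ TT qb ((n : ℝ) + 2)) :
    ∃ qs : ℝ, qa < qs ∧ qs ≤ qb ∧
      (∀ q, qa ≤ q → q < qs → ∀ α γ : ℝ, InDom n α γ →
        TT q ((n : ℝ) + 2) < 2 * Pool.Agent.Riesz.Phi n q α γ) ∧
      (∀ q, qs < q → q ≤ qb → ∃ α γ : ℝ, InDom n α γ ∧
        2 * Pool.Agent.Riesz.Phi n q α γ < TT q ((n : ℝ) + 2)) ∧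
      (∀ α γ : ℝ, InDom n α γ → TT qs ((n : ℝ) + 2) ≤ 2 * Pool.Agent.Riesz.Phi n qs α γ) ∧
      (∃ α γ : ℝ, InDom n α γ ∧
        2 * Pool.Agent.Riesz.Phi n qs α γ = TT qs ((n : ℝ) + 2)) := by
  have hm : (2 : ℝ) ≤ (n : ℝ) + 2 := by
    have : (0 : ℝ) ≤ n := Nat.cast_nonneg n
    linarith
  let S : Set ℝ := {q | qa ≤ q ∧ q ≤ qb ∧
    ∃ α γ : ℝ, InDom n α γ ∧ 2 * Pool.Agent.Riesz.Phi n q α γ ≤ TT q ((n : ℝ) + 2)}
  have hSne : S.Nonempty := ⟨qb, hab, le_rfl, hb⟩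
  have hSbd : BddBelow S := ⟨qa, fun q hq => hq.1⟩
  have hqa : qa ≤ sInf S := le_csInf hSne fun q hq => hq.1
  have hqb : sInf S ≤ qb := csInf_le hSbd ⟨hab, le_rfl, hb⟩
  have hlow : ∀ q, qa ≤ q → q < sInf S → ∀ α γ : ℝ, InDom n α γ →
      TT q ((n : ℝ) + 2) < 2 * Pool.Agent.Riesz.Phi n q α γ := by
    intro q h0 h1 α γ hd
    by_contra hcon
    have : q ∈ S := ⟨h0, by linarith, α, γ, hd, not_lt.1 hcon⟩
    exact absurd (csInf_le hSbd this) (not_le.2 h1)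
  obtain ⟨α, γ, hd, hγ, hmin⟩ := (hR (sInf S) hqa hqb).exists_min
  have hgood : 2 * Pool.Agent.Riesz.Phi n (sInf S) α γ ≤ TT (sInf S) ((n : ℝ) + 2) := by
    by_contra hcon
    have hcon' := not_le.1 hcon
    have hc : Continuous (fun δ : ℝ => (2 : ℝ) ^ δ * TT (sInf S) ((n : ℝ) + 2)) :=
      (Real.continuous_const_rpow (by norm_num)).mul continuous_const
    have hev : ∀ᶠ δ in nhds (0 : ℝ), (2 : ℝ) ^ δ * TT (sInf S) ((n : ℝ) + 2) <
        2 * Pool.Agent.Riesz.Phi n (sInf S) α γ := by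
      apply (hc.tendsto 0).eventually_lt_const
      simpa using hcon'
    obtain ⟨ε, hε, hball⟩ := Metric.eventually_nhds_iff.1 hev
    obtain ⟨q0, hq0, hq0'⟩ := exists_lt_of_csInf_lt hSne (show sInf S < sInf S + ε by linarith)
    have hge : sInf S ≤ q0 := csInf_le hSbd hq0
    obtain ⟨_, _, a, g, hda, hle⟩ := hq0
    have h1 := hball (y := q0 - sInf S) (by
      rw [Real.dist_eq, sub_zero, abs_of_nonneg (by linarith)]
      linarith)
    have h2 := hmin a g hda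
    have h3 := Phi_back hn (q := sInf S) (h := q0 - sInf S) hda (by linarith)
    have h4 : sInf S + (q0 - sInf S) = q0 := by ring
    rw [h4] at h3
    have h5 := TT_anti (m := (n : ℝ) + 2) hm hge
    have h6 : (0 : ℝ) < (2 : ℝ) ^ (q0 - sInf S) := Real.rpow_pos_of_pos (by norm_num) _
    have h7 := mul_le_mul_of_nonneg_left (hle.trans h5) h6.le
    linarith
  have hne : qa < sInf S := by
    rcases hqa.eq_or_lt with h | h
    · exfalso
      have := ha α γ hd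
      rw [← h] at hgood
      linarith
    · exact h
  have hmid : ∀ α γ : ℝ, InDom n α γ →
      TT (sInf S) ((n : ℝ) + 2) ≤ 2 * Pool.Agent.Riesz.Phi n (sInf S) α γ := by
    intro a g hda
    by_contra hcon
    have hcon' := not_le.1 hcon
    have hc1 : Continuous (fun q : ℝ => 2 * Pool.Agent.Riesz.Phi n q a g) :=
      continuous_const.mul (Phi_cont hda)
    have hc2 := TT_cont hm
    have hev : ∀ᶠ q in nhds (sInf S), 2 * Pool.Agent.Riesz.Phi n q a g < TT q ((n : ℝ) + 2) :=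
      (hc1.tendsto (sInf S)).eventually_lt (hc2.tendsto (sInf S)) hcon'
    obtain ⟨ε, hε, hball⟩ := Metric.eventually_nhds_iff.1 hev
    have h1 := hball (y := max qa (sInf S - ε / 2)) (by
      rw [Real.dist_eq, abs_sub_comm, abs_of_nonneg (by
        rcases max_choice qa (sInf S - ε / 2) with h | h <;> rw [h] <;> linarith)]
      have := le_max_right qa (sInf S - ε / 2)
      linarith)
    have h2 := hlow (max qa (sInf S - ε / 2)) (le_max_left _ _) (max_lt hne (by linarith)) a g hda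
    linarith
  refine ⟨sInf S, hne, hqb, hlow, ?_, hmid, α, γ, hd, le_antisymm hgood (hmid α γ hd)⟩
  intro q h0 h1
  obtain ⟨q0, hq0, hq0'⟩ := exists_lt_of_csInf_lt hSne h0
  obtain ⟨h2, _, h3⟩ := hq0
  exact steps (fun q' h4 h5 => hR q' (by linarith) h5) h3 hq0' h1

end Pool.Agent.RieszWin
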