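import Pool.Agent.RieszWin.Facts

set_option autoImplicit false

open Real Finset

namespace Pool.Agent.RieszWin

open Pool.Agent.RieszSmall Pool.Agent.RieszLin Pool.Agent.RieszTr

/-- the constants of the optimal lifted square, with approximations: `Y = exp (-w)`,
`4 Y log (1/κ) ≈ w m κ`. -/
structure Apx (u q m κ Y A w : ℝ) : Prop where
  win : Win u q m κ
  sqr : Sqr q m κ Y A
  hw : w = -Real.log Y
  wlo : 28 / 25 ≤ w
  whi : w ^ 3 ≤ u / 10 ^ 9
  rel : |4 * Y * el κ - w * (m * κ)| ≤ w * (m * κ) / u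

/-- the relation of the lifted square -/
def SqT {ι : Type*} (a : ι → ℝ) : Prop :=
  ∃ p1 p2 q1 q2 : ι, p1 ≠ p2 ∧ q1 ≠ q2 ∧ p1 ≠ q1 ∧ p1 ≠ q2 ∧ p2 ≠ q1 ∧ p2 ≠ q2 ∧
    a p1 = 1 / 2 ∧ a p2 = 1 / 2 ∧ a q1 = -(1 / 2) ∧ a q2 = -(1 / 2) ∧
    ∀ z, z ≠ p1 → z ≠ p2 → z ≠ q1 → z ≠ q2 → a z = 0

/-- MODULE RW25 (first consequences). `Y = exp (-w)`, `w³ ≥ w`, `w ≤ u/10^9`,
`A (1 + 2^(-p)) = 2 Y²/κ`. -/
theorem Apx.basic {u q m κ Y A w : ℝ} (h : Apx u q m κ Y A w) :
    0 < Y ∧ Y ≤ 1 / 3 ∧ Y = Real.exp (-w) ∧ w ≤ u / 10 ^ 9 ∧ |Real.log Y| ≤ 10 * u ^ 4 ∧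
      Real.exp (-u) ≤ Y := by
  have hY := h.sqr.hY
  have hu := h.win.hu
  have hu1 : (1000 : ℝ) ≤ u := le_trans (by norm_num) hu
  have hw1 := h.wlo
  have hYe : Y = Real.exp (-w) := by
    rw [h.hw, neg_neg, Real.exp_log hY]
  have hww : w ≤ u / 10 ^ 9 := by
    have h1 : w ≤ w ^ 3 := by nlinarith [sq_nonneg w, mul_nonneg (by linarith : (0:ℝ) ≤ w) (by nlinarith : (0:ℝ) ≤ w ^ 2 - 1)]
    exact h1.trans h.whi
  have hwu : w ≤ u := hww.trans (div_le_self (by linarith) (by norm_num))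
  have hu4 : u ≤ u ^ 4 := by
    calc u = u ^ 1 := (pow_one u).symm
      _ ≤ u ^ 4 := pow_le_pow_right₀ (by linarith) (by norm_num)
  refine ⟨hY, ?_, hYe, hww, ?_, ?_⟩
  · have h1 : (3 : ℝ) ≤ Real.exp w := by
      have h2 : Real.exp (28 / 25) ≤ Real.exp w := Real.exp_le_exp.2 hw1
      have h3 : Real.exp (28 / 25 : ℝ) = Real.exp 1 * Real.exp (3 / 25) := by
        rw [← Real.exp_add]
        norm_num
      have h4 := Real.exp_one_gt_d9
      have h5 := Real.add_one_le_exp (3 / 25 : ℝ)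
      nlinarith
    rw [hYe, Real.exp_neg, inv_eq_one_div]
    exact one_div_le_one_div_of_le (by norm_num) h1
  · have h1 : Real.log Y = -w := by
      rw [h.hw, neg_neg]
    rw [h1, abs_neg, abs_of_nonneg (by linarith)]
    linarith
  · rw [hYe]
    exact Real.exp_le_exp.2 (by linarith)

/-- `Y / κ = w m/(4 el κ)` up to a factor `1 ± 1/u`. -/
theorem Apx.ratio {u q m κ Y A w : ℝ} (h : Apx u q m κ Y A w) :
    w * m / (4 * el κ) * (1 - 1 / u) ≤ Y / κ ∧ Y / κ ≤ w * m / (4 * el κ) * (1 + 1 / u) := by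
  obtain ⟨hu0, hm0, hq0, hk0, -⟩ := h.win.pos
  have hel := h.win.el_bds
  have hel0 : 0 < el κ := by
    have : 0 < u ^ 4 := by positivity
    linarith [hel.1]
  have hrel := abs_le.1 h.rel
  have e1 : w * m / (4 * el κ) * (1 - 1 / u) * (4 * el κ * κ) =
      w * (m * κ) - w * (m * κ) / u := by
    field_simp
  have e2 : w * m / (4 * el κ) * (1 + 1 / u) * (4 * el κ * κ) =
      w * (m * κ) + w * (m * κ) / u := by
    field_simp
  have e3 : Y / κ * (4 * el κ * κ) = 4 * Y * el κ := by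
    field_simp
  have hpos : 0 < 4 * el κ * κ := by positivity
  constructor
  · refine le_of_mul_le_mul_right ?_ hpos
    rw [e1, e3]
    linarith [hrel.1]
  · refine le_of_mul_le_mul_right ?_ hpos
    rw [e2, e3]
    linarith [hrel.2]

/-- `m κ` compared with `Y`: `3.9 u^4 Y ≤ w m κ ≤ 4.1 u^4 Y` -/
theorem Apx.mkap {u q m κ Y A w : ℝ} (h : Apx u q m κ Y A w) :
    39 / 10 * (u ^ 4 * Y) ≤ w * (m * κ) ∧ w * (m * κ) ≤ 41 / 10 * (u ^ 4 * Y) := by
  obtain ⟨hu0, hm0, hq0, hk0, -⟩ := h.win.pos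
  have hY := h.sqr.hY
  have hel := h.win.el_bds
  have hu : (1000 : ℝ) ≤ u := le_trans (by norm_num) h.win.hu
  have hrel := abs_le.1 h.rel
  have hw0 : 0 < w := by linarith [h.wlo]
  set Z : ℝ := w * (m * κ) with hZ
  have hZ0 : 0 < Z := by positivity
  have hZu : Z / u ≤ Z / 1000 := div_le_div_of_nonneg_left hZ0.le (by norm_num) hu
  have h1 : 4 * Y * (998 / 1000 * u ^ 4) ≤ 4 * Y * el κ :=
    mul_le_mul_of_nonneg_left hel.1 (by positivity)
  have h2 : 4 * Y * el κ ≤ 4 * Y * (1002 / 1000 * u ^ 4) :=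
    mul_le_mul_of_nonneg_left hel.2 (by positivity)
  have h3 : 0 < u ^ 4 * Y := by positivity
  constructor
  · have h4 : 4 * Y * (998 / 1000 * u ^ 4) = 3992 / 1000 * (u ^ 4 * Y) := by ring
    linarith [hrel.2]
  · have h4 : 4 * Y * (1002 / 1000 * u ^ 4) = 4008 / 1000 * (u ^ 4 * Y) := by ring
    linarith [hrel.1]

/-- `2 Y²/κ (1 - 2^(-p)) ≤ A ≤ 2 Y²/κ`, `1 ≤ A`, `|log A - (el κ - 2 w)| ≤ 1`. -/
theorem Apx.A_bds {u q m κ Y A w : ℝ} (h : Apx u q m κ Y A w) :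
    A ≤ 2 * Y ^ 2 / κ ∧ 2 * Y ^ 2 / κ * (1 - (2 : ℝ) ^ (-(q + 1))) ≤ A ∧ 1 ≤ A ∧
      |Real.log A - (el κ - 2 * w)| ≤ 1 ∧ A ≤ m := by
  obtain ⟨hu0, hm0, hq0, hk0, -⟩ := h.win.pos
  obtain ⟨hY, hY3, hYe, hww, -, hYu⟩ := h.basic
  have hel := h.win.el_bds
  have hu : (1000 : ℝ) ≤ u := le_trans (by norm_num) h.win.hu
  have hA := h.sqr.hA
  have he1 := h.sqr.e1
  have hw1 := h.wlo
  have hu4 : u ≤ u ^ 4 := by
    calc u = u ^ 1 := (pow_one u).symm
      _ ≤ u ^ 4 := pow_le_pow_right₀ (by linarith) (by norm_num)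
  have hu4' : 1000 * u ≤ u ^ 4 := by
    have h1 : u ^ 4 = u * u ^ 3 := by ring
    have h2 : (1000 : ℝ) ≤ u ^ 3 := by
      calc (1000 : ℝ) ≤ u := hu
        _ = u ^ 1 := (pow_one u).symm
        _ ≤ u ^ 3 := pow_le_pow_right₀ (by linarith) (by norm_num)
    rw [h1]
    nlinarith
  set ε : ℝ := (2 : ℝ) ^ (-(q + 1)) with hε
  have hε0 : 0 < ε := Real.rpow_pos_of_pos (by norm_num) _
  have hε1 : ε ≤ 1 / 2 := by
    refine (h.win.two.1).trans ?_
    have h1 : Real.exp (-(100 * u ^ 4)) ≤ Real.exp (-1) := Real.exp_le_exp.2 (by linarith)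
    refine h1.trans ?_
    rw [Real.exp_neg, inv_eq_one_div]
    refine one_div_le_one_div_of_le (by norm_num) ?_
    have := Real.add_one_le_exp (1 : ℝ)
    linarith
  set X : ℝ := 2 * Y ^ 2 / κ with hX
  have hX0 : 0 < X := by positivity
  have hAX : A * (1 + ε) = X := by
    rw [hX, eq_div_iff hk0.ne', he1]
    ring
  have hκe : κ = Real.exp (-el κ) := by
    unfold el
    rw [neg_neg, Real.exp_log hk0]
  have hAle : A ≤ X := by
    rw [← hAX]
    nlinarith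
  have hAge : X * (1 - ε) ≤ A := by
    rw [← hAX]
    nlinarith [mul_pos hA (mul_pos hε0 hε0)]
  have hX2 : 2 ≤ X := by
    rw [hX, le_div_iff₀ hk0]
    have h1 : κ ≤ Real.exp (-(2 * u)) := by
      rw [hκe]
      exact Real.exp_le_exp.2 (by linarith [hel.1])
    have h2 : Real.exp (-(2 * u)) = Real.exp (-u) ^ 2 := by
      rw [sq, ← Real.exp_add]
      congr 1
      ring
    have h3 : Real.exp (-u) ^ 2 ≤ Y ^ 2 := pow_le_pow_left₀ (Real.exp_pos _).le hYu 2
    linarith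
  refine ⟨hAle, hAge, ?_, ?_, ?_⟩
  · have h1 : X * (1 / 2) ≤ X * (1 - ε) := mul_le_mul_of_nonneg_left (by linarith) hX0.le
    linarith
  · have h1 : Real.log A + Real.log (1 + ε) = Real.log X := by
      rw [← hAX, Real.log_mul hA.ne' (by positivity)]
    have h2 : Real.log X = Real.log 2 + 2 * Real.log Y - Real.log κ := by
      rw [hX, Real.log_div (by positivity) hk0.ne', Real.log_mul (by norm_num) (by positivity),
        Real.log_pow]
      push_cast
      ring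
    have h3 : Real.log Y = -w := by
      rw [h.hw, neg_neg]
    have h4 : el κ = -Real.log κ := rfl
    have h5 : 0 ≤ Real.log (1 + ε) := Real.log_nonneg (by linarith)
    have h6 : Real.log (1 + ε) ≤ Real.log 2 := Real.log_le_log (by positivity) (by linarith)
    have h7 := Real.log_two_lt_d9
    rw [abs_le]
    constructor <;> linarith
  · have h1 := h.ratio.2
    have h2 : w * m / (4 * el κ) ≤ w * m / (39 / 10 * u ^ 4) := by
      refine div_le_div_of_nonneg_left (by positivity) (by positivity) ?_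
      have : 0 < u ^ 4 := by positivity
      linarith [hel.1]
    have h3 : 1 + 1 / u ≤ 3 / 2 := by
      have : 1 / u ≤ 1 / 1000 := one_div_le_one_div_of_le (by norm_num) hu
      linarith
    have h4 : Y / κ ≤ w * m / (39 / 10 * u ^ 4) * (3 / 2) :=
      h1.trans (mul_le_mul h2 h3 (by positivity) (by positivity))
    have h5 : X = 2 * Y * (Y / κ) := by
      rw [hX]
      ring
    have h6 : X ≤ 2 * (1 / 3) * (w * m / (39 / 10 * u ^ 4) * (3 / 2)) := by
      rw [h5]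
      exact mul_le_mul (by linarith) h4 (by positivity) (by norm_num)
    have h7 : 2 * (1 / 3) * (w * m / (39 / 10 * u ^ 4) * (3 / 2)) = m * (w / (39 / 10 * u ^ 4)) := by
      field_simp
    have h8 : w / (39 / 10 * u ^ 4) ≤ 1 := by
      rw [div_le_one (by positivity)]
      have h9 : w ≤ u := hww.trans (div_le_self (by linarith) (by norm_num))
      linarith
    have h10 : m * (w / (39 / 10 * u ^ 4)) ≤ m * 1 := mul_le_mul_of_nonneg_left h8 hm0.le
    linarith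

end Pool.Agent.RieszWin
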