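import Pool.Agent.RieszWin.CAsyB
import Pool.Agent.RieszWin.SqDefs

set_option autoImplicit false

open Real Finset

namespace Pool.Agent.RieszWin

open Pool.Agent.RieszSmall Pool.Agent.RieszLin Pool.Agent.RieszTr

namespace CAsyCAux

variable {u q m κ Y A : ℝ}

theorem u_ge (h : Rg u q m) : (1000 : ℝ) ≤ u :=
  le_trans (le_trans (by norm_num) (pow_le_pow_right₀ (by norm_num : (1:ℝ) ≤ 10)
    (by norm_num : 20 ≤ 200))) h.win.hu

theorem u20 (h : Rg u q m) : (10 : ℝ) ^ 20 ≤ u :=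
  (pow_le_pow_right₀ (by norm_num : (1:ℝ) ≤ 10) (by norm_num : 20 ≤ 200)).trans h.win.hu

/-- `u^4 ≤ 2 m / u²`, i.e. `m ≥ u^8/2 ≥ ...` -/
theorem m_ge (h : Rg u q m) : 10 * u ^ 7 ≤ m := by
  have hu := u_ge h
  have hu0 : 0 < u := by linarith
  have h1 := Real.quadratic_le_exp_of_nonneg (pow_pos hu0 4).le
  rw [h.win.hm]
  have h2 : u ^ 4 * u ^ 4 = u ^ 7 * u := by ring
  have h3 : u ^ 7 * 1000 ≤ u ^ 7 * u := mul_le_mul_of_nonneg_left hu (pow_pos hu0 7).le
  have h4 : 0 < u ^ 7 := pow_pos hu0 7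
  have h5 : 0 < u ^ 4 := pow_pos hu0 4
  nlinarith

/-- `M = m K₀ ≤ 1.16 u^4` -/
theorem M_le (h : Rg u q m) : m * K0 q m ≤ 116 / 100 * u ^ 4 := by
  have hel := h.win.el_bds
  have hu := u_ge h
  have hu0 : 0 < u := by linarith
  have hU : 0 < u ^ 4 := pow_pos hu0 4
  have he0 : 0 < el (K0 q m) := by linarith [hel.1]
  have h1 := h.hi
  rw [lam, div_le_iff₀ he0] at h1
  linarith [hel.2]

theorem M_pos (h : Rg u q m) : 0 < m * K0 q m := by
  obtain ⟨hu0, hm0, hq0, hk0, -⟩ := h.win.pos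
  positivity

theorem lam_pos (h : Rg u q m) : 0 < lam m (K0 q m) := by
  have hel := h.win.el_bds
  have hu := u_ge h
  have hu0 : 0 < u := by linarith
  have hU : 0 < u ^ 4 := pow_pos hu0 4
  have he0 : 0 < el (K0 q m) := by linarith [hel.1]
  rw [lam]
  exact div_pos (M_pos h) he0

/-- `1/u³ ≤ 10^(-9)` and so on -/
theorem inv_u (h : Rg u q m) : 0 < 1 / u ∧ 1 / u ≤ 1 / 1000 ∧ 1 / u ^ 3 ≤ 1 / 10 ^ 6 * (1 / u) ∧
    0 < 1 / u ^ 3 ∧ 4 / m ≤ 1 / u ^ 3 ∧ 0 < 4 / m := by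
  have hu := u_ge h
  have hu0 : 0 < u := by linarith
  have hm := m_ge h
  have hu3 : 0 < u ^ 3 := pow_pos hu0 3
  have hm0 : 0 < m := lt_of_lt_of_le (by positivity) hm
  refine ⟨by positivity, one_div_le_one_div_of_le (by norm_num) hu, ?_, by positivity, ?_,
    by positivity⟩
  · rw [one_div_mul_one_div]
    refine one_div_le_one_div_of_le (by positivity) ?_
    have h1 : u ^ 3 = u ^ 2 * u := by ring
    rw [h1]
    refine mul_le_mul_of_nonneg_right ?_ hu0.le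
    nlinarith
  · rw [div_le_div_iff₀ hm0 hu3]
    have h1 : u ^ 3 ≤ u ^ 7 := pow_le_pow_right₀ (by linarith) (by norm_num)
    linarith

theorem kapM (h : Rg u q m) (hs : Sqr q m κ Y A) : m * κ ≤ m * K0 q m * (1 + 3 * (1 / u ^ 3)) := by
  obtain ⟨hu0, hm0, hq0, hk0, -⟩ := h.win.pos
  have h1 := h.kap_le hs
  have h2 := mul_le_mul_of_nonneg_left h1 hm0.le
  calc m * κ ≤ m * (K0 q m * (1 + 3 / u ^ 3)) := h2
    _ = m * K0 q m * (1 + 3 * (1 / u ^ 3)) := by ring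

/-- `w = -log Y ≤ u / 10^9` -/
theorem w_le (h : Rg u q m) (hs : Sqr q m κ Y A) : -Real.log Y ≤ u / 10 ^ 9 :=
  (h.w_le hs).trans (logu h.win.hu).2.1

theorem two (h : Rg u q m) : 0 ≤ Real.log (1 + (2 : ℝ) ^ (-(q + 1))) ∧
    Real.log (1 + (2 : ℝ) ^ (-(q + 1))) ≤ Real.log 2 := by
  obtain ⟨hu0, hm0, hq0, hk0, -⟩ := h.win.pos
  have h1 : 0 < (2 : ℝ) ^ (-(q + 1)) := Real.rpow_pos_of_pos (by norm_num) _
  have h2 : (2 : ℝ) ^ (-(q + 1)) ≤ 1 :=
    Real.rpow_le_one_of_one_le_of_nonpos (by norm_num) (by linarith)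
  exact ⟨Real.log_nonneg (by linarith), Real.log_le_log (by linarith) (by linarith)⟩

/-- `|el κ - log A| ≤ 2 w + 1`, `log A ≥ el κ - 2 w` -/
theorem logA_bds (h : Rg u q m) (hs : Sqr q m κ Y A) :
    el κ - 2 * -Real.log Y ≤ Real.log A ∧ |el κ - Real.log A| ≤ 2 * -Real.log Y + 1 := by
  obtain ⟨h1, h2, h3⟩ := h.logA hs
  obtain ⟨h4, h5⟩ := two h
  have h6 := Real.log_two_lt_d9
  refine ⟨by linarith, ?_⟩
  rw [abs_le]
  constructor <;> linarith

theorem el_ge (h : Rg u q m) (hs : Sqr q m κ Y A) :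
    el (K0 q m) - 3 * (1 / u ^ 3) ≤ el κ := by
  obtain ⟨hu0, hm0, hq0, hk0, -⟩ := h.win.pos
  have h1 := h.kap_le hs
  have h2 : Real.log κ ≤ Real.log (K0 q m * (1 + 3 / u ^ 3)) := Real.log_le_log hs.hk h1
  have h3 : 0 < 1 + 3 / u ^ 3 := by positivity
  rw [Real.log_mul hk0.ne' h3.ne'] at h2
  have h4 := Real.log_le_sub_one_of_pos h3
  rw [el, el]
  have h5 : 3 / u ^ 3 = 3 * (1 / u ^ 3) := by ring
  linarith

theorem exp_w (hs : Sqr q m κ Y A) : Real.exp (-Real.log Y) * Y = 1 := by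
  rw [Real.exp_neg, Real.exp_log hs.hY]
  exact inv_mul_cancel₀ hs.hY.ne'

theorem exp_112 : 28 / 25 * Real.exp (28 / 25) < 343 / 100 + 4 / 1000 := by
  have h1 : Real.exp (28 / 25 : ℝ) = Real.exp 1 * Real.exp (3 / 25) := by
    rw [← Real.exp_add]
    norm_num
  have h2 := Real.exp_one_lt_d9
  have h3 : Real.exp (3 / 25 : ℝ) ≤ 11276 / 10000 := by
    have := Real.exp_bound' (x := 3 / 25) (by norm_num) (by norm_num) (n := 3) (by norm_num)
    refine this.trans ?_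
    norm_num [Finset.sum_range_succ, Nat.factorial]
  have h4 := Real.exp_pos (3 / 25 : ℝ)
  have h5 := Real.exp_pos (1 : ℝ)
  rw [h1]
  nlinarith

theorem exp_1154 : 577 / 500 * Real.exp (577 / 500) < 3662 / 1000 := by
  have h1 : Real.exp (577 / 500 : ℝ) = Real.exp 1 * Real.exp (77 / 500) := by
    rw [← Real.exp_add]
    norm_num
  have h2 := Real.exp_one_lt_d9
  have h3 : Real.exp (77 / 500 : ℝ) ≤ 116651 / 100000 := by
    have := Real.exp_bound' (x := 77 / 500) (by norm_num) (by norm_num) (n := 4) (by norm_num)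
    refine this.trans ?_
    norm_num [Finset.sum_range_succ, Nat.factorial]
  have h4 := Real.exp_pos (77 / 500 : ℝ)
  have h5 := Real.exp_pos (1 : ℝ)
  rw [h1]
  nlinarith

theorem texp_lt {w t B : ℝ} (ht : t * Real.exp t < B) (hw : B ≤ w * Real.exp w) (ht0 : 0 < t)
    : t ≤ w := by
  by_contra hcon
  push Not at hcon
  have h1 : Real.exp w ≤ Real.exp t := Real.exp_le_exp.2 hcon.le
  have h2 : w * Real.exp w ≤ t * Real.exp t :=
    mul_le_mul hcon.le h1 (Real.exp_pos _).le ht0.le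
  linarith

/-- the scalar inequality `(1 - 1/u)(1 + 3/u³)(1+4/m) ≤ 1 - 3/u³` -/
theorem scal {a b c : ℝ} (ha : a ≤ 1 / 1000) (hb0 : 0 < b) (hb : b ≤ 1 / 10 ^ 6 * a)
    (_hc0 : 0 < c) (hc : c ≤ b) :
    (1 - a) * ((1 + 3 * b) * (1 + c)) ≤ 1 - 3 * b := by
  have ha0 : 0 < a := by nlinarith
  have hb1 : b ≤ 1 := by nlinarith
  have h1 : (1 + 3 * b) * (1 + c) ≤ 1 + 7 * b := by nlinarith
  have h2 : (1 - a) * ((1 + 3 * b) * (1 + c)) ≤ (1 - a) * (1 + 7 * b) :=
    mul_le_mul_of_nonneg_left h1 (by linarith)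
  have h3 : (1 - a) * (1 + 7 * b) ≤ 1 + 7 * b - a := by nlinarith [mul_pos ha0 hb0]
  linarith

end CAsyCAux

open CAsyCAux

section

variable {u q m κ Y A : ℝ}

/-- MODULE RW65. `m κ u^4 ≥ 0.99 u³`, `m κ ≤ 2 m K₀ ≤ 3 u^4`. -/
theorem Rg.win_kap (h : Rg u q m) (hs : Sqr q m κ Y A) : Win u q m κ := by
  obtain ⟨hu0, hm0, hq0, hk0, -⟩ := h.win.pos
  have hu := u_ge h
  obtain ⟨h1, h2, h3, h4, h5, h6⟩ := inv_u h
  refine ⟨h.win.hu, h.win.hm, hs.hk, ?_, ?_, h.win.plo, h.win.phi⟩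
  · have h7 := h.kap_ge hs
    have h8 : 3 * u ^ 4 / m ≤ 1 / 2 := by
      rw [div_le_div_iff₀ hm0 (by norm_num)]
      have h9 := m_ge h
      have h10 : u ^ 4 ≤ u ^ 7 := pow_le_pow_right₀ (by linarith) (by norm_num)
      linarith
    have h9 : K0 q m * (1 / 2) ≤ κ :=
      le_trans (mul_le_mul_of_nonneg_left (by linarith) hk0.le) h7
    have h10 : 1 / u * (1 / 2) ≤ m * κ := by
      have h11 := mul_le_mul_of_nonneg_left h9 hm0.le
      have h12 := h.lo
      linarith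
    have h11 : 1 / u * (1 / 2) * u ^ 4 ≤ m * κ * u ^ 4 :=
      mul_le_mul_of_nonneg_right h10 (pow_pos hu0 4).le
    have h12 : 1 / u * (1 / 2) * u ^ 4 = u ^ 3 / 2 := by
      field_simp
    have h13 : (1000 : ℝ) ^ 3 ≤ u ^ 3 := pow_le_pow_left₀ (by norm_num) hu 3
    have h14 : (1000 : ℝ) ^ 3 = 10 ^ 9 := by norm_num
    linarith
  · have h7 := kapM h hs
    have h8 := M_le h
    have h9 := M_pos h
    have hU : 0 < u ^ 4 := pow_pos hu0 4
    have h10 : m * K0 q m * (1 + 3 * (1 / u ^ 3)) ≤ m * K0 q m * 2 :=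
      mul_le_mul_of_nonneg_left (by linarith) h9.le
    have h11 : (3 : ℝ) ≤ 10 ^ 105 := by norm_num
    have h12 : 3 * u ^ 4 ≤ 10 ^ 105 * u ^ 4 := mul_le_mul_of_nonneg_right h11 hU.le
    linarith

/-- Lower bound of `w e^w`, `w = -log Y`: `w e^w = w/Y ≥ 4 log A/(m κ (1 + 4/m))`,
`log A ≥ el κ - 2w - 1 ≥ el K₀ (1 - 1/u²)` and `m κ ≤ m K₀ (1 + 3/u³)`, so
`w e^w ≥ (4/lam)(1 - 1/u)`. -/
theorem Rg.wexp_ge (h : Rg u q m) (hs : Sqr q m κ Y A) :
    4 / lam m (K0 q m) * (1 - 1 / u) ≤ -Real.log Y * Real.exp (-Real.log Y) := by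
  obtain ⟨hu0, hm0, hq0, hk0, -⟩ := h.win.pos
  have hu := u_ge h
  obtain ⟨h1, h2, h3, h4, h5, h6⟩ := inv_u h
  have hel := h.win.el_bds
  have hU : 0 < u ^ 4 := pow_pos hu0 4
  have he0 : 0 < el (K0 q m) := by linarith [hel.1]
  have hM := M_pos h
  obtain ⟨hw0, hA0, -⟩ := h.logA hs
  have hrel := (h.relA hs).2
  have hlogA := (logA_bds h hs).1
  have helg := el_ge h hs
  have hwl := CAsyCAux.w_le h hs
  have hex := exp_w hs
  have hkM := kapM h hs
  set w : ℝ := -Real.log Y with hw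
  set E : ℝ := Real.exp w with hE
  have hE0 : 0 < E := Real.exp_pos _
  have hb : (1 - 1 / u) * ((1 + 3 * (1 / u ^ 3)) * (1 + 4 / m)) ≤ 1 - 3 * (1 / u ^ 3) :=
    scal h2 h4 h3 h6 h5
  -- `log A ≥ el K₀ (1 - 3/u³)`
  have h7 : el (K0 q m) * (1 - 3 * (1 / u ^ 3)) ≤ Real.log A := by
    have h8 : 3 * (1 / u ^ 3) + 2 * w ≤ el (K0 q m) * (3 * (1 / u ^ 3)) := by
      have h9 : 998 / 1000 * u ^ 4 * (3 * (1 / u ^ 3)) ≤ el (K0 q m) * (3 * (1 / u ^ 3)) :=
        mul_le_mul_of_nonneg_right hel.1 (by positivity)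
      have h10 : 998 / 1000 * u ^ 4 * (3 * (1 / u ^ 3)) = 2994 / 1000 * u := by
        field_simp
        ring
      have h11 : 3 * (1 / u ^ 3) ≤ 1 := by linarith
      linarith
    linarith
  have h8 : 4 * Real.log A ≤ w * E * (m * κ) * (1 + 4 / m) := by
    have h9 := mul_le_mul_of_nonneg_left hrel hE0.le
    have h10 : E * (4 * Y * Real.log A) = 4 * Real.log A * (E * Y) := by ring
    rw [h10, hex, mul_one] at h9
    linarith
  have h9 : w * E * (m * κ) * (1 + 4 / m) ≤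
      w * E * (m * K0 q m * (1 + 3 * (1 / u ^ 3))) * (1 + 4 / m) := by
    refine mul_le_mul_of_nonneg_right ?_ (by positivity)
    exact mul_le_mul_of_nonneg_left hkM (by positivity)
  set F : ℝ := (1 + 3 * (1 / u ^ 3)) * (1 + 4 / m) with hF
  have hF0 : 0 < F := by positivity
  have h10 : 4 * el (K0 q m) * (1 - 1 / u) * F ≤ w * E * (m * K0 q m) * F := by
    calc 4 * el (K0 q m) * (1 - 1 / u) * F = 4 * el (K0 q m) * ((1 - 1 / u) * F) := by ring
      _ ≤ 4 * el (K0 q m) * (1 - 3 * (1 / u ^ 3)) :=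
        mul_le_mul_of_nonneg_left hb (by positivity)
      _ = 4 * (el (K0 q m) * (1 - 3 * (1 / u ^ 3))) := by ring
      _ ≤ 4 * Real.log A := by linarith
      _ ≤ w * E * (m * κ) * (1 + 4 / m) := h8
      _ ≤ w * E * (m * K0 q m * (1 + 3 * (1 / u ^ 3))) * (1 + 4 / m) := h9
      _ = w * E * (m * K0 q m) * F := by rw [hF]; ring
  have h11 : 4 * el (K0 q m) * (1 - 1 / u) ≤ w * E * (m * K0 q m) :=
    le_of_mul_le_mul_right h10 hF0
  have h12 : 4 / lam m (K0 q m) * (1 - 1 / u) = 4 * el (K0 q m) * (1 - 1 / u) / (m * K0 q m) := by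
    rw [lam]
    field_simp
  rw [h12, div_le_iff₀ hM]
  exact h11

/-- `w e^w ≥ (80/23)(1 - 1/u) > 3.44 > (28/25) exp (28/25)` (`= 3.4327..`); `t e^t` is
increasing. -/
theorem Rg.w_ge (h : Rg u q m) (hs : Sqr q m κ Y A) : 28 / 25 ≤ -Real.log Y := by
  obtain ⟨h1, h2, -⟩ := inv_u h
  have hw0 := (h.logA hs).1
  have h3 := h.wexp_ge hs
  have hl0 := lam_pos h
  have h4 : 4 / (23 / 20) ≤ 4 / lam m (K0 q m) := div_le_div_of_nonneg_left (by norm_num) hl0 h.hi
  have h5 : (4 : ℝ) / (23 / 20) * (1 - 1 / 1000) ≤ 4 / lam m (K0 q m) * (1 - 1 / u) :=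
    mul_le_mul h4 (by linarith) (by norm_num) (by positivity)
  have h6 : (343 / 100 + 4 / 1000 : ℝ) ≤ 4 / (23 / 20) * (1 - 1 / 1000) := by norm_num
  exact texp_lt exp_112 (h6.trans (h5.trans h3)) (by norm_num)

/-- `w e^w ≥ (400/109)(1 - 1/u) > 3.665 > 1.154 exp (1.154)` (`= 3.6594..`). -/
theorem Rg.w_ge' (h : Rg u q m) (hs : Sqr q m κ Y A) (hl : lam m (K0 q m) ≤ 109 / 100) :
    577 / 500 ≤ -Real.log Y := by
  obtain ⟨h1, h2, -⟩ := inv_u h
  have hw0 := (h.logA hs).1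
  have h3 := h.wexp_ge hs
  have hl0 := lam_pos h
  have h4 : 4 / (109 / 100) ≤ 4 / lam m (K0 q m) := div_le_div_of_nonneg_left (by norm_num) hl0 hl
  have h5 : (4 : ℝ) / (109 / 100) * (1 - 1 / 1000) ≤ 4 / lam m (K0 q m) * (1 - 1 / u) :=
    mul_le_mul h4 (by linarith) (by norm_num) (by positivity)
  have h6 : (3662 / 1000 : ℝ) ≤ 4 / (109 / 100) * (1 - 1 / 1000) := by norm_num
  exact texp_lt exp_1154 (h6.trans (h5.trans h3)) (by norm_num)

/-- All fields of `Apx`; `rel`: `|4 Y el κ - w m κ| ≤ |4 Y log A - w m κ| + 4 Y |el κ - log A|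
≤ w m κ · 4/m + 4 Y (2 w + 1)`, and `4 Y ≤ w m κ (1 + 4/m)/log A`, `log A ≥ 0.99 u^4`,
`w ≤ 6 log u`. -/
theorem Rg.apx (h : Rg u q m) (hs : Sqr q m κ Y A) : Apx u q m κ Y A (-Real.log Y) := by
  obtain ⟨hu0, hm0, hq0, hk0, -⟩ := h.win.pos
  have hu := u_ge h
  obtain ⟨h1, h2, h3, h4, h5, h6⟩ := inv_u h
  have hU : 0 < u ^ 4 := pow_pos hu0 4
  obtain ⟨hw0, hA0, -⟩ := h.logA hs
  have hwin := h.win_kap hs
  have hY := hs.hY
  refine ⟨hwin, hs, rfl, h.w_ge hs, ?_, ?_⟩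
  · exact (pow_le_pow_left₀ hw0.le (h.w_le hs) 3).trans (logu h.win.hu).1
  · obtain ⟨hr1, hr2⟩ := h.relA hs
    obtain ⟨hl1, hl2⟩ := logA_bds h hs
    have hwl := CAsyCAux.w_le h hs
    have hel := hwin.el_bds
    set w : ℝ := -Real.log Y with hw
    set L : ℝ := Real.log A with hL
    set X : ℝ := w * (m * κ) with hX
    have hκ := hs.hk
    have hX0 : 0 < X := by positivity
    have hL1 : 99 / 100 * u ^ 4 ≤ L := by
      have h7 : u ≤ u ^ 4 / 1000 := by
        have h8 : u ^ 4 = u * u ^ 3 := by ring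
        have h9 : (1000 : ℝ) ≤ u ^ 3 := by
          calc (1000 : ℝ) ≤ u := hu
            _ = u ^ 1 := (pow_one u).symm
            _ ≤ u ^ 3 := pow_le_pow_right₀ (by linarith) (by norm_num)
        have h10 : u * 1000 ≤ u * u ^ 3 := mul_le_mul_of_nonneg_left h9 hu0.le
        rw [h8]
        linarith
      linarith [hel.1]
    have hL0 : 0 < L := hA0
    -- `|4 Y L - X| ≤ X 4/m`
    have h7 : |4 * Y * L - X| ≤ X * (4 / m) := by
      rw [abs_le]
      constructor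
      · have h8 : 3 / m ≤ 4 / m * (1 - 1 / 100) := by
          have : 3 / m = 4 / m * (3 / 4) := by ring
          rw [this]
          exact mul_le_mul_of_nonneg_left (by norm_num) h6.le
        have h9 : 4 / m ≤ 1 / 1000 := by linarith
        set c : ℝ := 4 / m with hc
        have h10 : X ≤ 4 * Y * L * (1 + c * (99 / 100)) :=
          hr1.trans (mul_le_mul_of_nonneg_left (by linarith) (by positivity))
        have h11 : 4 * Y * L * (c * (99 / 100)) ≤ X * (1 + c) * (c * (99 / 100)) :=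
          mul_le_mul_of_nonneg_right hr2 (by positivity)
        have h12 : X * (1 + c) * (c * (99 / 100)) ≤ X * c := by
          have h13 : (1 + c) * (c * (99 / 100)) ≤ c := by nlinarith
          calc X * (1 + c) * (c * (99 / 100)) = X * ((1 + c) * (c * (99 / 100))) := by ring
            _ ≤ X * c := mul_le_mul_of_nonneg_left h13 hX0.le
        linarith
      · linarith
    -- `4 Y |el κ - L| ≤ X * 3/u³`
    have h8 : 4 * Y * |el κ - L| ≤ X * (3 * (1 / u ^ 3)) := by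
      have h9 : 4 * Y * |el κ - L| ≤ 4 * Y * u := by
        refine mul_le_mul_of_nonneg_left (hl2.trans ?_) (by positivity)
        linarith
      have h10 : 4 * Y * L ≤ X * (1 + 1 / 1000) := by
        refine hr2.trans (mul_le_mul_of_nonneg_left ?_ hX0.le)
        linarith
      have h11 : 4 * Y * u * (99 / 100 * u ^ 3) ≤ 4 * Y * L := by
        have h12 : 4 * Y * u * (99 / 100 * u ^ 3) = 4 * Y * (99 / 100 * u ^ 4) := by ring
        rw [h12]
        exact mul_le_mul_of_nonneg_left hL1 (by positivity)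
      have hu3 : 0 < u ^ 3 := pow_pos hu0 3
      have h12 : 4 * Y * u ≤ X * (3 * (1 / u ^ 3)) := by
        refine le_of_mul_le_mul_right (a := 99 / 100 * u ^ 3) ?_ (by positivity)
        have h13 : X * (3 * (1 / u ^ 3)) * (99 / 100 * u ^ 3) = X * (297 / 100) := by
          field_simp
          norm_num
        rw [h13]
        have h14 : X * (1 + 1 / 1000) ≤ X * (297 / 100) :=
          mul_le_mul_of_nonneg_left (by norm_num) hX0.le
        linarith
      exact h9.trans h12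
    have h9 : 4 * Y * el κ - X = (4 * Y * L - X) + 4 * Y * (el κ - L) := by ring
    rw [h9]
    refine (abs_add_le _ _).trans ?_
    have h10 : |4 * Y * (el κ - L)| = 4 * Y * |el κ - L| := by
      rw [abs_mul, abs_of_pos (by positivity : (0:ℝ) < 4 * Y)]
    rw [h10]
    have h11 : X / u = X * (1 / u) := by ring
    rw [h11]
    have h12 : X * (4 / m) + X * (3 * (1 / u ^ 3)) ≤ X * (1 / u) := by
      rw [← mul_add]
      refine mul_le_mul_of_nonneg_left ?_ hX0.le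
      linarith
    linarith

end

end Pool.Agent.RieszWin
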