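import Pool.Agent.RieszWin.Defs
import Pool.Agent.RieszTr.Lower

set_option autoImplicit false

open Real Finset

namespace Pool.Agent.RieszWin

open Pool.Agent.RieszSmall Pool.Agent.RieszLin Pool.Agent.RieszTr

section

variable {ι : Type*} [Fintype ι] [DecidableEq ι]

/-- MODULE RW22 (the block relation). `Blk` is symmetric under `a ↦ -a` (`t ↦ -t`). -/
theorem Blk_neg {m : ℝ} {a : ι → ℝ} (h : Blk m (fun i => -a i)) : Blk m a := by
  obtain ⟨i1, i2, hi, t, ht, h1, h2, h3⟩ := h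
  refine ⟨i1, i2, hi, -t, neg_ne_zero.mpr ht, ?_, ?_, fun z g1 g2 => ?_⟩
  · simp only at h1
    linarith
  · simp only at h2
    linarith
  · have := h3 z g1 g2
    simp only at this
    rw [neg_div, ← this, neg_neg]

/-- The proof of `RieszTr.blk_cert` (RieszTr/BlkEq.lean) uses only `0 < q` and `2 ≤ m`. -/
theorem blk_cert' {q m : ℝ} (hq : 0 < q) (hm : 2 ≤ m) (hc : (Fintype.card ι : ℝ) = m + 2)
    {a : ι → ℝ}
    {i1 i2 : ι} (hne : i1 ≠ i2) {t : ℝ} (ht : t ≠ 0) (h1 : a i1 = -t / 2) (h2 : a i2 = -t / 2)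
    (h3 : ∀ z, z ≠ i1 → z ≠ i2 → a z = t / m) :
    ∃ v w : ι → ℝ, BB q a v w = TT q m ∧
      v i1 * v i2 + a i1 * w i2 + a i2 * w i1 = (2 : ℝ) ^ (-(q + 1)) ∧
      (∀ j, j ≠ i1 → j ≠ i2 → v i1 * v j + a i1 * w j + a j * w i1 = 1 ∧
        v i2 * v j + a i2 * w j + a j * w i2 = 1) ∧
      (∀ i j, i ≠ i1 → i ≠ i2 → j ≠ i1 → j ≠ i2 → i ≠ j →
        v i * v j + a i * w j + a j * w i = (1 - 1 / m) ^ (q + 1)) := by
  have hm2 := hm
  have hm : 0 < m := by linarith
  have hk := kp_pos (q := q) hm2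
  have hsq : √(kp q m) * √(kp q m) = kp q m := Real.mul_self_sqrt hk.le
  have e0 := id_K0 (q := q) hm2
  have e1 := id_one (q := q) (m := m)
  have e2 := id_ze (q := q) (m := m)
  set w : ι → ℝ := fun i => if i = i1 ∨ i = i2 then ze q m / t else -Om q m / t with hw
  have w1 : w i1 = ze q m / t := by simp [hw]
  have w2 : w i2 = ze q m / t := by simp [hw]
  have w3 : ∀ z, z ≠ i1 → z ≠ i2 → w z = -Om q m / t := fun z g1 g2 => by simp [hw, g1, g2]
  have k12 : √(kp q m) * √(kp q m) + a i1 * w i2 + a i2 * w i1 = (2 : ℝ) ^ (-(q + 1)) := by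
    rw [hsq, h1, h2, w1, w2, ← e2]
    field_simp
    ring
  have k21 : √(kp q m) * √(kp q m) + a i2 * w i1 + a i1 * w i2 = (2 : ℝ) ^ (-(q + 1)) := by
    rw [← k12]; ring
  have k1z : ∀ z, z ≠ i1 → z ≠ i2 → √(kp q m) * √(kp q m) + a i1 * w z + a z * w i1 = 1 := by
    intro z g1 g2
    rw [hsq, h1, w1, w3 z g1 g2, h3 z g1 g2, ← e1]
    field_simp
    ring
  have k2z : ∀ z, z ≠ i1 → z ≠ i2 → √(kp q m) * √(kp q m) + a i2 * w z + a z * w i2 = 1 := by
    intro z g1 g2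
    rw [hsq, h2, w2, w3 z g1 g2, h3 z g1 g2, ← e1]
    field_simp
    ring
  have kzz : ∀ y z, y ≠ i1 → y ≠ i2 → z ≠ i1 → z ≠ i2 →
      √(kp q m) * √(kp q m) + a y * w z + a z * w y = K0 q m := by
    intro y z g1 g2 g3 g4
    rw [hsq, w3 z g3 g4, h3 z g3 g4, w3 y g1 g2, h3 y g1 g2, ← e0]
    field_simp
    ring
  refine ⟨fun _ => √(kp q m), w, ?_, k12, fun j g1 g2 => ⟨k1z j g1 g2, k2z j g1 g2⟩,
    fun i j g1 g2 g3 g4 _ => kzz i j g1 g2 g3 g4⟩
  unfold BB
  rw [BlkEqAux.offsum_blk hne _ (A := Phi q ((2 : ℝ) ^ (-(q + 1)))) (B := 1) (C := Phi q (K0 q m))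
    (by simp only; rw [k12]) (by simp only; rw [k21])
    (fun z g1 g2 => by
      have e3 := k1z z g1 g2
      have e4 := k2z z g1 g2
      have e5 : √(kp q m) * √(kp q m) + a z * w i1 + a i1 * w z = 1 := by rw [← e3]; ring
      have e6 : √(kp q m) * √(kp q m) + a z * w i2 + a i2 * w z = 1 := by rw [← e4]; ring
      simp only
      rw [e3, e4, e5, e6]
      exact ⟨BlkEqAux.Phi_one hq, BlkEqAux.Phi_one hq, BlkEqAux.Phi_one hq, BlkEqAux.Phi_one hq⟩)
    (fun y z g1 g2 g3 g4 _ => by simp only; rw [kzz y z g1 g2 g3 g4])]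
  rw [BlkEqAux.sum_split2 hne (fun i => √(kp q m) ^ 2 + 2 * a i * w i) (c := K0 q m)
    (fun z g1 g2 => by
      rw [← kzz z z g1 g2 g1 g2]
      ring)]
  have d1 : √(kp q m) ^ 2 + 2 * a i1 * w i1 = (2 : ℝ) ^ (-(q + 1)) := by
    rw [← k12, h1, h2, w1, w2]; ring
  have d2 : √(kp q m) ^ 2 + 2 * a i2 * w i2 = (2 : ℝ) ^ (-(q + 1)) := by
    rw [← k12, h1, h2, w1, w2]; ring
  rw [TT_eq1 hq hm2]
  rw [d1, d2, hc]
  ring

variable {V : Type*} [NormedAddCommGroup V] [InnerProductSpace ℝ V]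

/-- Lower bound and equality for a configuration with a block relation; the second part of the
proof of `RieszTr.lower_tr` (RieszTr/Lower.lean), `dual`, `blk_cert'`, `dual_eq`, `orth_of_K`. -/
theorem block_lower {q m : ℝ} (hq : 1 ≤ q) (hm : 2 ≤ m) {x : ι → V}
    (hc : (Fintype.card ι : ℝ) = m + 2) (hx : ∀ i, ‖x i‖ = 1)
    (hlt : ∀ i j, i ≠ j → (inner ℝ (x i) (x j) : ℝ) < 1) {a : ι → ℝ}
    (hax : ∑ i, a i • x i = 0) (hB : Blk m a) :
    TT q m ≤ En q x ∧ (En q x = TT q m → ∃ P : Finset ι, P.card = 2 ∧ OrthSimplices P x) := by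
  have hq0 : (0 : ℝ) < q := by linarith
  obtain ⟨i1, i2, hi, t, ht, h1, h2', h3⟩ := hB
  obtain ⟨v, w, hBB, k12, kc, kr⟩ := blk_cert' hq0 hm hc hi ht h1 h2' h3
  have hd := dual hx hlt hax hq0 v w
  refine ⟨by linarith, fun heq => ?_⟩
  have hle1 : (2 : ℝ) ^ (-(q + 1)) ≤ 1 :=
    Real.rpow_le_one_of_one_le_of_nonpos (by norm_num) (by linarith)
  have hK0 : (2 : ℝ) ^ (-(q + 1)) ≤ (1 - 1 / m) ^ (q + 1) := by
    have hm1 : 1 / m ≤ 1 / 2 := one_div_le_one_div_of_le (by norm_num) hm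
    have e : (2 : ℝ) ^ (-(q + 1)) = (1 / 2 : ℝ) ^ (q + 1) := by
      rw [Real.rpow_neg (by norm_num), ← Real.inv_rpow (by norm_num)]
      norm_num
    rw [e]
    exact Real.rpow_le_rpow (by norm_num) (by linarith) (by linarith)
  have hsym : ∀ i j, v i * v j + a i * w j + a j * w i =
      v j * v i + a j * w i + a i * w j := fun i j => by ring
  have hK : ∀ i j, i ≠ j → (2 : ℝ) ^ (-(q + 1)) ≤ v i * v j + a i * w j + a j * w i := by
    intro i j hij
    by_cases hi1 : i = i1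
    · subst hi1
      by_cases hj2 : j = i2
      · subst hj2
        exact k12.ge
      · rw [(kc j (Ne.symm hij) hj2).1]
        exact hle1
    · by_cases hi2 : i = i2
      · subst hi2
        by_cases hj1 : j = i1
        · subst hj1
          rw [hsym]
          exact k12.ge
        · rw [(kc j hj1 (Ne.symm hij)).2]
          exact hle1
      · by_cases hj1 : j = i1
        · subst hj1
          rw [hsym, (kc i hi1 hi2).1]
          exact hle1
        · by_cases hj2 : j = i2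
          · subst hj2
            rw [hsym, (kc i hi1 hi2).2]
            exact hle1
          · rw [kr i j hi1 hi2 hj1 hj2 hij]
            exact hK0
  have e := dual_eq hx hlt hax hq0 v w hK (by linarith)
  exact orth_of_K (K := fun i j => v i * v j + a i * w j + a j * w i) hq hc hm hlt hi e
    k12 kc kr

end

end Pool.Agent.RieszWin
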