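import Pool.Agent.RieszWin.Facts
import Pool.Agent.RieszTr.TT

set_option autoImplicit false

open Real Finset

namespace Pool.Agent.RieszWin

open Pool.Agent.RieszSmall Pool.Agent.RieszLin Pool.Agent.RieszTr

/-- MODULE RW23 (upper bound of the block value). `TT_eq1` (RieszTr/TT.lean):
`TT - Base - 4 m = -(4m+2) Φ(K₀) + 2 q K₀ + 2 · 2^(-q)`, `Φ(K₀) = K₀ (1 + (q+1)/(m-1))`
(`K₀^(-1/p) = m/(m-1)`), `2 · 2^(-q) ≤ 1`. -/
theorem T_up {q m : ℝ} (hq : 1 ≤ q) (hm : 2 ≤ m) :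
    TT q m ≤ Base q m (K0 q m) + 4 * m + 1 := by
  have hq0 : 0 < q := by linarith
  have hm1 : 1 / m ≤ 1 / 2 := one_div_le_one_div_of_le (by norm_num) hm
  have hm0 : 0 < m := by linarith
  have hmi : 0 < 1 / m := by positivity
  have hb : 0 < 1 - 1 / m := by linarith
  rw [TT_eq1 hq0 hm, Base, TTAux.Phi_K0 hq0 hm, TTAux.Phi_two hq0]
  have hK : K0 q m = (1 - 1 / m) ^ q * (1 - 1 / m) := by
    rw [K0, Real.rpow_add hb, Real.rpow_one]
  rw [hK]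
  have hA : 0 < (1 - 1 / m) ^ q := Real.rpow_pos_of_pos hb q
  have hP : (2 : ℝ) ^ (-(q + 1)) ≤ 1 / 4 := by
    have h1 : (2 : ℝ) ^ (-(q + 1)) ≤ (2 : ℝ) ^ (-(2:ℝ)) :=
      Real.rpow_le_rpow_of_exponent_le (by norm_num) (by linarith)
    have h2 : (2 : ℝ) ^ (-(2:ℝ)) = 1 / 4 := by
      rw [Real.rpow_neg (by norm_num)]
      norm_num
    exact h1.trans_eq h2
  generalize (1 - 1 / m) ^ q = A at hA ⊢
  generalize (2 : ℝ) ^ (-(q + 1)) = P at hP ⊢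
  have h5 : m * (1 / m) = 1 := by field_simp
  generalize 1 / m = x at hm1 hmi hb h5 ⊢
  have key : m * (m - 1) * ((q + 1) * A - q * (A * (1 - x))) - q * m * (A * (1 - x)) + 4 * m +
        2 * ((q + 1) * (2 * P) - q * P) - 2 * q * P -
      (((m + 2) ^ 2 - (m + 2)) * ((q + 1) * A - q * (A * (1 - x))) - q * (m + 2) * (A * (1 - x)) +
        4 * m) = 4 * P - A * (4 * m + 2 + 2 * q + 4 * (q * x)) := by
    linear_combination (-4 * A * q) * h5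
  have h6 : 0 ≤ A * (4 * m + 2 + 2 * q + 4 * (q * x)) := by positivity
  linarith

/-- `Base ≤ (m+2)² Φ(κ)`, `Φ(κ) ≤ 2 κ u^4`, `m κ ≤ 10^105 u^4`. -/
theorem Win.Base_le {u q m κ : ℝ} (h : Win u q m κ) :
    Base q m κ ≤ Real.exp (11 / 10 * u ^ 4) := by
  obtain ⟨hu, hm, hq, hk, hk1⟩ := h.pos
  obtain ⟨he1, he2⟩ := h.el_bds
  obtain ⟨-, hb2, -⟩ := h.big
  have hU0 : 0 < u ^ 4 := FactsAux.U_pos h
  have hU1 : (1000 : ℝ) ≤ u ^ 4 := le_trans (by norm_num) (FactsAux.U_ge h)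
  have hm1 : (2 : ℝ) ≤ m := le_trans (by norm_num) (FactsAux.m_big h)
  have hl : |Real.log κ| ≤ 10 * u ^ 4 := by
    rw [el] at he1 he2
    rw [abs_le]
    constructor <;> linarith
  have hPhi := h.Phi_near hk hl
  have hPhi2 : Phi q κ ≤ 2 * κ * u ^ 4 := by
    have h1 : Real.exp (-(9 / 10) * u ^ 4) ≤ 1 := by
      rw [Real.exp_le_one_iff]
      linarith
    have h2 : Fh κ = κ * (1 + el κ) := by
      rw [Fh, el]
      ring
    have h3 : κ * Real.exp (-(9 / 10) * u ^ 4) ≤ κ * 1 := mul_le_mul_of_nonneg_left h1 hk.le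
    have h4 : κ * (1 + el κ) ≤ κ * (1 + 1002 / 1000 * u ^ 4) :=
      mul_le_mul_of_nonneg_left (by linarith) hk.le
    have h5 : κ * (2 + 1002 / 1000 * u ^ 4) ≤ κ * (2 * u ^ 4) :=
      mul_le_mul_of_nonneg_left (by linarith) hk.le
    rw [h2] at hPhi
    nlinarith
  have hm2 : (m + 2) ^ 2 ≤ 4 * m ^ 2 := by
    nlinarith
  have h1 : Base q m κ ≤ (m + 2) ^ 2 * (2 * κ * u ^ 4) := by
    have h2 : 0 ≤ q * (m + 2) * κ := by positivity
    have h3 : ((m + 2) ^ 2 - (m + 2)) * Phi q κ ≤ ((m + 2) ^ 2 - (m + 2)) * (2 * κ * u ^ 4) := by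
      apply mul_le_mul_of_nonneg_left hPhi2
      nlinarith
    have h4 : 0 ≤ (m + 2) * (2 * κ * u ^ 4) := by positivity
    rw [Base]
    linarith
  have h2 : (m + 2) ^ 2 * (2 * κ * u ^ 4) ≤ 4 * m ^ 2 * (2 * κ * u ^ 4) :=
    mul_le_mul_of_nonneg_right hm2 (by positivity)
  have h3 : 4 * m ^ 2 * (2 * κ * u ^ 4) = 8 * m * u ^ 4 * (m * κ) := by ring
  have h4 : 8 * m * u ^ 4 * (m * κ) ≤ 8 * m * u ^ 4 * (10 ^ 105 * u ^ 4) :=
    mul_le_mul_of_nonneg_left h.hi (by positivity)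
  have h5 : 8 * m * u ^ 4 * (10 ^ 105 * u ^ 4) = (8 * 10 ^ 105) * u ^ 8 * m := by ring
  have h6 : (8 * 10 ^ 105 : ℝ) ≤ u := le_trans (by norm_num) h.hu
  have hu1 : 1 ≤ u := le_trans (by norm_num) h.hu
  have h7 : (8 * 10 ^ 105) * u ^ 8 ≤ Real.exp (u ^ 4 / 10) := by
    calc (8 * 10 ^ 105) * u ^ 8 ≤ u * u ^ 8 := mul_le_mul_of_nonneg_right h6 (by positivity)
      _ = u ^ 9 := by ring
      _ ≤ u ^ 60 := pow_le_pow_right₀ hu1 (by norm_num)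
      _ ≤ Real.exp (u ^ 4 / 1000) := hb2
      _ ≤ Real.exp (u ^ 4 / 10) := by
        apply Real.exp_le_exp.2
        linarith
  have h8 : Real.exp (11 / 10 * u ^ 4) = Real.exp (u ^ 4 / 10) * m := by
    rw [h.hm, ← Real.exp_add]
    congr 1
    ring
  rw [h8]
  calc Base q m κ ≤ (8 * 10 ^ 105) * u ^ 8 * m := by linarith
    _ ≤ Real.exp (u ^ 4 / 10) * m := mul_le_mul_of_nonneg_right h7 hm.le

theorem Win.T_lt_exp {u q m : ℝ} (h : Win u q m (K0 q m)) :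
    TT q m < Real.exp (6 / 5 * u ^ 4) := by
  obtain ⟨hu, hm, hq, hk, hk1⟩ := h.pos
  obtain ⟨hb1, hb2, hb3⟩ := h.big
  have hU := FactsAux.U_ge h
  have hU1 : (1000 : ℝ) ≤ u ^ 4 := le_trans (by norm_num) hU
  have hm2 : (1000:ℝ) ≤ m := le_trans (by norm_num) (FactsAux.m_big h)
  clear hb1 hb3 hU
  have hq1 : 1 ≤ q := by
    have h1 := h.plo
    nlinarith
  have h1 := T_up hq1 (by linarith : (2:ℝ) ≤ m)
  have h2 := h.Base_le
  have h3 : m ≤ Real.exp (11 / 10 * u ^ 4) := by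
    rw [h.hm]
    apply Real.exp_le_exp.2
    linarith
  have h4 : (1:ℝ) ≤ Real.exp (11 / 10 * u ^ 4) := by linarith
  have h5 : (7:ℝ) ≤ Real.exp (u ^ 4 / 10) := by
    have := Real.add_one_le_exp (u ^ 4 / 10)
    linarith
  have h6 : Real.exp (6 / 5 * u ^ 4) = Real.exp (u ^ 4 / 10) * Real.exp (11 / 10 * u ^ 4) := by
    rw [← Real.exp_add]
    congr 1
    ring
  rw [h6]
  have h7 : 7 * Real.exp (11 / 10 * u ^ 4) ≤ Real.exp (u ^ 4 / 10) * Real.exp (11 / 10 * u ^ 4) :=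
    mul_le_mul_of_nonneg_right h5 (Real.exp_pos _).le
  linarith

end Pool.Agent.RieszWin
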