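import Pool.Agent.RieszWin.FV
import Pool.Agent.RieszWin.TUp

set_option autoImplicit false

open Real Finset

namespace Pool.Agent.RieszWin

open Pool.Agent.RieszSmall Pool.Agent.RieszLin Pool.Agent.RieszTr

section

variable {ι : Type*} [Fintype ι] [DecidableEq ι]

namespace BlkFarAux

open FactsAux

theorem h0_pos (u : ℝ) : 0 < h0 u := Real.exp_pos _

theorem mem_HP {u : ℝ} {a : ι → ℝ} {i : ι} : i ∈ HP u a ↔ h0 u < a i := by
  simp [HP]

theorem R3_le (u : ℝ) (a : ι → ℝ) (i1 i2 : ι) : R3 u a i1 i2 ≤ Pm u a := by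
  unfold R3 Pm
  apply Finset.sum_le_sum_of_subset_of_nonneg (Finset.filter_subset _ _)
  intro i hi _
  exact ((h0_pos u).trans (mem_HP.1 hi)).le

theorem exp_small {U c : ℝ} (hU : (10 : ℝ) ^ 80 ≤ U) (hc : (1 : ℝ) / 10 ≤ c) :
    Real.exp (-c * U) ≤ 1 / 10 ^ 6 := by
  have h1 : (10 : ℝ) ^ 10 ≤ U := (pow_le_pow_right₀ (by norm_num) (by norm_num)).trans hU
  have h2 := Real.add_one_le_exp (c * U)
  have h3 : (10 : ℝ) ^ 6 ≤ Real.exp (c * U) := by
    have : (1 : ℝ) / 10 * U ≤ c * U := mul_le_mul_of_nonneg_right hc (by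
      have : (0:ℝ) < 10 ^ 10 := by positivity
      linarith)
    have h4 : (10 : ℝ) ^ 6 ≤ 1 / 10 * 10 ^ 10 := by norm_num
    linarith
  have h5 : -c * U = -(c * U) := by ring
  rw [h5, Real.exp_neg, ← one_div]
  exact one_div_le_one_div_of_le (by positivity) h3

/-- `σ |a i| ≤ 2` -/
theorem hx_bd {u q m κ : ℝ} (h : Win u q m κ) {a : ι → ℝ}
    (hn : NonDom u a) (hn' : NonDom u (fun i => -a i)) {t y : ℝ}
    (ht : Pm u a = t * Pm u (fun i => -a i)) (ht0 : 0 ≤ t) (ht1 : t ≤ 1)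
    (hQ : 1 / 100 ≤ Pm u (fun i => -a i)) (hy : 3 / 10 ≤ y) (hy' : y ≤ 21 / 20) (i : ι) :
    2 * y / Pm u (fun i => -a i) * |a i| ≤ 2 := by
  set Q := Pm u (fun i => -a i) with hQd
  have hQ0 : 0 < Q := by linarith
  have he : Real.exp (-(3 / 10) * u ^ 4) ≤ 1 / 10 ^ 6 := exp_small (U_ge h) (by norm_num)
  have hh : h0 u ≤ 1 / 10 ^ 6 := exp_small (U_ge h) (by norm_num)
  rw [div_mul_eq_mul_div, div_le_iff₀ hQ0]
  have key : |a i| * 2 ≤ Q + 1 / 10 ^ 6 ∨ |a i| ≤ h0 u := by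
    rcases le_or_gt (|a i|) (h0 u) with h1 | h1
    · exact Or.inr h1
    · left
      rcases le_total 0 (a i) with h2 | h2
      · rw [abs_of_nonneg h2] at h1 ⊢
        have h3 := hn i (mem_HP.2 h1)
        rw [ht] at h3
        nlinarith
      · rw [abs_of_nonpos h2] at h1 ⊢
        have h3 := hn' i (mem_HP.2 h1)
        rw [← hQd] at h3
        linarith
  have ha0 := abs_nonneg (a i)
  rcases key with h1 | h1
  · nlinarith
  · nlinarith

theorem scal {u m κ l L S R t y Q : ℝ} (hu : (10 : ℝ) ^ 200 ≤ u) (hU : 998 / 1000 * u ^ 4 ≤ L)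
    (hk : 0 < κ) (hm : (10 : ℝ) ^ 300 ≤ m) (hl : 21 / 20 ≤ l) (hlL : l * L = m * κ)
    (ht0 : 0 ≤ t) (ht1 : t ≤ 1) (hQ : 1 / 100 ≤ Q) (hy : 3 / 10 ≤ y) (hy' : y ≤ 21 / 20)
    (hR : 0 ≤ R) (hS : S ≤ 10) (hV : 4 + 1 / 1000 ≤ S - 16 * t * y ^ 2 / l) :
    4 * m + 1 < m * (1 - 1 / u) * (S + R)
        - 4 / κ * (L + 3) * (2 * (t * y) * (2 * y)) - 3 * m / u * (2 * y / Q) := by
  have hu0 : 0 < u := lt_of_lt_of_le (by positivity) hu
  have hm0 : 0 < m := lt_of_lt_of_le (by positivity) hm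
  have hl0 : 0 < l := by linarith
  have hQ0 : 0 < Q := by linarith
  have hu1 : 1 / u ≤ 1 / 10 ^ 10 := by
    apply one_div_le_one_div_of_le (by positivity)
    exact (pow_le_pow_right₀ (by norm_num) (by norm_num)).trans hu
  have hu2 : 0 < 1 / u := by positivity
  have hUu : u ≤ u ^ 4 := by
    have : (1:ℝ) ≤ u := (one_le_pow₀ (by norm_num)).trans hu
    calc u = u ^ 1 := (pow_one u).symm
      _ ≤ u ^ 4 := pow_le_pow_right₀ this (by norm_num)
  have hL1 : 998 / 1000 * 10 ^ 10 ≤ L := by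
    have : (10:ℝ) ^ 10 ≤ u := (pow_le_pow_right₀ (by norm_num) (by norm_num)).trans hu
    linarith
  have hL0 : 0 < L := by
    have : (0:ℝ) < 998 / 1000 * 10 ^ 10 := by norm_num
    linarith
  have e1 : 4 / κ * (L + 3) * (2 * (t * y) * (2 * y))
      = m * (16 * t * y ^ 2 / l + 48 * t * y ^ 2 / (l * L)) := by
    have h1 : 1 / κ = m / (l * L) := by
      rw [hlL]
      field_simp
    have h2 : 1 / l = L / (l * L) := by
      field_simp
    have h3 : 4 / κ * (L + 3) * (2 * (t * y) * (2 * y))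
        = 16 * (t * y ^ 2) * (L + 3) * (1 / κ) := by ring
    have h4 : 16 * t * y ^ 2 / l = 16 * (t * y ^ 2) * (1 / l) := by ring
    rw [h3, h1, h4, h2]
    ring
  have e2 : 48 * t * y ^ 2 / (l * L) ≤ 1 / 10 ^ 6 := by
    rw [div_le_iff₀ (by positivity)]
    have h1 : t * y ^ 2 ≤ 1 * (21 / 20) ^ 2 := by
      apply mul_le_mul ht1 _ (by positivity) (by norm_num)
      exact pow_le_pow_left₀ (by linarith) hy' 2
    have h2 : 21 / 20 * (998 / 1000 * 10 ^ 10) ≤ l * L :=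
      mul_le_mul hl hL1 (by norm_num) hl0.le
    norm_num at h1 h2 ⊢
    linarith
  have e3 : 2 * y / Q ≤ 210 := by
    rw [div_le_iff₀ hQ0]
    linarith
  have e3' : 0 ≤ 2 * y / Q := by positivity
  have e4 : 3 * m / u * (2 * y / Q) ≤ m * (1 / 10 ^ 6) := by
    have h1 : 3 * m / u * (2 * y / Q) = m * (3 * (1 / u) * (2 * y / Q)) := by
      field_simp
    rw [h1]
    apply mul_le_mul_of_nonneg_left _ hm0.le
    have h2 : 3 * (1 / u) * (2 * y / Q) ≤ 3 * (1 / 10 ^ 10) * 210 := by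
      apply mul_le_mul _ e3 e3' (by positivity)
      linarith
    norm_num at h2 ⊢
    linarith
  have e5 : m * (S - 1 / 10 ^ 6) ≤ m * (1 - 1 / u) * (S + R) := by
    rw [mul_assoc]
    apply mul_le_mul_of_nonneg_left _ hm0.le
    have h1 : 0 ≤ 1 - 1 / u := by
      have : (1:ℝ) / 10 ^ 10 ≤ 1 := by norm_num
      linarith
    have h2 : 0 ≤ (1 - 1 / u) * R := mul_nonneg h1 hR
    have h3 : 1 / u * S ≤ 1 / 10 ^ 6 := by
      have h4 : 1 / u * S ≤ 1 / u * 10 := mul_le_mul_of_nonneg_left hS hu2.le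
      have h5 : (1:ℝ) / 10 ^ 10 * 10 ≤ 1 / 10 ^ 6 := by norm_num
      linarith
    linarith
  rw [e1]
  have e6 : m * (S - 1 / 10 ^ 6) - m * (16 * t * y ^ 2 / l + 48 * t * y ^ 2 / (l * L))
      - m * (1 / 10 ^ 6) ≥ m * (4 + 1 / 10 ^ 4) := by
    have h1 : 4 + 1 / 10 ^ 4 ≤ S - 1 / 10 ^ 6 - (16 * t * y ^ 2 / l + 48 * t * y ^ 2 / (l * L))
        - 1 / 10 ^ 6 := by
      norm_num at e2 hV ⊢
      linarith
    have h2 := mul_le_mul_of_nonneg_left h1 hm0.le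
    linarith
  have e7 : 1 < m * (1 / 10 ^ 4) := by
    have h1 : (10:ℝ) ^ 5 ≤ m := (pow_le_pow_right₀ (by norm_num) (by norm_num)).trans hm
    norm_num at h1 ⊢
    linarith only [h1]
  have e8 : m * (4 + 1 / 10 ^ 4) = 4 * m + m * (1 / 10 ^ 4) := by ring
  rw [e8] at e6
  generalize m * (S - 1 / 10 ^ 6) = X1 at *
  generalize m * (16 * t * y ^ 2 / l + 48 * t * y ^ 2 / (l * L)) = X2 at *
  generalize m * (1 / 10 ^ 6) = X3 at *
  generalize 3 * m / u * (2 * y / Q) = X4 at *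
  generalize m * (1 - 1 / u) * (S + R) = X5 at *
  generalize m * (1 / 10 ^ 4) = X6 at *
  linarith only [e4, e5, e6, e7]

end BlkFarAux

open FactsAux BlkFarAux

/-- MODULE RW24 (far certificate on the block side). Let `κ = K₀`, `Q = Pm u (-a)`, `l = lam m κ`,
so `m κ = l · el κ` and `1/κ = m/(l el κ)`. `FV` with `σ = 2 y/Q ∈ [3/5, 210]`:
`σ Pm(a)/2 = t y`, `σ Q/2 = y`, and
`(4/κ)(el κ + 3)(σ Pm(a))(σ Q) = 16 t y² m/l (1 + 3/el κ)`. The bracket of `FV` is at most `20`, so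
`FV` gives `≥ Base + m (Vt l t y + 8/5 (y/Q) R3) - m/10^6`; `T_up`.
`σ |a i| ≤ 2`: for a heavy weight `2 |a i| ≤ Pm + exp(-0.3 u^4)` (`NonDom`) and `Pm ≤ Q` on both
sides; for a light one `|a i| ≤ h0`. -/
theorem blk_far {u q m : ℝ} (h : Win u q m (K0 q m)) (hc : (Fintype.card ι : ℝ) = m + 2)
    {a : ι → ℝ} (ha : Rel a) (hn : NonDom u a) (hn' : NonDom u (fun i => -a i)) {p1 p2 q1 q2 : ι}
    (hp : Top2 a p1 p2) (hq : Top2 (fun i => -a i) q1 q2) {t y : ℝ}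
    (ht : Pm u a = t * Pm u (fun i => -a i)) (ht0 : 0 ≤ t) (ht1 : t ≤ 1)
    (hQ : 1 / 100 ≤ Pm u (fun i => -a i)) (hy : 3 / 10 ≤ y) (hy' : y ≤ 21 / 20)
    (hl : 21 / 20 ≤ lam m (K0 q m))
    (hV : 4 + 1 / 1000 ≤ Vt (lam m (K0 q m)) t y
      + 8 / 5 * (y / Pm u (fun i => -a i)) * R3 u (fun i => -a i) q1 q2) :
    ∃ (b : ι → ℝ) (s : ℝ), TT q m < LB q b (fun i => s * a i) := by
  set κ := K0 q m with hκ
  set l := lam m κ with hld
  set Q := Pm u (fun i => -a i) with hQd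
  have hu0 := u_pos h
  have hU0 := U_pos h
  have hm0 := m_pos h
  have hQ0 : 0 < Q := by linarith
  have hQ1 : Q ≤ 1 := ha.neg.Pm_le u
  have hL := el_lo h
  have hL0 : 0 < el κ := by linarith
  have hlL : l * el κ = m * κ := by
    rw [hld, lam]
    field_simp
  have hσ1 : 3 / 5 ≤ 2 * y / Q := by
    rw [le_div_iff₀ hQ0]
    linarith
  have hσ2 : 2 * y / Q ≤ 210 := by
    rw [div_le_iff₀ hQ0]
    linarith
  have h1 : m * κ ≤ 2 * y / Q * u ^ 5 := by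
    refine h.hi.trans ?_
    have h2 : 2 * y / Q * u ^ 5 = 2 * y / Q * u * u ^ 4 := by ring
    rw [h2]
    apply mul_le_mul_of_nonneg_right _ hU0.le
    have h3 : 3 / 5 * (10:ℝ) ^ 200 ≤ 2 * y / Q * u := mul_le_mul hσ1 h.hu (by positivity)
      (by positivity)
    refine le_trans ?_ h3
    norm_num
  have h2 : 3 * (2 * y / Q) * u ^ 3 ≤ m * κ := by
    have h3 : 3 * (2 * y / Q) * u ^ 3 ≤ 630 * u ^ 3 := by
      apply mul_le_mul_of_nonneg_right _ (by positivity)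
      linarith
    have h4 : 630 * u ^ 3 ≤ u ^ 4 := by
      have : u ^ 4 = u * u ^ 3 := by ring
      rw [this]
      apply mul_le_mul_of_nonneg_right _ (by positivity)
      refine le_trans ?_ h.hu
      norm_num
    have h5 : u ^ 4 ≤ l * el κ := by
      have h6 : 21 / 20 * (998 / 1000 * u ^ 4) ≤ l * el κ :=
        mul_le_mul hl hL (by positivity) (by linarith)
      linarith
    linarith
  obtain ⟨b, s, hb⟩ := FV h hc ha hn hn' hp hq h1 h2 (hx_bd h hn hn' ht ht0 ht1 hQ hy hy')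
  refine ⟨b, s, ?_⟩
  refine lt_of_lt_of_le ?_ hb
  rw [← hQd]
  have f1 : 2 * y / Q * Pm u a = 2 * (t * y) := by
    rw [ht]
    field_simp
  have f2 : 2 * y / Q * Q = 2 * y := by
    field_simp
  have f3 : 2 * (t * y) / 2 = t * y := by ring
  have f4 : 2 * y / 2 = y := by ring
  rw [f1, f2, f3, f4]
  have hRa : 0 ≤ 4 / 5 * (2 * y / Q * R3 u a p1 p2) := by
    have := R3_nonneg u a p1 p2
    positivity
  have hRb0 : 0 ≤ R3 u (fun i => -a i) q1 q2 := R3_nonneg u (fun i => -a i) q1 q2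
  have hRb : R3 u (fun i => -a i) q1 q2 ≤ Q := R3_le u (fun i => -a i) q1 q2
  have hF1 : Fh (t * y) ≤ 1 := Fh_le_one (by positivity)
  have hF2 : Fh y ≤ 1 := Fh_le_one (by linarith)
  have hRb' : 4 / 5 * (2 * y / Q * R3 u (fun i => -a i) q1 q2) ≤ 2 := by
    have h3 : 2 * y / Q * R3 u (fun i => -a i) q1 q2 ≤ 2 * y / Q * Q :=
      mul_le_mul_of_nonneg_left hRb (by linarith)
    rw [f2] at h3
    linarith
  have hsc := scal (R := 4 / 5 * (2 * y / Q * R3 u a p1 p2))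
    (S := 4 * Fh (t * y) + 4 * Fh y + 4 / 5 * (2 * y / Q * R3 u (fun i => -a i) q1 q2))
    h.hu hL h.hk (m_ge h) hl hlL ht0 ht1 hQ hy hy' hRa (by linarith) (by
      have h3 : 4 / 5 * (2 * y / Q * R3 u (fun i => -a i) q1 q2)
          = 8 / 5 * (y / Q) * R3 u (fun i => -a i) q1 q2 := by ring
      rw [h3]
      unfold Vt at hV
      linarith)
  have hTT := T_up (q := q) (m := m) (by
    have h3 := h.plo
    have h4 : (10:ℝ) ^ 30 * 10 ^ 80 ≤ m * u ^ 4 :=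
      mul_le_mul (m_big h) (U_ge h) (by positivity) hm0.le
    have h5 : (2:ℝ) ≤ 10 ^ 30 * 10 ^ 80 := by norm_num
    linarith) (by
    have h3 := m_big h
    have h5 : (2:ℝ) ≤ 10 ^ 30 := by norm_num
    linarith)
  rw [← hκ] at hTT
  have e : m * (1 - 1 / u) * (4 * Fh (t * y) + 4 * Fh y
          + 4 / 5 * (2 * y / Q * R3 u a p1 p2) + 4 / 5 * (2 * y / Q * R3 u (fun i => -a i) q1 q2))
      = m * (1 - 1 / u) * (4 * Fh (t * y) + 4 * Fh y
          + 4 / 5 * (2 * y / Q * R3 u (fun i => -a i) q1 q2)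
          + 4 / 5 * (2 * y / Q * R3 u a p1 p2)) := by ring
  rw [e]
  linarith

end

end Pool.Agent.RieszWin
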