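import Pool.Agent.RieszWin.Defs

set_option autoImplicit false

open Real Finset

namespace Pool.Agent.RieszWin

namespace FhFAux

theorem log_le_one {x : ℝ} (hx : 0 < x) (h : x ≤ 27 / 10) : Real.log x ≤ 1 := by
  rw [Real.log_le_iff_le_exp hx]
  have := Real.exp_one_gt_d9
  linarith

theorem one_sub_sq_le {t : ℝ} (ht : 0 ≤ t) : 1 - t ^ 2 ≤ (1 + t) * Real.exp (-t) := by
  have h := Real.add_one_le_exp (-t)
  have := mul_le_mul_of_nonneg_left h (by linarith : 0 ≤ 1 + t)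
  nlinarith

theorem ff {v : ℝ} (hv : 0 ≤ v) : 0 ≤ 2 * Real.exp v + (1 + v) * Real.exp (-v) - 3 - 2 * v := by
  have h1 := Real.quadratic_le_exp_of_nonneg hv
  have h2 := one_sub_sq_le hv
  nlinarith

theorem cosh_sub_one (v : ℝ) : Real.cosh v - 1 = 2 * Real.sinh (v / 2) ^ 2 := by
  have h1 : Real.cosh v = Real.cosh (2 * (v / 2)) := by congr 1; ring
  rw [h1, Real.cosh_two_mul]
  have := Real.cosh_sq (v / 2)
  linarith

theorem sinh_eq (v : ℝ) : Real.sinh v = 2 * Real.sinh (v / 2) * Real.cosh (v / 2) := by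
  have h1 : Real.sinh v = Real.sinh (2 * (v / 2)) := by congr 1; ring
  rw [h1, Real.sinh_two_mul]

theorem sq_le_cosh {t : ℝ} (ht : 0 ≤ t) : t ^ 2 / 2 ≤ Real.cosh t - 1 := by
  rw [cosh_sub_one]
  have h : t / 2 ≤ Real.sinh (t / 2) := Real.self_le_sinh_iff.2 (by linarith)
  have := mul_self_le_mul_self (by linarith : 0 ≤ t / 2) h
  nlinarith

theorem xcosh {x : ℝ} (hx : 0 ≤ x) : Real.sinh x ≤ x * Real.cosh x := by
  have hm : MonotoneOn (fun y : ℝ => y * Real.cosh y - Real.sinh y) (Set.Ici 0) := by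
    apply monotoneOn_of_deriv_nonneg (convex_Ici 0)
    · exact (by fun_prop : Continuous _).continuousOn
    · exact (by fun_prop : Differentiable ℝ _).differentiableOn
    · intro y hy
      rw [interior_Ici] at hy
      have hd : HasDerivAt (fun y : ℝ => y * Real.cosh y - Real.sinh y)
          (1 * Real.cosh y + y * Real.sinh y - Real.cosh y) y :=
        ((hasDerivAt_id y).mul (Real.hasDerivAt_cosh y)).sub (Real.hasDerivAt_sinh y)
      rw [hd.deriv]
      have := Real.sinh_nonneg_iff.2 (le_of_lt hy)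
      have hy' : (0:ℝ) < y := hy
      nlinarith [mul_nonneg hy'.le this]
  have := hm (Set.mem_Ici.2 le_rfl) (Set.mem_Ici.2 hx) hx
  simp only [zero_mul, Real.sinh_zero, sub_zero] at this
  linarith

theorem xcosh2 {x : ℝ} (hx : 0 ≤ x) : x * Real.cosh x ≤ (1 + x ^ 2 / 3) * Real.sinh x := by
  have hm : MonotoneOn (fun y : ℝ => (1 + y ^ 2 / 3) * Real.sinh y - y * Real.cosh y)
      (Set.Ici 0) := by
    apply monotoneOn_of_deriv_nonneg (convex_Ici 0)
    · exact (by fun_prop : Continuous _).continuousOn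
    · exact (by fun_prop : Differentiable ℝ _).differentiableOn
    · intro y hy
      rw [interior_Ici] at hy
      have hy' : (0:ℝ) < y := hy
      have hp : HasDerivAt (fun y : ℝ => 1 + y ^ 2 / 3) (2 * y / 3) y := by
        have := ((hasDerivAt_pow 2 y).div_const 3).const_add 1
        refine this.congr_deriv ?_
        norm_num
      have hd : HasDerivAt (fun y : ℝ => (1 + y ^ 2 / 3) * Real.sinh y - y * Real.cosh y)
          ((2 * y / 3 * Real.sinh y + (1 + y ^ 2 / 3) * Real.cosh y)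
            - (1 * Real.cosh y + y * Real.sinh y)) y :=
        (hp.mul (Real.hasDerivAt_sinh y)).sub ((hasDerivAt_id y).mul (Real.hasDerivAt_cosh y))
      rw [hd.deriv]
      have := xcosh hy'.le
      nlinarith [mul_nonneg hy'.le (by linarith : 0 ≤ y * Real.cosh y - Real.sinh y)]
  have := hm (Set.mem_Ici.2 le_rfl) (Set.mem_Ici.2 hx) hx
  simp only [zero_mul, Real.sinh_zero, mul_zero, sub_zero] at this
  linarith

theorem vsinh_nonneg {v : ℝ} (hv : 0 ≤ v) :
    v * Real.sinh v ≤ (2 + v ^ 2 / 6) * (Real.cosh v - 1) := by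
  rw [cosh_sub_one, sinh_eq]
  have h1 := xcosh2 (by linarith : 0 ≤ v / 2)
  have h2 : 0 ≤ Real.sinh (v / 2) := Real.sinh_nonneg_iff.2 (by linarith)
  have := mul_le_mul_of_nonneg_left h1 h2
  nlinarith

end FhFAux

open FhFAux

/-- MODULE RW2 (the function `Fh x = x - x log x`; `Fh' = -log x`). -/
theorem Fh_zero : Fh 0 = 0 := by
  simp [Fh]

/-- `Fh` is concave on `[0, ∞)` (`Real.concaveOn_negMulLog`). -/
theorem Fh_concave {x y s : ℝ} (hx : 0 ≤ x) (hy : 0 ≤ y) (h0 : 0 ≤ s) (h1 : s ≤ 1) :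
    (1 - s) * Fh x + s * Fh y ≤ Fh ((1 - s) * x + s * y) := by
  have := Real.concaveOn_negMulLog.2 (Set.mem_Ici.2 hx) (Set.mem_Ici.2 hy)
    (by linarith : 0 ≤ 1 - s) h0 (by ring)
  simp only [smul_eq_mul, Real.negMulLog] at this
  unfold Fh
  nlinarith

/-- tangent at `y > 0`: `Fh x ≤ Fh y - log y (x - y)`. -/
theorem Fh_tangent {x y : ℝ} (hx : 0 ≤ x) (hy : 0 < y) :
    Fh x ≤ Fh y - Real.log y * (x - y) := by
  unfold Fh
  rcases hx.eq_or_lt with h | h
  · subst h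
    simp only [Real.log_zero, mul_zero, sub_zero, zero_sub]
    nlinarith
  · have h1 := Real.log_le_sub_one_of_pos (div_pos hy h)
    rw [Real.log_div hy.ne' h.ne'] at h1
    have h2 := mul_le_mul_of_nonneg_left h1 hx
    have h3 : x * (y / x - 1) = y - x := by field_simp
    rw [h3] at h2
    nlinarith

/-- `Fh` is nondecreasing on `[0,1]`. -/
theorem Fh_mono {x y : ℝ} (hx : 0 ≤ x) (hxy : x ≤ y) (hy : y ≤ 1) : Fh x ≤ Fh y := by
  rcases (hx.trans hxy).eq_or_lt with h | h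
  · have : x = y := by linarith
    rw [this]
  · have h1 := Fh_tangent hx h
    have h2 := Real.log_nonpos h.le hy
    nlinarith [mul_nonneg (neg_nonneg.2 h2) (sub_nonneg.2 hxy)]

/-- `Fh x ≥ x` on `[0, 1]`, `Fh x ≥ 0` on `[0, 27/10]`, `Fh x ≤ 1`. -/
theorem Fh_ge {x : ℝ} (hx : 0 ≤ x) (h1 : x ≤ 1) : x ≤ Fh x := by
  unfold Fh
  have := Real.log_nonpos hx h1
  nlinarith [mul_nonneg hx (neg_nonneg.2 this)]

theorem Fh_nonneg {x : ℝ} (hx : 0 ≤ x) (h1 : x ≤ 27 / 10) : 0 ≤ Fh x := by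
  unfold Fh
  rcases hx.eq_or_lt with h | h
  · subst h; simp
  · have := log_le_one h h1
    nlinarith [mul_nonneg hx (sub_nonneg.2 this)]

theorem Fh_le_one {x : ℝ} (hx : 0 ≤ x) : Fh x ≤ 1 := by
  have := Fh_tangent hx one_pos
  simpa [Fh] using this

/-- decrease on the right: for `0 < x ≤ y`, `log y ≤ c`, `0 ≤ c`: `Fh y ≥ Fh x - c (y - x)`. -/
theorem Fh_sub {x y c : ℝ} (hx : 0 < x) (hxy : x ≤ y) (hc : 0 ≤ c) (hy : Real.log y ≤ c) :
    Fh x - c * (y - x) ≤ Fh y := by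
  have h1 := Fh_tangent hx.le (hx.trans_le hxy)
  have h2 := mul_le_mul_of_nonneg_right hy (sub_nonneg.2 hxy)
  nlinarith

/-- `x |log x| ≤ Fh x + x` for `0 < x ≤ 21/10`. -/
theorem mul_abs_log_le {x : ℝ} (hx : 0 < x) (h1 : x ≤ 21 / 10) :
    x * |Real.log x| ≤ Fh x + x := by
  unfold Fh
  have hl := log_le_one hx (by linarith)
  rcases le_total 0 (Real.log x) with h | h
  · rw [abs_of_nonneg h]
    nlinarith [mul_nonneg hx.le (sub_nonneg.2 hl)]
  · rw [abs_of_nonpos h]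
    nlinarith

/-- scaling: `Fh (s x) = s Fh x - x s log s` -/
theorem Fh_smul {s x : ℝ} (hs : 0 < s) (hx : 0 ≤ x) :
    Fh (s * x) = s * Fh x - s * Real.log s * x := by
  unfold Fh
  rcases hx.eq_or_lt with h | h
  · subst h; simp
  · rw [Real.log_mul hs.ne' h.ne']
    ring

/-- `1 - exp v + v exp v ≤ 2 (1 + |v|) (cosh v - 1)`.
`v ≥ 0`: the difference is `2 exp v + (1+v) exp (-v) - 3 - 2v ≥ 0` (times one factor `1`);
`v = -t ≤ 0`: `1 - exp(-t) (1+t) ≤ t²/2 ≤ (1+t) t²`. -/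
theorem kfun_le (v : ℝ) :
    1 - Real.exp v + v * Real.exp v ≤ 2 * (1 + |v|) * (Real.cosh v - 1) := by
  rcases le_total 0 v with h | h
  · rw [abs_of_nonneg h, Real.cosh_eq]
    have := ff h
    nlinarith
  · rw [abs_of_nonpos h]
    have h1 := one_sub_sq_le (neg_nonneg.2 h)
    rw [neg_neg] at h1
    have h2 := sq_le_cosh (neg_nonneg.2 h)
    rw [Real.cosh_neg] at h2
    have h3 := mul_le_mul_of_nonneg_left h2 (by linarith : 0 ≤ 2 * (1 + -v))
    have h4 : 0 ≤ -v * v ^ 2 := mul_nonneg (neg_nonneg.2 h) (sq_nonneg v)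
    nlinarith

/-- `s exp(-s) - sinh s ≥ -(2|s| + 3)(cosh s - 1)`.
`s ≥ 0`: the left side is `-(cosh s - 1) + (s+1) exp(-s) - 1`, and `1 - (1+s) exp(-s) ≤ s²/2`.
`s = -t ≤ 0`: `(2t+3)(cosh t - 1) - t exp t + sinh t = 2 exp t + (1+t) exp(-t) - 2t - 3 ≥ 0`. -/
theorem sexp_ge (s : ℝ) :
    -((2 * |s| + 3) * (Real.cosh s - 1)) ≤ s * Real.exp (-s) - Real.sinh s := by
  rcases le_total 0 s with h | h
  · rw [abs_of_nonneg h]
    have h1 := one_sub_sq_le h
    have h2 := sq_le_cosh h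
    have h3 := mul_le_mul_of_nonneg_left h2 (by linarith : 0 ≤ 2 * (1 + s))
    have h4 : 0 ≤ s * s ^ 2 := mul_nonneg h (sq_nonneg s)
    have h5 : Real.sinh s = Real.cosh s - Real.exp (-s) := by
      rw [Real.cosh_eq, Real.sinh_eq]; ring
    rw [h5]
    nlinarith
  · rw [abs_of_nonpos h, Real.cosh_eq, Real.sinh_eq]
    have := ff (neg_nonneg.2 h)
    rw [neg_neg] at this
    nlinarith

/-- `v sinh v ≤ (2 + v²/6) (cosh v - 1)` (compare the power series, or `v coth(v/2) ≤ 2 + v²/6`,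
i.e. `x cosh x ≤ (1 + x²/3) sinh x` with `x = v/2`, by differentiating). -/
theorem vsinh_le (v : ℝ) :
    v * Real.sinh v ≤ (2 + v ^ 2 / 6) * (Real.cosh v - 1) := by
  rcases le_total 0 v with h | h
  · exact vsinh_nonneg h
  · have := vsinh_nonneg (neg_nonneg.2 h)
    rw [Real.sinh_neg, Real.cosh_neg] at this
    nlinarith

/-- `cosh (x + y) - 1 ≤ 2 cosh y (cosh x - 1) + 2 (cosh y - 1)`:
`cosh z - 1 = 2 sinh² (z/2)`, `(sinh A cosh B + cosh A sinh B)² ≤ 2 sinh² A cosh² B + 2 cosh² A sinh² B`. -/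
theorem cosh_add_le (x y : ℝ) :
    Real.cosh (x + y) - 1 ≤ 2 * Real.cosh y * (Real.cosh x - 1) + 2 * (Real.cosh y - 1) := by
  have h1 := Real.one_le_cosh (x - y)
  rw [Real.cosh_sub] at h1
  rw [Real.cosh_add]
  nlinarith

end Pool.Agent.RieszWin
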