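import Pool.Agent.RieszWin.RelF
import Pool.Agent.RieszWin.FhF

set_option autoImplicit false

open Real Finset

namespace Pool.Agent.RieszWin

open Pool.Agent.RieszSmall Pool.Agent.RieszLin Pool.Agent.RieszTr

namespace DomAux

theorem phi_lb {q K B L : ℝ} (hq : 0 < q) (hK : 0 < K) (hKB : K ≤ B) (hL : Real.log K ≤ L)
    (hL0 : 0 ≤ L) : -(L * B) ≤ Phi q K := by
  have h := Phi_lower hq hK
  have h1 : K * Real.log K ≤ K * L := mul_le_mul_of_nonneg_left hL hK.le
  have h2 : K * L ≤ B * L := mul_le_mul_of_nonneg_right hKB hL0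
  nlinarith

theorem phi_nn {q K : ℝ} (hq : 0 < q) (hK : 0 ≤ K) (hK1 : K ≤ 1) : 0 ≤ Phi q K := by
  rcases hK.eq_or_lt with h | h
  · rw [← h, Phi_of_lt (Real.rpow_pos_of_pos two_pos _)]
    have := Real.rpow_pos_of_pos (two_pos : (0:ℝ) < 2) (-q)
    linarith
  · exact (Phi_pos hq h hK1).le

theorem phi_neg {q K : ℝ} (hK : K < 0) : q * K ≤ Phi q K := by
  rw [Phi_of_lt (hK.trans (Real.rpow_pos_of_pos two_pos _))]
  have := Real.rpow_pos_of_pos (two_pos : (0:ℝ) < 2) (-q)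
  linarith

/-- `cosh` in terms of `sinh` -/
noncomputable def ch (x : ℝ) : ℝ := √(1 + x ^ 2)

theorem ch_sq (x : ℝ) : ch x ^ 2 = 1 + x ^ 2 := Real.sq_sqrt (by positivity)

theorem ch_pos (x : ℝ) : 0 < ch x := Real.sqrt_pos.2 (by positivity)

theorem abs_lt_ch (x : ℝ) : |x| < ch x := by
  have h1 := ch_sq x
  have h2 := ch_pos x
  have h3 : |x| ^ 2 < ch x ^ 2 := by rw [h1, sq_abs]; linarith
  exact lt_of_pow_lt_pow_left₀ 2 h2.le h3

theorem ch_le (x : ℝ) : ch x ≤ |x| + 1 := by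
  have h1 := ch_sq x
  have h2 := ch_pos x
  have h3 : ch x ^ 2 ≤ (|x| + 1) ^ 2 := by
    have := sq_abs x
    have := abs_nonneg x
    nlinarith
  exact le_of_sq_le_sq h3 (by positivity) where
  le_of_sq_le_sq {a b : ℝ} (h : a ^ 2 ≤ b ^ 2) (hb : 0 ≤ b) : a ≤ b :=
    le_of_pow_le_pow_left₀ (by norm_num) hb h

theorem pair_pos {κ x y : ℝ} (hκ : 0 < κ) : 0 < κ * (ch x * ch y - x * y) := by
  apply mul_pos hκ
  have h1 : |x| * |y| < ch x * ch y :=
    mul_lt_mul'' (abs_lt_ch x) (abs_lt_ch y) (abs_nonneg _) (abs_nonneg _)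
  have h2 : x * y ≤ |x| * |y| := by rw [← abs_mul]; exact le_abs_self _
  linarith

theorem pair_le {κ x y : ℝ} (hκ : 0 < κ) :
    κ * (ch x * ch y - x * y) ≤ κ * ((2 * |x| + 1) * (2 * |y| + 1)) := by
  apply mul_le_mul_of_nonneg_left _ hκ.le
  have h1 : ch x * ch y ≤ (|x| + 1) * (|y| + 1) :=
    mul_le_mul (ch_le x) (ch_le y) (ch_pos y).le (by positivity)
  have h2 : -(x * y) ≤ |x| * |y| := by rw [← abs_mul]; exact neg_le_abs _
  have h3 := mul_nonneg (abs_nonneg x) (abs_nonneg y)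
  have := abs_nonneg x
  have := abs_nonneg y
  nlinarith

theorem oz_pos {p δ x : ℝ} (hp : 0 ≤ p) (hpδ : δ < p) (hx : x ≤ 0) :
    0 < (p - δ) * ch x - p * x := by
  have h1 := mul_pos (sub_pos.2 hpδ) (ch_pos x)
  have h2 : 0 ≤ p * -x := mul_nonneg hp (by linarith)
  linarith

theorem oz_le_neg {p δ x : ℝ} (hp : 0 ≤ p) (hp1 : p ≤ 1) (hδ : 0 ≤ δ) :
    (p - δ) * ch x - p * x ≤ 2 * |x| + 1 := by
  have h0 := ch_pos x
  have h1 : (p - δ) * ch x ≤ 1 * ch x := mul_le_mul_of_nonneg_right (by linarith) h0.le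
  have h2 : -(p * x) ≤ 1 * |x| := by
    calc -(p * x) ≤ |p * x| := neg_le_abs _
      _ = p * |x| := by rw [abs_mul, abs_of_nonneg hp]
      _ ≤ 1 * |x| := mul_le_mul_of_nonneg_right hp1 (abs_nonneg _)
  have h3 := ch_le x
  linarith

theorem oz_le_one {p δ x : ℝ} (hp : 0 ≤ p) (hp1 : p ≤ 1) (hδ : 0 ≤ δ) (hx : 0 ≤ x) :
    (p - δ) * ch x - p * x ≤ 1 := by
  have h0 := ch_pos x
  have h3 := ch_le x
  rw [abs_of_nonneg hx] at h3
  have h4 : p * (ch x - x) ≤ p * 1 := mul_le_mul_of_nonneg_left (by linarith) hp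
  have h5 := mul_nonneg hδ h0.le
  nlinarith

theorem oz_ge {p δ x : ℝ} (hpδ : δ < p) :
    -(δ * x) ≤ (p - δ) * ch x - p * x := by
  have h1 := abs_lt_ch x
  have h2 := le_abs_self x
  have h3 : 0 ≤ (p - δ) * (ch x - x) := mul_nonneg (by linarith) (by linarith)
  nlinarith

theorem oz_light {p δ x : ℝ} (hpδ : δ < p) (hx : 0 ≤ x) (h : δ * x * (2 * x + 1) ≤ p - δ) :
    0 ≤ (p - δ) * ch x - p * x := by
  have h1 := abs_lt_ch x
  rw [abs_of_nonneg hx] at h1
  have h3 := ch_le x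
  rw [abs_of_nonneg hx] at h3
  have h4 := ch_sq x
  have h5 : 1 ≤ (ch x - x) * (2 * x + 1) := by
    have : (ch x - x) * (ch x + x) = 1 := by nlinarith
    have : (ch x - x) * (ch x + x) ≤ (ch x - x) * (2 * x + 1) :=
      mul_le_mul_of_nonneg_left (by linarith) (by linarith)
    linarith
  have h6 : (p - δ) * 1 ≤ (p - δ) * ((ch x - x) * (2 * x + 1)) :=
    mul_le_mul_of_nonneg_left h5 (by linarith)
  have h7 : δ * x * (2 * x + 1) ≤ (p - δ) * (ch x - x) * (2 * x + 1) := by linarith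
  have h8 := le_of_mul_le_mul_right h7 (by linarith : 0 < 2 * x + 1)
  nlinarith

theorem p200 {x : ℝ} (h : (10 : ℝ) ^ 300 ≤ x) : (10 : ℝ) ^ 200 ≤ x :=
  (pow_le_pow_right₀ (by norm_num) (by norm_num)).trans h

/-- numbers of the regime -/
theorem nums {u q m κ : ℝ} (h : Win u q m κ) :
    ∃ F : ℝ, F = Real.exp (u ^ 4 / 1000) ∧ 10 ^ 110 * u ^ 12 ≤ F ∧ 10 ^ 200 ≤ F ∧ 1 ≤ u := by
  obtain ⟨b1', b2, -⟩ := h.big
  have b1 := p200 b1'
  have h2 : (1 : ℝ) ≤ u ^ 2 := le_trans (by norm_num) b1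
  refine ⟨_, rfl, ?_, ?_, le_trans (by norm_num) h.hu⟩
  · refine le_trans ?_ b2
    have h3 : (10 : ℝ) ^ 200 ≤ (u ^ 2) ^ 24 :=
      b1.trans (le_self_pow₀ h2 (by norm_num))
    have h4 : u ^ 60 = (u ^ 2) ^ 24 * u ^ 12 := by ring
    rw [h4]
    apply mul_le_mul_of_nonneg_right _ (by positivity)
    exact le_trans (by norm_num) h3
  · refine le_trans ?_ b2
    have h4 : u ^ 60 = (u ^ 2) ^ 30 := by ring
    rw [h4]
    exact b1.trans (le_self_pow₀ h2 (by norm_num))

/-- the error terms -/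
theorem num_err {u q m κ F : ℝ} (hκ0 : 0 < κ) (hu1 : 1 ≤ u)
    (hF1 : 10 ^ 110 * u ^ 12 ≤ F) (hk1 : 1 / κ ≤ m * u ^ 4) (hk2 : κ * m ≤ 10 ^ 105 * u ^ 4)
    (hm1 : (10 : ℝ) ^ 200 ≤ m) (hq0 : 0 < q) (hq1 : q ≤ 2 * m * u ^ 4) :
    2 * (2 * u ^ 4) * (4 / κ + (m + 2)) + 2 * u ^ 4 * κ * (4 / κ + (m + 2)) ^ 2
      + q * (m + 2) * κ ≤ m * F := by
  have hm0 : 0 < m := lt_of_lt_of_le (by norm_num) hm1
  have hm2 : m + 2 ≤ 2 * m := by
    have : (2 : ℝ) ≤ 10 ^ 200 := by norm_num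
    linarith
  have hu4 : 1 ≤ u ^ 4 := one_le_pow₀ hu1
  have hT0 : 0 ≤ 4 / κ + (m + 2) := by positivity
  have hT : 4 / κ + (m + 2) ≤ 6 * (m * u ^ 4) := by
    have e : 4 / κ = 4 * (1 / κ) := by ring
    rw [e]
    have : m * 1 ≤ m * u ^ 4 := mul_le_mul_of_nonneg_left hu4 hm0.le
    linarith
  have hκT : κ * (4 / κ + (m + 2)) ≤ 10 ^ 106 * u ^ 4 := by
    have e : κ * (4 / κ + (m + 2)) = 4 + κ * (m + 2) := by field_simp
    rw [e]
    have h1 : κ * (m + 2) ≤ κ * (2 * m) := mul_le_mul_of_nonneg_left hm2 hκ0.le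
    have h2 : (10:ℝ) ^ 106 * u ^ 4 = 10 * (10 ^ 105 * u ^ 4) := by ring
    rw [h2]
    have h3 : (1:ℝ) ≤ 10 ^ 105 * u ^ 4 := by
      have : (1:ℝ) ≤ 10 ^ 105 := by norm_num
      nlinarith
    nlinarith
  have t1 : 2 * (2 * u ^ 4) * (4 / κ + (m + 2)) ≤ 24 * (m * u ^ 8) := by
    have := mul_le_mul_of_nonneg_left hT (by positivity : 0 ≤ 2 * (2 * u ^ 4))
    refine this.trans (le_of_eq ?_)
    ring
  have t2 : 2 * u ^ 4 * κ * (4 / κ + (m + 2)) ^ 2 ≤ 12 * 10 ^ 106 * (m * u ^ 12) := by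
    have h1 : κ * (4 / κ + (m + 2)) * (4 / κ + (m + 2)) ≤ 10 ^ 106 * u ^ 4 * (6 * (m * u ^ 4)) :=
      mul_le_mul hκT hT hT0 (by positivity)
    have h2 := mul_le_mul_of_nonneg_left h1 (by positivity : 0 ≤ 2 * u ^ 4)
    calc 2 * u ^ 4 * κ * (4 / κ + (m + 2)) ^ 2
        = 2 * u ^ 4 * (κ * (4 / κ + (m + 2)) * (4 / κ + (m + 2))) := by ring
      _ ≤ _ := h2
      _ = _ := by ring
  have t3 : q * (m + 2) * κ ≤ 4 * 10 ^ 105 * (m * u ^ 8) := by
    have h1 : (m + 2) * κ ≤ 2 * (10 ^ 105 * u ^ 4) := by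
      have : (m + 2) * κ ≤ 2 * m * κ := mul_le_mul_of_nonneg_right hm2 hκ0.le
      linarith
    have h2 : q * ((m + 2) * κ) ≤ 2 * m * u ^ 4 * (2 * (10 ^ 105 * u ^ 4)) :=
      mul_le_mul hq1 h1 (by positivity) (by positivity)
    calc q * (m + 2) * κ = q * ((m + 2) * κ) := by ring
      _ ≤ _ := h2
      _ = _ := by ring
  have t4 : 24 * (m * u ^ 8) + 12 * 10 ^ 106 * (m * u ^ 12) + 4 * 10 ^ 105 * (m * u ^ 8)
      ≤ m * F := by
    have h8 : m * u ^ 8 ≤ m * u ^ 12 :=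
      mul_le_mul_of_nonneg_left (pow_le_pow_right₀ hu1 (by norm_num)) hm0.le
    have h9 : 0 ≤ m * u ^ 12 := by positivity
    have h10 : m * (10 ^ 110 * u ^ 12) ≤ m * F := mul_le_mul_of_nonneg_left hF1 hm0.le
    have h11 : m * (10 ^ 110 * u ^ 12) = 10 ^ 110 * (m * u ^ 12) := by ring
    rw [h11] at h10
    refine le_trans ?_ h10
    have h12 : (24 : ℝ) * (m * u ^ 8) ≤ 24 * (m * u ^ 12) := by linarith
    have h13 : (4 * 10 ^ 105 : ℝ) * (m * u ^ 8) ≤ 4 * 10 ^ 105 * (m * u ^ 12) :=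
      mul_le_mul_of_nonneg_left h8 (by norm_num)
    have h14 : (24 + 12 * 10 ^ 106 + 4 * 10 ^ 105 : ℝ) * (m * u ^ 12) ≤ 10 ^ 110 * (m * u ^ 12) :=
      mul_le_mul_of_nonneg_right (by norm_num) h9
    linarith
  linarith

theorem num_q {u q m κ : ℝ} (hκ0 : 0 < κ) (hu1 : 1 ≤ u) (hm0 : 0 < m)
    (hk2 : κ * m ≤ 10 ^ 105 * u ^ 4) (hq0 : 0 < q) (hq2 : 999 / 1000 * (m * u ^ 4) ≤ q) :
    m * m / 10 ^ 106 ≤ q / κ := by
  have hu0 : 0 < u := by linarith
  rw [div_le_div_iff₀ (by positivity) hκ0]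
  have h1 : m * (κ * m) ≤ m * (10 ^ 105 * u ^ 4) := mul_le_mul_of_nonneg_left hk2 hm0.le
  have h2 : 999 / 1000 * (m * u ^ 4) * 10 ^ 106 ≤ q * 10 ^ 106 :=
    mul_le_mul_of_nonneg_right hq2 (by positivity)
  have h3 : 0 ≤ m * u ^ 4 := by positivity
  calc m * m * κ = m * (κ * m) := by ring
    _ ≤ m * (10 ^ 105 * u ^ 4) := h1
    _ = 10 ^ 105 * (m * u ^ 4) := by ring
    _ ≤ (999 / 1000 * 10 ^ 106) * (m * u ^ 4) := mul_le_mul_of_nonneg_right (by norm_num) h3
    _ = 999 / 1000 * (m * u ^ 4) * 10 ^ 106 := by ring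
    _ ≤ q * 10 ^ 106 := h2

theorem num_fin {m F : ℝ} (hm0 : 0 < m) (hF2 : (10 : ℝ) ^ 200 ≤ F) :
    m * F ^ 200 + m * F ≤ m * F ^ 340 / 10 ^ 106 := by
  have hF3 : 1 ≤ F := le_trans (by norm_num) hF2
  have h1 : F ≤ F ^ 200 := le_self_pow₀ hF3 (by norm_num)
  have h2 : F ^ 340 = F ^ 200 * (F ^ 139 * F) := by ring
  have h3 : (2 * 10 ^ 106 : ℝ) ≤ F ^ 139 * F := by
    have h4 : 1 ≤ F ^ 139 := one_le_pow₀ hF3
    have h5 : (2 * 10 ^ 106 : ℝ) ≤ F := le_trans (by norm_num) hF2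
    have h6 : 1 * F ≤ F ^ 139 * F := mul_le_mul_of_nonneg_right h4 (by linarith)
    linarith
  have h6 : (F ^ 200) * (2 * 10 ^ 106) ≤ F ^ 340 := by
    rw [h2]
    exact mul_le_mul_of_nonneg_left h3 (by positivity)
  rw [le_div_iff₀ (by positivity)]
  have h7 : F ^ 200 + F ≤ 2 * F ^ 200 := by linarith
  calc (m * F ^ 200 + m * F) * 10 ^ 106 = m * ((F ^ 200 + F) * 10 ^ 106) := by ring
    _ ≤ m * ((2 * F ^ 200) * 10 ^ 106) := by
        apply mul_le_mul_of_nonneg_left _ hm0.le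
        exact mul_le_mul_of_nonneg_right h7 (by positivity)
    _ = m * ((F ^ 200) * (2 * 10 ^ 106)) := by ring
    _ ≤ m * F ^ 340 := mul_le_mul_of_nonneg_left h6 hm0.le

section

variable {ι : Type*} [Fintype ι] [DecidableEq ι]

/-- The general lower bound. -/
theorem main_lb {q m κ p δ L h : ℝ} (hq : 0 < q) (hκ : 0 < κ) (hκ1 : κ < 1)
    (hc : (Fintype.card ι : ℝ) = m + 2) {a : ι → ℝ} (ha : Rel a) {o : ι}
    (hop : a o = p) (hδ : 0 < δ) (hpδ : δ < p) (hp1 : p ≤ 1) (hh : 0 < h) (ho : h < a o)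
    (hL0 : 0 ≤ L) (hL : Real.log (9 / κ) ≤ L)
    (hlight : ∀ z, 0 < a z → a z ≤ h → δ * (a z / κ) * (2 * (a z / κ) + 1) ≤ p - δ) :
    q * δ * (2 * p - δ) / κ - 2 * (q * δ / κ) * (∑ i ∈ univ.filter (fun i => h < a i), a i - p)
      - 2 * L * (4 / κ + (m + 2)) - L * κ * (4 / κ + (m + 2)) ^ 2 - q * (m + 2) * κ ≤
    LB q (fun z => if z = o then (p - δ) * (1 / √κ) else √κ * ch (a z / κ))
      (fun i => (1 / √κ) * a i) := by
  classical
  have hp0 : 0 < p := hδ.trans hpδ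
  have hsκ : 0 < √κ := Real.sqrt_pos.2 hκ
  have hsq : √κ * √κ = κ := Real.mul_self_sqrt hκ.le
  set s := 1 / √κ with hs
  have hs2 : s * s = 1 / κ := by rw [hs, div_mul_div_comm, one_mul, hsq]
  have hs1 : s * √κ = 1 := by rw [hs]; field_simp
  set x : ι → ℝ := fun z => a z / κ with hx
  set t : ι → ℝ := fun z => 2 * |x z| + 1 with ht
  have ht1 : ∀ z, 1 ≤ t z := fun z => by
    have := abs_nonneg (x z)
    simp only [ht]; linarith
  have hxle : ∀ z, |x z| ≤ 1 / κ := fun z => by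
    simp only [hx]
    rw [abs_div, abs_of_pos hκ]
    exact div_le_div_of_nonneg_right (ha.le_one z) hκ.le
  have htle : ∀ z, t z ≤ 3 / κ := fun z => by
    have h1 := hxle z
    have h2 : 1 ≤ 1 / κ := by rw [le_div_iff₀ hκ]; linarith
    simp only [ht]
    have : 3 / κ = 2 * (1 / κ) + 1 / κ := by ring
    rw [this]; linarith
  have h9 : 0 < 9 / κ := by positivity
  set W : ι → ℝ := fun z => (if h < a z ∧ z ≠ o then q * δ * x z else 0) + L * t z with hW
  have hxnn : ∀ z, 0 ≤ a z → 0 ≤ x z := fun z hz => div_nonneg hz hκ.le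
  have hW0 : ∀ z, 0 ≤ W z := fun z => by
    simp only [hW]
    have h1 : 0 ≤ L * t z := mul_nonneg hL0 (le_trans zero_le_one (ht1 z))
    split_ifs with hz
    · have := hxnn z (by linarith [hz.1])
      positivity
    · linarith
  -- pairs with `o`
  have hoz : ∀ z, z ≠ o → -(W z) ≤ Phi q ((p - δ) * ch (x z) - p * x z) := by
    intro z hz
    simp only [hW]
    have h1 : 0 ≤ L * t z := mul_nonneg hL0 (le_trans zero_le_one (ht1 z))
    rcases le_or_gt (a z) 0 with haz | haz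
    · rw [if_neg (by rintro ⟨h2, -⟩; linarith)]
      have hxz : x z ≤ 0 := div_nonpos_of_nonpos_of_nonneg haz hκ.le
      have hK := oz_pos (δ := δ) hp0.le hpδ hxz
      have hKB := oz_le_neg (x := x z) hp0.le hp1 hδ.le
      have hlog : Real.log ((p - δ) * ch (x z) - p * x z) ≤ L := by
        refine le_trans (Real.log_le_log hK ?_) hL
        have h3 : (3 : ℝ) / κ ≤ 9 / κ := div_le_div_of_nonneg_right (by norm_num) hκ.le
        exact hKB.trans ((htle z).trans h3)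
      have := phi_lb hq hK hKB hlog hL0
      simp only [zero_add]
      exact this
    · have hxz : 0 ≤ x z := hxnn z haz.le
      have hK1 := oz_le_one (δ := δ) hp0.le hp1 hδ.le hxz
      rcases le_or_gt (a z) h with hl | hl
      · have hK := oz_light hpδ hxz (hlight z haz hl)
        have := phi_nn hq hK hK1
        rw [if_neg (by rintro ⟨h2, -⟩; linarith)]
        linarith
      · rw [if_pos ⟨hl, hz⟩]
        have hge := oz_ge (x := x z) hpδ
        have hqx : 0 ≤ q * δ * x z := by positivity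
        rcases lt_or_ge ((p - δ) * ch (x z) - p * x z) 0 with hK | hK
        · have h3 := phi_neg (q := q) hK
          have h4 := mul_le_mul_of_nonneg_left hge hq.le
          nlinarith
        · have := phi_nn hq hK hK1
          linarith
  -- the other pairs
  have hzz : ∀ z w, -(L * κ * (t z * t w)) ≤ Phi q (κ * (ch (x z) * ch (x w) - x z * x w)) := by
    intro z w
    have hK := pair_pos (x := x z) (y := x w) hκ
    have hKB := pair_le (x := x z) (y := x w) hκ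
    have hlog : Real.log (κ * (ch (x z) * ch (x w) - x z * x w)) ≤ L := by
      refine le_trans (Real.log_le_log hK ?_) hL
      refine hKB.trans ?_
      have h1 : t z * t w ≤ (3 / κ) * (3 / κ) :=
        mul_le_mul (htle z) (htle w) (le_trans zero_le_one (ht1 w)) (by positivity)
      have h2 := mul_le_mul_of_nonneg_left h1 hκ.le
      refine h2.trans (le_of_eq ?_)
      field_simp
      norm_num
    have := phi_lb hq hK hKB hlog hL0
    have e : L * κ * (t z * t w) = L * (κ * ((2 * |x z| + 1) * (2 * |x w| + 1))) := by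
      simp only [ht]; ring
    rw [e]; exact this
  unfold LB
  -- the off-diagonal sum
  set f : ι → ι → ℝ := fun i j => Phi q
    ((fun z => if z = o then (p - δ) * s else √κ * ch (a z / κ)) i *
      (fun z => if z = o then (p - δ) * s else √κ * ch (a z / κ)) j - s * a i * (s * a j)) with hf
  have hfo : ∀ z, z ≠ o → f o z = Phi q ((p - δ) * ch (x z) - p * x z) := by
    intro z hz
    simp only [hf, if_neg hz, if_true, hop]
    congr 1
    have e1 : (p - δ) * s * (√κ * ch (a z / κ)) = (p - δ) * (s * √κ) * ch (a z / κ) := by ring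
    have e2 : s * p * (s * a z) = p * ((s * s) * a z) := by ring
    rw [e1, e2, hs1, hs2]
    simp only [hx]
    ring
  have hfo' : ∀ z, z ≠ o → f z o = Phi q ((p - δ) * ch (x z) - p * x z) := by
    intro z hz
    rw [← hfo z hz]
    simp only [hf]
    congr 1
    ring
  have hfz : ∀ z w, z ≠ o → w ≠ o →
      f z w = Phi q (κ * (ch (x z) * ch (x w) - x z * x w)) := by
    intro z w hz hw
    simp only [hf, if_neg hz, if_neg hw]
    congr 1
    have e1 : √κ * ch (a z / κ) * (√κ * ch (a w / κ)) = (√κ * √κ) * (ch (a z / κ) * ch (a w / κ)) := by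
      ring
    have e2 : s * a z * (s * a w) = (s * s) * (a z * a w) := by ring
    rw [e1, e2, hsq, hs2]
    simp only [hx]
    field_simp
  have hG : ∀ i j, -((if i = o then W j else 0) + (if j = o then W i else 0) + L * κ * (t i * t j)) ≤
      if i = j then 0 else f i j := by
    intro i j
    have hV : 0 ≤ L * κ * (t i * t j) := by
      have := ht1 i
      have := ht1 j
      positivity
    by_cases hij : i = j
    · rw [if_pos hij]
      have h1 : 0 ≤ (if i = o then W j else 0) := by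
        split_ifs
        · exact hW0 j
        · exact le_rfl
      have h2 : 0 ≤ (if j = o then W i else 0) := by
        split_ifs
        · exact hW0 i
        · exact le_rfl
      linarith
    · rw [if_neg hij]
      by_cases hi : i = o
      · subst hi
        have hj : j ≠ i := fun h => hij h.symm
        rw [if_pos rfl, if_neg hj, hfo j hj]
        have := hoz j hj
        linarith
      · by_cases hj : j = o
        · subst hj
          rw [if_neg hi, if_pos rfl, hfo' i hi]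
          have := hoz i hi
          linarith
        · rw [if_neg hi, if_neg hj, hfz i j hi hj]
          have := hzz i j
          linarith
  have hsum : -(2 * ∑ z, W z + L * κ * (∑ z, t z) ^ 2) ≤ offsum f := by
    unfold offsum
    have h1 : ∑ i, ∑ j, -((if i = o then W j else 0) + (if j = o then W i else 0)
        + L * κ * (t i * t j)) ≤ ∑ i, ∑ j, if i = j then 0 else f i j :=
      Finset.sum_le_sum fun i _ => Finset.sum_le_sum fun j _ => hG i j
    refine le_trans (le_of_eq ?_) h1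
    simp only [Finset.sum_neg_distrib, Finset.sum_add_distrib]
    congr 1
    have e1 : ∑ i, ∑ j, (if i = o then W j else 0) = ∑ j, W j := by
      rw [Finset.sum_comm]
      refine Finset.sum_congr rfl fun j _ => ?_
      rw [Finset.sum_ite_eq' univ o (fun _ => W j), if_pos (mem_univ _)]
    have e2 : ∑ i, ∑ j, (if j = o then W i else 0) = ∑ j, W j := by
      refine Finset.sum_congr rfl fun i _ => ?_
      rw [Finset.sum_ite_eq' univ o (fun _ => W i), if_pos (mem_univ _)]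
    have e3 : ∑ i, ∑ j, L * κ * (t i * t j) = L * κ * (∑ z, t z) ^ 2 := by
      rw [sq, Finset.sum_mul_sum]
      simp only [Finset.mul_sum]
    rw [e1, e2, e3]
    ring
  have hsumt : ∑ z, t z = 4 / κ + (m + 2) := by
    simp only [ht, hx, Finset.sum_add_distrib, ← Finset.mul_sum, abs_div, abs_of_pos hκ]
    rw [← Finset.sum_div, ha.abs, Finset.sum_const, card_univ, nsmul_eq_mul, mul_one, hc]
    ring
  have hsumW : ∑ z, W z = q * δ / κ * (∑ i ∈ univ.filter (fun i => h < a i), a i - p)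
      + L * (4 / κ + (m + 2)) := by
    simp only [hW, Finset.sum_add_distrib, ← Finset.mul_sum]
    rw [hsumt]
    congr 1
    have e : ∀ z, (if h < a z ∧ z ≠ o then q * δ * x z else 0) =
        (if h < a z then q * δ * x z else 0) - (if z = o then q * δ * x z else 0) := by
      intro z
      by_cases hz : z = o
      · subst hz
        rw [if_neg (by tauto), if_pos ho, if_pos rfl]
        ring
      · simp [hz]
    rw [Finset.sum_congr rfl fun z _ => e z, Finset.sum_sub_distrib,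
      Finset.sum_ite_eq' univ o, if_pos (mem_univ _), ← Finset.sum_filter, ← Finset.mul_sum]
    simp only [hx]
    rw [← Finset.sum_div, hop]
    ring
  -- the diagonal
  have hdiag : ∑ i, ((fun z => if z = o then (p - δ) * s else √κ * ch (a z / κ)) i ^ 2
      - (s * a i) ^ 2) ≤ (m + 2) * κ - δ * (2 * p - δ) / κ := by
    have e : ∀ i, ((fun z => if z = o then (p - δ) * s else √κ * ch (a z / κ)) i ^ 2
        - (s * a i) ^ 2) ≤ κ - (if i = o then δ * (2 * p - δ) / κ else 0) := by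
      intro i
      by_cases hi : i = o
      · subst hi
        simp only [if_true, hop]
        have e1 : ((p - δ) * s) ^ 2 - (s * p) ^ 2 = (s * s) * ((p - δ) ^ 2 - p ^ 2) := by ring
        rw [e1, hs2]
        have e2 : 1 / κ * ((p - δ) ^ 2 - p ^ 2) = -(δ * (2 * p - δ) / κ) := by ring
        rw [e2]
        linarith
      · simp only [if_neg hi]
        have e1 : (√κ * ch (a i / κ)) ^ 2 - (s * a i) ^ 2
            = (√κ * √κ) * ch (a i / κ) ^ 2 - (s * s) * a i ^ 2 := by ring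
        rw [e1, hsq, hs2, ch_sq]
        have e2 : κ * (1 + (a i / κ) ^ 2) - 1 / κ * a i ^ 2 = κ := by
          field_simp
          ring
        rw [e2]
        linarith
    refine (Finset.sum_le_sum fun i _ => e i).trans (le_of_eq ?_)
    rw [Finset.sum_sub_distrib, Finset.sum_const, card_univ, nsmul_eq_mul, hc,
      Finset.sum_ite_eq' univ o (fun _ => δ * (2 * p - δ) / κ), if_pos (mem_univ _)]
  have hdq := mul_le_mul_of_nonneg_left hdiag hq.le
  rw [hsumt, hsumW] at hsum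
  have e4 : q * ((m + 2) * κ - δ * (2 * p - δ) / κ) = q * (m + 2) * κ - q * δ * (2 * p - δ) / κ := by
    ring
  rw [e4] at hdq
  linarith

end

end DomAux

open DomAux

section

variable {ι : Type*} [Fintype ι] [DecidableEq ι]

/-- MODULE RW16 (a dominating weight). Let `o ∈ HP` with `D = 2 a o - Pm > exp(-0.3 u^4)`, `p = a o`
(`p ≥ D` since `Pm ≥ p`). Put `δ = exp(-0.36 u^4)` (`2 δ ≤ D`), `s = 1/√κ`, `α = a/√κ`,
`b z = √(κ + α z²) = √κ cosh θ z`, `sinh θ z = a z/κ` for `z ≠ o`, `b o = (p - δ)/√κ`.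
* diagonal: `K o o = -δ (2p - δ)/κ`, `K z z = κ`.
* `z ≠ o` with `a z > 0`: `K o z = (p-δ) cosh θ - p sinh θ = -δ sinh θ + (p - δ) exp(-θ)
  = p exp(-θ) - δ cosh θ ≤ 1`. If `z` is heavy: `Φ(K) ≥ - q δ a z/κ` (if `K < 0`:
  `Φ(K) ≥ Φ(0) + q K ≥ q K` by `Phi_slope`, otherwise `Φ ≥ 0`). If `z` is light then
  `exp θ ≤ 2 a z/κ + 1 ≤ exp(u^4/60)` and `K ≥ 0` because `δ cosh θ ≤ p exp(-θ)`; `Φ(K) ≥ 0`.
* `a z ≤ 0`: `0 < K o z ≤ exp |θ| ≤ 2|a z|/κ + 1`, `Φ(K) ≥ -K (log K)^+`.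
* `z, z' ≠ o`: `0 < K ≤ κ (2|a z|/κ + 1)(2|a z'|/κ + 1)`, `Φ(K) ≥ -K (log K)^+`, `log K ≤ 3 u^4`; the
  sum of these `K` is at most `κ (4/κ + m + 2)² ≤ m exp(u^4/100)`.
Total: `≥ (q/κ) δ (2 p - δ) - 2 (q/κ) δ (Pm - p) - m exp(u^4/50) ≥ (q/κ) δ D - m exp(u^4/50)`
(`2(2p - Pm) - δ ≥ D`), `q/κ ≥ m²/10^106`. -/
theorem dom {u q m κ : ℝ} (h : Win u q m κ) (hc : (Fintype.card ι : ℝ) = m + 2) {a : ι → ℝ}
    (ha : Rel a) (hn : ¬ NonDom u a) :
    ∃ (b : ι → ℝ) (s : ℝ), Real.exp (6 / 5 * u ^ 4) ≤ LB q b (fun i => s * a i) := by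
  classical
  obtain ⟨hu0, hm0, hq0, hκ0, hκ1⟩ := h.pos
  unfold NonDom at hn
  push Not at hn
  obtain ⟨o, ho, hD⟩ := hn
  have ho' : h0 u < a o := by
    have := ho
    simp only [HP, mem_filter, mem_univ, true_and] at this
    exact this
  have hh0 : 0 < h0 u := Real.exp_pos _
  obtain ⟨F, hF, hF1, hF2, hu1⟩ := nums h
  have hF3 : 1 ≤ F := le_trans (by norm_num) hF2
  have hF0 : 0 < F := lt_of_lt_of_le one_pos hF3
  have hF2' : (3 : ℝ) ≤ F := le_trans (by norm_num) hF2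
  -- powers of `F`
  have hFk : ∀ k : ℕ, F ^ k = Real.exp (k * (u ^ 4 / 1000)) := fun k => by
    rw [hF, Real.exp_nat_mul]
  set p := a o with hp
  have hp1 : p ≤ 1 := (le_abs_self _).trans (ha.le_one o)
  have hpP : p ≤ Pm u a := by
    unfold Pm
    refine Finset.single_le_sum (f := a) (fun i hi => ?_) ho
    simp only [HP, mem_filter, mem_univ, true_and] at hi
    linarith
  set D := 2 * p - Pm u a with hDdef
  have hDp : D ≤ p := by rw [hDdef]; linarith
  set δ := Real.exp (-(36 / 100) * u ^ 4) with hδdef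
  have hδ0 : 0 < δ := Real.exp_pos _
  have hδF : δ * F ^ 60 = Real.exp (-(3 / 10) * u ^ 4) := by
    rw [hFk, hδdef, ← Real.exp_add]
    congr 1
    push_cast
    ring
  have hδD : δ * F ^ 60 ≤ D := by rw [hδF]; exact hD.le
  have hF60 : 2 ≤ F ^ 60 := le_trans (by linarith : (2:ℝ) ≤ F)
    (le_self_pow₀ hF3 (by norm_num))
  have h2δ : 2 * δ ≤ D := by
    have := mul_le_mul_of_nonneg_left hF60 hδ0.le
    linarith
  have hpδ : δ < p := by linarith
  -- `1/κ ≤ m u^4`
  have hk1 : 1 / κ ≤ m * u ^ 4 := by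
    rw [div_le_iff₀ hκ0]
    have := h.lo
    linarith
  have hk2 : κ * m ≤ 10 ^ 105 * u ^ 4 := by
    have := h.hi
    linarith
  -- log
  have hL : Real.log (9 / κ) ≤ 2 * u ^ 4 := by
    have h1 := h.el_bds.2
    unfold el at h1
    rw [Real.log_div (by norm_num) hκ0.ne']
    have h9 : Real.log 9 ≤ 8 := by
      have := Real.log_le_sub_one_of_pos (by norm_num : (0:ℝ) < 9)
      linarith
    have hu4 : (16 : ℝ) ≤ u ^ 4 := by
      have h2 : (2 : ℝ) ≤ u := le_trans (by norm_num) h.hu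
      calc (16 : ℝ) = 2 ^ 4 := by norm_num
        _ ≤ u ^ 4 := by gcongr
    linarith
  -- light weights
  have hlight : ∀ z, 0 < a z → a z ≤ h0 u →
      δ * (a z / κ) * (2 * (a z / κ) + 1) ≤ p - δ := by
    intro z hz hz2
    have hx0 : 0 < a z / κ := div_pos hz hκ0
    have hx : a z / κ ≤ F ^ 11 := by
      have h1 : a z / κ ≤ h0 u * (m * u ^ 4) := by
        rw [div_eq_mul_one_div]
        exact mul_le_mul hz2 hk1 (by positivity) hh0.le
      have h2 : h0 u * (m * u ^ 4) = u ^ 4 * F ^ 10 := by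
        have : h0 u * m = F ^ 10 := by
          rw [hFk, h.hm]
          unfold h0
          rw [← Real.exp_add]
          congr 1
          push_cast
          ring
        rw [← this]; ring
      have h3 : u ^ 4 ≤ F := by
        have h4 : u ^ 4 ≤ u ^ 12 := pow_le_pow_right₀ hu1 (by norm_num)
        have h5 : u ^ 12 ≤ 10 ^ 110 * u ^ 12 := by
          have : (0:ℝ) ≤ u ^ 12 := by positivity
          calc u ^ 12 = 1 * u ^ 12 := (one_mul _).symm
            _ ≤ 10 ^ 110 * u ^ 12 := mul_le_mul_of_nonneg_right (by norm_num) this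
        exact h4.trans (h5.trans hF1)
      calc a z / κ ≤ u ^ 4 * F ^ 10 := by rw [← h2]; exact h1
        _ ≤ F * F ^ 10 := mul_le_mul_of_nonneg_right h3 (by positivity)
        _ = F ^ 11 := by ring
    have hF11 : 1 ≤ F ^ 11 := one_le_pow₀ hF3
    have h2x : 2 * (a z / κ) + 1 ≤ F * F ^ 11 := by
      have h4 := hF2'
      calc 2 * (a z / κ) + 1 ≤ 3 * F ^ 11 := by linarith
        _ ≤ F * F ^ 11 := mul_le_mul_of_nonneg_right h4 (by positivity)
    have h5 : δ * (a z / κ) * (2 * (a z / κ) + 1) ≤ δ * F ^ 11 * (F * F ^ 11) := by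
      apply mul_le_mul (mul_le_mul_of_nonneg_left hx hδ0.le) h2x (by positivity) (by positivity)
    have h6 : F ^ 60 = F ^ 23 * F ^ 37 := by ring
    have h7 : 2 ≤ F ^ 37 := le_trans (by linarith : (2:ℝ) ≤ F)
      (le_self_pow₀ hF3 (by norm_num))
    have h8 : δ * F ^ 11 * (F * F ^ 11) * 2 ≤ D := by
      calc δ * F ^ 11 * (F * F ^ 11) * 2 = (δ * F ^ 23) * 2 := by ring
        _ ≤ (δ * F ^ 23) * F ^ 37 := mul_le_mul_of_nonneg_left h7 (by positivity)
        _ = δ * F ^ 60 := by rw [h6]; ring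
        _ ≤ D := hδD
    linarith
  have hmain := main_lb (h := h0 u) (L := 2 * u ^ 4) hq0 hκ0 hκ1 hc ha (o := o) rfl hδ0 hpδ hp1
    hh0 ho' (by positivity) hL hlight
  refine ⟨_, _, le_trans ?_ hmain⟩
  have hPm : ∑ i ∈ univ.filter (fun i => h0 u < a i), a i = Pm u a := rfl
  rw [hPm]
  -- numerics
  clear hmain hlight hL
  have hq1 : q ≤ 2 * m * u ^ 4 := by
    have := h.phi
    have : 0 < m * u ^ 4 := by positivity
    linarith
  have hm1 := p200 h.big.2.2
  have herr := num_err hκ0 hu1 hF1 hk1 hk2 hm1 hq0 hq1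
  have hqκ := num_q hκ0 hu1 hm0 hk2 hq0 h.plo
  have hfin := num_fin hm0 hF2
  have hpos : m * F ^ 340 / 10 ^ 106 ≤ q * δ * (2 * p - δ) / κ - 2 * (q * δ / κ) * (Pm u a - p) := by
    have e : q * δ * (2 * p - δ) / κ - 2 * (q * δ / κ) * (Pm u a - p)
        = (q / κ) * (δ * (2 * D - δ)) := by
      rw [hDdef]; ring
    rw [e]
    have h1 : δ * Real.exp (-(3 / 10) * u ^ 4) ≤ δ * (2 * D - δ) := by
      apply mul_le_mul_of_nonneg_left _ hδ0.le
      have := hD.le
      linarith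
    have h2 : m * m / 10 ^ 106 * (δ * Real.exp (-(3 / 10) * u ^ 4)) ≤ (q / κ) * (δ * (2 * D - δ)) :=
      mul_le_mul hqκ h1 (by positivity) (by positivity)
    refine le_trans (le_of_eq ?_) h2
    have h3 : m * (δ * Real.exp (-(3 / 10) * u ^ 4)) = F ^ 340 := by
      rw [hFk, hδdef, h.hm, ← Real.exp_add, ← Real.exp_add]
      congr 1
      push_cast
      ring
    rw [← h3]
    ring
  have hgoal : Real.exp (6 / 5 * u ^ 4) = m * F ^ 200 := by
    rw [hFk, h.hm, ← Real.exp_add]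
    congr 1
    push_cast
    ring
  rw [hgoal]
  linarith

end

end Pool.Agent.RieszWin
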