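import Pool.Agent.RieszWin.SplitW

set_option autoImplicit false

open Real Finset

namespace Pool.Agent.RieszWin

open Pool.Agent.RieszSmall Pool.Agent.RieszLin Pool.Agent.RieszTr

section

variable {ι : Type*} [Fintype ι] [DecidableEq ι]

namespace AngleAux

theorem big {u : ℝ} (hu : (10 : ℝ) ^ 200 ≤ u) : (1000 : ℝ) ≤ u ^ 4 := by
  have h1 : (1000 : ℝ) ≤ (10 : ℝ) ^ 200 := by norm_num
  have h2 : (1000 : ℝ) ≤ u := h1.trans hu
  calc (1000 : ℝ) ≤ u := h2
    _ = u ^ 1 := (pow_one u).symm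
    _ ≤ u ^ 4 := pow_le_pow_right₀ (by linarith) (by norm_num)

theorem heavy_le {u τ a : ℝ} (h1 : Real.exp (199 / 200 * u ^ 4) ≤ τ) (ha : h0 u < a) :
    Real.exp (u ^ 4 / 200) ≤ τ * a := by
  unfold h0 at ha
  have h2 : Real.exp (u ^ 4 / 200) =
      Real.exp (199 / 200 * u ^ 4) * Real.exp (-(99 / 100) * u ^ 4) := by
    rw [← Real.exp_add]
    congr 1
    ring
  rw [h2]
  exact mul_le_mul h1 ha.le (Real.exp_pos _).le ((Real.exp_pos _).le.trans h1)

theorem arsinh_le_of {x T : ℝ} (h : x ≤ Real.sinh T) : Real.arsinh x ≤ T := by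
  rw [← Real.arsinh_sinh T]
  exact Real.arsinh_le_arsinh.2 h

theorem le_arsinh_of {x T : ℝ} (h : Real.sinh T ≤ x) : T ≤ Real.arsinh x := by
  rw [← Real.arsinh_sinh T]
  exact Real.arsinh_le_arsinh.2 h

end AngleAux

/-- MODULE RW11 (angles `θ = arsinh (τ a)`). `τ` is `exp(u^4)` up to a factor `exp(± u^4/200)`.
Light: `|τ a| ≤ exp(u^4/50)`, `arsinh x ≤ log(2 x + 1)`. -/
theorem angle_light {u τ a : ℝ} (hu : (10 : ℝ) ^ 200 ≤ u) (h0' : 0 ≤ τ)
    (h2 : τ ≤ Real.exp (101 / 100 * u ^ 4)) (ha : |a| ≤ h0 u) :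
    |Real.arsinh (τ * a)| ≤ u ^ 4 / 45 := by
  have hW := AngleAux.big hu
  have hy : |τ * a| ≤ Real.exp (u ^ 4 / 50) := by
    rw [abs_mul, abs_of_nonneg h0']
    have h3 : Real.exp (u ^ 4 / 50) =
        Real.exp (101 / 100 * u ^ 4) * Real.exp (-(99 / 100) * u ^ 4) := by
      rw [← Real.exp_add]
      congr 1
      ring
    rw [h3]
    exact mul_le_mul h2 ha (abs_nonneg a) (Real.exp_pos _).le
  have hs : Real.exp (u ^ 4 / 50) ≤ Real.sinh (u ^ 4 / 45) := by
    rw [Real.sinh_eq]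
    have h3 : Real.exp (u ^ 4 / 45) = Real.exp (u ^ 4 / 50) * Real.exp (u ^ 4 / 450) := by
      rw [← Real.exp_add]
      congr 1
      ring
    have h4 : (3 : ℝ) ≤ Real.exp (u ^ 4 / 450) := by
      have := Real.add_one_le_exp (u ^ 4 / 450)
      linarith
    have h5 : (1 : ℝ) ≤ Real.exp (u ^ 4 / 50) := Real.one_le_exp (by linarith)
    have h6 : Real.exp (-(u ^ 4 / 45)) ≤ 1 := Real.exp_le_one_iff.2 (by linarith)
    have h7 : Real.exp (u ^ 4 / 50) * 3 ≤ Real.exp (u ^ 4 / 45) := by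
      rw [h3]
      exact mul_le_mul_of_nonneg_left h4 (by linarith)
    linarith
  have h8 := abs_le.1 (hy.trans hs)
  rw [abs_le]
  constructor
  · apply AngleAux.le_arsinh_of
    rw [Real.sinh_neg]
    exact h8.1
  · exact AngleAux.arsinh_le_of h8.2

/-- heavy: `τ a ≥ exp(u^4/200)`, `arsinh x ≥ log x`. -/
theorem angle_heavy {u τ a : ℝ} (hu : (10 : ℝ) ^ 200 ≤ u)
    (h1 : Real.exp (199 / 200 * u ^ 4) ≤ τ) (ha : h0 u < a) :
    u ^ 4 / 200 ≤ Real.arsinh (τ * a) := by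
  apply AngleAux.le_arsinh_of
  refine le_trans ?_ (AngleAux.heavy_le h1 ha)
  rw [Real.sinh_eq]
  have h3 := Real.exp_pos (u ^ 4 / 200)
  have h4 := Real.exp_pos (-(u ^ 4 / 200))
  linarith

/-- the partition of `Z` into light and heavy points. -/
theorem part_angle {u τ : ℝ} (hu : (10 : ℝ) ^ 200 ≤ u) (h1 : Real.exp (199 / 200 * u ^ 4) ≤ τ)
    (h2 : τ ≤ Real.exp (101 / 100 * u ^ 4)) (a : ι → ℝ) (Z : Finset ι) :
    Part u Z (Z.filter (fun z => |a z| ≤ h0 u)) (Z.filter (fun z => h0 u < a z))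
      (Z.filter (fun z => h0 u < -a z)) (fun z => Real.arsinh (τ * a z)) := by
  have hτ : 0 ≤ τ := (Real.exp_pos _).le.trans h1
  have h0p : 0 < h0 u := Real.exp_pos _
  refine ⟨?_, ?_, ?_, ?_, ?_, ?_, ?_⟩
  · ext z
    simp only [mem_union, mem_filter]
    constructor
    · rintro ((h | h) | h) <;> exact h.1
    · intro hz
      by_cases h3 : |a z| ≤ h0 u
      · exact Or.inl (Or.inl ⟨hz, h3⟩)
      · push Not at h3
        rcases lt_abs.1 h3 with h | h
        · exact Or.inl (Or.inr ⟨hz, h⟩)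
        · exact Or.inr ⟨hz, h⟩
  · rw [Finset.disjoint_left]
    intro z hz hz'
    have h3 := (mem_filter.1 hz).2
    have h4 := (mem_filter.1 hz').2
    have := le_abs_self (a z)
    linarith
  · rw [Finset.disjoint_left]
    intro z hz hz'
    have h3 := (mem_filter.1 hz).2
    have h4 := (mem_filter.1 hz').2
    have := neg_le_abs (a z)
    linarith
  · rw [Finset.disjoint_left]
    intro z hz hz'
    have h3 := (mem_filter.1 hz).2
    have h4 := (mem_filter.1 hz').2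
    linarith
  · intro z hz
    exact angle_light hu hτ h2 (mem_filter.1 hz).2
  · intro z hz
    exact angle_heavy hu h1 (mem_filter.1 hz).2
  · intro z hz
    have h3 := angle_heavy hu h1 (mem_filter.1 hz).2
    rw [mul_neg, Real.arsinh_neg] at h3
    exact h3

/-- `κ x ≤ ξ ≤ κ x (1 + exp(-u^4/100))` for `t = arsinh x`, `x ≥ exp(u^4/200)`:
`exp t = x + √(1+x²) ≤ 2 x + 1/(2x)`. -/
theorem xi_arsinh {u κ x : ℝ} (hk : 0 < κ) (hx : Real.exp (u ^ 4 / 200) ≤ x) :
    κ * x ≤ xi κ (Real.arsinh x) ∧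
      xi κ (Real.arsinh x) ≤ κ * x * (1 + Real.exp (-(u ^ 4 / 100))) := by
  have hx0 : 0 < x := (Real.exp_pos _).trans_le hx
  have hx2 : Real.exp (u ^ 4 / 100) ≤ x ^ 2 := by
    have h1 : Real.exp (u ^ 4 / 100) = Real.exp (u ^ 4 / 200) ^ 2 := by
      rw [sq, ← Real.exp_add]
      congr 1
      ring
    rw [h1]
    exact pow_le_pow_left₀ (Real.exp_pos _).le hx 2
  have hnn : 0 ≤ Real.arsinh x := Real.arsinh_nonneg_iff.2 hx0.le
  unfold xi
  rw [abs_of_nonneg hnn, Real.exp_arsinh]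
  have hs1 : x ≤ √(1 + x ^ 2) := Real.le_sqrt_of_sq_le (by linarith)
  have hs2 : √(1 + x ^ 2) ≤ x + 1 / (2 * x) := by
    rw [Real.sqrt_le_left (by positivity)]
    have h3 : (x + 1 / (2 * x)) ^ 2 = x ^ 2 + 1 + (1 / (2 * x)) ^ 2 := by
      field_simp
      ring
    rw [h3]
    have : 0 ≤ (1 / (2 * x)) ^ 2 := sq_nonneg _
    linarith
  constructor
  · have h4 : κ * (2 * x) ≤ κ * (x + √(1 + x ^ 2)) :=
      mul_le_mul_of_nonneg_left (by linarith) hk.le
    linarith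
  · have h4 : κ * (x + √(1 + x ^ 2)) ≤ κ * (2 * x + 1 / (2 * x)) :=
      mul_le_mul_of_nonneg_left (by linarith) hk.le
    have h5 : κ * (2 * x + 1 / (2 * x)) / 2 = κ * x * (1 + 1 / (4 * x ^ 2)) := by
      field_simp
      ring
    have h6 : 1 / (4 * x ^ 2) ≤ Real.exp (-(u ^ 4 / 100)) := by
      rw [Real.exp_neg, ← one_div]
      refine one_div_le_one_div_of_le (Real.exp_pos _) ?_
      have : 0 ≤ x ^ 2 := sq_nonneg _
      linarith
    have h7 : κ * x * (1 + 1 / (4 * x ^ 2)) ≤ κ * x * (1 + Real.exp (-(u ^ 4 / 100))) :=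
      mul_le_mul_of_nonneg_left (by linarith) (by positivity)
    linarith

theorem xi_neg (κ t : ℝ) : xi κ (-t) = xi κ t := by
  unfold xi
  rw [abs_neg]

/-- sums of `ξ` over heavy points: with `c = κ τ`. -/
theorem XX_arsinh {u κ τ : ℝ} (hu : (10 : ℝ) ^ 200 ≤ u) (hk : 0 < κ)
    (h1 : Real.exp (199 / 200 * u ^ 4) ≤ τ) (a : ι → ℝ) (S : Finset ι)
    (hS : ∀ z ∈ S, h0 u < |a z|) :
    κ * τ * ∑ z ∈ S, |a z| ≤ XX κ S (fun z => Real.arsinh (τ * a z)) ∧
      XX κ S (fun z => Real.arsinh (τ * a z))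
        ≤ κ * τ * (1 + Real.exp (-(u ^ 4 / 100))) * ∑ z ∈ S, |a z| := by
  have hτ : 0 ≤ τ := (Real.exp_pos _).le.trans h1
  have key : ∀ z ∈ S, xi κ (Real.arsinh (τ * a z)) = xi κ (Real.arsinh (τ * |a z|)) := by
    intro z _
    rcases le_total 0 (a z) with h | h
    · rw [abs_of_nonneg h]
    · rw [abs_of_nonpos h, mul_neg, Real.arsinh_neg, xi_neg]
  unfold XX
  constructor
  · rw [Finset.mul_sum]
    refine Finset.sum_le_sum fun z hz => ?_
    rw [key z hz]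
    have h3 := (xi_arsinh hk (AngleAux.heavy_le h1 (hS z hz))).1
    linarith
  · rw [Finset.mul_sum]
    refine Finset.sum_le_sum fun z hz => ?_
    rw [key z hz]
    have h3 := (xi_arsinh hk (AngleAux.heavy_le h1 (hS z hz))).2
    refine h3.trans (le_of_eq ?_)
    ring

/-- range of `τ = σ/κ` -/
theorem tau_range {u q m κ σ : ℝ} (h : Win u q m κ) (h1 : m * κ ≤ σ * u ^ 5)
    (h2 : 3 * σ * u ^ 3 ≤ m * κ) :
    0 < σ ∧ Real.exp (199 / 200 * u ^ 4) ≤ σ / κ ∧ σ / κ ≤ Real.exp (101 / 100 * u ^ 4) := by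
  obtain ⟨hu0, hm0, -, hk0, -⟩ := h.pos
  have hmk : 0 < m * κ := mul_pos hm0 hk0
  have hW := AngleAux.big h.hu
  have hσ : 0 < σ := by
    by_contra hcon
    push Not at hcon
    have h3 : σ * u ^ 5 ≤ 0 := mul_nonpos_of_nonpos_of_nonneg hcon (by positivity)
    linarith
  refine ⟨hσ, ?_, ?_⟩
  · rw [le_div_iff₀ hk0]
    have h3 : u ^ 5 ≤ Real.exp (u ^ 4 / 200) := by
      have h4 := (h.big).2.1
      have hu1 : 1 ≤ u := by
        have : (1 : ℝ) ≤ (10 : ℝ) ^ 200 := by norm_num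
        exact this.trans h.hu
      calc u ^ 5 ≤ u ^ 60 := pow_le_pow_right₀ hu1 (by norm_num)
        _ ≤ Real.exp (u ^ 4 / 1000) := h4
        _ ≤ Real.exp (u ^ 4 / 200) := Real.exp_le_exp.2 (by linarith)
    have h5 : m = Real.exp (199 / 200 * u ^ 4) * Real.exp (u ^ 4 / 200) := by
      rw [h.hm, ← Real.exp_add]
      congr 1
      ring
    have h6 : Real.exp (199 / 200 * u ^ 4) * κ * u ^ 5 ≤ σ * u ^ 5 := by
      refine le_trans ?_ h1
      have h7 : Real.exp (199 / 200 * u ^ 4) * κ * u ^ 5 ≤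
          Real.exp (199 / 200 * u ^ 4) * κ * Real.exp (u ^ 4 / 200) :=
        mul_le_mul_of_nonneg_left h3 (by positivity)
      refine h7.trans (le_of_eq ?_)
      rw [h5]
      ring
    exact le_of_mul_le_mul_right h6 (by positivity)
  · rw [div_le_iff₀ hk0]
    have hu3 : (1 : ℝ) ≤ u ^ 3 := by
      have hu1 : 1 ≤ u := by
        have : (1 : ℝ) ≤ (10 : ℝ) ^ 200 := by norm_num
        exact this.trans h.hu
      exact one_le_pow₀ hu1
    have h3 : σ ≤ 3 * σ * u ^ 3 := by nlinarith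
    have h4 : m * κ ≤ Real.exp (101 / 100 * u ^ 4) * κ := by
      refine mul_le_mul_of_nonneg_right ?_ hk0.le
      rw [h.hm]
      exact Real.exp_le_exp.2 (by linarith)
    linarith

end

end Pool.Agent.RieszWin
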