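import Pool.Agent.RieszWin.RelF

set_option autoImplicit false

open Real Finset

namespace Pool.Agent.RieszWin

open Pool.Agent.RieszSmall Pool.Agent.RieszLin Pool.Agent.RieszTr

section

variable {ι : Type*} [Fintype ι] [DecidableEq ι]

/-- MODULE RW12. The certificate in which all points have `b² - α² = κ`. -/
theorem LB_hyp {q κ : ℝ} (hk : 0 < κ) (θ : ι → ℝ) :
    LB q (fun i => √κ * Real.cosh (θ i)) (fun i => √κ * Real.sinh (θ i))
      = PS q κ univ θ - q * (Fintype.card ι : ℝ) * κ := by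
  have hsq : √κ * √κ = κ := Real.mul_self_sqrt hk.le
  have h1 : ∀ i j, √κ * Real.cosh (θ i) * (√κ * Real.cosh (θ j)) -
      √κ * Real.sinh (θ i) * (√κ * Real.sinh (θ j)) = κ * Real.cosh (θ i - θ j) := by
    intro i j
    rw [Real.cosh_sub]
    linear_combination (Real.cosh (θ i) * Real.cosh (θ j) - Real.sinh (θ i) * Real.sinh (θ j)) * hsq
  have h2 : ∀ i, (√κ * Real.cosh (θ i)) ^ 2 - (√κ * Real.sinh (θ i)) ^ 2 = κ := by
    intro i
    have h3 := Real.cosh_sq (θ i)
    have h4 : (√κ * Real.cosh (θ i)) ^ 2 - (√κ * Real.sinh (θ i)) ^ 2 =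
        (√κ * √κ) * (Real.cosh (θ i) ^ 2 - Real.sinh (θ i) ^ 2) := by ring
    rw [h4, hsq, h3]
    ring
  unfold LB PS offsum offd
  simp only [h1, h2]
  rw [Finset.sum_const, Finset.card_univ, nsmul_eq_mul]
  ring

/-- the same for `θ i = arsinh (τ a i)`, `s = √κ τ`. -/
theorem LB_hyp' {q κ τ : ℝ} (hk : 0 < κ) (a : ι → ℝ) :
    LB q (fun i => √κ * Real.cosh (Real.arsinh (τ * a i))) (fun i => √κ * τ * a i)
      = PS q κ univ (fun i => Real.arsinh (τ * a i)) - q * (Fintype.card ι : ℝ) * κ := by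
  have h := LB_hyp (q := q) hk (fun i => Real.arsinh (τ * a i))
  rw [← h]
  congr 1
  ext i
  rw [Real.sinh_arsinh]
  ring

end

end Pool.Agent.RieszWin
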