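import Pool.Agent.RieszWin.Core
import Pool.Agent.RieszWin.Angle
import Pool.Agent.RieszWin.HypLB

set_option autoImplicit false

open Real Finset

namespace Pool.Agent.RieszWin

open Pool.Agent.RieszSmall Pool.Agent.RieszLin Pool.Agent.RieszTr

namespace SpreadAux

variable {ι : Type*} [Fintype ι] [DecidableEq ι]

theorem u4_big {u : ℝ} (hu : (10 : ℝ) ^ 200 ≤ u) : (10 : ℝ) ^ 200 ≤ u ^ 4 := by
  have h1 : (1 : ℝ) ≤ u := le_trans (by norm_num) hu
  calc (10 : ℝ) ^ 200 ≤ u := hu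
    _ = u ^ 1 := (pow_one u).symm
    _ ≤ u ^ 4 := pow_le_pow_right₀ h1 (by norm_num)

theorem eps_le {u : ℝ} (hu : (10 : ℝ) ^ 200 ≤ u) : Real.exp (-(u ^ 4 / 100)) ≤ 1 / 1000 := by
  have h1 := u4_big hu
  have h2 : (1000 : ℝ) ≤ Real.exp (u ^ 4 / 100) := by
    have h3 := Real.add_one_le_exp (u ^ 4 / 100)
    have h4 : (100000 : ℝ) ≤ u ^ 4 := le_trans (by norm_num) h1
    linarith
  rw [Real.exp_neg, ← one_div]
  exact one_div_le_one_div_of_le (by norm_num) h2

omit [Fintype ι] [DecidableEq ι] in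
/-- sums of `sinh` -/
theorem SS_eq (τ : ℝ) (a : ι → ℝ) (S : Finset ι) :
    SS S (fun i => Real.arsinh (τ * a i)) = τ * ∑ z ∈ S, a z := by
  unfold SS
  rw [Finset.mul_sum]
  exact Finset.sum_congr rfl fun z _ => Real.sinh_arsinh _

theorem h0_pos (u : ℝ) : 0 < h0 u := Real.exp_pos _

/-- the light points -/
theorem GG_light {a : ι → ℝ} (ha : Rel a) (u τ : ℝ) (hτ : 0 ≤ τ) (hP : Pm u a ≤ 1 / 100)
    (hQ : Pm u (fun i => -a i) ≤ 3 / 5) :
    198 / 125 * τ ^ 2 ≤ GG (univ.filter (fun z => |a z| ≤ h0 u)) (fun i => Real.arsinh (τ * a i)) := by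
  have h0 := h0_pos u
  set L1 : Finset ι := univ.filter (fun z => 0 < a z ∧ a z ≤ RieszWin.h0 u) with hL1
  set L2 : Finset ι := univ.filter (fun z => a z ≤ 0 ∧ -a z ≤ RieszWin.h0 u) with hL2
  have hU : univ.filter (fun z => |a z| ≤ RieszWin.h0 u) = L1 ∪ L2 := by
    ext z
    simp only [hL1, hL2, mem_union, mem_filter, mem_univ, true_and, abs_le]
    constructor
    · rintro ⟨h1, h2⟩
      by_cases h3 : 0 < a z
      · exact Or.inl ⟨h3, h2⟩
      · exact Or.inr ⟨not_lt.mp h3, by linarith⟩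
    · rintro (⟨h1, h2⟩ | ⟨h1, h2⟩)
      · exact ⟨by linarith, h2⟩
      · exact ⟨by linarith, by linarith⟩
  have hd : Disjoint L1 L2 := by
    rw [Finset.disjoint_left]
    intro z h1 h2
    simp only [hL1, hL2, mem_filter, mem_univ, true_and] at h1 h2
    linarith [h1.1, h2.1]
  have s1 : ∑ z ∈ L1, a z = 1 - Pm u a := ha.light u
  have s2 : ∑ z ∈ L2, a z = -(1 - Pm u (fun i => -a i)) := by
    have h3 := ha.neg.light u
    have h4 : ∑ i ∈ univ.filter (fun i => 0 < -a i ∧ -a i ≤ RieszWin.h0 u), -a i =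
        ∑ z ∈ L2, -a z := by
      refine Finset.sum_subset ?_ ?_
      · intro z hz
        simp only [hL2, mem_filter, mem_univ, true_and] at hz ⊢
        exact ⟨by linarith [hz.1], hz.2⟩
      · intro z hz hz'
        simp only [hL2, mem_filter, mem_univ, true_and] at hz hz'
        by_contra h5
        exact hz' ⟨lt_of_le_of_ne (by linarith [hz.1]) (Ne.symm h5), hz.2⟩
    have h5 : ∑ z ∈ L2, -a z = 1 - Pm u (fun i => -a i) := by rw [← h4]; exact h3
    rw [Finset.sum_neg_distrib] at h5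
    linarith
  have e1 := SS_eq τ a L1
  have e2 := SS_eq τ a L2
  rw [s1] at e1
  rw [s2] at e2
  have p1 : 0 ≤ 1 - Pm u a := by linarith
  have p2 : 0 ≤ 1 - Pm u (fun i => -a i) := by linarith
  have hm := GG_mink L1 L2 hd (fun i => Real.arsinh (τ * a i))
    (by rw [e1]; exact mul_nonneg hτ p1)
    (by rw [e2]; nlinarith [mul_nonneg hτ p2])
  rw [hU]
  refine le_trans ?_ hm
  rw [e1, e2]
  have h6 : (99 : ℝ) / 100 * (2 / 5) ≤ (1 - Pm u a) * (1 - Pm u (fun i => -a i)) :=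
    mul_le_mul (by linarith) (by linarith) (by norm_num) p1
  have h7 : 0 ≤ τ ^ 2 := sq_nonneg τ
  nlinarith [mul_le_mul_of_nonneg_left h6 h7]

/-- everything except the heavy terms -/
theorem spread0 {u q m κ σ B M : ℝ} (h : Win u q m κ) (hc : (Fintype.card ι : ℝ) = m + 2)
    {a : ι → ℝ} (ha : Rel a) (h1 : m * κ ≤ σ * u ^ 5) (h2 : 3 * σ * u ^ 3 ≤ m * κ)
    (hx : ∀ i, σ * |a i| ≤ M) (hM : 0 < M) (hM2 : M ≤ 10 ^ 119) (hB : 0 ≤ B) (hB1 : B ≤ 555)
    (hBM : Real.log (2 * (201 / 200 * M) * (201 / 200 * M)) ≤ B)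
    (hP : Pm u a ≤ 1 / 100) (hQ : Pm u (fun i => -a i) ≤ 3 / 5) :
    ∃ (b : ι → ℝ) (s : ℝ) (S : Finset ι) (x : ι → ℝ),
      (∀ z ∈ S, 0 < x z ∧ x z ≤ 201 / 200 * M) ∧ ∑ z ∈ S, x z ≤ 31 / 50 * σ ∧
      Base q m κ + 29 / 20 * (u ^ 4 * (σ ^ 2 / κ)) + 2 * m * ∑ z ∈ S, Fh (x z)
        - 2 * m / u ^ 2 * ∑ z ∈ S, (x z + x z * |Real.log (x z)|) ≤ LB q b (fun i => s * a i) := by
  obtain ⟨hσ, hτ1, hτ2⟩ := tau_range h h1 h2
  obtain ⟨hu0, hm0, hq0, hk0, hk1⟩ := h.pos
  obtain ⟨hel1, hel2⟩ := h.el_bds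
  have hu4 := u4_big h.hu
  have heps := eps_le h.hu
  have heps0 : 0 < Real.exp (-(u ^ 4 / 100)) := Real.exp_pos _
  set τ : ℝ := σ / κ with hτ
  have hτ0 : 0 < τ := div_pos hσ hk0
  have hkτ : κ * τ = σ := by rw [hτ]; field_simp
  set θ : ι → ℝ := fun i => Real.arsinh (τ * a i) with hθ
  have hp : Part u univ (univ.filter (fun z => |a z| ≤ h0 u)) (univ.filter (fun z => h0 u < a z))
      (univ.filter (fun z => h0 u < -a z)) θ := part_angle h.hu hτ1 hτ2 a univ
  set L : Finset ι := univ.filter (fun z => |a z| ≤ h0 u) with hL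
  set P : Finset ι := univ.filter (fun z => h0 u < a z) with hPdef
  set Q : Finset ι := univ.filter (fun z => h0 u < -a z) with hQdef
  have h0p := h0_pos u
  -- sums over the heavy points
  have sP : ∑ z ∈ P, |a z| = Pm u a := by
    refine Finset.sum_congr rfl fun z hz => ?_
    have hz' : h0 u < a z := (mem_filter.mp hz).2
    exact abs_of_pos (h0p.trans hz')
  have sQ : ∑ z ∈ Q, |a z| = Pm u (fun i => -a i) := by
    refine Finset.sum_congr rfl fun z hz => ?_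
    have hz' : h0 u < -a z := (mem_filter.mp hz).2
    rw [← abs_neg]
    exact abs_of_pos (h0p.trans hz')
  have hPh : ∀ z ∈ P, h0 u < |a z| := by
    intro z hz
    simp only [hPdef, mem_filter, mem_univ, true_and] at hz
    exact hz.trans_le (le_abs_self _)
  have hQh : ∀ z ∈ Q, h0 u < |a z| := by
    intro z hz
    simp only [hQdef, mem_filter, mem_univ, true_and] at hz
    exact hz.trans_le (neg_le_abs _)
  have xP := (XX_arsinh h.hu hk0 hτ1 a P hPh).2
  have xQ := (XX_arsinh h.hu hk0 hτ1 a Q hQh).2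
  rw [hkτ, sP] at xP
  rw [hkτ, sQ] at xQ
  have hPm0 := Pm_nonneg u a
  have hQm0 := Pm_nonneg u (fun i => -a i)
  have hXP : XX κ P θ ≤ 1001 / 100000 * σ := by
    refine xP.trans ?_
    have e1 : σ * (1 + Real.exp (-(u ^ 4 / 100))) ≤ σ * (1001 / 1000) :=
      mul_le_mul_of_nonneg_left (by linarith) hσ.le
    have e2 : 0 ≤ σ * (1001 / 1000) := by positivity
    calc σ * (1 + Real.exp (-(u ^ 4 / 100))) * Pm u a ≤ σ * (1001 / 1000) * (1 / 100) :=
          mul_le_mul e1 hP hPm0 e2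
      _ = _ := by ring
  have hXQ : XX κ Q θ ≤ 3003 / 5000 * σ := by
    refine xQ.trans ?_
    have e1 : σ * (1 + Real.exp (-(u ^ 4 / 100))) ≤ σ * (1001 / 1000) :=
      mul_le_mul_of_nonneg_left (by linarith) hσ.le
    have e2 : 0 ≤ σ * (1001 / 1000) := by positivity
    calc σ * (1 + Real.exp (-(u ^ 4 / 100))) * Pm u (fun i => -a i) ≤ σ * (1001 / 1000) * (3 / 5) :=
          mul_le_mul e1 hQ hQm0 e2
      _ = _ := by ring
  have hXP0 : 0 ≤ XX κ P θ := XX_nonneg hk0 P θ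
  have hXQ0 : 0 ≤ XX κ Q θ := XX_nonneg hk0 Q θ
  -- the heavy points
  have hxg : ∀ y : ℝ, h0 u < y → σ * y ≤ M → xi κ (Real.arsinh (τ * y)) ≤ 201 / 200 * M := by
    intro y hy hyM
    have e1 : Real.exp (u ^ 4 / 200) ≤ τ * y := by
      have e2 : Real.exp (u ^ 4 / 200) = Real.exp (199 / 200 * u ^ 4) * h0 u := by
        unfold h0
        rw [← Real.exp_add]
        congr 1
        ring
      rw [e2]
      exact mul_le_mul hτ1 hy.le h0p.le hτ0.le
    refine (xi_arsinh hk0 e1).2.trans ?_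
    have e3 : κ * (τ * y) = σ * y := by rw [← mul_assoc, hkτ]
    rw [e3]
    calc σ * y * (1 + Real.exp (-(u ^ 4 / 100))) ≤ M * (1001 / 1000) :=
          mul_le_mul hyM (by linarith) (by linarith) hM.le
      _ ≤ 201 / 200 * M := by linarith
  have hxP : ∀ z ∈ P, xi κ (θ z) ≤ 201 / 200 * M := by
    intro z hz
    simp only [hPdef, mem_filter, mem_univ, true_and] at hz
    refine hxg (a z) hz ?_
    have := hx z
    rwa [abs_of_pos (h0p.trans hz)] at this
  have hxQ : ∀ z ∈ Q, xi κ (θ z) ≤ 201 / 200 * M := by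
    intro z hz
    simp only [hQdef, mem_filter, mem_univ, true_and] at hz
    have e4 : xi κ (θ z) = xi κ (Real.arsinh (τ * -a z)) := by
      rw [← xi_neg, hθ, mul_neg, Real.arsinh_neg]
    rw [e4]
    refine hxg (-a z) hz ?_
    have := hx z
    rw [← abs_neg] at this
    rwa [abs_of_pos (h0p.trans hz)] at this
  have hxPQ : ∀ z ∈ P ∪ Q, xi κ (θ z) ≤ 201 / 200 * M := by
    intro z hz
    rcases mem_union.mp hz with hz | hz
    · exact hxP z hz
    · exact hxQ z hz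
  have hxi0 : ∀ z, 0 < xi κ (θ z) := fun z => xi_pos hk0
  -- sum of the light `sinh`
  have hSS : κ * |SS L θ| ≤ XX κ P θ + XX κ Q θ := by
    have e1 : SS L θ + SS P θ + SS Q θ = 0 := by
      have e2 := sum_part hp (fun z => Real.sinh (θ z))
      have e3 : ∑ z, Real.sinh (θ z) = 0 := by
        have e4 := SS_eq τ a univ
        rw [ha.sum, mul_zero] at e4
        exact e4
      rw [e3] at e2
      exact e2.symm
    have e5 : |SS L θ| ≤ |SS P θ| + |SS Q θ| := by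
      have e6 : SS L θ = -(SS P θ + SS Q θ) := by linarith
      rw [e6, abs_neg]
      exact abs_add_le _ _
    have e7 := SS_heavy hk0 P θ
    have e8 := SS_heavy hk0 Q θ
    calc κ * |SS L θ| ≤ κ * (|SS P θ| + |SS Q θ|) := mul_le_mul_of_nonneg_left e5 hk0.le
      _ = κ * |SS P θ| + κ * |SS Q θ| := by ring
      _ ≤ _ := add_le_add e7 e8
  have hXS : XX κ P θ + XX κ Q θ ≤ 5 / 2 * σ := by linarith
  have hcard : ((univ : Finset ι).card : ℝ) = m + 2 := by rw [Finset.card_univ]; exact hc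
  have hu3 : 0 < u ^ 3 := by positivity
  have hcore := core h hp (S0 := 5 / 2 * σ) (B := B)
    (by rw [hcard]; rw [add_sub_cancel_left]; norm_num)
    (fun z hz => (hxPQ z hz).trans (by
      have : (201 : ℝ) / 200 * 10 ^ 119 ≤ 10 ^ 120 := by norm_num
      linarith))
    (by nlinarith [mul_pos hσ hu3])
    (hSS.trans hXS) hXS hB
    (fun z hz w hw => by
      refine le_trans (Real.log_le_log ?_ ?_) hBM
      · have := hxi0 z
        have := hxi0 w
        positivity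
      · have e1 := hxP z hz
        have e2 := hxQ w hw
        have e3 := hxi0 z
        have e4 := hxi0 w
        exact mul_le_mul (mul_le_mul_of_nonneg_left e1 (by norm_num)) e2 e4.le (by positivity))
  -- the light term
  have hGG := GG_light ha u τ hτ0.le hP hQ
  have hu40 : 0 < u ^ 4 := by positivity
  have hsk : κ * τ ^ 2 = σ ^ 2 / κ := by rw [hτ]; field_simp
  have hG : 94 / 100 * (198 / 125) * (u ^ 4 * (σ ^ 2 / κ)) ≤
      94 / 100 * u ^ 4 * (κ * GG L θ) := by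
    have e1 : κ * (198 / 125 * τ ^ 2) ≤ κ * GG L θ := mul_le_mul_of_nonneg_left hGG hk0.le
    have e2 : κ * (198 / 125 * τ ^ 2) = 198 / 125 * (σ ^ 2 / κ) := by rw [← hsk]; ring
    rw [e2] at e1
    calc 94 / 100 * (198 / 125) * (u ^ 4 * (σ ^ 2 / κ)) =
          94 / 100 * u ^ 4 * (198 / 125 * (σ ^ 2 / κ)) := by ring
      _ ≤ _ := mul_le_mul_of_nonneg_left e1 (by positivity)
  -- the term of the pairs `P`, `Q`
  have hBu : B ≤ u ^ 4 / 1000 := by
    have : (555000 : ℝ) ≤ u ^ 4 := le_trans (by norm_num) hu4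
    linarith
  have hE : 4 / κ * (el κ + B) * (XX κ P θ * XX κ Q θ) ≤ 1 / 40 * (u ^ 4 * (σ ^ 2 / κ)) := by
    have e1 : el κ + B ≤ 1003 / 1000 * u ^ 4 := by linarith
    have e0 : 0 ≤ el κ + B := by
      have : 0 ≤ 998 / 1000 * u ^ 4 := by positivity
      linarith
    have e2 : XX κ P θ * XX κ Q θ ≤ (1001 / 100000 * σ) * (3003 / 5000 * σ) :=
      mul_le_mul hXP hXQ hXQ0 (by positivity)
    have e3 : 0 ≤ XX κ P θ * XX κ Q θ := mul_nonneg hXP0 hXQ0
    have e4 : 4 / κ * (el κ + B) ≤ 4 / κ * (1003 / 1000 * u ^ 4) :=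
      mul_le_mul_of_nonneg_left e1 (by positivity)
    have e5 : 0 ≤ 4 / κ * (1003 / 1000 * u ^ 4) := by positivity
    calc 4 / κ * (el κ + B) * (XX κ P θ * XX κ Q θ) ≤
          4 / κ * (1003 / 1000 * u ^ 4) * ((1001 / 100000 * σ) * (3003 / 5000 * σ)) :=
          mul_le_mul e4 e2 e3 e5
      _ = (4 * (1003 / 1000) * (1001 / 100000) * (3003 / 5000)) * (u ^ 4 * (σ ^ 2 / κ)) := by
          field_simp
      _ ≤ 1 / 40 * (u ^ 4 * (σ ^ 2 / κ)) :=
          mul_le_mul_of_nonneg_right (by norm_num) (by positivity)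
  refine ⟨fun i => √κ * Real.cosh (Real.arsinh (τ * a i)), √κ * τ, P ∪ Q, fun z => xi κ (θ z),
    fun z hz => ⟨hxi0 z, hxPQ z hz⟩, ?_, ?_⟩
  · rw [Finset.sum_union hp.hPQ]
    have e1 : ∑ z ∈ P, xi κ (θ z) = XX κ P θ := rfl
    have e2 : ∑ z ∈ Q, xi κ (θ z) = XX κ Q θ := rfl
    rw [e1, e2]
    linarith
  · rw [LB_hyp' hk0 a, hc]
    rw [hcard] at hcore
    unfold Base
    have hpos : 0 ≤ u ^ 4 * (σ ^ 2 / κ) := by positivity
    have e9 : PS q κ univ (fun i => Real.arsinh (τ * a i)) = PS q κ univ θ := rfl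
    rw [e9]
    linarith

end SpreadAux

section

variable {ι : Type*} [Fintype ι] [DecidableEq ι]

/-- MODULE RW17 (both sides spread out; compare `FU`). For the light points
`GG L ≥ 4 (σ/κ)² (1 - Pm a)(1 - Pm (-a)) ≥ 4 (σ/κ)² (99/100)(2/5)` (`GG_mink` for the light points
with `a > 0` and with `a ≤ 0`; `Rel.light`). `core` with `B = 11/5`:
`0.94 · 1.584 u^4 σ²/κ - (4/κ)(el κ + 3)(3/500)(1.01 σ²) ≥ 1.4 u^4 σ²/κ`; the heavy terms
`2 m Fh ξ - (2m/u²)(ξ + ξ|log ξ|) ≥ - (m/u) ξ /3`. -/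
theorem spread1 {u q m κ σ : ℝ} (h : Win u q m κ) (hc : (Fintype.card ι : ℝ) = m + 2)
    {a : ι → ℝ} (ha : Rel a) (h1 : m * κ ≤ σ * u ^ 5) (h2 : 3 * σ * u ^ 3 ≤ m * κ)
    (hx : ∀ i, σ * |a i| ≤ 2) (hP : Pm u a ≤ 1 / 100) (hQ : Pm u (fun i => -a i) ≤ 3 / 5) :
    ∃ (b : ι → ℝ) (s : ℝ),
      Base q m κ + 7 / 5 * u ^ 4 * σ ^ 2 / κ - m / u * σ ≤ LB q b (fun i => s * a i) := by
  obtain ⟨hσ, -, -⟩ := tau_range h h1 h2
  obtain ⟨hu0, hm0, hq0, hk0, hk1⟩ := h.pos
  have hu1 : (1000 : ℝ) ≤ u := le_trans (by norm_num) h.hu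
  obtain ⟨b, s, S, x, hx1, hx2, hx3⟩ := SpreadAux.spread0 (B := 11 / 5) (M := 2) h hc ha h1 h2 hx
    (by norm_num) (by norm_num) (by norm_num) (by norm_num)
    (by
      rw [Real.log_le_iff_le_exp (by norm_num)]
      have e1 : (2.7182818283 : ℝ) < Real.exp 1 := Real.exp_one_gt_d9
      have e2 : Real.exp (11 / 5) = Real.exp 1 ^ 2 * Real.exp (1 / 5) := by
        rw [← Real.exp_nat_mul, ← Real.exp_add]
        norm_num
      have e3 : (6 : ℝ) / 5 ≤ Real.exp (1 / 5) := by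
        have := Real.add_one_le_exp (1 / 5 : ℝ)
        linarith
      have e4 : (73 : ℝ) / 10 ≤ Real.exp 1 ^ 2 := by nlinarith
      rw [e2]
      have e5 : (73 : ℝ) / 10 * (6 / 5) ≤ Real.exp 1 ^ 2 * Real.exp (1 / 5) :=
        mul_le_mul e4 e3 (by norm_num) (by positivity)
      linarith)
    hP hQ
  refine ⟨b, s, le_trans ?_ hx3⟩
  -- the heavy terms
  have hh : ∀ z ∈ S, -(4 * m / u ^ 2 * x z) ≤
      2 * m * Fh (x z) - 2 * m / u ^ 2 * (x z + x z * |Real.log (x z)|) := by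
    intro z hz
    obtain ⟨e1, e2⟩ := hx1 z hz
    have e3 : x z ≤ 21 / 10 := by linarith
    have e4 := mul_abs_log_le e1 e3
    have e5 := Fh_nonneg e1.le (by linarith : x z ≤ 27 / 10)
    have e6 : 2 * m / u ^ 2 * (x z + x z * |Real.log (x z)|) ≤
        2 * m / u ^ 2 * (2 * x z + Fh (x z)) :=
      mul_le_mul_of_nonneg_left (by linarith) (by positivity)
    have e7 : 2 * m / u ^ 2 ≤ 2 * m := by
      rw [div_le_iff₀ (by positivity)]
      have : (1 : ℝ) ≤ u ^ 2 := by nlinarith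
      nlinarith
    have e8 : 2 * m / u ^ 2 * Fh (x z) ≤ 2 * m * Fh (x z) := mul_le_mul_of_nonneg_right e7 e5
    have e9 : 2 * m / u ^ 2 * (2 * x z + Fh (x z)) =
        4 * m / u ^ 2 * x z + 2 * m / u ^ 2 * Fh (x z) := by ring
    linarith
  have hs := Finset.sum_le_sum hh
  rw [Finset.sum_sub_distrib, ← Finset.mul_sum, ← Finset.mul_sum, Finset.sum_neg_distrib,
    ← Finset.mul_sum] at hs
  have f1 : 4 * m / u ^ 2 * ∑ z ∈ S, x z ≤ m / u * σ := by
    have g1 : 4 * m / u ^ 2 * ∑ z ∈ S, x z ≤ 4 * m / u ^ 2 * (31 / 50 * σ) :=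
      mul_le_mul_of_nonneg_left hx2 (by positivity)
    have g2 : 4 * m / u ^ 2 * (31 / 50 * σ) = (m / u * σ) * (124 / 50 / u) := by
      field_simp
      ring
    have g3 : (124 : ℝ) / 50 / u ≤ 1 := by
      rw [div_le_one hu0]
      linarith
    have g4 : (m / u * σ) * (124 / 50 / u) ≤ (m / u * σ) * 1 :=
      mul_le_mul_of_nonneg_left g3 (by positivity)
    linarith
  have f2 : 7 / 5 * u ^ 4 * σ ^ 2 / κ ≤ 29 / 20 * (u ^ 4 * (σ ^ 2 / κ)) := by
    have g1 : 7 / 5 * u ^ 4 * σ ^ 2 / κ = 7 / 5 * (u ^ 4 * (σ ^ 2 / κ)) := by ring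
    rw [g1]
    exact mul_le_mul_of_nonneg_right (by norm_num) (by positivity)
  linarith

/-- The same with `σ = 10^110`, `B = 555` (now `ξ` can be large): `0.94·1.584 u^4 σ²/κ
≥ 1.4 · 10^115 m`; `2 m Fh ξ ≥ - 2 m ξ (log ξ)^+`, `log ξ ≤ 254`, `∑ ξ ≤ 10^110`. -/
theorem spread2 {u q m κ : ℝ} (h : Win u q m κ) (hk : u ^ 4 ≤ m * κ)
    (hc : (Fintype.card ι : ℝ) = m + 2) {a : ι → ℝ} (ha : Rel a)
    (hP : Pm u a ≤ 1 / 100) (hQ : Pm u (fun i => -a i) ≤ 3 / 5) :
    ∃ (b : ι → ℝ) (s : ℝ), Base q m κ + 10 * m ≤ LB q b (fun i => s * a i) := by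
  obtain ⟨hu0, hm0, hq0, hk0, hk1⟩ := h.pos
  have hu := h.hu
  have hu1 : (1 : ℝ) ≤ u := le_trans (by norm_num) hu
  have h1 : m * κ ≤ 10 ^ 110 * u ^ 5 := by
    refine h.hi.trans ?_
    have e1 : u ^ 4 ≤ u ^ 5 := pow_le_pow_right₀ hu1 (by norm_num)
    have e2 : (10 : ℝ) ^ 105 ≤ 10 ^ 110 := by norm_num
    exact mul_le_mul e2 e1 (by positivity) (by positivity)
  have h2 : 3 * (10 : ℝ) ^ 110 * u ^ 3 ≤ m * κ := by
    refine le_trans ?_ hk
    have e1 : u ^ 4 = u * u ^ 3 := by ring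
    rw [e1]
    refine mul_le_mul_of_nonneg_right (le_trans ?_ hu) (by positivity)
    norm_num
  have hl10 : Real.log 10 ≤ 231 / 100 := by
    rw [Real.log_le_iff_le_exp (by norm_num)]
    have e1 : (2.7182818283 : ℝ) < Real.exp 1 := Real.exp_one_gt_d9
    have e2 : Real.exp (231 / 100) = Real.exp 1 ^ 2 * Real.exp (31 / 100) := by
      rw [← Real.exp_nat_mul, ← Real.exp_add]
      norm_num
    have e3 : (1358 : ℝ) / 1000 ≤ Real.exp (31 / 100) := by
      have := Real.quadratic_le_exp_of_nonneg (show (0 : ℝ) ≤ 31 / 100 by norm_num)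
      linarith
    have e4 : (738 : ℝ) / 100 ≤ Real.exp 1 ^ 2 := by nlinarith
    rw [e2]
    have e5 : (738 : ℝ) / 100 * (1358 / 1000) ≤ Real.exp 1 ^ 2 * Real.exp (31 / 100) :=
      mul_le_mul e4 e3 (by norm_num) (by positivity)
    linarith
  have hlM : Real.log (201 / 200 * 10 ^ 110) ≤ 255 := by
    rw [Real.log_mul (by norm_num) (by norm_num), Real.log_pow]
    have e1 : Real.log (201 / 200) ≤ 1 / 100 := by
      have := Real.log_le_sub_one_of_pos (show (0 : ℝ) < 201 / 200 by norm_num)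
      linarith
    push_cast
    linarith
  obtain ⟨b, s, S, x, hx1, hx2, hx3⟩ := SpreadAux.spread0 (B := 555) (M := 10 ^ 110)
    (σ := 10 ^ 110) h hc ha h1 h2
    (fun i => by
      have := ha.le_one i
      have e0 : (0 : ℝ) < 10 ^ 110 := by norm_num
      nlinarith)
    (by norm_num) (by norm_num) (by norm_num) le_rfl
    (by
      rw [Real.log_mul (by norm_num) (by norm_num), Real.log_mul (by norm_num) (by norm_num)]
      have := Real.log_two_lt_d9
      linarith)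
    hP hQ
  refine ⟨b, s, le_trans ?_ hx3⟩
  have hh : ∀ z ∈ S, -(1100 * m * x z) ≤
      2 * m * Fh (x z) - 2 * m / u ^ 2 * (x z + x z * |Real.log (x z)|) := by
    intro z hz
    obtain ⟨e1, e2⟩ := hx1 z hz
    have e7 : 2 * m / u ^ 2 ≤ 2 * m := by
      rw [div_le_iff₀ (by positivity)]
      have : (1 : ℝ) ≤ u ^ 2 := by nlinarith
      nlinarith
    rcases le_total (x z) (21 / 10) with e3 | e3
    · have e4 := mul_abs_log_le e1 e3
      have e5 := Fh_nonneg e1.le (by linarith : x z ≤ 27 / 10)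
      have e6 : 2 * m / u ^ 2 * (x z + x z * |Real.log (x z)|) ≤
          2 * m * (2 * x z + Fh (x z)) := by
        refine le_trans (mul_le_mul_of_nonneg_right e7 ?_) ?_
        · have := abs_nonneg (Real.log (x z))
          positivity
        · exact mul_le_mul_of_nonneg_left (by linarith) (by positivity)
      have e9 : 0 ≤ m * x z := by positivity
      nlinarith
    · have e4 : Real.log (x z) ≤ 255 := (Real.log_le_log e1 e2).trans hlM
      have e5 : 0 ≤ Real.log (x z) := Real.log_nonneg (by linarith)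
      have e6 : |Real.log (x z)| = Real.log (x z) := abs_of_nonneg e5
      have e8 : x z * Real.log (x z) ≤ x z * 255 := mul_le_mul_of_nonneg_left e4 e1.le
      have e9 : 0 ≤ m * x z := by positivity
      have e10 : 2 * m / u ^ 2 * (x z + x z * |Real.log (x z)|) ≤ 2 * m * (x z + x z * 255) := by
        rw [e6]
        refine le_trans (mul_le_mul_of_nonneg_right e7 ?_) ?_
        · positivity
        · exact mul_le_mul_of_nonneg_left (by linarith) (by positivity)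
      have e11 : 2 * m * (x z - x z * 255) ≤ 2 * m * Fh (x z) := by
        unfold Fh
        exact mul_le_mul_of_nonneg_left (by linarith) (by positivity)
      nlinarith
  have hs := Finset.sum_le_sum hh
  rw [Finset.sum_sub_distrib, ← Finset.mul_sum, ← Finset.mul_sum, Finset.sum_neg_distrib,
    ← Finset.mul_sum] at hs
  have f1 : 1100 * m * ∑ z ∈ S, x z ≤ 10 ^ 114 * m := by
    have g1 : 1100 * m * ∑ z ∈ S, x z ≤ 1100 * m * (31 / 50 * 10 ^ 110) :=
      mul_le_mul_of_nonneg_left hx2 (by positivity)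
    refine g1.trans ?_
    have g2 : 1100 * m * (31 / 50 * 10 ^ 110) = (1100 * (31 / 50 * 10 ^ 110)) * m := by ring
    rw [g2]
    exact mul_le_mul_of_nonneg_right (by norm_num) hm0.le
  have f2 : 10 ^ 115 * m ≤ 29 / 20 * (u ^ 4 * (((10 : ℝ) ^ 110) ^ 2 / κ)) := by
    have g1 : m ≤ 10 ^ 105 * u ^ 4 / κ := by
      rw [le_div_iff₀ hk0]
      exact h.hi
    have g2 : (10 : ℝ) ^ 115 * m ≤ 10 ^ 115 * (10 ^ 105 * u ^ 4 / κ) :=
      mul_le_mul_of_nonneg_left g1 (by positivity)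
    have g3 : (10 : ℝ) ^ 115 * (10 ^ 105 * u ^ 4 / κ) = u ^ 4 * (((10 : ℝ) ^ 110) ^ 2 / κ) := by
      have g4 : ((10 : ℝ) ^ 110) ^ 2 = 10 ^ 115 * 10 ^ 105 := by norm_num
      rw [g4]
      ring
    rw [g3] at g2
    have g5 : 0 ≤ u ^ 4 * (((10 : ℝ) ^ 110) ^ 2 / κ) := by positivity
    linarith
  have f3 : (10 : ℝ) * m + 10 ^ 114 * m ≤ 10 ^ 115 * m := by
    rw [← add_mul]
    exact mul_le_mul_of_nonneg_right (by norm_num) hm0.le
  linarith

end

end Pool.Agent.RieszWin
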