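import Pool.Agent.RieszWin.SqFar
import Pool.Agent.RieszWin.Spread

set_option autoImplicit false

open Real Finset

namespace Pool.Agent.RieszWin

open Pool.Agent.RieszSmall Pool.Agent.RieszLin Pool.Agent.RieszTr

section

variable {ι : Type*} [Fintype ι] [DecidableEq ι]

/-- MODULE RW28. Far on the square side: `tabC` and `sq_far` (`3000 w/u ≤ 1/100`). -/
theorem sq_farF {u q m κ Y A w : ℝ} (h : Apx u q m κ Y A w) (hw : 577 / 500 ≤ w)
    (hc : (Fintype.card ι : ℝ) = m + 2)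
    {a : ι → ℝ} (ha : Rel a) (hn : NonDom u a) (hn' : NonDom u (fun i => -a i)) {p1 p2 q1 q2 : ι}
    (hp : Top2 a p1 p2) (hq : Top2 (fun i => -a i) q1 q2) {t : ℝ}
    (ht : Pm u a = t * Pm u (fun i => -a i)) (ht0 : 0 ≤ t) (ht1 : t ≤ Real.exp (-1))
    (hQ : 1 / 100 ≤ Pm u (fun i => -a i)) :
    ∃ (b : ι → ℝ) (s : ℝ), Esq q m κ Y A < LB q b (fun i => s * a i) := by
  obtain ⟨hu0, hm0, hq0, hk0, hk1⟩ := h.win.pos
  obtain ⟨hY0, hY1, hYe, hwu, hlY, hYu⟩ := h.basic
  obtain ⟨v, hv1, hv2, hv3⟩ := tabC hw ht0 ht1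
  have hQ0 : 0 < Pm u (fun i => -a i) := lt_of_lt_of_le (by norm_num) hQ
  have ht1' : t ≤ 1 := ht1.trans (Real.exp_le_one_iff.2 (by norm_num))
  refine sq_far h hc ha hn hn' hp hq ht ht0 ht1' hQ (by linarith) hv2 ?_
  have h1 : 3000 * w / u ≤ 1 / 100 := by
    rw [div_le_iff₀ hu0]
    have : w ≤ u / 10 ^ 9 := hwu
    have h2 : u / 10 ^ 9 = u * (1 / 10 ^ 9) := by ring
    rw [h2] at this
    nlinarith
  have h2 : 0 ≤ 8 / 5 * (Real.exp v / Pm u (fun i => -a i))
      * (R3 u a p1 p2 + R3 u (fun i => -a i) q1 q2) := by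
    have h3 := R3_nonneg u a p1 p2
    have h4 := R3_nonneg u (fun i => -a i) q1 q2
    have h5 : 0 ≤ Real.exp v / Pm u (fun i => -a i) := div_nonneg (Real.exp_pos v).le hQ0.le
    exact mul_nonneg (mul_nonneg (by norm_num) h5) (add_nonneg h3 h4)
  linarith

/-- Near the square but not very near: `v = -(log t)/2 ∈ [0, 1/2]`, `W4_near`, `sq_far`. In the first
case `v²/4 ≥ 1/(64 w²) ≥ 3000 w/u`; in the others the term with `R3` is at least
`8/5 · 3/5/(20 w + 1) ≥ 3000 w/u` (`R3(-a) e^v/Q ≥ 1/(20w+1)`;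
`R3(a) e^v/Q ≥ t e^v/(20 w+1) = e^(-v)/(20w+1)`). -/
theorem sq_nearF {u q m κ Y A w : ℝ} (h : Apx u q m κ Y A w)
    (hc : (Fintype.card ι : ℝ) = m + 2)
    {a : ι → ℝ} (ha : Rel a) (hn : NonDom u a) (hn' : NonDom u (fun i => -a i)) {p1 p2 q1 q2 : ι}
    (hp : Top2 a p1 p2) (hq : Top2 (fun i => -a i) q1 q2) {t : ℝ}
    (ht : Pm u a = t * Pm u (fun i => -a i)) (ht0 : Real.exp (-1) ≤ t) (ht1 : t ≤ 1)
    (hQ : 1 / 100 ≤ Pm u (fun i => -a i))
    (hcase : 1 / (2 * w) ≤ -Real.log t ∨ Pm u a ≤ (20 * w + 1) * R3 u a p1 p2 ∨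
      Pm u (fun i => -a i) ≤ (20 * w + 1) * R3 u (fun i => -a i) q1 q2) :
    ∃ (b : ι → ℝ) (s : ℝ), Esq q m κ Y A < LB q b (fun i => s * a i) := by
  obtain ⟨hu0, hm0, hq0, hk0, hk1⟩ := h.win.pos
  obtain ⟨hY0, hY1, hYe, hwu, hlY, hYu⟩ := h.basic
  have hw1 := h.wlo
  have hw0 : 0 < w := by linarith
  have hw3 := h.whi
  have hQ0 : 0 < Pm u (fun i => -a i) := lt_of_lt_of_le (by norm_num) hQ
  have htp : 0 < t := lt_of_lt_of_le (Real.exp_pos _) ht0
  have hl1 : Real.log t ≤ 0 := Real.log_nonpos htp.le ht1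
  have hl2 : -1 ≤ Real.log t := by
    have := Real.log_le_log (Real.exp_pos _) ht0
    rwa [Real.log_exp] at this
  obtain ⟨v, hv⟩ : ∃ v : ℝ, v = -(Real.log t) / 2 := ⟨_, rfl⟩
  have hv0 : 0 ≤ v := by rw [hv]; linarith
  have hv1 : v ≤ 1 / 2 := by rw [hv]; linarith
  have htv : t = Real.exp (-(2 * v)) := by
    rw [hv]
    have h1 : -(2 * (-Real.log t / 2)) = Real.log t := by ring
    rw [h1, Real.exp_log htp]
  have hW := W4_near (a := w) hw1 hv0 hv1
  rw [← htv] at hW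
  have hR1 := R3_nonneg u a p1 p2
  have hR2 := R3_nonneg u (fun i => -a i) q1 q2
  have hE : 0 ≤ Real.exp v / Pm u (fun i => -a i) := div_nonneg (Real.exp_pos v).le hQ0.le
  refine sq_far h hc ha hn hn' hp hq ht htp.le ht1 hQ hv0 (by linarith) ?_
  have hw2 : w ^ 2 ≤ w ^ 3 := by
    have : w ^ 3 = w ^ 2 * w := by ring
    rw [this]
    nlinarith [sq_nonneg w]
  have hsq : 0 ≤ 1 / 4 * v ^ 2 := by positivity
  -- the bound for the terms with `R3`
  have hsmall : 3000 * w / u ≤ 24 / 25 / (20 * w + 1) := by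
    rw [div_le_div_iff₀ hu0 (by linarith)]
    have h2 : 3000 * w * (20 * w + 1) ≤ 63000 * w ^ 2 := by nlinarith
    have h3 : 63000 * w ^ 2 ≤ 63000 * (u / 10 ^ 9) := by linarith
    have h4 : 63000 * (u / 10 ^ 9) ≤ 24 / 25 * u := by
      have : u / 10 ^ 9 = u * (1 / 10 ^ 9) := by ring
      rw [this]
      nlinarith
    linarith
  rcases hcase with hc1 | hc2 | hc3
  · have hR : 0 ≤ 8 / 5 * (Real.exp v / Pm u (fun i => -a i))
        * (R3 u a p1 p2 + R3 u (fun i => -a i) q1 q2) :=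
      mul_nonneg (mul_nonneg (by norm_num) hE) (add_nonneg hR1 hR2)
    have h5 : 1 / (4 * w) ≤ v := by
      rw [hv]
      have h6 : 1 / (4 * w) = 1 / (2 * w) / 2 := by
        field_simp
        norm_num
      rw [h6]
      linarith
    have h7 : (1 / (4 * w)) ^ 2 ≤ v ^ 2 := pow_le_pow_left₀ (by positivity) h5 2
    have h8 : 3000 * w / u ≤ 1 / 4 * (1 / (4 * w)) ^ 2 := by
      have h9 : 1 / 4 * (1 / (4 * w)) ^ 2 = 1 / (64 * w ^ 2) := by
        field_simp
        norm_num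
      rw [h9, div_le_div_iff₀ hu0 (by positivity)]
      have h10 : 3000 * w * (64 * w ^ 2) = 192000 * w ^ 3 := by ring
      rw [h10]
      have h11 : u / 10 ^ 9 = u * (1 / 10 ^ 9) := by ring
      rw [h11] at hw3
      nlinarith
    linarith
  · have h5 : 24 / 25 / (20 * w + 1) ≤ 8 / 5 * (Real.exp v / Pm u (fun i => -a i))
        * (R3 u a p1 p2 + R3 u (fun i => -a i) q1 q2) := by
      have h6 : Pm u a / (20 * w + 1) ≤ R3 u a p1 p2 := by
        rw [div_le_iff₀ (by linarith)]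
        linarith
      have h7 : 3 / 5 ≤ t * Real.exp v := by
        rw [htv, ← Real.exp_add]
        have h8 : -(2 * v) + v = -v := by ring
        rw [h8]
        have h9 : Real.exp (-(1 / 2)) ≤ Real.exp (-v) := Real.exp_le_exp.2 (by linarith)
        have h10 : (3 : ℝ) / 5 ≤ Real.exp (-(1 / 2)) := by
          have h11 : Real.exp (-(1 / 2)) * Real.exp (-(1 / 2)) = Real.exp (-1) := by
            rw [← Real.exp_add]
            norm_num
          have h12 := Real.exp_neg_one_gt_d9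
          have h13 := Real.exp_pos (-(1 / 2) : ℝ)
          by_contra hcon
          push Not at hcon
          nlinarith
        linarith
      have h8 : 24 / 25 / (20 * w + 1) = 8 / 5 * (3 / 5 / (20 * w + 1)) := by ring
      have h9 : 3 / 5 / (20 * w + 1) ≤ (Real.exp v / Pm u (fun i => -a i)) * R3 u a p1 p2 := by
        calc 3 / 5 / (20 * w + 1) ≤ t * Real.exp v / (20 * w + 1) :=
              div_le_div_of_nonneg_right h7 (by linarith)
          _ = (Real.exp v / Pm u (fun i => -a i)) * (Pm u a / (20 * w + 1)) := by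
              rw [ht]
              field_simp
          _ ≤ (Real.exp v / Pm u (fun i => -a i)) * R3 u a p1 p2 :=
              mul_le_mul_of_nonneg_left h6 hE
      have h10 : 0 ≤ (Real.exp v / Pm u (fun i => -a i)) * R3 u (fun i => -a i) q1 q2 :=
        mul_nonneg hE hR2
      rw [h8, mul_assoc, mul_add]
      linarith
    linarith
  · have h5 : 24 / 25 / (20 * w + 1) ≤ 8 / 5 * (Real.exp v / Pm u (fun i => -a i))
        * (R3 u a p1 p2 + R3 u (fun i => -a i) q1 q2) := by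
      have h6 : Pm u (fun i => -a i) / (20 * w + 1) ≤ R3 u (fun i => -a i) q1 q2 := by
        rw [div_le_iff₀ (by linarith)]
        linarith
      have h7 : (1 : ℝ) ≤ Real.exp v := Real.one_le_exp hv0
      have h9 : 1 / (20 * w + 1) ≤
          (Real.exp v / Pm u (fun i => -a i)) * R3 u (fun i => -a i) q1 q2 := by
        calc 1 / (20 * w + 1) ≤ Real.exp v / (20 * w + 1) :=
              div_le_div_of_nonneg_right h7 (by linarith)
          _ = (Real.exp v / Pm u (fun i => -a i)) * (Pm u (fun i => -a i) / (20 * w + 1)) := by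
              field_simp
          _ ≤ (Real.exp v / Pm u (fun i => -a i)) * R3 u (fun i => -a i) q1 q2 :=
              mul_le_mul_of_nonneg_left h6 hE
      have h10 : 0 ≤ (Real.exp v / Pm u (fun i => -a i)) * R3 u a p1 p2 :=
        mul_nonneg hE hR1
      have h11 : 24 / 25 / (20 * w + 1) ≤ 8 / 5 * (1 / (20 * w + 1)) := by
        have h12 : 8 / 5 * (1 / (20 * w + 1)) = 8 / 5 / (20 * w + 1) := by ring
        rw [h12]
        exact div_le_div_of_nonneg_right (by norm_num) (by linarith)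
      rw [mul_assoc, mul_add]
      linarith
    linarith

/-- Both sides spread out: `spread1` with `σ = 8 Y`: `(7/5) u^4 σ²/κ = 89.6 u^4 Y²/κ
≥ 22 w m Y` (`Apx.ratio`), `E_up`. `σ |a i| ≤ 2` because `8 Y ≤ 8/3` and `|a i| ≤ 3/5` for heavy
weights. -/
theorem sq_N {u q m κ Y A w : ℝ} (h : Apx u q m κ Y A w)
    (hc : (Fintype.card ι : ℝ) = m + 2)
    {a : ι → ℝ} (ha : Rel a) (hP : Pm u a ≤ 1 / 100) (hQ : Pm u (fun i => -a i) ≤ 3 / 5) :
    ∃ (b : ι → ℝ) (s : ℝ), Esq q m κ Y A < LB q b (fun i => s * a i) := by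
  obtain ⟨hu0, hm0, hq0, hk0, hk1⟩ := h.win.pos
  obtain ⟨hY0, hY1, hYe, hwu, hlY, hYu⟩ := h.basic
  obtain ⟨hK1, hK2⟩ := h.mkap
  obtain ⟨hr1, hr2⟩ := h.ratio
  obtain ⟨he1, he2⟩ := h.win.el_bds
  have hw1 := h.wlo
  have hw0 : 0 < w := by linarith
  have hu1 : (10 : ℝ) ^ 200 ≤ u := h.win.hu
  have hu2 : (1000000 : ℝ) ≤ u := le_trans (by norm_num) hu1
  have hmk : 0 < m * κ := mul_pos hm0 hk0
  have hU : 0 < u ^ 4 := by positivity
  have hUY : 0 < u ^ 4 * Y := mul_pos hU hY0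
  have c1 : m * κ ≤ 8 * Y * u ^ 5 := by
    have h1 : m * κ ≤ w * (m * κ) := by nlinarith
    have h2 : u ^ 5 = u ^ 4 * u := by ring
    have h3 : 8 * Y * u ^ 5 = 8 * u * (u ^ 4 * Y) := by rw [h2]; ring
    rw [h3]
    nlinarith
  have c2 : 3 * (8 * Y) * u ^ 3 ≤ m * κ := by
    have h1 : w * (m * κ) ≤ u / 10 ^ 9 * (m * κ) := mul_le_mul_of_nonneg_right hwu hmk.le
    have h2 : 39 / 10 * (u ^ 4 * Y) ≤ u / 10 ^ 9 * (m * κ) := hK1.trans h1
    have h3 : u * (39 / 10 * (u ^ 3 * Y)) ≤ u * (1 / 10 ^ 9 * (m * κ)) := by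
      calc u * (39 / 10 * (u ^ 3 * Y)) = 39 / 10 * (u ^ 4 * Y) := by ring
        _ ≤ u / 10 ^ 9 * (m * κ) := h2
        _ = u * (1 / 10 ^ 9 * (m * κ)) := by ring
    have h4 := le_of_mul_le_mul_left h3 hu0
    have h5 : 0 < u ^ 3 * Y := by positivity
    nlinarith
  have hh0 : h0 u ≤ 3 / 5 := by
    rw [h0]
    have h1 : Real.exp (-(99 / 100) * u ^ 4) ≤ Real.exp (-1) := by
      apply Real.exp_le_exp.2
      have h2 : u ≤ u ^ 4 := by
        calc u = u * 1 := by ring
          _ ≤ u * u ^ 3 := mul_le_mul_of_nonneg_left (one_le_pow₀ (by linarith)) hu0.le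
          _ = u ^ 4 := by ring
      linarith
    have h3 := Real.exp_neg_one_lt_d9
    linarith
  have hsingle : ∀ (c : ι → ℝ) (i : ι), Pm u c ≤ 3 / 5 → c i ≤ 3 / 5 := by
    intro c i hcP
    by_cases hi : h0 u < c i
    · have hmem : i ∈ HP u c := by
        rw [HP, Finset.mem_filter]
        exact ⟨Finset.mem_univ _, hi⟩
      have h1 : c i ≤ ∑ j ∈ HP u c, c j := by
        refine Finset.single_le_sum (f := fun j => c j) (fun j hj => ?_) hmem
        rw [HP, Finset.mem_filter] at hj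
        exact (lt_trans (Real.exp_pos _) hj.2).le
      exact h1.trans hcP
    · push Not at hi
      exact hi.trans hh0
  have c3 : ∀ i, 8 * Y * |a i| ≤ 2 := by
    intro i
    have h1 : |a i| ≤ 3 / 5 := by
      rw [abs_le]
      constructor
      · have := hsingle (fun j => -a j) i hQ
        linarith
      · exact hsingle a i (by linarith)
    have h2 := abs_nonneg (a i)
    nlinarith
  obtain ⟨b, s, hbs⟩ := spread1 (σ := 8 * Y) h.win hc ha c1 c2 c3 hP hQ
  refine ⟨b, s, lt_of_lt_of_le ?_ hbs⟩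
  refine lt_of_le_of_lt (E_up h) ?_
  have hmY : 0 < m * Y := mul_pos hm0 hY0
  have hel : 0 < el κ := lt_of_lt_of_le (by positivity) he1
  -- main term
  have hiu : 1 / u ≤ 1 / 1000000 := one_div_le_one_div_of_le (by norm_num) hu2
  have d1 : w * m / (4 * (1002 / 1000 * u ^ 4)) * (999999 / 1000000) ≤ Y / κ := by
    refine le_trans ?_ hr1
    apply mul_le_mul
    · exact div_le_div_of_nonneg_left (by positivity) (by positivity) (by linarith)
    · linarith
    · norm_num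
    · positivity
  have d2 : 22 * w * (m * Y) ≤ 7 / 5 * u ^ 4 * (8 * Y) ^ 2 / κ := by
    have e1 : 7 / 5 * u ^ 4 * (8 * Y) ^ 2 / κ = 448 / 5 * (u ^ 4 * Y) * (Y / κ) := by
      ring
    rw [e1]
    refine le_trans ?_ (mul_le_mul_of_nonneg_left d1 (by positivity))
    have e2 : 448 / 5 * (u ^ 4 * Y) * (w * m / (4 * (1002 / 1000 * u ^ 4)) * (999999 / 1000000))
        = (448 / 5 / (4 * (1002 / 1000)) * (999999 / 1000000)) * (w * (m * Y)) := by
      field_simp
    rw [e2]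
    have e3 : (22 : ℝ) ≤ 448 / 5 / (4 * (1002 / 1000)) * (999999 / 1000000) := by norm_num
    have e4 : 0 ≤ w * (m * Y) := by positivity
    have e5 := mul_le_mul_of_nonneg_right e3 e4
    linarith
  have d3 : m / u * (8 * Y) ≤ 8 / 1000000 * (m * Y) := by
    have e1 : m / u * (8 * Y) = 8 * (m * Y) * (1 / u) := by ring
    rw [e1]
    nlinarith
  have d4 : 20 * w / u ≤ w / 1000 := by
    have e1 : 20 * w / u = 20 * w * (1 / u) := by ring
    rw [e1]
    nlinarith
  have d5 : m * Y * (8 + 4 * w + 20 * w / u) ≤ m * Y * (8 + 4 * w + w / 1000) :=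
    mul_le_mul_of_nonneg_left (by linarith) hmY.le
  have d6 : m * Y * (8 + 4 * w + w / 1000) < m * Y * (22 * w - 8 / 1000000) :=
    mul_lt_mul_of_pos_left (by linarith) hmY
  have d7 : m * Y * (22 * w - 8 / 1000000) = 22 * w * (m * Y) - 8 / 1000000 * (m * Y) := by ring
  linarith

end

end Pool.Agent.RieszWin
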