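import Pool.Agent.RieszWin.FhF

set_option autoImplicit false

open Real Finset

namespace Pool.Agent.RieszWin

namespace TabAux

/-- `x exp c ≤ 1` gives `log x ≤ -c` -/
theorem log_le_of {x c : ℝ} (hx : 0 < x) (h : x * Real.exp c ≤ 1) : Real.log x ≤ -c := by
  have h1 : Real.log (x * Real.exp c) ≤ 0 := Real.log_nonpos (by positivity) h
  rw [Real.log_mul hx.ne' (Real.exp_pos c).ne', Real.log_exp] at h1
  linarith

theorem exp_le_inv_pow {x : ℝ} (n : ℕ) (h : 0 < 1 - x) :
    Real.exp (n * x) ≤ ((1 - x)⁻¹) ^ n := by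
  rw [Real.exp_nat_mul]
  refine pow_le_pow_left₀ (Real.exp_pos x).le ?_ n
  have h1 : 1 - x ≤ Real.exp (-x) := by
    have := Real.add_one_le_exp (-x)
    linarith
  rw [Real.exp_neg] at h1
  exact (le_inv_comm₀ h (Real.exp_pos x)).1 h1

theorem e_le : Real.exp 1 ≤ 2.7182818286 := Real.exp_one_lt_d9.le

theorem log_36 : Real.log (36 / 100) ≤ -(102 / 100) := by
  apply log_le_of (by norm_num)
  have h1 : Real.exp (102 / 100) = Real.exp 1 * Real.exp (1 * (2 / 100)) := by
    rw [← Real.exp_add]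
    norm_num
  have h2 := exp_le_inv_pow (x := 2 / 100) 1 (by norm_num)
  push_cast at h2
  rw [h1]
  have h3 : Real.exp 1 * Real.exp (1 * (2 / 100)) ≤ 2.7182818286 * ((1 - 2 / 100)⁻¹) ^ 1 :=
    mul_le_mul e_le h2 (Real.exp_pos _).le (by norm_num)
  refine (mul_le_mul_of_nonneg_left h3 (by norm_num)).trans ?_
  norm_num

theorem log_216 : Real.log (216 / 1000) ≤ -(153 / 100) := by
  have h1 : Real.log (36 / 100) = 2 * Real.log (6 / 10) := by
    rw [show (36 / 100 : ℝ) = (6 / 10) ^ 2 by norm_num, Real.log_pow]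
    norm_num
  have h2 : Real.log (216 / 1000) = 3 * Real.log (6 / 10) := by
    rw [show (216 / 1000 : ℝ) = (6 / 10) ^ 3 by norm_num, Real.log_pow]
    norm_num
  have h3 := log_36
  rw [h2]
  linarith

theorem exp_34 : Real.exp (34 / 100) ≤ 1.4133 := by
  have h2 := exp_le_inv_pow (x := 34 / 1000) 10 (by norm_num)
  have h3 : ((10 : ℕ) : ℝ) * (34 / 1000) = 34 / 100 := by norm_num
  rw [h3] at h2
  refine h2.trans ?_
  norm_num

theorem exp_16 : Real.exp (-(16 / 100)) ≤ 0.8533 := by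
  have h2 := exp_le_inv_pow (x := -(16 / 1000)) 10 (by norm_num)
  have h3 : ((10 : ℕ) : ℝ) * (-(16 / 1000)) = -(16 / 100) := by norm_num
  rw [h3] at h2
  refine h2.trans ?_
  norm_num

theorem log_258 : Real.log (258 / 1000) ≤ -(134 / 100) := by
  apply log_le_of (by norm_num)
  have h1 : Real.exp (134 / 100) = Real.exp 1 * Real.exp (34 / 100) := by
    rw [← Real.exp_add]
    norm_num
  rw [h1]
  have h3 : Real.exp 1 * Real.exp (34 / 100) ≤ 2.7182818286 * 1.4133 :=
    mul_le_mul e_le exp_34 (Real.exp_pos _).le (by norm_num)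
  refine (mul_le_mul_of_nonneg_left h3 (by norm_num)).trans ?_
  norm_num

theorem exp_84 : Real.exp (84 / 100) ≤ 2.7182818286 * 0.8533 := by
  have h1 : Real.exp (84 / 100) = Real.exp 1 * Real.exp (-(16 / 100)) := by
    rw [← Real.exp_add]
    norm_num
  rw [h1]
  exact mul_le_mul e_le exp_16 (Real.exp_pos _).le (by norm_num)

theorem log_43 : Real.log (43 / 100) ≤ -(84 / 100) := by
  apply log_le_of (by norm_num)
  refine (mul_le_mul_of_nonneg_left exp_84 (by norm_num)).trans ?_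
  norm_num

theorem log_15781 : Real.log (15781 / 100000) ≤ -(184 / 100) := by
  apply log_le_of (by norm_num)
  have h1 : Real.exp (184 / 100) = Real.exp 1 * Real.exp (84 / 100) := by
    rw [← Real.exp_add]
    norm_num
  rw [h1]
  have h3 : Real.exp 1 * Real.exp (84 / 100) ≤ 2.7182818286 * (2.7182818286 * 0.8533) :=
    mul_le_mul e_le exp_84 (Real.exp_pos _).le (by norm_num)
  refine (mul_le_mul_of_nonneg_left h3 (by norm_num)).trans ?_
  norm_num

theorem Fh_lower {x c : ℝ} (hx : 0 < x) (h : Real.log x ≤ -c) : x * (1 + c) ≤ Fh x := by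
  rw [Fh]
  have := mul_le_mul_of_nonneg_left h hx.le
  linarith

/-- the minimum over an interval of `t` is at an endpoint -/
theorem conc {l t t0 t1 y c : ℝ} (hl : 23 / 20 ≤ l) (h0 : 0 ≤ t0) (h01 : t0 < t1) (ht0 : t0 ≤ t)
    (ht1 : t ≤ t1) (hy : 0 ≤ y)
    (hc0 : c ≤ 4 * Fh (t0 * y) + 4 * Fh y - 320 / 23 * t0 * y ^ 2)
    (hc1 : c ≤ 4 * Fh (t1 * y) + 4 * Fh y - 320 / 23 * t1 * y ^ 2) : c ≤ Vt l t y := by
  obtain ⟨s, hs⟩ : ∃ s, s = (t - t0) / (t1 - t0) := ⟨_, rfl⟩
  have hd : 0 < t1 - t0 := by linarith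
  have hs0 : 0 ≤ s := by
    rw [hs]
    exact div_nonneg (by linarith) hd.le
  have hs1 : s ≤ 1 := by
    rw [hs, div_le_one hd]
    linarith
  have hst : t = (1 - s) * t0 + s * t1 := by
    rw [hs]
    field_simp
    ring
  have h1 := Fh_concave (x := t0 * y) (y := t1 * y) (s := s) (mul_nonneg h0 hy)
    (mul_nonneg (h0.trans h01.le) hy) hs0 hs1
  have h2 : (1 - s) * (t0 * y) + s * (t1 * y) = t * y := by
    rw [hst]
    ring
  rw [h2] at h1
  have ht : 0 ≤ t := h0.trans ht0
  have h3 : 16 * t * y ^ 2 / l ≤ 320 / 23 * t * y ^ 2 := by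
    rw [div_le_iff₀ (by linarith)]
    have h4 : 0 ≤ t * y ^ 2 := by positivity
    nlinarith
  rw [Vt]
  have h5 := mul_le_mul_of_nonneg_left hc0 (sub_nonneg.2 hs1)
  have h6 := mul_le_mul_of_nonneg_left hc1 hs0
  have h7 : 320 / 23 * t * y ^ 2 = (1 - s) * (320 / 23 * t0 * y ^ 2) +
      s * (320 / 23 * t1 * y ^ 2) := by
    nth_rewrite 1 [hst]
    ring
  nlinarith

end TabAux

open TabAux

/-- MODULE RW18 (coverage near and below the crossing). For fixed `y` the function `t ↦ Vt l t y` is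
concave (`Fh_concave`), so its minimum over an interval is at an endpoint; it is nondecreasing in `l`.
`t ∈ [3/5, 1]`: `y = 36/100`; `t ∈ [exp(-1), 3/5]`: `y = 43/100`. Numerical values at the endpoints
(`l = 23/20`): `V(1, .36) = 4.02..`, `V(.6, .36) = 4.02..`, `V(.6, .43) = 4.05..`,
`V(1/e, .43) = 4.01..` (use `t0 = 367/1000` instead of `exp(-1)`). -/
theorem tabA {l t : ℝ} (hl : 23 / 20 ≤ l) (h1 : Real.exp (-1) ≤ t) (h2 : t ≤ 1) :
    ∃ y : ℝ, 3 / 10 ≤ y ∧ y ≤ 21 / 20 ∧ 4 + 1 / 1000 ≤ Vt l t y := by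
  have f36 := Fh_lower (by norm_num) log_36
  have f216 := Fh_lower (by norm_num) log_216
  have f258 := Fh_lower (by norm_num) log_258
  have f43 := Fh_lower (by norm_num) log_43
  have f157 := Fh_lower (by norm_num) log_15781
  rcases le_total (3 / 5) t with ht | ht
  · refine ⟨36 / 100, by norm_num, by norm_num, ?_⟩
    refine conc hl (t0 := 3 / 5) (t1 := 1) (by norm_num) (by norm_num) ht h2 (by norm_num) ?_ ?_
    · rw [show (3 / 5 : ℝ) * (36 / 100) = 216 / 1000 by norm_num]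
      linarith
    · rw [one_mul]
      linarith
  · refine ⟨43 / 100, by norm_num, by norm_num, ?_⟩
    have h3 : (367 / 1000 : ℝ) ≤ t := by
      refine le_trans ?_ h1
      rw [Real.exp_neg, ← one_div, le_div_iff₀ (Real.exp_pos 1)]
      have := e_le
      linarith
    refine conc hl (t0 := 367 / 1000) (t1 := 3 / 5) (by norm_num) (by norm_num) h3 ht
      (by norm_num) ?_ ?_
    · rw [show (367 / 1000 : ℝ) * (43 / 100) = 15781 / 100000 by norm_num]
      linarith
    · rw [show (3 / 5 : ℝ) * (43 / 100) = 258 / 1000 by norm_num]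
      linarith

end Pool.Agent.RieszWin
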