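import Pool.Agent.RieszWin.FhF

set_option autoImplicit false

open Real Finset

namespace Pool.Agent.RieszWin

namespace TabBAux

theorem log_bd {x : ℝ} (k n : ℕ) (hx : 0 < x) (h : |1 - 2 ^ k * x| < 1) :
    Real.log x ≤ -(k * Real.log 2) - (∑ i ∈ Finset.range n, (1 - 2 ^ k * x) ^ (i + 1) / (i + 1))
      + |1 - 2 ^ k * x| ^ (n + 1) / (1 - |1 - 2 ^ k * x|) := by
  have h1 := Real.abs_log_sub_add_sum_range_le h n
  have h2 := (abs_le.mp h1).2
  have h3 : Real.log (1 - (1 - 2 ^ k * x)) = k * Real.log 2 + Real.log x := by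
    rw [sub_sub_cancel, Real.log_mul (by positivity) hx.ne', Real.log_pow]
  rw [h3] at h2
  linarith

theorem conc {l t y t0 t1 c : ℝ} (h0 : 0 ≤ t0) (ht0 : t0 ≤ t) (ht1 : t ≤ t1) (hlt : t0 < t1)
    (hy : 0 ≤ y) (hl : 109 / 100 ≤ l) (hc0 : c ≤ Vt (109 / 100) t0 y)
    (hc1 : c ≤ Vt (109 / 100) t1 y) : c ≤ Vt l t y := by
  have hd : 0 < t1 - t0 := by linarith
  set s : ℝ := (t - t0) / (t1 - t0) with hs
  have hs0 : 0 ≤ s := div_nonneg (by linarith) hd.le
  have hs1 : s ≤ 1 := by rw [hs, div_le_one hd]; linarith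
  have hst : s * (t1 - t0) = t - t0 := by rw [hs]; field_simp
  have hF := Fh_concave (x := t0 * y) (y := t1 * y) (s := s) (by positivity)
    (mul_nonneg (by linarith) hy) hs0 hs1
  have e : (1 - s) * (t0 * y) + s * (t1 * y) = t * y := by
    have : (1 - s) * (t0 * y) + s * (t1 * y) = (t0 + s * (t1 - t0)) * y := by ring
    rw [this, hst]; ring
  rw [e] at hF
  have hl2 : 16 * t * y ^ 2 / l ≤ 16 * t * y ^ 2 / (109 / 100) := by
    apply div_le_div_of_nonneg_left _ (by norm_num) hl
    have : 0 ≤ t := by linarith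
    positivity
  have hlin : 16 * t * y ^ 2 / (109 / 100) =
      (1 - s) * (16 * t0 * y ^ 2 / (109 / 100)) + s * (16 * t1 * y ^ 2 / (109 / 100)) := by
    have : t = t0 + s * (t1 - t0) := by linarith
    rw [this]; ring
  unfold Vt at hc0 hc1 ⊢
  have h5 : c ≤ (1 - s) * (4 * Fh (t0 * y) + 4 * Fh y - 16 * t0 * y ^ 2 / (109 / 100)) +
      s * (4 * Fh (t1 * y) + 4 * Fh y - 16 * t1 * y ^ 2 / (109 / 100)) := by
    have h6 := mul_le_mul_of_nonneg_left hc0 (sub_nonneg.mpr hs1)
    have h7 := mul_le_mul_of_nonneg_left hc1 hs0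
    linarith
  linarith

theorem Fh_lb {x c : ℝ} (hx : 0 < x) (h : Real.log x ≤ c) : x - x * c ≤ Fh x := by
  unfold Fh
  have := mul_le_mul_of_nonneg_left h hx.le
  linarith

theorem l52 : Real.log (13 / 25) ≤ -653 / 1000 := by
  have h2 := Real.log_two_gt_d9
  have := log_bd (x := 13 / 25) 1 6 (by norm_num) (by rw [abs_lt]; constructor <;> norm_num)
  rw [show (1:ℝ) - 2 ^ 1 * (13 / 25) = -(1 / 25) by norm_num, abs_neg,
    abs_of_pos (by norm_num)] at this
  norm_num [Finset.sum_range_succ] at this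
  linarith

theorem l70 : Real.log (7 / 10) ≤ -3565 / 10000 := by
  have h2 := Real.log_two_gt_d9
  have := log_bd (x := 7 / 10) 0 9 (by norm_num) (by rw [abs_lt]; constructor <;> norm_num)
  rw [show (1:ℝ) - 2 ^ 0 * (7 / 10) = (3 / 10) by norm_num,
    abs_of_pos (by norm_num)] at this
  norm_num [Finset.sum_range_succ] at this
  linarith

theorem l88 : Real.log (22 / 25) ≤ -1277 / 10000 := by
  have h2 := Real.log_two_gt_d9
  have := log_bd (x := 22 / 25) 0 7 (by norm_num) (by rw [abs_lt]; constructor <;> norm_num)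
  rw [show (1:ℝ) - 2 ^ 0 * (22 / 25) = (3 / 25) by norm_num,
    abs_of_pos (by norm_num)] at this
  norm_num [Finset.sum_range_succ] at this
  linarith

theorem la : Real.log (20291 / 100000 * (13 / 25)) ≤ -2248 / 1000 := by
  have h2 := Real.log_two_gt_d9
  have := log_bd (x := 20291 / 100000 * (13 / 25)) 3 6 (by norm_num)
    (by rw [abs_lt]; constructor <;> norm_num)
  rw [abs_of_pos (by norm_num)] at this
  norm_num [Finset.sum_range_succ] at this
  linarith

theorem lb : Real.log (369 / 1000 * (13 / 25)) ≤ -1650 / 1000 := by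
  have h2 := Real.log_two_gt_d9
  have := log_bd (x := 369 / 1000 * (13 / 25)) 2 8 (by norm_num)
    (by rw [abs_lt]; constructor <;> norm_num)
  rw [abs_of_pos (by norm_num)] at this
  norm_num [Finset.sum_range_succ] at this
  linarith

theorem lc : Real.log (3424 / 100000 * (7 / 10)) ≤ -3730 / 1000 := by
  have h2 := Real.log_two_gt_d9
  have := log_bd (x := 3424 / 100000 * (7 / 10)) 5 8 (by norm_num)
    (by rw [abs_lt]; constructor <;> norm_num)
  rw [abs_of_pos (by norm_num)] at this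
  norm_num [Finset.sum_range_succ] at this
  linarith

theorem ld : Real.log (20291 / 100000 * (7 / 10)) ≤ -1951 / 1000 := by
  have h2 := Real.log_two_gt_d9
  have := log_bd (x := 20291 / 100000 * (7 / 10)) 3 8 (by norm_num)
    (by rw [abs_lt]; constructor <;> norm_num)
  rw [abs_of_neg (by norm_num)] at this
  norm_num [Finset.sum_range_succ] at this
  linarith

theorem le' : Real.log (3 / 1000 * (22 / 25)) ≤ -5930 / 1000 := by
  have h2 := Real.log_two_gt_d9
  have := log_bd (x := 3 / 1000 * (22 / 25)) 8 8 (by norm_num)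
    (by rw [abs_lt]; constructor <;> norm_num)
  rw [abs_of_pos (by norm_num)] at this
  norm_num [Finset.sum_range_succ] at this
  linarith

theorem lf : Real.log (3424 / 100000 * (22 / 25)) ≤ -3500 / 1000 := by
  have h2 := Real.log_two_gt_d9
  have := log_bd (x := 3424 / 100000 * (22 / 25)) 5 5 (by norm_num)
    (by rw [abs_lt]; constructor <;> norm_num)
  rw [abs_of_pos (by norm_num)] at this
  norm_num [Finset.sum_range_succ] at this
  linarith

theorem vt {t y a b : ℝ} (ht : 0 < t) (hy : 0 < y) (h1 : Real.log (t * y) ≤ a)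
    (h2 : Real.log y ≤ b)
    (h : 4 + 1 / 1000 ≤ 4 * (t * y - t * y * a) + 4 * (y - y * b) - 16 * t * y ^ 2 / (109 / 100)) :
    4 + 1 / 1000 ≤ Vt (109 / 100) t y := by
  have h3 := Fh_lb (mul_pos ht hy) h1
  have h4 := Fh_lb hy h2
  unfold Vt
  linarith

end TabBAux

open TabBAux

/-- MODULE RW19 (coverage, `t` small). For fixed `y` the function `t ↦ Vt l t y` is concave
(`Fh_concave`), so its minimum over an interval is at an endpoint; it is nondecreasing in `l`
(`l = 109/100` is the worst case).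
`t ∈ [0.20291, 0.369]`: `y = 52/100` (values `4.00599`, `4.0101`);
`t ∈ [0.03424, 0.20291]`: `y = 7/10` (values `4.00598`, `4.0162`);
`t ∈ [3/1000, 0.03424]`: `y = 88/100` (values `4.0091`, `4.123`). (`exp(-1) ≤ 0.369`.) -/
theorem tabB {l t : ℝ} (hl : 109 / 100 ≤ l) (h1 : 3 / 1000 ≤ t) (h2 : t ≤ Real.exp (-1)) :
    ∃ y : ℝ, 3 / 10 ≤ y ∧ y ≤ 21 / 20 ∧ 4 + 1 / 1000 ≤ Vt l t y := by
  have h3 : t ≤ 369 / 1000 := by
    have := Real.exp_neg_one_lt_d9
    linarith
  rcases le_or_gt (20291 / 100000) t with h4 | h4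
  · refine ⟨13 / 25, by norm_num, by norm_num, ?_⟩
    refine conc (t0 := 20291 / 100000) (t1 := 369 / 1000) (by norm_num) h4 h3 (by norm_num)
      (by norm_num) hl ?_ ?_
    · exact vt (by norm_num) (by norm_num) la l52 (by norm_num)
    · exact vt (by norm_num) (by norm_num) lb l52 (by norm_num)
  · rcases le_or_gt (3424 / 100000) t with h5 | h5
    · refine ⟨7 / 10, by norm_num, by norm_num, ?_⟩
      refine conc (t0 := 3424 / 100000) (t1 := 20291 / 100000) (by norm_num) h5 h4.le (by norm_num)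
        (by norm_num) hl ?_ ?_
      · exact vt (by norm_num) (by norm_num) lc l70 (by norm_num)
      · exact vt (by norm_num) (by norm_num) ld l70 (by norm_num)
    · refine ⟨22 / 25, by norm_num, by norm_num, ?_⟩
      refine conc (t0 := 3 / 1000) (t1 := 3424 / 100000) (by norm_num) h1 h5.le (by norm_num)
        (by norm_num) hl ?_ ?_
      · exact vt (by norm_num) (by norm_num) le' l88 (by norm_num)
      · exact vt (by norm_num) (by norm_num) lf l88 (by norm_num)

/-- `Vt l t 1 = 4 Fh t + 4 - 16 t / l`, `Fh t = t (1 - log t) ≥ t (1 + log 300) ≥ 6 t`. -/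
theorem tab1 {l t : ℝ} (hl : 21 / 20 ≤ l) (h1 : 0 ≤ t) (h2 : t ≤ 3 / 1000) :
    4 ≤ Vt l t 1 := by
  have hF1 : Fh 1 = 1 := by unfold Fh; simp
  have hl0 : 0 < l := by linarith
  have hdiv : 16 * t * 1 ^ 2 / l ≤ 16 * t := by
    rw [div_le_iff₀ hl0]
    nlinarith
  have hFt : 4 * t ≤ Fh t := by
    rcases h1.eq_or_lt with h | h
    · rw [← h, Fh_zero]; norm_num
    · have hlog : Real.log t ≤ -3 := by
        rw [Real.log_le_iff_le_exp h]
        have h3 : Real.exp 3 ≤ 21 := by
          have h4 : Real.exp 1 ≤ 2.72 := by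
            have := Real.exp_one_lt_d9; linarith
          calc Real.exp 3 = (Real.exp 1) ^ 3 := by rw [← Real.exp_nat_mul]; norm_num
            _ ≤ 2.72 ^ 3 := by gcongr
            _ ≤ 21 := by norm_num
        rw [Real.exp_neg]
        have h5 : (1:ℝ) / 21 ≤ (Real.exp 3)⁻¹ := by
          rw [one_div]
          exact inv_anti₀ (Real.exp_pos 3) h3
        linarith
      have := Fh_lb h hlog
      linarith
  unfold Vt
  rw [mul_one, hF1]
  linarith

end Pool.Agent.RieszWin
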