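import Pool.Agent.RieszWin.Facts

set_option autoImplicit false

open Real Finset

namespace Pool.Agent.RieszWin

open Pool.Agent.RieszSmall Pool.Agent.RieszLin Pool.Agent.RieszTr

section

variable {ι : Type*} [Fintype ι] [DecidableEq ι]

namespace RelFAux

theorem h0_pos (u : ℝ) : 0 < h0 u := Real.exp_pos _

theorem h0_lt_one {u : ℝ} (hu : 10 ≤ u) : h0 u < 1 := by
  have h4 : 0 < u ^ 4 := by positivity
  unfold h0
  rw [Real.exp_lt_one_iff]
  nlinarith

theorem exp_lt_one {u : ℝ} (hu : 10 ≤ u) : Real.exp (-(3 / 10) * u ^ 4) < 1 := by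
  have h4 : 0 < u ^ 4 := by positivity
  rw [Real.exp_lt_one_iff]
  nlinarith

end RelFAux

/-- MODULE RW10 (normalized relations). -/
theorem Rel.neg {a : ι → ℝ} (h : Rel a) : Rel (fun i => -a i) := by
  refine ⟨?_, ?_⟩
  · simp [Finset.sum_neg_distrib, h.sum]
  · simpa [abs_neg] using h.abs

/-- `∑ (|a| + a)/2 = 1` -/
theorem Rel.pos {a : ι → ℝ} (h : Rel a) : ∑ i ∈ univ.filter (fun i => 0 < a i), a i = 1 := by
  have h1 : ∑ i, (|a i| + a i) = 2 := by
    rw [Finset.sum_add_distrib, h.sum, h.abs]; norm_num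
  have h2 : ∀ i, |a i| + a i = 2 * (if 0 < a i then a i else 0) := by
    intro i
    by_cases hp : 0 < a i
    · rw [if_pos hp, abs_of_pos hp]; ring
    · rw [if_neg hp, abs_of_nonpos (not_lt.mp hp)]; ring
  rw [Finset.sum_filter]
  have h3 : 2 * ∑ i, (if 0 < a i then a i else 0) = ∑ i, (|a i| + a i) := by
    rw [Finset.mul_sum]
    exact Finset.sum_congr rfl (fun i _ => (h2 i).symm)
  linarith

theorem Rel.le_one {a : ι → ℝ} (h : Rel a) (i : ι) : |a i| ≤ 1 := by
  have key : ∀ b : ι → ℝ, Rel b → b i ≤ 1 := by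
    intro b hb
    by_cases hp : 0 < b i
    · have := Rel.pos hb
      rw [← this]
      exact Finset.single_le_sum (f := b) (s := univ.filter (fun i => 0 < b i))
        (fun j hj => (Finset.mem_filter.mp hj).2.le) (Finset.mem_filter.mpr ⟨mem_univ _, hp⟩)
    · linarith [not_lt.mp hp]
  rw [abs_le]
  have h1 := key a h
  have h2 := key _ h.neg
  constructor <;> linarith

theorem Rel.light {a : ι → ℝ} (h : Rel a) (u : ℝ) :
    ∑ i ∈ univ.filter (fun i => 0 < a i ∧ a i ≤ h0 u), a i = 1 - Pm u a := by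
  have hpos := h.pos
  unfold Pm HP
  rw [← hpos, Finset.sum_filter, Finset.sum_filter, Finset.sum_filter, ← Finset.sum_sub_distrib]
  refine Finset.sum_congr rfl (fun i _ => ?_)
  have h0p := RelFAux.h0_pos u
  by_cases h1 : 0 < a i
  · by_cases h2 : a i ≤ h0 u
    · rw [if_pos ⟨h1, h2⟩, if_pos h1, if_neg (not_lt.mpr h2)]; ring
    · rw [if_neg (fun hh => h2 hh.2), if_pos h1, if_pos (not_le.mp h2)]; ring
  · have h3 : ¬ h0 u < a i := by
      intro hh; exact h1 (lt_trans h0p hh)
    rw [if_neg (fun hh => h1 hh.1), if_neg h1, if_neg h3]; ring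

theorem Rel.Pm_le {a : ι → ℝ} (h : Rel a) (u : ℝ) : Pm u a ≤ 1 := by
  have h1 := h.light u
  have h2 : 0 ≤ ∑ i ∈ univ.filter (fun i => 0 < a i ∧ a i ≤ h0 u), a i :=
    Finset.sum_nonneg (fun i hi => (Finset.mem_filter.mp hi).2.1.le)
  linarith

theorem Pm_nonneg (u : ℝ) (a : ι → ℝ) : 0 ≤ Pm u a := by
  unfold Pm HP
  refine Finset.sum_nonneg (fun i hi => ?_)
  exact ((RelFAux.h0_pos u).trans (Finset.mem_filter.mp hi).2).le

theorem R3_nonneg (u : ℝ) (a : ι → ℝ) (i1 i2 : ι) : 0 ≤ R3 u a i1 i2 := by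
  unfold R3 HP
  refine Finset.sum_nonneg (fun i hi => ?_)
  exact ((RelFAux.h0_pos u).trans (Finset.mem_filter.mp (Finset.mem_filter.mp hi).1).2).le

/-- If there were only one positive weight it would be `1`, contradicting `NonDom`
(`2 - 1 ≤ exp(-0.3 u^4)`). Take the two largest positive weights. -/
theorem Rel.exists_top2 {u : ℝ} {a : ι → ℝ} (hu : 10 ≤ u) (h : Rel a) (hn : NonDom u a) :
    ∃ i1 i2, Top2 a i1 i2 := by
  classical
  have hpos := h.pos
  have hne : (univ : Finset ι).Nonempty := by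
    by_contra hc
    rw [Finset.not_nonempty_iff_eq_empty] at hc
    rw [hc] at hpos
    simp at hpos
  obtain ⟨i1, -, hi1⟩ := Finset.exists_max_image univ a hne
  have hex : ∃ j, j ≠ i1 ∧ 0 < a j := by
    by_contra hc
    push Not at hc
    have h1 : ∑ i ∈ univ.filter (fun i => 0 < a i), a i ≤ a i1 := by
      rw [Finset.sum_filter]
      have : ∑ i, (if 0 < a i then a i else 0) = (if 0 < a i1 then a i1 else 0) := by
        refine Finset.sum_eq_single i1 (fun j _ hj => ?_) (fun hj => absurd (mem_univ _) hj)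
        rw [if_neg (not_lt.mpr (hc j hj))]
      rw [this]
      by_cases hp : 0 < a i1
      · rw [if_pos hp]
      · exfalso
        rw [Finset.sum_filter, this, if_neg hp] at hpos
        norm_num at hpos
    have h2 : a i1 ≤ 1 := (le_abs_self _).trans (h.le_one i1)
    have h3 : a i1 = 1 := le_antisymm h2 (by rw [← hpos]; exact h1)
    have hmem : i1 ∈ HP u a := by
      unfold HP
      rw [Finset.mem_filter]
      exact ⟨mem_univ _, by rw [h3]; exact RelFAux.h0_lt_one hu⟩
    have h4 := hn i1 hmem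
    have h5 := h.Pm_le u
    have h6 := RelFAux.exp_lt_one hu
    rw [h3] at h4
    linarith
  obtain ⟨j, hj, hjp⟩ := hex
  obtain ⟨i2, hi2m, hi2⟩ := Finset.exists_max_image (univ.erase i1) a ⟨j, by simp [hj]⟩
  refine ⟨i1, i2, ?_, ?_, ?_, ?_⟩
  · intro he
    rw [← he] at hi2m
    simp at hi2m
  · exact lt_of_lt_of_le hjp (hi2 j (by simp [hj]))
  · exact hi1 i2 (mem_univ _)
  · intro z hz1 _
    exact hi2 z (by simp [hz1])

/-- heavy weight of the side through the two largest: if `i1, i2` are heavy then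
`Pm = a i1 + a i2 + R3`; in general `Pm ≤ a i1 + a i2 + R3`. -/
theorem Pm_eq_R3 {u : ℝ} {a : ι → ℝ} {i1 i2 : ι} (ht : Top2 a i1 i2) (h2 : h0 u < a i2) :
    Pm u a = a i1 + a i2 + R3 u a i1 i2 := by
  classical
  have hm2 : i2 ∈ HP u a := by
    unfold HP; rw [Finset.mem_filter]; exact ⟨mem_univ _, h2⟩
  have hm1 : i1 ∈ HP u a := by
    unfold HP; rw [Finset.mem_filter]; exact ⟨mem_univ _, lt_of_lt_of_le h2 ht.le⟩
  have he : (HP u a).filter (fun z => z ≠ i1 ∧ z ≠ i2) = ((HP u a).erase i1).erase i2 := by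
    ext z
    simp only [Finset.mem_filter, Finset.mem_erase]
    tauto
  unfold Pm R3
  rw [he]
  have hm2' : i2 ∈ (HP u a).erase i1 := Finset.mem_erase.mpr ⟨ht.ne.symm, hm2⟩
  have e1 := Finset.add_sum_erase (HP u a) a hm1
  have e2 := Finset.add_sum_erase ((HP u a).erase i1) a hm2'
  linarith

/-- if `i2` is light then at most `i1` is heavy, so `R3 = 0` and `Pm ≤ a i1`; with `NonDom` then
`Pm ≤ exp(-0.3 u^4)`. -/
theorem Pm_small {u : ℝ} {a : ι → ℝ} {i1 i2 : ι} (hn : NonDom u a) (ht : Top2 a i1 i2)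
    (h2 : a i2 ≤ h0 u) : R3 u a i1 i2 = 0 ∧ Pm u a ≤ Real.exp (-(3 / 10) * u ^ 4) := by
  classical
  have hlight : ∀ z, z ≠ i1 → a z ≤ h0 u := by
    intro z hz
    by_cases hz2 : z = i2
    · rw [hz2]; exact h2
    · exact (ht.top z hz hz2).trans h2
  constructor
  · unfold R3
    have : (HP u a).filter (fun z => z ≠ i1 ∧ z ≠ i2) = ∅ := by
      rw [Finset.filter_eq_empty_iff]
      intro z hz hcon
      unfold HP at hz
      rw [Finset.mem_filter] at hz
      exact absurd hz.2 (not_lt.mpr (hlight z hcon.1))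
    rw [this, Finset.sum_empty]
  · by_cases hm1 : i1 ∈ HP u a
    · have hP : HP u a = {i1} := by
        ext z
        rw [Finset.mem_singleton]
        constructor
        · intro hz
          by_contra hne
          unfold HP at hz
          rw [Finset.mem_filter] at hz
          exact absurd hz.2 (not_lt.mpr (hlight z hne))
        · intro hz; rw [hz]; exact hm1
      have hPm : Pm u a = a i1 := by
        unfold Pm; rw [hP, Finset.sum_singleton]
      have := hn i1 hm1
      rw [hPm] at this ⊢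
      linarith
    · have hP : HP u a = ∅ := by
        rw [Finset.eq_empty_iff_forall_notMem]
        intro z hz
        by_cases hz1 : z = i1
        · exact hm1 (hz1 ▸ hz)
        · unfold HP at hz
          rw [Finset.mem_filter] at hz
          exact absurd hz.2 (not_lt.mpr (hlight z hz1))
      have hPm : Pm u a = 0 := by
        unfold Pm; rw [hP, Finset.sum_empty]
      rw [hPm]
      exact (Real.exp_pos _).le

/-- `LB` does not change under `α ↦ -α` -/
theorem LB_neg (q : ℝ) (b α : ι → ℝ) : LB q b (fun i => -α i) = LB q b α := by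
  unfold LB
  simp only [neg_mul_neg, neg_sq]

end

end Pool.Agent.RieszWin
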