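import Pool.Agent.RieszWin.YLB
import Pool.Agent.RieszWin.Angle
import Pool.Agent.RieszWin.RelF

set_option autoImplicit false

open Real Finset

namespace Pool.Agent.RieszWin

open Pool.Agent.RieszSmall Pool.Agent.RieszLin Pool.Agent.RieszTr

section

variable {ι : Type*} [Fintype ι] [DecidableEq ι]

namespace YSetAux

open FactsAux

theorem h0_pos (u : ℝ) : 0 < h0 u := Real.exp_pos _

omit [DecidableEq ι] in
theorem mem_HP {u : ℝ} {a : ι → ℝ} {i : ι} : i ∈ HP u a ↔ h0 u < a i := by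
  simp [HP]

theorem exp_small {U c : ℝ} (hU : (10 : ℝ) ^ 80 ≤ U) (hc : (1 : ℝ) / 1000 ≤ c) :
    Real.exp (-(c * U)) ≤ 1 / 10 ^ 6 := by
  have h1 : (10 : ℝ) ^ 10 ≤ U := (pow_le_pow_right₀ (by norm_num) (by norm_num)).trans hU
  have h2 := Real.add_one_le_exp (c * U)
  have h3 : (10 : ℝ) ^ 6 ≤ Real.exp (c * U) := by
    have : (1 : ℝ) / 1000 * U ≤ c * U := mul_le_mul_of_nonneg_right hc (by
      have : (0:ℝ) < 10 ^ 10 := by positivity
      linarith)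
    have h4 : (10 : ℝ) ^ 6 ≤ 1 / 1000 * 10 ^ 10 := by norm_num
    linarith
  rw [Real.exp_neg, ← one_div]
  exact one_div_le_one_div_of_le (by positivity) h3

/-- the alternative on one side -/
theorem alt {Y T κ R rr R3' e g' ε0 X Sg E1 : ℝ} (hY : 0 < Y) (hR : 0 < R) (hT : 0 < T)
    (hrr : rr = R * Real.exp g') (he : 0 ≤ e) (hε : 0 ≤ ε0)
    (hnd : 2 * rr * e ≤ R3' + ε0) (hr1 : 1 / 600 ≤ rr) (hE : 600 * ε0 ≤ E1)
    (hX : κ * (T / (Y * R)) * R3' ≤ X) (hS : Sg = T / (Y * R) * R3') (hk : 0 < κ)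
    (hκ : Y ^ 2 * (1 - 1 / 10 ^ 6) ≤ κ * T) :
    (e ≤ E1 ∧ Y * Real.exp g' * Sg ≤ 9 / 10 * e * (Real.exp (2 * g') * T)) ∨
      4 / 5 * (e * (Y * Real.exp g')) ≤ X := by
  have hg0 := Real.exp_pos g'
  have h2g : Real.exp (2 * g') = Real.exp g' * Real.exp g' := by
    rw [← Real.exp_add]
    congr 1
    ring
  by_cases hc : R3' ≤ 9 / 10 * e * rr
  · left
    constructor
    · have h1 : 11 / 10 * (rr * e) ≤ ε0 := by linarith
      have h2 : 1 / 600 * e ≤ rr * e := mul_le_mul_of_nonneg_right hr1 he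
      linarith
    · rw [hS]
      have h1 : Y * Real.exp g' * (T / (Y * R) * R3') = T * Real.exp g' / R * R3' := by
        field_simp
      rw [h1]
      have h2 : T * Real.exp g' / R * R3' ≤ T * Real.exp g' / R * (9 / 10 * e * rr) :=
        mul_le_mul_of_nonneg_left hc (by positivity)
      refine h2.trans (le_of_eq ?_)
      rw [hrr, h2g]
      field_simp
  · right
    push Not at hc
    refine le_trans ?_ hX
    have h1 : κ * (T / (Y * R)) * (9 / 10 * e * rr) ≤ κ * (T / (Y * R)) * R3' :=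
      mul_le_mul_of_nonneg_left hc.le (by positivity)
    refine le_trans ?_ h1
    have h2 : κ * (T / (Y * R)) * (9 / 10 * e * rr) = 9 / 10 * e * Real.exp g' * (κ * T / Y) := by
      rw [hrr]
      field_simp
    rw [h2]
    have h3 : Y * (1 - 1 / 10 ^ 6) ≤ κ * T / Y := by
      rw [le_div_iff₀ hY]
      calc Y * (1 - 1 / 10 ^ 6) * Y = Y ^ 2 * (1 - 1 / 10 ^ 6) := by ring
        _ ≤ κ * T := hκ
    have h4 : 9 / 10 * e * Real.exp g' * (Y * (1 - 1 / 10 ^ 6)) ≤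
        9 / 10 * e * Real.exp g' * (κ * T / Y) :=
      mul_le_mul_of_nonneg_left h3 (by positivity)
    refine le_trans ?_ h4
    have h5 : 0 ≤ e * (Y * Real.exp g') := by positivity
    have h6 : 9 / 10 * e * Real.exp g' * (Y * (1 - 1 / 10 ^ 6)) =
        (9 / 10 * (1 - 1 / 10 ^ 6)) * (e * (Y * Real.exp g')) := by ring
    rw [h6]
    exact mul_le_mul_of_nonneg_right (by norm_num) h5

/-- the upper bound of `XX` on one side -/
theorem xx_up {Y T κ R rr R3' g' w X δ : ℝ} (hY : 0 < Y) (hR : 0 < R) (hT : 0 < T)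
    (hk : 0 < κ) (hw : 0 < w) (hrr : rr = R * Real.exp g') (hR3 : R3' ≤ rr / (10 * w))
    (hδ : δ ≤ 1 / 10 ^ 6) (hδ0 : 0 ≤ δ)
    (hX : X ≤ κ * (T / (Y * R)) * (1 + δ) * R3') (hκ : κ * T ≤ Y ^ 2) :
    X ≤ Y * Real.exp g' / (9 * w) := by
  have hg0 := Real.exp_pos g'
  refine hX.trans ?_
  have h1 : κ * (T / (Y * R)) * (1 + δ) * R3' ≤ κ * (T / (Y * R)) * (1 + δ) * (rr / (10 * w)) :=
    mul_le_mul_of_nonneg_left hR3 (by positivity)
  refine h1.trans ?_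
  have h2 : κ * (T / (Y * R)) * (1 + δ) * (rr / (10 * w)) =
      (κ * T / Y) * ((1 + δ) * Real.exp g' / (10 * w)) := by
    rw [hrr]
    field_simp
  rw [h2]
  have h3 : κ * T / Y ≤ Y := by
    rw [div_le_iff₀ hY]
    linarith [sq Y]
  have h4 : (1 + δ) * Real.exp g' / (10 * w) ≤ Real.exp g' / (9 * w) := by
    rw [div_le_div_iff₀ (by positivity) (by positivity)]
    have h5 : (1 + δ) * 9 ≤ 10 := by
      have : (1:ℝ) / 10 ^ 6 ≤ 1 / 100 := by norm_num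
      linarith
    have h6 : 0 ≤ Real.exp g' * w := by positivity
    calc (1 + δ) * Real.exp g' * (9 * w) = (1 + δ) * 9 * (Real.exp g' * w) := by ring
      _ ≤ 10 * (Real.exp g' * w) := mul_le_mul_of_nonneg_right h5 h6
      _ = Real.exp g' * (10 * w) := by ring
  calc (κ * T / Y) * ((1 + δ) * Real.exp g' / (10 * w))
      ≤ Y * (Real.exp g' / (9 * w)) := mul_le_mul h3 h4 (by positivity) hY.le
    _ = Y * Real.exp g' / (9 * w) := by ring

/-- the scalar facts of one side: `P' = x1 + x2 + R3'`, `x1 ≥ x2` -/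
theorem one_side {w P' x1 x2 R3' ε0 : ℝ} (hw : 28 / 25 ≤ w) (hP : P' = x1 + x2 + R3')
    (h12 : x2 ≤ x1) (hR0 : 0 ≤ R3') (hR : (20 * w + 1) * R3' ≤ P') (hnd : 2 * x1 - P' ≤ ε0)
    (hP1 : 36 / 10000 ≤ P') (hε : ε0 ≤ 1 / 10 ^ 6) (hε0 : 0 ≤ ε0) (hP2 : P' ≤ 1) :
    1 / 600 ≤ (x1 + x2) / 2 ∧ (x1 + x2) / 2 ≤ 1 / 2 ∧ R3' ≤ (x1 + x2) / 2 / (10 * w) ∧
      20 * w / (20 * w + 1) * P' ≤ x1 + x2 ∧ x1 + x2 ≤ P' ∧
      0 ≤ (x1 - x2) / (2 * ((x1 + x2) / 2)) ∧ (x1 - x2) / (2 * ((x1 + x2) / 2)) ≤ 1 / 20 ∧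
      2 * ((x1 + x2) / 2) * ((x1 - x2) / (2 * ((x1 + x2) / 2))) ≤ R3' + ε0 := by
  have hw0 : 0 < w := by linarith
  have h1 : 20 * w * R3' ≤ x1 + x2 := by linarith
  have h2 : 20 * w / (20 * w + 1) * P' ≤ x1 + x2 := by
    rw [div_mul_eq_mul_div, div_le_iff₀ (by linarith)]
    have h3 : (x1 + x2) * (20 * w + 1) = 20 * w * P' + (x1 + x2 - 20 * w * R3') := by
      rw [hP]
      ring
    linarith
  have h3 : (22 : ℝ) / 23 ≤ 20 * w / (20 * w + 1) := by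
    rw [div_le_div_iff₀ (by norm_num) (by linarith)]
    linarith
  have h4 : 22 / 23 * P' ≤ x1 + x2 :=
    (mul_le_mul_of_nonneg_right h3 (by linarith)).trans h2
  have h5 : 1 / 300 ≤ x1 + x2 := by linarith
  have h6 : 0 < x1 + x2 := by linarith
  have h7 : 2 * ((x1 + x2) / 2) = x1 + x2 := by ring
  have h8 : R3' ≤ (x1 + x2) / 2 / (10 * w) := by
    rw [le_div_iff₀ (by linarith)]
    linarith
  have h9 : (x1 + x2) * ((x1 - x2) / (x1 + x2)) = x1 - x2 := by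
    field_simp
  rw [h7]
  refine ⟨by linarith, by linarith, h8, h2, by linarith, ?_, ?_, ?_⟩
  · exact div_nonneg (by linarith) h6.le
  · rw [div_le_iff₀ h6]
    have h10 : R3' ≤ (x1 + x2) * (5 / 112) := by
      have h11 : 112 / 5 * R3' ≤ 20 * w * R3' := mul_le_mul_of_nonneg_right (by linarith) hR0
      linarith
    have h12' : (1:ℝ) / 10 ^ 6 ≤ 1 / 300 * (1 / 20 - 5 / 112) := by norm_num
    have h13' : 1 / 300 * (1 / 20 - 5 / 112) ≤ (x1 + x2) * (1 / 20 - 5 / 112) :=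
      mul_le_mul_of_nonneg_right h5 (by norm_num)
    linarith only [h10, h12', h13', hnd, hε, hP]
  · rw [h9]
    linarith

end YSetAux

open YSetAux

/-- MODULE RW49 (from the relation to the angles, near the square; compare `XSet.lean`, which is
proved). `T = (A - ko)/2`, `ρ = (a p1 + a p2)/2`, `e' = (a p1 - a p2)/(2ρ)`,
`ρ' = (-a q1 - a q2)/2`, `e = (a q2 - a q1)/(2ρ')`, `g = log (ρ'/ρ)/2`, `R = √(ρ ρ')`
(so `ρ' = R e^g`, `ρ = R e^(-g)`), `τ = T/(Y R)`, `θ = arsinh (τ a)`.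
* `Pm(-a) ≥ 1/100`, `Pm a ≥ exp(-1)/100`, so `p2`, `q2` are heavy (`Pm_small`), and
  `Pm a = a p1 + a p2 + R3`, `Pm(-a) = ...` (`Pm_eq_R3`). From `(20w+1) R3 ≤ Pm`: `20 w R3 ≤ 2 ρ`,
  `R3 ≤ ρ/(10 w)` on both sides; `2ρ, 2ρ' ≥ 1/300`.
* `|2 g| ≤ -log t + log (1 + 1/(20 w)) ≤ 1/(2w) + 1/(20w)`.
* `e`, `e'`: `2 ρ e' = a p1 - a p2 ≤ R3 + exp(-0.3 u^4)` (`NonDom` at `p1`), so
  `e' ≤ 1/(20 w) + tiny ≤ 1/20`.
* `κ τ = (κ T/Y)/R`, `κ T/Y = Y (1 - tiny)` (`Apx.T_bds`), `σ = κ τ ∈ [Y, 700 Y]`: `tau_range`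
  (`Apx.mkap`, `w ≤ u/10^9`), `part_angle` with `Z = Rest p1 p2 q1 q2`, `|Z| = m - 2`.
* `SS Z = τ ∑_Z a = τ (2 ρ' - 2 ρ) = 4 (T/Y) sinh g`.
* `XX_arsinh`: `κ τ R3 ≤ XX ≤ κ τ (1 + tiny) R3` on both sides (the heavy positive indices of `Z` are
  those of `HP u a` different from `p1`, `p2`), and `κ τ ρ = (κ T/Y) e^(-g)`, `κ τ ρ' = (κ T/Y) e^g`.
* The alternatives: if `R3(-a) ≤ (9/10) e ρ'` then `2 ρ' e ≤ (9/10) e ρ' + exp(-0.3u^4)` gives
  `e ≤ exp(-u^4/10)` and `Y e^g ∑_Q (-sinh θ) = Y e^g τ R3 = T e^(2g) R3/ρ'`; otherwise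
  `XX Q ≥ κ τ R3 ≥ (9/10) e (κ T/Y) e^g ≥ (4/5) e Y e^g`. -/
theorem Y_setup {u q m κ Y A w : ℝ} (h : Apx u q m κ Y A w)
    (hc : (Fintype.card ι : ℝ) = m + 2)
    {a : ι → ℝ} (ha : Rel a) (hn : NonDom u a) (hn' : NonDom u (fun i => -a i)) {p1 p2 q1 q2 : ι}
    (hp : Top2 a p1 p2) (hq : Top2 (fun i => -a i) q1 q2) {t : ℝ}
    (ht : Pm u a = t * Pm u (fun i => -a i)) (ht0 : Real.exp (-1) ≤ t) (ht1 : t ≤ 1)
    (hQ : 1 / 100 ≤ Pm u (fun i => -a i)) (hl : -Real.log t ≤ 1 / (2 * w))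
    (hR : (20 * w + 1) * R3 u a p1 p2 ≤ Pm u a)
    (hR' : (20 * w + 1) * R3 u (fun i => -a i) q1 q2 ≤ Pm u (fun i => -a i)) :
    ∃ (R e e' g T : ℝ) (L P Q : Finset ι), p1 ≠ q1 ∧ p1 ≠ q2 ∧ p2 ≠ q1 ∧ p2 ≠ q2 ∧
      YZ u q m κ Y A w g T (Rest p1 p2 q1 q2) L P Q (fun z => Real.arsinh (T / (Y * R) * a z)) ∧
      0 < R ∧ a q1 = -(R * Real.exp g * (1 + e)) ∧ a q2 = -(R * Real.exp g * (1 - e)) ∧
      a p1 = R * Real.exp (-g) * (1 + e') ∧ a p2 = R * Real.exp (-g) * (1 - e') ∧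
      0 ≤ e ∧ e ≤ 1 / 20 ∧ 0 ≤ e' ∧ e' ≤ 1 / 20 ∧
      ((e ≤ Real.exp (-(u ^ 4 / 10)) ∧
          Y * Real.exp g * ∑ z ∈ Q, (-Real.sinh (Real.arsinh (T / (Y * R) * a z)))
            ≤ 9 / 10 * e * (Real.exp (2 * g) * T)) ∨
        4 / 5 * (e * (Y * Real.exp g))
          ≤ XX κ Q (fun z => Real.arsinh (T / (Y * R) * a z))) ∧
      ((e' ≤ Real.exp (-(u ^ 4 / 10)) ∧
          Y * Real.exp (-g) * ∑ z ∈ P, Real.sinh (Real.arsinh (T / (Y * R) * a z))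
            ≤ 9 / 10 * e' * (Real.exp (2 * -g) * T)) ∨
        4 / 5 * (e' * (Y * Real.exp (-g)))
          ≤ XX κ P (fun z => Real.arsinh (T / (Y * R) * a z))) := by
  obtain ⟨hu0, hm0, hq0, hk0, hk1⟩ := h.win.pos
  obtain ⟨hY0, hY1, hYe, hwu, hlY, hYu⟩ := h.basic
  obtain ⟨hK1, hK2⟩ := h.mkap
  have hw1 := h.wlo
  have hw0 : 0 < w := by linarith
  have hu1 : (10 : ℝ) ^ 200 ≤ u := h.win.hu
  have hu2 : (1000000 : ℝ) ≤ u := le_trans (by norm_num) hu1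
  have hU80 := FactsAux.U_ge h.win
  have hU0 : 0 < u ^ 4 := by positivity
  obtain ⟨ε0, hε0d⟩ : ∃ x : ℝ, x = Real.exp (-(3 / 10) * u ^ 4) := ⟨_, rfl⟩
  have hε0 : 0 ≤ ε0 := by rw [hε0d]; exact (Real.exp_pos _).le
  have hε1 : ε0 ≤ 1 / 10 ^ 6 := by
    rw [hε0d, neg_mul]
    exact exp_small hU80 (by norm_num)
  have hδ : Real.exp (-(u ^ 4 / 100)) ≤ 1 / 10 ^ 6 := by
    have := exp_small hU80 (show (1:ℝ) / 1000 ≤ 1 / 100 by norm_num)
    rwa [one_div_mul_eq_div] at this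
  have hE : 600 * ε0 ≤ Real.exp (-(u ^ 4 / 10)) := by
    have e1 : ε0 = Real.exp (-(u ^ 4 / 10)) * Real.exp (-(1 / 5 * u ^ 4)) := by
      rw [hε0d, ← Real.exp_add]
      congr 1
      ring
    have e2 := exp_small hU80 (show (1:ℝ) / 1000 ≤ 1 / 5 by norm_num)
    have e3 := Real.exp_pos (-(u ^ 4 / 10))
    rw [e1]
    have e4 : Real.exp (-(u ^ 4 / 10)) * Real.exp (-(1 / 5 * u ^ 4)) ≤
        Real.exp (-(u ^ 4 / 10)) * (1 / 10 ^ 6) := mul_le_mul_of_nonneg_left e2 e3.le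
    have e5 : (600:ℝ) * (1 / 10 ^ 6) ≤ 1 := by norm_num
    calc 600 * (Real.exp (-(u ^ 4 / 10)) * Real.exp (-(1 / 5 * u ^ 4)))
        ≤ 600 * (Real.exp (-(u ^ 4 / 10)) * (1 / 10 ^ 6)) := by linarith
      _ = (600 * (1 / 10 ^ 6)) * Real.exp (-(u ^ 4 / 10)) := by ring
      _ ≤ 1 * Real.exp (-(u ^ 4 / 10)) := mul_le_mul_of_nonneg_right e5 e3.le
      _ = Real.exp (-(u ^ 4 / 10)) := one_mul _
  -- the two sides
  have hQ1 : Pm u (fun i => -a i) ≤ 1 := ha.neg.Pm_le u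
  have hP1 : Pm u a ≤ 1 := ha.Pm_le u
  have he1 : (0.3678794411 : ℝ) < Real.exp (-1) := by
    have := Real.exp_neg_one_gt_d9
    linarith
  have htp : 0 < t := lt_of_lt_of_le (Real.exp_pos _) ht0
  have hPlo : 36 / 10000 ≤ Pm u a := by
    rw [ht]
    have e1 : Real.exp (-1) * (1 / 100) ≤ t * Pm u (fun i => -a i) :=
      mul_le_mul ht0 hQ (by norm_num) htp.le
    linarith
  have hq2 : h0 u < -a q2 := by
    by_contra hcon
    push Not at hcon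
    have e1 := (Pm_small hn' hq hcon).2
    rw [← hε0d] at e1
    have e2 : (1:ℝ) / 10 ^ 6 < 1 / 100 := by norm_num
    linarith
  have hp2 : h0 u < a p2 := by
    by_contra hcon
    push Not at hcon
    have e1 := (Pm_small hn hp hcon).2
    rw [← hε0d] at e1
    have e2 : (1:ℝ) / 10 ^ 6 < 36 / 10000 := by norm_num
    linarith
  have hq12 : -a q2 ≤ -a q1 := hq.le
  have hp12 : a p2 ≤ a p1 := hp.le
  have hq1 : h0 u < -a q1 := hq2.trans_le hq12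
  have hp1 : h0 u < a p1 := hp2.trans_le hp12
  have hh0 := h0_pos u
  have n11 : p1 ≠ q1 := by rintro rfl; linarith
  have n12 : p1 ≠ q2 := by rintro rfl; linarith
  have n21 : p2 ≠ q1 := by rintro rfl; linarith
  have n22 : p2 ≠ q2 := by rintro rfl; linarith
  have hPe : Pm u a = a p1 + a p2 + R3 u a p1 p2 := Pm_eq_R3 hp hp2
  have hQe : Pm u (fun i => -a i) = -a q1 + -a q2 + R3 u (fun i => -a i) q1 q2 := Pm_eq_R3 hq hq2
  have hndp : 2 * a p1 - Pm u a ≤ ε0 := by rw [hε0d]; exact hn p1 (mem_HP.2 hp1)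
  have hndq : 2 * (-a q1) - Pm u (fun i => -a i) ≤ ε0 := by
    rw [hε0d]; exact hn' q1 (mem_HP.2 hq1)
  have hR0p := R3_nonneg u a p1 p2
  have hR0q := R3_nonneg u (fun i => -a i) q1 q2
  obtain ⟨a1, a2, a3, a4, a5, a6, a7, a8⟩ := one_side hw1 hPe hp12 hR0p hR hndp hPlo hε1 hε0 hP1
  obtain ⟨b1, b2, b3, b4, b5, b6, b7, b8⟩ :=
    one_side hw1 hQe hq12 hR0q hR' hndq (by linarith) hε1 hε0 hQ1
  obtain ⟨R3p, hR3p⟩ : ∃ x : ℝ, x = R3 u a p1 p2 := ⟨_, rfl⟩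
  obtain ⟨R3q, hR3q⟩ : ∃ x : ℝ, x = R3 u (fun i => -a i) q1 q2 := ⟨_, rfl⟩
  obtain ⟨rp, hrp⟩ : ∃ x : ℝ, x = (a p1 + a p2) / 2 := ⟨_, rfl⟩
  obtain ⟨rq, hrq⟩ : ∃ x : ℝ, x = (-a q1 + -a q2) / 2 := ⟨_, rfl⟩
  rw [← hrp] at a1 a2 a3 a6 a7 a8
  rw [← hrq] at b1 b2 b3 b6 b7 b8
  rw [← hR3p] at a3 a8 hR0p
  rw [← hR3q] at b3 b8 hR0q
  obtain ⟨e', he'⟩ : ∃ x : ℝ, x = (a p1 - a p2) / (2 * rp) := ⟨_, rfl⟩
  obtain ⟨e, he⟩ : ∃ x : ℝ, x = (-a q1 - -a q2) / (2 * rq) := ⟨_, rfl⟩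
  rw [← he'] at a6 a7 a8
  rw [← he] at b6 b7 b8
  have hrp0 : 0 < rp := by linarith
  have hrq0 : 0 < rq := by linarith
  -- `g` and `R`
  obtain ⟨g, hg⟩ : ∃ x : ℝ, x = (Real.log rq - Real.log rp) / 2 := ⟨_, rfl⟩
  obtain ⟨R, hRd⟩ : ∃ x : ℝ, x = Real.exp ((Real.log rq + Real.log rp) / 2) := ⟨_, rfl⟩
  have hR0 : 0 < R := by rw [hRd]; exact Real.exp_pos _
  have hRq : rq = R * Real.exp g := by
    rw [hRd, hg, ← Real.exp_add]
    have : (Real.log rq + Real.log rp) / 2 + (Real.log rq - Real.log rp) / 2 = Real.log rq := by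
      ring
    rw [this, Real.exp_log hrq0]
  have hRp : rp = R * Real.exp (-g) := by
    rw [hRd, hg, ← Real.exp_add]
    have : (Real.log rq + Real.log rp) / 2 + -((Real.log rq - Real.log rp) / 2) = Real.log rp := by
      ring
    rw [this, Real.exp_log hrp0]
  have hR2 : R ^ 2 = rq * rp := by
    have e1 : Real.exp g * Real.exp (-g) = 1 := by
      rw [← Real.exp_add, add_neg_cancel, Real.exp_zero]
    calc R ^ 2 = R * R * (Real.exp g * Real.exp (-g)) := by rw [e1]; ring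
      _ = (R * Real.exp g) * (R * Real.exp (-g)) := by ring
      _ = rq * rp := by rw [← hRq, ← hRp]
  have hRlo : 1 / 600 ≤ R := by
    by_contra hcon
    push Not at hcon
    have e1 : R ^ 2 < (1 / 600) ^ 2 := pow_lt_pow_left₀ hcon hR0.le (by norm_num)
    have e2 : (1 / 600 : ℝ) * (1 / 600) ≤ rq * rp := mul_le_mul b1 a1 (by norm_num) hrq0.le
    rw [hR2] at e1
    linarith
  have hRhi : R ≤ 1 / 2 := by
    by_contra hcon
    push Not at hcon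
    have e1 : (1 / 2 : ℝ) ^ 2 < R ^ 2 := pow_lt_pow_left₀ hcon (by norm_num) (by norm_num)
    have e2 : rq * rp ≤ (1 / 2 : ℝ) * (1 / 2) := mul_le_mul b2 a2 hrp0.le (by norm_num)
    rw [hR2] at e1
    linarith
  have hgb : |g| ≤ 1 / (2 * w) := by
    have c1 : 1 + 1 / (20 * w) = (20 * w + 1) / (20 * w) := by field_simp
    have c2 : Real.log (1 + 1 / (20 * w)) ≤ 1 / (20 * w) := by
      have := Real.log_le_sub_one_of_pos (show 0 < 1 + 1 / (20 * w) by positivity)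
      linarith
    have c0 : Real.log (20 * w / (20 * w + 1)) = -Real.log (1 + 1 / (20 * w)) := by
      rw [c1, ← Real.log_inv, inv_div]
    have hQp : 0 < Pm u (fun i => -a i) := by linarith
    have hPp : 0 < Pm u a := by linarith
    have hfr : 0 < 20 * w / (20 * w + 1) := by positivity
    have lP : Real.log (Pm u a) = Real.log t + Real.log (Pm u (fun i => -a i)) := by
      conv_lhs => rw [ht]
      exact Real.log_mul htp.ne' hQp.ne'
    have lt0 : Real.log t ≤ 0 := Real.log_nonpos htp.le ht1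
    have l1 : Real.log (2 * rq) ≤ Real.log (Pm u (fun i => -a i)) :=
      Real.log_le_log (by linarith) (by rw [hrq]; linarith)
    have l2 : Real.log (2 * rp) ≤ Real.log (Pm u a) :=
      Real.log_le_log (by linarith) (by rw [hrp]; linarith)
    have l3 : Real.log (20 * w / (20 * w + 1)) + Real.log (Pm u a) ≤ Real.log (2 * rp) := by
      rw [← Real.log_mul hfr.ne' hPp.ne']
      exact Real.log_le_log (by positivity) (by rw [hrp]; linarith)
    have l4 : Real.log (20 * w / (20 * w + 1)) + Real.log (Pm u (fun i => -a i)) ≤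
        Real.log (2 * rq) := by
      rw [← Real.log_mul hfr.ne' hQp.ne']
      exact Real.log_le_log (by positivity) (by rw [hrq]; linarith)
    rw [Real.log_mul (by norm_num) hrq0.ne'] at l1 l4
    rw [Real.log_mul (by norm_num) hrp0.ne'] at l2 l3
    rw [c0] at l3 l4
    have c3 : 1 / (20 * w) = 1 / 10 * (1 / (2 * w)) := by field_simp; norm_num
    have c4 : 0 < 1 / (2 * w) := by positivity
    rw [hg, abs_le]
    constructor
    · linarith only [c2, c3, c4, l1, l2, l3, l4, lP, lt0, hl]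
    · linarith only [c2, c3, c4, l1, l2, l3, l4, lP, lt0, hl]
  -- `T` and `τ`
  obtain ⟨T, hT⟩ : ∃ x : ℝ, x = (A - (2 : ℝ) ^ (-(q + 1)) * A) / 2 := ⟨_, rfl⟩
  obtain ⟨t1, t2, t3, t4, t5⟩ := h.T_bds hT
  have hT0 : 0 < T := lt_of_lt_of_le (Real.exp_pos _) t3
  have hκT : Y ^ 2 * (1 - 1 / 10 ^ 6) ≤ κ * T := by
    refine le_trans ?_ t2
    apply mul_le_mul_of_nonneg_left _ (sq_nonneg Y)
    have := exp_small hU80 (show (1:ℝ) / 1000 ≤ 50 by norm_num)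
    linarith
  obtain ⟨τ, hτ⟩ : ∃ x : ℝ, x = T / (Y * R) := ⟨_, rfl⟩
  obtain ⟨σ, hσ⟩ : ∃ x : ℝ, x = κ * T / Y / R := ⟨_, rfl⟩
  have hστ : σ / κ = τ := by
    rw [hσ, hτ]
    field_simp
  have hκτ : κ * τ = σ := by
    rw [hσ, hτ]
    field_simp
  have hσ1 : Y ≤ σ := by
    rw [hσ, le_div_iff₀ hR0, le_div_iff₀ hY0]
    have e1 : Y * R * Y ≤ Y ^ 2 * (1 / 2) := by
      calc Y * R * Y = Y ^ 2 * R := by ring
        _ ≤ Y ^ 2 * (1 / 2) := mul_le_mul_of_nonneg_left hRhi (sq_nonneg Y)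
    have e2 : Y ^ 2 * (1 / 2) ≤ Y ^ 2 * (1 - 1 / 10 ^ 6) :=
      mul_le_mul_of_nonneg_left (by norm_num) (sq_nonneg Y)
    linarith
  have hσ2 : σ ≤ 600 * Y := by
    rw [hσ, div_le_iff₀ hR0, div_le_iff₀ hY0]
    have e1 : Y ^ 2 ≤ 600 * Y * R * Y := by
      have e2 : 600 * Y * R * Y = 600 * R * Y ^ 2 := by ring
      rw [e2]
      have e3 : 1 ≤ 600 * R := by linarith
      calc Y ^ 2 = 1 * Y ^ 2 := (one_mul _).symm
        _ ≤ 600 * R * Y ^ 2 := mul_le_mul_of_nonneg_right e3 (sq_nonneg Y)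
    linarith
  have hmk : 0 < m * κ := mul_pos hm0 hk0
  have hUY : 0 < u ^ 4 * Y := mul_pos hU0 hY0
  have r1 : m * κ ≤ σ * u ^ 5 := by
    have e1 : m * κ ≤ w * (m * κ) := le_mul_of_one_le_left hmk.le (by linarith)
    have e2 : Y * u ^ 5 ≤ σ * u ^ 5 := mul_le_mul_of_nonneg_right hσ1 (by positivity)
    have e3 : Y * u ^ 5 = u * (u ^ 4 * Y) := by ring
    have e4 : 41 / 10 * (u ^ 4 * Y) ≤ u * (u ^ 4 * Y) :=
      mul_le_mul_of_nonneg_right (by linarith only [hu2]) hUY.le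
    linarith only [e1, e2, e3, e4, hK2]
  have r2 : 3 * σ * u ^ 3 ≤ m * κ := by
    have e1 : w * (m * κ) ≤ u / 10 ^ 9 * (m * κ) := mul_le_mul_of_nonneg_right hwu hmk.le
    have e2 : 39 / 10 * (u ^ 4 * Y) ≤ u / 10 ^ 9 * (m * κ) := hK1.trans e1
    have e3 : u * (39 / 10 * (u ^ 3 * Y)) ≤ u * (1 / 10 ^ 9 * (m * κ)) := by
      calc u * (39 / 10 * (u ^ 3 * Y)) = 39 / 10 * (u ^ 4 * Y) := by ring
        _ ≤ u / 10 ^ 9 * (m * κ) := e2
        _ = u * (1 / 10 ^ 9 * (m * κ)) := by ring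
    have e4 := le_of_mul_le_mul_left e3 hu0
    have e5 : 0 < u ^ 3 * Y := by positivity
    have e6 : 3 * σ * u ^ 3 ≤ 1800 * (u ^ 3 * Y) := by
      calc 3 * σ * u ^ 3 ≤ 3 * (600 * Y) * u ^ 3 := by gcongr
        _ = 1800 * (u ^ 3 * Y) := by ring
    linarith only [e4, e5, e6]
  obtain ⟨hσ0, hτ1, hτ2⟩ := tau_range h.win r1 r2
  rw [hστ] at hτ1 hτ2
  -- the sets
  set Z : Finset ι := Rest p1 p2 q1 q2 with hZ
  have hpart := part_angle hu1 hτ1 hτ2 a Z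
  set L : Finset ι := Z.filter (fun z => |a z| ≤ h0 u) with hLs
  set P : Finset ι := Z.filter (fun z => h0 u < a z) with hPs
  set Q : Finset ι := Z.filter (fun z => h0 u < -a z) with hQs
  have hcard : (Z.card : ℝ) = m - 2 := by
    have e1 := sum_four hp.ne hq.ne n11 n12 n21 n22 (fun _ : ι => (1 : ℝ))
    simp only [Finset.sum_const, nsmul_eq_mul, mul_one, Finset.card_univ] at e1
    rw [hc] at e1
    linarith
  have hsumZ : ∑ z ∈ Z, a z = 2 * rq - 2 * rp := by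
    have e1 := sum_four hp.ne hq.ne n11 n12 n21 n22 a
    rw [ha.sum] at e1
    rw [hrp, hrq]
    linarith
  have hSS : SS Z (fun z => Real.arsinh (τ * a z)) = 4 * (T / Y) * Real.sinh g := by
    have e1 : SS Z (fun z => Real.arsinh (τ * a z)) = τ * ∑ z ∈ Z, a z := by
      unfold SS
      rw [Finset.mul_sum]
      exact Finset.sum_congr rfl fun z _ => Real.sinh_arsinh _
    rw [e1, hsumZ, Real.sinh_eq, hRq, hRp, hτ]
    field_simp
    ring
  have hPeq : ∑ z ∈ P, a z = R3p := by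
    rw [hR3p]
    unfold R3
    have e1 : P = (HP u a).filter (fun z => z ≠ p1 ∧ z ≠ p2) := by
      ext z
      rw [hPs, hZ, mem_filter, mem_filter, mem_HP, Rest, mem_filter]
      simp only [mem_univ, true_and]
      constructor
      · rintro ⟨⟨x1, x2, x3, x4⟩, x5⟩
        exact ⟨x5, x1, x2⟩
      · rintro ⟨x5, x1, x2⟩
        refine ⟨⟨x1, x2, ?_, ?_⟩, x5⟩
        · rintro rfl
          linarith
        · rintro rfl
          linarith
    rw [e1]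
  have hQeq : ∑ z ∈ Q, -a z = R3q := by
    rw [hR3q]
    unfold R3
    have e1 : Q = (HP u (fun i => -a i)).filter (fun z => z ≠ q1 ∧ z ≠ q2) := by
      ext z
      rw [hQs, hZ, mem_filter, mem_filter, mem_HP, Rest, mem_filter]
      simp only [mem_univ, true_and]
      constructor
      · rintro ⟨⟨x1, x2, x3, x4⟩, x5⟩
        exact ⟨x5, x3, x4⟩
      · rintro ⟨x5, x3, x4⟩
        refine ⟨⟨?_, ?_, x3, x4⟩, x5⟩
        · rintro rfl
          linarith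
        · rintro rfl
          linarith
    rw [e1]
  have hPabs : ∑ z ∈ P, |a z| = R3p := by
    rw [← hPeq]
    refine Finset.sum_congr rfl fun z hz => ?_
    exact abs_of_pos (hh0.trans (mem_filter.1 hz).2)
  have hQabs : ∑ z ∈ Q, |a z| = R3q := by
    rw [← hQeq]
    refine Finset.sum_congr rfl fun z hz => ?_
    rw [← abs_neg]
    exact abs_of_pos (hh0.trans (mem_filter.1 hz).2)
  have hXP := XX_arsinh hu1 hk0 hτ1 a P (fun z hz =>
    lt_of_lt_of_le (mem_filter.1 hz).2 (le_abs_self _))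
  have hXQ := XX_arsinh hu1 hk0 hτ1 a Q (fun z hz =>
    lt_of_lt_of_le (mem_filter.1 hz).2 (neg_le_abs _))
  rw [hPabs] at hXP
  rw [hQabs] at hXQ
  rw [hτ] at hXP hXQ hSS hpart
  have hSP : ∑ z ∈ P, Real.sinh (Real.arsinh (T / (Y * R) * a z)) = T / (Y * R) * R3p := by
    rw [← hPeq, Finset.mul_sum]
    exact Finset.sum_congr rfl fun z _ => Real.sinh_arsinh _
  have hSQ : ∑ z ∈ Q, (-Real.sinh (Real.arsinh (T / (Y * R) * a z))) = T / (Y * R) * R3q := by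
    rw [← hQeq, Finset.mul_sum]
    refine Finset.sum_congr rfl fun z _ => ?_
    rw [Real.sinh_arsinh]
    ring
  have hXP2 := xx_up hY0 hR0 hT0 hk0 hw0 hRp a3 hδ (Real.exp_pos _).le hXP.2 t1
  have hXQ2 := xx_up hY0 hR0 hT0 hk0 hw0 hRq b3 hδ (Real.exp_pos _).le hXQ.2 t1
  refine ⟨R, e, e', g, T, L, P, Q, n11, n12, n21, n22,
    ⟨h, hT, hgb, hpart, hcard, hSS, hXP2, hXQ2⟩, hR0, ?_, ?_, ?_, ?_, b6, b7, a6, a7, ?_, ?_⟩
  · rw [← hRq, he]
    have e1 : rq * (1 + (-a q1 - -a q2) / (2 * rq)) = rq + (-a q1 - -a q2) / 2 := by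
      field_simp
    rw [e1, hrq]
    ring
  · rw [← hRq, he]
    have e1 : rq * (1 - (-a q1 - -a q2) / (2 * rq)) = rq - (-a q1 - -a q2) / 2 := by
      field_simp
    rw [e1, hrq]
    ring
  · rw [← hRp, he']
    have e1 : rp * (1 + (a p1 - a p2) / (2 * rp)) = rp + (a p1 - a p2) / 2 := by
      field_simp
    rw [e1, hrp]
    ring
  · rw [← hRp, he']
    have e1 : rp * (1 - (a p1 - a p2) / (2 * rp)) = rp - (a p1 - a p2) / 2 := by
      field_simp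
    rw [e1, hrp]
    ring
  · exact alt hY0 hR0 hT0 hRq b6 hε0 b8 b1 hE hXQ.1 hSQ hk0 hκT
  · exact alt hY0 hR0 hT0 hRp a6 hε0 a8 a1 hE hXP.1 hSP hk0 hκT

end

end Pool.Agent.RieszWin
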