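import Pool.Agent.RieszWin.YCase
import Pool.Agent.RieszWin.YSet

set_option autoImplicit false

open Real Finset

namespace Pool.Agent.RieszWin

open Pool.Agent.RieszSmall Pool.Agent.RieszLin Pool.Agent.RieszTr

section

variable {ι : Type*} [Fintype ι] [DecidableEq ι]

namespace YMainAux

omit [Fintype ι] [DecidableEq ι] in
theorem XX_nonneg {κ : ℝ} (hk : 0 < κ) (S : Finset ι) (θ : ι → ℝ) : 0 ≤ XX κ S θ := by
  unfold XX xi
  exact Finset.sum_nonneg fun z _ => by positivity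

omit [Fintype ι] in
theorem XX_eq_zero {κ : ℝ} (hk : 0 < κ) {S : Finset ι} {θ : ι → ℝ} (h : XX κ S θ = 0) :
    S = ∅ := by
  rw [Finset.eq_empty_iff_forall_notMem]
  intro z hz
  have h1 := xi_le_XX (θ := θ) hk hz
  have h2 : 0 < xi κ (θ z) := by
    unfold xi
    positivity
  linarith

/-- the exceptional case -/
theorem exc {u q m κ Y A w g T R e e' : ℝ} {L P Q : Finset ι} {a θ : ι → ℝ} {p1 p2 q1 q2 : ι}
    (hY : YZ u q m κ Y A w g T (Rest p1 p2 q1 q2) L P Q θ) (ha : Rel a)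
    (hp : p1 ≠ p2) (hq : q1 ≠ q2) (h11 : p1 ≠ q1) (h12 : p1 ≠ q2) (h21 : p2 ≠ q1)
    (h22 : p2 ≠ q2) (hT : 0 < T) (hR : 0 < R)
    (hθ : ∀ z, θ z = Real.arsinh (T / (Y * R) * a z))
    (haq1 : a q1 = -(R * Real.exp g * (1 + e))) (haq2 : a q2 = -(R * Real.exp g * (1 - e)))
    (hap1 : a p1 = R * Real.exp (-g) * (1 + e')) (hap2 : a p2 = R * Real.exp (-g) * (1 - e'))
    (he : e = 0) (he' : e' = 0) (hP : XX κ P θ = 0) (hQ : XX κ Q θ = 0)
    (hL : ∑ z ∈ L, (Real.cosh (g + θ z) - 1) = 0) : SqT a := by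
  obtain ⟨hu0, hm0, hq0, hk0, -⟩ := hY.apx.win.pos
  have hYpos := hY.apx.sqr.hY
  have hP0 := XX_eq_zero hk0 hP
  have hQ0 := XX_eq_zero hk0 hQ
  have hLZ : L = Rest p1 p2 q1 q2 := by
    have h1 := hY.part.hZ
    rw [hP0, hQ0, Finset.union_empty, Finset.union_empty] at h1
    exact h1
  have hθg : ∀ z ∈ Rest p1 p2 q1 q2, θ z = -g := by
    intro z hz
    rw [← hLZ] at hz
    have h1 := (Finset.sum_eq_zero_iff_of_nonneg (fun z _ => by
      have := Real.one_le_cosh (g + θ z)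
      linarith)).mp hL z hz
    have h2 : Real.cosh (g + θ z) = 1 := by linarith
    have h3 : g + θ z = 0 := by
      by_contra hne
      have := Real.one_lt_cosh.mpr hne
      linarith
    linarith
  have hm2 : 2 < m := by
    have h1 := hY.apx.A_bds.2.2.2.2
    have h2 := hY.apx.win.hm
    have h3 := hY.apx.win.hu
    have h4 : (10 : ℝ) ≤ u := le_trans (by norm_num) h3
    have h5 : (10 : ℝ) ^ 4 ≤ u ^ 4 := pow_le_pow_left₀ (by norm_num) h4 4
    have h6 := Real.add_one_le_exp (u ^ 4)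
    rw [h2]
    norm_num at h5
    linarith
  have hsum := hY.sum
  have hSS : SS (Rest p1 p2 q1 q2) θ = (m - 2) * Real.sinh (-g) := by
    unfold SS
    rw [Finset.sum_congr rfl (fun z hz => by rw [hθg z hz]), Finset.sum_const, nsmul_eq_mul,
      hY.card]
  rw [hSS, Real.sinh_neg] at hsum
  have hg : g = 0 := by
    have h1 : 0 < 4 * (T / Y) := by positivity
    have h2 : ((m - 2) + 4 * (T / Y)) * Real.sinh g = 0 := by linarith
    rcases mul_eq_zero.mp h2 with h3 | h3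
    · linarith
    · exact Real.sinh_eq_zero.mp h3
  have haz : ∀ z ∈ Rest p1 p2 q1 q2, a z = 0 := by
    intro z hz
    have h1 := hθg z hz
    rw [hg, neg_zero, hθ z, Real.arsinh_eq_zero_iff] at h1
    rcases mul_eq_zero.mp h1 with h2 | h2
    · have h3 : 0 < T / (Y * R) := by positivity
      linarith
    · exact h2
  subst he he' hg
  rw [Real.exp_zero, mul_one, add_zero, mul_one] at haq1
  rw [Real.exp_zero, mul_one, sub_zero, mul_one] at haq2
  rw [neg_zero, Real.exp_zero, mul_one, add_zero, mul_one] at hap1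
  rw [neg_zero, Real.exp_zero, mul_one, sub_zero, mul_one] at hap2
  have habs := ha.abs
  rw [sum_four hp hq h11 h12 h21 h22 (fun z => |a z|)] at habs
  have h0 : ∑ z ∈ Rest p1 p2 q1 q2, |a z| = 0 :=
    Finset.sum_eq_zero fun z hz => by rw [haz z hz, abs_zero]
  rw [h0, hap1, hap2, haq1, haq2, abs_neg, abs_of_pos hR] at habs
  have hR2 : R = 1 / 2 := by linarith
  refine ⟨p1, p2, q1, q2, hp, hq, h11, h12, h21, h22, ?_, ?_, ?_, ?_, ?_⟩
  · rw [hap1, hR2]
  · rw [hap2, hR2]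
  · rw [haq1, hR2]
  · rw [haq2, hR2]
  · intro z g1 g2 g3 g4
    exact haz z (Finset.mem_filter.mpr ⟨Finset.mem_univ z, g1, g2, g3, g4⟩)

end YMainAux

open YMainAux

/-- MODULE RW50 (near the square). `Y_setup`, `YZ.total` with `η = 2 ko/(A - ko)`
(`Y² = κ (1+η) T`, `η ≤ 4 · 2^(-p)`), `YLB` with `B2 = (A+ko)/2` (`Y² = κ B2` is `Sqr.e1`), `s = √T/R`,
`α = s a`: `α q1 = -√T e^g (1+e)`, ..., `α z = (Y/√T) sinh θ z` (`sinh θ z = T/(Y R) a z`), and `b`
as in `YLB` (defined by cases on the index). So `Esq ≤ LB`, with strict inequality unless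
`e = e' = 0`, `XX P = XX Q = 0` (so `P = Q = ∅`, `L = Z`) and `∑_Z (cosh (g + θ) - 1) = 0`, i.e.
`θ z = -g` on `Z`; then `YZ.sum`: `-(m-2) sinh g = 4 (T/Y) sinh g`, so `g = 0`, `θ = 0`, `a z = 0` on
`Z`; `∑ |a| = 2` gives `R = 1/2`: this is `SqT a`. -/
theorem Y_main {u q m κ Y A w : ℝ} (h : Apx u q m κ Y A w)
    (hc : (Fintype.card ι : ℝ) = m + 2)
    {a : ι → ℝ} (ha : Rel a) (hn : NonDom u a) (hn' : NonDom u (fun i => -a i)) {p1 p2 q1 q2 : ι}
    (hp : Top2 a p1 p2) (hq : Top2 (fun i => -a i) q1 q2) {t : ℝ}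
    (ht : Pm u a = t * Pm u (fun i => -a i)) (ht0 : Real.exp (-1) ≤ t) (ht1 : t ≤ 1)
    (hQ : 1 / 100 ≤ Pm u (fun i => -a i)) (hl : -Real.log t ≤ 1 / (2 * w))
    (hR : (20 * w + 1) * R3 u a p1 p2 ≤ Pm u a)
    (hR' : (20 * w + 1) * R3 u (fun i => -a i) q1 q2 ≤ Pm u (fun i => -a i)) :
    (∃ (b : ι → ℝ) (s : ℝ), Esq q m κ Y A < LB q b (fun i => s * a i)) ∨ SqT a := by
  obtain ⟨R, e, e', g, T, L, P, Q, h11, h12, h21, h22, hYZ, hR0, haq1, haq2, hap1, hap2, he0,
    he1, he0', he1', hcQ, hcP⟩ := Y_setup h hc ha hn hn' hp hq ht ht0 ht1 hQ hl hR hR'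
  obtain ⟨hu0, hm0, hq0, hk0, -⟩ := h.win.pos
  have hY := h.sqr.hY
  have hA := h.sqr.hA
  have hpne := hp.ne
  have hqne := hq.ne
  set θ : ι → ℝ := fun z => Real.arsinh (T / (Y * R) * a z) with hθ
  set ε : ℝ := (2 : ℝ) ^ (-(q + 1)) with hε
  have hε0 : 0 < ε := Real.rpow_pos_of_pos (by norm_num) _
  have hε1 : ε ≤ 1 / 2 := by
    have h1 : (2 : ℝ) ^ (-(q + 1)) ≤ (2 : ℝ) ^ (-1 : ℝ) :=
      Real.rpow_le_rpow_of_exponent_le (by norm_num) (by linarith)
    rw [Real.rpow_neg_one] at h1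
    rw [hε]
    linarith
  have hTd : T = (A - ε * A) / 2 := hYZ.hT
  have hT1 : A - ε * A = A * (1 - ε) := by ring
  have hT2 : 0 < A - ε * A := by
    rw [hT1]
    exact mul_pos hA (by linarith)
  have hT : 0 < T := by
    rw [hTd]
    linarith
  -- the parameter `η`
  set η : ℝ := 2 * (ε * A) / (A - ε * A) with hηd
  have hη0 : 0 ≤ η := by
    rw [hηd]
    positivity
  have hη1 : η ≤ 4 * ε := by
    rw [hηd, div_le_iff₀ hT2, hT1]
    have h1 : 0 ≤ ε * A := by positivity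
    nlinarith
  have he1s := h.sqr.e1
  rw [← hε] at he1s
  have hB : Y ^ 2 = κ * ((A + ε * A) / 2) := by linarith
  have hηeq : Y ^ 2 = κ * (1 + η) * T := by
    have h1 : (1 + η) * T = (A + ε * A) / 2 := by
      have h2 : η * (A - ε * A) = 2 * (ε * A) := by rw [hηd, div_mul_cancel₀ _ hT2.ne']
      rw [hTd]
      linear_combination (1 / 2) * h2
    rw [mul_assoc, h1, hB]
  obtain ⟨χ, χ', htot⟩ := hYZ.total hη0 hη1 he0 he1 he0' he1' hcQ hcP
  rw [← hε] at htot
  -- the certificate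
  have hsT : √T * √T = T := Real.mul_self_sqrt hT.le
  have hsT0 : 0 < √T := Real.sqrt_pos.mpr hT
  let b : ι → ℝ := fun z =>
    if z = q1 then Y / √κ * Real.exp g * (1 + χ * e)
    else if z = q2 then Y / √κ * Real.exp g * (1 - χ * e)
    else if z = p1 then Y / √κ * Real.exp (-g) * (1 + χ' * e')
    else if z = p2 then Y / √κ * Real.exp (-g) * (1 - χ' * e')
    else √κ * Real.cosh (θ z)
  have hbq1 : b q1 = Y / √κ * Real.exp g * (1 + χ * e) := by simp [b]
  have hbq2 : b q2 = Y / √κ * Real.exp g * (1 - χ * e) := by simp [b, hqne.symm]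
  have hbp1 : b p1 = Y / √κ * Real.exp (-g) * (1 + χ' * e') := by simp [b, h11, h12]
  have hbp2 : b p2 = Y / √κ * Real.exp (-g) * (1 - χ' * e') := by
    simp [b, h21, h22, hpne.symm]
  have hbz : ∀ z ∈ Rest p1 p2 q1 q2, b z = √κ * Real.cosh (θ z) := by
    intro z hz
    obtain ⟨-, g1, g2, g3, g4⟩ := Finset.mem_filter.mp hz
    simp [b, g1, g2, g3, g4]
  have hLB := YLB (q := q) hk0 hY hT hB hηeq hpne hqne h11 h12 h21 h22
    (b := b) (α := fun i => √T / R * a i) (θ := θ) (g := g) (e := e) (e' := e') (χ := χ)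
    (χ' := χ') hbq1 hbq2
    (by
      show √T / R * a q1 = _
      rw [haq1]
      field_simp)
    (by
      show √T / R * a q2 = _
      rw [haq2]
      field_simp)
    hbp1 hbp2
    (by
      show √T / R * a p1 = _
      rw [hap1]
      field_simp)
    (by
      show √T / R * a p2 = _
      rw [hap2]
      field_simp)
    hbz
    (by
      intro z _
      show √T / R * a z = Y / √T * Real.sinh (Real.arsinh (T / (Y * R) * a z))
      rw [Real.sinh_arsinh]
      have h1 : T / (Y * R) = √T * √T / (Y * R) := by rw [hsT]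
      rw [h1]
      field_simp)
  rw [← hLB] at htot
  -- the nonnegative terms
  have n1 : 0 ≤ 1 / 2 * u ^ 4 * (κ * GG L θ) := by
    have := GG_nonneg L θ
    positivity
  have hw1 : 0 < w - 1 := by
    have := h.wlo
    linarith
  have hS0 : 0 ≤ ∑ z ∈ L, (Real.cosh (g + θ z) - 1) :=
    Finset.sum_nonneg fun z _ => by
      have := Real.one_le_cosh (g + θ z)
      linarith
  have n2 : 0 ≤ 2 * (w - 1) * Y * ∑ z ∈ L, (Real.cosh (g + θ z) - 1) := by positivity
  have hXP := XX_nonneg hk0 P θ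
  have hXQ := XX_nonneg hk0 Q θ
  have n3 : 0 ≤ 2 * m * (XX κ P θ + XX κ Q θ) := by positivity
  have n4 : 0 ≤ e ^ 2 / 10 := by positivity
  have n5 : 0 ≤ e' ^ 2 / 10 := by positivity
  by_cases hlt : Esq q m κ Y A < LB q b (fun i => √T / R * a i)
  · exact Or.inl ⟨b, √T / R, hlt⟩
  · right
    push Not at hlt
    have z2 : 2 * (w - 1) * Y * ∑ z ∈ L, (Real.cosh (g + θ z) - 1) = 0 := by linarith
    have z3 : 2 * m * (XX κ P θ + XX κ Q θ) = 0 := by linarith
    have z4 : e ^ 2 = 0 := by linarith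
    have z5 : e' ^ 2 = 0 := by linarith
    have hw2 : 2 * (w - 1) * Y ≠ 0 := by positivity
    have hm2 : 2 * m ≠ 0 := by positivity
    have z3' : XX κ P θ + XX κ Q θ = 0 := by
      rcases mul_eq_zero.mp z3 with hz | hz
      · exact absurd hz hm2
      · exact hz
    have z2' : ∑ z ∈ L, (Real.cosh (g + θ z) - 1) = 0 := by
      rcases mul_eq_zero.mp z2 with hz | hz
      · exact absurd hz hw2
      · exact hz
    exact exc hYZ ha hpne hqne h11 h12 h21 h22 hT hR0 (fun z => rfl) haq1 haq2 hap1 hap2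
      (pow_eq_zero_iff (two_ne_zero)|>.mp z4) (pow_eq_zero_iff (two_ne_zero)|>.mp z5)
      (by linarith) (by linarith) z2'

end

end Pool.Agent.RieszWin
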