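import Pool.Agent.RieszWin.XMain
import Pool.Agent.RieszWin.YMain
import Pool.Agent.RieszWin.BlkFar
import Pool.Agent.RieszWin.BlkC
import Pool.Agent.RieszWin.Dom
import Pool.Agent.RieszWin.Tab
import Pool.Agent.RieszWin.TabB
import Pool.Agent.RieszWin.SqNear

set_option autoImplicit false

open Real Finset

namespace Pool.Agent.RieszWin

open Pool.Agent.RieszSmall Pool.Agent.RieszLin Pool.Agent.RieszTr

section

variable {ι : Type*} [Fintype ι] [DecidableEq ι]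

namespace SidesAux

omit [Fintype ι] [DecidableEq ι] in
theorem neg_neg_fun (a : ι → ℝ) : (fun i => -(fun j => -a j) i) = a := by
  funext i
  simp

theorem neg_ex {X q : ℝ} {a : ι → ℝ}
    (h : ∃ (b : ι → ℝ) (s : ℝ), X < LB q b (fun i => s * (fun j => -a j) i)) :
    ∃ (b : ι → ℝ) (s : ℝ), X < LB q b (fun i => s * a i) := by
  obtain ⟨b, s, h⟩ := h
  refine ⟨b, s, ?_⟩
  have e : (fun i => s * (fun j => -a j) i) = fun i => -(s * a i) := by
    funext i
    simp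
  rw [e, LB_neg] at h
  exact h

theorem u10 {u q m κ : ℝ} (h : Win u q m κ) : (10 : ℝ) ≤ u := le_trans (by norm_num) h.hu

/-- a dominating weight -/
theorem dom' {u q m κ X : ℝ} (h : Win u q m κ) (hc : (Fintype.card ι : ℝ) = m + 2) {a : ι → ℝ}
    (ha : Rel a) (hX : X < Real.exp (6 / 5 * u ^ 4))
    (hn : ¬ (NonDom u a ∧ NonDom u (fun i => -a i))) :
    ∃ (b : ι → ℝ) (s : ℝ), X < LB q b (fun i => s * a i) := by
  by_cases h1 : NonDom u a
  · have h2 : ¬ NonDom u (fun i => -a i) := fun h2 => hn ⟨h1, h2⟩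
    obtain ⟨b, s, hb⟩ := dom h hc ha.neg h2
    exact neg_ex ⟨b, s, lt_of_lt_of_le hX hb⟩
  · obtain ⟨b, s, hb⟩ := dom h hc ha h1
    exact ⟨b, s, lt_of_lt_of_le hX hb⟩

/-- both sides spread out -/
theorem spr {u q m : ℝ} (h : Win u q m (K0 q m)) (hl : 21 / 20 ≤ lam m (K0 q m))
    (hc : (Fintype.card ι : ℝ) = m + 2) {a : ι → ℝ} (ha : Rel a)
    (hP : Pm u a ≤ 1 / 100) (hQ : Pm u (fun i => -a i) ≤ 3 / 5) :
    ∃ (b : ι → ℝ) (s : ℝ), TT q m < LB q b (fun i => s * a i) := by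
  have hel := h.el_bds.1
  have hU := FactsAux.U_pos h
  have hel0 : 0 < el (K0 q m) := lt_of_lt_of_le (by positivity) hel
  have hk : u ^ 4 ≤ m * K0 q m := by
    rw [lam, le_div_iff₀ hel0] at hl
    nlinarith
  obtain ⟨b, s, hb⟩ := spread2 h hk hc ha hP hQ
  refine ⟨b, s, lt_of_lt_of_le ?_ hb⟩
  have hm := FactsAux.m_big h
  have hm1 : (10 : ℝ) ^ 3 ≤ m := le_trans (by norm_num) hm
  have hm0 := FactsAux.m_pos h
  have hU1 := FactsAux.U_ge h
  have hU2 : (1 : ℝ) ≤ u ^ 4 := le_trans (by norm_num) hU1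
  have hq : 1 ≤ q := by
    have h3 := h.plo
    have h4 : (10 : ℝ) ^ 3 * 1 ≤ m * u ^ 4 := mul_le_mul hm1 hU2 (by norm_num) hm0.le
    norm_num at h4
    linarith
  have hT := T_up (q := q) (m := m) hq (le_trans (by norm_num) hm1)
  norm_num at hm1
  linarith

/-- `blk_far` with a table value -/
theorem far {u q m : ℝ} (h : Win u q m (K0 q m)) (hl : 21 / 20 ≤ lam m (K0 q m))
    (hc : (Fintype.card ι : ℝ) = m + 2) {a : ι → ℝ} (ha : Rel a) (hn : NonDom u a)
    (hn' : NonDom u (fun i => -a i)) {t : ℝ} (ht : Pm u a = t * Pm u (fun i => -a i))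
    (ht0 : 0 ≤ t) (ht1 : t ≤ 1) (hQ : 1 / 100 ≤ Pm u (fun i => -a i))
    (hy : ∃ y : ℝ, 3 / 10 ≤ y ∧ y ≤ 21 / 20 ∧ 4 + 1 / 1000 ≤ Vt (lam m (K0 q m)) t y) :
    ∃ (b : ι → ℝ) (s : ℝ), TT q m < LB q b (fun i => s * a i) := by
  obtain ⟨y, hy1, hy2, hy3⟩ := hy
  obtain ⟨p1, p2, hp⟩ := ha.exists_top2 (u10 h) hn
  obtain ⟨q1, q2, hq⟩ := ha.neg.exists_top2 (u10 h) hn'
  refine blk_far h hc ha hn hn' hp hq ht ht0 ht1 hQ hy1 hy2 hl ?_
  have h1 := R3_nonneg u (fun i => -a i) q1 q2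
  have h2 : 0 ≤ 8 / 5 * (y / Pm u (fun i => -a i)) * R3 u (fun i => -a i) q1 q2 := by
    have h3 : 0 ≤ y / Pm u (fun i => -a i) := div_nonneg (by linarith) (by linarith)
    positivity
  linarith

end SidesAux

open SidesAux

/-- MODULE RW51 (all relations). `SqT` is symmetric. -/
theorem SqT_neg {a : ι → ℝ} (h : SqT (fun i => -a i)) : SqT a := by
  obtain ⟨p1, p2, q1, q2, h1, h2, h3, h4, h5, h6, e1, e2, e3, e4, h7⟩ := h
  simp only at e1 e2 e3 e4
  refine ⟨q1, q2, p1, p2, h2, h1, h3.symm, h5.symm, h4.symm, h6.symm, by linarith, by linarith,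
    by linarith, by linarith, fun z z1 z2 z3 z4 => ?_⟩
  have := h7 z z3 z4 z1 z2
  simp only at this
  linarith

/-- Relations with few positive heavy weight, `t = Pm a/Pm(-a) ≤ 3/1000`, `Pm(-a) ≥ 3/5`: if
`R3(-a) ≤ Pm(-a)/50` then `X_main`, otherwise `tab1` and `blk_far` with `y = 1`. -/
theorem blk_small {u q m : ℝ} (h : Win u q m (K0 q m)) (hl : 21 / 20 ≤ lam m (K0 q m))
    (hc : (Fintype.card ι : ℝ) = m + 2) {a : ι → ℝ} (ha : Rel a) (hn : NonDom u a)
    (hn' : NonDom u (fun i => -a i)) (hP : Pm u a ≤ 3 / 1000 * Pm u (fun i => -a i))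
    (hQ : 3 / 5 ≤ Pm u (fun i => -a i)) :
    (∃ (b : ι → ℝ) (s : ℝ), TT q m < LB q b (fun i => s * a i)) ∨ Blk m a := by
  obtain ⟨q1, q2, hq⟩ := ha.neg.exists_top2 (u10 h) hn'
  obtain ⟨p1, p2, hp⟩ := ha.exists_top2 (u10 h) hn
  by_cases hR : R3 u (fun i => -a i) q1 q2 ≤ 1 / 50 * Pm u (fun i => -a i)
  · exact X_main h hl hc ha hn' hq hP hQ hR
  · push Not at hR
    left
    have hQ0 : 0 < Pm u (fun i => -a i) := by linarith
    have hP0 := Pm_nonneg u a
    have ht : Pm u a = Pm u a / Pm u (fun i => -a i) * Pm u (fun i => -a i) := by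
      field_simp
    have ht0 : 0 ≤ Pm u a / Pm u (fun i => -a i) := div_nonneg hP0 hQ0.le
    have ht3 : Pm u a / Pm u (fun i => -a i) ≤ 3 / 1000 := by
      rw [div_le_iff₀ hQ0]
      exact hP
    refine blk_far h hc ha hn hn' hp hq ht ht0 (by linarith) (by linarith) (y := 1) (by norm_num)
      (by norm_num) hl ?_
    have h1 := tab1 hl ht0 ht3
    have h2 : 1 / 1000 ≤ 8 / 5 * (1 / Pm u (fun i => -a i)) * R3 u (fun i => -a i) q1 q2 := by
      have h3 : 1 / 50 ≤ 1 / Pm u (fun i => -a i) * R3 u (fun i => -a i) q1 q2 := by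
        rw [div_mul_eq_mul_div, one_mul, le_div_iff₀ hQ0]
        exact hR.le
      rw [mul_assoc]
      linarith
    linarith

/-- The block side. `dom` and `Win.T_lt_exp` if `a` or `-a` has a dominating weight (`LB_neg`,
`s * -a = -(s * a)`); otherwise we may assume `Pm a ≤ Pm(-a)` (`Rel.neg`, `Blk_neg`, `LB_neg`).
If `Pm a ≤ 1/100` and `Pm(-a) ≤ 3/5`: `spread2` (`u^4 ≤ m κ` from `hl`, `Win.el_bds`) and `T_up`.
Otherwise `Pm(-a) ≥ 1/100`; `t = Pm a/Pm(-a) ∈ [0,1]`; `t ≥ exp(-1)`: `tabA`, `blk_far`;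
`3/1000 ≤ t ≤ exp(-1)`: `tabB`, `blk_far`; `t < 3/1000`: then `Pm a ≤ 1/100`, so `Pm(-a) > 3/5`:
`blk_small`. `exists_top2`. -/
theorem blk_side {u q m : ℝ} (h : Win u q m (K0 q m)) (hl : 23 / 20 ≤ lam m (K0 q m))
    (hc : (Fintype.card ι : ℝ) = m + 2) {a : ι → ℝ} (ha : Rel a) :
    (∃ (b : ι → ℝ) (s : ℝ), TT q m < LB q b (fun i => s * a i)) ∨ Blk m a := by
  have key : ∀ a : ι → ℝ, Rel a → NonDom u a → NonDom u (fun i => -a i) →
      Pm u a ≤ Pm u (fun i => -a i) →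
      (∃ (b : ι → ℝ) (s : ℝ), TT q m < LB q b (fun i => s * a i)) ∨ Blk m a := by
    intro a ha hn hn' hle
    by_cases hA : Pm u a ≤ 1 / 100 ∧ Pm u (fun i => -a i) ≤ 3 / 5
    · exact Or.inl (spr h (by linarith) hc ha hA.1 hA.2)
    have hQ : 1 / 100 ≤ Pm u (fun i => -a i) := by
      by_contra hcon
      push Not at hcon
      exact hA ⟨by linarith, by linarith⟩
    have hQ0 : 0 < Pm u (fun i => -a i) := by linarith
    have hQ1 := ha.neg.Pm_le u
    have hP0 := Pm_nonneg u a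
    have ht : Pm u a = Pm u a / Pm u (fun i => -a i) * Pm u (fun i => -a i) := by
      field_simp
    have ht0 : 0 ≤ Pm u a / Pm u (fun i => -a i) := div_nonneg hP0 hQ0.le
    have ht1 : Pm u a / Pm u (fun i => -a i) ≤ 1 := (div_le_one hQ0).2 hle
    rcases le_total (Real.exp (-1)) (Pm u a / Pm u (fun i => -a i)) with h1 | h1
    · exact Or.inl (far h (by linarith) hc ha hn hn' ht ht0 ht1 hQ (tabA hl h1 ht1))
    rcases le_or_gt (3 / 1000) (Pm u a / Pm u (fun i => -a i)) with h2 | h2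
    · exact Or.inl (far h (by linarith) hc ha hn hn' ht ht0 ht1 hQ (tabB (by linarith) h2 h1))
    have h3 : Pm u a ≤ 3 / 1000 * Pm u (fun i => -a i) := by
      rw [div_lt_iff₀ hQ0] at h2
      exact h2.le
    refine blk_small h (by linarith) hc ha hn hn' h3 ?_
    by_contra hcon
    push Not at hcon
    exact hA ⟨by linarith, hcon.le⟩
  by_cases hnn : NonDom u a ∧ NonDom u (fun i => -a i)
  · rcases le_total (Pm u a) (Pm u (fun i => -a i)) with hle | hle
    · exact key a ha hnn.1 hnn.2 hle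
    · have h1 := key (fun i => -a i) ha.neg hnn.2 (by rw [neg_neg_fun]; exact hnn.1)
        (by rw [neg_neg_fun]; exact hle)
      rcases h1 with h1 | h1
      · exact Or.inl (neg_ex h1)
      · exact Or.inr (Blk_neg h1)
  · exact Or.inl (dom' h hc ha h.T_lt_exp hnn)

/-- `t ≥ exp(-1)` on the square side: `Y_main` or `sq_nearF`. -/
theorem sq_near {u q m κ Y A w : ℝ} (h : Apx u q m κ Y A w)
    (hc : (Fintype.card ι : ℝ) = m + 2)
    {a : ι → ℝ} (ha : Rel a) (hn : NonDom u a) (hn' : NonDom u (fun i => -a i)) {t : ℝ}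
    (ht : Pm u a = t * Pm u (fun i => -a i)) (ht0 : Real.exp (-1) ≤ t) (ht1 : t ≤ 1)
    (hQ : 1 / 100 ≤ Pm u (fun i => -a i)) :
    (∃ (b : ι → ℝ) (s : ℝ), Esq q m κ Y A < LB q b (fun i => s * a i)) ∨ SqT a := by
  obtain ⟨q1, q2, hq⟩ := ha.neg.exists_top2 (u10 h.win) hn'
  obtain ⟨p1, p2, hp⟩ := ha.exists_top2 (u10 h.win) hn
  by_cases hcase : 1 / (2 * w) ≤ -Real.log t ∨ Pm u a ≤ (20 * w + 1) * R3 u a p1 p2 ∨
      Pm u (fun i => -a i) ≤ (20 * w + 1) * R3 u (fun i => -a i) q1 q2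
  · exact Or.inl (sq_nearF h hc ha hn hn' hp hq ht ht0 ht1 hQ hcase)
  · push Not at hcase
    exact Y_main h hc ha hn hn' hp hq ht ht0 ht1 hQ hcase.1.le hcase.2.1.le hcase.2.2.le

/-- The square side: `dom` and `E_lt_exp`; WLOG `Pm a ≤ Pm(-a)`; `sq_N`; `sq_farF` for
`t ≤ exp(-1)`; `sq_near`. -/
theorem sq_side {u q m κ Y A w : ℝ} (h : Apx u q m κ Y A w) (hw : 577 / 500 ≤ w)
    (hc : (Fintype.card ι : ℝ) = m + 2) {a : ι → ℝ} (ha : Rel a) :
    (∃ (b : ι → ℝ) (s : ℝ), Esq q m κ Y A < LB q b (fun i => s * a i)) ∨ SqT a := by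
  have key : ∀ a : ι → ℝ, Rel a → NonDom u a → NonDom u (fun i => -a i) →
      Pm u a ≤ Pm u (fun i => -a i) →
      (∃ (b : ι → ℝ) (s : ℝ), Esq q m κ Y A < LB q b (fun i => s * a i)) ∨ SqT a := by
    intro a ha hn hn' hle
    by_cases hA : Pm u a ≤ 1 / 100 ∧ Pm u (fun i => -a i) ≤ 3 / 5
    · exact Or.inl (sq_N h hc ha hA.1 hA.2)
    have hQ : 1 / 100 ≤ Pm u (fun i => -a i) := by
      by_contra hcon
      push Not at hcon
      exact hA ⟨by linarith, by linarith⟩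
    have hQ0 : 0 < Pm u (fun i => -a i) := by linarith
    have hP0 := Pm_nonneg u a
    have ht : Pm u a = Pm u a / Pm u (fun i => -a i) * Pm u (fun i => -a i) := by
      field_simp
    have ht0 : 0 ≤ Pm u a / Pm u (fun i => -a i) := div_nonneg hP0 hQ0.le
    have ht1 : Pm u a / Pm u (fun i => -a i) ≤ 1 := (div_le_one hQ0).2 hle
    rcases le_total (Real.exp (-1)) (Pm u a / Pm u (fun i => -a i)) with h1 | h1
    · exact sq_near h hc ha hn hn' ht h1 ht1 hQ
    · obtain ⟨q1, q2, hq⟩ := ha.neg.exists_top2 (u10 h.win) hn'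
      obtain ⟨p1, p2, hp⟩ := ha.exists_top2 (u10 h.win) hn
      exact Or.inl (sq_farF h hw hc ha hn hn' hp hq ht ht0 h1 hQ)
  by_cases hnn : NonDom u a ∧ NonDom u (fun i => -a i)
  · rcases le_total (Pm u a) (Pm u (fun i => -a i)) with hle | hle
    · exact key a ha hnn.1 hnn.2 hle
    · have h1 := key (fun i => -a i) ha.neg hnn.2 (by rw [neg_neg_fun]; exact hnn.1)
        (by rw [neg_neg_fun]; exact hle)
      rcases h1 with h1 | h1
      · exact Or.inl (neg_ex h1)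
      · exact Or.inr (SqT_neg h1)
  · exact Or.inl (dom' h.win hc ha (E_lt_exp h) hnn)

/-- In between: `dom`; WLOG; both spread out: `spread2`; `t ≥ exp(-1)`: `sq_near`;
`3/1000 ≤ t ≤ exp(-1)`: `tabB`, `blk_far`; `t < 3/1000`: `blk_small`. -/
theorem mid_side {u q m κ Y A w : ℝ} (h : Win u q m (K0 q m)) (hl : 109 / 100 ≤ lam m (K0 q m))
    (hs : Apx u q m κ Y A w)
    (hc : (Fintype.card ι : ℝ) = m + 2) {a : ι → ℝ} (ha : Rel a) :
    (∃ (b : ι → ℝ) (s : ℝ), min (TT q m) (Esq q m κ Y A) < LB q b (fun i => s * a i)) ∨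
      Blk m a ∨ SqT a := by
  have toT : ∀ a : ι → ℝ, (∃ (b : ι → ℝ) (s : ℝ), TT q m < LB q b (fun i => s * a i)) →
      ∃ (b : ι → ℝ) (s : ℝ), min (TT q m) (Esq q m κ Y A) < LB q b (fun i => s * a i) := by
    rintro a ⟨b, s, hb⟩
    exact ⟨b, s, lt_of_le_of_lt (min_le_left _ _) hb⟩
  have key : ∀ a : ι → ℝ, Rel a → NonDom u a → NonDom u (fun i => -a i) →
      Pm u a ≤ Pm u (fun i => -a i) →
      (∃ (b : ι → ℝ) (s : ℝ), min (TT q m) (Esq q m κ Y A) < LB q b (fun i => s * a i)) ∨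
        Blk m a ∨ SqT a := by
    intro a ha hn hn' hle
    by_cases hA : Pm u a ≤ 1 / 100 ∧ Pm u (fun i => -a i) ≤ 3 / 5
    · exact Or.inl (toT a (spr h (by linarith) hc ha hA.1 hA.2))
    have hQ : 1 / 100 ≤ Pm u (fun i => -a i) := by
      by_contra hcon
      push Not at hcon
      exact hA ⟨by linarith, by linarith⟩
    have hQ0 : 0 < Pm u (fun i => -a i) := by linarith
    have hQ1 := ha.neg.Pm_le u
    have hP0 := Pm_nonneg u a
    have ht : Pm u a = Pm u a / Pm u (fun i => -a i) * Pm u (fun i => -a i) := by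
      field_simp
    have ht0 : 0 ≤ Pm u a / Pm u (fun i => -a i) := div_nonneg hP0 hQ0.le
    have ht1 : Pm u a / Pm u (fun i => -a i) ≤ 1 := (div_le_one hQ0).2 hle
    rcases le_total (Real.exp (-1)) (Pm u a / Pm u (fun i => -a i)) with h1 | h1
    · rcases sq_near hs hc ha hn hn' ht h1 ht1 hQ with ⟨b, s, hb⟩ | h2
      · exact Or.inl ⟨b, s, lt_of_le_of_lt (min_le_right _ _) hb⟩
      · exact Or.inr (Or.inr h2)
    rcases le_or_gt (3 / 1000) (Pm u a / Pm u (fun i => -a i)) with h2 | h2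
    · exact Or.inl (toT a (far h (by linarith) hc ha hn hn' ht ht0 ht1 hQ (tabB hl h2 h1)))
    have h3 : Pm u a ≤ 3 / 1000 * Pm u (fun i => -a i) := by
      rw [div_lt_iff₀ hQ0] at h2
      exact h2.le
    rcases blk_small h (by linarith) hc ha hn hn' h3 (by
      by_contra hcon
      push Not at hcon
      exact hA ⟨by linarith, hcon.le⟩) with h4 | h4
    · exact Or.inl (toT a h4)
    · exact Or.inr (Or.inl h4)
  by_cases hnn : NonDom u a ∧ NonDom u (fun i => -a i)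
  · rcases le_total (Pm u a) (Pm u (fun i => -a i)) with hle | hle
    · exact key a ha hnn.1 hnn.2 hle
    · have h1 := key (fun i => -a i) ha.neg hnn.2 (by rw [neg_neg_fun]; exact hnn.1)
        (by rw [neg_neg_fun]; exact hle)
      rcases h1 with h1 | h1 | h1
      · exact Or.inl (neg_ex h1)
      · exact Or.inr (Or.inl (Blk_neg h1))
      · exact Or.inr (Or.inr (SqT_neg h1))
  · exact Or.inl (toT a (dom' h hc ha h.T_lt_exp hnn))

end

end Pool.Agent.RieszWin
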