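import Pool.Agent.RieszWin.CfgSq
import Pool.Agent.RieszWin.CAsyC
import Pool.Agent.RieszWin.Sides

set_option autoImplicit false

open Real Finset

namespace Pool.Agent.RieszWin

open Pool.Agent.RieszSmall Pool.Agent.RieszLin Pool.Agent.RieszTr

open Pool.Agent.Riesz (InDom om G IsSym)

theorem WinCfgAux.q1m2 {u q m κ : ℝ} (h : Win u q m κ) : 1 ≤ q ∧ 2 ≤ m := by
  obtain ⟨h1, h2, h3⟩ := h.big
  obtain ⟨hu0, hm0, hq0, hk0, hk1⟩ := h.pos
  have hm2 : (2 : ℝ) ≤ m := by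
    have h4 : (10 : ℝ) ^ 1 ≤ 10 ^ 300 := pow_le_pow_right₀ (by norm_num) (by norm_num)
    exact (show (2 : ℝ) ≤ 10 ^ 1 by norm_num).trans (h4.trans h3)
  refine ⟨?_, hm2⟩
  have hu1 : (2 : ℝ) ≤ u := le_trans (by norm_num) h.hu
  have hu4 : (2 : ℝ) ^ 4 ≤ u ^ 4 := pow_le_pow_left₀ (by norm_num) hu1 4
  have h4 : (2 : ℝ) * 2 ^ 4 ≤ m * u ^ 4 := mul_le_mul hm2 hu4 (by norm_num) hm0.le
  have h5 := h.plo
  linarith

section

variable {ι : Type*} [Fintype ι] [DecidableEq ι] {V : Type*} [NormedAddCommGroup V]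
  [InnerProductSpace ℝ V] [FiniteDimensional ℝ V]

/-- MODULE RW68 (configurations). `exists_rel`, `blk_side`, `LB_le`, `block_lower`. -/
theorem win_blk {u q m : ℝ} (h : Win u q m (K0 q m)) (hl : 23 / 20 ≤ lam m (K0 q m))
    {x : ι → V} (hc : (Fintype.card ι : ℝ) = m + 2)
    (hfr : Module.finrank ℝ V + 2 ≤ Fintype.card ι) (hx : ∀ i, ‖x i‖ = 1)
    (hlt : ∀ i j, i ≠ j → (inner ℝ (x i) (x j) : ℝ) < 1) :
    TT q m ≤ En q x ∧ (En q x = TT q m → ∃ P : Finset ι, P.card = 2 ∧ OrthSimplices P x) := by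
  obtain ⟨hq1, hm2⟩ := WinCfgAux.q1m2 h
  have hq0 : 0 < q := by linarith
  obtain ⟨a, ha, hax⟩ := exists_rel x hfr
  rcases blk_side h hl hc ha with ⟨b, s, hb⟩ | hB
  · have h1 := LB_le hx hlt hax hq0 b s
    exact ⟨by linarith, fun h2 => by linarith⟩
  · exact block_lower hq1 hm2 hc hx hlt hax hB

/-- `exists_rel`, `Rg.apx` (with `sqr_of_min`), `Rg.w_ge'`, `sq_side`, `val_of_min`, `LB_le`,
`square_lower`. -/
theorem win_sq {n : ℕ} {u q α γ : ℝ} (h : Rg u q ((n : ℝ) + 2))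
    (hl : lam ((n : ℝ) + 2) (K0 q ((n : ℝ) + 2)) ≤ 109 / 100) (hn : 2 ≤ n) (hd : InDom n α γ)
    (hγ : 0 < γ)
    (hmin : ∀ a g, InDom n a g → Pool.Agent.Riesz.Phi n q α γ ≤ Pool.Agent.Riesz.Phi n q a g)
    {x : ι → V} (hc : Fintype.card ι = n + 4)
    (hfr : Module.finrank ℝ V + 2 ≤ Fintype.card ι) (hx : ∀ i, ‖x i‖ = 1)
    (hlt : ∀ i j, i ≠ j → (inner ℝ (x i) (x j) : ℝ) < 1) :
    2 * Pool.Agent.Riesz.Phi n q α γ ≤ En q x ∧
      (En q x = 2 * Pool.Agent.Riesz.Phi n q α γ →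
        ∃ e : Fin 4 ⊕ Fin n ≃ ι, IsSym α γ (x (e (Sum.inl 0))) (x (e (Sum.inl 1)))
          (x (e (Sum.inl 2))) (x (e (Sum.inl 3))) (fun k => x (e (Sum.inr k)))) := by
  obtain ⟨hq1, hm2⟩ := WinCfgAux.q1m2 h.win
  have hq0 : 0 < q := by linarith
  have hn' : (2 : ℝ) ≤ n := by exact_mod_cast hn
  have hc' : (Fintype.card ι : ℝ) = ((n : ℝ) + 2) + 2 := by rw [hc]; push_cast; ring
  have hs := sqr_of_min hn' hq1 hd hγ hmin
  have hv := val_of_min hn' hq1 hd hγ hmin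
  have hap := h.apx hs
  have hw := h.w_ge' hs hl
  obtain ⟨a, ha, hax⟩ := exists_rel x hfr
  rcases sq_side hap hw hc' ha with ⟨b, s, hb⟩ | hT
  · have h1 := LB_le hx hlt hax hq0 b s
    rw [← hv] at hb
    exact ⟨by linarith, fun h2 => by linarith⟩
  · exact square_lower hn hq1 hd hγ hmin hc hx hlt hax hT

/-- `exists_rel`, `mid_side`, `val_of_min`, `LB_le`, `block_lower`, `square_lower`. -/
theorem win_mid {n : ℕ} {u q α γ : ℝ} (h : Rg u q ((n : ℝ) + 2))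
    (hl : 109 / 100 ≤ lam ((n : ℝ) + 2) (K0 q ((n : ℝ) + 2))) (hn : 2 ≤ n) (hd : InDom n α γ)
    (hγ : 0 < γ)
    (hmin : ∀ a g, InDom n a g → Pool.Agent.Riesz.Phi n q α γ ≤ Pool.Agent.Riesz.Phi n q a g)
    {x : ι → V} (hc : Fintype.card ι = n + 4)
    (hfr : Module.finrank ℝ V + 2 ≤ Fintype.card ι) (hx : ∀ i, ‖x i‖ = 1)
    (hlt : ∀ i j, i ≠ j → (inner ℝ (x i) (x j) : ℝ) < 1) :
    min (TT q ((n : ℝ) + 2)) (2 * Pool.Agent.Riesz.Phi n q α γ) ≤ En q x ∧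
      (En q x ≤ min (TT q ((n : ℝ) + 2)) (2 * Pool.Agent.Riesz.Phi n q α γ) →
        (∃ P : Finset ι, P.card = 2 ∧ OrthSimplices P x) ∨
        ∃ e : Fin 4 ⊕ Fin n ≃ ι, IsSym α γ (x (e (Sum.inl 0))) (x (e (Sum.inl 1)))
          (x (e (Sum.inl 2))) (x (e (Sum.inl 3))) (fun k => x (e (Sum.inr k)))) := by
  obtain ⟨hq1, hm2⟩ := WinCfgAux.q1m2 h.win
  have hq0 : 0 < q := by linarith
  have hn' : (2 : ℝ) ≤ n := by exact_mod_cast hn
  have hc' : (Fintype.card ι : ℝ) = ((n : ℝ) + 2) + 2 := by rw [hc]; push_cast; ring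
  have hs := sqr_of_min hn' hq1 hd hγ hmin
  have hv := val_of_min hn' hq1 hd hγ hmin
  have hap := h.apx hs
  obtain ⟨a, ha, hax⟩ := exists_rel x hfr
  rcases mid_side h.win hl hap hc' ha with ⟨b, s, hb⟩ | hB | hT
  · have h1 := LB_le hx hlt hax hq0 b s
    rw [← hv] at hb
    exact ⟨by linarith, fun h2 => by linarith⟩
  · obtain ⟨h1, h2⟩ := block_lower hq1 hm2 hc' hx hlt hax hB
    exact ⟨(min_le_left _ _).trans h1, fun h3 => Or.inl (h2 (le_antisymm (h3.trans (min_le_left _ _)) h1))⟩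
  · obtain ⟨h1, h2⟩ := square_lower hn hq1 hd hγ hmin hc hx hlt hax hT
    exact ⟨(min_le_right _ _).trans h1,
      fun h3 => Or.inr (h2 (le_antisymm (h3.trans (min_le_right _ _)) h1))⟩

end

end Pool.Agent.RieszWin
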