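import Pool.Agent.RieszWin.Shapes
import Pool.Agent.RieszWin.WinCfg
import Pool.Agent.RieszWin.Thr
import Pool.Agent.RieszWin.High

set_option autoImplicit false

open Real Finset

namespace Pool.Agent.RieszWin

open Pool.Agent.RieszSmall Pool.Agent.RieszLin Pool.Agent.RieszTr

open Pool.Agent.Riesz (InDom om G IsSym)

/-- the fourth root of `log m` -/
lemma exists_u {m c : ℝ} (hc : 0 ≤ c) (hm : Real.exp (c ^ 4) ≤ m) :
    ∃ u : ℝ, c ≤ u ∧ m = Real.exp (u ^ 4) := by
  have hm0 : 0 < m := lt_of_lt_of_le (Real.exp_pos _) hm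
  have hl : c ^ 4 ≤ Real.log m := (Real.le_log_iff_exp_le hm0).2 hm
  have hl0 : 0 ≤ Real.log m := le_trans (by positivity) hl
  refine ⟨√√(Real.log m), ?_, ?_⟩
  · apply Real.le_sqrt_of_sq_le
    apply Real.le_sqrt_of_sq_le
    calc (c ^ 2) ^ 2 = c ^ 4 := by rw [← pow_mul]
      _ ≤ Real.log m := hl
  · have : (√√(Real.log m)) ^ 4 = Real.log m := by
      rw [show (4 : ℕ) = 2 * 2 by norm_num, pow_mul, Real.sq_sqrt (Real.sqrt_nonneg _),
        Real.sq_sqrt hl0]
    rw [this, Real.exp_log hm0]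

section

variable {n : ℕ}

lemma fr (n : ℕ) : Module.finrank ℝ (EuclideanSpace ℝ (Fin (n + 1 + 1))) + 2
    ≤ Fintype.card (Fin (n + 1 + 3)) := by
  rw [finrank_euclideanSpace_fin, Fintype.card_fin]

lemma cardn (n : ℕ) : Fintype.card (Fin (n + 1 + 3)) = n + 4 := by
  rw [Fintype.card_fin]

/-- **The window theorem.** With `m = n + 2 = d + 1`, `q = s/2`. -/
theorem window_main : ∃ n0 : ℕ, ∀ n : ℕ, n0 ≤ n → ∃ qs : ℝ,
    ((n : ℝ) + 1) * (Real.log ((n : ℝ) + 1) - Real.log (Real.log ((n : ℝ) + 1)) - 1 / 5) ≤ qs ∧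
    qs ≤ ((n : ℝ) + 1) * (Real.log ((n : ℝ) + 1) - Real.log (Real.log ((n : ℝ) + 1))) ∧
    (∀ q : ℝ, ((n : ℝ) + 1)
        * (Real.log ((n : ℝ) + 1) - Real.log (Real.log ((n : ℝ) + 1)) - 240) ≤ q → q < qs →
      ∀ x : Fin (n + 1 + 3) → EuclideanSpace ℝ (Fin (n + 1 + 1)), Cfg x →
        TT q ((n : ℝ) + 2) ≤ En q x ∧ (En q x = TT q ((n : ℝ) + 2) → Blk2 x)) ∧
    (∀ q : ℝ, qs ≤ q → q ≤ ((n : ℝ) + 2) * (Real.log ((n : ℝ) + 2) + 500) →
      ∃ α γ : ℝ, InDom n α γ ∧
        (∀ a g, InDom n a g → Pool.Agent.Riesz.Phi n q α γ ≤ Pool.Agent.Riesz.Phi n q a g) ∧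
        (∀ x : Fin (n + 1 + 3) → EuclideanSpace ℝ (Fin (n + 1 + 1)), Cfg x →
          2 * Pool.Agent.Riesz.Phi n q α γ ≤ En q x ∧
            (En q x = 2 * Pool.Agent.Riesz.Phi n q α γ → Sym α γ x ∨ (q = qs ∧ Blk2 x))) ∧
        (q = qs → 2 * Pool.Agent.Riesz.Phi n q α γ = TT q ((n : ℝ) + 2))) := by
  obtain ⟨N, hN⟩ := exists_nat_ge (Real.exp (((10 : ℝ) ^ 200 + Real.exp 501) ^ 4))
  refine ⟨N + 2, fun n hn => ?_⟩
  have hn2 : 2 ≤ n := by omega
  have hn1 : 1 ≤ n := by omega
  have hnN : (N : ℝ) ≤ n := by exact_mod_cast (by omega : N ≤ n)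
  set m : ℝ := (n : ℝ) + 2 with hm
  set d : ℝ := (n : ℝ) + 1 with hd
  have hdm : d + 1 = m := by rw [hd, hm]; ring
  obtain ⟨u, huc, hmu⟩ := exists_u (m := m) (c := (10 : ℝ) ^ 200 + Real.exp 501)
    (by have := Real.exp_pos 501; positivity) (by rw [hm]; linarith)
  have hu : (10 : ℝ) ^ 200 ≤ u := by
    have := Real.exp_pos 501
    linarith
  have hu' : Real.exp 501 ≤ u := by
    have : (0 : ℝ) ≤ (10 : ℝ) ^ 200 := by positivity
    linarith
  clear huc
  have hm2 : 2 ≤ m := by rw [hm]; have : (0 : ℝ) ≤ n := Nat.cast_nonneg n; linarith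
  have hu1 : 1 ≤ u := le_trans (by norm_num) hu
  have hu4 : 1 ≤ u ^ 4 := one_le_pow₀ hu1
  have hcm : (Fintype.card (Fin (n + 1 + 3)) : ℝ) = m + 2 := card_real n
  -- the two ends of the crossing interval
  obtain ⟨qa, qa1, qal, qa2, qa3⟩ := exists_q hu hmu (l := 23 / 20) (by norm_num) (by norm_num)
  obtain ⟨qb, qb1, qbl, qb2, qb3⟩ := exists_q hu hmu (l := 109 / 100) (by norm_num) (by norm_num)
  have hab : qa ≤ qb := by
    by_contra hcon
    push Not at hcon
    have := lam_anti hm2 (by linarith : (0 : ℝ) ≤ qb) hcon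
    rw [qal, qbl] at this
    norm_num at this
  have hu105 : 2 * u ^ 4 ≤ 10 ^ 105 * u ^ 4 := by
    apply mul_le_mul_of_nonneg_right _ (by positivity)
    norm_num
  have h1u : 1 / u ≤ 1 := by rw [div_le_one (by linarith)]; exact hu1
  -- the window above qa
  have hwin : ∀ q, qa ≤ q → 1 / u ≤ m * K0 q m → Win u q m (K0 q m) := by
    intro q hq hlo
    apply win_of hu hmu _ hlo
    have h1 := K0_anti hm2 hq
    have h2 : m * K0 q m ≤ m * K0 qa m := mul_le_mul_of_nonneg_left h1 (by linarith)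
    linarith
  have hRg : ∀ q, qa ≤ q → 1 / u ≤ m * K0 q m → Rg u q m := by
    intro q hq hlo
    refine ⟨hwin q hq hlo, hlo, ?_⟩
    rcases hq.eq_or_lt with h | h
    · rw [← h, qal]
    · have := lam_anti hm2 (by linarith : (0 : ℝ) ≤ qa) h
      rw [qal] at this
      exact this.le
  have hlob : ∀ q, q ≤ qb → 1 / u ≤ m * K0 q m := by
    intro q hq
    have h1 := K0_anti hm2 hq
    have h2 : m * K0 qb m ≤ m * K0 q m := mul_le_mul_of_nonneg_left h1 (by linarith)
    linarith
  have hRab : ∀ q, qa ≤ q → q ≤ qb → Rg u q m := fun q h1 h2 => hRg q h1 (hlob q h2)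
  -- block side
  have hblk : ∀ q, (d * (Real.log d - Real.log (Real.log d) - 240) ≤ q) → q ≤ qa →
      ∀ x : Fin (n + 1 + 3) → EuclideanSpace ℝ (Fin (n + 1 + 1)), Cfg x →
        TT q m ≤ En q x ∧ (En q x = TT q m → Blk2 x) := by
    intro q h1 h2 x hx
    have hhi : m * K0 q m ≤ 10 ^ 105 * u ^ 4 := by
      have := low_end (u := u) (q := q) (d := d) hu (by rw [hdm]; exact hmu) h1
      rwa [hdm] at this
    have hw : Win u q m (K0 q m) := win_of hu hmu hhi (hlob q (h2.trans hab))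
    have hl : 23 / 20 ≤ lam m (K0 q m) := by
      rcases h2.eq_or_lt with h | h
      · rw [h, qal]
      · have h3 := lam_anti hm2 (le_of_lt hw.pos.2.2.1) h
        rw [qal] at h3
        exact h3.le
    exact win_blk hw hl hcm (fr n) hx.2 hx.lt
  -- at qa all lifted squares lose
  have hqa_lo : d * (Real.log d - Real.log (Real.log d) - 240) ≤ qa := by
    have h := (loc (u := u) (q := qa) (d := d) hu (by rw [hdm]; exact hmu) (by linarith)
      (by rw [hdm, qal]; norm_num) (by rw [hdm, qal])).1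
    have hd0 : 0 ≤ d := by rw [hd]; positivity
    nlinarith
  have hea : ∀ α γ : ℝ, InDom n α γ → TT qa m < 2 * Pool.Agent.Riesz.Phi n qa α γ := by
    intro α γ hαγ
    obtain ⟨x, hx, hs⟩ := exists_sym_cfg hn1 hαγ
    obtain ⟨h1, h2⟩ := hblk qa hqa_lo le_rfl x hx
    rw [En_sym hx hs] at h1 h2
    rcases h1.eq_or_lt with h | h
    · exact (sym_not_blk hn1 hαγ.1 hs (h2 h.symm)).elim
    · exact h
  -- square side
  have hsq : ∀ q, qb ≤ q → q ≤ m * (Real.log m + 500) → ∃ α γ : ℝ, InDom n α γ ∧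
        (∀ a g, InDom n a g → Pool.Agent.Riesz.Phi n q α γ ≤ Pool.Agent.Riesz.Phi n q a g) ∧
        (∀ x : Fin (n + 1 + 3) → EuclideanSpace ℝ (Fin (n + 1 + 1)), Cfg x →
          2 * Pool.Agent.Riesz.Phi n q α γ ≤ En q x ∧
            (En q x = 2 * Pool.Agent.Riesz.Phi n q α γ → Sym α γ x)) := by
    intro q h1 h2
    have hlo := high_end' (u := u) (q := q) hu hu' hmu h2
    have hR := hRg q (hab.trans h1) hlo
    obtain ⟨α, γ, hαγ, hγ, hmin⟩ := Rg.exists_min hR
    refine ⟨α, γ, hαγ, hmin, fun x hx => ?_⟩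
    have hl : lam m (K0 q m) ≤ 109 / 100 := by
      rcases h1.eq_or_lt with h | h
      · rw [← h, qbl]
      · have h3 := lam_anti hm2 (by linarith : (0 : ℝ) ≤ qb) h
        rw [qbl] at h3
        exact h3.le
    exact win_sq hR hl hn2 hαγ hγ hmin (cardn n) (fr n) hx.2 hx.lt
  have heb : ∃ α γ : ℝ, InDom n α γ ∧ 2 * Pool.Agent.Riesz.Phi n qb α γ ≤ TT qb m := by
    have hqb_hi : qb ≤ m * (Real.log m + 500) := by
      have h := (loc (u := u) (q := qb) (d := d) hu (by rw [hdm]; exact hmu) (by linarith)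
        (by rw [hdm, qbl]) (by rw [hdm, qbl]; norm_num)).2
      have hd1 : 1 ≤ d := by rw [hd]; have : (0 : ℝ) ≤ n := Nat.cast_nonneg n; linarith
      have hld : Real.log d ≤ Real.log m := Real.log_le_log (by linarith) (by linarith)
      have hlm : Real.log m = u ^ 4 := by rw [hmu, Real.log_exp]
      have hll : -1 ≤ Real.log (Real.log d) := by
        have h2d : Real.log 2 ≤ Real.log d := Real.log_le_log (by norm_num) (by
          rw [hd]; have : (2 : ℝ) ≤ n := by exact_mod_cast hn2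
          linarith)
        have h3 : (0.6931471803 : ℝ) < Real.log 2 := Real.log_two_gt_d9
        have h4 : Real.exp (-1) ≤ Real.log d := by
          have := Real.exp_neg_one_lt_d9
          linarith
        rw [Real.le_log_iff_exp_le (by linarith)]
        exact h4
      calc qb ≤ d * (Real.log d - Real.log (Real.log d)) := h
        _ ≤ d * (Real.log m + 500) := by
            apply mul_le_mul_of_nonneg_left _ (by linarith)
            linarith
        _ ≤ m * (Real.log m + 500) := by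
            apply mul_le_mul_of_nonneg_right (by linarith)
            rw [hlm]; positivity
    obtain ⟨α, γ, hαγ, hmin, hall⟩ := hsq qb le_rfl hqb_hi
    refine ⟨α, γ, hαγ, ?_⟩
    obtain ⟨x, hx, hb⟩ := exists_blk n
    have := (hall x hx).1
    rwa [En_blk hb] at this
  obtain ⟨qs, hs1, hs2, hbelow, habove, hat, hat'⟩ :=
    threshold hn2 hab hRab hea heb
  have hmid : ∀ q, qa ≤ q → q ≤ qb → ∀ α γ : ℝ, InDom n α γ → 0 < γ →
      (∀ a g, InDom n a g → Pool.Agent.Riesz.Phi n q α γ ≤ Pool.Agent.Riesz.Phi n q a g) →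
      ∀ x : Fin (n + 1 + 3) → EuclideanSpace ℝ (Fin (n + 1 + 1)), Cfg x →
        min (TT q m) (2 * Pool.Agent.Riesz.Phi n q α γ) ≤ En q x ∧
          (En q x ≤ min (TT q m) (2 * Pool.Agent.Riesz.Phi n q α γ) → Blk2 x ∨ Sym α γ x) := by
    intro q h1 h2 α γ hαγ hγ hmin x hx
    have hl : 109 / 100 ≤ lam m (K0 q m) := by
      rcases h2.eq_or_lt with h | h
      · rw [h, qbl]
      · have h3 := lam_anti hm2 (by linarith : (0 : ℝ) ≤ q) h
        rw [qbl] at h3
        exact h3.le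
    exact win_mid (hRab q h1 h2) hl hn2 hαγ hγ hmin (cardn n) (fr n) hx.2 hx.lt
  have hloc : d * (Real.log d - Real.log (Real.log d) - 1 / 5) ≤ qs ∧
      qs ≤ d * (Real.log d - Real.log (Real.log d)) := by
    apply loc (u := u) hu (by rw [hdm]; exact hmu) (by linarith)
    · rw [hdm]
      rcases hs2.eq_or_lt with h | h
      · rw [h, qbl]
      · have h3 := lam_anti hm2 (by linarith : (0 : ℝ) ≤ qs) h
        rw [qbl] at h3
        exact h3.le
    · rw [hdm]
      have h3 := lam_anti hm2 (by linarith : (0 : ℝ) ≤ qa) hs1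
      rw [qal] at h3
      exact h3.le
  refine ⟨qs, hloc.1, hloc.2, ?_, ?_⟩
  · intro q h1 h2 x hx
    rcases le_or_gt q qa with hqa | hqa
    · exact hblk q h1 hqa x hx
    · have hqb : q ≤ qb := h2.le.trans hs2
      obtain ⟨α, γ, hαγ, hγ, hmin⟩ := Rg.exists_min (hRab q hqa.le hqb)
      have hlt := hbelow q hqa.le h2 α γ hαγ
      obtain ⟨h3, h4⟩ := hmid q hqa.le hqb α γ hαγ hγ hmin x hx
      rw [min_eq_left hlt.le] at h3 h4
      refine ⟨h3, fun he => ?_⟩
      rcases h4 he.le with h | h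
      · exact h
      · exfalso
        rw [En_sym hx h] at he
        linarith
  · intro q h1 h2
    rcases le_or_gt q qb with hqb | hqb
    · have hqa : qa ≤ q := hs1.le.trans h1
      obtain ⟨α, γ, hαγ, hγ, hmin⟩ := Rg.exists_min (hRab q hqa hqb)
      have hmm := hmid q hqa hqb α γ hαγ hγ hmin
      have hle : 2 * Pool.Agent.Riesz.Phi n q α γ ≤ TT q m := by
        rcases h1.eq_or_lt with h | h
        · obtain ⟨a, g, hag, he⟩ := hat'
          have := hmin a g hag
          rw [← h] at this ⊢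
          linarith
        · obtain ⟨a, g, hag, he⟩ := habove q h hqb
          have := hmin a g hag
          linarith
      refine ⟨α, γ, hαγ, hmin, fun x hx => ?_, fun he => ?_⟩
      · obtain ⟨h3, h4⟩ := hmm x hx
        rw [min_eq_right hle] at h3 h4
        refine ⟨h3, fun he => ?_⟩
        rcases h4 he.le with h | h
        · right
          refine ⟨?_, h⟩
          by_contra hne
          have hlt : qs < q := lt_of_le_of_ne h1 (fun e => hne e.symm)
          obtain ⟨a, g, hag, hlt2⟩ := habove q hlt hqb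
          have h5 := hmin a g hag
          rw [En_blk h] at he
          linarith
        · exact Or.inl h
      · have h5 := hat α γ hαγ
        rw [← he] at h5
        exact le_antisymm hle h5
    · obtain ⟨α, γ, hαγ, hmin, hall⟩ := hsq q hqb.le h2
      refine ⟨α, γ, hαγ, hmin, fun x hx => ⟨(hall x hx).1, fun he => Or.inl ((hall x hx).2 he)⟩,
        fun he => ?_⟩
      exfalso
      rw [he] at hqb
      linarith

end

end Pool.Agent.RieszWin
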