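import Pool.Agent.RieszWin.Shapes
import Pool.Agent.RieszSmall.Exist
import Pool.Agent.RieszLin.Comp
import Pool.Agent.RieszTr.Lower
import Pool.Agent.RieszTr.Range
import Pool.Agent.RieszMix.Lower2

set_option autoImplicit false

open Real Finset

namespace Pool.Agent.RieszWin

open Pool.Agent.RieszSmall

variable {n : ℕ}

lemma low_fr (n : ℕ) : Module.finrank ℝ (EuclideanSpace ℝ (Fin (n + 1 + 1))) + 2
    ≤ Fintype.card (Fin (n + 1 + 3)) := by
  rw [finrank_euclideanSpace_fin, Fintype.card_fin]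

/-- `0 < q < 1` (i.e. `0 < s < 2`) -/
theorem low1 (n : ℕ) {q : ℝ} (h0 : 0 < q) (h1 : q < 1) : ∃ E : ℝ,
    (∀ y : Fin (n + 1 + 3) → EuclideanSpace ℝ (Fin (n + 1 + 1)), Cfg y →
      E ≤ En q y ∧ (En q y = E → ∃ P : Finset (Fin (n + 1 + 3)), P.card = (n + 1 + 3) / 2 ∧
        OrthSimplices P y)) ∧
    (∀ (y : Fin (n + 1 + 3) → EuclideanSpace ℝ (Fin (n + 1 + 1))) (P : Finset (Fin (n + 1 + 3))),
      P.card = (n + 1 + 3) / 2 → OrthSimplices P y → En q y = E) := by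
  have hcard : Fintype.card (Fin (n + 1 + 3)) = n + 1 + 3 := Fintype.card_fin _
  refine ⟨Est q (((n + 1 + 3) / 2 : ℕ) : ℝ) ((n + 1 + 3 - (n + 1 + 3) / 2 : ℕ) : ℝ), ?_, ?_⟩
  · intro y hy
    set E : ℝ := Est q (((n + 1 + 3) / 2 : ℕ) : ℝ) ((n + 1 + 3 - (n + 1 + 3) / 2 : ℕ) : ℝ)
      with hEdef
    obtain ⟨c, w, hdep⟩ := exists_dep y (low_fr n)
    have hf := hdep.frame hy.2
    obtain ⟨b1, b2⟩ := hf.bound (by rw [hcard]; omega) h0 h1
    obtain ⟨e1, e2⟩ := hdep.En_ge hy.2 hy.lt h0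
    have e3 := hdep.Yg_ge hy.2 h0.le h1.le
    have e4 : 0 ≤ ‖∑ i, y i‖ ^ 2 := sq_nonneg _
    have e5 : 0 ≤ q * Yg q y c w := mul_nonneg h0.le (e4.trans e3)
    rw [hcard, ← hEdef] at b1 b2
    refine ⟨by linarith, fun hE => ?_⟩
    obtain ⟨l1, l2⟩ := b2 (by linarith)
    obtain ⟨P, hP, hB⟩ := hf.blocks_of_eq (by rw [hcard]; omega) l1 (by rw [hcard]; exact l2)
    rw [hcard] at hP
    exact ⟨P, hP, orth_of_blocks hB (e2 (by linarith))⟩
  · intro y P hP hO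
    have hPc : Pᶜ.card = n + 1 + 3 - (n + 1 + 3) / 2 := by rw [Finset.card_compl, hP, hcard]
    rw [En_orth hO (by omega) (by omega), hP, hPc]

/-- `q = 1` (i.e. `s = 2`) -/
theorem low2 (n : ℕ) : ∃ E : ℝ,
    (∀ y : Fin (n + 1 + 3) → EuclideanSpace ℝ (Fin (n + 1 + 1)), Cfg y →
      E ≤ En 1 y ∧ (En 1 y = E → ∃ P : Finset (Fin (n + 1 + 3)), 2 ≤ P.card ∧
        P.card ≤ n + 1 + 1 ∧ OrthSimplices P y)) ∧
    (∀ (y : Fin (n + 1 + 3) → EuclideanSpace ℝ (Fin (n + 1 + 1))) (P : Finset (Fin (n + 1 + 3))),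
      2 ≤ P.card → P.card ≤ n + 1 + 1 → OrthSimplices P y → En 1 y = E) := by
  have hcard : Fintype.card (Fin (n + 1 + 3)) = n + 1 + 3 := Fintype.card_fin _
  refine ⟨(Fintype.card (Fin (n + 1 + 3)) : ℝ) ^ 2 - 2 * Fintype.card (Fin (n + 1 + 3)) + 2,
    ?_, ?_⟩
  · intro y hy
    obtain ⟨c, w, hdep⟩ := exists_dep y (low_fr n)
    refine ⟨(hdep.one_lower hy.2 hy.lt).1, fun hE => ?_⟩
    obtain ⟨P, hP1, hP2, hO⟩ := one_equality (low_fr n) hy.2 hy.lt hE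
    refine ⟨P, hP1, ?_, hO⟩
    rw [Finset.card_compl, hcard] at hP2
    omega
  · intro y P hP1 hP2 hO
    have hPc : Pᶜ.card = n + 1 + 3 - P.card := by rw [Finset.card_compl, hcard]
    rw [En_orth hO (by omega) (by omega)]
    unfold Est
    have hsum : (P.card : ℝ) + (Pᶜ.card : ℝ) = Fintype.card (Fin (n + 1 + 3)) := by
      rw [← Nat.cast_add, Finset.card_add_card_compl]
    have e : (1 + 1 : ℝ) = ((2 : ℕ) : ℝ) := by norm_num
    have hp1 : (P.card : ℝ) ≠ 0 := by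
      have : 0 < P.card := by omega
      positivity
    have hp2 : (Pᶜ.card : ℝ) ≠ 0 := by
      have : 0 < Pᶜ.card := by omega
      positivity
    rw [e, Real.rpow_natCast, Real.rpow_natCast, ← hsum]
    field_simp
    ring

/-- `1 < q`, up to the beginning of the window -/
theorem low3 {n : ℕ} (hn : 400 ≤ n) {q : ℝ} (h1 : 1 < q)
    (h2 : q ≤ ((n : ℝ) + 1)
      * (Real.log ((n : ℝ) + 1) - Real.log (Real.log ((n : ℝ) + 1)) - 240))
    (y : Fin (n + 1 + 3) → EuclideanSpace ℝ (Fin (n + 1 + 1))) (hy : Cfg y) :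
    Pool.Agent.RieszLin.TT q ((n : ℝ) + 2) ≤ En q y ∧
      (En q y = Pool.Agent.RieszLin.TT q ((n : ℝ) + 2) → Blk2 y) := by
  have hd4 : (400 : ℝ) ≤ n := by exact_mod_cast hn
  have hcard : (Fintype.card (Fin (n + 1 + 3)) : ℝ) = ((n : ℝ) + 2) + 2 := card_real n
  rcases le_or_gt (2 * q) (((n + 1 : ℕ) : ℝ) / 100) with hs1 | hs1
  · push_cast at hs1
    have hm : 200 * q ≤ (n : ℝ) + 2 := by linarith
    rcases lt_or_ge q 2 with h | h
    · exact Pool.Agent.RieszMix.lower2 h1 h (by linarith) hcard (low_fr n) hy.2 hy.lt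
    · exact Pool.Agent.RieszLin.lower h hm hcard (low_fr n) hy.2 hy.lt
  · have hr := Pool.Agent.RieszTr.reg_of_range (d := n + 1) (s := 2 * q) (by omega) hs1.le
      (by push_cast; nlinarith)
    have e1 : 2 * q / 2 = q := by ring
    have e2 : (((n + 1 : ℕ) : ℝ) + 1) = (n : ℝ) + 2 := by push_cast; ring
    rw [e1, e2] at hr
    exact Pool.Agent.RieszTr.lower_tr hr hcard (low_fr n) hy.2 hy.lt

end Pool.Agent.RieszWin
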