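import Pool.Agent.RieszWin.Shapes
import Pool.Agent.RieszSq.Key

set_option autoImplicit false

open Real Finset

namespace Pool.Agent.RieszWin

open Pool.Agent.RieszSmall (En)

open Pool.Agent.Riesz (InDom om G IsSym)

/-- The range above the window, `s ≥ 2 (d+1) (log (d+1) + 500)`, from the theorem on lifted squares
(`RieszSq`). -/
theorem top_main {n : ℕ} (hn : 2 ≤ n) {q : ℝ}
    (hq : ((n : ℝ) + 2) * (Real.log ((n : ℝ) + 2) + 500) ≤ q) :
    ∃ α γ : ℝ, InDom n α γ ∧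
      (∀ a g, InDom n a g → Pool.Agent.Riesz.Phi n q α γ ≤ Pool.Agent.Riesz.Phi n q a g) ∧
      (∀ x : Fin (n + 1 + 3) → EuclideanSpace ℝ (Fin (n + 1 + 1)), Cfg x →
        2 * Pool.Agent.Riesz.Phi n q α γ ≤ En q x ∧
          (En q x = 2 * Pool.Agent.Riesz.Phi n q α γ → Sym α γ x)) := by
  have hn2 : (2 : ℝ) ≤ n := by exact_mod_cast hn
  have hl : 0 ≤ Real.log ((n : ℝ) + 2) := Real.log_nonneg (by linarith)
  have hq1 : (1 : ℝ) ≤ q := by nlinarith
  obtain ⟨α', γ', h1, h2, h3, h4⟩ := Pool.Agent.RieszSq.test_point hn hq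
  obtain ⟨α, γ, hd, hmin⟩ := Pool.Agent.RieszSq.exists_min0 hn hq1 h1 h2 h3 h4
  have key : ∀ x : Fin (n + 1 + 3) → EuclideanSpace ℝ (Fin (n + 1 + 1)), Cfg x →
      En q x ≤ 2 * Pool.Agent.Riesz.Phi n q α γ → Sym α γ x := by
    intro x hx hle
    rw [En_eq_dsum hx] at hle
    exact Pool.Agent.RieszSq.key_low2 hn hq (by rw [Fintype.card_fin])
      (by rw [finrank_euclideanSpace_fin]) hx.2 hx.lt hd hmin hle
  refine ⟨α, γ, hd, hmin, fun x hx => ⟨?_, fun he => key x hx he.le⟩⟩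
  by_contra hcon
  push Not at hcon
  have := En_sym (q := q) hx (key x hx hcon.le)
  linarith

end Pool.Agent.RieszWin
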