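import Pool.Agent.RieszWin.CTest

set_option autoImplicit false

open Real Finset

namespace Pool.Agent.RieszWin

open Pool.Agent.RieszSmall Pool.Agent.RieszLin Pool.Agent.RieszTr

namespace CAsyAAux

open FactsAux

/-- `t ≤ exp t / 2` -/
theorem two_mul_le_exp (t : ℝ) : 2 * t ≤ Real.exp t := by
  rcases le_or_gt t 0 with h | h
  · have := Real.exp_pos t
    linarith
  · have := Real.quadratic_le_exp_of_nonneg h.le
    nlinarith [sq_nonneg (t - 1)]

/-- `exp t - 1 ≤ t exp t` -/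
theorem exp_sub_one_le (t : ℝ) : Real.exp t - 1 ≤ t * Real.exp t := by
  have h1 := Real.add_one_le_exp (-t)
  have h2 := Real.exp_pos t
  have h3 : Real.exp (-t) * Real.exp t = 1 := by
    rw [← Real.exp_add]
    simp
  nlinarith

/-- `Y (Y^(-1/p) - 1) ≤ 1/(2 q)` -/
theorem Ya_le {q Y : ℝ} (hq : 0 < q) (hY : 0 < Y) :
    (Y ^ (-(1 / (q + 1))) - 1) * Y ≤ 1 / (2 * q) := by
  have hp : 0 < q + 1 := by linarith
  rw [rpow_eq hY]
  set t : ℝ := -Real.log Y / (q + 1) with ht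
  have hYt : Y = Real.exp (-((q + 1) * t)) := by
    have : (q + 1) * t = -Real.log Y := by
      rw [ht]
      field_simp
    rw [this, neg_neg, Real.exp_log hY]
  have h1 := exp_sub_one_le t
  have h2 : (Real.exp t - 1) * Y ≤ t * Real.exp t * Y := mul_le_mul_of_nonneg_right h1 hY.le
  refine h2.trans ?_
  have h3 : Real.exp t * Y = Real.exp (-(q * t)) := by
    rw [hYt, ← Real.exp_add]
    congr 1
    ring
  rw [mul_assoc, h3]
  have h4 := two_mul_le_exp (q * t)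
  have h5 : Real.exp (q * t) * Real.exp (-(q * t)) = 1 := by
    rw [← Real.exp_add]
    simp
  have h6 := Real.exp_pos (-(q * t))
  rw [le_div_iff₀ (by linarith)]
  nlinarith

theorem Ya_pos {q Y : ℝ} (hq : 0 < q) (hY : 0 < Y) (hY1 : Y < 1) :
    0 < (Y ^ (-(1 / (q + 1))) - 1) * Y := by
  have hp : 0 < q + 1 := by linarith
  have h1 : 1 < Y ^ (-(1 / (q + 1))) := by
    apply Real.one_lt_rpow_of_pos_of_lt_one_of_neg hY hY1
    have : 0 < 1 / (q + 1) := by positivity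
    linarith
  exact mul_pos (by linarith) hY

/-- basic data -/
structure Dat (u q m κ x : ℝ) : Prop where
  x0 : 0 < x
  xq : κ * x ≤ 2 / q
  xe : x = 1 - (m - 3) * (κ ^ (-(1 / (q + 1))) - 1)

theorem x_pos {u q m κ Y A : ℝ} (h : Rg u q m) (hs : Sqr q m κ Y A) :
    0 < 1 - (m - 3) * (κ ^ (-(1 / (q + 1))) - 1) := by
  have h1 := Ya_pos (q_pos h.win) hs.hY hs.hY1
  have h2 := hs.e3
  by_contra hc
  have h3 : κ * (1 - (m - 3) * (κ ^ (-(1 / (q + 1))) - 1)) ≤ 0 :=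
    mul_nonpos_of_nonneg_of_nonpos hs.hk.le (not_lt.1 hc)
  nlinarith

theorem kx_le {u q m κ Y A : ℝ} (h : Rg u q m) (hs : Sqr q m κ Y A) :
    κ * (1 - (m - 3) * (κ ^ (-(1 / (q + 1))) - 1)) ≤ 2 / q := by
  have h1 := Ya_le (q_pos h.win) hs.hY
  have h2 := hs.e3
  have h3 := q_pos h.win
  have h4 : 2 / q = 4 * (1 / (2 * q)) := by
    field_simp
    norm_num
  rw [← h2, h4]
  linarith

end CAsyAAux

open CAsyAAux FactsAux

section

variable {u q m κ Y A : ℝ}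

/-- MODULE RW63 (first estimates for the square constants). `p = q+1`, `w = -log Y > 0`,
`α = Y^(-1/p) - 1 = exp(w/p) - 1 > 0`, `γ = κ^(-1/p) - 1`, `x = 1 - (m-3) γ`; `Sqr.e3` is
`κ x = 4 Y α`. So `x > 0`, `γ < 1/(m-3)`, `κ > (1 + 1/(m-3))^(-p) = ((m-3)/(m-2))^p
= ((m-1)/m)^p (1 - 2/((m-1)(m-2)))^p ≥ K₀ (1 - 3 u^4/m)` (Bernoulli, `p ≤ 1.001 m u^4`). -/
theorem Rg.kap_ge (h : Rg u q m) (hs : Sqr q m κ Y A) : K0 q m * (1 - 3 * u ^ 4 / m) ≤ κ := by
  have hm : (10 : ℝ) ^ 30 ≤ m := m_big h.win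
  have hm4 : (1000 : ℝ) ≤ m := le_trans (by norm_num) hm
  have hU := U_pos h.win
  have hq := q_pos h.win
  have hp : 0 < q + 1 := by linarith
  have hq1 : 1 ≤ q + 1 := by linarith
  have hx := x_pos h hs
  have hk := hs.hk
  have hpn : (q + 1) ≠ 0 := hp.ne'
  -- `κ^(-1/p) < (m-2)/(m-3)`
  have h1 : κ ^ (-(1 / (q + 1))) < (m - 2) / (m - 3) := by
    rw [lt_div_iff₀ (by linarith)]
    nlinarith
  have h2 : ((m - 3) / (m - 2)) ^ (q + 1) ≤ κ := by
    have h3 : (m - 3) / (m - 2) ≤ κ ^ (1 / (q + 1)) := by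
      rw [Real.rpow_neg hk.le] at h1
      have h4 : 0 < κ ^ (1 / (q + 1)) := Real.rpow_pos_of_pos hk _
      rw [inv_lt_iff_one_lt_mul₀ h4, mul_comm, ← mul_div_assoc, lt_div_iff₀ (by linarith)] at h1
      rw [div_le_iff₀ (by linarith)]
      linarith
    have h5 : 0 ≤ (m - 3) / (m - 2) := div_nonneg (by linarith) (by linarith)
    have h6 := Real.rpow_le_rpow h5 h3 hp.le
    rwa [← Real.rpow_mul hk.le, one_div_mul_cancel hpn, Real.rpow_one] at h6
  refine le_trans ?_ h2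
  have h7 : (m - 3) / (m - 2) = (1 - 1 / m) * (1 + -(2 / ((m - 1) * (m - 2)))) := by
    have a1 : m - 1 ≠ 0 := by linarith
    have a2 : m - 2 ≠ 0 := by linarith
    have a3 : m ≠ 0 := by linarith
    field_simp
    ring
  have h8 : (0 : ℝ) ≤ 1 - 1 / m := by
    have : 1 / m ≤ 1 := by
      rw [div_le_one (by linarith)]
      linarith
    linarith
  have h9 : 2 / ((m - 1) * (m - 2)) ≤ 1 := by
    rw [div_le_one (by nlinarith)]
    nlinarith
  rw [h7, Real.mul_rpow h8 (by linarith), K0]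
  refine mul_le_mul_of_nonneg_left ?_ (Real.rpow_nonneg h8 _)
  have h10 := one_add_mul_self_le_rpow_one_add (show -1 ≤ -(2 / ((m - 1) * (m - 2))) by linarith) hq1
  refine le_trans ?_ h10
  have h11 : (q + 1) * (2 / ((m - 1) * (m - 2))) ≤ 3 * u ^ 4 / m := by
    rw [mul_div_assoc', div_le_div_iff₀ (by nlinarith) (by linarith)]
    have h12 := h.win.phi
    have h13 : (q + 1) * 2 * m ≤ 1001 / 1000 * (m * u ^ 4) * 2 * m := by
      have : 0 ≤ 2 * m := by linarith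
      nlinarith
    refine h13.trans ?_
    have h14 : 2002 / 1000 * m ^ 2 ≤ 3 * ((m - 1) * (m - 2)) := by nlinarith
    nlinarith
  linarith

/-- `Y α = e^(-w)(e^(w/p) - 1) ≤ (w/p) e^(-w (1 - 1/p)) ≤ 1/(2 p)` (`t e^(-t) ≤ 1/e`), so
`x = 4 Y α/κ ≤ 2/(p κ) ≤ 5/u³` (`p κ ≥ 0.99 (p/m)(m K₀) ≥ 0.98 u³`). -/
theorem Rg.x_le (h : Rg u q m) (hs : Sqr q m κ Y A) :
    0 < 1 - (m - 3) * (κ ^ (-(1 / (q + 1))) - 1) ∧
      1 - (m - 3) * (κ ^ (-(1 / (q + 1))) - 1) ≤ 5 / u ^ 3 := by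
  refine ⟨x_pos h hs, ?_⟩
  have h1 := kx_le h hs
  have h2 := h.kap_ge hs
  have hx := x_pos h hs
  set x := 1 - (m - 3) * (κ ^ (-(1 / (q + 1))) - 1) with hxd
  have hm : (10 : ℝ) ^ 30 ≤ m := m_big h.win
  have hm4 : (1000 : ℝ) ≤ m := le_trans (by norm_num) hm
  have hm0 : 0 < m := by linarith
  have hU := U_pos h.win
  have hu := u_pos h.win
  have hq := q_pos h.win
  have hK0 := h.win.hk
  -- `3 U / m ≤ 1/2`
  have h3 : 3 * u ^ 4 / m ≤ 1 / 2 := by
    rw [div_le_iff₀ hm0, h.win.hm]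
    have h4 := Real.quadratic_le_exp_of_nonneg hU.le
    have h5 := U_ge h.win
    have h6 : (1000 : ℝ) ≤ u ^ 4 := le_trans (by norm_num) h5
    nlinarith
  have h7 : K0 q m / 2 ≤ κ := by nlinarith
  -- `q κ ≥ 0.49 u³`
  have h8 : 1 ≤ m * K0 q m * u := by
    have := h.lo
    rwa [div_le_iff₀ hu] at this
  have h9 : 999 / 2000 * u ^ 3 ≤ q * κ := by
    have h10 := h.win.plo
    have h11 : q * κ ≥ 999 / 1000 * (m * u ^ 4) * (K0 q m / 2) := by
      apply mul_le_mul h10 h7 (by positivity) hq.le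
    have h12 : 999 / 1000 * (m * u ^ 4) * (K0 q m / 2) = 999 / 2000 * u ^ 3 * (m * K0 q m * u) := by
      ring
    have h13 : 0 < u ^ 3 := by positivity
    nlinarith
  rw [le_div_iff₀ (by positivity)]
  have h14 : q * (κ * x) ≤ 2 := by
    have := mul_le_mul_of_nonneg_left h1 hq.le
    rwa [mul_div_cancel₀ _ hq.ne'] at this
  have h15 : (q * κ) * x ≤ 2 := by linarith
  nlinarith

theorem CAsyAAux.gam (h : Rg u q m) (hs : Sqr q m κ Y A) :
    ∃ γ : ℝ, 0 < γ ∧ 1 - (m - 3) * (κ ^ (-(1 / (q + 1))) - 1) = 1 - (m - 3) * γ ∧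
      el κ = (q + 1) * Real.log (1 + γ) ∧ 1 - (m - 3) * γ ≤ 1 / 1000 := by
  have hm : (10 : ℝ) ^ 30 ≤ m := m_big h.win
  have hm4 : (1000 : ℝ) ≤ m := le_trans (by norm_num) hm
  have hq := q_pos h.win
  have hk := hs.hk
  have hu := u_pos h.win
  have hx := (h.x_le hs).2
  have h5 : 5 / u ^ 3 ≤ 1 / 1000 := by
    rw [div_le_div_iff₀ (by positivity) (by norm_num)]
    have h1 := u20 h.win
    have h2 : ((10 : ℝ) ^ 20) ^ 3 ≤ u ^ 3 := pow_le_pow_left₀ (by positivity) h1 3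
    have h3 : (5 * 1000 : ℝ) ≤ ((10 : ℝ) ^ 20) ^ 3 := by norm_num
    linarith
  refine ⟨κ ^ (-(1 / (q + 1))) - 1, ?_, rfl, ?_, hx.trans h5⟩
  · have : 999 / 1000 ≤ (m - 3) * (κ ^ (-(1 / (q + 1))) - 1) := by linarith
    by_contra hc
    have h7 : (m - 3) * (κ ^ (-(1 / (q + 1))) - 1) ≤ 0 :=
      mul_nonpos_of_nonneg_of_nonpos (by linarith) (not_lt.1 hc)
    linarith
  · rw [add_sub_cancel, Real.log_rpow hk, el]
    field_simp

theorem CAsyAAux.K0_el (h : Rg u q m) :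
    (q + 1) / m ≤ el (K0 q m) ∧ el (K0 q m) ≤ (q + 1) / (m - 1) := by
  have hm : (10 : ℝ) ^ 30 ≤ m := m_big h.win
  have hm4 : (1000 : ℝ) ≤ m := le_trans (by norm_num) hm
  have hm0 : 0 < m := by linarith
  have hq := q_pos h.win
  have hp : 0 < q + 1 := by linarith
  have h1 : 0 < 1 - 1 / m := by
    have : 1 / m < 1 := by
      rw [div_lt_one hm0]
      linarith
    linarith
  have h2 := Real.log_le_sub_one_of_pos h1
  have h3 := Real.one_sub_inv_le_log_of_pos h1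
  rw [el, K0, Real.log_rpow h1]
  have h4 : 1 - (1 - 1 / m)⁻¹ = -(1 / (m - 1)) := by
    have a1 : m - 1 ≠ 0 := by linarith
    have a3 : m ≠ 0 := by linarith
    have a4 : (1 - 1 / m) = (m - 1) / m := by
      field_simp
    rw [a4, inv_div]
    field_simp
    ring
  rw [h4] at h3
  constructor
  · have h5 : (q + 1) / m = (q + 1) * (1 / m) := by ring
    rw [h5]
    nlinarith
  · have h5 : (q + 1) / (m - 1) = (q + 1) * (1 / (m - 1)) := by ring
    rw [h5]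
    nlinarith

/-- `el κ = p log(1+γ)`, `γ = (1-x)/(m-3)`, `el K₀ = -p log(1-1/m)`; `γ - γ²/2 ≤ log(1+γ) ≤ γ`,
`1/m ≤ -log(1-1/m) ≤ 1/m + 1/m²`: so `|(el K₀ - el κ) - (p/m) x| ≤ 10 u^4/m`. -/
theorem Rg.el_diff (h : Rg u q m) (hs : Sqr q m κ Y A) :
    |(el (K0 q m) - el κ) - (q + 1) / m * (1 - (m - 3) * (κ ^ (-(1 / (q + 1))) - 1))|
      ≤ 10 * u ^ 4 / m := by
  obtain ⟨γ, hg, hgx, hel, hx1⟩ := CAsyAAux.gam h hs
  obtain ⟨hK1, hK2⟩ := CAsyAAux.K0_el h
  have hx0 := x_pos h hs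
  rw [hgx] at hx0 ⊢
  rw [hel]
  have hm : (10 : ℝ) ^ 30 ≤ m := m_big h.win
  have hm4 : (1000 : ℝ) ≤ m := le_trans (by norm_num) hm
  have hm0 : 0 < m := by linarith
  have hq := q_pos h.win
  have hp : 0 < q + 1 := by linarith
  have hU := U_pos h.win
  have hphi := h.win.phi
  have h1g : 0 < 1 + γ := by linarith
  have hl1 : Real.log (1 + γ) ≤ γ := by
    have := Real.log_le_sub_one_of_pos h1g
    linarith
  have hl2 : γ / (1 + γ) ≤ Real.log (1 + γ) := by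
    have := Real.one_sub_inv_le_log_of_pos h1g
    have h2 : γ / (1 + γ) = 1 - (1 + γ)⁻¹ := by
      field_simp
      ring
    rw [h2]
    exact this
  -- p / m ≤ 1.001 U
  have hpm : (q + 1) / m ≤ 1001 / 1000 * u ^ 4 := by
    rw [div_le_iff₀ hm0]
    linarith
  have hpm0 : 0 < (q + 1) / m := by positivity
  have hgm : γ < 1 / (m - 3) := by
    rw [lt_div_iff₀ (by linarith)]
    linarith
  rw [abs_le]
  constructor
  · -- lower: (el K0 - p log(1+γ)) - (p/m) x ≥ p/m - p γ - (p/m) x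
    have e1 : (q + 1) * Real.log (1 + γ) ≤ (q + 1) * γ := mul_le_mul_of_nonneg_left hl1 hp.le
    have e2 : (q + 1) / m - (q + 1) * γ - (q + 1) / m * (1 - (m - 3) * γ) =
        -((q + 1) / m * (3 * γ)) := by
      field_simp
      ring
    have e3 : (q + 1) / m * (3 * γ) ≤ 1001 / 1000 * u ^ 4 * (3 * (1 / (m - 3))) := by
      apply mul_le_mul hpm (by linarith) (by linarith) (by positivity)
    have e4 : 1001 / 1000 * u ^ 4 * (3 * (1 / (m - 3))) ≤ 10 * u ^ 4 / m := by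
      have : 1001 / 1000 * u ^ 4 * (3 * (1 / (m - 3))) = (3003 / 1000 * u ^ 4) / (m - 3) := by
        ring
      rw [this, div_le_div_iff₀ (by linarith) hm0]
      nlinarith
    linarith
  · have e1 : (q + 1) * (γ / (1 + γ)) ≤ (q + 1) * Real.log (1 + γ) :=
      mul_le_mul_of_nonneg_left hl2 hp.le
    -- γ/(1+γ) ≥ (m-3) γ / m
    have e2 : (m - 3) * γ / m ≤ γ / (1 + γ) := by
      rw [div_le_div_iff₀ hm0 h1g]
      have e3 : (m - 3) * (1 + γ) ≤ m := by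
        have : (m - 3) * γ < 1 := by linarith
        linarith
      nlinarith
    have e3 : (q + 1) * ((m - 3) * γ / m) ≤ (q + 1) * (γ / (1 + γ)) :=
      mul_le_mul_of_nonneg_left e2 hp.le
    have e4 : (q + 1) / (m - 1) - (q + 1) * ((m - 3) * γ / m) - (q + 1) / m * (1 - (m - 3) * γ) =
        (q + 1) / m * (1 / (m - 1)) := by
      have a1 : m - 1 ≠ 0 := by linarith
      have a3 : m ≠ 0 := by linarith
      field_simp
      ring
    have e5 : (q + 1) / m * (1 / (m - 1)) ≤ 1001 / 1000 * u ^ 4 * (1 / (m - 1)) := by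
      apply mul_le_mul_of_nonneg_right hpm
      have : 0 < m - 1 := by linarith
      positivity
    have e6 : 1001 / 1000 * u ^ 4 * (1 / (m - 1)) ≤ 10 * u ^ 4 / m := by
      have : 1001 / 1000 * u ^ 4 * (1 / (m - 1)) = (1001 / 1000 * u ^ 4) / (m - 1) := by
        ring
      rw [this, div_le_div_iff₀ (by linarith) hm0]
      nlinarith
    linarith

/-- `el K₀ = p (-log(1-1/m)) ∈ [0.999 u^4, 1.0011 u^4]`, and
`|el K₀ - el κ| ≤ 1.001 u^4 · 5/u³ + 10 u^4/m`. -/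
theorem Rg.el_bds (h : Rg u q m) (hs : Sqr q m κ Y A) :
    9985 / 10000 * u ^ 4 ≤ el κ ∧ el κ ≤ 10015 / 10000 * u ^ 4 := by
  have h1 := abs_le.1 (h.el_diff hs)
  obtain ⟨hx0, hx1⟩ := h.x_le hs
  obtain ⟨hK1, hK2⟩ := CAsyAAux.K0_el h
  set x := 1 - (m - 3) * (κ ^ (-(1 / (q + 1))) - 1) with hxd
  have hm : (10 : ℝ) ^ 30 ≤ m := m_big h.win
  have hm4 : (1000000 : ℝ) ≤ m := le_trans (by norm_num) hm
  have hm0 : 0 < m := by linarith
  have hq := q_pos h.win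
  have hp : 0 < q + 1 := by linarith
  have hU := U_pos h.win
  have hu := u_pos h.win
  have hphi := h.win.phi
  have hplo := h.win.plo
  have hpm : (q + 1) / m ≤ 1001 / 1000 * u ^ 4 := by
    rw [div_le_iff₀ hm0]
    linarith
  have hpm1 : 999 / 1000 * u ^ 4 ≤ (q + 1) / m := by
    rw [le_div_iff₀ hm0]
    linarith
  have hpm2 : (q + 1) / (m - 1) ≤ 10011 / 10000 * u ^ 4 := by
    rw [div_le_iff₀ (by linarith)]
    nlinarith
  have h5 : 5 / u ^ 3 ≤ 1 / 100000 := by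
    rw [div_le_div_iff₀ (by positivity) (by norm_num)]
    have h1 := u20 h.win
    have h2 : ((10 : ℝ) ^ 20) ^ 3 ≤ u ^ 3 := pow_le_pow_left₀ (by positivity) h1 3
    have h3 : (5 * 100000 : ℝ) ≤ ((10 : ℝ) ^ 20) ^ 3 := by norm_num
    linarith
  have h6 : x ≤ 1 / 100000 := hx1.trans h5
  have h7 : (q + 1) / m * x ≤ 1001 / 1000 * u ^ 4 * (1 / 100000) :=
    mul_le_mul hpm h6 hx0.le (by positivity)
  have h8 : 0 ≤ (q + 1) / m * x := by positivity
  have h9 : 10 * u ^ 4 / m ≤ 1 / 100000 * u ^ 4 := by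
    rw [div_le_iff₀ hm0]
    nlinarith
  constructor
  · linarith [h1.1, h1.2]
  · linarith [h1.1, h1.2]

end

end Pool.Agent.RieszWin
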