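import Pool.Agent.RieszWin.CAsyA

set_option autoImplicit false

open Real Finset

namespace Pool.Agent.RieszWin

open Pool.Agent.RieszSmall Pool.Agent.RieszLin Pool.Agent.RieszTr

section

variable {u q m κ Y A : ℝ}

namespace CAsyBAux

theorem rpow_eq {Z p : ℝ} (hZ : 0 < Z) : Z ^ (-(1 / p)) = Real.exp (-Real.log Z / p) := by
  rw [Real.rpow_def_of_pos hZ]
  congr 1
  ring

theorem exp_sub_one_le {x : ℝ} : Real.exp x - 1 ≤ x * Real.exp x := by
  have h1 := Real.one_sub_le_exp_neg x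
  have h2 : Real.exp x * Real.exp (-x) = 1 := by rw [← Real.exp_add, add_neg_cancel, Real.exp_zero]
  have h3 := mul_le_mul_of_nonneg_left h1 (Real.exp_pos x).le
  rw [h2] at h3
  linarith

theorem le_one_sub_exp {y : ℝ} (hy : 0 ≤ y) : y * (1 - y / 2) ≤ 1 - Real.exp (-y) := by
  have h1 := Real.quadratic_le_exp_of_nonneg hy
  have h2 : Real.exp y * Real.exp (-y) = 1 := by rw [← Real.exp_add, add_neg_cancel, Real.exp_zero]
  have h3 := Real.exp_pos (-y)
  have h4 : (1 + y + y ^ 2 / 2) * Real.exp (-y) ≤ 1 := by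
    calc (1 + y + y ^ 2 / 2) * Real.exp (-y) ≤ Real.exp y * Real.exp (-y) :=
          mul_le_mul_of_nonneg_right h1 h3.le
      _ = 1 := h2
  have h5 : 0 < 1 + y + y ^ 2 / 2 := by positivity
  have h6 : Real.exp (-y) ≤ 1 / (1 + y + y ^ 2 / 2) := by
    rw [le_div_iff₀ h5]
    linarith
  have h7 : 1 / (1 + y + y ^ 2 / 2) ≤ 1 - y + y ^ 2 / 2 := by
    rw [div_le_iff₀ h5]
    nlinarith [sq_nonneg (y ^ 2)]
  nlinarith

theorem exp_le_inv {t : ℝ} (ht : t < 1) : Real.exp t ≤ 1 / (1 - t) := by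
  have h1 := Real.one_sub_le_exp_neg t
  have h2 : Real.exp t * Real.exp (-t) = 1 := by rw [← Real.exp_add, add_neg_cancel, Real.exp_zero]
  rw [le_div_iff₀ (by linarith)]
  calc Real.exp t * (1 - t) ≤ Real.exp t * Real.exp (-t) :=
        mul_le_mul_of_nonneg_left h1 (Real.exp_pos t).le
    _ = 1 := h2

structure Fc (u q m : ℝ) : Prop where
  u200 : (10 : ℝ) ^ 200 ≤ u
  u0 : 0 < u
  m60 : u ^ 60 ≤ m
  m0 : 0 < m
  m10 : (10 : ℝ) ^ 10 ≤ m
  p1 : 999 / 1000 * (m * u ^ 4) ≤ q + 1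
  p2 : q + 1 ≤ 1001 / 1000 * (m * u ^ 4)
  p0 : 0 < q + 1

theorem fc (h : Rg u q m) : Fc u q m := by
  obtain ⟨h1, h2, h3, -, -⟩ := h.win.pos
  obtain ⟨h4, h5, h6⟩ := h.win.big
  refine ⟨h.win.hu, h1, ?_, h2, ?_, ?_, h.win.phi, by linarith⟩
  · rw [h.win.hm]
    refine h5.trans (Real.exp_le_exp.2 ?_)
    have : 0 < u ^ 4 := by positivity
    linarith
  · exact le_trans (pow_le_pow_right₀ (by norm_num) (by norm_num)) h6
  · have := h.win.plo
    linarith

/-- `u^4 ≥ 10^10` -/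
theorem Fc.u4 (F : Fc u q m) : (10 : ℝ) ^ 10 ≤ u ^ 4 := by
  have h1 : (10 : ℝ) ^ 10 ≤ u := le_trans (by norm_num) F.u200
  have h2 : (1 : ℝ) ≤ u := le_trans (by norm_num) F.u200
  exact h1.trans (le_self_pow₀ h2 (by norm_num))

/-- `u^k / m` is tiny -/
theorem Fc.small (F : Fc u q m) : 10 * u ^ 4 / m ≤ 1 / (10 * u ^ 3) := by
  have h1 : (1 : ℝ) ≤ u := le_trans (by norm_num) F.u200
  have hu := F.u0
  rw [div_le_div_iff₀ F.m0 (by positivity)]
  have h2 : (100 : ℝ) ≤ u := le_trans (by norm_num) F.u200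
  calc 10 * u ^ 4 * (10 * u ^ 3) = 100 * u ^ 7 := by ring
    _ ≤ u * u ^ 7 := by gcongr
    _ = u ^ 8 := by ring
    _ ≤ u ^ 60 := pow_le_pow_right₀ h1 (by norm_num)
    _ ≤ m := F.m60
    _ = 1 * m := (one_mul m).symm

end CAsyBAux

/-- MODULE RW64 (the relation between the constants). `w = -log Y > 0`. `Sqr.e1`:
`2 Y² = κ A (1 + 2^(-p))`. `Sqr.e2`: `1 - A^(-1/p) = (m-2) κ α/(4 Y) > 0`, so `A > 1`. -/
theorem Rg.logA (h : Rg u q m) (hs : Sqr q m κ Y A) :
    0 < -Real.log Y ∧ 0 < Real.log A ∧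
      Real.log A = el κ - 2 * -Real.log Y + Real.log 2 - Real.log (1 + (2 : ℝ) ^ (-(q + 1))) := by
  have F := CAsyBAux.fc h
  have hw : 0 < -Real.log Y := by
    have := Real.log_neg hs.hY hs.hY1
    linarith
  have hp := F.p0
  have e2 := hs.e2
  rw [CAsyBAux.rpow_eq hs.hY, CAsyBAux.rpow_eq hs.hA] at e2
  refine ⟨hw, ?_, ?_⟩
  · by_contra hcon
    have h1 : 0 ≤ -Real.log A / (q + 1) := div_nonneg (by linarith) hp.le
    have h2 : 1 ≤ Real.exp (-Real.log A / (q + 1)) := Real.one_le_exp h1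
    have h3 : 0 < -Real.log Y / (q + 1) := div_pos hw hp
    have h4 : 1 < Real.exp (-Real.log Y / (q + 1)) := Real.one_lt_exp_iff.2 h3
    have h5 : 0 < (m - 2) * κ * (Real.exp (-Real.log Y / (q + 1)) - 1) := by
      have h6 : 0 < m - 2 := by
        have := F.m10
        have h7 : (2 : ℝ) < (10 : ℝ) ^ 10 := by norm_num
        linarith
      have := hs.hk
      have h8 : 0 < Real.exp (-Real.log Y / (q + 1)) - 1 := by linarith
      positivity
    have h6 : 4 * Y * (1 - Real.exp (-Real.log A / (q + 1))) ≤ 0 := by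
      have := hs.hY
      nlinarith
    linarith
  · have h2 : (0 : ℝ) < 1 + (2 : ℝ) ^ (-(q + 1)) := by positivity
    have hk := hs.hk
    have hA := hs.hA
    have hY := hs.hY
    have e1 : 2 * Y ^ 2 = κ * (A * (1 + (2 : ℝ) ^ (-(q + 1)))) := by
      rw [hs.e1]
      ring
    have h3 := congrArg Real.log e1
    rw [Real.log_mul (by norm_num) (by positivity), Real.log_pow,
      Real.log_mul hk.ne' (by positivity), Real.log_mul hA.ne' h2.ne'] at h3
    unfold el
    push_cast at h3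
    linarith

/-- bounds of `w` and `log A` -/
theorem CAsyBAux.wL (h : Rg u q m) (hs : Sqr q m κ Y A) :
    -Real.log Y ≤ 6 / 10 * u ^ 4 ∧ Real.log A ≤ 1002 / 1000 * u ^ 4 ∧
      9984 / 10000 * u ^ 4 - 2 * -Real.log Y ≤ Real.log A := by
  have F := CAsyBAux.fc h
  obtain ⟨h1, h2, h3⟩ := h.logA hs
  obtain ⟨h4, h5⟩ := h.el_bds hs
  have h6 : 0 < (2 : ℝ) ^ (-(q + 1)) := by positivity
  have h7 : 0 ≤ Real.log (1 + (2 : ℝ) ^ (-(q + 1))) := Real.log_nonneg (by linarith)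
  have h8 : Real.log (1 + (2 : ℝ) ^ (-(q + 1))) ≤ 1 := by
    have h9 : (2 : ℝ) ^ (-(q + 1)) ≤ 1 := by
      apply Real.rpow_le_one_of_one_le_of_nonpos (by norm_num)
      linarith [F.p0]
    have h10 := Real.log_le_sub_one_of_pos (show (0 : ℝ) < 1 + (2 : ℝ) ^ (-(q + 1)) by positivity)
    linarith
  have h9 := Real.log_two_lt_d9
  have h10 := Real.log_two_gt_d9
  have h11 := F.u4
  have h12 : (10 : ℝ) ^ 10 = 10000000000 := by norm_num
  rw [h12] at h11
  refine ⟨by linarith, by linarith, by linarith⟩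

/-- `Sqr.e2`: `(m-2) κ α = 4 Y ω`, `w/p ≤ α = e^(w/p) - 1 ≤ (w/p) e^(w/p)`,
`(log A/p)(1 - log A/(2p)) ≤ ω = 1 - exp(-log A/p) ≤ log A/p`; `2 w ≤ el κ + 1`, `log A ≤ el κ + 1`,
so `w/p`, `log A/(2p) ≤ 1/m`. -/
theorem Rg.relA (h : Rg u q m) (hs : Sqr q m κ Y A) :
    -Real.log Y * (m * κ) ≤ 4 * Y * Real.log A * (1 + 3 / m) ∧
      4 * Y * Real.log A ≤ -Real.log Y * (m * κ) * (1 + 4 / m) := by
  have F := CAsyBAux.fc h
  obtain ⟨hw, hL, -⟩ := h.logA hs
  obtain ⟨b1, b2, -⟩ := CAsyBAux.wL h hs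
  have hp := F.p0
  have hp1 := F.p1
  have hm := F.m0
  have hm10 := F.m10
  have h12 : (10 : ℝ) ^ 10 = 10000000000 := by norm_num
  rw [h12] at hm10
  have hu4 : 0 < u ^ 4 := by
    have := F.u0
    positivity
  have hk := hs.hk
  have hY := hs.hY
  have e2 := hs.e2
  rw [CAsyBAux.rpow_eq hs.hY, CAsyBAux.rpow_eq hs.hA] at e2
  set w := -Real.log Y with hwdef
  set L := Real.log A with hLdef
  set p := q + 1 with hpdef
  have x1 : w / p ≤ 1 / m := by
    rw [div_le_div_iff₀ hp hm]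
    nlinarith
  have x2 : L / p ≤ 2 / m := by
    rw [div_le_div_iff₀ hp hm]
    nlinarith
  have x3 : 0 < w / p := div_pos hw hp
  have x4 : 0 < L / p := div_pos hL hp
  have a1 : w / p ≤ Real.exp (w / p) - 1 := by
    have := Real.add_one_le_exp (w / p)
    linarith
  have a2 := CAsyBAux.exp_sub_one_le (x := w / p)
  have o1 : 1 - Real.exp (-L / p) ≤ L / p := by
    have := Real.add_one_le_exp (-L / p)
    have e : -L / p = -(L / p) := by ring
    rw [e] at this ⊢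
    linarith
  have o2 : L / p * (1 - L / p / 2) ≤ 1 - Real.exp (-L / p) := by
    have e : -L / p = -(L / p) := by ring
    rw [e]
    exact CAsyBAux.le_one_sub_exp x4.le
  have hm2 : 0 < m - 2 := by linarith
  have hi : 1 / m ≤ 1 / 10000000000 := one_div_le_one_div_of_le (by norm_num) hm10
  have hi0 : 0 < 1 / m := by positivity
  have hmi : m * (1 / m) = 1 := mul_one_div_cancel hm.ne'
  set i := 1 / m with hidef
  have d3 : 3 / m = 3 * i := by rw [hidef]; ring
  have d4 : 4 / m = 4 * i := by rw [hidef]; ring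
  have d2 : 2 / m = 2 * i := by rw [hidef]; ring
  rw [d2] at x2
  rw [d3, d4]
  constructor
  · -- first inequality
    have h1 : (m - 2) * κ * (w / p) ≤ 4 * Y * (L / p) := by
      calc (m - 2) * κ * (w / p) ≤ (m - 2) * κ * (Real.exp (w / p) - 1) := by gcongr
        _ = 4 * Y * (1 - Real.exp (-L / p)) := e2
        _ ≤ 4 * Y * (L / p) := by gcongr
    have h2 : (m - 2) * κ * w ≤ 4 * Y * L := by
      have h3 := mul_le_mul_of_nonneg_right h1 hp.le
      have e3 : (m - 2) * κ * (w / p) * p = (m - 2) * κ * w := by field_simp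
      have e4 : 4 * Y * (L / p) * p = 4 * Y * L := by field_simp
      rwa [e3, e4] at h3
    have h5 : m ≤ (m - 2) * (1 + 3 * i) := by nlinarith
    calc w * (m * κ) ≤ w * ((m - 2) * (1 + 3 * i) * κ) := by gcongr
      _ = (m - 2) * κ * w * (1 + 3 * i) := by ring
      _ ≤ 4 * Y * L * (1 + 3 * i) := by gcongr
  · -- second inequality
    have hexp : Real.exp (w / p) ≤ 1 + 2 * i := by
      calc Real.exp (w / p) ≤ Real.exp i := Real.exp_le_exp.2 x1
        _ ≤ 1 / (1 - i) := CAsyBAux.exp_le_inv (by linarith)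
        _ ≤ 1 + 2 * i := by
            rw [div_le_iff₀ (by linarith)]
            nlinarith
    have h1 : 4 * Y * (L / p * (1 - i)) ≤ (m - 2) * κ * (w / p * (1 + 2 * i)) := by
      calc 4 * Y * (L / p * (1 - i)) ≤ 4 * Y * (L / p * (1 - L / p / 2)) := by
            have : 1 - i ≤ 1 - L / p / 2 := by linarith
            gcongr
        _ ≤ 4 * Y * (1 - Real.exp (-L / p)) := by gcongr
        _ = (m - 2) * κ * (Real.exp (w / p) - 1) := e2.symm
        _ ≤ (m - 2) * κ * (w / p * Real.exp (w / p)) := by gcongr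
        _ ≤ (m - 2) * κ * (w / p * (1 + 2 * i)) := by gcongr
    have h2 : 4 * Y * L * (1 - i) ≤ (m - 2) * κ * w * (1 + 2 * i) := by
      have h3 := mul_le_mul_of_nonneg_right h1 hp.le
      have e3 : (m - 2) * κ * (w / p * (1 + 2 * i)) * p = (m - 2) * κ * w * (1 + 2 * i) := by
        field_simp
      have e4 : 4 * Y * (L / p * (1 - i)) * p = 4 * Y * L * (1 - i) := by field_simp
      rwa [e3, e4] at h3
    have h6 : (m - 2) * (1 + 2 * i) ≤ m * (1 + 4 * i) * (1 - i) := by nlinarith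
    have h7 : 4 * Y * L * (1 - i) ≤ w * (m * κ) * (1 + 4 * i) * (1 - i) := by
      calc 4 * Y * L * (1 - i) ≤ (m - 2) * κ * w * (1 + 2 * i) := h2
        _ = κ * w * ((m - 2) * (1 + 2 * i)) := by ring
        _ ≤ κ * w * (m * (1 + 4 * i) * (1 - i)) := by gcongr
        _ = w * (m * κ) * (1 + 4 * i) * (1 - i) := by ring
    exact le_of_mul_le_mul_right h7 (by linarith)

/-- `m κ ≥ 99/(100 u)` -/
theorem CAsyBAux.mk_ge (h : Rg u q m) (hs : Sqr q m κ Y A) : 99 / 100 / u ≤ m * κ := by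
  have F := CAsyBAux.fc h
  have h1 := h.kap_ge hs
  have h2 := h.lo
  have h3 := F.small
  have hm := F.m0
  have hu := F.u0
  have h4 : (1 : ℝ) ≤ u := le_trans (by norm_num) F.u200
  have h5 : 1 / (10 * u ^ 3) ≤ 1 / 10 := by
    apply one_div_le_one_div_of_le (by norm_num)
    have : (1 : ℝ) ≤ u ^ 3 := one_le_pow₀ h4
    linarith
  have h6 : 3 * u ^ 4 / m ≤ 1 / 100 := by
    have e : 3 * u ^ 4 / m = 3 / 10 * (10 * u ^ 4 / m) := by ring
    have h7 : (100 : ℝ) ≤ u ^ 3 := by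
      have h8 : (100 : ℝ) ≤ u := le_trans (by norm_num) F.u200
      exact h8.trans (le_self_pow₀ h4 (by norm_num))
    have h9 : 1 / (10 * u ^ 3) ≤ 1 / 1000 := by
      apply one_div_le_one_div_of_le (by norm_num)
      linarith
    rw [e]
    linarith
  have hK0 := h.win.hk
  calc 99 / 100 / u = 1 / u * (99 / 100) := by ring
    _ ≤ (m * K0 q m) * (99 / 100) := by gcongr
    _ ≤ (m * K0 q m) * (1 - 3 * u ^ 4 / m) := by
        have : 0 < m * K0 q m := by positivity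
        gcongr
        linarith
    _ = m * (K0 q m * (1 - 3 * u ^ 4 / m)) := by ring
    _ ≤ m * κ := by gcongr

theorem CAsyBAux.one_le_log {u : ℝ} (hu : (10 : ℝ) ^ 200 ≤ u) : 1 ≤ Real.log u := by
  have hu0 : 0 < u := lt_of_lt_of_le (by positivity) hu
  rw [Real.le_log_iff_exp_le hu0]
  have h1 := Real.exp_one_lt_d9
  have h2 : (3 : ℝ) ≤ (10 : ℝ) ^ 200 := by norm_num
  linarith

/-- `w e^w = w/Y ≤ 4 log A (1 + 3/m)/(m κ) ≤ 4.1 u^5` (`m κ ≥ 0.99/u`). -/
theorem Rg.w_le (h : Rg u q m) (hs : Sqr q m κ Y A) : -Real.log Y ≤ 6 * Real.log u := by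
  have F := CAsyBAux.fc h
  obtain ⟨hw, hL, -⟩ := h.logA hs
  obtain ⟨-, b2, -⟩ := CAsyBAux.wL h hs
  obtain ⟨r1, -⟩ := h.relA hs
  have hmk := CAsyBAux.mk_ge h hs
  have hu := F.u0
  have hm := F.m0
  have hY := hs.hY
  have hlu := CAsyBAux.one_le_log F.u200
  by_contra hcon
  rw [not_le] at hcon
  -- `Y < u^(-6)`
  have hYlt : Y * u ^ 6 < 1 := by
    have h1 : Real.log (Y * u ^ 6) < Real.log 1 := by
      rw [Real.log_mul hY.ne' (by positivity), Real.log_pow, Real.log_one]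
      push_cast
      linarith
    exact (Real.log_lt_log_iff (by positivity) one_pos).1 h1
  have h3m : 3 / m ≤ 1 / 100 := by
    rw [div_le_div_iff₀ hm (by norm_num)]
    have := F.m10
    have h12 : (10 : ℝ) ^ 10 = 10000000000 := by norm_num
    rw [h12] at this
    linarith
  have h1 : 99 / 100 / u ≤ -Real.log Y * (m * κ) := by
    calc 99 / 100 / u ≤ m * κ := hmk
      _ = 1 * (m * κ) := (one_mul _).symm
      _ ≤ -Real.log Y * (m * κ) := by
          have : 0 < m * κ := mul_pos hm hs.hk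
          have h2 : 1 ≤ -Real.log Y := by linarith
          gcongr
  have h2 : 4 * Y * Real.log A * (1 + 3 / m) ≤ 5 * (Y * u ^ 4) := by
    calc 4 * Y * Real.log A * (1 + 3 / m) ≤ 4 * Y * (1002 / 1000 * u ^ 4) * (1 + 1 / 100) := by
          gcongr
      _ = (4 * (1002 / 1000) * (1 + 1 / 100)) * (Y * u ^ 4) := by ring
      _ ≤ 5 * (Y * u ^ 4) := by
          gcongr
          norm_num
  have h3 : 99 / 100 / u ≤ 5 * (Y * u ^ 4) := h1.trans (r1.trans h2)
  have h4 : 99 / 100 ≤ 5 * (Y * u ^ 4) * u := by rwa [div_le_iff₀ hu] at h3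
  have h5 : 99 / 100 * u ≤ 5 * (Y * u ^ 6) := by
    calc 99 / 100 * u ≤ 5 * (Y * u ^ 4) * u * u := by gcongr
      _ = 5 * (Y * u ^ 6) := by ring
  have h6 : (100 : ℝ) ≤ u := le_trans (by norm_num) F.u200
  linarith

/-- `log u` is small: `log u ≤ 6 u^(1/6)`. -/
theorem logu {u : ℝ} (hu : (10 : ℝ) ^ 200 ≤ u) :
    (6 * Real.log u) ^ 3 ≤ u / 10 ^ 9 ∧ 6 * Real.log u ≤ u / 10 ^ 9 ∧ 1 ≤ Real.log u := by
  have hu0 : 0 < u := lt_of_lt_of_le (by positivity) hu
  have h1 := CAsyBAux.one_le_log hu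
  have h2 : Real.log u ≤ u ^ (1 / 6 : ℝ) / (1 / 6) := Real.log_le_rpow_div hu0.le (by norm_num)
  have h3 : 6 * Real.log u ≤ 36 * u ^ (1 / 6 : ℝ) := by linarith
  have h4 : (6 * Real.log u) ^ 3 ≤ 46656 * u ^ (1 / 2 : ℝ) := by
    calc (6 * Real.log u) ^ 3 ≤ (36 * u ^ (1 / 6 : ℝ)) ^ 3 := by
          gcongr
      _ = 46656 * (u ^ (1 / 6 : ℝ)) ^ 3 := by ring
      _ = 46656 * u ^ (1 / 2 : ℝ) := by
          rw [← Real.rpow_natCast, ← Real.rpow_mul hu0.le]
          norm_num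
  have h5 : (10 : ℝ) ^ 100 ≤ u ^ (1 / 2 : ℝ) := by
    have h6 : ((10 : ℝ) ^ 200) ^ (1 / 2 : ℝ) = 10 ^ 100 := by
      rw [← Real.rpow_natCast, ← Real.rpow_mul (by norm_num), ← Real.rpow_natCast]
      norm_num
    rw [← h6]
    exact Real.rpow_le_rpow (by positivity) hu (by norm_num)
  have h6 : u ^ (1 / 2 : ℝ) * u ^ (1 / 2 : ℝ) = u := by
    rw [← Real.rpow_add hu0]
    norm_num
  have h7 : 0 < u ^ (1 / 2 : ℝ) := by positivity
  have h8 : (6 * Real.log u) ^ 3 ≤ u / 10 ^ 9 := by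
    rw [le_div_iff₀ (by positivity)]
    calc (6 * Real.log u) ^ 3 * 10 ^ 9 ≤ 46656 * u ^ (1 / 2 : ℝ) * 10 ^ 9 := by gcongr
      _ = (46656 * 10 ^ 9) * u ^ (1 / 2 : ℝ) := by ring
      _ ≤ u ^ (1 / 2 : ℝ) * u ^ (1 / 2 : ℝ) := by
          gcongr
          exact le_trans (by norm_num) h5
      _ = u := h6
  refine ⟨h8, ?_, h1⟩
  refine le_trans ?_ h8
  have h9 : 1 ≤ 6 * Real.log u := by linarith
  exact le_self_pow₀ h9 (by norm_num)

/-- `x = 4 Y α/κ`, `w/p ≤ α ≤ (w/p)(1 + 2/m)`, `4 Y/κ` is `w m/log A` up to a factor `1 ± 4/m`, and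
`log A ∈ [0.99 u^4, 1.002 u^4]`, `p/m ∈ [0.999 u^4, 1.001 u^4]`. -/
theorem Rg.x_bds (h : Rg u q m) (hs : Sqr q m κ Y A) :
    99 / 100 * (-Real.log Y) ^ 2 / u ^ 8 ≤ 1 - (m - 3) * (κ ^ (-(1 / (q + 1))) - 1) ∧
      1 - (m - 3) * (κ ^ (-(1 / (q + 1))) - 1) ≤ 1 / u ^ 7 := by
  have F := CAsyBAux.fc h
  obtain ⟨hw, hL, -⟩ := h.logA hs
  obtain ⟨b1, b2, b3⟩ := CAsyBAux.wL h hs
  obtain ⟨r1, r2⟩ := h.relA hs
  have hwle := h.w_le hs
  obtain ⟨l1, l2, l3⟩ := logu F.u200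
  have hu := F.u0
  have hm := F.m0
  have hp := F.p0
  have hp1 := F.p1
  have hp2 := F.p2
  have hk := hs.hk
  have hY := hs.hY
  have hm10 := F.m10
  have h12 : (10 : ℝ) ^ 10 = 10000000000 := by norm_num
  rw [h12] at hm10
  have e3 := hs.e3
  rw [CAsyBAux.rpow_eq hs.hY] at e3
  set x := 1 - (m - 3) * (κ ^ (-(1 / (q + 1))) - 1) with hxdef
  set w := -Real.log Y with hwdef
  set L := Real.log A with hLdef
  set p := q + 1 with hpdef
  have hu4 : 0 < u ^ 4 := by positivity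
  have hi : 1 / m ≤ 1 / 10000000000 := one_div_le_one_div_of_le (by norm_num) hm10
  have hi0 : 0 < 1 / m := by positivity
  set i := 1 / m with hidef
  have d3 : 3 / m = 3 * i := by rw [hidef]; ring
  have d4 : 4 / m = 4 * i := by rw [hidef]; ring
  rw [d3] at r1
  rw [d4] at r2
  have a1 : w / p ≤ Real.exp (w / p) - 1 := by
    have := Real.add_one_le_exp (w / p)
    linarith
  have a2 := CAsyBAux.exp_sub_one_le (x := w / p)
  have x1 : w / p ≤ i := by
    rw [hidef, div_le_div_iff₀ hp hm]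
    nlinarith
  have x3 : 0 < w / p := div_pos hw hp
  have hexp : Real.exp (w / p) ≤ 1 + 2 * i := by
    calc Real.exp (w / p) ≤ Real.exp i := Real.exp_le_exp.2 x1
      _ ≤ 1 / (1 - i) := CAsyBAux.exp_le_inv (by linarith)
      _ ≤ 1 + 2 * i := by
          rw [div_le_iff₀ (by linarith)]
          nlinarith
  -- bounds of `κ x p`
  have y1 : 4 * Y * w ≤ κ * x * p := by
    have h1 : 4 * (w / p) * Y ≤ κ * x := by
      rw [← e3]
      gcongr
    have h2 := mul_le_mul_of_nonneg_right h1 hp.le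
    have e : 4 * (w / p) * Y * p = 4 * Y * w := by field_simp
    rwa [e] at h2
  have y2 : κ * x * p ≤ 4 * Y * w * (1 + 2 * i) := by
    have h1 : κ * x ≤ 4 * (w / p * (1 + 2 * i)) * Y := by
      rw [← e3]
      have : Real.exp (w / p) - 1 ≤ w / p * (1 + 2 * i) := by
        refine a2.trans ?_
        gcongr
      gcongr
    have h2 := mul_le_mul_of_nonneg_right h1 hp.le
    have e : 4 * (w / p * (1 + 2 * i)) * Y * p = 4 * Y * w * (1 + 2 * i) := by field_simp
    rwa [e] at h2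
  have hmk : 0 < m * κ := mul_pos hm hk
  constructor
  · -- lower bound
    have h1 : w * (w * (m * κ)) ≤ (1 + 3 * i) * L * (κ * x * p) := by
      calc w * (w * (m * κ)) ≤ w * (4 * Y * L * (1 + 3 * i)) := by gcongr
        _ = (1 + 3 * i) * L * (4 * Y * w) := by ring
        _ ≤ (1 + 3 * i) * L * (κ * x * p) := by gcongr
    have hx0 : 0 < x := by
      by_contra hcon
      rw [not_lt] at hcon
      have h2 : κ * x * p ≤ 0 := by
        have : κ * x ≤ 0 := mul_nonpos_of_nonneg_of_nonpos hk.le hcon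
        exact mul_nonpos_of_nonpos_of_nonneg this hp.le
      have h3 : 0 < 4 * Y * w := by positivity
      linarith
    have h2 : w * (w * (m * κ)) ≤
        (1 + 3 * i) * (1002 / 1000 * u ^ 4) * (κ * x * (1001 / 1000 * (m * u ^ 4))) := by
      refine h1.trans ?_
      gcongr
    have h3 : (m * κ) * w ^ 2 ≤ (m * κ) * (100 / 99 * (x * u ^ 8)) := by
      calc (m * κ) * w ^ 2 = w * (w * (m * κ)) := by ring
        _ ≤ (1 + 3 * i) * (1002 / 1000 * u ^ 4) * (κ * x * (1001 / 1000 * (m * u ^ 4))) := h2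
        _ = (m * κ) * ((1 + 3 * i) * (1002 / 1000 * (1001 / 1000)) * (x * u ^ 8)) := by ring
        _ ≤ (m * κ) * (100 / 99 * (x * u ^ 8)) := by
            have : (1 + 3 * i) * (1002 / 1000 * (1001 / 1000)) ≤ 100 / 99 := by
              calc (1 + 3 * i) * (1002 / 1000 * (1001 / 1000))
                  ≤ (1 + 3 * (1 / 10000000000)) * (1002 / 1000 * (1001 / 1000)) := by gcongr
                _ ≤ 100 / 99 := by norm_num
            gcongr
    have h4 : w ^ 2 ≤ 100 / 99 * (x * u ^ 8) := le_of_mul_le_mul_left h3 hmk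
    rw [div_le_iff₀ (by positivity)]
    linarith
  · -- upper bound
    have hL2 : 99 / 100 * u ^ 4 ≤ L := by
      have h1 : u ≤ u ^ 4 := le_self_pow₀ (le_trans (by norm_num) F.u200) (by norm_num)
      have h2 : u / 10 ^ 9 ≤ u ^ 4 / 10 ^ 9 := by gcongr
      have h3 : 2 * w ≤ 2 * (u ^ 4 / 10 ^ 9) := by linarith
      have h4 : (10 : ℝ) ^ 9 = 1000000000 := by norm_num
      rw [h4] at h3
      linarith
    have h1 : κ * x * p * L ≤ w ^ 2 * (m * κ) * ((1 + 4 * i) * (1 + 2 * i)) := by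
      calc κ * x * p * L ≤ 4 * Y * w * (1 + 2 * i) * L := by gcongr
        _ = w * (1 + 2 * i) * (4 * Y * L) := by ring
        _ ≤ w * (1 + 2 * i) * (w * (m * κ) * (1 + 4 * i)) := by gcongr
        _ = _ := by ring
    have hx0 : 0 < x := by
      by_contra hcon
      rw [not_lt] at hcon
      have h2 : κ * x * p ≤ 0 := by
        have : κ * x ≤ 0 := mul_nonpos_of_nonneg_of_nonpos hk.le hcon
        exact mul_nonpos_of_nonpos_of_nonneg this hp.le
      have h3 : 0 < 4 * Y * w := by positivity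
      linarith
    have h2 : (m * κ) * (98 / 100 * (x * u ^ 8)) ≤ (m * κ) * (w ^ 2 * 2) := by
      calc (m * κ) * (98 / 100 * (x * u ^ 8))
          ≤ (m * κ) * ((999 / 1000 * (99 / 100)) * (x * u ^ 8)) := by
            gcongr
            norm_num
        _ = κ * x * (999 / 1000 * (m * u ^ 4)) * (99 / 100 * u ^ 4) := by ring
        _ ≤ κ * x * p * L := by gcongr
        _ ≤ w ^ 2 * (m * κ) * ((1 + 4 * i) * (1 + 2 * i)) := h1
        _ ≤ w ^ 2 * (m * κ) * 2 := by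
            have : (1 + 4 * i) * (1 + 2 * i) ≤ 2 := by nlinarith
            gcongr
        _ = (m * κ) * (w ^ 2 * 2) := by ring
    have h3 : 98 / 100 * (x * u ^ 8) ≤ w ^ 2 * 2 := le_of_mul_le_mul_left h2 hmk
    have h4 : w ^ 2 ≤ u / 10 ^ 9 := by
      have h5 : w ^ 2 ≤ (6 * Real.log u) ^ 2 := by gcongr
      have h6 : (6 * Real.log u) ^ 2 ≤ (6 * Real.log u) ^ 3 :=
        pow_le_pow_right₀ (by linarith) (by norm_num)
      linarith
    rw [le_div_iff₀ (by positivity)]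
    have h5 : x * u ^ 8 ≤ u := by
      have h7 : (10 : ℝ) ^ 9 = 1000000000 := by norm_num
      rw [h7] at h4
      linarith
    have h6 : x * u ^ 7 * u ≤ 1 * u := by
      calc x * u ^ 7 * u = x * u ^ 8 := by ring
        _ ≤ u := h5
        _ = 1 * u := (one_mul u).symm
    exact le_of_mul_le_mul_right h6 hu

/-- `Rg.el_diff`: `el K₀ - el κ ≤ 1.001 u^4/u^7 + 10 u^4/m ≤ 2/u³`. -/
theorem Rg.kap_le (h : Rg u q m) (hs : Sqr q m κ Y A) : κ ≤ K0 q m * (1 + 3 / u ^ 3) := by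
  have F := CAsyBAux.fc h
  obtain ⟨-, x2⟩ := h.x_bds hs
  have hd := (abs_le.1 (h.el_diff hs)).2
  have hsm := F.small
  have hu := F.u0
  have hm := F.m0
  have hp := F.p0
  have hp2 := F.p2
  have hk := hs.hk
  have hK0 := h.win.hk
  have h3 : (1000 : ℝ) ≤ u ^ 3 := by
    have h4 : (1 : ℝ) ≤ u := le_trans (by norm_num) F.u200
    have h5 : (1000 : ℝ) ≤ u := le_trans (by norm_num) F.u200
    exact h5.trans (le_self_pow₀ h4 (by norm_num))
  have h1 : (q + 1) / m * (1 - (m - 3) * (κ ^ (-(1 / (q + 1))) - 1)) ≤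
      1001 / 1000 * (1 / u ^ 3) := by
    have h5 : (q + 1) / m ≤ 1001 / 1000 * u ^ 4 := by
      rw [div_le_iff₀ hm]
      linarith
    calc (q + 1) / m * (1 - (m - 3) * (κ ^ (-(1 / (q + 1))) - 1))
        ≤ (q + 1) / m * (1 / u ^ 7) := by
          have : 0 < (q + 1) / m := by positivity
          gcongr
      _ ≤ 1001 / 1000 * u ^ 4 * (1 / u ^ 7) := by gcongr
      _ = 1001 / 1000 * (1 / u ^ 3) := by
          field_simp
  have h2 : 1 / (10 * u ^ 3) = 1 / 10 * (1 / u ^ 3) := by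
    field_simp
  rw [h2] at hsm
  set t := 1 / u ^ 3 with ht
  have ht0 : 0 < t := by positivity
  have ht1 : t ≤ 1 / 1000 := one_div_le_one_div_of_le (by norm_num) h3
  have h4 : el (K0 q m) - el κ ≤ 2 * t := by linarith
  unfold el at h4
  have h5 : Real.log κ ≤ Real.log (K0 q m) + 2 * t := by linarith
  have h6 : κ ≤ K0 q m * Real.exp (2 * t) := by
    calc κ = Real.exp (Real.log κ) := (Real.exp_log hk).symm
      _ ≤ Real.exp (Real.log (K0 q m) + 2 * t) := Real.exp_le_exp.2 h5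
      _ = K0 q m * Real.exp (2 * t) := by rw [Real.exp_add, Real.exp_log hK0]
  have h7 : Real.exp (2 * t) ≤ 1 + 3 * t := by
    refine (CAsyBAux.exp_le_inv (by linarith)).trans ?_
    rw [div_le_iff₀ (by linarith)]
    nlinarith
  have h8 : 3 / u ^ 3 = 3 * t := by rw [ht]; ring
  rw [h8]
  exact h6.trans (mul_le_mul_of_nonneg_left h7 hK0.le)

end

end Pool.Agent.RieszWin
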