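import Pool.Agent.RieszWin.Defs
import Pool.Agent.Riesz.PhiProp

set_option autoImplicit false

open Real Finset

namespace Pool.Agent.RieszWin

open Pool.Agent.RieszSmall Pool.Agent.RieszLin Pool.Agent.RieszTr

open Pool.Agent.Riesz (InDom om G)

namespace CStatAux

open Pool.Agent.Riesz (LL)

lemma hasDerivAt_G {β g : ℝ} (hg : g < 1) :
    HasDerivAt (G β) (β * (1 - g) ^ (-(β + 1))) g := by
  have h1 : HasDerivAt (fun x : ℝ => 1 - x) (-1) g := by
    have := (hasDerivAt_id g).const_sub 1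
    simpa using this
  have hpos : (0 : ℝ) < 1 - g := by linarith
  have h2 : HasDerivAt (fun x : ℝ => (1 - x) ^ (-β)) ((-1) * (-β) * (1 - g) ^ (-β - 1)) g :=
    h1.rpow_const (Or.inl hpos.ne')
  have h3 : HasDerivAt (G β) ((-1) * (-β) * (1 - g) ^ (-β - 1)) g := by
    refine h2.congr_of_eventuallyEq ?_
    have : ∀ᶠ x in nhds g, x < 1 := Iio_mem_nhds hg
    filter_upwards [this] with x hx
    exact Pool.Agent.Riesz.G_eq hx
  have e : (-1) * (-β) * (1 - g) ^ (-β - 1) = β * (1 - g) ^ (-(β + 1)) := by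
    rw [show -β - 1 = -(β + 1) by ring]; ring
  rw [e] at h3
  exact h3

lemma hasDerivAt_Gc {β x f' : ℝ} {f : ℝ → ℝ} (hf : HasDerivAt f f' x) (hg : f x < 1) :
    HasDerivAt (fun a => G β (f a)) (β * (1 - f x) ^ (-(β + 1)) * f') x :=
  (hasDerivAt_G (β := β) hg).comp x hf

lemma two_mul_pow {q w : ℝ} (hw : w < 1) :
    (1 - (2 * w - 1)) ^ (-(q + 1)) = (2 : ℝ) ^ (-(q + 1)) * (1 - w) ^ (-(q + 1)) := by
  rw [show 1 - (2 * w - 1) = 2 * (1 - w) by ring]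
  exact Real.mul_rpow (by norm_num) (by linarith)

lemma stat_a {n q α γ : ℝ} (hn : 2 ≤ n) (hq : 0 < q) (hd : InDom n α γ)
    (hmin : ∀ a g, InDom n a g → Pool.Agent.Riesz.Phi n q α γ ≤ Pool.Agent.Riesz.Phi n q a g) :
    n * (1 + α) ^ (-(q + 1)) * α
        = 2 * ((1 + (2 : ℝ) ^ (-(q + 1))) * (1 - om n α γ) ^ (-(q + 1))) * om n α γ := by
  obtain ⟨h1, h2, h3, h4⟩ := hd
  have hx : 0 < 1 - (n - 1) * γ := by linarith
  have hω : HasDerivAt (fun a : ℝ => om n a γ) (n * (2 * α) / (1 - (n - 1) * γ)) α := by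
    have k1 : HasDerivAt (fun a : ℝ => a ^ 2) (2 * α) α := by
      simpa using hasDerivAt_pow 2 α
    exact (k1.const_mul n).div_const _
  have d1 : HasDerivAt (fun a : ℝ => G q (-a)) (q * (1 - (-α)) ^ (-(q + 1)) * (-1)) α := by
    exact hasDerivAt_Gc (hasDerivAt_neg α) (by linarith)
  have d2 : HasDerivAt (fun a : ℝ => G q (om n a γ))
      (q * (1 - om n α γ) ^ (-(q + 1)) * (n * (2 * α) / (1 - (n - 1) * γ))) α :=
    hasDerivAt_Gc hω h4
  have d3 : HasDerivAt (fun a : ℝ => G q (2 * om n a γ - 1))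
      (q * (1 - (2 * om n α γ - 1)) ^ (-(q + 1)) * (2 * (n * (2 * α) / (1 - (n - 1) * γ)))) α :=
    hasDerivAt_Gc ((hω.const_mul 2).sub_const 1) (by linarith)
  have d : HasDerivAt (fun a : ℝ => Pool.Agent.Riesz.Phi n q a γ)
      (4 * n * (q * (1 - (-α)) ^ (-(q + 1)) * (-1)) + 0
        + 4 * (q * (1 - om n α γ) ^ (-(q + 1)) * (n * (2 * α) / (1 - (n - 1) * γ)))
        + 2 * (q * (1 - (2 * om n α γ - 1)) ^ (-(q + 1))
          * (2 * (n * (2 * α) / (1 - (n - 1) * γ))))) α := by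
    exact (((d1.const_mul (4 * n)).add (hasDerivAt_const α _)).add (d2.const_mul 4)).add
      (d3.const_mul 2)
  have hloc : IsLocalMin (fun a : ℝ => Pool.Agent.Riesz.Phi n q a γ) α := by
    have e1 : ∀ᶠ a in nhds α, 0 < a := Ioi_mem_nhds h1
    have e2 : ∀ᶠ a in nhds α, om n a γ < 1 := hω.continuousAt.eventually (Iio_mem_nhds h4)
    filter_upwards [e1, e2] with a ha1 ha2
    exact hmin a γ ⟨ha1, h2, h3, ha2⟩
  have hz := hloc.hasDerivAt_eq_zero d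
  rw [two_mul_pow h4, show 1 - -α = 1 + α by ring] at hz
  set Y := (1 + α) ^ (-(q + 1))
  set A := (1 - om n α γ) ^ (-(q + 1))
  set c := (2 : ℝ) ^ (-(q + 1))
  have hωα : n * (2 * α) / (1 - (n - 1) * γ) * α = 2 * om n α γ := by
    unfold om; field_simp
  set D := n * (2 * α) / (1 - (n - 1) * γ)
  have hz2 : 4 * q * (-(n * Y) + (1 + c) * A * D) = 0 := by linear_combination hz
  have hz3 : -(n * Y) + (1 + c) * A * D = 0 := by
    rcases mul_eq_zero.1 hz2 with h | h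
    · exfalso; linarith
    · exact h
  linear_combination (-α) * hz3 + (1 + c) * A * hωα

lemma stat_g {n q α γ : ℝ} (hn : 2 ≤ n) (hq : 0 < q) (hd : InDom n α γ) (hγ : 0 < γ)
    (hmin : ∀ a g, InDom n a g → Pool.Agent.Riesz.Phi n q α γ ≤ Pool.Agent.Riesz.Phi n q a g) :
    n * (1 + γ) ^ (-(q + 1)) * (1 - (n - 1) * γ)
        = 8 * ((1 + (2 : ℝ) ^ (-(q + 1))) * (1 - om n α γ) ^ (-(q + 1))) * om n α γ := by
  obtain ⟨h1, h2, h3, h4⟩ := hd
  have hx : 0 < 1 - (n - 1) * γ := by linarith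
  have hx1 : HasDerivAt (fun g : ℝ => 1 - (n - 1) * g) (-(n - 1)) γ := by
    have k := ((hasDerivAt_id γ).const_mul (n - 1)).const_sub 1
    simpa using k
  have hω : HasDerivAt (fun g : ℝ => om n α g)
      (n * α ^ 2 * (n - 1) / (1 - (n - 1) * γ) ^ 2) γ := by
    have k := (hasDerivAt_const γ (n * α ^ 2)).div hx1 hx.ne'
    have e : (0 * (1 - (n - 1) * γ) - n * α ^ 2 * -(n - 1)) / (1 - (n - 1) * γ) ^ 2
        = n * α ^ 2 * (n - 1) / (1 - (n - 1) * γ) ^ 2 := by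
      congr 1; ring
    rw [e] at k
    exact k
  have d1 : HasDerivAt (fun g : ℝ => G q (-g)) (q * (1 - (-γ)) ^ (-(q + 1)) * (-1)) γ := by
    exact hasDerivAt_Gc (hasDerivAt_neg γ) (by linarith)
  have d2 : HasDerivAt (fun g : ℝ => G q (om n α g))
      (q * (1 - om n α γ) ^ (-(q + 1)) * (n * α ^ 2 * (n - 1) / (1 - (n - 1) * γ) ^ 2)) γ :=
    hasDerivAt_Gc hω h4
  have d3 : HasDerivAt (fun g : ℝ => G q (2 * om n α g - 1))
      (q * (1 - (2 * om n α γ - 1)) ^ (-(q + 1))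
        * (2 * (n * α ^ 2 * (n - 1) / (1 - (n - 1) * γ) ^ 2))) γ :=
    hasDerivAt_Gc ((hω.const_mul 2).sub_const 1) (by linarith)
  have d : HasDerivAt (fun g : ℝ => Pool.Agent.Riesz.Phi n q α g)
      (0 + n * (n - 1) / 2 * (q * (1 - (-γ)) ^ (-(q + 1)) * (-1))
        + 4 * (q * (1 - om n α γ) ^ (-(q + 1)) * (n * α ^ 2 * (n - 1) / (1 - (n - 1) * γ) ^ 2))
        + 2 * (q * (1 - (2 * om n α γ - 1)) ^ (-(q + 1))
          * (2 * (n * α ^ 2 * (n - 1) / (1 - (n - 1) * γ) ^ 2)))) γ := by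
    exact (((hasDerivAt_const γ _).add (d1.const_mul (n * (n - 1) / 2))).add
      (d2.const_mul 4)).add (d3.const_mul 2)
  have hloc : IsLocalMin (fun g : ℝ => Pool.Agent.Riesz.Phi n q α g) γ := by
    have e1 : ∀ᶠ g in nhds γ, 0 < g := Ioi_mem_nhds hγ
    have e2 : ∀ᶠ g in nhds γ, om n α g < 1 := hω.continuousAt.eventually (Iio_mem_nhds h4)
    have e3 : ∀ᶠ g in nhds γ, 0 < 1 - (n - 1) * g :=
      hx1.continuousAt.eventually (Ioi_mem_nhds hx)
    filter_upwards [e1, e2, e3] with g hg1 hg2 hg3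
    exact hmin α g ⟨h1, hg1.le, by linarith, hg2⟩
  have hz := hloc.hasDerivAt_eq_zero d
  rw [two_mul_pow h4, show 1 - -γ = 1 + γ by ring] at hz
  set κ := (1 + γ) ^ (-(q + 1))
  set A := (1 - om n α γ) ^ (-(q + 1))
  set c := (2 : ℝ) ^ (-(q + 1))
  have hωα : n * α ^ 2 * (n - 1) / (1 - (n - 1) * γ) ^ 2 * (1 - (n - 1) * γ)
      = (n - 1) * om n α γ := by
    unfold om; field_simp
  set D := n * α ^ 2 * (n - 1) / (1 - (n - 1) * γ) ^ 2
  have hz2 : q * (-(n * (n - 1) / 2 * κ) + 4 * ((1 + c) * A * D)) = 0 := by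
    linear_combination hz
  have hz3 : -(n * (n - 1) / 2 * κ) + 4 * ((1 + c) * A * D) = 0 := by
    rcases mul_eq_zero.1 hz2 with h | h
    · exfalso; linarith
    · exact h
  have hz4 : (n - 1) * (n * κ * (1 - (n - 1) * γ) - 8 * ((1 + c) * A) * om n α γ) = 0 := by
    linear_combination (-2 * (1 - (n - 1) * γ)) * hz3 + 8 * ((1 + c) * A) * hωα
  rcases mul_eq_zero.1 hz4 with h | h
  · exfalso; linarith
  · linarith

lemma root {p x : ℝ} (hp : 0 < p) (hx : 0 < x) : (x ^ (-p)) ^ (-(1 / p)) = x := by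
  rw [← Real.rpow_mul hx.le, show -p * -(1 / p) = 1 by field_simp, Real.rpow_one]

lemma facts {n α γ : ℝ} (hn : 2 ≤ n) (hd : InDom n α γ) (hγ : 0 < γ) :
    α < 1 ∧ γ < 1 ∧ 0 < om n α γ ∧ om n α γ * (1 - (n - 1) * γ) = n * α ^ 2 := by
  obtain ⟨h1, h2, h3, h4⟩ := hd
  have hx : 0 < 1 - (n - 1) * γ := by linarith
  have hωx : om n α γ * (1 - (n - 1) * γ) = n * α ^ 2 := by
    unfold om; field_simp
  have hω : 0 < om n α γ := by unfold om; positivity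
  refine ⟨?_, by nlinarith, hω, hωx⟩
  have hx1 : 1 - (n - 1) * γ ≤ 1 := by nlinarith
  have h5 : om n α γ * (1 - (n - 1) * γ) < 1 := by nlinarith
  by_contra hc
  push Not at hc
  nlinarith

end CStatAux

open CStatAux

/-- MODULE RW60 (stationarity). `Riesz.Phi n q α γ = 4 n (1+α)^(-q) + n(n-1)/2 (1+γ)^(-q)
+ 4 (1-ω)^(-q) + 2 (2-2ω)^(-q)`, `ω = n α²/(1 - (n-1) γ)`. The conditions `0 < α`, `0 < γ`,
`(n-1) γ < 1`, `ω < 1` are open, so both partial derivatives vanish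
(`IsLocalMin.hasDerivAt_eq_zero`): with `D = (1-ω)^(-(q+1))`,
`d/dω [4 (1-ω)^(-q) + 2 (2-2ω)^(-q)] = 4 q (1 + 2^(-(q+1))) D`, `∂ω/∂α = 2 ω/α`,
`∂ω/∂γ = (n-1) ω/(1 - (n-1)γ)`. -/
theorem stat {n q α γ : ℝ} (hn : 2 ≤ n) (hq : 0 < q) (hd : InDom n α γ) (hγ : 0 < γ)
    (hmin : ∀ a g, InDom n a g → Pool.Agent.Riesz.Phi n q α γ ≤ Pool.Agent.Riesz.Phi n q a g) :
    n * (1 + α) ^ (-(q + 1)) * α
        = 2 * ((1 + (2 : ℝ) ^ (-(q + 1))) * (1 - om n α γ) ^ (-(q + 1))) * om n α γ ∧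
      n * (1 + γ) ^ (-(q + 1)) * (1 - (n - 1) * γ)
        = 8 * ((1 + (2 : ℝ) ^ (-(q + 1))) * (1 - om n α γ) ^ (-(q + 1))) * om n α γ := by
  exact ⟨stat_a hn hq hd hmin, stat_g hn hq hd hγ hmin⟩

/-- The constants. `Y^(-1/p) = 1 + α`, `κ^(-1/p) = 1 + γ`, `A^(-1/p) = 1 - ω`, and
`(n-1) γ < 1`, `α < 1` (`n α² < 1`). With `x = 1 - (n-1) γ`, `W = (1 + 2^(-p)) A`, `stat` is
`n Y α = 2 W ω`, `n κ x = 8 W ω`, `ω x = n α²`. So `κ x = 4 Y α` (e3); `W = n Y α/(2 ω) = Y x/(2 α)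
= 2 Y²/κ` (e1); `ω = n α²/x = n α κ/(4 Y)` (e2). -/
theorem sqr_of_min {n q α γ : ℝ} (hn : 2 ≤ n) (hq : 1 ≤ q) (hd : InDom n α γ) (hγ : 0 < γ)
    (hmin : ∀ a g, InDom n a g → Pool.Agent.Riesz.Phi n q α γ ≤ Pool.Agent.Riesz.Phi n q a g) :
    Sqr q (n + 2) ((1 + γ) ^ (-(q + 1))) ((1 + α) ^ (-(q + 1)))
      ((1 - om n α γ) ^ (-(q + 1))) := by
  obtain ⟨s1, s2⟩ := stat hn (by linarith) hd hγ hmin
  obtain ⟨f1, f2, f3, f4⟩ := facts hn hd hγ
  obtain ⟨h1, h2, h3, h4⟩ := hd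
  have hp : 0 < q + 1 := by linarith
  have rκ := root hp (show 0 < 1 + γ by linarith)
  have rY := root hp (show 0 < 1 + α by linarith)
  have rA := root hp (show 0 < 1 - om n α γ by linarith)
  have hκ : 0 < (1 + γ) ^ (-(q + 1)) := Real.rpow_pos_of_pos (by linarith) _
  have hY : 0 < (1 + α) ^ (-(q + 1)) := Real.rpow_pos_of_pos (by linarith) _
  have hA : 0 < (1 - om n α γ) ^ (-(q + 1)) := Real.rpow_pos_of_pos (by linarith) _
  have hY1 : (1 + α) ^ (-(q + 1)) < 1 := by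
    apply Real.rpow_lt_one_of_one_lt_of_neg <;> linarith
  set κ := (1 + γ) ^ (-(q + 1)) with hκd
  set Y := (1 + α) ^ (-(q + 1)) with hYd
  set A := (1 - om n α γ) ^ (-(q + 1)) with hAd
  set c := (2 : ℝ) ^ (-(q + 1)) with hcd
  set ω := om n α γ with hωd
  have hx : 0 < 1 - (n - 1) * γ := by linarith
  have g3 : κ * (1 - (n - 1) * γ) = 4 * Y * α := by
    have : n * (κ * (1 - (n - 1) * γ) - 4 * Y * α) = 0 := by
      linear_combination s2 - 4 * s1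
    rcases mul_eq_zero.1 this with h | h
    · exfalso; linarith
    · linarith
  have g1 : 2 * Y ^ 2 = κ * (A + c * A) := by
    have : (ω * (1 - (n - 1) * γ)) * (2 * Y ^ 2 - κ * (A + c * A)) = 0 := by
      have e1 : κ * (A + c * A) * (ω * (1 - (n - 1) * γ))
          = (κ * (1 - (n - 1) * γ)) * ((1 + c) * A * ω) := by ring
      have e2 : (1 + c) * A * ω = n * Y * α / 2 := by linarith
      rw [e2, g3] at e1
      have e3 : (ω * (1 - (n - 1) * γ)) * (2 * Y ^ 2) = n * α ^ 2 * (2 * Y ^ 2) := by rw [f4]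
      linear_combination e3 - e1
    rcases mul_eq_zero.1 this with h | h
    · exfalso
      have := mul_pos f3 hx
      linarith
    · linarith
  have g2 : n * κ * α = 4 * Y * ω := by
    have : (1 - (n - 1) * γ) * (n * κ * α - 4 * Y * ω) = 0 := by
      linear_combination n * α * g3 - 4 * Y * f4
    rcases mul_eq_zero.1 this with h | h
    · exfalso; linarith
    · linarith
  refine ⟨hκ, hY, hY1, hA, g1, ?_, ?_⟩
  · rw [rY, rA]
    linear_combination g2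
  · rw [rY, rκ]
    linear_combination -g3

/-- The value. All numbers `κ, Y, A, ko = 2^(-p) A` are `≥ 2^(-p)`, so `Φ(K) = p K^(q/p) - q K`
with `K^(q/p) = K K^(-1/p)` (`κ^(q/p) = (1+γ)^(-q)` and so on). With
`E = 2 Riesz.Phi = n(n-1) κ (1+γ) + 8 n Y (1+α) + 8 A (1-ω) + 8 ko (1-ω)`
(`4 (2-2ω)^(-q) = 4 ko · 2 (1-ω)`) one has
`Esq = p E - q (n² κ + 8 n Y + 8 A + 8 ko)` and
`E = n(n-1) κ + 8 n Y + 8 (A+ko) + [n(n-1) κ γ + 8 n Y α - 8 (A+ko) ω]`, where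
`(n-1) κ γ = κ - 4 Y α` (e3) and `8 (A+ko) ω = 16 Y² ω/κ = 4 n Y α` (e1, e2), so the bracket is
`n κ`; hence `Esq = p E - q E = E`. -/
theorem val_of_min {n q α γ : ℝ} (hn : 2 ≤ n) (hq : 1 ≤ q) (hd : InDom n α γ) (hγ : 0 < γ)
    (hmin : ∀ a g, InDom n a g → Pool.Agent.Riesz.Phi n q α γ ≤ Pool.Agent.Riesz.Phi n q a g) :
    2 * Pool.Agent.Riesz.Phi n q α γ = Esq q (n + 2) ((1 + γ) ^ (-(q + 1)))
      ((1 + α) ^ (-(q + 1))) ((1 - om n α γ) ^ (-(q + 1))) := by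
  obtain ⟨s1, s2⟩ := stat hn (by linarith) hd hγ hmin
  obtain ⟨f1, f2, f3, f4⟩ := facts hn hd hγ
  obtain ⟨h1, h2, h3, h4⟩ := hd
  have hp : 0 < q + 1 := by linarith
  have hb : ∀ x : ℝ, 0 < x → x ≤ 2 → Pool.Agent.RieszTr.Phi q (x ^ (-(q + 1)))
      = (q + 1) * (x ^ (-(q + 1)) * x) - q * x ^ (-(q + 1)) := by
    intro x hx hx2
    have hle : (2 : ℝ) ^ (-(q + 1)) ≤ x ^ (-(q + 1)) :=
      Real.rpow_le_rpow_of_nonpos hx hx2 (by linarith)
    unfold Pool.Agent.RieszTr.Phi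
    rw [if_pos hle, ← Real.rpow_mul hx.le, show -(q + 1) * (q / (q + 1)) = -q by field_simp]
    have e : x ^ (-q) = x ^ (-(q + 1)) * x := by
      rw [← Real.rpow_add_one hx.ne']
      congr 1; ring
    rw [e]
  have hG : ∀ g : ℝ, g < 1 → G q g = (1 - g) ^ (-(q + 1)) * (1 - g) := by
    intro g hg
    rw [Pool.Agent.Riesz.G_eq hg, ← Real.rpow_add_one (by linarith)]
    congr 1; ring
  have bκ := hb (1 + γ) (by linarith) (by linarith)
  have bY := hb (1 + α) (by linarith) (by linarith)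
  have bA := hb (1 - om n α γ) (by linarith) (by linarith)
  have bo := hb (2 * (1 - om n α γ)) (by linarith) (by linarith)
  rw [Real.mul_rpow (by norm_num) (by linarith)] at bo
  unfold Esq Pool.Agent.Riesz.Phi
  rw [bκ, bY, bA, bo, hG (-α) (by linarith), hG (-γ) (by linarith), hG _ h4,
    hG (2 * om n α γ - 1) (by linarith), two_mul_pow h4, show 1 - -α = 1 + α by ring,
    show 1 - -γ = 1 + γ by ring]
  set κ := (1 + γ) ^ (-(q + 1)) with hκd
  set Y := (1 + α) ^ (-(q + 1)) with hYd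
  set A := (1 - om n α γ) ^ (-(q + 1)) with hAd
  set c := (2 : ℝ) ^ (-(q + 1)) with hcd
  set ω := om n α γ with hωd
  have g3 : κ * (1 - (n - 1) * γ) = 4 * Y * α := by
    have : n * (κ * (1 - (n - 1) * γ) - 4 * Y * α) = 0 := by
      linear_combination s2 - 4 * s1
    rcases mul_eq_zero.1 this with h | h
    · exfalso; linarith
    · linarith
  linear_combination q * n * g3 - 4 * q * s1

end Pool.Agent.RieszWin
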