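import Pool.Agent.RieszWin.CAsyC
import Pool.Agent.RieszWin.CStat
import Pool.Agent.RieszLin.Block

set_option autoImplicit false

open Real Finset

namespace Pool.Agent.RieszWin

open Pool.Agent.RieszSmall Pool.Agent.RieszLin Pool.Agent.RieszTr

open Pool.Agent.Riesz (InDom om G)

namespace CCrossAux

/-- `exp(-qL) - exp(-(q+h)L) ≥ exp(-(q+1)L) h L` -/
theorem exp_drop {q h L : ℝ} (hL : 0 ≤ L) (h0 : 0 ≤ h) (h1 : h ≤ 1) :
    Real.exp (-((q + 1) * L)) * (h * L) ≤ Real.exp (-(q * L)) - Real.exp (-((q + h) * L)) := by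
  have e1 : Real.exp (-(q * L)) = Real.exp (-((q + 1) * L)) * Real.exp L := by
    rw [← Real.exp_add]; congr 1; ring
  have e2 : Real.exp (-((q + h) * L)) = Real.exp (-((q + 1) * L)) * Real.exp ((1 - h) * L) := by
    rw [← Real.exp_add]; congr 1; ring
  have e3 : Real.exp L = Real.exp ((1 - h) * L) * Real.exp (h * L) := by
    rw [← Real.exp_add]; congr 1; ring
  rw [e1, e2, ← mul_sub]
  refine mul_le_mul_of_nonneg_left ?_ (Real.exp_pos _).le
  have h2 : 1 ≤ Real.exp ((1 - h) * L) := Real.one_le_exp (mul_nonneg (by linarith) hL)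
  have h3 := Real.add_one_le_exp (h * L)
  rw [e3]
  have h4 : 1 * (h * L) ≤ Real.exp ((1 - h) * L) * (Real.exp (h * L) - 1) :=
    mul_le_mul h2 (by linarith) (mul_nonneg h0 hL) (by positivity)
  linarith

/-- `exp((q+h)Ω) - exp(qΩ) ≤ exp((q+1)Ω) h Ω` -/
theorem exp_rise {q h L : ℝ} (hL : 0 ≤ L) (h0 : 0 ≤ h) (h1 : h ≤ 1) :
    Real.exp ((q + h) * L) - Real.exp (q * L) ≤ Real.exp ((q + 1) * L) * (h * L) := by
  have e1 : Real.exp ((q + h) * L) = Real.exp ((q + 1) * L) * Real.exp (-((1 - h) * L)) := by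
    rw [← Real.exp_add]; congr 1; ring
  have e2 : Real.exp (q * L) =
      Real.exp ((q + 1) * L) * (Real.exp (-((1 - h) * L)) * Real.exp (-(h * L))) := by
    rw [← Real.exp_add, ← Real.exp_add]; congr 1; ring
  rw [e1, e2, ← mul_sub]
  refine mul_le_mul_of_nonneg_left ?_ (Real.exp_pos _).le
  have h2 : Real.exp (-((1 - h) * L)) ≤ 1 :=
    Real.exp_le_one_iff.2 (by have := mul_nonneg (by linarith : 0 ≤ 1 - h) hL; linarith)
  have h3 := Real.add_one_le_exp (-(h * L))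
  have h5 : 0 ≤ 1 - Real.exp (-(h * L)) := by
    have : Real.exp (-(h * L)) ≤ 1 :=
      Real.exp_le_one_iff.2 (by have := mul_nonneg h0 hL; linarith)
    linarith
  calc Real.exp (-((1 - h) * L)) - Real.exp (-((1 - h) * L)) * Real.exp (-(h * L))
      = Real.exp (-((1 - h) * L)) * (1 - Real.exp (-(h * L))) := by ring
    _ ≤ 1 * (1 - Real.exp (-(h * L))) := mul_le_mul_of_nonneg_right h2 h5
    _ ≤ h * L := by linarith

/-- `Phi` in exponential form -/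
theorem Phi_exp {n q α γ : ℝ} :
    Pool.Agent.Riesz.Phi n q α γ = 4 * n * Real.exp (-(q * Real.log (1 + α)))
      + n * (n - 1) / 2 * Real.exp (-(q * Real.log (1 + γ)))
      + 4 * Real.exp (q * -Real.log (1 - om n α γ))
      + 2 * Real.exp (-(q * Real.log (2 - 2 * om n α γ))) := by
  unfold Pool.Agent.Riesz.Phi G Pool.Agent.Riesz.LL
  have e1 : 1 - -α = 1 + α := by ring
  have e2 : 1 - -γ = 1 + γ := by ring
  have e3 : 1 - (2 * om n α γ - 1) = 2 - 2 * om n α γ := by ring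
  rw [e1, e2, e3]
  congr 1
  · congr 1
    · congr 1
      · congr 2; ring
      · congr 2; ring
    · congr 2; ring
  · congr 2; ring

theorem u_ge {u q m κ : ℝ} (h : Win u q m κ) : (10 : ℝ) ^ 12 ≤ u := le_trans (by norm_num) h.hu

theorem u4_ge {u q m κ : ℝ} (h : Win u q m κ) : u ≤ u ^ 4 := by
  have hu1 := u_ge h
  calc u = u ^ 1 := (pow_one u).symm
    _ ≤ u ^ 4 := pow_le_pow_right₀ (by linarith) (by norm_num)

theorem m_ge {u q m κ : ℝ} (h : Win u q m κ) : 1000 ≤ m := by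
  have hu1 := u_ge h
  have h1 := u4_ge h
  have h2 := Real.add_one_le_exp (u ^ 4)
  rw [h.hm]
  linarith

theorem q_ge {u q m κ : ℝ} (h : Win u q m κ) : 4 * u ^ 4 ≤ q := by
  have hu1 := u_ge h
  have h1 := u4_ge h
  have h2 := m_ge h
  refine le_trans ?_ h.plo
  have h3 : 1000 * u ^ 4 ≤ m * u ^ 4 := mul_le_mul_of_nonneg_right h2 (by linarith)
  linarith

/-- all small quantities are below powers of `u` -/
theorem m_big {u q m κ : ℝ} (h : Win u q m κ) : u ^ 60 ≤ m := by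
  have hu1 := u_ge h
  have h1 := u4_ge h
  have b2 := h.big.2.1
  rw [h.hm]
  refine b2.trans (Real.exp_le_exp.2 ?_)
  linarith

/-- the comparison of the third term with the first -/
theorem third {κ Y A w lA m n p2 : ℝ} (hκ : 0 < κ) (hY : 0 < Y) (hA : 0 < A) (hp : 0 ≤ p2)
    (hlA : 0 ≤ lA) (hw : 0 ≤ w) (hm : 1000 ≤ m) (hn : n = m - 2)
    (e1 : 2 * Y ^ 2 = κ * (A + p2 * A)) (e2 : 4 * Y * lA ≤ w * (m * κ) * (1 + 4 / m)) :
    A * lA ≤ n * Y * w := by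
  have h1 : κ * A ≤ 2 * Y ^ 2 := by
    have : 0 ≤ κ * (p2 * A) := by positivity
    linarith
  have hm0 : 0 < m := by linarith
  have h2 : κ * (A * lA) ≤ κ * (n * Y * w) := by
    calc κ * (A * lA) = κ * A * lA := by ring
      _ ≤ 2 * Y ^ 2 * lA := mul_le_mul_of_nonneg_right h1 hlA
      _ = Y / 2 * (4 * Y * lA) := by ring
      _ ≤ Y / 2 * (w * (m * κ) * (1 + 4 / m)) := mul_le_mul_of_nonneg_left e2 (by positivity)
      _ = κ * Y * w * ((m + 4) / 2) := by field_simp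
      _ ≤ κ * Y * w * n := by
          apply mul_le_mul_of_nonneg_left _ (by positivity)
          rw [hn]; linarith
      _ = κ * (n * Y * w) := by ring
  exact le_of_mul_le_mul_left h2 hκ

theorem pow5 {v : ℝ} (hv0 : 0 < v) (hv1 : v ≤ 1 / 1000) : v ^ 5 ≤ 1 / 1000 * v ^ 4 := by
  have hv4 : 0 < v ^ 4 := by positivity
  calc v ^ 5 = v * v ^ 4 := by ring
    _ ≤ 1 / 1000 * v ^ 4 := mul_le_mul_of_nonneg_right hv1 hv4.le

theorem pk {v : ℝ} (hv0 : 0 < v) (hv1 : v ≤ 1 / 1000) (k : ℕ) (hk : 5 ≤ k) : v ^ k ≤ v ^ 5 :=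
  pow_le_pow_of_le_one hv0.le (by linarith) hk

/-- `(1 + 1.1 v^4)(1 - x)(1 - t) ≥ 1 + v^4` -/
theorem prod_ge {v x t : ℝ} (hv0 : 0 < v) (hv1 : v ≤ 1 / 1000) (hx0 : 0 ≤ x) (hx : x ≤ v ^ 5)
    (ht0 : 0 ≤ t) (ht : t ≤ 3 * v ^ 5) :
    1 + v ^ 4 ≤ (1 + 11 / 10 * v ^ 4) * (1 - x) * (1 - t) := by
  have p5 := pow5 hv0 hv1
  have hv4 : 0 < v ^ 4 := by positivity
  have hv41 : v ^ 4 ≤ 1 := pow_le_one₀ hv0.le (by linarith)
  have k1 : 1 - 4 * v ^ 5 ≤ (1 - x) * (1 - t) := by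
    have h1 : 0 ≤ x * t := mul_nonneg hx0 ht0
    have h2 : (1 - x) * (1 - t) = 1 - x - t + x * t := by ring
    rw [h2]
    linarith
  have k2 : (1 + 11 / 10 * v ^ 4) * (1 - 4 * v ^ 5) ≤
      (1 + 11 / 10 * v ^ 4) * ((1 - x) * (1 - t)) :=
    mul_le_mul_of_nonneg_left k1 (by positivity)
  have k3 : 11 / 10 * v ^ 4 * (4 * v ^ 5) ≤ 11 / 10 * 1 * (4 * v ^ 5) := by
    apply mul_le_mul_of_nonneg_right _ (by positivity)
    linarith
  have k4 : 1 + v ^ 4 ≤ (1 + 11 / 10 * v ^ 4) * (1 - 4 * v ^ 5) := by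
    have : (1 + 11 / 10 * v ^ 4) * (1 - 4 * v ^ 5) =
        1 + 11 / 10 * v ^ 4 - 4 * v ^ 5 - 11 / 10 * v ^ 4 * (4 * v ^ 5) := by ring
    rw [this]
    linarith
  calc 1 + v ^ 4 ≤ (1 + 11 / 10 * v ^ 4) * (1 - 4 * v ^ 5) := k4
    _ ≤ (1 + 11 / 10 * v ^ 4) * ((1 - x) * (1 - t)) := k2
    _ = _ := by ring

/-- the block side is smaller -/
theorem blk_lt {v M s t : ℝ} (hv0 : 0 < v) (hv1 : v ≤ 1 / 1000) (hM : v ≤ M)
    (hs : s ≤ 2 * v ^ 5) (ht : t ≤ 4 * v ^ 60) : M * (1 + s) + t < M * (1 + v ^ 4) := by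
  have p5 := pow5 hv0 hv1
  have hv4 : 0 < v ^ 4 := by positivity
  have k1 : M * (1 + s) ≤ M * (1 + 2 * v ^ 5) :=
    mul_le_mul_of_nonneg_left (by linarith) (by linarith)
  have k2 : v * (v ^ 4 - 2 * v ^ 5) ≤ M * (v ^ 4 - 2 * v ^ 5) :=
    mul_le_mul_of_nonneg_right hM (by linarith)
  have k3 : 4 * v ^ 60 < v * (v ^ 4 - 2 * v ^ 5) := by
    have k4 : v ^ 60 ≤ v ^ 6 := pow_le_pow_of_le_one hv0.le (by linarith) (by norm_num)
    have k5 : v ^ 6 = v * v ^ 5 := by ring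
    have k6 : v * v ^ 5 ≤ v * (1 / 1000 * v ^ 4) := mul_le_mul_of_nonneg_left p5 hv0.le
    have k7 : 0 < v * v ^ 4 := by positivity
    have k8 : v * (v ^ 4 - 2 * v ^ 5) = v * v ^ 4 - 2 * (v * v ^ 5) := by ring
    rw [k8]
    linarith
  linarith

theorem kap_low {κ K b : ℝ} (hκ : 0 < κ) (hK : 0 < K) (h : b ≤ Real.log κ - Real.log K) :
    K * (1 + b) ≤ κ := by
  have k3 : κ = K * Real.exp (Real.log κ - Real.log K) := by
    rw [Real.exp_sub, Real.exp_log hκ, Real.exp_log hK]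
    field_simp
  rw [k3]
  apply mul_le_mul_of_nonneg_left _ hK.le
  have k4 := Real.add_one_le_exp (Real.log κ - Real.log K)
  linarith

/-- `(p/m) x ≥ 1.2 v^4` -/
theorem px_ge {u m q x w : ℝ} (hu : 0 < u) (hm : 0 < m) (hplo : 999 / 1000 * (m * u ^ 4) ≤ q)
    (hw : 28 / 25 ≤ w) (hx : 99 / 100 * w ^ 2 / u ^ 8 ≤ x) :
    6 / 5 * (1 / u) ^ 4 ≤ (q + 1) / m * x := by
  have k1 : 999 / 1000 * u ^ 4 ≤ (q + 1) / m := by
    rw [le_div_iff₀ hm]
    linarith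
  have k2 : 62 / 50 * (1 / u ^ 8) ≤ x := by
    refine le_trans ?_ hx
    have k3 : 62 / 50 ≤ 99 / 100 * w ^ 2 := by
      have : (28 / 25 : ℝ) ^ 2 ≤ w ^ 2 := pow_le_pow_left₀ (by norm_num) hw 2
      linarith
    rw [mul_one_div]
    exact (div_le_div_iff_of_pos_right (by positivity)).2 k3
  have k4 : 0 ≤ 999 / 1000 * u ^ 4 := by positivity
  calc 6 / 5 * (1 / u) ^ 4 ≤ 999 / 1000 * (62 / 50) * (1 / u) ^ 4 :=
        mul_le_mul_of_nonneg_right (by norm_num) (by positivity)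
    _ = 999 / 1000 * u ^ 4 * (62 / 50 * (1 / u ^ 8)) := by field_simp
    _ ≤ (q + 1) / m * x := mul_le_mul k1 k2 (by positivity) (le_trans k4 k1)

/-- the comparison of the slopes -/
theorem slopes {u m q K κ x w D : ℝ} (hu : 1000 ≤ u) (hmb : u ^ 60 ≤ m) (hK : 0 < K) (hκ : 0 < κ)
    (hplo : 999 / 1000 * (m * u ^ 4) ≤ q) (hlo : 1 / u ≤ m * K)
    (hw : 28 / 25 ≤ w) (x1 : 99 / 100 * w ^ 2 / u ^ 8 ≤ x) (x2 : x ≤ 1 / u ^ 7)
    (hed : (q + 1) / m * x - 10 * u ^ 4 / m ≤ Real.log κ - Real.log K)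
    (hD : D ≤ 4 * (1 / u) ^ 60) :
    m * K * (1 + 2 / m) + D < m * κ * (1 - x) * (1 - 3 / m) := by
  have hu0 : 0 < u := by linarith
  have hm0 : 0 < m := lt_of_lt_of_le (by positivity) hmb
  have hpx := px_ge hu0 hm0 hplo hw x1
  have hmv : 1 / m ≤ (1 / u) ^ 60 := by
    rw [one_div_pow]
    exact one_div_le_one_div_of_le (by positivity) hmb
  have hv0 : 0 < 1 / u := by positivity
  have hv1 : 1 / u ≤ 1 / 1000 := one_div_le_one_div_of_le (by norm_num) hu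
  have h10 : 10 * u ^ 4 / m ≤ 10 * (1 / u) ^ 5 := by
    have k1 : 10 * u ^ 4 / m = 10 * u ^ 4 * (1 / m) := by ring
    rw [k1]
    calc 10 * u ^ 4 * (1 / m) ≤ 10 * u ^ 4 * (1 / u) ^ 60 :=
          mul_le_mul_of_nonneg_left hmv (by positivity)
      _ = 10 * (1 / u) ^ 56 := by field_simp
      _ ≤ 10 * (1 / u) ^ 5 :=
          mul_le_mul_of_nonneg_left (pk hv0 hv1 56 (by norm_num)) (by norm_num)
  have hx7 : x ≤ (1 / u) ^ 5 := by
    refine x2.trans ?_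
    rw [← one_div_pow]
    exact pk hv0 hv1 7 (by norm_num)
  have h60 := pk hv0 hv1 60 (by norm_num)
  have hx0 : 0 ≤ x := le_trans (by positivity) x1
  generalize 1 / u = v at *
  have hκK : K * (1 + 11 / 10 * v ^ 4) ≤ κ := by
    refine kap_low hκ hK ?_
    have p5 := pow5 hv0 hv1
    have : 0 < v ^ 4 := by positivity
    linarith
  have hmi : 0 < 1 / m := by positivity
  have h3m : 3 / m ≤ 3 * v ^ 5 := by
    have : 3 / m = 3 * (1 / m) := by ring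
    rw [this]; linarith
  have h2m : 2 / m ≤ 2 * v ^ 5 := by
    have : 2 / m = 2 * (1 / m) := by ring
    rw [this]; linarith
  have h3m0 : 0 ≤ 3 / m := by positivity
  have hprod := prod_ge hv0 hv1 hx0 hx7 h3m0 h3m
  have hv51 : v ^ 5 ≤ 1 / 1000 := by
    have : v ^ 4 ≤ 1 := pow_le_one₀ hv0.le (by linarith)
    have := pow5 hv0 hv1
    linarith
  have hA : m * K * (1 + v ^ 4) ≤ m * κ * (1 - x) * (1 - 3 / m) := by
    calc m * K * (1 + v ^ 4)
        ≤ m * K * ((1 + 11 / 10 * v ^ 4) * (1 - x) * (1 - 3 / m)) :=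
          mul_le_mul_of_nonneg_left hprod (by positivity)
      _ = m * (K * (1 + 11 / 10 * v ^ 4)) * ((1 - x) * (1 - 3 / m)) := by ring
      _ ≤ m * κ * ((1 - x) * (1 - 3 / m)) := by
          apply mul_le_mul_of_nonneg_right (mul_le_mul_of_nonneg_left hκK hm0.le)
          apply mul_nonneg <;> linarith
      _ = _ := by ring
  exact lt_of_lt_of_le (blk_lt hv0 hv1 hlo h2m hD) hA

end CCrossAux

open CCrossAux

/-- MODULE RW66 (the crossing). `TT_eq` (RieszLin/Block.lean). `1 - 2^(-h) ≤ h`,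
`1 - (1-1/m)^h ≤ -h log(1-1/m) ≤ h/(m-1) ≤ (h/m)(1 + 2/m)`,
`m (m-1) (1-1/m)^q = m² K₀`. -/
theorem TT_diff {q m h : ℝ} (hq : 1 ≤ q) (hm : 2 ≤ m) (h0 : 0 < h) (h1 : h ≤ 1) :
    TT q m - TT (q + h) m ≤ h * (m * K0 q m * (1 + 2 / m) + 2 * (2 : ℝ) ^ (-q)) := by
  have hm0 : 0 < m := by linarith
  have hb : 0 < 1 - 1 / m := by
    have : 1 / m ≤ 1 / 2 := one_div_le_one_div_of_le (by norm_num) hm
    linarith
  rw [TT_eq hm, TT_eq hm]
  have e1 : (2 : ℝ) ^ (-(q + h)) = (2 : ℝ) ^ (-q) * Real.exp (-(h * Real.log 2)) := by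
    rw [show -(q + h) = -q + -h by ring, Real.rpow_add (by norm_num : (0 : ℝ) < 2),
      Real.rpow_def_of_pos (by norm_num : (0 : ℝ) < 2) (-h)]
    congr 2; ring
  have e2 : (1 - 1 / m) ^ (q + h) = (1 - 1 / m) ^ q * Real.exp (h * Real.log (1 - 1 / m)) := by
    rw [Real.rpow_add hb, Real.rpow_def_of_pos hb h]
    congr 2; ring
  have e3 : K0 q m = (1 - 1 / m) ^ q * (1 - 1 / m) := by
    unfold K0
    rw [Real.rpow_add hb, Real.rpow_one]
  have h2 : 0 < (2 : ℝ) ^ (-q) := Real.rpow_pos_of_pos (by norm_num) _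
  have h3 : 0 < (1 - 1 / m) ^ q := Real.rpow_pos_of_pos hb _
  have hl2 : Real.log 2 ≤ 1 := by
    have := Real.log_two_lt_d9
    linarith
  have k1 : 1 - Real.exp (-(h * Real.log 2)) ≤ h := by
    have := Real.add_one_le_exp (-(h * Real.log 2))
    have h4 : h * Real.log 2 ≤ h * 1 := mul_le_mul_of_nonneg_left hl2 h0.le
    linarith
  have hlog : -Real.log (1 - 1 / m) ≤ 1 / (m - 1) := by
    have h5 := Real.one_sub_inv_le_log_of_pos hb
    have h6 : (1 - 1 / m)⁻¹ = 1 + 1 / (m - 1) := by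
      have : m - 1 ≠ 0 := by linarith
      field_simp
      ring
    rw [h6] at h5
    linarith
  have k2 : 1 - Real.exp (h * Real.log (1 - 1 / m)) ≤ h * (1 / (m - 1)) := by
    have := Real.add_one_le_exp (h * Real.log (1 - 1 / m))
    have h7 := mul_le_mul_of_nonneg_left hlog h0.le
    linarith
  rw [e1, e2, e3]
  have k3 : 2 * (2 : ℝ) ^ (-q) * (1 - Real.exp (-(h * Real.log 2))) ≤ 2 * (2 : ℝ) ^ (-q) * h :=
    mul_le_mul_of_nonneg_left k1 (by positivity)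
  have hmm : 0 ≤ m * (m - 1) * (1 - 1 / m) ^ q := by
    have : 0 ≤ m - 1 := by linarith
    positivity
  have k4 := mul_le_mul_of_nonneg_left k2 hmm
  have k5 : m * (m - 1) * (1 - 1 / m) ^ q * (h * (1 / (m - 1))) = h * (m * (1 - 1 / m) ^ q) := by
    have : m - 1 ≠ 0 := by linarith
    field_simp
  rw [k5] at k4
  have k6 : h * (m * (1 - 1 / m) ^ q) ≤
      h * (m * ((1 - 1 / m) ^ q * (1 - 1 / m)) * (1 + 2 / m)) := by
    apply mul_le_mul_of_nonneg_left _ h0.le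
    have h8 : 1 ≤ (1 - 1 / m) * (1 + 2 / m) := by
      have h9 : (1 - 1 / m) * (1 + 2 / m) = 1 + (m - 2) / m ^ 2 := by
        field_simp
        ring
      rw [h9]
      have : 0 ≤ (m - 2) / m ^ 2 := div_nonneg (by linarith) (by positivity)
      linarith
    calc m * (1 - 1 / m) ^ q = m * (1 - 1 / m) ^ q * 1 := by ring
      _ ≤ m * (1 - 1 / m) ^ q * ((1 - 1 / m) * (1 + 2 / m)) :=
          mul_le_mul_of_nonneg_left h8 (by positivity)
      _ = _ := by ring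
  linarith

/-- `κ = (1+γ)^(-(q+1))` etc. Terms of `2 Phi(q) - 2 Phi(q+h)`:
* `n(n-1)(1+γ)^(-q)(1 - (1+γ)^(-h)) ≥ n(n-1) κ h γ (1-γ²)`, `(n-1)γ = 1 - x`;
* `8 n (1+α)^(-q)(1 - (1+α)^(-h)) ≥ 8 n Y h α (1 - α²) ≥ 7.9 m Y h w/p` (`α ≥ w/p`);
* `8 (1-ω)^(-q)((1-ω)^(-h) - 1) ≤ 8.1 A h log A/p` (`ω` is tiny), and by `Rg.relA`,
  `A ≤ 2Y²/κ`: `A log A ≤ (1/2) Y w m (1 + 4/m)`, so this is `≤ 4.1 Y w m h/p`;
* the last term is `≥ 0` (`2 - 2ω ≥ 1`). -/
theorem Rg.sq_diff {u q : ℝ} {n : ℕ} (hR : Rg u q ((n : ℝ) + 2)) {α γ : ℝ}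
    (hd : InDom n α γ) (hγ : 0 < γ)
    (hmin : ∀ a g, InDom n a g → Pool.Agent.Riesz.Phi n q α γ ≤ Pool.Agent.Riesz.Phi n q a g)
    {h : ℝ} (h0 : 0 < h) (h1 : h ≤ 1) :
    h * (((n : ℝ) + 2) * (1 + γ) ^ (-(q + 1)) * (1 - (1 - ((n : ℝ) - 1) * γ))
        * (1 - 3 / ((n : ℝ) + 2)))
      ≤ 2 * Pool.Agent.Riesz.Phi n q α γ - 2 * Pool.Agent.Riesz.Phi n (q + h) α γ := by
  have hm := m_ge hR.win
  have hq4 := q_ge hR.win
  have hu := u_ge hR.win
  have hu4 := u4_ge hR.win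
  have hn2 : (2 : ℝ) ≤ n := by linarith
  have hq1 : 1 ≤ q := by linarith
  have hs := sqr_of_min hn2 hq1 hd hγ hmin
  obtain ⟨hα, -, hγ1, hω1⟩ := hd
  obtain ⟨hw0, hlA0, hlA⟩ := hR.logA hs
  have hrel := (hR.relA hs).2
  have hel := (hR.el_bds hs).2
  have hp0 : (0 : ℝ) < 2 ^ (-(q + 1)) := Real.rpow_pos_of_pos (by norm_num) _
  -- logarithms
  have eκ : (1 + γ) ^ (-(q + 1)) = Real.exp (-((q + 1) * Real.log (1 + γ))) := by
    rw [Real.rpow_def_of_pos (by linarith)]; congr 1; ring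
  have eY : (1 + α) ^ (-(q + 1)) = Real.exp (-((q + 1) * Real.log (1 + α))) := by
    rw [Real.rpow_def_of_pos (by linarith)]; congr 1; ring
  have eA : (1 - om n α γ) ^ (-(q + 1)) = Real.exp ((q + 1) * -Real.log (1 - om n α γ)) := by
    rw [Real.rpow_def_of_pos (by linarith)]; congr 1; ring
  have lY : -Real.log ((1 + α) ^ (-(q + 1))) = (q + 1) * Real.log (1 + α) := by
    rw [eY, Real.log_exp]; ring
  have lA : Real.log ((1 - om n α γ) ^ (-(q + 1))) = (q + 1) * -Real.log (1 - om n α γ) := by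
    rw [eA, Real.log_exp]
  have hLa : 0 ≤ Real.log (1 + α) := Real.log_nonneg (by linarith)
  have hLg : 2 * γ / (γ + 2) ≤ Real.log (1 + γ) := Real.le_log_one_add_of_nonneg hγ.le
  have hLg0 : 0 ≤ Real.log (1 + γ) := Real.log_nonneg (by linarith)
  have hΩ0 : 0 ≤ -Real.log (1 - om n α γ) := by
    rw [lA] at hlA0
    by_contra hc
    have : (q + 1) * -Real.log (1 - om n α γ) ≤ 0 :=
      mul_nonpos_of_nonneg_of_nonpos (by linarith) (not_le.1 hc).le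
    linarith
  have h3 := third (n := (n : ℝ)) hs.hk hs.hY hs.hA hp0.le hlA0.le hw0.le hm (by ring) hs.e1 hrel
  rw [lY, lA] at h3
  -- `ω ≤ 1/2`
  have hω2 : om n α γ ≤ 1 / 2 := by
    have k1 : Real.log ((1 - om n α γ) ^ (-(q + 1))) ≤ 2 * u ^ 4 := by
      rw [hlA]
      have : 0 ≤ Real.log (1 + (2 : ℝ) ^ (-(q + 1))) := Real.log_nonneg (by linarith)
      have hl2 := Real.log_two_lt_d9
      linarith
    rw [lA] at k1
    have k2 : -Real.log (1 - om n α γ) ≤ 1 / 2 := by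
      by_contra hc
      have k3 : (q + 1) * (1 / 2) ≤ (q + 1) * -Real.log (1 - om n α γ) :=
        mul_le_mul_of_nonneg_left (not_le.1 hc).le (by linarith)
      linarith
    have k4 := Real.add_one_le_exp (Real.log (1 - om n α γ))
    rw [Real.exp_log (by linarith)] at k4
    linarith
  have hL4 : 0 ≤ Real.log (2 - 2 * om n α γ) := Real.log_nonneg (by linarith)
  -- the four terms
  have d1 := exp_drop (q := q) hLa h0.le h1
  have d2 := exp_drop (q := q) hLg0 h0.le h1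
  have d3 := exp_rise (q := q) hΩ0 h0.le h1
  have d4 := exp_drop (q := q) hL4 h0.le h1
  have d4' : 0 ≤ Real.exp (-((q + 1) * Real.log (2 - 2 * om n α γ))) *
      (h * Real.log (2 - 2 * om n α γ)) := by positivity
  rw [← eY] at d1
  rw [← eκ] at d2
  rw [← eA] at d3
  have hκ0 := hs.hk
  have hY0 := hs.hY
  have hA0 := hs.hA
  rw [Phi_exp, Phi_exp]
  set κ := (1 + γ) ^ (-(q + 1)) with hκdef
  set Y := (1 + α) ^ (-(q + 1)) with hYdef
  set A := (1 - om n α γ) ^ (-(q + 1)) with hAdef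
  have f3 : A * (h * -Real.log (1 - om n α γ)) ≤ n * (Y * (h * Real.log (1 + α))) := by
    have hq0 : 0 < q + 1 := by linarith
    have g1 : (q + 1) * (A * (h * -Real.log (1 - om n α γ))) ≤
        (q + 1) * (n * (Y * (h * Real.log (1 + α)))) := by
      calc (q + 1) * (A * (h * -Real.log (1 - om n α γ)))
          = h * (A * ((q + 1) * -Real.log (1 - om n α γ))) := by ring
        _ ≤ h * (n * Y * ((q + 1) * Real.log (1 + α))) := mul_le_mul_of_nonneg_left h3 h0.le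
        _ = _ := by ring
    exact le_of_mul_le_mul_left g1 hq0
  have f2 : h * (((n : ℝ) + 2) * κ * (1 - (1 - ((n : ℝ) - 1) * γ)) * (1 - 3 / ((n : ℝ) + 2)))
      ≤ n * (n - 1) * (κ * (h * Real.log (1 + γ))) := by
    have g1 : ((n : ℝ) - 1) * γ ≤ n * Real.log (1 + γ) := by
      refine le_trans ?_ (mul_le_mul_of_nonneg_left hLg (by linarith))
      rw [← mul_div_assoc, le_div_iff₀ (by linarith)]
      have g2 : 0 ≤ γ * (2 - ((n : ℝ) - 1) * γ) := mul_nonneg hγ.le (by linarith)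
      nlinarith
    have g3 : 0 ≤ h * κ * ((n : ℝ) - 1) := by
      have : 0 ≤ (n : ℝ) - 1 := by linarith
      positivity
    have g4 := mul_le_mul_of_nonneg_left g1 g3
    have g5 : h * (((n : ℝ) + 2) * κ * (1 - (1 - ((n : ℝ) - 1) * γ)) * (1 - 3 / ((n : ℝ) + 2))) =
        h * κ * ((n : ℝ) - 1) * (((n : ℝ) - 1) * γ) := by
      have : (n : ℝ) + 2 ≠ 0 := by linarith
      field_simp
      ring
    rw [g5]
    refine g4.trans (le_of_eq ?_)
    ring
  have t1 := mul_le_mul_of_nonneg_left d1 (by positivity : (0 : ℝ) ≤ 8 * n)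
  have t2 := mul_le_mul_of_nonneg_left d2
    (by have : 0 ≤ (n : ℝ) - 1 := by linarith
        positivity : (0 : ℝ) ≤ n * (n - 1))
  linarith

/-- With `m = n+2`, `κ = (1+γ)^(-p)`, `x = 1 - (n-1)γ` (`m - 3 = n - 1`, `κ^(-1/p) - 1 = γ`):
`κ ≥ K₀ exp((p/m) x - 10 u^4/m) ≥ K₀ (1 + (p/m) x - 10 u^4/m)` (`Rg.el_diff`) and
`(p/m) x ≥ 0.999 u^4 · 0.99 w²/u^8 ≥ 6/(5 u^4)` (`Rg.x_bds`, `Rg.w_ge`), `x ≤ 1/u^7`; so
`m κ (1-x)(1-3/m) ≥ m K₀ (1 + 1/u^4)`, while `m K₀ (1+2/m) + 2·2^(-q) < m K₀ (1 + 1/u^4)`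
(`m K₀ ≥ 1/u`). -/
theorem Rg.cross {u q : ℝ} {n : ℕ} (hR : Rg u q ((n : ℝ) + 2)) {α γ : ℝ}
    (hd : InDom n α γ) (hγ : 0 < γ)
    (hmin : ∀ a g, InDom n a g → Pool.Agent.Riesz.Phi n q α γ ≤ Pool.Agent.Riesz.Phi n q a g)
    (hle : 2 * Pool.Agent.Riesz.Phi n q α γ ≤ TT q ((n : ℝ) + 2))
    {h : ℝ} (h0 : 0 < h) (h1 : h ≤ 1) :
    2 * Pool.Agent.Riesz.Phi n (q + h) α γ < TT (q + h) ((n : ℝ) + 2) := by
  have hsd := hR.sq_diff hd hγ hmin h0 h1
  have hm := m_ge hR.win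
  have hmb := m_big hR.win
  have hq4 := q_ge hR.win
  have hu := u_ge hR.win
  have hu4 := u4_ge hR.win
  have hn2 : (2 : ℝ) ≤ n := by linarith
  have hq1 : 1 ≤ q := by linarith
  have hTT := TT_diff (h := h) hq1 (by linarith : (2 : ℝ) ≤ (n : ℝ) + 2) h0 h1
  have hs := sqr_of_min hn2 hq1 hd hγ hmin
  have hwge := hR.w_ge hs
  have hxb := hR.x_bds hs
  have hed := hR.el_diff hs
  have htwo := hR.win.two.1
  have hplo := hR.win.plo
  have hlo := hR.lo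
  have hK0 := hR.win.hk
  have hκ0 := hs.hk
  set m : ℝ := (n : ℝ) + 2 with hmdef
  set κ := (1 + γ) ^ (-(q + 1)) with hκdef
  have hroot : κ ^ (-(1 / (q + 1))) - 1 = γ := by
    rw [hκdef, ← Real.rpow_mul (by linarith : (0 : ℝ) ≤ 1 + γ)]
    have : -(q + 1) * (-(1 / (q + 1))) = 1 := by
      have : q + 1 ≠ 0 := by linarith
      field_simp
    rw [this, Real.rpow_one]
    ring
  rw [hroot] at hxb hed
  have hx : 1 - ((n : ℝ) - 1) * γ = 1 - (m - 3) * γ := by rw [hmdef]; ring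
  rw [hx] at hsd
  set x := 1 - (m - 3) * γ with hxdef
  generalize hYY : (1 + α) ^ (-(q + 1)) = Y at *
  obtain ⟨x1, x2⟩ := hxb
  have h2q : 2 * (2 : ℝ) ^ (-q) ≤ 4 * (1 / u) ^ 60 := by
    have k1 : (2 : ℝ) ^ (-q) = 2 * (2 : ℝ) ^ (-(q + 1)) := by
      rw [show -q = -(q + 1) + 1 by ring, Real.rpow_add (by norm_num), Real.rpow_one]
      ring
    have k2 : Real.exp (-(100 * u ^ 4)) ≤ 1 / m := by
      rw [hR.win.hm, one_div, ← Real.exp_neg]
      exact Real.exp_le_exp.2 (by linarith)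
    have k3 : 1 / m ≤ (1 / u) ^ 60 := by
      rw [one_div_pow]
      exact one_div_le_one_div_of_le (by have : 0 < u := by linarith
                                         positivity) hmb
    rw [k1]
    linarith
  have k1 := (abs_le.1 hed).1
  unfold el at k1
  have hfin := mul_lt_mul_of_pos_left (slopes (by linarith) hmb hK0 hκ0 hplo hlo hwge x1 x2
    (by linarith) h2q) h0
  linarith

end Pool.Agent.RieszWin
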