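import Pool.Agent.Riesz.PhiProp

set_option autoImplicit false

open Real Finset

namespace Pool.Agent.RieszWin

open Pool.Agent.Riesz (InDom om G)

/-- MODULE RW61 (existence of the minimum). Follow `Riesz.Phi_exists` (Riesz/PhiProp.lean) word by
word; the only changes: instead of `Phi < 8` use `hle` to show that the minimum of `Ψ` over the
compact set has `α > 0` (if `α = 0` then `Ψ ≥ 4 n + n(n-1)/2 G(-γ)` and `γ ≤ 1/(n-1)`, so
`G q (-γ) = (1+γ)^(-q) ≥ (n/(n-1))^(-q) = (1-1/n)^q`); points with `ω > 1/2` have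
`Phi ≥ 4 G q (1/2) = 4 · 2^q`; and the minimizer has `γ > 0` because for `γ = 0`
`Phi ≥ n(n-1)/2`. -/
theorem exists_min {n : ℕ} (hn : 2 ≤ n) {q α' γ' : ℝ} (hq : 1 ≤ q) (hdom : InDom n α' γ')
    (hle : Pool.Agent.Riesz.Phi n q α' γ' < 4 * n + (n : ℝ) * (n - 1) / 2 * (1 - 1 / (n : ℝ)) ^ q)
    (hom : om n α' γ' ≤ 1 / 2) (hbig : Pool.Agent.Riesz.Phi n q α' γ' ≤ 4 * (2 : ℝ) ^ q)
    (hg : Pool.Agent.Riesz.Phi n q α' γ' < (n : ℝ) * (n - 1) / 2) :
    ∃ α γ : ℝ, InDom n α γ ∧ 0 < γ ∧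
      ∀ a g, InDom n a g → Pool.Agent.Riesz.Phi n q α γ ≤ Pool.Agent.Riesz.Phi n q a g := by
  have hn' : (2 : ℝ) ≤ n := by exact_mod_cast hn
  have hq0 : 0 < q := by linarith
  set K : Set (ℝ × ℝ × ℝ) := {p | 0 ≤ p.1 ∧ p.1 ≤ 1 ∧ 0 ≤ p.2.1 ∧ p.2.1 ≤ 1 ∧ 0 ≤ p.2.2 ∧
    p.2.2 ≤ 1 / 2 ∧ (n - 1) * p.2.1 ≤ 1 ∧ n * p.1 ^ 2 ≤ p.2.2 * (1 - (n - 1) * p.2.1)} with hK
  set Ψ : ℝ × ℝ × ℝ → ℝ := fun p => 4 * n * G q (-p.1) + n * (n - 1) / 2 * G q (-p.2.1)
    + 4 * G q p.2.2 + 2 * G q (2 * p.2.2 - 1) with hΨ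
  have hKc : IsCompact K := by
    have hsub : K ⊆ Set.Icc (0 : ℝ) 1 ×ˢ (Set.Icc (0 : ℝ) 1 ×ˢ Set.Icc (0 : ℝ) 1) := by
      rintro ⟨a, g, w⟩ ⟨h1, h2, h3, h4, h5, h6, -, -⟩
      simp only [Set.mem_prod, Set.mem_Icc]
      dsimp only at h1 h2 h3 h4 h5 h6
      exact ⟨⟨h1, h2⟩, ⟨h3, h4⟩, ⟨h5, by linarith⟩⟩
    refine IsCompact.of_isClosed_subset (isCompact_Icc.prod (isCompact_Icc.prod isCompact_Icc)) ?_ hsub
    rw [hK]
    simp only [Set.ofPred_and]
    refine IsClosed.inter (isClosed_le (by fun_prop) (by fun_prop)) ?_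
    refine IsClosed.inter (isClosed_le (by fun_prop) (by fun_prop)) ?_
    refine IsClosed.inter (isClosed_le (by fun_prop) (by fun_prop)) ?_
    refine IsClosed.inter (isClosed_le (by fun_prop) (by fun_prop)) ?_
    refine IsClosed.inter (isClosed_le (by fun_prop) (by fun_prop)) ?_
    refine IsClosed.inter (isClosed_le (by fun_prop) (by fun_prop)) ?_
    exact IsClosed.inter (isClosed_le (by fun_prop) (by fun_prop))
      (isClosed_le (by fun_prop) (by fun_prop))
  have hcont : ContinuousOn Ψ K := by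
    have hG : ∀ f : ℝ × ℝ × ℝ → ℝ, Continuous f → (∀ p ∈ K, f p < 1) →
        ContinuousOn (fun p => G q (f p)) K := fun f hf h =>
      (Pool.Agent.Riesz.G_continuousOn q).comp hf.continuousOn h
    have c1 := hG (fun p => -p.1) (by fun_prop) (by rintro p ⟨h1, -⟩; linarith)
    have c2 := hG (fun p => -p.2.1) (by fun_prop) (by rintro p ⟨-, -, h3, -⟩; linarith)
    have c3 := hG (fun p => p.2.2) (by fun_prop) (by rintro p ⟨-, -, -, -, -, h6, -⟩; linarith)
    have c4 := hG (fun p => 2 * p.2.2 - 1) (by fun_prop)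
      (by rintro p ⟨-, -, -, -, -, h6, -⟩; linarith)
    exact (((c1.const_mul _).add (c2.const_mul _)).add (c3.const_mul _)).add (c4.const_mul _)
  -- reduction of points of the domain
  have hred : ∀ a g, InDom n a g → om n a g ≤ 1 / 2 →
      ∃ p ∈ K, Ψ p = Pool.Agent.Riesz.Phi n q a g := by
    intro a g ⟨h1, h2, h3, h4⟩ h5
    have hden : 0 < 1 - ((n : ℝ) - 1) * g := by linarith
    have hom0 : 0 ≤ om n a g := by unfold om; positivity
    have hma : (n : ℝ) * a ^ 2 = om n a g * (1 - (n - 1) * g) := by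
      unfold om; field_simp
    have ha1 : a ≤ 1 := by
      have h6 : ((n : ℝ) - 1) * g ≥ 0 := mul_nonneg (by linarith) h2
      by_contra hc
      push Not at hc
      have : 1 < (n : ℝ) * a ^ 2 := by nlinarith
      have : om n a g * (1 - ((n : ℝ) - 1) * g) ≤ 1 := by nlinarith
      linarith
    refine ⟨(a, g, om n a g), ?_, rfl⟩
    refine ⟨h1.le, ha1, h2, ?_, hom0, h5, h3.le, ?_⟩
    · dsimp only; nlinarith
    · dsimp only; rw [hma]
  obtain ⟨p0, hp0, hp0'⟩ := hred α' γ' hdom hom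
  obtain ⟨⟨a, g, w⟩, hpK, hmin⟩ := hKc.exists_isMinOn ⟨p0, hp0⟩ hcont
  have hmin' : ∀ p ∈ K, Ψ (a, g, w) ≤ Ψ p := fun p hp => hmin hp
  have hle0 : Ψ (a, g, w) ≤ Pool.Agent.Riesz.Phi n q α' γ' := by
    rw [← hp0']
    exact hmin' p0 hp0
  obtain ⟨k1, k2, k3, k4, k5, k6, k7, k8⟩ := hpK
  dsimp only at k1 k2 k3 k4 k5 k6 k7 k8
  have hGw : 1 ≤ G q w := by
    rw [← Pool.Agent.Riesz.G_zero q]
    exact Pool.Agent.Riesz.G_mono hq0 k5 (by linarith)
  have hcoef : 0 ≤ (n : ℝ) * (n - 1) / 2 := by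
    have := mul_nonneg (show (0 : ℝ) ≤ n by linarith) (show 0 ≤ (n : ℝ) - 1 by linarith)
    linarith
  have hapos : 0 < a := by
    rcases k1.eq_or_lt with h | h
    · exfalso
      have : 4 * n + (n : ℝ) * (n - 1) / 2 * (1 - 1 / (n : ℝ)) ^ q ≤ Ψ (a, g, w) := by
        simp only [hΨ]
        rw [← h, neg_zero, Pool.Agent.Riesz.G_zero]
        have h1 : (1 - 1 / (n : ℝ)) ^ q ≤ G q (-g) := by
          rw [Pool.Agent.Riesz.G_eq (by linarith), sub_neg_eq_add, Real.rpow_neg (by linarith),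
            ← Real.inv_rpow (by linarith)]
          refine Real.rpow_le_rpow ?_ ?_ hq0.le
          · rw [sub_nonneg, div_le_one (by linarith)]
            linarith
          · rw [le_inv_comm₀ (by
              rw [sub_pos, div_lt_one (by linarith)]
              linarith) (by linarith)]
            have h2 : (1 - 1 / (n : ℝ))⁻¹ = n / (n - 1) := by
              have h3 : (n : ℝ) - 1 ≠ 0 := by
                have : 0 < (n : ℝ) - 1 := by linarith
                exact this.ne'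
              have h4 : (n : ℝ) ≠ 0 := by
                have : 0 < (n : ℝ) := by linarith
                exact this.ne'
              have h5 : 1 - 1 / (n : ℝ) = (n - 1) / n := by
                field_simp
              rw [h5, inv_div]
            rw [h2, le_div_iff₀ (by linarith)]
            linarith
        have h2 := mul_le_mul_of_nonneg_left h1 hcoef
        have h3 := Pool.Agent.Riesz.G_pos q (2 * w - 1)
        linarith
      linarith
    · exact h
  have hden : 0 < 1 - ((n : ℝ) - 1) * g := by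
    have h1 : 0 < (n : ℝ) * a ^ 2 := by positivity
    by_contra hc
    push Not at hc
    have : w * (1 - ((n : ℝ) - 1) * g) ≤ 0 := mul_nonpos_of_nonneg_of_nonpos k5 hc
    linarith
  have homw : om n a g ≤ w := by
    unfold om
    rw [div_le_iff₀ hden]; exact k8
  have hdomag : InDom n a g := ⟨hapos, k3, by linarith, by linarith⟩
  have hgpos : 0 < g := by
    rcases k3.eq_or_lt with h | h
    · exfalso
      have : (n : ℝ) * (n - 1) / 2 ≤ Ψ (a, g, w) := by
        simp only [hΨ]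
        rw [← h, neg_zero, Pool.Agent.Riesz.G_zero]
        have h1 := Pool.Agent.Riesz.G_pos q (-a)
        have h3 := Pool.Agent.Riesz.G_pos q (2 * w - 1)
        have h4 : 0 ≤ 4 * (n : ℝ) * G q (-a) := by positivity
        linarith
      linarith
    · exact h
  have hPhiΨ : Pool.Agent.Riesz.Phi n q a g ≤ Ψ (a, g, w) := by
    simp only [hΨ]
    unfold Pool.Agent.Riesz.Phi
    have h1 := Pool.Agent.Riesz.G_mono hq0 homw (by linarith)
    have h2 := Pool.Agent.Riesz.G_mono hq0 (show 2 * om n a g - 1 ≤ 2 * w - 1 by linarith)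
      (by linarith)
    linarith
  refine ⟨a, g, hdomag, hgpos, fun b h hb => ?_⟩
  by_cases hbo : om n b h ≤ 1 / 2
  · obtain ⟨p, hp, hp'⟩ := hred b h hb hbo
    rw [← hp']
    exact hPhiΨ.trans (hmin' p hp)
  · push Not at hbo
    have h1 : G q (1 / 2) ≤ G q (om n b h) := Pool.Agent.Riesz.G_mono hq0 hbo.le hb.2.2.2
    have h2 : G q (1 / 2) = (2 : ℝ) ^ q := by
      rw [Pool.Agent.Riesz.G_eq (by norm_num)]
      rw [show (1 - 1 / 2 : ℝ) = (2 : ℝ)⁻¹ by norm_num, Real.inv_rpow (by norm_num),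
          Real.rpow_neg (by norm_num), inv_inv]
    have h3 : 4 * (2 : ℝ) ^ q ≤ Pool.Agent.Riesz.Phi n q b h := by
      unfold Pool.Agent.Riesz.Phi
      have h4 := mul_nonneg hcoef (Pool.Agent.Riesz.G_pos q (-h)).le
      have h5 := Pool.Agent.Riesz.G_pos q (2 * om n b h - 1)
      have h6 : 0 ≤ 4 * (n : ℝ) * G q (-b) := by
        have := Pool.Agent.Riesz.G_pos q (-b)
        positivity
      linarith
    linarith

end Pool.Agent.RieszWin
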