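import Pool.Agent.RieszWin.Defs

set_option autoImplicit false

open Real Finset

namespace Pool.Agent.RieszWin

open Pool.Agent.RieszSmall Pool.Agent.RieszLin Pool.Agent.RieszTr

namespace FactsAux

theorem u20 {u q m κ : ℝ} (h : Win u q m κ) : (10 : ℝ) ^ 20 ≤ u :=
  (pow_le_pow_right₀ (by norm_num) (by norm_num)).trans h.hu

theorem u_pos {u q m κ : ℝ} (h : Win u q m κ) : 0 < u :=
  lt_of_lt_of_le (by positivity) (u20 h)

/-- `u ≤ u^4 / 10^60` -/
theorem u_le {u q m κ : ℝ} (h : Win u q m κ) : (10 : ℝ) ^ 60 * u ≤ u ^ 4 := by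
  have h1 := u20 h
  have h2 : ((10 : ℝ) ^ 20) ^ 3 ≤ u ^ 3 := pow_le_pow_left₀ (by positivity) h1 3
  have h3 : (10 : ℝ) ^ 60 ≤ u ^ 3 := by
    rw [← pow_mul] at h2
    exact h2
  have h4 := mul_le_mul_of_nonneg_right h3 (u_pos h).le
  calc (10 : ℝ) ^ 60 * u ≤ u ^ 3 * u := h4
    _ = u ^ 4 := by ring

/-- `10^80 ≤ u^4` -/
theorem U_ge {u q m κ : ℝ} (h : Win u q m κ) : (10 : ℝ) ^ 80 ≤ u ^ 4 := by
  have h1 := u_le h
  have h2 := u20 h
  have h3 : (10 : ℝ) ^ 80 = 10 ^ 60 * 10 ^ 20 := by norm_num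
  nlinarith

theorem U_pos {u q m κ : ℝ} (h : Win u q m κ) : 0 < u ^ 4 := pow_pos (u_pos h) 4

theorem m_pos {u q m κ : ℝ} (h : Win u q m κ) : 0 < m := by
  rw [h.hm]
  exact Real.exp_pos _

theorem u_sq {u q m κ : ℝ} (h : Win u q m κ) : (10 : ℝ) ^ 300 ≤ u ^ 2 := by
  have h1 : ((10 : ℝ) ^ 200) ^ 2 ≤ u ^ 2 := pow_le_pow_left₀ (by positivity) h.hu 2
  rw [← pow_mul] at h1
  exact (pow_le_pow_right₀ (by norm_num) (by norm_num)).trans h1

theorem m_ge {u q m κ : ℝ} (h : Win u q m κ) : (10 : ℝ) ^ 300 ≤ m := by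
  have h1 := u_sq h
  have h2 : u ^ 2 ≤ u ^ 4 :=
    pow_le_pow_right₀ (le_trans (one_le_pow₀ (by norm_num)) (u20 h)) (by norm_num)
  have h3 := Real.add_one_le_exp (u ^ 4)
  rw [h.hm]
  refine (h1.trans h2).trans (le_trans ?_ h3)
  exact (lt_add_one _).le

theorem m_big {u q m κ : ℝ} (h : Win u q m κ) : (10 : ℝ) ^ 30 ≤ m :=
  (pow_le_pow_right₀ (by norm_num) (by norm_num)).trans (m_ge h)

theorem q_pos {u q m κ : ℝ} (h : Win u q m κ) : 0 < q := by
  have h1 := mul_pos (m_pos h) (U_pos h)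
  have h2 := h.plo
  linarith

theorem log_u {u q m κ : ℝ} (h : Win u q m κ) : Real.log u ≤ u := by
  have := Real.log_le_sub_one_of_pos (u_pos h)
  linarith

theorem log_u0 {u q m κ : ℝ} (h : Win u q m κ) : 0 ≤ Real.log u :=
  Real.log_nonneg (le_trans (one_le_pow₀ (by norm_num)) (u20 h))

theorem el_lo {u q m κ : ℝ} (h : Win u q m κ) : 998 / 1000 * u ^ 4 ≤ el κ := by
  have hm := m_pos h
  have hU := U_pos h
  have h1 : Real.log (m * κ) ≤ Real.log (10 ^ 105 * u ^ 4) :=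
    Real.log_le_log (mul_pos hm h.hk) h.hi
  rw [Real.log_mul hm.ne' h.hk.ne', Real.log_mul (by positivity) hU.ne', h.hm, Real.log_exp,
    Real.log_pow, Real.log_pow] at h1
  have h2 : Real.log 10 ≤ 9 := by
    have := Real.log_le_sub_one_of_pos (show (0:ℝ) < 10 by norm_num)
    linarith
  have h3 := log_u h
  have h4 := u_le h
  have h5 := U_ge h
  have h6 := u_pos h
  rw [el]
  push_cast at h1
  nlinarith

theorem el_hi {u q m κ : ℝ} (h : Win u q m κ) : el κ ≤ 1002 / 1000 * u ^ 4 := by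
  have hm := m_pos h
  have hU := U_pos h
  have h1 : 0 ≤ Real.log (m * κ * u ^ 4) := Real.log_nonneg h.lo
  rw [Real.log_mul (mul_pos hm h.hk).ne' hU.ne', Real.log_mul hm.ne' h.hk.ne', h.hm, Real.log_exp,
    Real.log_pow] at h1
  have h3 := log_u h
  have h4 := u_le h
  have h6 := u_pos h
  rw [el]
  push_cast at h1
  nlinarith

/-- `11 (10 U + 1) ≤ exp (U/10)` -/
theorem exp_big {U : ℝ} (hU : (10 : ℝ) ^ 80 ≤ U) : 11 * (10 * U + 1) ≤ Real.exp (U / 10) := by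
  have h0 : (10 : ℝ) ^ 10 ≤ U := (pow_le_pow_right₀ (by norm_num) (by norm_num)).trans hU
  have h1 : 0 ≤ U / 10 := by
    have : (0:ℝ) < 10 ^ 10 := by positivity
    linarith
  have h2 := Real.quadratic_le_exp_of_nonneg h1
  nlinarith

/-- `|log K| ≤ 10 U`: with `y = -log K / (q+1)`, `|y| ≤ 11/m`. -/
theorem y_bd {u q m κ K : ℝ} (h : Win u q m κ)
    (hl : |Real.log K| ≤ 10 * u ^ 4) : |-Real.log K / (q + 1)| ≤ 11 / m := by
  have hm := m_pos h
  have hU := U_pos h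
  have hq := q_pos h
  rw [abs_div, abs_neg, abs_of_pos (by linarith : (0:ℝ) < q + 1), div_le_div_iff₀ (by linarith) hm]
  have h1 := h.plo
  have h2 : |Real.log K| * m ≤ 10 * u ^ 4 * m := mul_le_mul_of_nonneg_right hl hm.le
  have h3 : 0 < m * u ^ 4 := mul_pos hm hU
  nlinarith

theorem y_small {u q m κ K : ℝ} (h : Win u q m κ)
    (hl : |Real.log K| ≤ 10 * u ^ 4) : |-Real.log K / (q + 1)| ≤ 1 / 1000 := by
  refine (y_bd h hl).trans ?_
  rw [div_le_div_iff₀ (m_pos h) (by norm_num)]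
  have h1 := m_big h
  have h2 : (11 * 1000 : ℝ) ≤ 10 ^ 30 := by norm_num
  linarith

/-- `(11/m) (10 U + 1) ≤ exp (-(9/10) U)` -/
theorem tail {u q m κ : ℝ} (h : Win u q m κ) :
    11 / m * (10 * u ^ 4 + 1) ≤ Real.exp (-(9 / 10) * u ^ 4) := by
  have h1 := exp_big (U_ge h)
  have h2 : Real.exp (-(9 / 10) * u ^ 4) = Real.exp (u ^ 4 / 10) / m := by
    rw [h.hm, ← Real.exp_sub]
    congr 1
    ring
  rw [h2, div_mul_eq_mul_div]
  exact div_le_div_of_nonneg_right h1 (m_pos h).le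

theorem rpow_eq {q K : ℝ} (hK : 0 < K) :
    K ^ (-(1 / (q + 1))) = Real.exp (-Real.log K / (q + 1)) := by
  rw [Real.rpow_def_of_pos hK]
  congr 1
  ring

theorem exp_sub {y : ℝ} (hy : |y| ≤ 1 / 1000) : |Real.exp y - 1 - y| ≤ y ^ 2 :=
  Real.abs_exp_sub_one_sub_id_le (hy.trans (by norm_num))

end FactsAux

open FactsAux

/-- MODULE RW1 (facts of the regime). All elementary. -/
theorem Win.pos {u q m κ : ℝ} (h : Win u q m κ) : 0 < u ∧ 0 < m ∧ 0 < q ∧ 0 < κ ∧ κ < 1 := by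
  refine ⟨u_pos h, m_pos h, q_pos h, h.hk, ?_⟩
  have h1 := el_lo h
  have h2 := U_pos h
  rw [el] at h1
  exact (Real.log_neg_iff h.hk).1 (by linarith)

/-- `κ ≤ 10^105 u^4 exp (-u^4)`, `κ ≥ exp (-u^4) / u^4`; `log u ≤ u`. -/
theorem Win.el_bds {u q m κ : ℝ} (h : Win u q m κ) :
    998 / 1000 * u ^ 4 ≤ el κ ∧ el κ ≤ 1002 / 1000 * u ^ 4 :=
  ⟨el_lo h, el_hi h⟩

/-- `60 log u ≤ u^4 / 1000` -/
theorem Win.big {u q m κ : ℝ} (h : Win u q m κ) :
    (10 : ℝ) ^ 300 ≤ u ^ 2 ∧ u ^ 60 ≤ Real.exp (u ^ 4 / 1000) ∧ (10 : ℝ) ^ 300 ≤ m := by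
  refine ⟨u_sq h, ?_, m_ge h⟩
  have h1 : u ^ 60 = Real.exp (60 * Real.log u) := by
    rw [← Real.exp_log (u_pos h), ← Real.exp_nat_mul, Real.log_exp]
    norm_num
  rw [h1]
  apply Real.exp_le_exp.2
  have h2 := log_u h
  have h3 := u_le h
  have h4 := u_pos h
  nlinarith

/-- `(q+1) log 2 ≥ m/2 ≥ 200 u^4` -/
theorem Win.two {u q m κ : ℝ} (h : Win u q m κ) :
    (2 : ℝ) ^ (-(q + 1)) ≤ Real.exp (-(100 * u ^ 4)) ∧ (2 : ℝ) ^ (-(q + 1)) ≤ κ := by
  have h1 : (2 : ℝ) ^ (-(q + 1)) ≤ Real.exp (-(100 * u ^ 4)) := by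
    rw [Real.rpow_def_of_pos (by norm_num)]
    apply Real.exp_le_exp.2
    have h2 : (1 : ℝ) / 2 < Real.log 2 := by
      have := Real.log_two_gt_d9
      linarith
    have h3 := h.plo
    have h4 := q_pos h
    have h5 := m_big h
    have h6 := U_pos h
    have h7 : (10 : ℝ) ^ 30 * u ^ 4 ≤ m * u ^ 4 := mul_le_mul_of_nonneg_right h5 h6.le
    nlinarith
  refine ⟨h1, h1.trans ?_⟩
  have h8 : κ = Real.exp (Real.log κ) := (Real.exp_log h.hk).symm
  rw [h8]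
  apply Real.exp_le_exp.2
  have h9 := el_hi h
  rw [el] at h9
  have h10 := U_pos h
  linarith

/-- `2^(-(q+1))` is below every `K` with `|log K| ≤ 10 u^4`. -/
theorem Win.two_le {u q m κ K : ℝ} (h : Win u q m κ) (hK : 0 < K)
    (hl : |Real.log K| ≤ 10 * u ^ 4) : (2 : ℝ) ^ (-(q + 1)) ≤ K := by
  refine h.two.1.trans ?_
  have h8 : K = Real.exp (Real.log K) := (Real.exp_log hK).symm
  rw [h8]
  apply Real.exp_le_exp.2
  have h9 := (abs_le.1 hl).1
  have h10 := U_pos h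
  linarith

/-- With `x = -log K`, `p = q + 1`: `sl q K = q (exp (x/p) - 1)`, `|exp y - 1 - y| ≤ y²` for
`|y| ≤ 1`, so `|sl q K - x| ≤ |x|/p + x²/p ≤ 200 u^8 / (m u^4)`. -/
theorem Win.sl_near {u q m κ K : ℝ} (h : Win u q m κ) (hK : 0 < K)
    (hl : |Real.log K| ≤ 10 * u ^ 4) :
    |sl q K + Real.log K| ≤ Real.exp (-(9 / 10) * u ^ 4) := by
  have hq := q_pos h
  have hp : 0 < q + 1 := by linarith
  have hm := m_pos h
  rw [sl, rpow_eq hK]
  set y : ℝ := -Real.log K / (q + 1) with hy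
  have hyl : (q + 1) * y = -Real.log K := by
    rw [hy]
    field_simp
  have hy1 : |y| ≤ 11 / m := y_bd h hl
  have hy2 := exp_sub (y_small h hl)
  rw [← hy] at hy2
  have h1 : q * (Real.exp y - 1) + Real.log K = q * (Real.exp y - 1 - y) - y := by
    linear_combination hyl
  rw [h1]
  have h2 : |q * (Real.exp y - 1 - y) - y| ≤ q * y ^ 2 + |y| := by
    refine (abs_sub _ _).trans ?_
    rw [abs_mul, abs_of_pos hq]
    gcongr
  have h3 : (q + 1) * |y| ≤ 10 * u ^ 4 := by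
    have : |(q + 1) * y| ≤ 10 * u ^ 4 := by
      rw [hyl, abs_neg]
      exact hl
    rwa [abs_mul, abs_of_pos hp] at this
  have h4 : q * y ^ 2 + |y| ≤ 11 / m * (10 * u ^ 4 + 1) := by
    have h5 : 0 ≤ |y| := abs_nonneg y
    have h6 : y ^ 2 = |y| * |y| := by rw [← sq, sq_abs]
    rw [h6]
    calc q * (|y| * |y|) + |y| ≤ |y| * ((q + 1) * |y| + 1) := by nlinarith
      _ ≤ 11 / m * (10 * u ^ 4 + 1) := by
        apply mul_le_mul hy1 (by linarith)
        · positivity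
        · positivity
  exact h2.trans (h4.trans (tail h))

/-- `cv q K = K^(-1/p)/K`, `K^(-1/p) = exp (-log K / p) ≤ 101/100`. -/
theorem Win.cv_near {u q m κ K : ℝ} (h : Win u q m κ) (hK : 0 < K)
    (hl : |Real.log K| ≤ 10 * u ^ 4) : 0 ≤ cv q K ∧ cv q K ≤ 101 / 100 / K := by
  rw [cv, rpow_eq hK]
  refine ⟨by positivity, div_le_div_of_nonneg_right ?_ hK.le⟩
  have h1 := y_small h hl
  have h2 := exp_sub h1
  set y : ℝ := -Real.log K / (q + 1) with hy
  have h3 := (abs_le.1 h1)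
  have h4 := (abs_le.1 h2).2
  nlinarith

/-- `Φ(K) = K (1 + p (exp (x/p) - 1))`, `x = -log K`. -/
theorem Win.Phi_near {u q m κ K : ℝ} (h : Win u q m κ) (hK : 0 < K)
    (hl : |Real.log K| ≤ 10 * u ^ 4) :
    Phi q K ≤ Fh K + K * Real.exp (-(9 / 10) * u ^ 4) := by
  have hq := q_pos h
  have hp : 0 < q + 1 := by linarith
  have hm := m_pos h
  rw [Phi, if_pos (h.two_le hK hl), Fh]
  have hr : K ^ (q / (q + 1)) = K * Real.exp (-Real.log K / (q + 1)) := by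
    rw [← rpow_eq hK]
    nth_rewrite 2 [← Real.rpow_one K]
    rw [← Real.rpow_add hK]
    congr 1
    field_simp
    ring
  rw [hr]
  set y : ℝ := -Real.log K / (q + 1) with hy
  have hyl : (q + 1) * y = -Real.log K := by
    rw [hy]
    field_simp
  have hy1 : |y| ≤ 11 / m := y_bd h hl
  have hy2 := exp_sub (y_small h hl)
  rw [← hy] at hy2
  have h3 : (q + 1) * |y| ≤ 10 * u ^ 4 := by
    have : |(q + 1) * y| ≤ 10 * u ^ 4 := by
      rw [hyl, abs_neg]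
      exact hl
    rwa [abs_mul, abs_of_pos hp] at this
  have h4 : (q + 1) * (Real.exp y - 1 - y) ≤ Real.exp (-(9 / 10) * u ^ 4) := by
    have h5 : 0 ≤ |y| := abs_nonneg y
    have h6 : y ^ 2 = |y| * |y| := by rw [← sq, sq_abs]
    have h7 : (q + 1) * (Real.exp y - 1 - y) ≤ (q + 1) * (|y| * |y|) := by
      rw [← h6]
      exact mul_le_mul_of_nonneg_left (abs_le.1 hy2).2 hp.le
    have h8 : (q + 1) * (|y| * |y|) ≤ 11 / m * (10 * u ^ 4 + 1) := by
      calc (q + 1) * (|y| * |y|) = |y| * ((q + 1) * |y|) := by ring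
        _ ≤ 11 / m * (10 * u ^ 4 + 1) := by
          apply mul_le_mul hy1 (by linarith)
          · positivity
          · positivity
    exact h7.trans (h8.trans (tail h))
  have h9 : (q + 1) * (K * Real.exp y) - q * K - (K - K * Real.log K) =
      K * ((q + 1) * (Real.exp y - 1 - y)) := by
    linear_combination K * hyl
  have h10 := mul_le_mul_of_nonneg_left h4 hK.le
  linarith

/-- `Phi_lower` -/
theorem Fh_le_Phi {q K : ℝ} (hq : 0 < q) (hK : 0 < K) : Fh K ≤ Phi q K := by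
  exact Phi_lower hq hK

end Pool.Agent.RieszWin
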