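import Pool.Agent.RieszWin.CExist
import Pool.Agent.RieszWin.Facts

set_option autoImplicit false

open Real Finset

namespace Pool.Agent.RieszWin

open Pool.Agent.RieszSmall Pool.Agent.RieszLin Pool.Agent.RieszTr

open Pool.Agent.Riesz (InDom om G)

/-- the regime for the lifted square -/
structure Rg (u q m : ℝ) : Prop where
  win : Win u q m (K0 q m)
  lo : 1 / u ≤ m * K0 q m
  hi : lam m (K0 q m) ≤ 23 / 20

namespace CTestAux

open FactsAux

theorem K_le {u q m : ℝ} (h : Rg u q m) : m * K0 q m ≤ 1153 / 1000 * u ^ 4 := by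
  have h1 := h.hi
  have h2 := el_lo h.win
  have h3 := el_hi h.win
  have h4 := U_pos h.win
  have h5 : 0 < el (K0 q m) := by linarith
  rw [lam, div_le_iff₀ h5] at h1
  linarith

theorem m_U {u q m : ℝ} (h : Rg u q m) : (10 : ℝ) ^ 70 * u ^ 4 ≤ m := by
  have h1 := Real.quadratic_le_exp_of_nonneg (U_pos h.win).le
  rw [← h.win.hm] at h1
  have h2 := U_ge h.win
  have h3 := U_pos h.win
  have h4 : (10 : ℝ) ^ 80 * u ^ 4 ≤ u ^ 4 * u ^ 4 := mul_le_mul_of_nonneg_right h2 h3.le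
  nlinarith

/-- the pair term of the simplex part -/
theorem B_le {q N m : ℝ} (hq : 0 ≤ q) (hN : 2 ≤ N) (hm : m = N + 2) :
    N * (N - 1) / 2 * (1 - 1 / N) ^ q ≤ m * (m * K0 q m) / 2 := by
  have hm0 : 0 < m := by linarith
  have h1 : 1 / N ≤ 1 := by
    rw [div_le_one (by linarith)]
    linarith
  have h2 : 1 / m ≤ 1 / N := one_div_le_one_div_of_le (by linarith) (by linarith)
  have h3 : (1 - 1 / N) ^ q ≤ (1 - 1 / m) ^ q :=
    Real.rpow_le_rpow (by linarith) (by linarith) hq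
  have h4 : 0 < 1 - 1 / m := by
    have : 1 / m < 1 := by
      rw [div_lt_one hm0]
      linarith
    linarith
  have h5 : K0 q m = (1 - 1 / m) ^ q * (1 - 1 / m) := by
    rw [K0, Real.rpow_add h4, Real.rpow_one]
  have h6 : 0 ≤ (1 - 1 / m) ^ q := (Real.rpow_pos_of_pos h4 q).le
  have h7 : m * (m * K0 q m) / 2 = (m * (m - 1)) / 2 * (1 - 1 / m) ^ q := by
    rw [h5]
    field_simp
  rw [h7]
  calc N * (N - 1) / 2 * (1 - 1 / N) ^ q ≤ N * (N - 1) / 2 * (1 - 1 / m) ^ q :=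
        mul_le_mul_of_nonneg_left h3 (by nlinarith)
    _ ≤ (m * (m - 1)) / 2 * (1 - 1 / m) ^ q := by
        refine mul_le_mul_of_nonneg_right ?_ h6
        rw [hm]
        nlinarith

theorem first {q : ℝ} (hq : 1 ≤ q) : G q (-(1 / q)) ≤ 1 / 2 := by
  have hq0 : 0 < q := by linarith
  have h0 : 0 < 1 / q := by positivity
  rw [Pool.Agent.Riesz.G_eq (by linarith), sub_neg_eq_add, Real.rpow_neg (by linarith)]
  have h1 := one_add_mul_self_le_rpow_one_add (s := 1 / q) (by linarith) hq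
  rw [mul_one_div_cancel hq0.ne'] at h1
  rw [inv_eq_one_div]
  exact one_div_le_one_div_of_le (by norm_num) (by linarith)

theorem second {q N ε : ℝ} (hq : 0 ≤ q) (hN : 2 ≤ N) (hε : 0 ≤ ε) (hε1 : ε ≤ 1) :
    G q (-((1 - ε) / (N - 1))) ≤ (1 - 1 / N) ^ q * Real.exp (q * (ε / (N - 1))) := by
  have hN1 : 0 < N - 1 := by linarith
  have hN0 : 0 < N := by linarith
  have hg : 0 ≤ (1 - ε) / (N - 1) := div_nonneg (by linarith) hN1.le
  have h1 : 1 - 1 / N = (1 + 1 / (N - 1))⁻¹ := by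
    have : 1 + 1 / (N - 1) = N / (N - 1) := by
      field_simp
      ring
    rw [this, inv_div, sub_div, div_self hN0.ne']
  have hw : 0 < 1 + 1 / (N - 1) := by positivity
  have h2 : 0 < 1 - 1 / N := by
    rw [h1]
    positivity
  unfold Pool.Agent.Riesz.G Pool.Agent.Riesz.LL
  rw [Real.rpow_def_of_pos h2, ← Real.exp_add, h1, Real.log_inv, sub_neg_eq_add]
  apply Real.exp_le_exp.2
  have h3 : Real.log (1 + 1 / (N - 1)) - Real.log (1 + (1 - ε) / (N - 1)) ≤ ε / (N - 1) := by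
    rw [← Real.log_div hw.ne' (by linarith)]
    refine (Real.log_le_sub_one_of_pos (by positivity)).trans ?_
    have h4 : (1 + 1 / (N - 1)) / (1 + (1 - ε) / (N - 1)) - 1 =
        ε / (N - 1) / (1 + (1 - ε) / (N - 1)) := by
      have h5 : (1 + (1 - ε) / (N - 1)) ≠ 0 := by linarith
      rw [div_sub_one h5]
      congr 1
      field_simp
      ring
    rw [h4]
    exact div_le_self (div_nonneg hε hN1.le) (by linarith)
  have h6 := mul_le_mul_of_nonneg_left h3 hq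
  linarith

theorem third {q w : ℝ} (hq : 0 ≤ q) (hw : w < 1) : G q w ≤ Real.exp (q * (w / (1 - w))) := by
  unfold Pool.Agent.Riesz.G Pool.Agent.Riesz.LL
  apply Real.exp_le_exp.2
  have h1 : 0 < 1 - w := by linarith
  have h2 := Real.one_sub_inv_le_log_of_pos h1
  have h3 : w / (1 - w) = -(1 - (1 - w)⁻¹) := by
    field_simp
    ring
  rw [h3]
  nlinarith

theorem fourth {q w : ℝ} (hq : 0 ≤ q) (hw : w ≤ 1 / 2) : G q (2 * w - 1) ≤ 1 := by
  unfold Pool.Agent.Riesz.G Pool.Agent.Riesz.LL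
  apply Real.exp_le_one_iff.2
  have h1 : 0 ≤ Real.log (1 - (2 * w - 1)) := Real.log_nonneg (by linarith)
  nlinarith

/-- `exp y ≤ 1 + y + y²` for `|y| ≤ 1` -/
theorem exp_le {y : ℝ} (h0 : 0 ≤ y) (h1 : y ≤ 1) : Real.exp y ≤ 1 + y + y ^ 2 := by
  have := Real.abs_exp_sub_one_sub_id_le (x := y) (by rw [abs_of_nonneg h0]; exact h1)
  have := (abs_le.1 this).2
  linarith

/-- The estimates for the test point `α' = 1/q`, `γ' = (1 - ε)/(n-1)`, `ε = 5/(4 u^8)`. -/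
theorem main {u q m N : ℝ} (h : Rg u q m) (hm : m = N + 2) :
    ∃ α' γ' : ℝ, InDom N α' γ' ∧ om N α' γ' ≤ 1 / 2 ∧
      Pool.Agent.Riesz.Phi N q α' γ' ≤
        2 * N + N * (N - 1) / 2 * (1 - 1 / N) ^ q + 77 / 100 * m + 2 := by
  obtain ⟨U, hU⟩ : ∃ U : ℝ, U = u ^ 4 := ⟨_, rfl⟩
  have hU0 : 0 < U := by rw [hU]; exact U_pos h.win
  have hUge : (10 : ℝ) ^ 80 ≤ U := by rw [hU]; exact U_ge h.win
  have hmU : (10 : ℝ) ^ 70 * U ≤ m := by rw [hU]; exact m_U h
  have hK : m * K0 q m ≤ 1153 / 1000 * U := by rw [hU]; exact K_le h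
  have hq1 : 999 / 1000 * (m * U) ≤ q := by rw [hU]; exact h.win.plo
  have hq2 : q + 1 ≤ 1001 / 1000 * (m * U) := by rw [hU]; exact h.win.phi
  have hmE : m = Real.exp U := by rw [hU]; exact h.win.hm
  have hU6 : (10 : ℝ) ^ 6 ≤ U :=
    (pow_le_pow_right₀ (by norm_num) (by norm_num)).trans hUge
  have hm6 : (10 : ℝ) ^ 6 ≤ m := by
    have : (1 : ℝ) * U ≤ (10 : ℝ) ^ 70 * U := mul_le_mul_of_nonneg_right (by norm_num) hU0.le
    linarith
  clear hUge hmU
  have hm0 : 0 < m := by linarith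
  have hmU0 : 0 < m * U := mul_pos hm0 hU0
  have hq0 : 0 < q := by linarith
  have hN : 999 / 1000 * m ≤ N := by linarith
  have hN0 : 0 < N := by linarith
  have hN2 : 2 ≤ N := by linarith
  have hN1 : 998 / 1000 * m ≤ N - 1 := by linarith
  have hmm : m ≤ m * U := le_mul_of_one_le_right hm0.le (by linarith)
  have hq3 : 1 ≤ q := by linarith
  obtain ⟨ε, hε⟩ : ∃ ε : ℝ, ε = 5 / (4 * U ^ 2) := ⟨_, rfl⟩
  have hε0 : 0 < ε := by rw [hε]; positivity
  have hε1 : ε ≤ 1 := by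
    rw [hε, div_le_one (by positivity)]
    have h1 : ((10 : ℝ) ^ 6) ^ 2 ≤ U ^ 2 := pow_le_pow_left₀ (by norm_num) hU6 2
    norm_num at h1
    linarith
  have hNne : N - 1 ≠ 0 := by linarith
  obtain ⟨w, hw⟩ : ∃ w : ℝ, w = om N (1 / q) ((1 - ε) / (N - 1)) := ⟨_, rfl⟩
  have hw1 : w = N * (1 / q) ^ 2 / ε := by
    rw [hw, Pool.Agent.Riesz.om, mul_div_cancel₀ _ hNne]
    congr 1
    ring
  have hw2 : q * w = 4 / 5 * N * U ^ 2 / q := by
    rw [hw1, hε]
    field_simp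
  have hw0 : 0 ≤ w := by rw [hw1]; positivity
  have hw3 : q * w ≤ 801 / 1000 * U := by
    rw [hw2, div_le_iff₀ hq0]
    have h1 : 801 / 1000 * U * (999 / 1000 * (m * U)) ≤ 801 / 1000 * U * q :=
      mul_le_mul_of_nonneg_left hq1 (by positivity)
    have h2 : N * U ^ 2 ≤ m * U ^ 2 := mul_le_mul_of_nonneg_right (by linarith) (by positivity)
    have h3 : 0 ≤ m * U ^ 2 := by positivity
    linarith
  have hw4 : w ≤ 1 / 1000 := by
    have h1 : w * (999 / 1000 * (m * U)) ≤ w * q := mul_le_mul_of_nonneg_left hq1 hw0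
    have h2 : w * (999 / 1000 * m) * U ≤ 801 / 1000 * U := by linarith
    have h3 : w * (999 / 1000 * m) ≤ 801 / 1000 := le_of_mul_le_mul_right h2 hU0
    have h4 : w * 1000 ≤ w * m := mul_le_mul_of_nonneg_left (by linarith) hw0
    linarith
  have hdom : InDom N (1 / q) ((1 - ε) / (N - 1)) := by
    refine ⟨by positivity, div_nonneg (by linarith) (by linarith), ?_, ?_⟩
    · rw [mul_div_cancel₀ _ hNne]
      linarith
    · rw [← hw]
      linarith
  refine ⟨1 / q, (1 - ε) / (N - 1), hdom, ?_, ?_⟩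
  · rw [← hw]
    linarith
  rw [Pool.Agent.Riesz.Phi, ← hw]
  have e1 := first hq3
  have e2 := second hq0.le hN2 hε0.le hε1
  have e3 := third hq0.le (show w < 1 by linarith)
  have e4 := fourth hq0.le (show w ≤ 1 / 2 by linarith)
  -- the second term
  obtain ⟨B, hB⟩ : ∃ B : ℝ, B = N * (N - 1) / 2 * (1 - 1 / N) ^ q := ⟨_, rfl⟩
  have hB0 : 0 ≤ B := by
    rw [hB]
    have h1 : 1 / N ≤ 1 := by
      rw [div_le_one (by linarith)]
      linarith
    have h2 : 0 ≤ (1 - 1 / N) ^ q := Real.rpow_nonneg (by linarith) q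
    have h3 : 0 ≤ N * (N - 1) / 2 := div_nonneg (mul_nonneg hN0.le (by linarith)) (by norm_num)
    exact mul_nonneg h3 h2
  have hB1 : B ≤ 577 / 1000 * (m * U) := by
    rw [hB]
    refine (B_le hq0.le hN2 hm).trans ?_
    have h1 := mul_le_mul_of_nonneg_left hK hm0.le
    linarith
  have hy0 : 0 ≤ q * (ε / (N - 1)) :=
    mul_nonneg hq0.le (div_nonneg hε0.le (by linarith))
  have hy1 : q * (ε / (N - 1)) ≤ 126 / 100 / U := by
    rw [hε, ← mul_div_assoc, div_le_div_iff₀ (by linarith) hU0]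
    have h1 : q * (5 / (4 * U ^ 2)) * U = 5 / 4 * (q / U) := by
      field_simp
    rw [h1]
    have h2 : q / U ≤ 1001 / 1000 * m := by
      rw [div_le_iff₀ hU0]
      linarith
    linarith
  have hy2 : 126 / 100 / U ≤ 1 / 1000 := by
    rw [div_le_div_iff₀ hU0 (by norm_num)]
    linarith
  have hy3 : Real.exp (q * (ε / (N - 1))) ≤ 1 + 13 / 10 / U := by
    refine (exp_le hy0 (by linarith)).trans ?_
    have h1 : (q * (ε / (N - 1))) ^ 2 ≤ 1 / 1000 * (126 / 100 / U) := by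
      rw [pow_two]
      exact mul_le_mul (hy1.trans hy2) hy1 hy0 (by norm_num)
    have h2 : 13 / 10 / U = 126 / 100 / U * (130 / 126) := by ring
    have h3 : 0 < 126 / 100 / U := by positivity
    rw [h2]
    linarith
  have e2' : N * (N - 1) / 2 * G q (-((1 - ε) / (N - 1))) ≤ B + 7502 / 10000 * m := by
    have h1 : N * (N - 1) / 2 * G q (-((1 - ε) / (N - 1))) ≤
        N * (N - 1) / 2 * ((1 - 1 / N) ^ q * Real.exp (q * (ε / (N - 1)))) :=
      mul_le_mul_of_nonneg_left e2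
        (div_nonneg (mul_nonneg hN0.le (by linarith)) (by norm_num))
    have h2 : N * (N - 1) / 2 * ((1 - 1 / N) ^ q * Real.exp (q * (ε / (N - 1)))) =
        B * Real.exp (q * (ε / (N - 1))) := by
      rw [hB]
      ring
    have h3 : B * Real.exp (q * (ε / (N - 1))) ≤ B * (1 + 13 / 10 / U) :=
      mul_le_mul_of_nonneg_left hy3 hB0
    have h4 : B * (13 / 10 / U) ≤ 577 / 1000 * (m * U) * (13 / 10 / U) :=
      mul_le_mul_of_nonneg_right hB1 (by positivity)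
    have h5 : 577 / 1000 * (m * U) * (13 / 10 / U) = 7501 / 10000 * m := by
      field_simp
      norm_num
    linarith
  -- the third term
  have e3' : G q w ≤ m / 400 := by
    refine e3.trans ?_
    have h1 : q * (w / (1 - w)) ≤ 81 / 100 * U := by
      rw [← mul_div_assoc, div_le_iff₀ (by linarith)]
      have h0 : U * w ≤ U * (1 / 1000) := mul_le_mul_of_nonneg_left hw4 hU0.le
      linarith
    have h2 : Real.exp (q * (w / (1 - w))) ≤ Real.exp (81 / 100 * U) := Real.exp_le_exp.2 h1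
    refine h2.trans ?_
    have h3 : m = Real.exp (81 / 100 * U) * Real.exp (19 / 100 * U) := by
      rw [← Real.exp_add, hmE]
      congr 1
      ring
    have h4 : 400 ≤ Real.exp (19 / 100 * U) := by
      have := Real.add_one_le_exp (19 / 100 * U)
      linarith
    have h5 : 0 < Real.exp (81 / 100 * U) := Real.exp_pos _
    have h6 := mul_le_mul_of_nonneg_left h4 h5.le
    rw [h3]
    linarith
  have e1' : 4 * N * G q (-(1 / q)) ≤ 2 * N := by
    have h1 : 4 * N * G q (-(1 / q)) ≤ 4 * N * (1 / 2) :=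
      mul_le_mul_of_nonneg_left e1 (by linarith)
    linarith
  rw [← hB]
  linarith

end CTestAux

open CTestAux FactsAux

/-- MODULE RW62 (a test point). `m = n + 2`, `p = q + 1`,
`α' = 6/(5 q)`, `γ' = (1 - ε)/(n-1)`, `ε = 3/(2 u^8)`. Then
`ω = n α'²/ε = (24/25) n u^8/q² ≤ 0.97/m` (`q ≥ 0.999 m u^4`);
`4 n (1+α')^(-q) ≤ 4 n · 31/100` (`q log(1+α') ≥ 6/5 - tiny`);
`(1+γ')^(-q) = (1-1/n)^q ((1 + 1/(n-1))/(1+γ'))^q ≤ (1-1/n)^q exp(q ε/(n-1))
 ≤ (1-1/n)^q (1 + 8/(5 u^4))`, and `n(n-1)/2 (1-1/n)^q ≤ (101/100) m² K₀/2`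
(`(1-1/n)^q ≤ (1-1/m)^q = K₀/(1-1/m)`), `m K₀ = lam el ≤ 1.16 u^4`: the excess of the second term is
at most `0.97 m`; `4 (1-ω)^(-q) ≤ 4 exp(1.01 q ω) ≤ 4 exp(0.99 u^4) ≤ m/100`;
`2 (2-2ω)^(-q) ≤ 1`. In total `Phi ≤ n(n-1)/2 (1-1/n)^q + 2.3 m`, and
`n(n-1)/2 (1-1/n)^q ≤ m u^4` is far below `n(n-1)/2 - 2.3 m`. -/
theorem Rg.test {u q : ℝ} {n : ℕ} (h : Rg u q ((n : ℝ) + 2)) :
    ∃ α' γ' : ℝ, InDom n α' γ' ∧ om n α' γ' ≤ 1 / 2 ∧
      Pool.Agent.Riesz.Phi n q α' γ' < 4 * n + (n : ℝ) * (n - 1) / 2 * (1 - 1 / (n : ℝ)) ^ q ∧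
      Pool.Agent.Riesz.Phi n q α' γ' ≤ 4 * (2 : ℝ) ^ q ∧
      Pool.Agent.Riesz.Phi n q α' γ' < (n : ℝ) * (n - 1) / 2 := by
  obtain ⟨α', γ', hd, ho, hP⟩ := main (N := (n : ℝ)) h rfl
  obtain ⟨N, hN⟩ : ∃ N : ℝ, N = (n : ℝ) := ⟨_, rfl⟩
  rw [← hN] at h hd ho hP ⊢
  have hU0 := U_pos h.win
  have hmU := m_U h
  have hK := K_le h
  have hUge := U_ge h.win
  have hm6 : (10 : ℝ) ^ 6 ≤ N + 2 := (pow_le_pow_right₀ (by norm_num) (by norm_num)).trans
    (m_big h.win)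
  have hq1 := h.win.plo
  have hU6 : (10 : ℝ) ^ 6 ≤ u ^ 4 :=
    (pow_le_pow_right₀ (by norm_num) (by norm_num)).trans hUge
  have hq0 : 0 < q := q_pos h.win
  have hB := B_le (q := q) (N := N) (m := N + 2) hq0.le (by linarith) rfl
  have hmU2 : (10 : ℝ) ^ 6 * u ^ 4 ≤ N + 2 :=
    (mul_le_mul_of_nonneg_right (pow_le_pow_right₀ (by norm_num) (by norm_num)) hU0.le).trans hmU
  clear hUge hmU
  have h1 : Pool.Agent.Riesz.Phi N q α' γ' <
      4 * N + N * (N - 1) / 2 * (1 - 1 / N) ^ q := by linarith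
  have h3 : Pool.Agent.Riesz.Phi N q α' γ' < N * (N - 1) / 2 := by
    have h4 : (N + 2) * ((N + 2) * K0 q (N + 2)) ≤ (N + 2) * (1153 / 1000 * u ^ 4) :=
      mul_le_mul_of_nonneg_left hK (by linarith)
    have h5 : (N + 2) * (10 ^ 6 * u ^ 4) ≤ (N + 2) * (N + 2) :=
      mul_le_mul_of_nonneg_left hmU2 (by linarith)
    have h6 : (N + 2) * 10 ^ 6 ≤ (N + 2) * (N + 2) :=
      mul_le_mul_of_nonneg_left hm6 (by linarith)
    linarith
  have hq3 : N + 2 ≤ q / 1000 := by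
    have h4 : (N + 2) * 10 ^ 6 ≤ (N + 2) * u ^ 4 :=
      mul_le_mul_of_nonneg_left hU6 (by linarith)
    linarith
  refine ⟨α', γ', hd, ho, h1, ?_, h3⟩
  have h6 := one_add_mul_self_le_rpow_one_add (s := 1) (by norm_num) (p := q / 2) (by linarith)
  have h7 : (2 : ℝ) ^ q = ((1 + 1 : ℝ) ^ (q / 2)) ^ 2 := by
    rw [← Real.rpow_natCast, ← Real.rpow_mul (by norm_num)]
    norm_num
  have h8 : (q / 2) ^ 2 ≤ (2 : ℝ) ^ q := by
    rw [h7]
    exact pow_le_pow_left₀ (by linarith) (by linarith) 2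
  have h9 : (N + 2) ^ 2 ≤ (q / 1000) ^ 2 := pow_le_pow_left₀ (by linarith) hq3 2
  have h10 : 0 ≤ q ^ 2 := sq_nonneg q
  linarith

/-- `Rg.test` and `exists_min` -/
theorem Rg.exists_min {u q : ℝ} {n : ℕ} (h : Rg u q ((n : ℝ) + 2)) :
    ∃ α γ : ℝ, InDom n α γ ∧ 0 < γ ∧
      ∀ a g, InDom n a g → Pool.Agent.Riesz.Phi n q α γ ≤ Pool.Agent.Riesz.Phi n q a g := by
  obtain ⟨α', γ', hd, ho, h1, h2, h3⟩ := Rg.test h
  have hm6 : (10 : ℝ) ^ 6 ≤ (n : ℝ) + 2 := (pow_le_pow_right₀ (by norm_num) (by norm_num)).trans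
    (m_big h.win)
  have hn : 2 ≤ n := by
    have : (2 : ℝ) ≤ n := by linarith
    exact_mod_cast this
  have hq : 1 ≤ q := by
    have h4 := h.win.plo
    have h5 : (10 : ℝ) ^ 6 ≤ u ^ 4 :=
      (pow_le_pow_right₀ (by norm_num) (by norm_num)).trans (U_ge h.win)
    have h6 : (10 : ℝ) ^ 6 * 10 ^ 6 ≤ ((n : ℝ) + 2) * u ^ 4 :=
      mul_le_mul hm6 h5 (by norm_num) (by linarith)
    norm_num at h6
    linarith
  exact Pool.Agent.RieszWin.exists_min hn hq hd h1 ho h2 h3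

end Pool.Agent.RieszWin
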