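import Pool.Agent.RieszWin.Defs
import Pool.Agent.RieszLin.Aff

set_option autoImplicit false

open Real Finset

namespace Pool.Agent.RieszWin

open Pool.Agent.RieszSmall Pool.Agent.RieszLin Pool.Agent.RieszTr

section

variable {ι : Type*} [Fintype ι] [DecidableEq ι] {V : Type*} [NormedAddCommGroup V]
  [InnerProductSpace ℝ V]

omit [DecidableEq ι] [Fintype ι] in
theorem LinkAux.kernel (a b : ι → ℝ) (s : ℝ) (i j : ι) :
    b i * b j + a i * (-(s ^ 2 / 2) * a j) + a j * (-(s ^ 2 / 2) * a i)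
      = b i * b j - s * a i * (s * a j) := by
  ring

theorem LinkAux.BB_eq (q : ℝ) (a b : ι → ℝ) (s : ℝ) :
    BB q a b (fun i => -(s ^ 2 / 2) * a i) = LB q b (fun i => s * a i) := by
  unfold BB LB
  simp only [LinkAux.kernel]
  congr 2
  refine Finset.sum_congr rfl (fun i _ => ?_)
  ring

/-- MODULE RW21 (link to the energy). `dual` (RieszTr/Dual.lean) with `v = b`,
`w i = -(s ^ 2 / 2) * a i`: `v i v j + a i w j + a j w i = b i b j - (s a i)(s a j)` and
`BB q a v w = LB q b (s a)`. -/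
theorem LB_le {x : ι → V} (hx : ∀ i, ‖x i‖ = 1)
    (hlt : ∀ i j, i ≠ j → (inner ℝ (x i) (x j) : ℝ) < 1) {a : ι → ℝ}
    (hax : ∑ i, a i • x i = 0) {q : ℝ} (hq : 0 < q) (b : ι → ℝ) (s : ℝ) :
    LB q b (fun i => s * a i) ≤ En q x := by
  rw [← LinkAux.BB_eq]
  exact dual hx hlt hax hq _ _

/-- `dual_eq` -/
theorem LB_eq {x : ι → V} (hx : ∀ i, ‖x i‖ = 1)
    (hlt : ∀ i j, i ≠ j → (inner ℝ (x i) (x j) : ℝ) < 1) {a : ι → ℝ}
    (hax : ∑ i, a i • x i = 0) {q : ℝ} (hq : 0 < q) (b : ι → ℝ) (s : ℝ)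
    (hK : ∀ i j, i ≠ j → (2 : ℝ) ^ (-(q + 1)) ≤ b i * b j - s * a i * (s * a j))
    (h : En q x ≤ LB q b (fun i => s * a i)) :
    ∀ i j, i ≠ j → (1 - (inner ℝ (x i) (x j) : ℝ)) ^ (-(q + 1)) = b i * b j - s * a i * (s * a j)
    := by
  intro i j hij
  rw [← LinkAux.BB_eq] at h
  rw [← LinkAux.kernel a b s i j]
  refine dual_eq hx hlt hax hq b (fun i => -(s ^ 2 / 2) * a i) ?_ h i j hij
  intro i j hij
  rw [LinkAux.kernel a b s i j]
  exact hK i j hij

/-- `exists_aff` (RieszLin/Aff.lean), scaled. -/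
theorem exists_rel [FiniteDimensional ℝ V] (x : ι → V)
    (h : Module.finrank ℝ V + 2 ≤ Fintype.card ι) :
    ∃ a : ι → ℝ, Rel a ∧ ∑ i, a i • x i = 0 := by
  obtain ⟨a, h0, h1, hx⟩ := exists_aff x h
  have hpos : 0 < ∑ i, |a i| := by
    refine lt_of_le_of_ne (Finset.sum_nonneg fun i _ => abs_nonneg _) ?_
    intro h2
    have h3 : ∀ i ∈ (univ : Finset ι), |a i| = 0 :=
      (Finset.sum_eq_zero_iff_of_nonneg fun i _ => abs_nonneg _).1 h2.symm
    have h4 : ∑ i, a i ^ 2 = 0 := by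
      refine Finset.sum_eq_zero fun i hi => ?_
      rw [abs_eq_zero.1 (h3 i hi)]
      norm_num
    rw [h4] at h1
    exact zero_ne_one h1
  set c : ℝ := 2 / ∑ i, |a i| with hc
  have hc0 : 0 < c := by positivity
  refine ⟨fun i => c * a i, ⟨?_, ?_⟩, ?_⟩
  · rw [← Finset.mul_sum, h0, mul_zero]
  · have h2 : ∀ i, |c * a i| = c * |a i| := fun i => by rw [abs_mul, abs_of_pos hc0]
    simp only [h2]
    rw [← Finset.mul_sum, hc]
    field_simp
  · simp only [mul_smul]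
    rw [← Finset.smul_sum, hx, smul_zero]

end

end Pool.Agent.RieszWin
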