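import Pool.Agent.RieszWin.YLB
import Pool.Agent.RieszWin.Link
import Pool.Agent.RieszWin.CStat

set_option autoImplicit false

open Real Finset

namespace Pool.Agent.RieszWin

open Pool.Agent.RieszSmall Pool.Agent.RieszLin Pool.Agent.RieszTr

open Pool.Agent.Riesz (InDom om G IsSym)

section

variable {ι : Type*} [Fintype ι] [DecidableEq ι]

/-- MODULE RW67 (configurations whose relation is that of the lifted square). `b = Y/√κ` at
`p1, p2, q1, q2`, `√κ` elsewhere, `s = 2 √T`, `T = (A - ko)/2` (`s a = ± √T`, `0`); by `Sqr.e1`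
`Y²/κ = (A+ko)/2`, so `K = ko` for `(p1,p2)`, `(q1,q2)` and their diagonal entries, `K = A` for
`(p_i, q_j)`, `K = Y` for `(p_i, z)`, `(q_i, z)`, `K = κ` for `(z, z')` and `(z,z)`. `offsum_four`,
`sum_four` (or `YLB` with `θ = 0`, `g = e = e' = 0`). -/
theorem LB_square {q m κ Y A : ℝ} (hq : 0 < q) (hs : Sqr q m κ Y A)
    (hc : (Fintype.card ι : ℝ) = m + 2)
    {a : ι → ℝ} {p1 p2 q1 q2 : ι} (hp : p1 ≠ p2) (hqq : q1 ≠ q2) (h11 : p1 ≠ q1)
    (h12 : p1 ≠ q2) (h21 : p2 ≠ q1) (h22 : p2 ≠ q2) (a1 : a p1 = 1 / 2) (a2 : a p2 = 1 / 2)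
    (a3 : a q1 = -(1 / 2)) (a4 : a q2 = -(1 / 2))
    (az : ∀ z, z ≠ p1 → z ≠ p2 → z ≠ q1 → z ≠ q2 → a z = 0) :
    ∃ (b : ι → ℝ) (s : ℝ), LB q b (fun i => s * a i) = Esq q m κ Y A ∧
      b p1 * b p2 - s * a p1 * (s * a p2) = (2 : ℝ) ^ (-(q + 1)) * A ∧
      b q1 * b q2 - s * a q1 * (s * a q2) = (2 : ℝ) ^ (-(q + 1)) * A ∧
      (∀ i j, (i = p1 ∨ i = p2) → (j = q1 ∨ j = q2) → b i * b j - s * a i * (s * a j) = A) ∧
      (∀ i z, (i = p1 ∨ i = p2 ∨ i = q1 ∨ i = q2) → z ∈ Rest p1 p2 q1 q2 →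
        b i * b z - s * a i * (s * a z) = Y) ∧
      (∀ z ∈ Rest p1 p2 q1 q2, ∀ z' ∈ Rest p1 p2 q1 q2,
        b z * b z' - s * a z * (s * a z') = κ) := by
  classical
  have hk := hs.hk
  have hA := hs.hA
  have hY := hs.hY
  set ε : ℝ := (2 : ℝ) ^ (-(q + 1)) with hε
  have hε0 : 0 < ε := Real.rpow_pos_of_pos (by norm_num) _
  have hε1 : ε < 1 := Real.rpow_lt_one_of_one_lt_of_neg (by norm_num) (by linarith)
  set T : ℝ := (A - ε * A) / 2 with hT
  have hT0 : 0 < T := by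
    have h1 : 0 < A * (1 - ε) := mul_pos hA (by linarith)
    rw [hT]
    linarith
  have hTT : √T * √T = T := Real.mul_self_sqrt hT0.le
  have hkk : √κ * √κ = κ := Real.mul_self_sqrt hk.le
  have hk1 : 0 < √κ := Real.sqrt_pos.2 hk
  have hYY : Y / √κ * (Y / √κ) = (A + ε * A) / 2 := by
    have h1 : Y / √κ * (Y / √κ) = Y ^ 2 / κ := by
      rw [div_mul_div_comm, hkk, sq]
    rw [h1, div_eq_iff hk.ne']
    have h2 := hs.e1
    linarith
  have hYk : Y / √κ * √κ = Y := div_mul_cancel₀ _ hk1.ne'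
  have hr1 : p1 ∉ Rest p1 p2 q1 q2 := by simp [Rest]
  have hr2 : p2 ∉ Rest p1 p2 q1 q2 := by simp [Rest]
  have hr3 : q1 ∉ Rest p1 p2 q1 q2 := by simp [Rest]
  have hr4 : q2 ∉ Rest p1 p2 q1 q2 := by simp [Rest]
  set b : ι → ℝ := fun i => if i ∈ Rest p1 p2 q1 q2 then √κ else Y / √κ with hb
  have b1 : b p1 = Y / √κ := by
    rw [hb]
    exact if_neg hr1
  have b2 : b p2 = Y / √κ := by
    rw [hb]
    exact if_neg hr2
  have b3 : b q1 = Y / √κ := by
    rw [hb]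
    exact if_neg hr3
  have b4 : b q2 = Y / √κ := by
    rw [hb]
    exact if_neg hr4
  have bz : ∀ z ∈ Rest p1 p2 q1 q2, b z = √κ := by
    intro z hz
    rw [hb]
    exact if_pos hz
  have az' : ∀ z ∈ Rest p1 p2 q1 q2, a z = 0 := by
    intro z hz
    rw [Rest, mem_filter] at hz
    exact az z hz.2.1 hz.2.2.1 hz.2.2.2.1 hz.2.2.2.2
  have s1 : 2 * √T * a p1 = √T := by rw [a1]; ring
  have s2 : 2 * √T * a p2 = √T := by rw [a2]; ring
  have s3 : 2 * √T * a q1 = -√T := by rw [a3]; ring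
  have s4 : 2 * √T * a q2 = -√T := by rw [a4]; ring
  have sz : ∀ z ∈ Rest p1 p2 q1 q2, 2 * √T * a z = 0 := by
    intro z hz
    rw [az' z hz, mul_zero]
  have hne : (-√T) * (-√T) = T := by rw [neg_mul_neg, hTT]
  have hne1 : √T * (-√T) = -T := by rw [mul_neg, hTT]
  have hne2 : (-√T) * √T = -T := by rw [neg_mul, hTT]
  have Kpp : b p1 * b p2 - 2 * √T * a p1 * (2 * √T * a p2) = ε * A := by
    rw [b1, b2, s1, s2, hYY, hTT, hT]
    ring
  have Kqq : b q1 * b q2 - 2 * √T * a q1 * (2 * √T * a q2) = ε * A := by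
    rw [b3, b4, s3, s4, hYY, hne, hT]
    ring
  have Kpq : ∀ i j, (i = p1 ∨ i = p2) → (j = q1 ∨ j = q2) →
      b i * b j - 2 * √T * a i * (2 * √T * a j) = A := by
    rintro i j (rfl | rfl) (rfl | rfl)
    · rw [b1, b3, s1, s3, hYY, hne1, hT]
      ring
    · rw [b1, b4, s1, s4, hYY, hne1, hT]
      ring
    · rw [b2, b3, s2, s3, hYY, hne1, hT]
      ring
    · rw [b2, b4, s2, s4, hYY, hne1, hT]
      ring
  have Ksz : ∀ i z, (i = p1 ∨ i = p2 ∨ i = q1 ∨ i = q2) → z ∈ Rest p1 p2 q1 q2 →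
      b i * b z - 2 * √T * a i * (2 * √T * a z) = Y := by
    intro i z hi hz
    have hbi : b i = Y / √κ := by
      rcases hi with rfl | rfl | rfl | rfl
      · exact b1
      · exact b2
      · exact b3
      · exact b4
    rw [hbi, bz z hz, sz z hz, hYk, mul_zero, sub_zero]
  have Kzz : ∀ z ∈ Rest p1 p2 q1 q2, ∀ z' ∈ Rest p1 p2 q1 q2,
      b z * b z' - 2 * √T * a z * (2 * √T * a z') = κ := by
    intro z hz z' hz'
    rw [bz z hz, bz z' hz', sz z hz, hkk, zero_mul, sub_zero]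
  refine ⟨b, 2 * √T, ?_, Kpp, Kqq, Kpq, Ksz, Kzz⟩
  have hcard : ((Rest p1 p2 q1 q2).card : ℝ) = m - 2 := by
    have h1 := sum_four hp hqq h11 h12 h21 h22 (fun _ => (1 : ℝ))
    rw [Finset.sum_const, Finset.sum_const, Finset.card_univ, nsmul_eq_mul, nsmul_eq_mul, hc] at h1
    linarith
  have hdiag : ∑ i, (b i ^ 2 - (2 * √T * a i) ^ 2) = (m - 2) * κ + 4 * (ε * A) := by
    rw [sum_four hp hqq h11 h12 h21 h22]
    have h1 : ∑ z ∈ Rest p1 p2 q1 q2, (b z ^ 2 - (2 * √T * a z) ^ 2) = (m - 2) * κ := by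
      rw [Finset.sum_congr rfl (g := fun _ => κ) (fun z hz => by
        rw [bz z hz, sz z hz, sq, hkk]
        ring), Finset.sum_const, nsmul_eq_mul, hcard]
    have e1 : (Y / √κ) ^ 2 - √T ^ 2 = ε * A := by
      rw [sq, sq, hYY, hTT, hT]
      ring
    rw [h1, b1, b2, b3, b4, s1, s2, s3, s4, neg_sq, e1]
    ring
  unfold LB
  rw [hdiag, offsum_four hp hqq h11 h12 h21 h22 _ (fun i j => by
    rw [mul_comm (b i) (b j), mul_comm (2 * √T * a i) (2 * √T * a j)])]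
  rw [offd_congr (g := fun _ _ => Phi q κ) (fun z hz z' hz' _ => by
    rw [Kzz z hz z' hz'])]
  rw [offd_const, hcard]
  have h2 : ∀ z ∈ Rest p1 p2 q1 q2,
      (Phi q (b p1 * b z - 2 * √T * a p1 * (2 * √T * a z)) +
        Phi q (b p2 * b z - 2 * √T * a p2 * (2 * √T * a z)) +
        Phi q (b q1 * b z - 2 * √T * a q1 * (2 * √T * a z)) +
        Phi q (b q2 * b z - 2 * √T * a q2 * (2 * √T * a z))) = 4 * Phi q Y := by
    intro z hz
    rw [Ksz p1 z (by simp) hz, Ksz p2 z (by simp) hz, Ksz q1 z (by simp) hz,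
      Ksz q2 z (by simp) hz]
    ring
  rw [Finset.sum_congr rfl h2, Finset.sum_const, nsmul_eq_mul, hcard, Kpp, Kqq]
  have h3 : ∀ i j, (i = p1 ∨ i = p2) → (j = q1 ∨ j = q2) →
      b j * b i - 2 * √T * a j * (2 * √T * a i) = A := by
    intro i j hi hj
    rw [mul_comm (b j), mul_comm (2 * √T * a j)]
    exact Kpq i j hi hj
  rw [h3 p1 q1 (by simp) (by simp), h3 p2 q1 (by simp) (by simp), h3 p1 q2 (by simp) (by simp),
    h3 p2 q2 (by simp) (by simp)]
  unfold Esq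
  rw [← hε]
  ring

variable {V : Type*} [NormedAddCommGroup V] [InnerProductSpace ℝ V]

namespace CfgSqAux

theorem exists_relabel {ι κ : Type*} [Fintype ι] [Fintype κ] [DecidableEq ι]
    (hcard : Fintype.card ι = Fintype.card κ + 4) {a b c d : ι} (hab : a ≠ b) (hac : a ≠ c)
    (had : a ≠ d) (hbc : b ≠ c) (hbd : b ≠ d) (hcd : c ≠ d) :
    ∃ e : Fin 4 ⊕ κ ≃ ι, e (Sum.inl 0) = a ∧ e (Sum.inl 1) = b ∧ e (Sum.inl 2) = c ∧
      e (Sum.inl 3) = d := by
  classical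
  let f : Fin 4 → ι := ![a, b, c, d]
  have hf : Function.Injective f := by
    intro i j hij
    fin_cases i <;> fin_cases j <;> simp_all [f]
  have hc : Fintype.card κ = Fintype.card ((Set.range f)ᶜ : Set ι) := by
    rw [Fintype.card_compl_set, Set.card_range_of_injective hf, hcard, Fintype.card_fin]
    omega
  let e1 : Fin 4 ≃ Set.range f := Equiv.ofInjective f hf
  let e2 : κ ≃ ((Set.range f)ᶜ : Set ι) := Fintype.equivOfCardEq hc
  let e : Fin 4 ⊕ κ ≃ ι := (Equiv.sumCongr e1 e2).trans (Equiv.Set.sumCompl (Set.range f))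
  refine ⟨e, ?_, ?_, ?_, ?_⟩ <;> simp [e, e1, f]

theorem mem_rest {ι : Type*} [Fintype ι] [DecidableEq ι] (p1 p2 q1 q2 i : ι) :
    i ∈ Rest p1 p2 q1 q2 ∨ i = p1 ∨ i = p2 ∨ i = q1 ∨ i = q2 := by
  unfold Rest
  rw [mem_filter]
  by_cases h1 : i = p1
  · exact Or.inr (Or.inl h1)
  by_cases h2 : i = p2
  · exact Or.inr (Or.inr (Or.inl h2))
  by_cases h3 : i = q1
  · exact Or.inr (Or.inr (Or.inr (Or.inl h3)))
  by_cases h4 : i = q2
  · exact Or.inr (Or.inr (Or.inr (Or.inr h4)))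
  exact Or.inl ⟨mem_univ _, h1, h2, h3, h4⟩

/-- `t ↦ t^(-p)` is injective -/
theorem inj {q g t : ℝ} (hq : 1 ≤ q) (hg : g < 1) (ht : 0 ≤ t)
    (h : (1 - g) ^ (-(q + 1)) = t ^ (-(q + 1))) : g = 1 - t := by
  have h1 := (Real.rpow_left_inj (by linarith : (0 : ℝ) ≤ 1 - g) ht
    (by linarith : -(q + 1) ≠ 0)).1 h
  linarith

theorem ge_two {q t : ℝ} (hq : 1 ≤ q) (h0 : 0 < t) (h2 : t ≤ 2) :
    (2 : ℝ) ^ (-(q + 1)) ≤ t ^ (-(q + 1)) :=
  Real.rpow_le_rpow_of_nonpos h0 h2 (by linarith)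

end CfgSqAux

/-- `LB_le`, `LB_square`; equality: `LB_eq` (all values are `≥ 2^(-p)`: `hκ`, `hY`, `hA`). With
`κ = (1+γ)^(-p)`, `Y = (1+α)^(-p)`, `A = (1-ω)^(-p)`, `ko = (2(1-ω))^(-p)`, `t ↦ t^(-p)` is
injective on positive numbers, which gives all inner products: the labelling
`e : Fin 4 ⊕ Fin n ≃ ι` with `0 ↦ p1`, `2 ↦ p2`, `1 ↦ q1`, `3 ↦ q2`. `Esq = 2 Riesz.Phi` is
`val_of_min`, `Sqr` is `sqr_of_min`. -/
theorem square_lower {n : ℕ} {q α γ : ℝ} (hn : 2 ≤ n) (hq : 1 ≤ q) (hd : InDom n α γ)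
    (hγ : 0 < γ)
    (hmin : ∀ a g, InDom n a g → Pool.Agent.Riesz.Phi n q α γ ≤ Pool.Agent.Riesz.Phi n q a g)
    {x : ι → V} (hc : Fintype.card ι = n + 4) (hx : ∀ i, ‖x i‖ = 1)
    (hlt : ∀ i j, i ≠ j → (inner ℝ (x i) (x j) : ℝ) < 1) {a : ι → ℝ}
    (hax : ∑ i, a i • x i = 0) (hT : SqT a) :
    2 * Pool.Agent.Riesz.Phi n q α γ ≤ En q x ∧
      (En q x = 2 * Pool.Agent.Riesz.Phi n q α γ →
        ∃ e : Fin 4 ⊕ Fin n ≃ ι, IsSym α γ (x (e (Sum.inl 0))) (x (e (Sum.inl 1)))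
          (x (e (Sum.inl 2))) (x (e (Sum.inl 3))) (fun k => x (e (Sum.inr k)))) := by
  have hn' : (2 : ℝ) ≤ n := by exact_mod_cast hn
  have hs := sqr_of_min hn' hq hd hγ hmin
  have hv := val_of_min hn' hq hd hγ hmin
  obtain ⟨p1, p2, q1, q2, hp, hqq, h11, h12, h21, h22, a1, a2, a3, a4, az⟩ := hT
  have hq0 : 0 < q := by linarith
  obtain ⟨b, s, hLB, Kpp, Kqq, Kpq, Ksz, Kzz⟩ := LB_square hq0 hs
    (by rw [hc]; push_cast; ring) hp hqq h11 h12 h21 h22 a1 a2 a3 a4 az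
  refine ⟨?_, ?_⟩
  · rw [hv, ← hLB]
    exact LB_le hx hlt hax hq0 b s
  intro hE
  obtain ⟨hα, -, hden, hom⟩ := hd
  set ω : ℝ := om n α γ with hω
  have hγ1 : γ < 1 := by nlinarith
  have hω0 : 0 ≤ ω := by
    rw [hω]
    unfold om
    exact div_nonneg (by positivity) (by linarith)
  have hα1 : α ≤ 1 := by
    have h1 : (n : ℝ) * α ^ 2 < 1 - (n - 1) * γ := by
      have h2 := hom
      rw [hω] at h2
      unfold om at h2
      rwa [div_lt_one (by linarith)] at h2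
    have h3 : 0 < ((n : ℝ) - 1) * γ := mul_pos (by linarith) hγ
    nlinarith
  have hKz : (2 : ℝ) ^ (-(q + 1)) ≤ (1 + γ) ^ (-(q + 1)) :=
    CfgSqAux.ge_two hq (by linarith) (by linarith)
  have hKy : (2 : ℝ) ^ (-(q + 1)) ≤ (1 + α) ^ (-(q + 1)) :=
    CfgSqAux.ge_two hq (by linarith) (by linarith)
  have hKa : (2 : ℝ) ^ (-(q + 1)) ≤ (1 - ω) ^ (-(q + 1)) :=
    CfgSqAux.ge_two hq (by linarith) (by linarith)
  have hko : (2 : ℝ) ^ (-(q + 1)) * (1 - ω) ^ (-(q + 1)) = (2 * (1 - ω)) ^ (-(q + 1)) := by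
    rw [Real.mul_rpow (by norm_num) (by linarith)]
  have hKo : (2 : ℝ) ^ (-(q + 1)) ≤ (2 : ℝ) ^ (-(q + 1)) * (1 - ω) ^ (-(q + 1)) := by
    rw [hko]
    exact CfgSqAux.ge_two hq (by linarith) (by linarith)
  have Ksym : ∀ i j, b j * b i - s * a j * (s * a i) = b i * b j - s * a i * (s * a j) := by
    intro i j
    ring
  have hK : ∀ i j, i ≠ j → (2 : ℝ) ^ (-(q + 1)) ≤ b i * b j - s * a i * (s * a j) := by
    intro i j hij
    rcases CfgSqAux.mem_rest p1 p2 q1 q2 i with hi | hi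
    · rcases CfgSqAux.mem_rest p1 p2 q1 q2 j with hj | hj
      · rw [Kzz i hi j hj]
        exact hKz
      · rw [← Ksym, Ksz j i hj hi]
        exact hKy
    · rcases CfgSqAux.mem_rest p1 p2 q1 q2 j with hj | hj
      · rw [Ksz i j hi hj]
        exact hKy
      · rcases hi with rfl | rfl | rfl | rfl <;> rcases hj with rfl | rfl | rfl | rfl
        · exact absurd rfl hij
        · rw [Kpp]; exact hKo
        · rw [Kpq _ _ (by simp) (by simp)]; exact hKa
        · rw [Kpq _ _ (by simp) (by simp)]; exact hKa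
        · rw [← Ksym, Kpp]; exact hKo
        · exact absurd rfl hij
        · rw [Kpq _ _ (by simp) (by simp)]; exact hKa
        · rw [Kpq _ _ (by simp) (by simp)]; exact hKa
        · rw [← Ksym, Kpq _ _ (by simp) (by simp)]; exact hKa
        · rw [← Ksym, Kpq _ _ (by simp) (by simp)]; exact hKa
        · exact absurd rfl hij
        · rw [Kqq]; exact hKo
        · rw [← Ksym, Kpq _ _ (by simp) (by simp)]; exact hKa
        · rw [← Ksym, Kpq _ _ (by simp) (by simp)]; exact hKa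
        · rw [← Ksym, Kqq]; exact hKo
        · exact absurd rfl hij
  have key := LB_eq hx hlt hax hq0 b s hK (by rw [hLB, ← hv, hE])
  have vz : ∀ z ∈ Rest p1 p2 q1 q2, ∀ z' ∈ Rest p1 p2 q1 q2, z ≠ z' →
      (inner ℝ (x z) (x z') : ℝ) = -γ := by
    intro z hz z' hz' hzz
    have h1 := key z z' hzz
    rw [Kzz z hz z' hz'] at h1
    rw [CfgSqAux.inj hq (hlt z z' hzz) (by linarith) h1]
    ring
  have vy : ∀ i z, (i = p1 ∨ i = p2 ∨ i = q1 ∨ i = q2) → z ∈ Rest p1 p2 q1 q2 →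
      (inner ℝ (x i) (x z) : ℝ) = -α := by
    intro i z hi hz
    have hne : i ≠ z := by
      rintro rfl
      unfold Rest at hz
      rw [mem_filter] at hz
      obtain ⟨-, g1, g2, g3, g4⟩ := hz
      rcases hi with h | h | h | h
      · exact g1 h
      · exact g2 h
      · exact g3 h
      · exact g4 h
    have h1 := key i z hne
    rw [Ksz i z hi hz] at h1
    rw [CfgSqAux.inj hq (hlt i z hne) (by linarith) h1]
    ring
  have va : ∀ i j, (i = p1 ∨ i = p2) → (j = q1 ∨ j = q2) →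
      (inner ℝ (x i) (x j) : ℝ) = ω := by
    intro i j hi hj
    have hne : i ≠ j := by
      rcases hi with rfl | rfl <;> rcases hj with rfl | rfl
      · exact h11
      · exact h12
      · exact h21
      · exact h22
    have h1 := key i j hne
    rw [Kpq i j hi hj] at h1
    rw [CfgSqAux.inj hq (hlt i j hne) (by linarith) h1]
    ring
  have vp : (inner ℝ (x p1) (x p2) : ℝ) = 2 * ω - 1 := by
    have h1 := key p1 p2 hp
    rw [Kpp, hko] at h1
    rw [CfgSqAux.inj hq (hlt p1 p2 hp) (by linarith) h1]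
    ring
  have vq : (inner ℝ (x q1) (x q2) : ℝ) = 2 * ω - 1 := by
    have h1 := key q1 q2 hqq
    rw [Kqq, hko] at h1
    rw [CfgSqAux.inj hq (hlt q1 q2 hqq) (by linarith) h1]
    ring
  obtain ⟨e, e0, e1, e2, e3⟩ := CfgSqAux.exists_relabel (κ := Fin n)
    (by rw [hc, Fintype.card_fin]) h11 hp h12 h21.symm hqq h22
  have hrest : ∀ k : Fin n, e (Sum.inr k) ∈ Rest p1 p2 q1 q2 := by
    intro k
    unfold Rest
    rw [mem_filter]
    refine ⟨mem_univ _, ?_, ?_, ?_, ?_⟩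
    · rw [← e0]
      intro h
      exact absurd (e.injective h) (by simp)
    · rw [← e2]
      intro h
      exact absurd (e.injective h) (by simp)
    · rw [← e1]
      intro h
      exact absurd (e.injective h) (by simp)
    · rw [← e3]
      intro h
      exact absurd (e.injective h) (by simp)
  refine ⟨e, ?_⟩
  rw [e0, e1, e2, e3]
  have hcf : (Fintype.card (Fin n) : ℝ) = n := by rw [Fintype.card_fin]
  constructor
  · exact fun k => vy p1 _ (by simp) (hrest k)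
  · exact fun k => vy q1 _ (by simp) (hrest k)
  · exact fun k => vy p2 _ (by simp) (hrest k)
  · exact fun k => vy q2 _ (by simp) (hrest k)
  · intro k l hkl
    refine vz _ (hrest k) _ (hrest l) (fun h => hkl ?_)
    exact Sum.inr_injective (e.injective h)
  · rw [hcf]
    exact va p1 q1 (by simp) (by simp)
  · rw [hcf]
    exact va p1 q2 (by simp) (by simp)
  · rw [hcf]
    exact va p2 q1 (by simp) (by simp)
  · rw [hcf]
    exact va p2 q2 (by simp) (by simp)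
  · rw [hcf]
    exact vp
  · rw [hcf]
    exact vq

end

end Pool.Agent.RieszWin
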