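import Pool.Agent.RieszWin.Facts
import Pool.Agent.RieszWin.FhF

set_option autoImplicit false

open Real Finset

namespace Pool.Agent.RieszWin

open Pool.Agent.RieszSmall Pool.Agent.RieszLin Pool.Agent.RieszTr

/-- MODULE RW7. Two heavy points on different sides. `x = 2 ξ ξ'/κ = κ exp(t+t')/2`,
`K = κ cosh(t+t') = x + κ exp(-(t+t'))/2 ≤ x + 1`. If `K ≤ e` then `Φ(K) ≥ Fh K ≥ 0`. If `K > e`:
`Φ(K) ≥ K - K log K ≥ -(x+1)(log(x+1) - 1) ≥ - x log x`, and `log x = log (2 ξ ξ') + el κ`.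
(`(x+1) log(x+1) - x log x ≤ log(x+1) + 1 ≤ x + 1`.) -/
theorem HH_opp {u q m κ t t' B : ℝ} (h : Win u q m κ) (ht : 0 ≤ t) (ht' : 0 ≤ t') (hB : 0 ≤ B)
    (hl : Real.log (2 * xi κ t * xi κ t') ≤ B) :
    -(2 * xi κ t * xi κ t' / κ * (el κ + B)) ≤ Phi q (κ * Real.cosh (t + t')) := by
  obtain ⟨-, -, hq, hk, hk1⟩ := h.pos
  have hel : 0 < el κ := by
    unfold el
    have := Real.log_neg hk hk1
    linarith
  obtain ⟨x, hx⟩ : ∃ x, x = 2 * xi κ t * xi κ t' / κ := ⟨_, rfl⟩
  obtain ⟨K, hKdef⟩ : ∃ K, K = κ * Real.cosh (t + t') := ⟨_, rfl⟩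
  have hxi : 0 < xi κ t := by unfold xi; positivity
  have hxi' : 0 < xi κ t' := by unfold xi; positivity
  have hxpos : 0 < x := by rw [hx]; positivity
  have hxe : x = κ * Real.exp (t + t') / 2 := by
    rw [hx]
    unfold xi
    rw [abs_of_nonneg ht, abs_of_nonneg ht', Real.exp_add]
    field_simp
  have hKx : K = x + κ * Real.exp (-(t + t')) / 2 := by
    rw [hKdef, hxe, Real.cosh_eq]
    ring
  have hδ : 0 < κ * Real.exp (-(t + t')) / 2 := by positivity
  have hδ1 : κ * Real.exp (-(t + t')) / 2 ≤ 1 / 2 := by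
    have h1 : Real.exp (-(t + t')) ≤ 1 := Real.exp_le_one_iff.2 (by linarith)
    have h2 : 0 < Real.exp (-(t + t')) := Real.exp_pos _
    nlinarith
  have hKpos : 0 < K := by rw [hKx]; linarith
  have hlogx : Real.log x ≤ el κ + B := by
    rw [hx, Real.log_div (by positivity) hk.ne']
    unfold el
    linarith
  rw [← hx, ← hKdef]
  have hPhi := Fh_le_Phi hq hKpos
  have hneg : -(x * (el κ + B)) ≤ 0 := by
    have : 0 ≤ x * (el κ + B) := by positivity
    linarith
  rcases le_or_gt K (27 / 10) with hK | hK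
  · have := Fh_nonneg hKpos.le hK
    linarith
  · obtain ⟨δ, hδe⟩ : ∃ δ, δ = K - x := ⟨_, rfl⟩
    have hd0 : 0 ≤ δ := by rw [hδe]; linarith
    have hd1 : δ ≤ 1 / 2 := by rw [hδe]; linarith
    have hx2 : 2 ≤ x := by linarith
    have hlogK : Real.log K ≤ Real.log x + δ / x := by
      have h1 : Real.log (K / x) ≤ K / x - 1 := Real.log_le_sub_one_of_pos (by positivity)
      rw [Real.log_div hKpos.ne' hxpos.ne'] at h1
      have h2 : K / x - 1 = δ / x := by
        rw [hδe]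
        field_simp
      linarith
    have hlx : Real.log x ≤ x - 1 := Real.log_le_sub_one_of_pos hxpos
    have hlx0 : 0 ≤ Real.log x := Real.log_nonneg (by linarith)
    have hdx : 0 ≤ δ / x := by positivity
    have hdx1 : δ / x ≤ 1 / 4 := by
      rw [div_le_iff₀ hxpos]
      linarith
    have hxd : x * (δ / x) = δ := by field_simp
    have hF : -(x * (el κ + B)) ≤ Fh K := by
      unfold Fh
      have h1 : K * Real.log K ≤ K * (Real.log x + δ / x) :=
        mul_le_mul_of_nonneg_left hlogK hKpos.le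
      have h2 : K = x + δ := by rw [hδe]; ring
      have h3 : K * (Real.log x + δ / x) = x * Real.log x + δ * Real.log x + δ + δ * (δ / x) := by
        rw [h2]
        have : (x + δ) * (Real.log x + δ / x)
          = x * Real.log x + δ * Real.log x + x * (δ / x) + δ * (δ / x) := by ring
        rw [this, hxd]
      have h4 : δ * Real.log x ≤ 1 / 2 * (x - 1) := by
        calc δ * Real.log x ≤ 1 / 2 * Real.log x := mul_le_mul_of_nonneg_right hd1 hlx0
          _ ≤ 1 / 2 * (x - 1) := by linarith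
      have h5 : δ * (δ / x) ≤ 1 / 2 * (1 / 4) := by
        exact mul_le_mul hd1 hdx1 hdx (by norm_num)
      have h6 : x * Real.log x ≤ x * (el κ + B) := mul_le_mul_of_nonneg_left hlogx hxpos.le
      linarith
    linarith

/-- two heavy points of one side: `K ≤ κ exp |t - t'| ≤ 2 · 10^120 exp(-u^4/200) ≤ 1`. -/
theorem HH_same {u q m κ t t' : ℝ} (h : Win u q m κ) (ht : u ^ 4 / 200 ≤ t)
    (ht' : u ^ 4 / 200 ≤ t') (hx : xi κ t ≤ 10 ^ 120) (hx' : xi κ t' ≤ 10 ^ 120) :
    0 ≤ Phi q (κ * Real.cosh (t - t')) := by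
  obtain ⟨hu0, -, hq, hk, hk1⟩ := h.pos
  obtain ⟨hb1, hb2, -⟩ := h.big
  have hu1 : (1:ℝ) ≤ u := le_trans (by norm_num) h.hu
  have hE : (10:ℝ) ^ 300 ≤ Real.exp (u ^ 4 / 200) := by
    calc (10:ℝ) ^ 300 ≤ u ^ 2 := hb1
      _ ≤ u ^ 60 := pow_le_pow_right₀ hu1 (by norm_num)
      _ ≤ Real.exp (u ^ 4 / 1000) := hb2
      _ ≤ Real.exp (u ^ 4 / 200) := Real.exp_le_exp.2 (by
          have : 0 ≤ u ^ 4 := by positivity
          linarith)
  have hu4 : 0 ≤ u ^ 4 := by positivity
  -- the main estimate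
  have key : ∀ {a b : ℝ}, u ^ 4 / 200 ≤ a → u ^ 4 / 200 ≤ b → xi κ a ≤ 10 ^ 120 →
      κ * Real.exp (a - b) ≤ 1 := by
    intro a b ha hb hxa
    unfold xi at hxa
    rw [abs_of_nonneg (by linarith)] at hxa
    have h1 : Real.exp (a - b) = Real.exp a * Real.exp (-b) := by
      rw [← Real.exp_add]
      ring_nf
    have h2 : Real.exp (-b) ≤ 1 / 10 ^ 300 := by
      rw [Real.exp_neg, inv_eq_one_div]
      refine one_div_le_one_div_of_le (by positivity) ?_
      exact hE.trans (Real.exp_le_exp.2 hb)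
    have h3 : κ * Real.exp a ≤ 2 * 10 ^ 120 := by linarith
    rw [h1, ← mul_assoc]
    calc κ * Real.exp a * Real.exp (-b) ≤ (2 * 10 ^ 120) * (1 / 10 ^ 300) :=
          mul_le_mul h3 h2 (Real.exp_pos _).le (by positivity)
      _ ≤ 1 := by
        rw [mul_one_div, div_le_one (by positivity)]
        calc (2:ℝ) * 10 ^ 120 ≤ 10 * 10 ^ 120 := by
              exact mul_le_mul_of_nonneg_right (by norm_num) (by positivity)
          _ = 10 ^ 121 := by rw [← pow_succ']
          _ ≤ 10 ^ 300 := pow_le_pow_right₀ (by norm_num) (by norm_num)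
  have k1 := key ht ht' hx
  have k2 := key ht' ht hx'
  obtain ⟨K, hKdef⟩ : ∃ K, K = κ * Real.cosh (t - t') := ⟨_, rfl⟩
  have hK0 : 0 < K := by
    rw [hKdef]
    exact mul_pos hk (Real.cosh_pos _)
  have hK1 : K ≤ 27 / 10 := by
    rw [hKdef, Real.cosh_eq, neg_sub]
    have : κ * ((Real.exp (t - t') + Real.exp (t' - t)) / 2)
      = (κ * Real.exp (t - t') + κ * Real.exp (t' - t)) / 2 := by ring
    rw [this]
    linarith
  rw [← hKdef]
  exact (Fh_nonneg hK0.le hK1).trans (Fh_le_Phi hq hK0)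

end Pool.Agent.RieszWin
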