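import Pool.Agent.RieszWin.Facts
import Pool.Agent.RieszWin.FhF

set_option autoImplicit false

open Real Finset

namespace Pool.Agent.RieszWin

open Pool.Agent.RieszSmall Pool.Agent.RieszLin Pool.Agent.RieszTr

namespace HLAux

lemma main_id {ξ s : ℝ} (hξ : 0 < ξ) :
    Fh (ξ * Real.exp (-s)) - (Fh ξ + ξ * Real.log ξ * Real.sinh s) =
      ξ * ((1 - Real.log ξ) * (Real.cosh s - 1) + (s * Real.exp (-s) - Real.sinh s)) := by
  unfold Fh
  rw [Real.log_mul hξ.ne' (Real.exp_pos _).ne', Real.log_exp]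
  have e : Real.exp (-s) = Real.cosh s - Real.sinh s := by
    rw [Real.cosh_sub_sinh]
  rw [e]
  ring

end HLAux

open HLAux

/-- MODULE RW6. One heavy and one light point. Let `ξ = κ exp t / 2`, `x = ξ exp (-s)`,
`K = κ cosh (t - s) = x + κ exp (s - t) / 2`.
`Fh x = ξ e^{-s} (1 - log ξ + s)`, and
`Fh x - (Fh ξ + ξ log ξ sinh s) = ξ ((1 - log ξ)(cosh s - 1) + s e^{-s} - sinh s)
  ≥ - ξ ((log ξ)^+ + 2|s| + 3)(cosh s - 1)` by `sexp_ge`; `(log ξ)^+ + 2|s| + 3 ≤ 0.05 u^4`.
If `K ≤ 1`: `Φ(K) ≥ Φ(x) ≥ Fh x` (`Phi_mono`, `Fh_le_Phi`).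
If `K > 1`: `Φ(K) ≥ Fh K ≥ Fh x - (K - x) log K` (`Fh_sub`), `K ≤ 2 ξ exp(u^4/45)`, so
`ξ ≥ exp(-u^4/45)/2`, `log K ≤ u^4`, `K - x ≤ κ exp(u^4/45)/2`; hence the loss is at most
`κ exp(u^4/45) u^4 /2 ≤ ξ κ exp(2u^4/45) u^4 ≤ ξ exp(u^4/20)/m` (`m κ ≤ 10^105 u^4`). -/
theorem HL_pt {u q m κ t s : ℝ} (h : Win u q m κ) (ht : u ^ 4 / 200 ≤ t)
    (hx : xi κ t ≤ 10 ^ 120) (hs : |s| ≤ u ^ 4 / 45) :
    Fh (xi κ t) + xi κ t * Real.log (xi κ t) * Real.sinh s
      - 5 / 100 * u ^ 4 * xi κ t * (Real.cosh s - 1) - xi κ t * Real.exp (u ^ 4 / 20) / m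
      ≤ Phi q (κ * Real.cosh (t - s)) := by
  obtain ⟨hu, hm, hq, hκ, hκ1⟩ := h.pos
  obtain ⟨hb1, hb2, hb3⟩ := h.big
  have hu4 : 0 < u ^ 4 := by positivity
  have ht0 : 0 < t := by linarith
  obtain ⟨U, hU⟩ : ∃ U, U = u ^ 4 := ⟨_, rfl⟩
  have hb105 : (10 : ℝ) ^ 105 ≤ u ^ 2 :=
    le_trans (pow_le_pow_right₀ (by norm_num) (by norm_num)) hb1
  have hu1 : (1 : ℝ) ≤ u := by
    have b3 : (1 : ℝ) ≤ (10 : ℝ) ^ 200 := one_le_pow₀ (by norm_num)
    exact b3.trans h.hu
  clear hb1 hb3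
  have hU6 : (1000000 : ℝ) ≤ U := by
    rw [hU]
    have h1 : u ^ 4 = u ^ 2 * u ^ 2 := by ring
    have h2 : (1 : ℝ) ≤ u ^ 2 := one_le_pow₀ hu1
    have h3 : (10 : ℝ) ^ 6 ≤ (10 : ℝ) ^ 105 := pow_le_pow_right₀ (by norm_num) (by norm_num)
    have h4 : (10 : ℝ) ^ 6 ≤ u ^ 2 := h3.trans hb105
    rw [h1]
    norm_num at h4
    clear hb105 h3
    nlinarith
  have hhi := h.hi
  have hξdef : xi κ t = κ * Real.exp t / 2 := by
    unfold xi
    rw [abs_of_pos ht0]
  obtain ⟨ξ, hξ⟩ : ∃ ξ, ξ = xi κ t := ⟨_, rfl⟩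
  rw [← hξ] at hx hξdef ⊢
  have hξ0 : 0 < ξ := by rw [hξdef]; positivity
  obtain ⟨x, hxd⟩ : ∃ x, x = ξ * Real.exp (-s) := ⟨_, rfl⟩
  have hx0 : 0 < x := by rw [hxd]; positivity
  obtain ⟨K, hK⟩ : ∃ K, K = κ * Real.cosh (t - s) := ⟨_, rfl⟩
  have hKx : K = x + κ * Real.exp (s - t) / 2 := by
    rw [hK, hxd, hξdef, Real.cosh_eq]
    have e1 : Real.exp (t - s) = Real.exp t * Real.exp (-s) := by
      rw [← Real.exp_add]; congr 1
    have e2 : -(t - s) = s - t := by ring
    rw [e1, e2]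
    ring
  have hxK : x ≤ K := by
    rw [hKx]
    have : 0 < κ * Real.exp (s - t) / 2 := by positivity
    linarith
  have hK0 : 0 < K := lt_of_lt_of_le hx0 hxK
  have hcosh : 0 ≤ Real.cosh s - 1 := by
    have := Real.one_le_cosh s
    linarith
  -- log ξ
  have hL : Real.log ξ ≤ 277 := by
    have h1 : Real.log ξ ≤ Real.log (10 ^ 120) := Real.log_le_log hξ0 hx
    have h2 : Real.log ((10 : ℝ) ^ 120) = 120 * Real.log 10 := by
      rw [Real.log_pow]; norm_num
    have h3 : Real.log 10 ≤ 2.303 := by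
      have e1 : (10 : ℝ) = 2 ^ 3 * (5 / 4) := by norm_num
      rw [e1, Real.log_mul (by norm_num) (by norm_num), Real.log_pow]
      have e2 := Real.log_two_lt_d9
      have e3 : Real.log (5 / 4) ≤ 5 / 4 - 1 := Real.log_le_sub_one_of_pos (by norm_num)
      have e4 : Real.log (5 / 4 : ℝ) ≤ 0.2232 := by
        rw [Real.log_le_iff_le_exp (by norm_num)]
        refine le_trans ?_ (Real.sum_le_exp_of_nonneg (by norm_num : (0 : ℝ) ≤ 0.2232) 5)
        norm_num [Finset.sum_range_succ, Nat.factorial]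
      push_cast
      linarith
    linarith
  -- the main inequality
  have main : Fh ξ + ξ * Real.log ξ * Real.sinh s - 5 / 100 * U * ξ * (Real.cosh s - 1) ≤
      Fh x := by
    have h1 := main_id (ξ := ξ) (s := s) hξ0
    have h2 := sexp_ge s
    rw [← hxd] at h1
    have h3 : -((Real.log ξ + 2 * |s| + 2) * (Real.cosh s - 1)) ≤
        (1 - Real.log ξ) * (Real.cosh s - 1) + (s * Real.exp (-s) - Real.sinh s) := by
      have e : -((Real.log ξ + 2 * |s| + 2) * (Real.cosh s - 1)) =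
        (1 - Real.log ξ) * (Real.cosh s - 1) + -((2 * |s| + 3) * (Real.cosh s - 1)) := by ring
      rw [e]
      linarith
    have h4 : Real.log ξ + 2 * |s| + 2 ≤ 5 / 100 * U := by
      rw [← hU] at hs
      linarith
    have h5 : (Real.log ξ + 2 * |s| + 2) * (Real.cosh s - 1) ≤ 5 / 100 * U * (Real.cosh s - 1) :=
      mul_le_mul_of_nonneg_right h4 hcosh
    have h6 : ξ * -(5 / 100 * U * (Real.cosh s - 1)) ≤
        ξ * ((1 - Real.log ξ) * (Real.cosh s - 1) + (s * Real.exp (-s) - Real.sinh s)) :=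
      mul_le_mul_of_nonneg_left (by linarith) hξ0.le
    linarith
  rw [← hU, ← hK]
  have hlosspos : 0 ≤ ξ * Real.exp (U / 20) / m := by positivity
  rcases le_or_gt K 1 with hK1 | hK1
  · have h1 : Phi q x ≤ Phi q K := Phi_mono hq hxK hK1
    have h2 := Fh_le_Phi hq hx0
    linarith
  · have h1 := Fh_le_Phi hq hK0
    -- `K ≤ 2 ξ exp(U/45)`
    rw [← hU] at hs
    have hs1 : -(U / 45) ≤ s ∧ s ≤ U / 45 := abs_le.1 hs
    have hx1 : x ≤ ξ * Real.exp (U / 45) := by
      rw [hxd]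
      exact mul_le_mul_of_nonneg_left (Real.exp_le_exp.2 (by linarith)) hξ0.le
    have hrem : κ * Real.exp (s - t) / 2 ≤ κ * Real.exp (U / 45) / 2 := by
      have : Real.exp (s - t) ≤ Real.exp (U / 45) := Real.exp_le_exp.2 (by linarith)
      have := mul_le_mul_of_nonneg_left this hκ.le
      linarith
    have hrem2 : κ * Real.exp (U / 45) / 2 ≤ ξ * Real.exp (U / 45) := by
      have h2 : κ / 2 ≤ ξ := by
        rw [hξdef]
        have := Real.one_le_exp ht0.le
        nlinarith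
      have := mul_le_mul_of_nonneg_right h2 (Real.exp_pos (U / 45)).le
      linarith
    have hKle : K ≤ 2 * (ξ * Real.exp (U / 45)) := by
      rw [hKx]
      linarith
    have hlogK : Real.log K ≤ U := by
      have h2 : Real.log K ≤ Real.log (2 * (ξ * Real.exp (U / 45))) := Real.log_le_log hK0 hKle
      rw [Real.log_mul (by norm_num) (by positivity), Real.log_mul hξ0.ne' (Real.exp_pos _).ne',
        Real.log_exp] at h2
      have := Real.log_two_lt_d9
      linarith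
    have hFs := Fh_sub (c := U) hx0 hxK (by linarith [hu4]) hlogK
    -- the loss
    have hloss : U * (K - x) ≤ ξ * Real.exp (U / 20) / m := by
      have a1 : K - x ≤ κ * Real.exp (U / 45) / 2 := by
        rw [hKx]
        linarith
      have hU0 : 0 < U := by rw [hU]; exact hu4
      have a2 : U * (K - x) ≤ U * (κ * Real.exp (U / 45) / 2) :=
        mul_le_mul_of_nonneg_left a1 hU0.le
      refine a2.trans ?_
      rw [le_div_iff₀ hm]
      have a3 : 1 ≤ 2 * (ξ * Real.exp (U / 45)) := by linarith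
      -- `U κ m ≤ 10^105 U^2`
      have a4 : m * κ ≤ 10 ^ 105 * U := by rw [hU]; exact h.hi
      have a5 : 10 ^ 105 * U * U ≤ Real.exp (U / 1000) := by
        have b1 := hb105
        have b2 := hu1
        have b4 : u ^ 2 * U * U = u ^ 10 := by rw [hU]; ring
        have b5 : u ^ 10 ≤ u ^ 60 := pow_le_pow_right₀ b2 (by norm_num)
        have b6 : 10 ^ 105 * U * U ≤ u ^ 2 * U * U := by
          have := mul_le_mul_of_nonneg_right b1 hU0.le
          exact mul_le_mul_of_nonneg_right this hU0.le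
        rw [b4] at b6
        rw [hU] at *
        linarith
      have a6 : U * (κ * Real.exp (U / 45) / 2) * m ≤
          Real.exp (U / 1000) * Real.exp (U / 45) / 2 := by
        have c1 : U * (m * κ) ≤ Real.exp (U / 1000) := by
          have := mul_le_mul_of_nonneg_left a4 hU0.le
          linarith
        have c2 := mul_le_mul_of_nonneg_right c1 (Real.exp_pos (U / 45)).le
        linarith
      refine a6.trans ?_
      -- `exp(U/1000) exp(U/45)/2 ≤ ξ exp (U/20)`
      have a7 : Real.exp (U / 1000) * Real.exp (U / 45) / 2 * 1 ≤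
          Real.exp (U / 1000) * Real.exp (U / 45) / 2 * (2 * (ξ * Real.exp (U / 45))) :=
        mul_le_mul_of_nonneg_left a3 (by positivity)
      have a8 : Real.exp (U / 1000) * Real.exp (U / 45) / 2 * (2 * (ξ * Real.exp (U / 45))) =
          ξ * Real.exp (U / 1000 + U / 45 + U / 45) := by
        rw [Real.exp_add, Real.exp_add]
        ring
      have a9 : ξ * Real.exp (U / 1000 + U / 45 + U / 45) ≤ ξ * Real.exp (U / 20) := by
        apply mul_le_mul_of_nonneg_left _ hξ0.le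
        apply Real.exp_le_exp.2
        linarith
      linarith
    linarith

end Pool.Agent.RieszWin
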