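import Pool.Agent.RieszWin.Defs

set_option autoImplicit false

open Real Finset

namespace Pool.Agent.RieszWin

section

variable {ι : Type*}

/-- MODULE RW4 (hyperbolic sums). `cosh (x-y) = cosh x cosh y - sinh x sinh y`. -/
theorem double_cosh (S : Finset ι) (θ : ι → ℝ) :
    ∑ z ∈ S, ∑ w ∈ S, (Real.cosh (θ z - θ w) - 1) = GG S θ := by
  have h1 : ∀ z ∈ S, ∑ w ∈ S, (Real.cosh (θ z - θ w) - 1) =
      Real.cosh (θ z) * CC S θ - Real.sinh (θ z) * SS S θ - S.card := by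
    intro z _
    unfold CC SS
    rw [Finset.sum_sub_distrib, Finset.sum_const, nsmul_eq_mul, mul_one, Finset.mul_sum,
      Finset.mul_sum, ← Finset.sum_sub_distrib]
    congr 1
    exact Finset.sum_congr rfl fun w _ => Real.cosh_sub _ _
  rw [Finset.sum_congr rfl h1, Finset.sum_sub_distrib, Finset.sum_sub_distrib,
    ← Finset.sum_mul, ← Finset.sum_mul, Finset.sum_const, nsmul_eq_mul]
  unfold GG CC SS
  ring

theorem GG_nonneg (S : Finset ι) (θ : ι → ℝ) : 0 ≤ GG S θ := by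
  rw [← double_cosh]
  exact Finset.sum_nonneg fun z _ => Finset.sum_nonneg fun w _ =>
    sub_nonneg.2 (Real.one_le_cosh _)

theorem CC_ge (S : Finset ι) (θ : ι → ℝ) : (S.card : ℝ) ≤ CC S θ := by
  unfold CC
  have h : ∑ z ∈ S, (1 : ℝ) = S.card := by simp
  rw [← h]
  exact Finset.sum_le_sum fun z _ => Real.one_le_cosh _

/-- with `E = CC - n ≥ 0`: `GG = 2 n E + E² - SS²`. -/
theorem GG_card (S : Finset ι) (θ : ι → ℝ) :
    2 * (S.card : ℝ) * (CC S θ - S.card) ≤ GG S θ + (SS S θ) ^ 2 := by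
  unfold GG
  nlinarith [sq_nonneg (CC S θ - S.card)]

/-- `∑ cosh ≥ √(n² + (∑ sinh)²)` -/
theorem HypAux.CC_sq_ge' (S : Finset ι) (θ : ι → ℝ) :
    (S.card : ℝ) ^ 2 + (SS S θ) ^ 2 ≤ (CC S θ) ^ 2 := by
  have := GG_nonneg S θ
  unfold GG at this
  linarith

/-- Put `W = ∑ (cosh (θ z - c) - 1) = cosh c · CC - sinh c · SS - n`; as `SS = n sinh c`,
`W = cosh c (CC - n cosh c)` and `GG = CC² - n² cosh² c = (CC - n cosh c)(CC + n cosh c)
≥ (CC - n cosh c) 2 n cosh c = 2 n W`. -/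
theorem GG_center (S : Finset ι) (θ : ι → ℝ) {c : ℝ} (hc : (S.card : ℝ) * Real.sinh c = SS S θ) :
    2 * (S.card : ℝ) * ∑ z ∈ S, (Real.cosh (θ z - c) - 1) ≤ GG S θ := by
  have hW : ∑ z ∈ S, (Real.cosh (θ z - c) - 1) =
      Real.cosh c * (CC S θ - S.card * Real.cosh c) := by
    have h1 : ∑ z ∈ S, (Real.cosh (θ z - c) - 1) =
        CC S θ * Real.cosh c - SS S θ * Real.sinh c - S.card := by
      unfold CC SS
      rw [Finset.sum_sub_distrib, Finset.sum_const, nsmul_eq_mul, mul_one, Finset.sum_mul,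
        Finset.sum_mul, ← Finset.sum_sub_distrib]
      congr 1
      exact Finset.sum_congr rfl fun w _ => Real.cosh_sub _ _
    rw [h1, ← hc]
    have h2 := Real.cosh_sq c
    linear_combination (S.card : ℝ) * h2
  have hsq := HypAux.CC_sq_ge' S θ
  have hcs := Real.cosh_sq c
  have hn : (0 : ℝ) ≤ S.card := Nat.cast_nonneg _
  have hcp : 0 < Real.cosh c := Real.cosh_pos c
  have hCC : (S.card : ℝ) * Real.cosh c ≤ CC S θ := by
    apply le_of_sq_le_sq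
    · rw [mul_pow, hcs]
      rw [← hc] at hsq
      nlinarith [hsq]
    · exact hn.trans (CC_ge S θ)
  have hGG : GG S θ = (CC S θ - S.card * Real.cosh c) * (CC S θ + S.card * Real.cosh c) := by
    unfold GG
    rw [← hc]
    linear_combination (S.card : ℝ) ^ 2 * hcs
  rw [hW, hGG]
  have h0 : 0 ≤ CC S θ - S.card * Real.cosh c := by linarith
  nlinarith [mul_nonneg h0 h0]

/-- `∑_{S1} cosh ≥ √(n1² + A²)`, `∑_{S2} cosh ≥ √(n2² + B²)` with `A = SS S1`, `B = - SS S2`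
(triangle inequality for the vectors `(1, sinh θ)`), and
`(√(n1²+A²) + √(n2²+B²))² ≥ (n1+n2)² + (A+B)²`. -/
theorem GG_mink [DecidableEq ι] (S1 S2 : Finset ι) (hd : Disjoint S1 S2) (θ : ι → ℝ)
    (h1 : 0 ≤ SS S1 θ) (h2 : SS S2 θ ≤ 0) :
    -(4 * SS S1 θ * SS S2 θ) ≤ GG (S1 ∪ S2) θ := by
  have hC : CC (S1 ∪ S2) θ = CC S1 θ + CC S2 θ := Finset.sum_union hd
  have hS : SS (S1 ∪ S2) θ = SS S1 θ + SS S2 θ := Finset.sum_union hd
  have hN : ((S1 ∪ S2).card : ℝ) = S1.card + S2.card := by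
    rw [Finset.card_union_of_disjoint hd]; push_cast; ring
  unfold GG
  rw [hC, hS, hN]
  have e1 := HypAux.CC_sq_ge' S1 θ
  have e2 := HypAux.CC_sq_ge' S2 θ
  have n1 : (0 : ℝ) ≤ S1.card := Nat.cast_nonneg _
  have n2 : (0 : ℝ) ≤ S2.card := Nat.cast_nonneg _
  have c1 : 0 ≤ CC S1 θ := n1.trans (CC_ge S1 θ)
  have c2 : 0 ≤ CC S2 θ := n2.trans (CC_ge S2 θ)
  have h3 : (S1.card : ℝ) * S2.card + SS S1 θ * (-SS S2 θ) ≤ CC S1 θ * CC S2 θ := by
    apply le_of_sq_le_sq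
    · have h4 : ((S1.card : ℝ) ^ 2 + (SS S1 θ) ^ 2) * ((S2.card : ℝ) ^ 2 + (SS S2 θ) ^ 2) ≤
          (CC S1 θ) ^ 2 * (CC S2 θ) ^ 2 := by
        apply mul_le_mul e1 e2 (by positivity) (by positivity)
      rw [mul_pow]
      refine le_trans ?_ h4
      nlinarith [sq_nonneg ((S1.card : ℝ) * SS S2 θ + S2.card * SS S1 θ)]
    · exact mul_nonneg c1 c2
  nlinarith

/-- `∑ cosh ≥ √(n² + (∑ sinh)²)` -/
theorem CC_sq_ge (S : Finset ι) (θ : ι → ℝ) :
    (S.card : ℝ) ^ 2 + (SS S θ) ^ 2 ≤ (CC S θ) ^ 2 := HypAux.CC_sq_ge' S θ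

/-- strictness: if `GG = 0` and `S` is nonempty then all `θ z` are equal. (`double_cosh`: every
term vanishes.) -/
theorem GG_eq_zero (S : Finset ι) (θ : ι → ℝ) (h : GG S θ = 0) :
    ∀ z ∈ S, ∀ w ∈ S, θ z = θ w := by
  rw [← double_cosh] at h
  intro z hz w hw
  have h1 := (Finset.sum_eq_zero_iff_of_nonneg (fun z _ => Finset.sum_nonneg fun w _ =>
    sub_nonneg.2 (Real.one_le_cosh (θ z - θ w)))).1 h z hz
  have h2 := (Finset.sum_eq_zero_iff_of_nonneg (fun w _ =>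
    sub_nonneg.2 (Real.one_le_cosh (θ z - θ w)))).1 h1 w hw
  have h3 : Real.cosh (θ z - θ w) = 1 := by linarith
  by_contra hne
  have := Real.one_lt_cosh.2 (sub_ne_zero.2 hne)
  linarith

end

end Pool.Agent.RieszWin
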