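import Pool.Agent.RieszWin.Facts
import Pool.Agent.RieszWin.Hyp

set_option autoImplicit false

open Real Finset

namespace Pool.Agent.RieszWin

open Pool.Agent.RieszSmall Pool.Agent.RieszLin Pool.Agent.RieszTr

section

variable {ι : Type*} [DecidableEq ι]

/-- MODULE RW8 (bookkeeping for `Z = L ∪ P ∪ Q`). -/
theorem sum_part {u : ℝ} {Z L P Q : Finset ι} {θ : ι → ℝ} (h : Part u Z L P Q θ) (f : ι → ℝ) :
    ∑ z ∈ Z, f z = ∑ z ∈ L, f z + ∑ z ∈ P, f z + ∑ z ∈ Q, f z := by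
  rw [← h.hZ, Finset.sum_union (Finset.disjoint_union_left.2 ⟨h.hLQ, h.hPQ⟩),
    Finset.sum_union h.hLP]

theorem card_part {u : ℝ} {Z L P Q : Finset ι} {θ : ι → ℝ} (h : Part u Z L P Q θ) :
    (Z.card : ℝ) = L.card + P.card + Q.card := by
  have := sum_part h (fun _ => (1 : ℝ))
  simpa using this

namespace SplitWAux

theorem cross {A B : Finset ι} (hd : Disjoint A B) (f : ι → ι → ℝ) :
    ∑ i ∈ A, ∑ j ∈ B, (if i = j then 0 else f i j) = ∑ i ∈ A, ∑ j ∈ B, f i j := by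
  apply Finset.sum_congr rfl
  intro i hi
  apply Finset.sum_congr rfl
  intro j hj
  have : i ≠ j := fun e => (Finset.disjoint_left.1 hd hi) (e ▸ hj)
  rw [if_neg this]

theorem cross' {A B : Finset ι} (hd : Disjoint A B) (f : ι → ι → ℝ) (hf : ∀ i j, f i j = f j i) :
    ∑ i ∈ A, ∑ j ∈ B, (if i = j then 0 else f i j) = ∑ i ∈ B, ∑ j ∈ A, f i j := by
  rw [cross hd, Finset.sum_comm]
  apply Finset.sum_congr rfl
  intro i _
  apply Finset.sum_congr rfl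
  intro j _
  exact hf _ _

theorem abs_sinh_le (t : ℝ) : |Real.sinh t| ≤ Real.exp |t| / 2 := by
  rw [Real.abs_sinh, Real.sinh_eq]
  have := Real.exp_pos (-|t|)
  linarith

end SplitWAux

open SplitWAux

theorem offd_part {u : ℝ} {Z L P Q : Finset ι} {θ : ι → ℝ} (h : Part u Z L P Q θ)
    (f : ι → ι → ℝ) (hf : ∀ i j, f i j = f j i) :
    offd Z f = offd L f + offd P f + offd Q f + 2 * ∑ z ∈ P, ∑ w ∈ L, f z w
      + 2 * ∑ z ∈ Q, ∑ w ∈ L, f z w + 2 * ∑ z ∈ P, ∑ w ∈ Q, f z w := by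
  unfold offd
  have hin : ∀ i, ∑ j ∈ Z, (if i = j then 0 else f i j) =
      ∑ j ∈ L, (if i = j then 0 else f i j) + ∑ j ∈ P, (if i = j then 0 else f i j)
        + ∑ j ∈ Q, (if i = j then 0 else f i j) := fun i => sum_part h _
  simp only [hin, Finset.sum_add_distrib]
  rw [sum_part h, sum_part h, sum_part h, cross' h.hLP f hf, cross' h.hLQ f hf,
    cross h.hLP.symm, cross h.hLQ.symm, cross h.hPQ, cross' h.hPQ.symm f hf]
  ring

theorem xi_pos {κ t : ℝ} (hk : 0 < κ) : 0 < xi κ t := by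
  unfold xi
  positivity

theorem XX_nonneg {κ : ℝ} (hk : 0 < κ) (S : Finset ι) (θ : ι → ℝ) : 0 ≤ XX κ S θ :=
  Finset.sum_nonneg fun _ _ => (xi_pos hk).le

/-- every heavy point has `ξ ≥ κ exp(u^4/200)/2` -/
theorem card_heavy {u : ℝ} {Z L P Q : Finset ι} {θ : ι → ℝ} (h : Part u Z L P Q θ) {κ : ℝ}
    (hk : 0 < κ) :
    ((P.card : ℝ) + Q.card) * (κ * Real.exp (u ^ 4 / 200) / 2) ≤ XX κ P θ + XX κ Q θ := by
  have key : ∀ t : ℝ, u ^ 4 / 200 ≤ |t| → κ * Real.exp (u ^ 4 / 200) / 2 ≤ xi κ t := by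
    intro t ht
    unfold xi
    have := Real.exp_le_exp.2 ht
    have := mul_le_mul_of_nonneg_left this hk.le
    linarith
  have h1 : (P.card : ℝ) * (κ * Real.exp (u ^ 4 / 200) / 2) ≤ XX κ P θ := by
    unfold XX
    rw [← nsmul_eq_mul]
    exact Finset.card_nsmul_le_sum _ _ _ fun z hz => key _ ((h.hP z hz).trans (le_abs_self _))
  have h2 : (Q.card : ℝ) * (κ * Real.exp (u ^ 4 / 200) / 2) ≤ XX κ Q θ := by
    unfold XX
    rw [← nsmul_eq_mul]
    exact Finset.card_nsmul_le_sum _ _ _ fun z hz => key _ ((h.hQ z hz).trans (neg_le_abs _))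
  rw [add_mul]
  exact add_le_add h1 h2

/-- `κ |∑ sinh| ≤ ∑ ξ` -/
theorem SS_heavy {κ : ℝ} (hk : 0 < κ) (S : Finset ι) (θ : ι → ℝ) :
    κ * |SS S θ| ≤ XX κ S θ := by
  unfold SS XX
  have h1 : |∑ z ∈ S, Real.sinh (θ z)| ≤ ∑ z ∈ S, |Real.sinh (θ z)| :=
    Finset.abs_sum_le_sum_abs _ _
  calc κ * |∑ z ∈ S, Real.sinh (θ z)| ≤ κ * ∑ z ∈ S, |Real.sinh (θ z)| :=
        mul_le_mul_of_nonneg_left h1 hk.le
    _ = ∑ z ∈ S, κ * |Real.sinh (θ z)| := by rw [Finset.mul_sum]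
    _ ≤ ∑ z ∈ S, xi κ (θ z) := by
        apply Finset.sum_le_sum
        intro z _
        unfold xi
        have := mul_le_mul_of_nonneg_left (abs_sinh_le (θ z)) hk.le
        linarith

/-- the number of heavy points is tiny: if `X + Y ≤ m κ` then `|P| + |Q| ≤ m exp(-u^4/250)`. -/
theorem card_small {u q m κ : ℝ} (hw : Win u q m κ) {Z L P Q : Finset ι} {θ : ι → ℝ}
    (h : Part u Z L P Q θ) (hX : XX κ P θ + XX κ Q θ ≤ m * κ) :
    (P.card : ℝ) + Q.card ≤ m * Real.exp (-(u ^ 4 / 250)) := by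
  have hk := hw.hk
  have h1 := (card_heavy h hk).trans hX
  have hm : 0 < m := by rw [hw.hm]; exact Real.exp_pos _
  have hu : (10 : ℝ) ≤ u := le_trans (by norm_num) hw.hu
  have hu4 : (10 : ℝ) ^ 4 ≤ u ^ 4 := pow_le_pow_left₀ (by norm_num) hu 4
  have he : (2 : ℝ) ≤ Real.exp (u ^ 4 / 1000) := by
    have := Real.add_one_le_exp (u ^ 4 / 1000)
    have : (1 : ℝ) ≤ u ^ 4 / 1000 := by rw [le_div_iff₀ (by norm_num)]; linarith
    linarith
  have h2 : ((P.card : ℝ) + Q.card) * Real.exp (u ^ 4 / 200) ≤ 2 * m := by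
    have h3 : κ * (((P.card : ℝ) + Q.card) * Real.exp (u ^ 4 / 200)) ≤ κ * (2 * m) := by
      nlinarith [h1]
    exact le_of_mul_le_mul_left h3 hk
  have h4 : Real.exp (u ^ 4 / 200) = Real.exp (u ^ 4 / 250) * Real.exp (u ^ 4 / 1000) := by
    rw [← Real.exp_add]; congr 1; ring
  have hE : 0 < Real.exp (u ^ 4 / 250) := Real.exp_pos _
  have hn : 0 ≤ (P.card : ℝ) + Q.card := by positivity
  have h5 : ((P.card : ℝ) + Q.card) * Real.exp (u ^ 4 / 250) * 2 ≤ 2 * m := by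
    refine le_trans ?_ h2
    rw [h4, ← mul_assoc]
    exact mul_le_mul_of_nonneg_left he (mul_nonneg hn hE.le)
  rw [Real.exp_neg, ← div_eq_mul_inv, le_div_iff₀ hE]
  linarith

end

end Pool.Agent.RieszWin
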