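import Pool.Agent.RieszWin.LL
import Pool.Agent.RieszWin.HL
import Pool.Agent.RieszWin.HH
import Pool.Agent.RieszWin.SplitW

set_option autoImplicit false

open Real Finset

namespace Pool.Agent.RieszWin

open Pool.Agent.RieszSmall Pool.Agent.RieszLin Pool.Agent.RieszTr

namespace CoreAux

theorem exp_ge {u q m κ c : ℝ} (h : Win u q m κ) (hc : u ^ 4 / 1000 ≤ c) :
    1000 * u ^ 6 ≤ Real.exp c := by
  obtain ⟨-, h2, -⟩ := h.big
  have h3 := Real.exp_le_exp.2 hc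
  have h1 : (1000 : ℝ) ≤ u := le_trans (by norm_num) h.hu
  have h1' : (1 : ℝ) ≤ u := by linarith
  have h4 : (1000 : ℝ) ≤ u ^ 54 := by
    calc (1000 : ℝ) ≤ u := h1
      _ = u ^ 1 := (pow_one u).symm
      _ ≤ u ^ 54 := pow_le_pow_right₀ h1' (by norm_num)
  have h5 : (0 : ℝ) ≤ u ^ 6 := by positivity
  have h6 : 1000 * u ^ 6 ≤ u ^ 60 := by
    calc 1000 * u ^ 6 ≤ u ^ 54 * u ^ 6 := mul_le_mul_of_nonneg_right h4 h5
      _ = u ^ 60 := by ring
  linarith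

/-- pure numbers -/
theorem num {u q m κ : ℝ} (h : Win u q m κ) :
    (1000 : ℝ) ≤ u ∧ 1000 * u ^ 2 ≤ m ∧ 16 * u ^ 2 * Real.exp (-(u ^ 4 / 250)) ≤ 1 ∧
      48 * u ^ 6 * Real.exp (-(u ^ 4 / 200)) ≤ 1 ∧ 16 * u ^ 2 * Real.exp (u ^ 4 / 20) ≤ m := by
  have h1 : (1000 : ℝ) ≤ u := le_trans (by norm_num) h.hu
  have h1' : (1 : ℝ) ≤ u := by linarith
  have hU : (0 : ℝ) ≤ u ^ 4 := by positivity
  have h26 : u ^ 2 ≤ u ^ 6 := pow_le_pow_right₀ h1' (by norm_num)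
  have h0 : (0 : ℝ) ≤ u ^ 6 := by positivity
  refine ⟨h1, ?_, ?_, ?_, ?_⟩
  · have := exp_ge h (c := u ^ 4) (by linarith)
    rw [h.hm]
    linarith
  · have h2 := exp_ge h (c := u ^ 4 / 250) (by linarith)
    have h3 : 16 * u ^ 2 ≤ Real.exp (u ^ 4 / 250) := by linarith
    rw [Real.exp_neg, ← div_eq_mul_inv, div_le_one (Real.exp_pos _)]
    exact h3
  · have h2 := exp_ge h (c := u ^ 4 / 200) (by linarith)
    have h3 : 48 * u ^ 6 ≤ Real.exp (u ^ 4 / 200) := by linarith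
    rw [Real.exp_neg, ← div_eq_mul_inv, div_le_one (Real.exp_pos _)]
    exact h3
  · have h2 := exp_ge h (c := 19 * u ^ 4 / 20) (by linarith)
    have h3 : 16 * u ^ 2 ≤ Real.exp (19 * u ^ 4 / 20) := by linarith
    have h4 : m = Real.exp (19 * u ^ 4 / 20) * Real.exp (u ^ 4 / 20) := by
      rw [h.hm, ← Real.exp_add]
      congr 1
      ring
    rw [h4]
    exact mul_le_mul_of_nonneg_right h3 (Real.exp_pos _).le

/-- the diagonal value -/
theorem Phi_le {u q m κ : ℝ} (h : Win u q m κ) : Phi q κ ≤ 2 * u ^ 4 * κ := by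
  have hk := h.hk
  obtain ⟨e1, e2⟩ := h.el_bds
  unfold el at e1 e2
  have h1 : (1000 : ℝ) ≤ u := le_trans (by norm_num) h.hu
  have h1' : (1 : ℝ) ≤ u := by linarith
  have hU : (1000 : ℝ) ≤ u ^ 4 := by
    calc (1000 : ℝ) ≤ u := h1
      _ = u ^ 1 := (pow_one u).symm
      _ ≤ u ^ 4 := pow_le_pow_right₀ h1' (by norm_num)
  have h2 := h.Phi_near hk (by rw [abs_le]; constructor <;> linarith)
  have h3 : Real.exp (-(9 / 10) * u ^ 4) ≤ 1 := Real.exp_le_one_iff.2 (by linarith)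
  have h4 : κ * Real.exp (-(9 / 10) * u ^ 4) ≤ κ * 1 := mul_le_mul_of_nonneg_left h3 hk.le
  have h5 : κ * -Real.log κ ≤ κ * (1002 / 1000 * u ^ 4) := mul_le_mul_of_nonneg_left e2 hk.le
  have h6 : κ * 1000 ≤ κ * u ^ 4 := mul_le_mul_of_nonneg_left hU hk.le
  unfold Fh at h2
  linarith

theorem abs_Fh {x : ℝ} (hx : 0 < x) : |Fh x| ≤ x + x * |Real.log x| := by
  unfold Fh
  calc |x - x * Real.log x| ≤ |x| + |x * Real.log x| := abs_sub _ _
    _ = x + x * |Real.log x| := by rw [abs_mul, abs_of_pos hx]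

/-- the bookkeeping -/
theorem book {u m κ n l hh X Y S E G Ph F e1 e2 W : ℝ} (hu : 1000 ≤ u) (hm : 1000 * u ^ 2 ≤ m)
    (hk : 0 < κ) (he1 : 16 * u ^ 2 * e1 ≤ 1) (he2 : 48 * u ^ 6 * e2 ≤ 1) (_he10 : 0 ≤ e1)
    (hW : 16 * u ^ 2 * W ≤ m) (hW0 : 0 ≤ W)
    (hn : n = l + hh) (hnm : |n - m| ≤ 2) (hl0 : 0 ≤ l) (hh0 : 0 ≤ hh) (hh1 : hh ≤ m * e1)
    (hh2 : hh * κ ≤ 2 * X * e2) (hPh : Ph ≤ 2 * u ^ 4 * κ) (hS : |S| * u ^ 3 ≤ m)
    (hX : X * u ^ 3 ≤ m * κ) (hE : 2 * l * E ≤ G + S ^ 2) (hG : 0 ≤ G) (hE0 : 0 ≤ E)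
    (hX0 : 0 ≤ X) (hY0 : 0 ≤ Y) (hF : |F| ≤ X + Y) :
    ((n ^ 2 - n) - (l ^ 2 - l)) * Ph + 2 * Y * |S| + 10 / 100 * u ^ 4 * X * E
      + 2 * l * (X * W / m) ≤ 1 / 100 * u ^ 4 * (κ * G) + 2 * (l - m) * F
        + 2 * m / u ^ 2 * (X + Y) := by
  have hu0 : 0 < u := by linarith
  have hu2 : 0 < u ^ 2 := by positivity
  have hu3 : 0 < u ^ 3 := by positivity
  have hu4 : 0 < u ^ 4 := by positivity
  have hu2' : (1000000 : ℝ) ≤ u ^ 2 := by nlinarith
  have hm0 : 0 < m := by nlinarith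
  have hm9 : (1000000000 : ℝ) ≤ m := by linarith
  obtain ⟨M, hM⟩ : ∃ M, M = m / u ^ 2 := ⟨_, rfl⟩
  have hMu : M * u ^ 2 = m := by rw [hM]; field_simp
  have hM0 : 0 < M := by rw [hM]; positivity
  have hM1000 : 1000 ≤ M := by
    rw [hM, le_div_iff₀ hu2]
    exact hm
  obtain ⟨hn1, hn2⟩ := abs_le.1 hnm
  have hXY : 0 ≤ X + Y := by linarith
  -- (a)
  have hhM : 16 * hh ≤ M := by
    have h1 : 16 * hh * u ^ 2 ≤ M * u ^ 2 := by
      rw [hMu]
      calc 16 * hh * u ^ 2 ≤ 16 * (m * e1) * u ^ 2 := by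
            apply mul_le_mul_of_nonneg_right _ hu2.le
            linarith
        _ = m * (16 * u ^ 2 * e1) := by ring
        _ ≤ m * 1 := mul_le_mul_of_nonneg_left he1 hm0.le
        _ = m := by ring
    exact le_of_mul_le_mul_right h1 hu2
  have hlm : |l - m| ≤ M / 8 := by
    rw [abs_le]
    constructor <;> linarith
  have ha : -(2 * (l - m) * F) ≤ M / 4 * (X + Y) := by
    have h1 : |(l - m) * F| ≤ M / 8 * (X + Y) := by
      rw [abs_mul]
      exact mul_le_mul hlm hF (abs_nonneg _) (by linarith)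
    have h2 := (abs_le.1 h1).1
    linarith
  -- (b)
  have hb : ((n ^ 2 - n) - (l ^ 2 - l)) * Ph ≤ M / 4 * X := by
    have h1 : (n ^ 2 - n) - (l ^ 2 - l) = hh * (n + l - 1) := by rw [hn]; ring
    have h2 : 0 ≤ n + l - 1 := by linarith
    have h3 : n + l - 1 ≤ 3 * m := by linarith
    rw [h1]
    have h4 : hh * (n + l - 1) * Ph ≤ hh * (n + l - 1) * (2 * u ^ 4 * κ) :=
      mul_le_mul_of_nonneg_left hPh (mul_nonneg hh0 h2)
    have h5 : hh * (n + l - 1) * (2 * u ^ 4 * κ) = (2 * u ^ 4 * (n + l - 1)) * (hh * κ) := by ring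
    have h6 : (2 * u ^ 4 * (n + l - 1)) * (hh * κ) ≤ (2 * u ^ 4 * (3 * m)) * (hh * κ) := by
      apply mul_le_mul_of_nonneg_right _ (mul_nonneg hh0 hk.le)
      exact mul_le_mul_of_nonneg_left h3 (by positivity)
    have h7 : (2 * u ^ 4 * (3 * m)) * (hh * κ) ≤ (2 * u ^ 4 * (3 * m)) * (2 * X * e2) :=
      mul_le_mul_of_nonneg_left hh2 (by positivity)
    have h8 : (2 * u ^ 4 * (3 * m)) * (2 * X * e2) = M / 4 * X * (48 * u ^ 6 * e2) := by
      rw [← hMu]; ring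
    have h9 : M / 4 * X * (48 * u ^ 6 * e2) ≤ M / 4 * X * 1 :=
      mul_le_mul_of_nonneg_left he2 (by positivity)
    linarith
  -- (c)
  have hSM : |S| ≤ M / 1000 := by
    have h1 : |S| * u ^ 3 ≤ M / 1000 * u ^ 3 := by
      calc |S| * u ^ 3 ≤ m := hS
        _ = M * u ^ 2 := hMu.symm
        _ ≤ M * u ^ 2 * (u / 1000) := by
          have : 1 ≤ u / 1000 := by linarith
          exact le_mul_of_one_le_right (by positivity) this
        _ = M / 1000 * u ^ 3 := by ring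
    exact le_of_mul_le_mul_right h1 hu3
  have hc : 2 * Y * |S| ≤ M / 4 * Y := by
    have : Y * |S| ≤ Y * (M / 1000) := mul_le_mul_of_nonneg_left hSM hY0
    have h2 : 0 ≤ M * Y := by positivity
    linarith
  -- (d)
  have hMm : M * 1000000 ≤ m := by
    have h1 : M * 1000000 ≤ M * u ^ 2 := mul_le_mul_of_nonneg_left hu2' hM0.le
    linarith
  have hl : 99 / 100 * m ≤ l := by linarith
  have hd : 10 / 100 * u ^ 4 * X * E ≤ 1 / 100 * u ^ 4 * (κ * G) + M * X := by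
    -- `m E ≤ (G + S²)`
    have h1 : m * E ≤ G + S ^ 2 := by
      have : 99 / 100 * m * E ≤ l * E := mul_le_mul_of_nonneg_right hl hE0
      have h2 : 0 ≤ m * E := by positivity
      linarith
    have h2 : X * u ^ 3 * (m * E) ≤ X * u ^ 3 * (G + S ^ 2) :=
      mul_le_mul_of_nonneg_left h1 (by positivity)
    have h3 : X * u ^ 3 * G ≤ m * κ * G := mul_le_mul_of_nonneg_right hX hG
    have h4 : S ^ 2 * u ^ 6 ≤ m ^ 2 := by
      have : (|S| * u ^ 3) ^ 2 ≤ m ^ 2 := pow_le_pow_left₀ (by positivity) hS 2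
      rw [mul_pow, sq_abs] at this
      calc S ^ 2 * u ^ 6 = S ^ 2 * (u ^ 3) ^ 2 := by ring
        _ ≤ m ^ 2 := this
    -- multiply the goal by `m u^3 `
    have h5 : X * E * u ^ 3 ≤ κ * G + X * u ^ 3 * S ^ 2 / m := by
      rw [← mul_le_mul_iff_right₀ hm0]
      have : m * (κ * G + X * u ^ 3 * S ^ 2 / m) = m * κ * G + X * u ^ 3 * S ^ 2 := by
        field_simp
      rw [this]
      linarith
    have h6 : X * E * u ^ 3 * (u / 10) ≤ (κ * G + X * u ^ 3 * S ^ 2 / m) * (u / 10) :=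
      mul_le_mul_of_nonneg_right h5 (by positivity)
    have h7 : κ * G * (u / 10) ≤ 1 / 100 * u ^ 4 * (κ * G) := by
      have h8 : 0 ≤ κ * G := by positivity
      have h9 : u / 10 ≤ 1 / 100 * u ^ 4 := by
        have : u * 1000 ≤ u * u ^ 3 := by
          apply mul_le_mul_of_nonneg_left _ hu0.le
          calc (1000 : ℝ) ≤ u := hu
            _ = u ^ 1 := (pow_one u).symm
            _ ≤ u ^ 3 := pow_le_pow_right₀ (by linarith) (by norm_num)
        have h10 : u * u ^ 3 = u ^ 4 := by ring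
        linarith
      calc κ * G * (u / 10) ≤ κ * G * (1 / 100 * u ^ 4) := mul_le_mul_of_nonneg_left h9 h8
        _ = 1 / 100 * u ^ 4 * (κ * G) := by ring
    have h8 : X * u ^ 3 * S ^ 2 / m * (u / 10) ≤ M * X := by
      have h9 : X * u ^ 3 * S ^ 2 / m * (u / 10) = X / (10 * m * u ^ 2) * (S ^ 2 * u ^ 6) := by
        field_simp
      have h10 : X / (10 * m * u ^ 2) * (S ^ 2 * u ^ 6) ≤ X / (10 * m * u ^ 2) * m ^ 2 :=
        mul_le_mul_of_nonneg_left h4 (by positivity)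
      have h11 : X / (10 * m * u ^ 2) * m ^ 2 = M * X / 10 := by
        rw [hM]
        field_simp
      have h12 : 0 ≤ M * X := by positivity
      rw [h9]
      linarith
    have h13 : X * E * u ^ 3 * (u / 10) = 10 / 100 * u ^ 4 * X * E := by ring
    linarith
  -- (e)
  have he : 2 * l * (X * W / m) ≤ M / 4 * X := by
    have h1 : l ≤ 2 * m := by linarith
    have h2 : 0 ≤ X * W / m := by positivity
    have h3 : 2 * l * (X * W / m) ≤ 2 * (2 * m) * (X * W / m) := by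
      apply mul_le_mul_of_nonneg_right _ h2
      linarith
    have h4 : 2 * (2 * m) * (X * W / m) = 4 * X * W := by field_simp; ring
    have h5 : 16 * W ≤ M := by
      have : 16 * W * u ^ 2 ≤ M * u ^ 2 := by
        rw [hMu]
        linarith
      exact le_of_mul_le_mul_right this hu2
    have h6 : X * (16 * W) ≤ X * M := mul_le_mul_of_nonneg_left h5 hX0
    linarith
  have hfin : 2 * m / u ^ 2 * (X + Y) = 2 * M * (X + Y) := by rw [hM]; ring
  rw [hfin]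
  have hMX : 0 ≤ M * X := by positivity
  have hMY : 0 ≤ M * Y := by positivity
  linarith

end CoreAux

open CoreAux

section

variable {ι : Type*} [DecidableEq ι]

omit [DecidableEq ι] in
/-- a heavy point against the light ones -/
theorem CoreAux.HL_sum {u q m κ : ℝ} (h : Win u q m κ) {L : Finset ι} {θ : ι → ℝ}
    (hL : ∀ z ∈ L, |θ z| ≤ u ^ 4 / 45) {t ε : ℝ} (hε : ε = 1 ∨ ε = -1)
    (ht : u ^ 4 / 200 ≤ ε * t) (hx : xi κ t ≤ 10 ^ 120) :
    L.card * Fh (xi κ t) - xi κ t * |Real.log (xi κ t)| * |SS L θ|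
      - 5 / 100 * u ^ 4 * xi κ t * (CC L θ - L.card)
      - L.card * (xi κ t * Real.exp (u ^ 4 / 20) / m)
      ≤ ∑ w ∈ L, Phi q (κ * Real.cosh (t - θ w)) := by
  have hxe : xi κ (ε * t) = xi κ t := by
    unfold xi
    rw [abs_mul]
    rcases hε with h1 | h1 <;> rw [h1] <;> simp
  have hcosh : ∀ s, Real.cosh (ε * t - ε * s) = Real.cosh (t - s) := by
    intro s
    rw [← mul_sub]
    rcases hε with h1 | h1 <;> rw [h1]
    · rw [one_mul]
    · rw [neg_one_mul, Real.cosh_neg]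
  have hcosh1 : ∀ s, Real.cosh (ε * s) = Real.cosh s := by
    intro s
    rcases hε with h1 | h1 <;> rw [h1]
    · rw [one_mul]
    · rw [neg_one_mul, Real.cosh_neg]
  have hsinh1 : ∀ s, Real.sinh (ε * s) = ε * Real.sinh s := by
    intro s
    rcases hε with h1 | h1 <;> rw [h1]
    · rw [one_mul, one_mul]
    · rw [neg_one_mul, neg_one_mul, Real.sinh_neg]
  have hab : |ε| = 1 := by
    rcases hε with h1 | h1 <;> rw [h1] <;> simp
  have hpt : ∀ w ∈ L, Fh (xi κ t) + xi κ t * Real.log (xi κ t) * (ε * Real.sinh (θ w))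
      - 5 / 100 * u ^ 4 * xi κ t * (Real.cosh (θ w) - 1) - xi κ t * Real.exp (u ^ 4 / 20) / m
      ≤ Phi q (κ * Real.cosh (t - θ w)) := by
    intro w hw
    have h1 := HL_pt (t := ε * t) (s := ε * θ w) h ht (by rw [hxe]; exact hx) (by
      rw [abs_mul, hab, one_mul]
      exact hL w hw)
    rw [hxe, hcosh, hcosh1, hsinh1] at h1
    exact h1
  have hsum := Finset.sum_le_sum hpt
  have hlhs : ∑ w ∈ L, (Fh (xi κ t) + xi κ t * Real.log (xi κ t) * (ε * Real.sinh (θ w))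
      - 5 / 100 * u ^ 4 * xi κ t * (Real.cosh (θ w) - 1) - xi κ t * Real.exp (u ^ 4 / 20) / m) =
      L.card * Fh (xi κ t) + xi κ t * Real.log (xi κ t) * (ε * SS L θ)
      - 5 / 100 * u ^ 4 * xi κ t * (CC L θ - L.card)
      - L.card * (xi κ t * Real.exp (u ^ 4 / 20) / m) := by
    unfold SS CC
    simp only [Finset.sum_sub_distrib, Finset.sum_add_distrib, Finset.sum_const, nsmul_eq_mul,
      ← Finset.mul_sum, mul_one]
  rw [hlhs] at hsum
  have hxi : 0 < xi κ t := xi_pos h.hk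
  have hbd : -(xi κ t * |Real.log (xi κ t)| * |SS L θ|) ≤
      xi κ t * Real.log (xi κ t) * (ε * SS L θ) := by
    have : |xi κ t * Real.log (xi κ t) * (ε * SS L θ)| =
        xi κ t * |Real.log (xi κ t)| * |SS L θ| := by
      rw [abs_mul, abs_mul, abs_mul, hab, one_mul, abs_of_pos hxi]
    rw [← this]
    exact neg_abs_le _
  linarith

/-- MODULE RW9 (the core lower bound for the pair sum).
`offd_part` for `f z w = Φ(κ cosh (θ z - θ w))`.
* `L` with itself: `LL_core`.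
* `P` with `L`: `HL_pt` with `t = θ z`, `s = θ w`, summed over `w ∈ L`:
  `≥ |L| Fh ξ + ξ log ξ · SS L - 0.05 u^4 ξ (CC L - |L|) - 2 ξ exp(u^4/20)`;
  `Q` with `L`: `HL_pt` with `t = -θ z`, `s = -θ w`.
* `P` with `P`, `Q` with `Q`: `HH_same`; `P` with `Q`: `HH_opp` with `t = θ z`, `t' = -θ w`.
Put `X = XX P + XX Q ≤ S0`, `S = SS L`, `|S| ≤ S0/κ`, `E = CC L - |L| ≤ (GG L + S²)/(2|L|)`
(`GG_card`), `Λ = m κ`, `S0 u³ ≤ Λ`; `|L| ≥ m (1 - exp(-u^4/300))` (`card_small`, `card_part`).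
* `0.1 u^4 X E ≤ 0.051 u^4 X (GG + S²)/m ≤ 0.01 u^4 κ GG + 0.051 u^4 m X S0²/Λ²
  ≤ 0.01 u^4 κ GG + m X /u²`;
* `2 ∑ ξ |log ξ| |S| ≤ 2 (S0/Λ) m ∑ ξ |log ξ| ≤ (2 m/u³) ∑ ξ |log ξ|`;
* `4 X exp(u^4/20)`, `2 (|Z| - |L| + 2) |Fh ξ|` and `((|Z|² - |Z|) - (|L|² - |L|)) Φ(κ)
  ≤ 2 (m+2)(|P|+|Q|) · 2 u^4 κ` are all `≤ (m/u³) ∑ (ξ + ξ |log ξ|)`: use `card_heavy` for the last
  one, `(|P|+|Q|) κ ≤ 2 X exp(-u^4/200)`. -/
theorem core {u q m κ S0 B : ℝ} (h : Win u q m κ) {Z L P Q : Finset ι} {θ : ι → ℝ}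
    (hp : Part u Z L P Q θ) (hc : |(Z.card : ℝ) - m| ≤ 2)
    (hx : ∀ z ∈ P ∪ Q, xi κ (θ z) ≤ 10 ^ 120) (hS0 : S0 * u ^ 3 ≤ m * κ)
    (hS : κ * |SS L θ| ≤ S0) (hX : XX κ P θ + XX κ Q θ ≤ S0) (hB : 0 ≤ B)
    (hB' : ∀ z ∈ P, ∀ w ∈ Q, Real.log (2 * xi κ (θ z) * xi κ (θ w)) ≤ B) :
    ((Z.card : ℝ) ^ 2 - Z.card) * Phi q κ + 94 / 100 * u ^ 4 * (κ * GG L θ)
      + 2 * m * ∑ z ∈ P ∪ Q, Fh (xi κ (θ z))
      - 4 / κ * (el κ + B) * (XX κ P θ * XX κ Q θ)
      - 2 * m / u ^ 2 * ∑ z ∈ P ∪ Q, (xi κ (θ z) + xi κ (θ z) * |Real.log (xi κ (θ z))|)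
      ≤ PS q κ Z θ := by
  have hk := h.hk
  obtain ⟨hu0, hm0, hq, -, hk1⟩ := h.pos
  obtain ⟨n1, n2, n3, n4, n5⟩ := num h
  have hu4 : 0 < u ^ 4 := by positivity
  have hu3 : 0 < u ^ 3 := by positivity
  have hu31 : 1 ≤ u ^ 3 := one_le_pow₀ (by linarith)
  have hsymm : ∀ i j, Phi q (κ * Real.cosh (θ i - θ j)) = Phi q (κ * Real.cosh (θ j - θ i)) := by
    intro i j
    rw [← Real.cosh_neg, neg_sub]
  have hS00 : 0 ≤ S0 := le_trans (mul_nonneg hk.le (abs_nonneg _)) hS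
  -- the pieces
  have hsplit := offd_part hp (fun z w => Phi q (κ * Real.cosh (θ z - θ w))) hsymm
  have hLL := LL_core h L θ hp.hL
  have hPP : 0 ≤ offd P (fun z w => Phi q (κ * Real.cosh (θ z - θ w))) := by
    apply offd_nonneg
    intro z hz w hw _
    exact HH_same h (hp.hP z hz) (hp.hP w hw) (hx z (mem_union_left _ hz))
      (hx w (mem_union_left _ hw))
  have hQQ : 0 ≤ offd Q (fun z w => Phi q (κ * Real.cosh (θ z - θ w))) := by
    apply offd_nonneg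
    intro z hz w hw _
    have hxn : ∀ t, xi κ (-t) = xi κ t := by intro t; unfold xi; rw [abs_neg]
    have := HH_same (q := q) (m := m) (t := -θ z) (t' := -θ w) h (hp.hQ z hz) (hp.hQ w hw)
      (by rw [hxn]; exact hx z (mem_union_right _ hz))
      (by rw [hxn]; exact hx w (mem_union_right _ hw))
    have e : -θ z - -θ w = -(θ z - θ w) := by ring
    rw [e, Real.cosh_neg] at this
    exact this
  have hPQ : -(2 / κ * (el κ + B) * (XX κ P θ * XX κ Q θ)) ≤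
      ∑ z ∈ P, ∑ w ∈ Q, Phi q (κ * Real.cosh (θ z - θ w)) := by
    have h1 : ∑ z ∈ P, ∑ w ∈ Q, -(2 * xi κ (θ z) * xi κ (θ w) / κ * (el κ + B)) ≤
        ∑ z ∈ P, ∑ w ∈ Q, Phi q (κ * Real.cosh (θ z - θ w)) := by
      apply Finset.sum_le_sum
      intro z hz
      apply Finset.sum_le_sum
      intro w hw
      have hxn : ∀ t, xi κ (-t) = xi κ t := by intro t; unfold xi; rw [abs_neg]
      have := HH_opp (q := q) (m := m) (t := θ z) (t' := -θ w) h
        (by linarith [hp.hP z hz]) (by linarith [hp.hQ w hw]) hB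
        (by rw [hxn]; exact hB' z hz w hw)
      rw [hxn] at this
      have e : θ z + -θ w = θ z - θ w := by ring
      rw [e] at this
      exact this
    have h2 : ∑ z ∈ P, ∑ w ∈ Q, -(2 * xi κ (θ z) * xi κ (θ w) / κ * (el κ + B)) =
        -(2 / κ * (el κ + B) * (XX κ P θ * XX κ Q θ)) := by
      unfold XX
      rw [Finset.sum_mul_sum, Finset.mul_sum, ← Finset.sum_neg_distrib]
      apply Finset.sum_congr rfl
      intro z _
      rw [Finset.mul_sum, ← Finset.sum_neg_distrib]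
      apply Finset.sum_congr rfl
      intro w _
      ring
    rw [h2] at h1
    exact h1
  have hPL : ∀ z ∈ P ∪ Q,
      L.card * Fh (xi κ (θ z)) - xi κ (θ z) * |Real.log (xi κ (θ z))| * |SS L θ|
      - 5 / 100 * u ^ 4 * xi κ (θ z) * (CC L θ - L.card)
      - L.card * (xi κ (θ z) * Real.exp (u ^ 4 / 20) / m)
      ≤ ∑ w ∈ L, Phi q (κ * Real.cosh (θ z - θ w)) := by
    intro z hz
    rcases mem_union.1 hz with hz' | hz'
    · exact HL_sum h hp.hL (ε := 1) (Or.inl rfl) (by rw [one_mul]; exact hp.hP z hz') (hx z hz)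
    · exact HL_sum h hp.hL (ε := -1) (Or.inr rfl)
        (by rw [neg_one_mul]; exact hp.hQ z hz') (hx z hz)
  have hsumPL := Finset.sum_le_sum hPL
  obtain ⟨X, hXd⟩ : ∃ X, X = ∑ z ∈ P ∪ Q, xi κ (θ z) := ⟨_, rfl⟩
  obtain ⟨Y, hYd⟩ : ∃ Y, Y = ∑ z ∈ P ∪ Q, xi κ (θ z) * |Real.log (xi κ (θ z))| := ⟨_, rfl⟩
  obtain ⟨F, hFd⟩ : ∃ F, F = ∑ z ∈ P ∪ Q, Fh (xi κ (θ z)) := ⟨_, rfl⟩
  have hXX : X = XX κ P θ + XX κ Q θ := by
    rw [hXd, Finset.sum_union hp.hPQ]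
    rfl
  have hlhs : ∑ z ∈ P ∪ Q,
      ((L.card : ℝ) * Fh (xi κ (θ z)) - xi κ (θ z) * |Real.log (xi κ (θ z))| * |SS L θ|
      - 5 / 100 * u ^ 4 * xi κ (θ z) * (CC L θ - L.card)
      - L.card * (xi κ (θ z) * Real.exp (u ^ 4 / 20) / m)) =
      L.card * F - Y * |SS L θ| - 5 / 100 * u ^ 4 * X * (CC L θ - L.card)
        - L.card * (X * Real.exp (u ^ 4 / 20) / m) := by
    rw [Finset.sum_sub_distrib, Finset.sum_sub_distrib, Finset.sum_sub_distrib,
      ← Finset.mul_sum, ← Finset.sum_mul, ← Finset.sum_mul, ← Finset.mul_sum, ← Finset.mul_sum,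
      ← Finset.sum_div, ← Finset.sum_mul, ← hXd, ← hYd, ← hFd]
  have hrhs : ∑ z ∈ P ∪ Q, ∑ w ∈ L, Phi q (κ * Real.cosh (θ z - θ w)) =
      ∑ z ∈ P, ∑ w ∈ L, Phi q (κ * Real.cosh (θ z - θ w))
        + ∑ z ∈ Q, ∑ w ∈ L, Phi q (κ * Real.cosh (θ z - θ w)) := Finset.sum_union hp.hPQ
  rw [hlhs, hrhs] at hsumPL
  have hsum2 : ∑ z ∈ P ∪ Q, (xi κ (θ z) + xi κ (θ z) * |Real.log (xi κ (θ z))|) = X + Y := by
    rw [Finset.sum_add_distrib, ← hXd, ← hYd]
  rw [hsum2, ← hFd]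
  have hX0 : 0 ≤ X := by
    rw [hXd]
    exact Finset.sum_nonneg fun z _ => (xi_pos hk).le
  have hY0 : 0 ≤ Y := by
    rw [hYd]
    exact Finset.sum_nonneg fun z _ => mul_nonneg (xi_pos hk).le (abs_nonneg _)
  have hF : |F| ≤ X + Y := by
    rw [hFd, ← hsum2]
    refine (Finset.abs_sum_le_sum_abs _ _).trans (Finset.sum_le_sum fun z _ => ?_)
    exact abs_Fh (xi_pos hk)
  have hXS0 : X ≤ S0 := by rw [hXX]; exact hX
  have hXk : X * u ^ 3 ≤ m * κ := (mul_le_mul_of_nonneg_right hXS0 hu3.le).trans hS0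
  have hXmk : XX κ P θ + XX κ Q θ ≤ m * κ := by
    rw [← hXX]
    refine le_trans ?_ hXk
    exact le_mul_of_one_le_right hX0 hu31
  have hcard := card_small h hp hXmk
  have hheavy := card_heavy hp hk
  rw [← hXX] at hheavy
  have hcp := card_part hp
  have hSm : |SS L θ| * u ^ 3 ≤ m := by
    have h1 : κ * (|SS L θ| * u ^ 3) ≤ κ * m := by
      calc κ * (|SS L θ| * u ^ 3) = κ * |SS L θ| * u ^ 3 := by ring
        _ ≤ S0 * u ^ 3 := mul_le_mul_of_nonneg_right hS hu3.le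
        _ ≤ m * κ := hS0
        _ = κ * m := by ring
    exact le_of_mul_le_mul_left h1 hk
  have hh2 : ((P.card : ℝ) + Q.card) * κ ≤ 2 * X * Real.exp (-(u ^ 4 / 200)) := by
    have h1 : ((P.card : ℝ) + Q.card) * κ =
        2 * (((P.card : ℝ) + Q.card) * (κ * Real.exp (u ^ 4 / 200) / 2))
          * Real.exp (-(u ^ 4 / 200)) := by
      have : Real.exp (u ^ 4 / 200) * Real.exp (-(u ^ 4 / 200)) = 1 := by
        rw [← Real.exp_add]; simp
      linear_combination (-((P.card : ℝ) + Q.card) * κ) * this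
    rw [h1]
    apply mul_le_mul_of_nonneg_right _ (Real.exp_pos _).le
    linarith
  have hbook := book (u := u) (m := m) (κ := κ) (n := Z.card) (l := L.card)
    (hh := (P.card : ℝ) + Q.card) (X := X) (Y := Y) (S := SS L θ) (E := CC L θ - L.card)
    (G := GG L θ) (Ph := Phi q κ) (F := F) (e1 := Real.exp (-(u ^ 4 / 250)))
    (e2 := Real.exp (-(u ^ 4 / 200))) (W := Real.exp (u ^ 4 / 20)) n1 n2 hk n3 n4
    (Real.exp_pos _).le n5 (Real.exp_pos _).le (by rw [hcp]; ring) hc (by positivity)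
    (by positivity) hcard hh2 (CoreAux.Phi_le h) hSm hXk (GG_card L θ) (GG_nonneg L θ)
    (by linarith [CC_ge L θ]) hX0 hY0 hF
  have hfin : PS q κ Z θ = offd Z (fun z w => Phi q (κ * Real.cosh (θ z - θ w))) := rfl
  have hfinL : PS q κ L θ = offd L (fun z w => Phi q (κ * Real.cosh (θ z - θ w))) := rfl
  rw [hfin, hsplit]
  rw [hfinL] at hLL
  have e4 : 4 / κ * (el κ + B) * (XX κ P θ * XX κ Q θ) =
      2 * (2 / κ * (el κ + B) * (XX κ P θ * XX κ Q θ)) := by ring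
  rw [e4]
  linarith

end

end Pool.Agent.RieszWin
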