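import Pool.Agent.RieszWin.RelF
import Pool.Agent.RieszWin.FhF

set_option autoImplicit false

open Real Finset

namespace Pool.Agent.RieszWin

open Pool.Agent.RieszSmall Pool.Agent.RieszLin Pool.Agent.RieszTr

section

variable {ι : Type*} [Fintype ι] [DecidableEq ι]

namespace CvxAux

lemma log_th : (2 : ℝ) / 5 ≤ Real.log (3 / 2) := by
  rw [Real.le_log_iff_exp_le (by norm_num)]
  -- `exp (2/5) ≤ 3/2` from `(exp (2/5))^5 = exp 2 < 7.4 < 7.59 = (3/2)^5`
  have h1 : Real.exp (2 / 5) ^ 5 ≤ (3 / 2 : ℝ) ^ 5 := by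
    rw [← Real.exp_nat_mul]
    have e : ((5 : ℕ) : ℝ) * (2 / 5) = 1 + 1 := by norm_num
    rw [e, Real.exp_add]
    have := Real.exp_one_lt_d9
    have h0 := Real.exp_pos 1
    have : Real.exp 1 * Real.exp 1 ≤ 2.7182818286 * 2.7182818286 :=
      mul_le_mul this.le this.le h0.le (by norm_num)
    refine this.trans ?_
    norm_num
  exact le_of_pow_le_pow_left₀ (by norm_num) (by norm_num) h1

end CvxAux

open CvxAux

/-- MODULE RW14 (concavity). Put `X = σ Pm`, `x i = σ a i` for `i ∈ HP`; `∑ x = X`. If `X = 0` then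
`HP` is empty. Otherwise `∑ Fh (x i) - 2 Fh (X/2) = ∑ x i log (X/(2 x i))`. For `i ≠ i1, i2`:
`3 x i ≤ X`, `log (3/2) ≥ 2/5`. For `i = i2`: `2 x ≤ X`. For `i = i1`:
`x log (2x/X) ≤ x (2x/X - 1) ≤ 2 x - X ≤ σ exp(-0.3 u^4)` if `2x ≥ X` (`x ≤ X`). -/
theorem cvx {u σ : ℝ} {a : ι → ℝ} (hn : NonDom u a) (hσ : 0 ≤ σ) {i1 i2 : ι}
    (ht : Top2 a i1 i2) :
    2 * Fh (σ * Pm u a / 2) + 2 / 5 * (σ * R3 u a i1 i2)
      ≤ ∑ i ∈ HP u a, Fh (σ * a i) + σ * Real.exp (-(3 / 10) * u ^ 4) := by
  rcases hσ.eq_or_lt with h0' | hσ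
  · subst h0'
    simp [Fh_zero]
  have hmem : ∀ i, i ∈ HP u a ↔ h0 u < a i := by
    intro i
    unfold HP
    simp
  have hh0 : 0 < h0 u := Real.exp_pos _
  have hpos : ∀ i ∈ HP u a, 0 < a i := fun i hi => lt_trans hh0 ((hmem i).1 hi)
  have hee : 0 < Real.exp (-(3 / 10) * u ^ 4) := Real.exp_pos _
  obtain ⟨e, he⟩ : ∃ e, e = Real.exp (-(3 / 10) * u ^ 4) := ⟨_, rfl⟩
  have hnd : ∀ i ∈ HP u a, 2 * a i - Pm u a ≤ e := by
    intro i hi
    rw [he]
    exact hn i hi
  rw [← he] at hee ⊢
  rcases (HP u a).eq_empty_or_nonempty with hemp | hne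
  · have h1 : Pm u a = 0 := by unfold Pm; rw [hemp]; simp
    have h2 : R3 u a i1 i2 = 0 := by unfold R3; rw [hemp]; simp
    rw [h1, h2, hemp]
    simp only [mul_zero, zero_div, Fh_zero, add_zero, sum_empty, zero_add]
    positivity
  have hPm : 0 < Pm u a := by
    unfold Pm
    exact sum_pos hpos hne
  obtain ⟨X, hX⟩ : ∃ X, X = σ * Pm u a := ⟨_, rfl⟩
  have hX0 : 0 < X := by rw [hX]; positivity
  have hsum : ∑ i ∈ HP u a, σ * a i = X := by
    rw [← mul_sum, hX]
    rfl
  -- subsets
  have hsub : ∀ T : Finset ι, T ⊆ HP u a → ∑ i ∈ T, a i ≤ Pm u a := by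
    intro T hT
    unfold Pm
    exact sum_le_sum_of_subset_of_nonneg hT fun i hi _ => (hpos i hi).le
  have hiden : ∑ i ∈ HP u a, Fh (σ * a i) - 2 * Fh (X / 2) =
      ∑ i ∈ HP u a, (σ * a i) * (Real.log (X / 2) - Real.log (σ * a i)) := by
    have e1 : ∑ i ∈ HP u a, (σ * a i) * (Real.log (X / 2) - Real.log (σ * a i)) =
        (∑ i ∈ HP u a, σ * a i) * Real.log (X / 2) -
          ∑ i ∈ HP u a, (σ * a i) * Real.log (σ * a i) := by
      rw [sum_mul, ← sum_sub_distrib]
      exact sum_congr rfl fun i _ => by ring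
    have e2 : ∑ i ∈ HP u a, Fh (σ * a i) = ∑ i ∈ HP u a, σ * a i -
        ∑ i ∈ HP u a, (σ * a i) * Real.log (σ * a i) := by
      rw [← sum_sub_distrib]
      rfl
    rw [e1, e2, hsum]
    unfold Fh
    ring
  have hpt : ∀ i ∈ HP u a, (if i ≠ i1 ∧ i ≠ i2 then 2 / 5 * (σ * a i) else 0) -
      (if i = i1 then σ * e else 0) ≤
      (σ * a i) * (Real.log (X / 2) - Real.log (σ * a i)) := by
    intro i hi
    have hai := hpos i hi
    have hxi : 0 < σ * a i := by positivity
    by_cases hi1 : i = i1
    · subst hi1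
      simp only [ne_eq, not_true_eq_false, false_and, if_false, if_true, zero_sub]
      have hle : a i ≤ Pm u a := by
        have := hsub {i} (by simpa using hi)
        simpa using this
      have hxX : σ * a i ≤ X := by rw [hX]; exact mul_le_mul_of_nonneg_left hle hσ.le
      have hlog : Real.log (σ * a i) - Real.log (X / 2) ≤ (σ * a i) / (X / 2) - 1 := by
        rw [← Real.log_div hxi.ne' (by positivity)]
        exact Real.log_le_sub_one_of_pos (by positivity)
      have hmain : (σ * a i) * (Real.log (σ * a i) - Real.log (X / 2)) ≤ σ * e := by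
        have h1 : (σ * a i) * (Real.log (σ * a i) - Real.log (X / 2)) ≤
            (σ * a i) * ((σ * a i) / (X / 2) - 1) := mul_le_mul_of_nonneg_left hlog hxi.le
        refine h1.trans ?_
        have h2 : (σ * a i) * ((σ * a i) / (X / 2) - 1) =
            (σ * a i / X) * (2 * (σ * a i) - X) := by
          field_simp
        rw [h2]
        have h3 : 0 ≤ σ * a i / X := by positivity
        have h4 : σ * a i / X ≤ 1 := by rw [div_le_one hX0]; exact hxX
        have h5 : 2 * (σ * a i) - X ≤ σ * e := by
          have := mul_le_mul_of_nonneg_left (hnd i hi) hσ.le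
          rw [hX]
          linarith
        have h6 : 0 ≤ σ * e := by positivity
        rcases le_total 0 (2 * (σ * a i) - X) with h7 | h7
        · have := mul_le_mul_of_nonneg_right h4 h7
          linarith
        · have := mul_nonpos_of_nonneg_of_nonpos h3 h7
          linarith
      linarith
    · by_cases hi2 : i = i2
      · subst hi2
        have h1in : i1 ∈ HP u a := (hmem i1).2 (lt_of_lt_of_le ((hmem i).1 hi) ht.le)
        simp only [ne_eq, not_true_eq_false, and_false, if_false, hi1, sub_zero]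
        apply mul_nonneg hxi.le
        rw [sub_nonneg]
        apply Real.log_le_log hxi
        have := hsub {i1, i} (by
          intro j hj
          rw [mem_insert, mem_singleton] at hj
          rcases hj with rfl | rfl
          · exact h1in
          · exact hi)
        rw [sum_pair ht.ne] at this
        have h2 : 2 * a i ≤ Pm u a := by linarith [ht.le]
        rw [hX]
        have := mul_le_mul_of_nonneg_left h2 hσ.le
        linarith
      · have hle := ht.top i hi1 hi2
        have h2in : i2 ∈ HP u a := (hmem i2).2 (lt_of_lt_of_le ((hmem i).1 hi) hle)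
        have h1in : i1 ∈ HP u a := (hmem i1).2 (lt_of_lt_of_le ((hmem i2).1 h2in) ht.le)
        simp only [ne_eq, hi1, hi2, not_false_eq_true, and_self, if_true, if_false, sub_zero]
        have h3 : 3 * a i ≤ Pm u a := by
          have := hsub {i1, i2, i} (by
            intro j hj
            rw [mem_insert, mem_insert, mem_singleton] at hj
            rcases hj with rfl | rfl | rfl
            · exact h1in
            · exact h2in
            · exact hi)
          rw [sum_insert (by
            rw [mem_insert, mem_singleton]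
            push Not
            exact ⟨ht.ne, fun h => hi1 h.symm⟩), sum_pair (fun h => hi2 h.symm)] at this
          linarith [ht.le]
        have h4 : 3 / 2 * (σ * a i) ≤ X / 2 := by
          rw [hX]
          have := mul_le_mul_of_nonneg_left h3 hσ.le
          linarith
        have h5 : Real.log (3 / 2) + Real.log (σ * a i) ≤ Real.log (X / 2) := by
          rw [← Real.log_mul (by norm_num) hxi.ne']
          exact Real.log_le_log (by positivity) h4
        have h6 : 2 / 5 ≤ Real.log (X / 2) - Real.log (σ * a i) := by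
          have := log_th
          linarith
        have := mul_le_mul_of_nonneg_left h6 hxi.le
        linarith
  have htot := sum_le_sum hpt
  rw [sum_sub_distrib, ← sum_filter] at htot
  have hR : ∑ i ∈ (HP u a).filter (fun i => i ≠ i1 ∧ i ≠ i2), 2 / 5 * (σ * a i) =
      2 / 5 * (σ * R3 u a i1 i2) := by
    unfold R3
    rw [mul_sum, mul_sum]
  have hE : ∑ i ∈ HP u a, (if i = i1 then σ * e else 0) ≤ σ * e := by
    rw [sum_ite_eq']
    have : 0 ≤ σ * e := by positivity
    split_ifs
    · exact le_rfl
    · exact this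
  rw [hR, ← hiden] at htot
  rw [← hX]
  linarith

end

end Pool.Agent.RieszWin
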