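import Pool.Agent.RieszTr.Dual
import Pool.Agent.RieszTr.Split
import Pool.Agent.RieszTr.TT

set_option autoImplicit false

/-!
# The window between the two regimes (MP_743703_an)

Notation: `q = s/2`, `p = q + 1`, `m = d + 1`, `Φ = Phi q`, `Fh x = x - x log x`, `el κ = log (1/κ)`,
`u = (log m)^(1/4)` (so `m = exp (u^4)`).
For `b, α : ι → ℝ` the number `LB q b α` is a lower bound of the energy of every configuration
which has the affine dependency `α`.  Points `z` with `b z = √κ cosh θ`, `α z = √κ sinh θ` satisfy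
`b z b z' - α z α z' = κ cosh (θ z - θ z')`.
-/

open Real Finset

namespace Pool.Agent.RieszWin

open Pool.Agent.RieszSmall Pool.Agent.RieszLin Pool.Agent.RieszTr

/-- `x - x log x` -/
noncomputable def Fh (x : ℝ) : ℝ := x - x * Real.log x

/-- `log (1/κ)` -/
noncomputable def el (κ : ℝ) : ℝ := -Real.log κ

/-- the regime -/
structure Win (u q m κ : ℝ) : Prop where
  hu : (10 : ℝ) ^ 200 ≤ u
  hm : m = Real.exp (u ^ 4)
  hk : 0 < κ
  lo : 1 ≤ m * κ * u ^ 4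
  hi : m * κ ≤ 10 ^ 105 * u ^ 4
  plo : 999 / 1000 * (m * u ^ 4) ≤ q
  phi : q + 1 ≤ 1001 / 1000 * (m * u ^ 4)

/-- `ξ = κ exp |t| / 2` -/
noncomputable def xi (κ t : ℝ) : ℝ := κ * Real.exp |t| / 2

section

variable {ι : Type*}

/-- `∑ cosh` -/
noncomputable def CC (S : Finset ι) (θ : ι → ℝ) : ℝ := ∑ z ∈ S, Real.cosh (θ z)

/-- `∑ sinh` -/
noncomputable def SS (S : Finset ι) (θ : ι → ℝ) : ℝ := ∑ z ∈ S, Real.sinh (θ z)

/-- `(∑ cosh)² - (∑ sinh)² - n²` -/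
noncomputable def GG (S : Finset ι) (θ : ι → ℝ) : ℝ :=
  (CC S θ) ^ 2 - (SS S θ) ^ 2 - (S.card : ℝ) ^ 2

/-- `∑ ξ` -/
noncomputable def XX (κ : ℝ) (S : Finset ι) (θ : ι → ℝ) : ℝ := ∑ z ∈ S, xi κ (θ z)

variable [DecidableEq ι]

/-- the pair sum of the points of `S` -/
noncomputable def PS (q κ : ℝ) (S : Finset ι) (θ : ι → ℝ) : ℝ :=
  offd S (fun z z' => Phi q (κ * Real.cosh (θ z - θ z')))

/-- `Z` is the disjoint union of `L`, `P`, `Q`; the angles in `L` are small, those in `P` are large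
positive, those in `Q` large negative. -/
structure Part (u : ℝ) (Z L P Q : Finset ι) (θ : ι → ℝ) : Prop where
  hZ : L ∪ P ∪ Q = Z
  hLP : Disjoint L P
  hLQ : Disjoint L Q
  hPQ : Disjoint P Q
  hL : ∀ z ∈ L, |θ z| ≤ u ^ 4 / 45
  hP : ∀ z ∈ P, u ^ 4 / 200 ≤ θ z
  hQ : ∀ z ∈ Q, u ^ 4 / 200 ≤ -θ z

variable [Fintype ι]

/-- the certificate value -/
noncomputable def LB (q : ℝ) (b α : ι → ℝ) : ℝ :=
  offsum (fun i j => Phi q (b i * b j - α i * α j)) - q * ∑ i, (b i ^ 2 - α i ^ 2)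

/-- weights below `h0` are light -/
noncomputable def h0 (u : ℝ) : ℝ := Real.exp (-(99 / 100) * u ^ 4)

/-- indices of heavy positive weights -/
noncomputable def HP (u : ℝ) (a : ι → ℝ) : Finset ι := univ.filter (fun i => h0 u < a i)

/-- total heavy positive weight -/
noncomputable def Pm (u : ℝ) (a : ι → ℝ) : ℝ := ∑ i ∈ HP u a, a i

/-- normalized relation -/
structure Rel (a : ι → ℝ) : Prop where
  sum : ∑ i, a i = 0
  abs : ∑ i, |a i| = 2

/-- no heavy weight exceeds the sum of the other heavy weights of its side (up to a tiny error) -/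
def NonDom (u : ℝ) (a : ι → ℝ) : Prop :=
  ∀ i ∈ HP u a, 2 * a i - Pm u a ≤ Real.exp (-(3 / 10) * u ^ 4)

/-- `i1`, `i2` carry the two largest positive weights -/
structure Top2 (a : ι → ℝ) (i1 i2 : ι) : Prop where
  ne : i1 ≠ i2
  pos : 0 < a i2
  le : a i2 ≤ a i1
  top : ∀ z, z ≠ i1 → z ≠ i2 → a z ≤ a i2

/-- heavy weight outside the two largest -/
noncomputable def R3 (u : ℝ) (a : ι → ℝ) (i1 i2 : ι) : ℝ :=
  ∑ i ∈ (HP u a).filter (fun z => z ≠ i1 ∧ z ≠ i2), a i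

end

/-- the main term of all bounds: `(n² - n) Φ(κ) - q n κ`, `n = m + 2` -/
noncomputable def Base (q m κ : ℝ) : ℝ :=
  ((m + 2) ^ 2 - (m + 2)) * Phi q κ - q * (m + 2) * κ

/-- `λ = m κ / log (1/κ)` -/
noncomputable def lam (m κ : ℝ) : ℝ := m * κ / el κ

/-- limit functional: `4 F(tY) + 4 F(Y) - 16 t Y²/λ` -/
noncomputable def Vt (l t y : ℝ) : ℝ := 4 * Fh (t * y) + 4 * Fh y - 16 * t * y ^ 2 / l

/-- energy of the symmetric lifted square in dual form; `κ = K_zz`, `Y = K_sz`, `A = K_adj`. -/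
noncomputable def Esq (q m κ Y A : ℝ) : ℝ :=
  (m - 2) * (m - 3) * Phi q κ - q * (m - 2) * κ + 8 * (m - 2) * Phi q Y + 8 * Phi q A
    + 4 * Phi q ((2 : ℝ) ^ (-(q + 1)) * A) - 4 * q * ((2 : ℝ) ^ (-(q + 1)) * A)

/-- the constants of the optimal lifted square -/
structure Sqr (q m κ Y A : ℝ) : Prop where
  hk : 0 < κ
  hY : 0 < Y
  hY1 : Y < 1
  hA : 0 < A
  e1 : 2 * Y ^ 2 = κ * (A + (2 : ℝ) ^ (-(q + 1)) * A)
  e2 : (m - 2) * κ * (Y ^ (-(1 / (q + 1))) - 1) = 4 * Y * (1 - A ^ (-(1 / (q + 1))))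
  e3 : 4 * (Y ^ (-(1 / (q + 1))) - 1) * Y = κ * (1 - (m - 3) * (κ ^ (-(1 / (q + 1))) - 1))

end Pool.Agent.RieszWin
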