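import Pool.Agent.RieszWin.Core
import Pool.Agent.RieszWin.Angle
import Pool.Agent.RieszWin.HypLB

set_option autoImplicit false

open Real Finset

namespace Pool.Agent.RieszWin

open Pool.Agent.RieszSmall Pool.Agent.RieszLin Pool.Agent.RieszTr

namespace FUAux

/-- pointwise comparison -/
theorem point {u m e x ξ : ℝ} (hu : (10 : ℝ) ^ 200 ≤ u) (hm : 0 < m) (he0 : 0 < e)
    (he : e ≤ 1 / u ^ 2) (hx : 0 < x) (hx2 : x ≤ 2) (h1 : x ≤ ξ) (h2 : ξ ≤ x * (1 + e)) :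
    2 * m * (1 - 1 / u) * Fh x - m / u * x ≤
      2 * m * Fh ξ - 2 * m / u ^ 2 * (ξ + ξ * |Real.log ξ|) := by
  have hu0 : 0 < u := lt_of_lt_of_le (by norm_num) hu
  obtain ⟨v, hv⟩ : ∃ v, v = 1 / u := ⟨_, rfl⟩
  have hv0 : 0 < v := by rw [hv]; positivity
  have hv1 : v ≤ 1 / 100 := by
    rw [hv, div_le_div_iff₀ hu0 (by norm_num)]
    have : (10 : ℝ) ^ 2 ≤ 10 ^ 200 := by norm_num
    linarith
  have e1 : m / u = m * v := by rw [hv]; ring
  have e2 : 2 * m / u ^ 2 = 2 * m * v ^ 2 := by rw [hv]; field_simp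
  have e3 : 1 / u ^ 2 = v ^ 2 := by rw [hv]; field_simp
  rw [e1, e2, ← hv]
  rw [e3] at he
  have hξ0 : 0 < ξ := lt_of_lt_of_le hx h1
  have hv2 : v ^ 2 ≤ 1 / 10000 := by nlinarith
  have hξ : ξ ≤ 201 / 100 := by nlinarith
  have hlog : Real.log ξ ≤ 1 := by
    rw [Real.log_le_iff_le_exp hξ0]
    have := Real.add_one_le_exp (1 : ℝ)
    have h27 : (2.7182818283 : ℝ) < Real.exp 1 := Real.exp_one_gt_d9
    linarith
  have hg := Fh_sub hx h1 (zero_le_one) hlog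
  have hl := mul_abs_log_le hξ0 (by linarith : ξ ≤ 21 / 10)
  have hf := Fh_nonneg hx.le (by linarith : x ≤ 27 / 10)
  set f := Fh x
  set g := Fh ξ
  -- `g - v² (ξ + ξ|log ξ|) ≥ (1-v²) g - 2 v² ξ`
  have s1 : g - v ^ 2 * (ξ + ξ * |Real.log ξ|) ≥ (1 - v ^ 2) * g - 2 * v ^ 2 * ξ := by
    have := mul_le_mul_of_nonneg_left hl (sq_nonneg v)
    nlinarith
  have s2 : (1 - v ^ 2) * g ≥ (1 - v ^ 2) * (f - e * x) := by
    apply mul_le_mul_of_nonneg_left _ (by linarith)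
    nlinarith
  have s3 : (1 - v ^ 2) * (e * x) ≤ e * x := by
    have : 0 ≤ e * x := by positivity
    nlinarith [sq_nonneg v]
  have s4 : e * x ≤ v ^ 2 * x := mul_le_mul_of_nonneg_right he hx.le
  have s5 : 2 * v ^ 2 * ξ ≤ 4 * v ^ 2 * x := by
    have : ξ ≤ 2 * x := by nlinarith
    nlinarith [sq_nonneg v]
  have s6 : (1 - v) * f ≤ (1 - v ^ 2) * f := by
    apply mul_le_mul_of_nonneg_right _ hf
    nlinarith
  have s7 : 5 * v ^ 2 * x ≤ v / 2 * x := by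
    apply mul_le_mul_of_nonneg_right _ hx.le
    nlinarith
  have s8 : (1 - v) * f - v / 2 * x ≤ g - v ^ 2 * (ξ + ξ * |Real.log ξ|) := by
    nlinarith
  have s9 := mul_le_mul_of_nonneg_left s8 (by positivity : (0 : ℝ) ≤ 2 * m)
  calc 2 * m * (1 - v) * f - m * v * x = 2 * m * ((1 - v) * f - v / 2 * x) := by ring
    _ ≤ 2 * m * (g - v ^ 2 * (ξ + ξ * |Real.log ξ|)) := s9
    _ = _ := by ring

theorem log_bound {x y : ℝ} (hx0 : 0 < x) (hy0 : 0 < y) (hx : x ≤ 201 / 100)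
    (hy : y ≤ 201 / 100) : Real.log (2 * x * y) ≤ 11 / 5 := by
  rw [Real.log_le_iff_le_exp (by positivity)]
  have h1 : 2 * x * y ≤ 81 / 10 := by nlinarith
  have h2 : (2.7182818283 : ℝ) < Real.exp 1 := Real.exp_one_gt_d9
  have h3 : Real.exp (11 / 5) = Real.exp 1 * Real.exp 1 * Real.exp (1 / 5) := by
    rw [← Real.exp_add, ← Real.exp_add]; norm_num
  have h4 : (1 : ℝ) / 5 + 1 ≤ Real.exp (1 / 5) := Real.add_one_le_exp _
  rw [h3]
  have h5 : (7.38 : ℝ) ≤ Real.exp 1 * Real.exp 1 := by nlinarith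
  nlinarith

end FUAux

open FUAux

section

variable {ι : Type*} [Fintype ι] [DecidableEq ι]

/-- MODULE RW13 (far certificate). `τ = σ/κ`, `θ = arsinh (τ a)`, `s = √κ τ`, `b = √κ cosh θ`
(`LB_hyp'`); `Z = univ`, `part_angle`, `core` with `S0 = 5/2 σ`, `B = 11/5`. Here `∑ sinh θ = 0`, so
`SS L = -(SS P + SS Q)` and `κ |SS L| ≤ XX P + XX Q` (`SS_heavy`). By `XX_arsinh`
`σ Pm(a) ≤ XX P ≤ σ Pm(a) (1 + exp(-u^4/100))`, the same for `Q` (`∑_{HP (-a)} |a|`), each `ξ ≤ 201/100`.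
`Fh ξ ≥ Fh x - (ξ - x)` for `x = σ|a| ≤ ξ ≤ 2.01` (`Fh_sub` with `c = 1`), `ξ |log ξ| ≤ Fh ξ + ξ`
(`mul_abs_log_le`), drop `GG ≥ 0`. -/
theorem FU {u q m κ σ : ℝ} (h : Win u q m κ) (hc : (Fintype.card ι : ℝ) = m + 2) {a : ι → ℝ}
    (ha : Rel a) (h1 : m * κ ≤ σ * u ^ 5) (h2 : 3 * σ * u ^ 3 ≤ m * κ)
    (hx : ∀ i, σ * |a i| ≤ 2) :
    ∃ (b : ι → ℝ) (s : ℝ),
      Base q m κ + 2 * m * (1 - 1 / u) * (∑ i ∈ HP u a, Fh (σ * a i)
          + ∑ i ∈ HP u (fun i => -a i), Fh (σ * -a i))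
        - 4 / κ * (el κ + 3) * (σ * Pm u a * (σ * Pm u (fun i => -a i)))
        - m / u * (σ * Pm u a + σ * Pm u (fun i => -a i))
        ≤ LB q b (fun i => s * a i) := by
  obtain ⟨hσ, ht1, ht2⟩ := tau_range h h1 h2
  obtain ⟨τ, hτ⟩ : ∃ τ, τ = σ / κ := ⟨_, rfl⟩
  rw [← hτ] at ht1 ht2
  have hk := h.hk
  have hkτ : κ * τ = σ := by rw [hτ]; field_simp
  have hu := h.hu
  have hu0 : 0 < u := lt_of_lt_of_le (by norm_num) hu
  have hm : 0 < m := by rw [h.hm]; exact Real.exp_pos _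
  refine ⟨fun i => √κ * Real.cosh (Real.arsinh (τ * a i)), √κ * τ, ?_⟩
  rw [LB_hyp' hk a]
  have hp : Part u univ (univ.filter (fun z => |a z| ≤ h0 u)) (HP u a)
      (HP u (fun i => -a i)) (fun z => Real.arsinh (τ * a z)) := part_angle hu ht1 ht2 a univ
  obtain ⟨θ, hθ⟩ : ∃ θ : ι → ℝ, θ = fun z => Real.arsinh (τ * a z) := ⟨_, rfl⟩
  rw [← hθ] at hp ⊢
  obtain ⟨L, hL⟩ : ∃ L, L = univ.filter (fun z => |a z| ≤ h0 u) := ⟨_, rfl⟩
  rw [← hL] at hp
  have hh0 : 0 < h0 u := Real.exp_pos _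
  -- signs on `P` and `Q`
  have hPa : ∀ z ∈ HP u a, |a z| = a z := fun z hz => by
    have : h0 u < a z := (Finset.mem_filter.1 hz).2
    exact abs_of_pos (hh0.trans this)
  have hQa : ∀ z ∈ HP u (fun i => -a i), |a z| = -a z := fun z hz => by
    have : h0 u < -a z := (Finset.mem_filter.1 hz).2
    exact abs_of_neg (by linarith)
  have hPh : ∀ z ∈ HP u a, h0 u < |a z| := fun z hz => by
    rw [hPa z hz]; exact (Finset.mem_filter.1 hz).2
  have hQh : ∀ z ∈ HP u (fun i => -a i), h0 u < |a z| := fun z hz => by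
    rw [hQa z hz]; exact (Finset.mem_filter.1 hz).2
  have hPQh : ∀ z ∈ HP u a ∪ HP u (fun i => -a i), h0 u < |a z| := fun z hz => by
    rcases Finset.mem_union.1 hz with hz | hz
    · exact hPh z hz
    · exact hQh z hz
  have sP : ∑ z ∈ HP u a, |a z| = Pm u a := Finset.sum_congr rfl hPa
  have sQ : ∑ z ∈ HP u (fun i => -a i), |a z| = Pm u (fun i => -a i) :=
    Finset.sum_congr rfl hQa
  have pP : 0 ≤ Pm u a := by rw [← sP]; exact Finset.sum_nonneg fun _ _ => abs_nonneg _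
  have pQ : 0 ≤ Pm u (fun i => -a i) := by
    rw [← sQ]; exact Finset.sum_nonneg fun _ _ => abs_nonneg _
  have pPQ : Pm u a + Pm u (fun i => -a i) ≤ 2 := by
    rw [← sP, ← sQ, ← Finset.sum_union hp.hPQ, ← ha.abs]
    exact Finset.sum_le_sum_of_subset_of_nonneg (Finset.subset_univ _) fun _ _ _ => abs_nonneg _
  -- the small number
  obtain ⟨e, he⟩ : ∃ e, e = Real.exp (-(u ^ 4 / 100)) := ⟨_, rfl⟩
  have he0 : 0 < e := by rw [he]; exact Real.exp_pos _
  obtain ⟨hb1, hb2, hb3⟩ := h.big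
  have heu : e * u ^ 60 ≤ 1 := by
    rw [he, Real.exp_neg, inv_mul_le_iff₀ (Real.exp_pos _), mul_one]
    refine hb2.trans (Real.exp_le_exp.2 ?_)
    have : 0 ≤ u ^ 4 := by positivity
    linarith
  have hu10 : (10 : ℝ) ≤ u := le_trans (by norm_num) hu
  have he4 : e * u ^ 4 ≤ 1 / 100 := by
    have h3 : (100 : ℝ) ≤ u ^ 56 := by
      calc (100 : ℝ) ≤ 10 ^ 56 := by norm_num
        _ ≤ u ^ 56 := pow_le_pow_left₀ (by norm_num) hu10 56
    have h4 : e * u ^ 4 * 100 ≤ e * u ^ 60 := by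
      have : e * u ^ 60 = e * u ^ 4 * u ^ 56 := by ring
      rw [this]
      exact mul_le_mul_of_nonneg_left h3 (by positivity)
    linarith
  have he2 : e ≤ 1 / u ^ 2 := by
    rw [le_div_iff₀ (by positivity)]
    have : u ^ 2 ≤ u ^ 4 := pow_le_pow_right₀ (by linarith) (by norm_num)
    have := mul_le_mul_of_nonneg_left this he0.le
    linarith
  have he1 : e ≤ 1 / 1000000 := by
    have h3 : (10000 : ℝ) ≤ u ^ 4 := by
      calc (10000 : ℝ) ≤ 10 ^ 4 := by norm_num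
        _ ≤ u ^ 4 := pow_le_pow_left₀ (by norm_num) hu10 4
    nlinarith
  -- the values `ξ`
  have hxi : ∀ z ∈ HP u a ∪ HP u (fun i => -a i), σ * |a z| ≤ xi κ (θ z) ∧
      xi κ (θ z) ≤ σ * |a z| * (1 + e) := by
    intro z hz
    have h3 := XX_arsinh hu hk ht1 a {z} (fun w hw => by
      rw [Finset.mem_singleton.1 hw]; exact hPQh z hz)
    simp only [XX, Finset.sum_singleton, hkτ, ← he] at h3
    rw [hθ]
    refine ⟨h3.1, h3.2.trans (le_of_eq ?_)⟩
    ring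
  have hxi2 : ∀ z ∈ HP u a ∪ HP u (fun i => -a i), xi κ (θ z) ≤ 201 / 100 := by
    intro z hz
    have h3 := (hxi z hz).2
    have h4 := hx z
    have h5 : 0 ≤ σ * |a z| := by positivity
    nlinarith
  have XP : XX κ (HP u a) θ ≤ σ * (1 + e) * Pm u a := by
    have h3 := (XX_arsinh hu hk ht1 a (HP u a) hPh).2
    rw [sP, hkτ, ← he, ← hθ] at h3
    exact h3
  have XQ : XX κ (HP u (fun i => -a i)) θ ≤ σ * (1 + e) * Pm u (fun i => -a i) := by
    have h3 := (XX_arsinh hu hk ht1 a (HP u (fun i => -a i)) hQh).2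
    rw [sQ, hkτ, ← he, ← hθ] at h3
    exact h3
  have XPQ : XX κ (HP u a) θ + XX κ (HP u (fun i => -a i)) θ ≤ 5 / 2 * σ := by
    have h3 : σ * (1 + e) * (Pm u a + Pm u (fun i => -a i)) ≤ σ * (1 + e) * 2 :=
      mul_le_mul_of_nonneg_left pPQ (by positivity)
    have h4 : σ * e ≤ σ * (1 / 1000000) := mul_le_mul_of_nonneg_left he1 hσ.le
    nlinarith
  -- the sum of the `sinh`
  have hSS : κ * |SS L θ| ≤ 5 / 2 * σ := by
    have h3 : ∑ z, Real.sinh (θ z) = 0 := by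
      rw [hθ]
      simp only [Real.sinh_arsinh]
      rw [← Finset.mul_sum, ha.sum, mul_zero]
    have h4 : ∑ z, Real.sinh (θ z) = SS L θ + SS (HP u a) θ + SS (HP u (fun i => -a i)) θ :=
      sum_part hp _
    have h5 : SS L θ = -(SS (HP u a) θ + SS (HP u (fun i => -a i)) θ) := by linarith
    have h6 := SS_heavy hk (HP u a) θ
    have h7 := SS_heavy hk (HP u (fun i => -a i)) θ
    rw [h5, abs_neg]
    have h8 := mul_le_mul_of_nonneg_left
      (abs_add_le (SS (HP u a) θ) (SS (HP u (fun i => -a i)) θ)) hk.le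
    linarith
  have hcore := core (S0 := 5 / 2 * σ) (B := 11 / 5) h hp
    (by rw [Finset.card_univ, hc]; simp)
    (fun z hz => (hxi2 z hz).trans (by norm_num))
    (by have : 0 < σ * u ^ 3 := by positivity
        linarith)
    hSS XPQ (by norm_num)
    (fun z hz w hw => log_bound (xi_pos hk) (xi_pos hk)
      (hxi2 z (Finset.mem_union_left _ hz)) (hxi2 w (Finset.mem_union_right _ hw)))
  rw [Finset.card_univ, hc] at hcore
  have hGG : 0 ≤ 94 / 100 * u ^ 4 * (κ * GG L θ) := by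
    have := GG_nonneg L θ
    positivity
  -- pointwise comparison
  have hpt : ∑ z ∈ HP u a ∪ HP u (fun i => -a i),
      (2 * m * (1 - 1 / u) * Fh (σ * |a z|) - m / u * (σ * |a z|)) ≤
      ∑ z ∈ HP u a ∪ HP u (fun i => -a i),
        (2 * m * Fh (xi κ (θ z)) - 2 * m / u ^ 2 * (xi κ (θ z) + xi κ (θ z) *
          |Real.log (xi κ (θ z))|)) := by
    apply Finset.sum_le_sum
    intro z hz
    have h3 : 0 < σ * |a z| := mul_pos hσ (hh0.trans (hPQh z hz))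
    exact point hu hm he0 he2 h3 (hx z) (hxi z hz).1 (hxi z hz).2
  rw [Finset.sum_sub_distrib, Finset.sum_sub_distrib] at hpt
  simp only [← Finset.mul_sum] at hpt
  rw [Finset.sum_union hp.hPQ (f := fun z => Fh (σ * |a z|)),
    Finset.sum_union hp.hPQ (f := fun z => |a z|)] at hpt
  have f1 : ∑ z ∈ HP u a, Fh (σ * |a z|) = ∑ i ∈ HP u a, Fh (σ * a i) :=
    Finset.sum_congr rfl fun z hz => by rw [hPa z hz]
  have f2 : ∑ z ∈ HP u (fun i => -a i), Fh (σ * |a z|) =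
      ∑ i ∈ HP u (fun i => -a i), Fh (σ * -a i) :=
    Finset.sum_congr rfl fun z hz => by rw [hQa z hz]
  rw [f1, f2, sP, sQ] at hpt
  -- the quadratic term
  have hquad : 4 / κ * (el κ + 11 / 5) * (XX κ (HP u a) θ * XX κ (HP u (fun i => -a i)) θ) ≤
      4 / κ * (el κ + 3) * (σ * Pm u a * (σ * Pm u (fun i => -a i))) := by
    obtain ⟨hl1, hl2⟩ := h.el_bds
    have hu4 : 0 < u ^ 4 := by positivity
    have hel : 0 ≤ el κ := by linarith
    have h3 : XX κ (HP u a) θ * XX κ (HP u (fun i => -a i)) θ ≤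
        (σ * (1 + e) * Pm u a) * (σ * (1 + e) * Pm u (fun i => -a i)) :=
      mul_le_mul XP XQ (XX_nonneg hk _ _) (by positivity)
    have h4 : (el κ + 11 / 5) * (1 + e) ^ 2 ≤ el κ + 3 := by
      have h5 : (1 + e) ^ 2 ≤ 1 + 3 * e := by nlinarith
      have h6 : (el κ + 11 / 5) * (1 + e) ^ 2 ≤ (el κ + 11 / 5) * (1 + 3 * e) :=
        mul_le_mul_of_nonneg_left h5 (by linarith)
      have h7 : el κ * e ≤ 1002 / 1000 * u ^ 4 * e := mul_le_mul_of_nonneg_right hl2 he0.le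
      nlinarith
    have hW : 0 ≤ σ * Pm u a * (σ * Pm u (fun i => -a i)) := by positivity
    calc 4 / κ * (el κ + 11 / 5) * (XX κ (HP u a) θ * XX κ (HP u (fun i => -a i)) θ)
        ≤ 4 / κ * (el κ + 11 / 5) *
          ((σ * (1 + e) * Pm u a) * (σ * (1 + e) * Pm u (fun i => -a i))) :=
          mul_le_mul_of_nonneg_left h3 (by positivity)
      _ = 4 / κ * ((el κ + 11 / 5) * (1 + e) ^ 2) *
          (σ * Pm u a * (σ * Pm u (fun i => -a i))) := by ring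
      _ ≤ 4 / κ * (el κ + 3) * (σ * Pm u a * (σ * Pm u (fun i => -a i))) := by
          apply mul_le_mul_of_nonneg_right _ hW
          exact mul_le_mul_of_nonneg_left h4 (by positivity)
  unfold Base
  rw [hc]
  linarith

end

end Pool.Agent.RieszWin
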