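import Pool.Agent.RieszWin.FU
import Pool.Agent.RieszWin.Cvx

set_option autoImplicit false

open Real Finset

namespace Pool.Agent.RieszWin

open Pool.Agent.RieszSmall Pool.Agent.RieszLin Pool.Agent.RieszTr

section

variable {ι : Type*} [Fintype ι] [DecidableEq ι]

theorem FVAux.exp_small {u : ℝ} (hu : (10 : ℝ) ^ 200 ≤ u) :
    4 * Real.exp (-(3 / 10) * u ^ 4) ≤ 1 / u := by
  have hu0 : 0 < u := lt_of_lt_of_le (by positivity) hu
  have h1 : (16 : ℝ) ≤ u := le_trans (by norm_num) hu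
  have h2 : 3 / 10 * u ^ 4 + 1 ≤ Real.exp (3 / 10 * u ^ 4) := Real.add_one_le_exp _
  have h3 : 4 * u ≤ 3 / 10 * u ^ 4 := by
    have h4 : (16 : ℝ) ^ 3 ≤ u ^ 3 := pow_le_pow_left₀ (by norm_num) h1 3
    have h5 : u ^ 4 = u ^ 3 * u := by ring
    rw [h5]
    nlinarith
  have h6 : Real.exp (-(3 / 10) * u ^ 4) = 1 / Real.exp (3 / 10 * u ^ 4) := by
    rw [one_div, ← Real.exp_neg]
    congr 1
    ring
  rw [h6, mul_one_div, div_le_div_iff₀ (Real.exp_pos _) hu0]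
  linarith

/-- MODULE RW15. `FU` and `cvx` for `a` and `-a`. -/
theorem FV {u q m κ σ : ℝ} (h : Win u q m κ) (hc : (Fintype.card ι : ℝ) = m + 2) {a : ι → ℝ}
    (ha : Rel a) (hn : NonDom u a) (hn' : NonDom u (fun i => -a i)) {p1 p2 q1 q2 : ι}
    (hp : Top2 a p1 p2) (hq : Top2 (fun i => -a i) q1 q2)
    (h1 : m * κ ≤ σ * u ^ 5) (h2 : 3 * σ * u ^ 3 ≤ m * κ) (hx : ∀ i, σ * |a i| ≤ 2) :
    ∃ (b : ι → ℝ) (s : ℝ),
      Base q m κ + m * (1 - 1 / u) * (4 * Fh (σ * Pm u a / 2)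
          + 4 * Fh (σ * Pm u (fun i => -a i) / 2)
          + 4 / 5 * (σ * R3 u a p1 p2) + 4 / 5 * (σ * R3 u (fun i => -a i) q1 q2))
        - 4 / κ * (el κ + 3) * (σ * Pm u a * (σ * Pm u (fun i => -a i)))
        - 3 * m / u * σ
        ≤ LB q b (fun i => s * a i) := by
  obtain ⟨hu0, hm0, -, -, -⟩ := h.pos
  have hu := h.hu
  have hσ : 0 < σ := by
    have h3 : 0 < m * κ := mul_pos hm0 h.hk
    have h4 : 0 < σ * u ^ 5 := h3.trans_le h1
    exact pos_of_mul_pos_left h4 (by positivity)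
  obtain ⟨b, s, hb⟩ := FU h hc ha h1 h2 hx
  refine ⟨b, s, le_trans ?_ hb⟩
  have hA := cvx hn hσ.le hp
  have hB := cvx hn' hσ.le hq
  have hP1 := ha.Pm_le u
  have hP2 := ha.neg.Pm_le u
  have hE := FVAux.exp_small hu
  set E := Real.exp (-(3 / 10) * u ^ 4) with hEdef
  set SA := ∑ i ∈ HP u a, Fh (σ * a i) with hSA
  set SB := ∑ i ∈ HP u (fun i => -a i), Fh (σ * -a i) with hSB
  have hB' : 2 * Fh (σ * Pm u (fun i => -a i) / 2) + 2 / 5 * (σ * R3 u (fun i => -a i) q1 q2)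
      ≤ SB + σ * E := hB
  have hE0 : 0 ≤ E := (Real.exp_pos _).le
  have hu1 : 0 ≤ 1 - 1 / u := by
    have h3 : (1 : ℝ) ≤ u := le_trans (by norm_num) hu
    have h4 : 1 / u ≤ 1 := by
      rw [div_le_one hu0]
      exact h3
    linarith
  have hu2 : 1 - 1 / u ≤ 1 := by
    have : 0 < 1 / u := by positivity
    linarith
  have hmu : 0 ≤ m * (1 - 1 / u) := mul_nonneg hm0.le hu1
  have hsum := mul_le_mul_of_nonneg_left (add_le_add hA hB') hmu
  have h5 : m * (1 - 1 / u) * (σ * E) ≤ m * (σ * E) := by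
    have h6 : 0 ≤ m * (σ * E) := by positivity
    calc m * (1 - 1 / u) * (σ * E) = (1 - 1 / u) * (m * (σ * E)) := by ring
      _ ≤ 1 * (m * (σ * E)) := mul_le_mul_of_nonneg_right hu2 h6
      _ = m * (σ * E) := one_mul _
  have h7 : m * (σ * (4 * E)) ≤ m * (σ * (1 / u)) := by gcongr
  have h8 : m / u * (σ * Pm u a + σ * Pm u (fun i => -a i)) ≤ m / u * (σ * 2) := by
    have : σ * Pm u a + σ * Pm u (fun i => -a i) ≤ σ * 2 := by nlinarith
    exact mul_le_mul_of_nonneg_left this (by positivity)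
  have h9 : 3 * m / u * σ = 3 * (m * (σ * (1 / u))) := by
    field_simp
  have h10 : m / u * (σ * 2) = 2 * (m * (σ * (1 / u))) := by
    field_simp
  rw [h10] at h8
  rw [h9]
  linarith

end

end Pool.Agent.RieszWin
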