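import Pool.Agent.RieszWin.Light
import Pool.Agent.RieszWin.Hyp

set_option autoImplicit false

open Real Finset

namespace Pool.Agent.RieszWin

open Pool.Agent.RieszSmall Pool.Agent.RieszLin Pool.Agent.RieszTr

section

variable {ι : Type*} [DecidableEq ι]

/-- MODULE RW5. `Win.light` for every pair, `|θ z - θ z'| ≤ 2 u^4/45`; `offd` of `cosh - 1` equals
the double sum (the diagonal vanishes), `double_cosh`. -/
theorem LL_core {u q m κ : ℝ} (h : Win u q m κ) (L : Finset ι) (θ : ι → ℝ)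
    (hL : ∀ z ∈ L, |θ z| ≤ u ^ 4 / 45) :
    ((L.card : ℝ) ^ 2 - L.card) * Phi q κ + 95 / 100 * u ^ 4 * (κ * GG L θ) ≤ PS q κ L θ := by
  have hG : offd L (fun z z' => Real.cosh (θ z - θ z') - 1) = GG L θ := by
    rw [offd_eq, double_cosh]
    simp
  have hle : offd L (fun z z' => Phi q κ
        + (95 / 100 * u ^ 4 * κ) * (Real.cosh (θ z - θ z') - 1)) ≤ PS q κ L θ := by
    unfold PS
    refine offd_le fun z hz z' hz' _ => ?_
    have hd : |θ z - θ z'| ≤ 2 * u ^ 4 / 45 := by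
      have h1 := abs_le.mp (hL z hz)
      have h2 := abs_le.mp (hL z' hz')
      refine abs_le.mpr ⟨?_, ?_⟩
      · linarith [h1.1, h2.2]
      · linarith [h1.2, h2.1]
    have h3 := h.light hd
    calc Phi q κ + (95 / 100 * u ^ 4 * κ) * (Real.cosh (θ z - θ z') - 1)
        = Phi q κ + 95 / 100 * u ^ 4 * (κ * (Real.cosh (θ z - θ z') - 1)) := by ring
      _ ≤ Phi q (κ * Real.cosh (θ z - θ z')) := h3
  rw [offd_add, offd_const, offd_mul, hG] at hle
  calc ((L.card : ℝ) ^ 2 - L.card) * Phi q κ + 95 / 100 * u ^ 4 * (κ * GG L θ)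
      = ((L.card : ℝ) ^ 2 - L.card) * Phi q κ + (95 / 100 * u ^ 4 * κ) * GG L θ := by ring
    _ ≤ PS q κ L θ := hle

end

end Pool.Agent.RieszWin
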