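import Pool.Agent.RieszWin.Facts

set_option autoImplicit false

open Real Finset

namespace Pool.Agent.RieszWin

open Pool.Agent.RieszSmall Pool.Agent.RieszLin Pool.Agent.RieszTr

namespace LightAux

theorem log_cosh_le (d : ℝ) : Real.log (Real.cosh d) ≤ |d| := by
  have h1 : Real.cosh d ≤ Real.exp |d| := by
    rw [← Real.cosh_abs d, Real.cosh_eq]
    have h2 : Real.exp (-|d|) ≤ Real.exp |d| :=
      Real.exp_le_exp.2 (by linarith [abs_nonneg d])
    linarith
  have h2 := Real.log_le_log (Real.cosh_pos d) h1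
  rwa [Real.log_exp] at h2

theorem log_cosh_nonneg (d : ℝ) : 0 ≤ Real.log (Real.cosh d) :=
  Real.log_nonneg (Real.one_le_cosh d)

end LightAux

/-- MODULE RW3. Pairs of light points. `K = κ cosh d`; `Phi_le_tangent` at `K` gives
`Φ(κ) ≤ Φ(K) + sl q K (κ - K)`, and `sl q K ≥ -log K - exp(-0.9 u^4)`,
`log K ≤ log κ + |d| ≤ -0.998 u^4 + 0.0445 u^4`. -/
theorem Win.light {u q m κ d : ℝ} (h : Win u q m κ) (hd : |d| ≤ 2 * u ^ 4 / 45) :
    Phi q κ + 95 / 100 * u ^ 4 * (κ * (Real.cosh d - 1)) ≤ Phi q (κ * Real.cosh d) := by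
  obtain ⟨hu0, hm0, hq0, hk0, hk1⟩ := h.pos
  obtain ⟨e1, e2⟩ := h.el_bds
  unfold el at e1 e2
  have hu1 : (1 : ℝ) ≤ u := le_trans (by norm_num) h.hu
  have hu4 : (10 : ℝ) ^ 200 ≤ u ^ 4 := le_trans h.hu (by
    calc u = u * 1 := by ring
      _ ≤ u * u ^ 3 := mul_le_mul_of_nonneg_left (one_le_pow₀ hu1) hu0.le
      _ = u ^ 4 := by ring)
  have hu4' : (1000 : ℝ) ≤ u ^ 4 := le_trans (by norm_num) hu4
  have hc1 := Real.one_le_cosh d
  have hK : 0 < κ * Real.cosh d := mul_pos hk0 (Real.cosh_pos d)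
  have hlog : Real.log (κ * Real.cosh d) = Real.log κ + Real.log (Real.cosh d) :=
    Real.log_mul hk0.ne' (Real.cosh_pos d).ne'
  have l1 := LightAux.log_cosh_le d
  have l2 := LightAux.log_cosh_nonneg d
  have hl : |Real.log (κ * Real.cosh d)| ≤ 10 * u ^ 4 := by
    rw [abs_le, hlog]
    constructor <;> linarith
  have hs := h.sl_near hK hl
  have hex : Real.exp (-(9 / 10) * u ^ 4) ≤ 1 := Real.exp_le_one_iff.2 (by linarith)
  have hs2 : 95 / 100 * u ^ 4 ≤ sl q (κ * Real.cosh d) := by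
    have := (abs_le.1 hs).1
    rw [hlog] at this
    linarith
  have ht := Phi_le_tangent (K1 := κ * Real.cosh d) (K := κ) hq0 (h.two_le hK hl)
  have hx : 0 ≤ κ * (Real.cosh d - 1) := mul_nonneg hk0.le (by linarith)
  have h5 := mul_le_mul_of_nonneg_right hs2 hx
  have h6 : sl q (κ * Real.cosh d) * (κ - κ * Real.cosh d)
      = -(sl q (κ * Real.cosh d) * (κ * (Real.cosh d - 1))) := by ring
  rw [h6] at ht
  linarith

end Pool.Agent.RieszWin
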