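import Pool.Agent.RieszWin.LossI

set_option autoImplicit false

open Real Finset

namespace Pool.Agent.RieszWin

open Pool.Agent.RieszSmall Pool.Agent.RieszLin Pool.Agent.RieszTr

namespace LossEAux

theorem abs_sinh_le_exp (t : ℝ) : |Real.sinh t| ≤ Real.exp |t| := by
  rw [Real.abs_sinh, Real.sinh_eq]
  have h1 := Real.exp_pos (-|t|)
  have h2 := Real.exp_pos |t|
  linarith

theorem exp_one_le {t : ℝ} (ht : 1 ≤ t) : (2 : ℝ) ≤ Real.exp t := by
  have h1 := Real.add_one_le_exp t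
  linarith

end LossEAux

open LossEAux

section

variable {ι : Type*} [DecidableEq ι] {u q m κ S0 : ℝ} {Z L P Q : Finset ι} {θ : ι → ℝ}

/-- MODULE RW35. `Phi_le_tangent` at `y + z` if `y + z > 1`: `Φ(y) ≤ Φ(y+z) - sl q (y+z) z`,
`sl q K = q (K^(-1/p) - 1) ≥ -log K ≥ -4 u^4 ≥ -q/100`; monotonicity (`Phi_mono`) if `y + z ≤ 1`. -/
theorem Win.Phi_add_ge {κ y z : ℝ} (h : Win u q m κ) (hy : 0 ≤ y) (hy1 : y ≤ 1) (hz : 0 ≤ z)
    (hz1 : z ≤ Real.exp (3 * u ^ 4)) : Phi q y - q / 100 * z ≤ Phi q (y + z) := by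
  have hq := h.pos.2.2.1
  have hm := FactsAux.m_big h
  have hU := FactsAux.U_ge h
  rcases le_or_gt (y + z) 1 with h1 | h1
  · have h2 := Phi_mono hq (show y ≤ y + z by linarith) h1
    have h3 : 0 ≤ q / 100 * z := by positivity
    linarith
  · have h2 : (2 : ℝ) ^ (-(q + 1)) ≤ y + z := (Phi3Aux.T0_le_one hq).trans h1.le
    have h3 := Phi_le_tangent hq (K := y) h2
    have h4 : y + z ≤ Real.exp (4 * u ^ 4) := by
      have e1 : Real.exp (4 * u ^ 4) = Real.exp (3 * u ^ 4) * Real.exp (u ^ 4) := by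
        rw [← Real.exp_add]; ring_nf
      have e2 : (2 : ℝ) ≤ Real.exp (u ^ 4) := exp_one_le (by norm_num at hU; linarith)
      have e3 : (1 : ℝ) ≤ Real.exp (3 * u ^ 4) := Real.one_le_exp (by positivity)
      have e4 : Real.exp (3 * u ^ 4) * 2 ≤ Real.exp (3 * u ^ 4) * Real.exp (u ^ 4) :=
        mul_le_mul_of_nonneg_left e2 (by positivity)
      linarith
    have h5 : Real.log (y + z) ≤ 4 * u ^ 4 := by
      rw [Real.log_le_iff_le_exp (by linarith)]
      exact h4
    have h6 : 0 ≤ Real.log (y + z) := Real.log_nonneg h1.le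
    have h7 := h.sl_near (show 0 < y + z by linarith)
      (by rw [abs_of_nonneg h6]; linarith)
    have h8 : Real.exp (-(9 / 10) * u ^ 4) ≤ 1 := Real.exp_le_one_iff.2 (by nlinarith)
    have h9 := (abs_le.1 h7).1
    have h10 : -(q / 100) ≤ sl q (y + z) := by
      have e1 := h.plo
      have e2 : 1000 * u ^ 4 ≤ m * u ^ 4 :=
        mul_le_mul_of_nonneg_right (le_trans (by norm_num) hm) (by positivity)
      norm_num at hU
      linarith
    have h11 : 0 ≤ (sl q (y + z) + q / 100) * z := mul_nonneg (by linarith) hz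
    have h12 : sl q (y + z) * (y - (y + z)) = -(sl q (y + z) * z) := by ring
    rw [h12] at h3
    linarith

namespace LossEAux

/-- the quadratic loss at a point where `|e c| < K` -/
theorem quad_loss {K w : ℝ} (h : Win u q m κ) (hK : 0 < K) (hl : |Real.log K| ≤ 10 * u ^ 4)
    (h1 : 0 < K + w) (h2 : 0 < K - w) :
    2 * Phi q K - Phi q (K + w) - Phi q (K - w) ≤ 202 / 100 * (w ^ 2 / K) := by
  have hq := h.pos.2.2.1
  have h3 := h.two_le hK hl
  have h4 := Phi_quad hq h3 h1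
  have h5 := Phi_quad hq h3 h2
  have h6 := (h.cv_near hK hl).2
  have e1 : K + w - K = w := by ring
  have e2 : K - w - K = -w := by ring
  rw [e1] at h4
  rw [e2] at h5
  have h7 : cv q K * w ^ 2 ≤ 101 / 100 / K * w ^ 2 :=
    mul_le_mul_of_nonneg_right h6 (sq_nonneg w)
  have e3 : 101 / 100 / K * w ^ 2 = 101 / 100 * (w ^ 2 / K) := by ring
  have e4 : (-w) ^ 2 = w ^ 2 := by ring
  rw [e3] at h7
  rw [e4] at h5
  linarith

end LossEAux

/-- `K = y0 exp θ`, `c = e y0 sinh θ`.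
* light points: `|c| ≤ e exp(2 u^4/45) K ≤ K/2`; `Phi_quad` and `Win.cv_near` at `K`: the loss is at
  most `(202/100) c²/K ≤ e² exp(u^4/10)`; all together at most `(m+2) e² exp(u^4/10)·2`;
* `P`: `0 ≤ c ≤ e K`, the loss is at most `(202/100) e² K`, `∑ K ≤ 2 XX P/κ ≤ m`;
* `Q`: `c ≤ 0`, `Φ(K + c) ≥ Φ(K) - q |c|` (`Phi_slope`). If `K + |c| ≤ 1` then
  `Φ(K + |c|) ≥ Φ(K)`; otherwise `|c| ≥ 1/2` (`K ≤ exp(-u^4/200)`),
  `Φ(K + |c|) ≥ -(K+|c|) log (K + |c|) ≥ -3 u^4 (2 |c|)`, `Φ(K) ≤ 1 ≤ 2 |c|`. So the loss is at most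
  `(q + 10 u^4) |c|`, and `∑_Q |c| ≤ (9/10) e² T2`.
As `q T2 ≥ exp(1.8 u^4)` the first two are at most `q T2 e²/100`. -/
theorem NZ.lossE (h : NZ u q m κ S0 Z L P Q θ) {y0 e T2 : ℝ} (hy : Real.exp (-u) ≤ y0)
    (hy1 : y0 ≤ 1) (he : 0 ≤ e) (he1 : e ≤ Real.exp (-(u ^ 4 / 10)))
    (hT : Real.exp (9 / 10 * u ^ 4) ≤ T2)
    (hQ : y0 * ∑ z ∈ Q, (-Real.sinh (θ z)) ≤ 9 / 10 * e * T2) :
    2 * ∑ z ∈ Z, (2 * Phi q (y0 * Real.exp (θ z))
        - Phi q (y0 * Real.exp (θ z) + e * (y0 * Real.sinh (θ z)))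
        - Phi q (y0 * Real.exp (θ z) - e * (y0 * Real.sinh (θ z))))
      ≤ 37 / 20 * q * T2 * e ^ 2 := by
  have hw := h.win
  obtain ⟨hu0, hm0, hq, hk, hk1⟩ := hw.pos
  have hU := FactsAux.U_ge hw
  have hU0 : 0 < u ^ 4 := pow_pos hu0 4
  have hU8 : (10 : ℝ) ^ 8 ≤ u ^ 4 := le_trans (by norm_num) hU
  have huU : 10 ^ 8 * u ≤ u ^ 4 := by
    have h1 := FactsAux.u_le hw
    have h2 : (10 : ℝ) ^ 8 * u ≤ 10 ^ 60 * u := by
      apply mul_le_mul_of_nonneg_right _ hu0.le
      norm_num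
    exact h2.trans h1
  have hy0 : 0 < y0 := (Real.exp_pos _).trans_le hy
  -- all the logs
  have hlog : ∀ z ∈ Z, |Real.log (y0 * Real.exp (θ z))| ≤ 10 * u ^ 4 := by
    intro z hz
    have h1 := h.abs_le hz
    rw [Real.log_mul hy0.ne' (Real.exp_pos _).ne', Real.log_exp]
    have h2 : Real.log y0 ≤ 0 := Real.log_nonpos hy0.le hy1
    have h3 : -u ≤ Real.log y0 := by
      rw [Real.le_log_iff_exp_le hy0]; exact hy
    have h4 := _root_.abs_le.1 h1
    rw [_root_.abs_le]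
    constructor <;> linarith [h4.1, h4.2]
  set E : ℝ := Real.exp (u ^ 4 / 10) with hE
  have hE1 : 1 ≤ E := Real.one_le_exp (by positivity)
  -- `L`
  have hLl : ∀ z ∈ L, 2 * Phi q (y0 * Real.exp (θ z))
        - Phi q (y0 * Real.exp (θ z) + e * (y0 * Real.sinh (θ z)))
        - Phi q (y0 * Real.exp (θ z) - e * (y0 * Real.sinh (θ z))) ≤ 3 * e ^ 2 * E := by
    intro z hz
    have hzZ : z ∈ Z := by rw [← h.part.hZ]; simp [hz]
    have ht := h.part.hL z hz
    have ht' := _root_.abs_le.1 ht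
    set t := θ z with htd
    have hK : 0 < y0 * Real.exp t := mul_pos hy0 (Real.exp_pos _)
    have hs := abs_sinh_le_exp t
    -- `e |sinh t| < exp t`
    have h1 : e * |Real.sinh t| < Real.exp t := by
      have a1 : e * |Real.sinh t| ≤ Real.exp (-(u ^ 4 / 10)) * Real.exp |t| :=
        mul_le_mul he1 hs (abs_nonneg _) (Real.exp_pos _).le
      refine a1.trans_lt ?_
      rw [← Real.exp_add]
      apply Real.exp_lt_exp.2
      linarith [ht'.1]
    have h2 : |e * (y0 * Real.sinh t)| < y0 * Real.exp t := by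
      rw [abs_mul, abs_mul, abs_of_nonneg he, abs_of_pos hy0]
      have a2 := mul_lt_mul_of_pos_left h1 hy0
      calc e * (y0 * |Real.sinh t|) = y0 * (e * |Real.sinh t|) := by ring
        _ < _ := a2
    have h3 := abs_lt.1 h2
    have h4 := quad_loss hw hK (hlog z hzZ) (w := e * (y0 * Real.sinh t)) (by linarith [h3.1])
      (by linarith [h3.2])
    refine h4.trans ?_
    have h5 : (e * (y0 * Real.sinh t)) ^ 2 / (y0 * Real.exp t) ≤ e ^ 2 * E := by
      rw [div_le_iff₀ hK]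
      have b1 : (Real.sinh t) ^ 2 ≤ (Real.exp |t|) ^ 2 := by
        rw [← sq_abs (Real.sinh t)]
        exact pow_le_pow_left₀ (abs_nonneg _) hs 2
      have b2 : (Real.exp |t|) ^ 2 ≤ E * Real.exp t := by
        rw [hE, ← Real.exp_add, ← Real.exp_nat_mul]
        apply Real.exp_le_exp.2
        push_cast
        linarith [ht'.1]
      have b3 : y0 ^ 2 ≤ y0 := by nlinarith
      have b4 : (e * (y0 * Real.sinh t)) ^ 2 = e ^ 2 * (y0 ^ 2 * (Real.sinh t) ^ 2) := by ring
      rw [b4]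
      have b5 : y0 ^ 2 * (Real.sinh t) ^ 2 ≤ y0 * (E * Real.exp t) :=
        mul_le_mul b3 (b1.trans b2) (sq_nonneg _) hy0.le
      calc e ^ 2 * (y0 ^ 2 * (Real.sinh t) ^ 2) ≤ e ^ 2 * (y0 * (E * Real.exp t)) :=
            mul_le_mul_of_nonneg_left b5 (sq_nonneg _)
        _ = e ^ 2 * E * (y0 * Real.exp t) := by ring
    have h6 : 0 ≤ e ^ 2 * E := by positivity
    linarith
  -- `P`
  have hPl : ∀ z ∈ P, 2 * Phi q (y0 * Real.exp (θ z))
        - Phi q (y0 * Real.exp (θ z) + e * (y0 * Real.sinh (θ z)))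
        - Phi q (y0 * Real.exp (θ z) - e * (y0 * Real.sinh (θ z)))
          ≤ 3 * e ^ 2 * Real.exp (θ z) := by
    intro z hz
    have hzZ : z ∈ Z := by rw [← h.part.hZ]; simp [hz]
    have ht := h.part.hP z hz
    set t := θ z with htd
    have ht0 : 0 < t := lt_of_lt_of_le (by positivity) ht
    have hK : 0 < y0 * Real.exp t := mul_pos hy0 (Real.exp_pos _)
    have hs0 : 0 ≤ Real.sinh t := Real.sinh_nonneg_iff.2 ht0.le
    have hs1 : Real.sinh t ≤ Real.exp t / 2 := by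
      rw [Real.sinh_eq]
      have := Real.exp_pos (-t)
      linarith
    have he2 : e ≤ 1 := he1.trans (Real.exp_le_one_iff.2 (by linarith))
    have h2 : e * (y0 * Real.sinh t) ≤ y0 * Real.exp t / 2 := by
      have a1 : y0 * Real.sinh t ≤ y0 * (Real.exp t / 2) := mul_le_mul_of_nonneg_left hs1 hy0.le
      have a2 : e * (y0 * Real.sinh t) ≤ 1 * (y0 * Real.sinh t) :=
        mul_le_mul_of_nonneg_right he2 (by positivity)
      linarith
    have h3 : 0 ≤ e * (y0 * Real.sinh t) := by positivity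
    have h4 := quad_loss hw hK (hlog z hzZ) (w := e * (y0 * Real.sinh t)) (by linarith)
      (by linarith)
    refine h4.trans ?_
    have h5 : (e * (y0 * Real.sinh t)) ^ 2 / (y0 * Real.exp t) ≤ e ^ 2 * Real.exp t := by
      rw [div_le_iff₀ hK]
      have b1 : (Real.sinh t) ^ 2 ≤ (Real.exp t) ^ 2 :=
        pow_le_pow_left₀ hs0 (hs1.trans (by linarith [Real.exp_pos t])) 2
      have b3 : y0 ^ 2 ≤ y0 := by nlinarith
      have b4 : (e * (y0 * Real.sinh t)) ^ 2 = e ^ 2 * (y0 ^ 2 * (Real.sinh t) ^ 2) := by ring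
      rw [b4]
      have b5 : y0 ^ 2 * (Real.sinh t) ^ 2 ≤ y0 * (Real.exp t) ^ 2 :=
        mul_le_mul b3 b1 (sq_nonneg _) hy0.le
      calc e ^ 2 * (y0 ^ 2 * (Real.sinh t) ^ 2) ≤ e ^ 2 * (y0 * (Real.exp t) ^ 2) :=
            mul_le_mul_of_nonneg_left b5 (sq_nonneg _)
        _ = e ^ 2 * Real.exp t * (y0 * Real.exp t) := by ring
    have h6 : 0 ≤ e ^ 2 * Real.exp t := by positivity
    linarith
  -- `Q`
  have hQl : ∀ z ∈ Q, 2 * Phi q (y0 * Real.exp (θ z))
        - Phi q (y0 * Real.exp (θ z) + e * (y0 * Real.sinh (θ z)))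
        - Phi q (y0 * Real.exp (θ z) - e * (y0 * Real.sinh (θ z)))
          ≤ 101 / 100 * q * (e * (y0 * (-Real.sinh (θ z)))) := by
    intro z hz
    have hzZ : z ∈ Z := by rw [← h.part.hZ]; simp [hz]
    have ht := h.part.hQ z hz
    have hta := h.abs_le hzZ
    set t := θ z with htd
    have ht0 : t < 0 := by
      have : 0 < u ^ 4 / 200 := by positivity
      linarith
    have hs0 : 0 ≤ -Real.sinh t := by
      have := Real.sinh_nonpos_iff.2 ht0.le
      linarith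
    have he2 : e ≤ 1 := he1.trans (Real.exp_le_one_iff.2 (by linarith))
    set w : ℝ := e * (y0 * (-Real.sinh t)) with hwd
    have hw0 : 0 ≤ w := by positivity
    have e1 : y0 * Real.exp t + e * (y0 * Real.sinh t) = y0 * Real.exp t - w := by
      rw [hwd]; ring
    have e2 : y0 * Real.exp t - e * (y0 * Real.sinh t) = y0 * Real.exp t + w := by
      rw [hwd]; ring
    rw [e1, e2]
    have h1 := Phi_slope hq (show y0 * Real.exp t - w ≤ y0 * Real.exp t by linarith)
    have h2 : w ≤ Real.exp (3 * u ^ 4) := by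
      have a1 : -Real.sinh t ≤ Real.exp |t| := (neg_le_abs _).trans (abs_sinh_le_exp t)
      have a2 : Real.exp |t| ≤ Real.exp (3 * u ^ 4) := Real.exp_le_exp.2 (by linarith)
      have a3 : y0 * (-Real.sinh t) ≤ 1 * (-Real.sinh t) := mul_le_mul_of_nonneg_right hy1 hs0
      have a4 : w ≤ 1 * (y0 * (-Real.sinh t)) :=
        mul_le_mul_of_nonneg_right he2 (by positivity)
      linarith
    have h3 : y0 * Real.exp t ≤ 1 := by
      have a1 : Real.exp t ≤ 1 := Real.exp_le_one_iff.2 ht0.le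
      have a2 : y0 * Real.exp t ≤ 1 * Real.exp t :=
        mul_le_mul_of_nonneg_right hy1 (Real.exp_pos _).le
      linarith
    have h4 := hw.Phi_add_ge (show 0 ≤ y0 * Real.exp t by positivity) h3 hw0 h2
    have e3 : y0 * Real.exp t - (y0 * Real.exp t - w) = w := by ring
    rw [e3] at h1
    have e4 : 101 / 100 * q * w = q * w + q / 100 * w := by ring
    rw [e4]
    linarith
  -- sums
  have hsum : ∀ f : ι → ℝ, ∑ z ∈ Z, f z = ∑ z ∈ L, f z + ∑ z ∈ P, f z + ∑ z ∈ Q, f z := by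
    intro f
    rw [← h.part.hZ, Finset.sum_union, Finset.sum_union h.part.hLP]
    rw [Finset.disjoint_union_left]
    exact ⟨h.part.hLQ, h.part.hPQ⟩
  have hLc : (L.card : ℝ) ≤ m + 2 := h.card_L.2
  have hLs : ∑ z ∈ L, (2 * Phi q (y0 * Real.exp (θ z))
        - Phi q (y0 * Real.exp (θ z) + e * (y0 * Real.sinh (θ z)))
        - Phi q (y0 * Real.exp (θ z) - e * (y0 * Real.sinh (θ z)))) ≤ (m + 2) * (3 * e ^ 2 * E) := by
    refine (Finset.sum_le_sum hLl).trans ?_
    rw [Finset.sum_const, nsmul_eq_mul]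
    exact mul_le_mul_of_nonneg_right hLc (by positivity)
  have hPx : ∑ z ∈ P, Real.exp (θ z) ≤ m := by
    have a1 : ∀ z ∈ P, Real.exp (θ z) = 2 / κ * xi κ (θ z) := by
      intro z hz
      have hz0 : 0 ≤ θ z := le_trans (by positivity) (h.part.hP z hz)
      rw [xi, abs_of_nonneg hz0]
      field_simp
    rw [Finset.sum_congr rfl a1, ← Finset.mul_sum]
    have a2 : 0 ≤ XX κ Q θ := by
      rw [XX]
      exact Finset.sum_nonneg fun z _ => by rw [xi]; positivity
    have a3 : XX κ P θ ≤ S0 := by linarith [h.hX]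
    have a4 : 2 * S0 ≤ m * κ := by
      have b1 := h.hS0
      have b2 : 0 ≤ S0 := le_trans (by
        rw [XX]
        exact Finset.sum_nonneg fun z _ => by rw [xi]; positivity) a3
      have b3 : (2 : ℝ) ≤ u ^ 3 := by
        have c1 := FactsAux.u20 hw
        have c2 : (2 : ℝ) ≤ u := le_trans (by norm_num) c1
        nlinarith [mul_pos hu0 hu0]
      nlinarith
    have a5 : ∑ z ∈ P, xi κ (θ z) = XX κ P θ := rfl
    rw [a5, div_mul_eq_mul_div, div_le_iff₀ hk]
    linarith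
  have hPs : ∑ z ∈ P, (2 * Phi q (y0 * Real.exp (θ z))
        - Phi q (y0 * Real.exp (θ z) + e * (y0 * Real.sinh (θ z)))
        - Phi q (y0 * Real.exp (θ z) - e * (y0 * Real.sinh (θ z)))) ≤ 3 * e ^ 2 * m := by
    refine (Finset.sum_le_sum hPl).trans ?_
    rw [← Finset.mul_sum]
    exact mul_le_mul_of_nonneg_left hPx (by positivity)
  have hQs : ∑ z ∈ Q, (2 * Phi q (y0 * Real.exp (θ z))
        - Phi q (y0 * Real.exp (θ z) + e * (y0 * Real.sinh (θ z)))
        - Phi q (y0 * Real.exp (θ z) - e * (y0 * Real.sinh (θ z))))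
          ≤ 101 / 100 * q * (e * (9 / 10 * e * T2)) := by
    refine (Finset.sum_le_sum hQl).trans ?_
    rw [← Finset.mul_sum, ← Finset.mul_sum, ← Finset.mul_sum]
    apply mul_le_mul_of_nonneg_left _ (by positivity)
    exact mul_le_mul_of_nonneg_left hQ he
  rw [hsum]
  -- final arithmetic
  have hT1 : E ≤ T2 := by
    refine le_trans ?_ hT
    rw [hE]
    apply Real.exp_le_exp.2
    linarith
  have hT0 : 0 < T2 := by linarith
  have hqb : 10 ^ 7 * m ≤ q := by
    have a1 := hw.plo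
    have a2 : m * 10 ^ 8 ≤ m * u ^ 4 := mul_le_mul_of_nonneg_left hU8 hm0.le
    linarith
  have hqT : 10 ^ 7 * m * E ≤ q * T2 := mul_le_mul hqb hT1 (by linarith) hq.le
  have hm2 : (2 : ℝ) ≤ m := le_trans (by norm_num) (FactsAux.m_big hw)
  have hmE : m ≤ m * E := by nlinarith
  have h2E : 2 * E ≤ m * E := mul_le_mul_of_nonneg_right hm2 (by linarith)
  have hfin : 2 * ((m + 2) * (3 * E) + 3 * m + 101 / 100 * q * (9 / 10 * T2)) ≤ 37 / 20 * q * T2 := by
    have e1 : (m + 2) * (3 * E) = 3 * (m * E) + 3 * (2 * E) := by ring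
    have e2 : 101 / 100 * q * (9 / 10 * T2) = 909 / 1000 * (q * T2) := by ring
    have e3 : 37 / 20 * q * T2 = 1850 / 1000 * (q * T2) := by ring
    have e4 : 10 ^ 7 * m * E = 10 ^ 7 * (m * E) := by ring
    rw [e1, e2, e3]
    rw [e4] at hqT
    have e5 : 0 ≤ m * E := by positivity
    linarith
  have hfin2 := mul_le_mul_of_nonneg_left hfin (sq_nonneg e)
  have g1 : e ^ 2 * (2 * ((m + 2) * (3 * E) + 3 * m + 101 / 100 * q * (9 / 10 * T2)))
      = 2 * ((m + 2) * (3 * e ^ 2 * E) + 3 * e ^ 2 * m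
        + 101 / 100 * q * (e * (9 / 10 * e * T2))) := by ring
  have g2 : e ^ 2 * (37 / 20 * q * T2) = 37 / 20 * q * T2 * e ^ 2 := by ring
  rw [g1, g2] at hfin2
  refine le_trans ?_ hfin2
  apply mul_le_mul_of_nonneg_left _ (by norm_num)
  linarith

end

end Pool.Agent.RieszWin
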