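import Pool.Agent.RieszWin.XDefs

set_option autoImplicit false

open Real Finset

namespace Pool.Agent.RieszWin

open Pool.Agent.RieszSmall Pool.Agent.RieszLin Pool.Agent.RieszTr

section

variable {ι : Type*} [DecidableEq ι] {u q m κ S0 : ℝ} {Z L P Q : Finset ι} {θ : ι → ℝ}

/-- MODULE RW34. The sum of `exp θ`: `∑_L exp θ = CC L + SS L`,
`CC L ≤ |L| + (GG + SS²)/(2 |L|)` (`GG_card`), `|SS L| ≤ S0/κ ≤ m/u³`;
`∑_P exp θ = 2 XX P/κ ≤ 2 m/u³`; `∑_Q exp θ ≤ |Q| ≤ 2 XX Q/κ`. -/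
theorem NZ.sum_exp (h : NZ u q m κ S0 Z L P Q θ) :
    ∑ z ∈ Z, Real.exp (θ z) ≤ m * (1 + 1 / u) + GG L θ / m := by
  obtain ⟨hu0, hm0, hq0, hk0, hk1⟩ := h.win.pos
  have hk : 0 < κ := hk0
  have hm : 0 < m := hm0
  obtain ⟨hL1, hL2⟩ := h.card_L
  have hbig := h.win.big
  have hu10 : (10 : ℝ) ≤ u := le_trans (by norm_num) h.win.hu
  have hsum := sum_part h.part (fun z => Real.exp (θ z))
  -- light points
  have hLs : ∑ z ∈ L, Real.exp (θ z) = CC L θ + SS L θ := by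
    unfold CC SS
    rw [← Finset.sum_add_distrib]
    exact Finset.sum_congr rfl fun z _ => (Real.cosh_add_sinh (θ z)).symm
  have hGG := GG_card L θ
  have hGG0 := GG_nonneg L θ
  have hS0 : S0 ≤ m * κ / u ^ 3 := by
    rw [le_div_iff₀ (by positivity)]
    exact h.hS0
  have hSS : |SS L θ| ≤ m / u ^ 3 := by
    have h1 : κ * |SS L θ| ≤ κ * (m / u ^ 3) := by
      refine (h.hS.trans hS0).trans (le_of_eq ?_)
      ring
    exact le_of_mul_le_mul_left h1 hk
  have hexp : Real.exp (-(u ^ 4 / 300)) ≤ 1 / 2 := by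
    have h1 : (1 : ℝ) ≤ u ^ 4 / 300 := by
      have h2 : (10 : ℝ) ^ 4 ≤ u ^ 4 := pow_le_pow_left₀ (by norm_num) hu10 4
      linarith
    have h3 : Real.exp (-(u ^ 4 / 300)) ≤ Real.exp (-1) := Real.exp_le_exp.2 (by linarith)
    have h4 : Real.exp (-1) ≤ 1 / 2 := by
      have := Real.exp_neg_one_lt_d9
      linarith
    exact h3.trans h4
  have hLm : m ≤ 2 * (L.card : ℝ) := by
    nlinarith
  have hLpos : 0 < 2 * (L.card : ℝ) := lt_of_lt_of_le hm hLm
  have hSS2 : (SS L θ) ^ 2 ≤ (m / u ^ 3) ^ 2 := by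
    rw [← sq_abs]
    exact pow_le_pow_left₀ (abs_nonneg _) hSS 2
  have hE : CC L θ - L.card ≤ (GG L θ + (SS L θ) ^ 2) / m := by
    have h0 : 0 ≤ GG L θ + (SS L θ) ^ 2 := add_nonneg hGG0 (sq_nonneg _)
    have h1 : CC L θ - L.card ≤ (GG L θ + (SS L θ) ^ 2) / (2 * L.card) := by
      rw [le_div_iff₀ hLpos]
      linarith
    exact h1.trans (div_le_div_of_nonneg_left h0 hm hLm)
  -- heavy points
  have hPs : ∑ z ∈ P, Real.exp (θ z) ≤ 2 / κ * XX κ P θ := by
    unfold XX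
    rw [Finset.mul_sum]
    refine Finset.sum_le_sum fun z _ => ?_
    have h1 : 2 / κ * xi κ (θ z) = Real.exp |θ z| := by
      unfold xi
      field_simp
    rw [h1]
    exact Real.exp_le_exp.2 (le_abs_self _)
  have hQs : ∑ z ∈ Q, Real.exp (θ z) ≤ 2 / κ * XX κ Q θ := by
    unfold XX
    rw [Finset.mul_sum]
    refine Finset.sum_le_sum fun z _ => ?_
    have h1 : 2 / κ * xi κ (θ z) = Real.exp |θ z| := by
      unfold xi
      field_simp
    rw [h1]
    exact Real.exp_le_exp.2 (le_abs_self _)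
  have hX : 2 / κ * XX κ P θ + 2 / κ * XX κ Q θ ≤ 2 * (m / u ^ 3) := by
    have h1 : 2 / κ * (XX κ P θ + XX κ Q θ) ≤ 2 / κ * (m * κ / u ^ 3) :=
      mul_le_mul_of_nonneg_left (h.hX.trans hS0) (by positivity)
    have h2 : 2 / κ * (m * κ / u ^ 3) = 2 * (m / u ^ 3) := by
      field_simp
    rw [← mul_add, ← h2]
    exact h1
  have hu3 : (1 : ℝ) ≤ u ^ 3 := one_le_pow₀ (by linarith)
  -- final numerics
  have hA : m / u ^ 3 ≤ m / (100 * u) := by
    apply div_le_div_of_nonneg_left hm.le (by positivity)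
    have h1 : (10 : ℝ) ^ 2 ≤ u ^ 2 := pow_le_pow_left₀ (by norm_num) hu10 2
    have h2 : 100 * u ≤ u ^ 2 * u :=
      mul_le_mul_of_nonneg_right (le_trans (by norm_num) h1) hu0.le
    have h3 : u ^ 2 * u = u ^ 3 := by ring
    linarith
  have hB : (m / u ^ 3) ^ 2 / m ≤ m / (100 * u) := by
    have h1 : (m / u ^ 3) ^ 2 / m = m / u ^ 3 / u ^ 3 := by
      field_simp
    rw [h1]
    exact (div_le_self (by positivity) hu3).trans hA
  have hC : (2 : ℝ) ≤ m / (100 * u) := by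
    rw [le_div_iff₀ (by positivity)]
    have h2 := hbig.2.1
    have h3 : Real.exp (u ^ 4 / 1000) ≤ m := by
      rw [h.win.hm]
      apply Real.exp_le_exp.2
      have : 0 ≤ u ^ 4 := by positivity
      linarith
    have h4 : u ^ 60 = u * u ^ 59 := by ring
    have h5 : (200 : ℝ) ≤ u ^ 59 := by
      calc (200 : ℝ) ≤ 10 ^ 59 := by norm_num
        _ ≤ u ^ 59 := pow_le_pow_left₀ (by norm_num) hu10 59
    nlinarith
  have hD : (GG L θ + (SS L θ) ^ 2) / m ≤ GG L θ / m + (m / u ^ 3) ^ 2 / m := by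
    rw [← add_div]
    exact div_le_div_of_nonneg_right (by linarith) hm.le
  have hF : m * (1 + 1 / u) = m + 100 * (m / (100 * u)) := by
    field_simp
  have hSSle := le_abs_self (SS L θ)
  have hA0 : 0 ≤ m / (100 * u) := by positivity
  rw [hsum, hLs, hF]
  linarith

/-- all angles are at most `1.1 u^4`: `exp |θ| = 2 ξ/κ ≤ 2/κ` for heavy points. -/
theorem NZ.abs_le (h : NZ u q m κ S0 Z L P Q θ) {z : ι} (hz : z ∈ Z) :
    |θ z| ≤ 11 / 10 * u ^ 4 := by
  obtain ⟨hu0, hm0, hq0, hk0, hk1⟩ := h.win.pos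
  have hk : 0 < κ := hk0
  have hu10 : (10 : ℝ) ≤ u := le_trans (by norm_num) h.win.hu
  have hu4 : (10 : ℝ) ^ 4 ≤ u ^ 4 := pow_le_pow_left₀ (by norm_num) hu10 4
  rw [← h.part.hZ, mem_union, mem_union] at hz
  have heavy : ∀ z ∈ P ∪ Q, |θ z| ≤ 11 / 10 * u ^ 4 := by
    intro z hz
    have h1 := h.hx z hz
    unfold xi at h1
    have h2 : Real.exp |θ z| ≤ 2 / κ := by
      rw [le_div_iff₀ hk]
      linarith
    have h3 : |θ z| ≤ Real.log (2 / κ) := by
      rw [Real.le_log_iff_exp_le (by positivity)]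
      exact h2
    rw [Real.log_div (by norm_num) hk.ne'] at h3
    have h4 := h.win.el_bds.2
    rw [el] at h4
    have h5 := Real.log_two_lt_d9
    linarith
  rcases hz with (hz | hz) | hz
  · have h1 := h.part.hL z hz
    have : 0 ≤ u ^ 4 := by positivity
    linarith
  · exact heavy z (mem_union_left _ hz)
  · exact heavy z (mem_union_right _ hz)

/-- `K = y0 exp θ`; `|log K| ≤ 2 u^4`, so by `Phi_quad` and `Win.cv_near`
`Φ((1±e)K) ≥ Φ(K) ± sl K e - (101/100) K e²`. The sum of the losses is at most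
`2 · 2 · (101/100) e² y0 ∑ exp θ`; `NZ.sum_exp`; `1/m ≤ κ u^4`, `e ≤ 1/20`, `y0 ≤ 1`. -/
theorem NZ.lossI (h : NZ u q m κ S0 Z L P Q θ) {y0 e : ℝ} (hy : Real.exp (-u) ≤ y0)
    (hy1 : y0 ≤ 1) (he : 0 ≤ e) (he1 : e ≤ 1 / 20) :
    2 * ∑ z ∈ Z, (2 * Phi q (y0 * Real.exp (θ z)) - Phi q ((1 + e) * (y0 * Real.exp (θ z)))
        - Phi q ((1 - e) * (y0 * Real.exp (θ z))))
      ≤ 43 / 10 * e ^ 2 * y0 * m + 1 / 10 * u ^ 4 * (κ * GG L θ) := by
  obtain ⟨hu0, hm0, hq0, hk0, hk1⟩ := h.win.pos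
  have hk : 0 < κ := hk0
  have hm : 0 < m := hm0
  have hq : 0 < q := hq0
  have hy0 : 0 < y0 := (Real.exp_pos _).trans_le hy
  have hu10 : (10 : ℝ) ≤ u := le_trans (by norm_num) h.win.hu
  have hu100 : (100 : ℝ) ≤ u := le_trans (by norm_num) h.win.hu
  have hly : -u ≤ Real.log y0 := by
    rw [Real.le_log_iff_exp_le hy0]
    exact hy
  have hly1 : Real.log y0 ≤ 0 := Real.log_nonpos hy0.le hy1
  have hu4 : u ≤ u ^ 4 := by
    have h3 : (1 : ℝ) ≤ u ^ 3 := one_le_pow₀ (by linarith)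
    nlinarith
  have hpt : ∀ z ∈ Z, 2 * Phi q (y0 * Real.exp (θ z)) - Phi q ((1 + e) * (y0 * Real.exp (θ z)))
        - Phi q ((1 - e) * (y0 * Real.exp (θ z))) ≤
        202 / 100 * e ^ 2 * y0 * Real.exp (θ z) := by
    intro z hz
    have ha := h.abs_le hz
    set K : ℝ := y0 * Real.exp (θ z) with hKdef
    have hK : 0 < K := mul_pos hy0 (Real.exp_pos _)
    have hlog : |Real.log K| ≤ 10 * u ^ 4 := by
      rw [hKdef, Real.log_mul hy0.ne' (Real.exp_pos _).ne', Real.log_exp]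
      have h1 := _root_.abs_le.1 ha
      rw [_root_.abs_le]
      constructor
      · linarith [h1.1]
      · have : 0 ≤ u ^ 4 := by positivity
        linarith [h1.2]
    have h2 := h.win.two_le hK hlog
    have hcv := (h.win.cv_near hK hlog).2
    have hcv0 := (h.win.cv_near hK hlog).1
    have h3 := Phi_quad (q := q) (K1 := K) (K := (1 + e) * K) hq h2 (by positivity)
    have h4 := Phi_quad (q := q) (K1 := K) (K := (1 - e) * K) hq h2
      (mul_pos (by linarith) hK)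
    have h5 : cv q K * K ≤ 101 / 100 := by
      have := mul_le_mul_of_nonneg_right hcv hK.le
      rwa [div_mul_cancel₀ _ hK.ne'] at this
    have h6 : cv q K * K * (e ^ 2 * K) ≤ 101 / 100 * (e ^ 2 * K) :=
      mul_le_mul_of_nonneg_right h5 (by positivity)
    have e1 : (1 + e) * K - K = e * K := by ring
    have e2 : (1 - e) * K - K = -(e * K) := by ring
    rw [e1] at h3
    rw [e2] at h4
    have e3 : cv q K * (e * K) ^ 2 = cv q K * K * (e ^ 2 * K) := by ring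
    have e4 : cv q K * (-(e * K)) ^ 2 = cv q K * K * (e ^ 2 * K) := by ring
    rw [e3] at h3
    rw [e4] at h4
    have e5 : 202 / 100 * e ^ 2 * y0 * Real.exp (θ z) = 2 * (101 / 100 * (e ^ 2 * K)) := by
      rw [hKdef]
      ring
    rw [e5]
    linarith
  have hsum : ∑ z ∈ Z, (2 * Phi q (y0 * Real.exp (θ z)) - Phi q ((1 + e) * (y0 * Real.exp (θ z)))
        - Phi q ((1 - e) * (y0 * Real.exp (θ z)))) ≤
        202 / 100 * e ^ 2 * y0 * ∑ z ∈ Z, Real.exp (θ z) := by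
    rw [Finset.mul_sum]
    exact Finset.sum_le_sum hpt
  have hse := h.sum_exp
  have hc0 : 0 ≤ 202 / 100 * e ^ 2 * y0 := by positivity
  have h7 := mul_le_mul_of_nonneg_left hse hc0
  have hGG0 := GG_nonneg L θ
  -- first term
  have hu1 : 1 / u ≤ 1 / 100 := one_div_le_one_div_of_le (by norm_num) hu100
  have h8 : 202 / 100 * e ^ 2 * y0 * (m * (1 + 1 / u)) ≤ 43 / 20 * e ^ 2 * y0 * m := by
    have h9 : m * (1 + 1 / u) ≤ m * (101 / 100) :=
      mul_le_mul_of_nonneg_left (by linarith) hm.le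
    have h10 := mul_le_mul_of_nonneg_left h9 hc0
    have h11 : 0 ≤ e ^ 2 * y0 * m := by positivity
    nlinarith
  -- second term
  have hinv : 1 / m ≤ κ * u ^ 4 := by
    rw [div_le_iff₀ hm]
    have := h.win.lo
    nlinarith
  have h12 : GG L θ / m ≤ GG L θ * (κ * u ^ 4) := by
    rw [div_eq_mul_one_div]
    exact mul_le_mul_of_nonneg_left hinv hGG0
  have h13 : 202 / 100 * e ^ 2 * y0 ≤ 1 / 20 := by
    have h14 : e ^ 2 ≤ (1 / 20) ^ 2 := pow_le_pow_left₀ he he1 2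
    have h15 : e ^ 2 * y0 ≤ (1 / 20) ^ 2 * 1 := mul_le_mul h14 hy1 hy0.le (by norm_num)
    nlinarith
  have h16 : 202 / 100 * e ^ 2 * y0 * (GG L θ / m) ≤ 1 / 20 * (GG L θ * (κ * u ^ 4)) :=
    mul_le_mul h13 h12 (by positivity) (by norm_num)
  have h17 : 202 / 100 * e ^ 2 * y0 * (m * (1 + 1 / u) + GG L θ / m) =
      202 / 100 * e ^ 2 * y0 * (m * (1 + 1 / u)) + 202 / 100 * e ^ 2 * y0 * (GG L θ / m) := by
    ring
  have h18 : 43 / 10 * e ^ 2 * y0 * m + 1 / 10 * u ^ 4 * (κ * GG L θ) =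
      2 * (43 / 20 * e ^ 2 * y0 * m + 1 / 20 * (GG L θ * (κ * u ^ 4))) := by ring
  rw [h18]
  linarith

end

end Pool.Agent.RieszWin
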