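import Pool.Agent.RieszWin.CTest

set_option autoImplicit false

open Real Finset

namespace Pool.Agent.RieszWin

open Pool.Agent.RieszSmall Pool.Agent.RieszLin Pool.Agent.RieszTr

namespace RngAux

/-- `-log (1 - 1/m)` -/
noncomputable def cc (m : ℝ) : ℝ := -Real.log (1 - 1 / m)

theorem base_pos {m : ℝ} (hm : 2 ≤ m) : 0 < 1 - 1 / m := by
  have h0 : 0 < m := by linarith
  have h1 : 1 / m ≤ 1 / 2 := one_div_le_one_div_of_le (by norm_num) hm
  linarith

theorem base_lt {m : ℝ} (hm : 2 ≤ m) : 1 - 1 / m < 1 := by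
  have h0 : 0 < m := by linarith
  have h1 : 0 < 1 / m := by positivity
  linarith

theorem K0_exp {q m : ℝ} (hm : 2 ≤ m) : K0 q m = Real.exp (-((q + 1) * cc m)) := by
  rw [K0, Real.rpow_def_of_pos (base_pos hm), cc]
  congr 1
  ring

theorem K0_pos {q m : ℝ} (hm : 2 ≤ m) : 0 < K0 q m := by
  rw [K0_exp hm]
  exact Real.exp_pos _

theorem el_K0 {q m : ℝ} (hm : 2 ≤ m) : el (K0 q m) = (q + 1) * cc m := by
  rw [K0_exp hm, el, Real.log_exp]
  ring

theorem cc_lo {m : ℝ} (hm : 2 ≤ m) : 1 / m ≤ cc m := by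
  have h1 := Real.log_le_sub_one_of_pos (base_pos hm)
  rw [cc]
  linarith

theorem cc_pos {m : ℝ} (hm : 2 ≤ m) : 0 < cc m := by
  have h0 : 0 < m := by linarith
  have h1 : 0 < 1 / m := by positivity
  exact lt_of_lt_of_le h1 (cc_lo hm)

theorem cc_hi {m : ℝ} (hm : 2 ≤ m) : cc m ≤ 1 / (m - 1) := by
  have h0 : 0 < m := by linarith
  have h1 : 0 < m - 1 := by linarith
  have h2 : cc m = Real.log (m / (m - 1)) := by
    rw [cc, ← Real.log_inv]
    congr 1
    field_simp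
  rw [h2]
  have h3 : 0 < m / (m - 1) := by positivity
  have h4 := Real.log_le_sub_one_of_pos h3
  have h5 : m / (m - 1) - 1 = 1 / (m - 1) := by
    field_simp
    ring
  linarith

theorem log_mK0 {u q m : ℝ} (hm2 : 2 ≤ m) (hm : m = Real.exp (u ^ 4)) :
    Real.log (m * K0 q m) = u ^ 4 - (q + 1) * cc m := by
  rw [Real.log_mul (by linarith) (K0_pos hm2).ne', K0_exp hm2, Real.log_exp]
  have h : Real.log m = u ^ 4 := by rw [hm, Real.log_exp]
  rw [h]
  ring

theorem u20 {u : ℝ} (hu : (10 : ℝ) ^ 200 ≤ u) : (10 : ℝ) ^ 20 ≤ u :=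
  (pow_le_pow_right₀ (by norm_num) (by norm_num)).trans hu

theorem u_pos {u : ℝ} (hu : (10 : ℝ) ^ 20 ≤ u) : 0 < u :=
  lt_of_lt_of_le (by positivity) hu

theorem u_le {u : ℝ} (hu : (10 : ℝ) ^ 20 ≤ u) : (10 : ℝ) ^ 60 * u ≤ u ^ 4 := by
  have h2 : ((10 : ℝ) ^ 20) ^ 3 ≤ u ^ 3 := pow_le_pow_left₀ (by positivity) hu 3
  have h3 : (10 : ℝ) ^ 60 ≤ u ^ 3 := by
    rw [← pow_mul] at h2
    exact h2
  have h4 := mul_le_mul_of_nonneg_right h3 (u_pos hu).le
  calc (10 : ℝ) ^ 60 * u ≤ u ^ 3 * u := h4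
    _ = u ^ 4 := by ring

theorem U_ge {u : ℝ} (hu : (10 : ℝ) ^ 20 ≤ u) : (10 : ℝ) ^ 80 ≤ u ^ 4 := by
  have h1 := u_le hu
  have h3 : (10 : ℝ) ^ 80 = 10 ^ 60 * 10 ^ 20 := by norm_num
  nlinarith

theorem log_u {u : ℝ} (hu : (10 : ℝ) ^ 20 ≤ u) : Real.log u ≤ u := by
  have := Real.log_le_sub_one_of_pos (u_pos hu)
  linarith

theorem log_u0 {u : ℝ} (hu : (10 : ℝ) ^ 20 ≤ u) : 0 ≤ Real.log u :=
  Real.log_nonneg (le_trans (one_le_pow₀ (by norm_num)) hu)

theorem m_ge {u m : ℝ} (hu : (10 : ℝ) ^ 20 ≤ u) (hm : m = Real.exp (u ^ 4)) :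
    1 + u ^ 4 + (u ^ 4) ^ 2 / 2 ≤ m := by
  rw [hm]
  exact Real.quadratic_le_exp_of_nonneg (pow_pos (u_pos hu) 4).le

theorem m_ge' {u m : ℝ} (hu : (10 : ℝ) ^ 20 ≤ u) (hm : m = Real.exp (u ^ 4)) :
    (10 : ℝ) ^ 10 * u ^ 4 + 2 ≤ m := by
  have h1 := m_ge hu hm
  have h2 := U_ge hu
  have h3 : (10 : ℝ) ^ 20 ≤ u ^ 4 := (pow_le_pow_right₀ (by norm_num) (by norm_num)).trans h2
  nlinarith

end RngAux

open RngAux

/-- MODULE RW70 (ranges). `c = -log(1-1/m) ∈ [1/m, 1/m + 1/m²]`, `el (K0 q m) = (q+1) c`,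
`m K₀ = exp(u^4 - (q+1) c)`. From the hypotheses `u^4 - 105 log 10 - 4 log u ≤ (q+1) c ≤ u^4 + log u`;
the other bounds follow. -/
theorem win_of {u q m : ℝ} (hu : (10 : ℝ) ^ 200 ≤ u) (hm : m = Real.exp (u ^ 4))
    (hhi : m * K0 q m ≤ 10 ^ 105 * u ^ 4) (hlo : 1 / u ≤ m * K0 q m) : Win u q m (K0 q m) := by
  have hu2 := u20 hu
  have hup := u_pos hu2
  have hul := u_le hu2
  have hU := U_ge hu2
  have hU20 : (10 : ℝ) ^ 20 ≤ u ^ 4 := (pow_le_pow_right₀ (by norm_num) (by norm_num)).trans hU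
  have hlu := log_u hu2
  have hlu0 := log_u0 hu2
  have hmg := m_ge' hu2 hm
  have hm2 : 2 ≤ m := by linarith [pow_pos hup 4]
  have hmp : 0 < m := by linarith
  have hK := K0_pos (q := q) hm2
  have hmK := mul_pos hmp hK
  have hl := log_mK0 (q := q) hm2 hm
  have hclo := cc_lo hm2
  have hchi := cc_hi hm2
  have hc := cc_pos hm2
  have hUp : 0 < u ^ 4 := pow_pos hup 4
  -- bounds of (q+1) c
  have h1 : u ^ 4 - 945 - 4 * u ≤ (q + 1) * cc m := by
    have h2 := Real.log_le_log hmK hhi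
    rw [hl, Real.log_mul (by positivity) hUp.ne', Real.log_pow, Real.log_pow] at h2
    have h3 : Real.log 10 ≤ 9 := by
      have := Real.log_le_sub_one_of_pos (show (0:ℝ) < 10 by norm_num)
      linarith
    push_cast at h2
    linarith
  have h2 : (q + 1) * cc m ≤ u ^ 4 + u := by
    have h3 := Real.log_le_log (by positivity) hlo
    rw [hl, one_div, Real.log_inv] at h3
    linarith
  have hqp : 0 < q + 1 := by
    have h3 : 0 < (q + 1) * cc m := by
      refine lt_of_lt_of_le ?_ h1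
      linarith
    by_contra h4
    have h5 := mul_nonpos_of_nonpos_of_nonneg (not_lt.1 h4) hc.le
    linarith
  have h4 : u ^ 4 - 945 - 4 * u ≤ (q + 1) * (1 / (m - 1)) :=
    h1.trans (mul_le_mul_of_nonneg_left hchi hqp.le)
  have h5 : (q + 1) * (1 / m) ≤ u ^ 4 + u :=
    (mul_le_mul_of_nonneg_left hclo hqp.le).trans h2
  rw [mul_one_div, le_div_iff₀ (by linarith)] at h4
  rw [mul_one_div, div_le_iff₀ hmp] at h5
  refine ⟨hu, hm, hK, ?_, hhi, ?_, ?_⟩
  · rw [div_le_iff₀ hup] at hlo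
    refine hlo.trans ?_
    exact mul_le_mul_of_nonneg_left (by linarith) hmK.le
  · have h6 : 9999 / 10000 * u ^ 4 ≤ u ^ 4 - 945 - 4 * u := by linarith
    have h7 : 9999 / 10000 * m ≤ m - 1 := by linarith
    have h8 : 9999 / 10000 * u ^ 4 * (9999 / 10000 * m) ≤ (u ^ 4 - 945 - 4 * u) * (m - 1) := by
      apply mul_le_mul h6 h7 (by positivity) (by linarith)
    have h9 : u ^ 4 ≤ m * u ^ 4 := by nlinarith
    nlinarith
  · have h6 : u ^ 4 + u ≤ 1001 / 1000 * u ^ 4 := by linarith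
    have h7 := mul_le_mul_of_nonneg_right h6 hmp.le
    linarith

/-- `K0` is antitone in `q`, positive and below `1` for `q > -1`, `el` is monotone, so `lam` is
strictly antitone. -/
theorem lam_anti {m q q' : ℝ} (hm : 2 ≤ m) (hq : 0 ≤ q) (h : q < q') :
    lam m (K0 q' m) < lam m (K0 q m) := by
  have hc := cc_pos hm
  have hmp : 0 < m := by linarith
  have hK := K0_pos (q := q) hm
  have hK' := K0_pos (q := q') hm
  rw [lam, lam, el_K0 hm, el_K0 hm, div_lt_div_iff₀ (mul_pos (by linarith) hc)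
    (mul_pos (by linarith) hc)]
  have h1 : K0 q' m < K0 q m := by
    rw [K0_exp hm, K0_exp hm]
    apply Real.exp_lt_exp.2
    nlinarith
  have h2 : m * K0 q' m < m * K0 q m := mul_lt_mul_of_pos_left h1 hmp
  have h3 : (q + 1) * cc m ≤ (q' + 1) * cc m := by nlinarith
  exact mul_lt_mul h2 h3 (mul_pos (by linarith) hc) (mul_pos hmp hK).le

theorem K0_anti {m q q' : ℝ} (hm : 2 ≤ m) (h : q ≤ q') : K0 q' m ≤ K0 q m := by
  have hc := cc_pos hm
  rw [K0_exp hm, K0_exp hm]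
  apply Real.exp_le_exp.2
  nlinarith

/-- Intermediate value theorem for `r ↦ m exp(-r) - l r` between `r = u^4/2` and `r = u^4`,
`q + 1 = r/c`. Then `m K₀ = l r ∈ [u^4/2, 2 u^4]`. -/
theorem exists_q {u m l : ℝ} (hu : (10 : ℝ) ^ 200 ≤ u) (hm : m = Real.exp (u ^ 4))
    (hl : 1 ≤ l) (hl' : l ≤ 2) :
    ∃ q : ℝ, 1 ≤ q ∧ lam m (K0 q m) = l ∧ m * K0 q m ≤ 2 * u ^ 4 ∧ 1 ≤ m * K0 q m := by
  have hu2 := u20 hu
  have hup := u_pos hu2
  have hU := U_ge hu2
  have hU20 : (10 : ℝ) ^ 20 ≤ u ^ 4 := (pow_le_pow_right₀ (by norm_num) (by norm_num)).trans hU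
  have hmg := m_ge' hu2 hm
  have hm2 : 2 ≤ m := by linarith [pow_pos hup 4]
  have hmp : 0 < m := by linarith
  have hc := cc_pos hm2
  have hchi := cc_hi hm2
  have hUp : 0 < u ^ 4 := pow_pos hup 4
  have hcont : ContinuousOn (fun r : ℝ => m * Real.exp (-r) - l * r)
      (Set.Icc (u ^ 4 / 2) (u ^ 4)) := by
    apply Continuous.continuousOn
    continuity
  have hiv := intermediate_value_Icc' (by linarith : u ^ 4 / 2 ≤ u ^ 4) hcont
  have h0 : (0 : ℝ) ∈ Set.Icc (m * Real.exp (-(u ^ 4)) - l * (u ^ 4))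
      (m * Real.exp (-(u ^ 4 / 2)) - l * (u ^ 4 / 2)) := by
    constructor
    · rw [hm, ← Real.exp_add]
      have : u ^ 4 + -(u ^ 4) = 0 := by ring
      rw [this, Real.exp_zero]
      nlinarith
    · rw [hm, ← Real.exp_add]
      have h1 : u ^ 4 + -(u ^ 4 / 2) = u ^ 4 / 2 := by ring
      rw [h1]
      have h2 := Real.quadratic_le_exp_of_nonneg (by linarith : 0 ≤ u ^ 4 / 2)
      nlinarith
  obtain ⟨r, hr, hr0⟩ := hiv h0
  have hr0 : m * Real.exp (-r) - l * r = 0 := hr0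
  have hrp : 0 < r := by
    have := hr.1
    linarith
  refine ⟨r / cc m - 1, ?_, ?_, ?_, ?_⟩
  · have h1 : 2 ≤ r / cc m := by
      rw [le_div_iff₀ hc]
      have h2 : 1 / (m - 1) ≤ 1 := by
        rw [div_le_one (by linarith)]
        linarith
      have h3 := hr.1
      linarith
    linarith
  · rw [lam, el_K0 hm2, K0_exp hm2]
    have h1 : (r / cc m - 1 + 1) * cc m = r := by
      field_simp
      ring
    rw [h1, div_eq_iff hrp.ne']
    linarith
  · rw [K0_exp hm2]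
    have h1 : (r / cc m - 1 + 1) * cc m = r := by
      field_simp
      ring
    rw [h1]
    have h2 := hr.2
    nlinarith
  · rw [K0_exp hm2]
    have h1 : (r / cc m - 1 + 1) * cc m = r := by
      field_simp
      ring
    rw [h1]
    have h2 := hr.1
    nlinarith

namespace RngAux

theorem log_ten : 241 ≤ 105 * Real.log 10 := by
  have h1 : Real.log ((2 : ℝ) ^ 93) ≤ Real.log ((10 : ℝ) ^ 28) :=
    Real.log_le_log (by positivity) (by norm_num)
  rw [Real.log_pow, Real.log_pow] at h1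
  have h2 := Real.log_two_gt_d9
  push_cast at h1
  linarith

/-- the logarithm of `d = m - 1` -/
theorem log_d {u d : ℝ} (hu : (10 : ℝ) ^ 20 ≤ u) (hm : d + 1 = Real.exp (u ^ 4)) :
    u ^ 4 - 1 / 1000 ≤ Real.log d ∧ Real.log d ≤ u ^ 4 ∧
      4 * Real.log u - 1 / 1000 ≤ Real.log (Real.log d) ∧
      Real.log (Real.log d) ≤ 4 * Real.log u := by
  have hup := u_pos hu
  have hU := U_ge hu
  have hU20 : (10 : ℝ) ^ 20 ≤ u ^ 4 := (pow_le_pow_right₀ (by norm_num) (by norm_num)).trans hU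
  have hmg := m_ge' hu hm
  have hUp : 0 < u ^ 4 := pow_pos hup 4
  have hd : 1000 ≤ d := by linarith
  have hdp : 0 < d := by linarith
  have h0 : Real.log (d + 1) = u ^ 4 := by rw [hm, Real.log_exp]
  have h1 : Real.log d ≤ u ^ 4 := by
    rw [← h0]
    exact Real.log_le_log hdp (by linarith)
  have h2 : u ^ 4 - 1 / 1000 ≤ Real.log d := by
    have h3 : Real.log ((d + 1) / d) = u ^ 4 - Real.log d := by
      rw [Real.log_div (by linarith) hdp.ne', h0]
    have h4 := Real.log_le_sub_one_of_pos (show 0 < (d + 1) / d by positivity)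
    have h5 : (d + 1) / d - 1 = 1 / d := by
      field_simp
      ring
    have h6 : 1 / d ≤ 1 / 1000 := one_div_le_one_div_of_le (by norm_num) hd
    linarith
  have h7 : 0 < Real.log d := by linarith
  refine ⟨h2, h1, ?_, ?_⟩
  · have h8 : Real.log (u ^ 4 / Real.log d) = 4 * Real.log u - Real.log (Real.log d) := by
      rw [Real.log_div hUp.ne' h7.ne', Real.log_pow]
      push_cast
      ring
    have h9 := Real.log_le_sub_one_of_pos (show 0 < u ^ 4 / Real.log d by positivity)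
    have h10 : u ^ 4 / Real.log d ≤ 1 + 1 / 1000 := by
      rw [div_le_iff₀ h7]
      linarith
    linarith
  · have h8 := Real.log_le_log h7 h1
    rw [Real.log_pow] at h8
    push_cast at h8
    exact h8

end RngAux

/-- Lower end of the window: `K₀ ≤ exp(-(q+1)/m)`, `(q+1)/m ≥ log d - log log d - 240 - 1/100`
(`m = d+1`), `log d ≥ u^4 - 2/m`, `log log d ≤ 4 log u`; `exp(240.1) ≤ 10^105`. -/
theorem low_end {u q d : ℝ} (hu : (10 : ℝ) ^ 200 ≤ u) (hm : d + 1 = Real.exp (u ^ 4))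
    (hq : d * (Real.log d - Real.log (Real.log d) - 240) ≤ q) :
    (d + 1) * K0 q (d + 1) ≤ 10 ^ 105 * u ^ 4 := by
  have hu2 := u20 hu
  have hup := u_pos hu2
  have hul := u_le hu2
  have hU := U_ge hu2
  have hU20 : (10 : ℝ) ^ 20 ≤ u ^ 4 := (pow_le_pow_right₀ (by norm_num) (by norm_num)).trans hU
  have hlu := log_u hu2
  have hlu0 := log_u0 hu2
  have hmg := m_ge' hu2 hm
  have hUp : 0 < u ^ 4 := pow_pos hup 4
  have hm2 : 2 ≤ d + 1 := by linarith
  have hmp : 0 < d + 1 := by linarith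
  have hdp : 0 < d := by linarith
  have hK := K0_pos (q := q) hm2
  have hmK := mul_pos hmp hK
  have hl := log_mK0 (q := q) hm2 hm
  have hclo := cc_lo hm2
  obtain ⟨h1, h2, h3, h4⟩ := log_d hu2 hm
  set L := Real.log d - Real.log (Real.log d) - 240 with hL
  have hL0 : 0 ≤ L := by linarith
  have hL1 : L ≤ u ^ 4 := by
    have h5 : 0 ≤ Real.log (Real.log d) := Real.log_nonneg (by linarith)
    linarith
  have hqp : 0 ≤ q := (mul_nonneg hdp.le hL0).trans hq
  have h5 : L - 1 / 1000 ≤ (q + 1) * cc (d + 1) := by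
    have h6 : (q + 1) * (1 / (d + 1)) ≤ (q + 1) * cc (d + 1) :=
      mul_le_mul_of_nonneg_left hclo (by linarith)
    refine le_trans ?_ h6
    rw [mul_one_div, le_div_iff₀ hmp]
    nlinarith
  have h6 : Real.log ((d + 1) * K0 q (d + 1)) ≤ Real.log (10 ^ 105 * u ^ 4) := by
    rw [hl, Real.log_mul (by positivity) hUp.ne', Real.log_pow, Real.log_pow]
    have h7 := log_ten
    push_cast
    linarith
  exact (Real.log_le_log_iff hmK (by positivity)).1 h6

/-- Upper end of the window: `K₀ ≥ exp(-(q+1)(1/m + 1/m²)) ≥ exp(-u^4 - 101)`, `u ≥ exp(101)`. -/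
theorem high_end {u q m : ℝ} (hu : (10 : ℝ) ^ 200 ≤ u) (hm : m = Real.exp (u ^ 4))
    (hq : q ≤ m * (Real.log m + 100)) : 1 / u ≤ m * K0 q m := by
  have hu2 := u20 hu
  have hup := u_pos hu2
  have hU := U_ge hu2
  have hU20 : (10 : ℝ) ^ 20 ≤ u ^ 4 := (pow_le_pow_right₀ (by norm_num) (by norm_num)).trans hU
  have hmg := m_ge' hu2 hm
  have hUp : 0 < u ^ 4 := pow_pos hup 4
  have hm2 : 2 ≤ m := by linarith
  have hmp : 0 < m := by linarith
  have hlm : Real.log m = u ^ 4 := by rw [hm, Real.log_exp]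
  rw [hlm] at hq
  set Q := m * (u ^ 4 + 100) with hQ
  have hQ0 : 0 ≤ Q := by positivity
  have hK := K0_pos (q := Q) hm2
  have hmK := mul_pos hmp hK
  have hl := log_mK0 (q := Q) hm2 hm
  have hchi := cc_hi hm2
  have h1 : m * K0 Q m ≤ m * K0 q m := mul_le_mul_of_nonneg_left (K0_anti hm2 hq) hmp.le
  refine le_trans ?_ h1
  have h2 : (Q + 1) * cc m ≤ u ^ 4 + 101 := by
    have h6 : (Q + 1) * cc m ≤ (Q + 1) * (1 / (m - 1)) :=
      mul_le_mul_of_nonneg_left hchi (by linarith)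
    refine h6.trans ?_
    rw [mul_one_div, div_le_iff₀ (by linarith)]
    nlinarith
  have h3 : (101 : ℝ) ≤ Real.log u := by
    have h4 : Real.log ((2 : ℝ) ^ 200) ≤ Real.log u := by
      apply Real.log_le_log (by positivity)
      refine le_trans ?_ hu
      exact pow_le_pow_left₀ (by norm_num) (by norm_num) 200
    rw [Real.log_pow] at h4
    have h5 := Real.log_two_gt_d9
    push_cast at h4
    linarith
  have h6 : Real.log (1 / u) ≤ Real.log (m * K0 Q m) := by
    rw [hl, one_div, Real.log_inv]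
    linarith
  exact (Real.log_le_log_iff (by positivity) hmK).1 h6

/-- Location: `r = el K₀` satisfies `m e^(-r) = lam r`, so `r = u^4 - log r - log lam`,
`|log r - 4 log u| ≤ 1/100`; `log (1.09) ≥ 8/100`, `log (1.15) ≤ 15/100`;
`r (m-1) ≤ q + 1 ≤ r m`, `d = m - 1`. -/
theorem loc {u q d : ℝ} (hu : (10 : ℝ) ^ 200 ≤ u) (hm : d + 1 = Real.exp (u ^ 4)) (hq : 0 ≤ q)
    (h1 : 109 / 100 ≤ lam (d + 1) (K0 q (d + 1))) (h2 : lam (d + 1) (K0 q (d + 1)) ≤ 23 / 20) :
    d * (Real.log d - Real.log (Real.log d) - 1 / 5) ≤ q ∧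
      q ≤ d * (Real.log d - Real.log (Real.log d)) := by
  have hu2 := u20 hu
  have hup := u_pos hu2
  have hul := u_le hu2
  have hU := U_ge hu2
  have hU20 : (10 : ℝ) ^ 20 ≤ u ^ 4 := (pow_le_pow_right₀ (by norm_num) (by norm_num)).trans hU
  have hlu := log_u hu2
  have hlu0 := log_u0 hu2
  have hmg := m_ge' hu2 hm
  have hUp : 0 < u ^ 4 := pow_pos hup 4
  have hm2 : 2 ≤ d + 1 := by linarith
  have hmp : 0 < d + 1 := by linarith
  have hdp : 0 < d := by linarith
  have hK := K0_pos (q := q) hm2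
  have hmK := mul_pos hmp hK
  have hl := log_mK0 (q := q) hm2 hm
  have hclo := cc_lo hm2
  have hchi := cc_hi hm2
  have hc := cc_pos hm2
  obtain ⟨g1, g2, g3, g4⟩ := log_d hu2 hm
  rw [lam, el_K0 hm2] at h1 h2
  set r := (q + 1) * cc (d + 1) with hr
  have hrp : 0 < r := mul_pos (by linarith) hc
  set l := (d + 1) * K0 q (d + 1) / r with hll
  have hlp : 0 < l := by positivity
  have h3 : (d + 1) * K0 q (d + 1) = l * r := by
    rw [hll]
    field_simp
  rw [h3, Real.log_mul hlp.ne' hrp.ne'] at hl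
  have h4 : 8 / 100 ≤ Real.log l := by
    have h5 := Real.one_sub_inv_le_log_of_pos hlp
    have h6 : l⁻¹ ≤ (109 / 100 : ℝ)⁻¹ := inv_anti₀ (by norm_num) h1
    norm_num at h6
    linarith
  have h5 : Real.log l ≤ 15 / 100 := by
    have := Real.log_le_sub_one_of_pos hlp
    linarith
  have h6 : r ≤ u ^ 4 := by
    by_contra h7
    rw [not_le] at h7
    have h8 : 0 ≤ Real.log r := Real.log_nonneg (by linarith)
    linarith
  have h7 : Real.log r ≤ 4 * Real.log u := by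
    have h8 := Real.log_le_log hrp h6
    rw [Real.log_pow] at h8
    push_cast at h8
    exact h8
  have h8 : 4 * Real.log u - 1 / 1000 ≤ Real.log r := by
    have h9 : Real.log (u ^ 4 / r) = 4 * Real.log u - Real.log r := by
      rw [Real.log_div hUp.ne' hrp.ne', Real.log_pow]
      push_cast
      ring
    have h10 := Real.log_le_sub_one_of_pos (show 0 < u ^ 4 / r by positivity)
    have h11 : u ^ 4 / r ≤ 1 + 1 / 1000 := by
      rw [div_le_iff₀ hrp]
      linarith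
    linarith
  have h9 : r * d ≤ q + 1 := by
    have h10 : r ≤ (q + 1) * (1 / (d + 1 - 1)) := mul_le_mul_of_nonneg_left hchi (by linarith)
    have h11 : d + 1 - 1 = d := by ring
    rw [h11, mul_one_div, le_div_iff₀ hdp] at h10
    exact h10
  have h10 : q + 1 ≤ r * (d + 1) := by
    have h11 : (q + 1) * (1 / (d + 1)) ≤ r := mul_le_mul_of_nonneg_left hclo (by linarith)
    rw [mul_one_div, div_le_iff₀ hmp] at h11
    exact h11
  constructor
  · have h11 : Real.log d - Real.log (Real.log d) - 1 / 5 ≤ r - 1 / 1000 := by linarith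
    have h12 := mul_le_mul_of_nonneg_left h11 hdp.le
    nlinarith
  · have h11 : r + 1 / 100 ≤ Real.log d - Real.log (Real.log d) := by linarith
    have h12 := mul_le_mul_of_nonneg_left h11 hdp.le
    nlinarith

end Pool.Agent.RieszWin
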