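import Pool.Agent.RieszWin.Defs
import Pool.Agent.Riesz.Main
import Pool.Agent.RieszSmall.Exist
import Pool.Agent.RieszLin.Block

set_option autoImplicit false

open Real Finset

namespace Pool.Agent.RieszWin

open Pool.Agent.RieszSmall Pool.Agent.RieszLin Pool.Agent.RieszTr

open Pool.Agent.Riesz (InDom om G IsSym dsum G_eq dsum_relabel dsum_eq Etot_sym exists_sym)

/-- distinct points of the unit sphere -/
def Cfg {n : ℕ} (x : Fin (n + 1 + 3) → EuclideanSpace ℝ (Fin (n + 1 + 1))) : Prop :=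
  Function.Injective x ∧ ∀ i, ‖x i‖ = 1

/-- symmetric lifted square -/
def Sym {n : ℕ} (α γ : ℝ) (x : Fin (n + 1 + 3) → EuclideanSpace ℝ (Fin (n + 1 + 1))) : Prop :=
  ∃ e : Fin 4 ⊕ Fin n ≃ Fin (n + 1 + 3), IsSym α γ (x (e (Sum.inl 0))) (x (e (Sum.inl 1)))
    (x (e (Sum.inl 2))) (x (e (Sum.inl 3))) (fun k => x (e (Sum.inr k)))

/-- a pair of orthogonal simplices with `2` and `d + 1` vertices -/
def Blk2 {n : ℕ} (x : Fin (n + 1 + 3) → EuclideanSpace ℝ (Fin (n + 1 + 1))) : Prop :=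
  ∃ P : Finset (Fin (n + 1 + 3)), P.card = 2 ∧ OrthSimplices P x

lemma Cfg.lt {n : ℕ} {x : Fin (n + 1 + 3) → EuclideanSpace ℝ (Fin (n + 1 + 1))} (h : Cfg x)
    (i j : Fin (n + 1 + 3)) (hij : i ≠ j) : (inner ℝ (x i) (x j) : ℝ) < 1 := by
  have hne : x i ≠ x j := fun e => hij (h.1 e)
  have h1 : ‖x i - x j‖ ^ 2 = 2 * (1 - inner ℝ (x i) (x j)) := by
    rw [norm_sub_sq_real, h.2, h.2]; ring
  have h2 : 0 < ‖x i - x j‖ := norm_pos_iff.2 (sub_ne_zero.2 hne)
  have : 0 < ‖x i - x j‖ ^ 2 := by positivity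
  linarith

lemma En_eq_dsum {n : ℕ} {q : ℝ} {x : Fin (n + 1 + 3) → EuclideanSpace ℝ (Fin (n + 1 + 1))}
    (h : Cfg x) : En q x = dsum q x := by
  unfold dsum En
  refine Finset.sum_congr rfl (fun i _ => Finset.sum_congr rfl (fun j _ => ?_))
  split_ifs with hij
  · rfl
  · rw [G_eq (h.lt i j hij)]

lemma En_sym {n : ℕ} {q α γ : ℝ} {x : Fin (n + 1 + 3) → EuclideanSpace ℝ (Fin (n + 1 + 1))}
    (h : Cfg x) (hs : Sym α γ x) : En q x = 2 * Pool.Agent.Riesz.Phi n q α γ := by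
  obtain ⟨e, he⟩ := hs
  rw [En_eq_dsum h, ← dsum_relabel e q x, dsum_eq, Etot_sym he, Fintype.card_fin]

lemma card_real (n : ℕ) : (Fintype.card (Fin (n + 1 + 3)) : ℝ) = ((n : ℝ) + 2) + 2 := by
  rw [Fintype.card_fin]; push_cast; ring

lemma En_blk {n : ℕ} {q : ℝ} {x : Fin (n + 1 + 3) → EuclideanSpace ℝ (Fin (n + 1 + 1))}
    (h : Blk2 x) : En q x = TT q ((n : ℝ) + 2) := by
  obtain ⟨P, hP, hO⟩ := h
  exact En_block hP (card_real n) (by have : (0 : ℝ) ≤ n := Nat.cast_nonneg n; linarith) hO q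

lemma exists_sym_cfg {n : ℕ} (hn : 1 ≤ n) {α γ : ℝ} (h : InDom n α γ) :
    ∃ x : Fin (n + 1 + 3) → EuclideanSpace ℝ (Fin (n + 1 + 1)), Cfg x ∧ Sym α γ x := by
  have hm' : (1 : ℝ) ≤ n := by exact_mod_cast hn
  have hcm : (Fintype.card (Fin n) : ℝ) = n := by rw [Fintype.card_fin]
  let eb : Fin (n + 1 + 1) ≃ Fin n ⊕ Fin 2 := (finSumFinEquiv (m := n) (n := 2)).symm
  let ob := (EuclideanSpace.basisFun (Fin (n + 1 + 1)) ℝ).reindex eb
  obtain ⟨x0, x1, x2, x3, y, n0, n1, n2, n3, ny, hsym⟩ := exists_sym (κ := Fin n)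
    (e := ob) ob.orthonormal (by rw [hcm]; exact hm') (α := α) (γ := γ) (by rw [hcm]; exact h)
  let e : Fin 4 ⊕ Fin n ≃ Fin (n + 1 + 3) := Fintype.equivOfCardEq (by simp; ring)
  let u : Fin 4 ⊕ Fin n → EuclideanSpace ℝ (Fin (n + 1 + 1)) := Sum.elim ![x0, x1, x2, x3] y
  have hu1 : ∀ p, ‖u p‖ = 1 := by
    rintro (i | k)
    · fin_cases i
      · exact n0
      · exact n1
      · exact n2
      · exact n3
    · exact ny k
  have husym : IsSym α γ (u (Sum.inl 0)) (u (Sum.inl 1)) (u (Sum.inl 2)) (u (Sum.inl 3))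
      (fun k => u (Sum.inr k)) := hsym
  have hlt := husym.lt_one (by rw [hcm]; exact h)
  refine ⟨fun i => u (e.symm i), ⟨?_, fun i => hu1 _⟩, e, ?_⟩
  · intro i j hij
    by_contra hne
    have h1 := hlt (e.symm i) (e.symm j) (fun h => hne (e.symm.injective h))
    have hij' : u (e.symm i) = u (e.symm j) := hij
    rw [hij', real_inner_self_eq_norm_sq, hu1] at h1
    norm_num at h1
  · simpa using husym

lemma exists_blk (n : ℕ) :
    ∃ x : Fin (n + 1 + 3) → EuclideanSpace ℝ (Fin (n + 1 + 1)), Cfg x ∧ Blk2 x := by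
  have key : ∀ k, k = 1 + (n + 1) → ∃ (x : Fin (n + 1 + 3) → EuclideanSpace ℝ (Fin k))
      (P : Finset (Fin (n + 1 + 3))), (∀ i, ‖x i‖ = 1) ∧ P.card = 1 + 1 ∧ OrthSimplices P x := by
    rintro k rfl
    exact exists_orth (by omega) (by omega) (by omega)
  obtain ⟨x, P, hx, hP, hO⟩ := key (n + 1 + 1) (by omega)
  refine ⟨x, ⟨?_, hx⟩, P, hP, hO⟩
  intro i j hij
  by_contra hne
  have h1 : (inner ℝ (x i) (x j) : ℝ) = 1 := by
    rw [hij, real_inner_self_eq_norm_sq, hx]; norm_num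
  have hPc : Pᶜ.card = n + 1 + 1 := by rw [Finset.card_compl, hP, Fintype.card_fin]; omega
  have hneg : ∀ k : ℕ, 1 ≤ k → -1 / (((k + 1 : ℕ) : ℝ) - 1) ≤ 0 := by
    intro k hk
    apply div_nonpos_of_nonpos_of_nonneg (by norm_num)
    push_cast
    have : (0 : ℝ) ≤ k := Nat.cast_nonneg k
    linarith
  by_cases hi : i ∈ P <;> by_cases hj : j ∈ P
  · have h3 := hO.1 i hi j hj hne
    rw [hP] at h3
    have := hneg 1 (by omega)
    push_cast at this h3
    linarith
  · have h3 := hO.2.2 i hi j (Finset.mem_compl.2 hj)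
    linarith
  · have h3 := hO.2.2 j hj i (Finset.mem_compl.2 hi)
    rw [real_inner_comm] at h3
    linarith
  · have h3 := hO.2.1 i (Finset.mem_compl.2 hi) j (Finset.mem_compl.2 hj) hne
    rw [hPc] at h3
    have := hneg (n + 1) (by omega)
    push_cast at this h3
    linarith

/-- A lifted square is not a pair of orthogonal simplices. -/
lemma sym_not_blk {n : ℕ} (hn : 1 ≤ n) {α γ : ℝ} (hα : 0 < α)
    {x : Fin (n + 1 + 3) → EuclideanSpace ℝ (Fin (n + 1 + 1))} (hs : Sym α γ x) (hb : Blk2 x) :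
    False := by
  obtain ⟨e, he⟩ := hs
  obtain ⟨P, hP, hO⟩ := hb
  -- points with nonzero inner product are in the same class
  have hsame : ∀ i j, (inner ℝ (x i) (x j) : ℝ) ≠ 0 → (i ∈ P ↔ j ∈ P) := by
    intro i j hij
    constructor
    · intro hi
      by_contra hj
      exact hij (hO.2.2 i hi j (Finset.mem_compl.2 hj))
    · intro hj
      by_contra hi
      apply hij
      rw [real_inner_comm]
      exact hO.2.2 j hj i (Finset.mem_compl.2 hi)
  have h4 : ∀ (i : Fin 4) (k : Fin n), (e (Sum.inl i) ∈ P ↔ e (Sum.inr k) ∈ P) := by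
    intro i k
    apply hsame
    have hne : (-α : ℝ) ≠ 0 := by linarith
    fin_cases i
    · exact (he.a0 k).trans_ne hne
    · exact (he.a1 k).trans_ne hne
    · exact (he.a2 k).trans_ne hne
    · exact (he.a3 k).trans_ne hne
  let k0 : Fin n := ⟨0, by omega⟩
  have hall : ∀ z, (z ∈ P ↔ e (Sum.inr k0) ∈ P) := by
    intro z
    obtain ⟨w, rfl⟩ := e.surjective z
    rcases w with i | k
    · exact h4 i k0
    · exact ((h4 0 k).symm).trans (h4 0 k0)
  by_cases h0 : e (Sum.inr k0) ∈ P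
  · have : P = univ := by
      ext z; simp [(hall z).2 h0]
    rw [this, Finset.card_univ, Fintype.card_fin] at hP
    omega
  · have : P = ∅ := by
      ext z
      simp only [Finset.notMem_empty, iff_false]
      exact fun hz => h0 ((hall z).1 hz)
    rw [this] at hP
    simp at hP

end Pool.Agent.RieszWin
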