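import Pool.Agent.RieszWin.SqDefs
import Pool.Agent.RieszWin.TUp

set_option autoImplicit false

open Real Finset

namespace Pool.Agent.RieszWin

open Pool.Agent.RieszSmall Pool.Agent.RieszLin Pool.Agent.RieszTr

namespace SqUpAux

theorem u_ge {u q m κ : ℝ} (h : Win u q m κ) : (10 : ℝ) ^ 12 ≤ u := le_trans (by norm_num) h.hu

theorem u4_ge {u q m κ : ℝ} (h : Win u q m κ) : u ≤ u ^ 4 := by
  have hu1 := u_ge h
  calc u = u ^ 1 := (pow_one u).symm
    _ ≤ u ^ 4 := pow_le_pow_right₀ (by linarith) (by norm_num)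

/-- the small quantities -/
theorem smalls {u q m κ : ℝ} (h : Win u q m κ) :
    Real.exp (-(9 / 10) * u ^ 4) ≤ 1 / 1000 * (1 / u) ∧ (2 : ℝ) ^ (-(q + 1)) ≤ 1 / 1000 * (1 / u) ∧
      1 / u ≤ 1 / 1000 := by
  obtain ⟨hu0, -, -, -, -⟩ := h.pos
  have b2 := h.big.2.1
  have hu1 := u_ge h
  have hu4 : 0 < u ^ 4 := by positivity
  have hx : 1 / Real.exp (u ^ 4 / 1000) ≤ 1 / u ^ 60 :=
    one_div_le_one_div_of_le (by positivity) b2
  have hx' : 1 / Real.exp (u ^ 4 / 1000) = Real.exp (-(u ^ 4 / 1000)) := by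
    rw [Real.exp_neg, one_div]
  rw [hx'] at hx
  have h3 : 1 / u ^ 60 ≤ 1 / 1000 * (1 / u) := by
    have h1 : (1000 : ℝ) * u ≤ u ^ 60 := by
      calc (1000 : ℝ) * u ≤ u * u := mul_le_mul_of_nonneg_right (by linarith) hu0.le
        _ = u ^ 2 := by ring
        _ ≤ u ^ 60 := pow_le_pow_right₀ (by linarith) (by norm_num)
    have h2 := one_div_le_one_div_of_le (by positivity) h1
    calc 1 / u ^ 60 ≤ 1 / ((1000 : ℝ) * u) := h2
      _ = 1 / 1000 * (1 / u) := by rw [one_div_mul_one_div]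
  refine ⟨?_, ?_, ?_⟩
  · refine le_trans (le_trans (Real.exp_le_exp.2 ?_) hx) h3
    linarith
  · refine le_trans (le_trans (le_trans h.two.1 (Real.exp_le_exp.2 ?_)) hx) h3
    linarith
  · exact one_div_le_one_div_of_le (by norm_num) (by linarith)

theorem m_ge {u q m κ : ℝ} (h : Win u q m κ) : 1000 ≤ m := by
  have hu1 := u_ge h
  have h1 := u4_ge h
  have h2 := Real.add_one_le_exp (u ^ 4)
  rw [h.hm]
  linarith

/-- `m Y ≥ u^60` -/
theorem mY_ge {u q m κ Y A w : ℝ} (h : Apx u q m κ Y A w) : u ^ 60 ≤ m * Y := by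
  obtain ⟨hu0, hm0, -, -, -⟩ := h.win.pos
  have b2 := h.win.big.2.1
  have hY := h.basic.2.2.2.2.2
  have hu2 := u_ge h.win
  have h1 : u ≤ u ^ 4 / 2 := by
    have h3 : (8 : ℝ) ≤ u ^ 3 := by
      calc (8 : ℝ) = 2 ^ 3 := by norm_num
        _ ≤ u ^ 3 := pow_le_pow_left₀ (by norm_num) (by linarith) 3
    have h4 : u * 8 ≤ u * u ^ 3 := mul_le_mul_of_nonneg_left h3 hu0.le
    have h5 : u ^ 4 = u * u ^ 3 := by ring
    linarith
  calc u ^ 60 ≤ Real.exp (u ^ 4 / 1000) := b2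
    _ ≤ Real.exp (u ^ 4 + -u) := Real.exp_le_exp.2 (by
        have : 0 < u ^ 4 := by positivity
        linarith)
    _ = m * Real.exp (-u) := by rw [Real.exp_add, ← h.win.hm]
    _ ≤ m * Y := mul_le_mul_of_nonneg_left hY hm0.le

/-- the terms with `κ` -/
theorem term1 {u q m κ : ℝ} (h : Win u q m κ) :
    -(8 * m - 4) * Phi q κ + 4 * q * κ ≤ 0 := by
  obtain ⟨hu0, hm0, hq0, hk0, hk1⟩ := h.pos
  have e1 := h.el_bds.1
  have hm2 := m_ge h
  have h1 : Fh κ ≤ Phi q κ := Fh_le_Phi hq0 hk0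
  have h2 : Fh κ = κ * (1 + el κ) := by unfold Fh el; ring
  have h3 : κ * (998 / 1000 * u ^ 4) ≤ Phi q κ := by
    refine le_trans ?_ h1
    rw [h2]
    exact mul_le_mul_of_nonneg_left (by linarith) hk0.le
  have h4 : 4 * q * κ ≤ 4 * (1001 / 1000 * (m * u ^ 4)) * κ := by
    have := h.phi
    gcongr
    linarith
  have h5 : (8 * m - 4) * (κ * (998 / 1000 * u ^ 4)) ≤ (8 * m - 4) * Phi q κ :=
    mul_le_mul_of_nonneg_left h3 (by linarith)
  have h6 : 4 * (1001 / 1000 * (m * u ^ 4)) * κ ≤ (8 * m - 4) * (κ * (998 / 1000 * u ^ 4)) := by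
    have h7 : 0 ≤ κ * u ^ 4 := by positivity
    have h8 : 4004 / 1000 * m ≤ (8 * m - 4) * (998 / 1000) := by linarith
    have h9 := mul_le_mul_of_nonneg_right h8 h7
    calc 4 * (1001 / 1000 * (m * u ^ 4)) * κ = 4004 / 1000 * m * (κ * u ^ 4) := by ring
      _ ≤ (8 * m - 4) * (998 / 1000) * (κ * u ^ 4) := h9
      _ = _ := by ring
  linarith

/-- the terms with `Y` -/
theorem term2 {u q m κ Y A w : ℝ} (h : Apx u q m κ Y A w) :
    8 * (m - 2) * Phi q Y ≤ m * Y * (8 + 8 * w + 8 * Real.exp (-(9 / 10) * u ^ 4)) := by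
  obtain ⟨hY0, -, -, -, hlY, -⟩ := h.basic
  have hm2 := m_ge h.win
  have hw1 := h.wlo
  have hlogY : Real.log Y = -w := by rw [h.hw]; ring
  have h1 := h.win.Phi_near hY0 hlY
  set ε : ℝ := Real.exp (-(9 / 10) * u ^ 4) with hε
  have hε0 : 0 < ε := Real.exp_pos _
  have h2 : Phi q Y ≤ Y * (1 + w + ε) := by
    refine h1.trans (le_of_eq ?_)
    unfold Fh
    rw [hlogY]
    ring
  calc 8 * (m - 2) * Phi q Y ≤ 8 * (m - 2) * (Y * (1 + w + ε)) :=
        mul_le_mul_of_nonneg_left h2 (by linarith)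
    _ ≤ 8 * m * (Y * (1 + w + ε)) := by
        apply mul_le_mul_of_nonneg_right (by linarith)
        positivity
    _ = _ := by ring

/-- the value at `A` -/
theorem PhiA {u q m κ Y A w : ℝ} (h : Apx u q m κ Y A w) :
    Phi q A ≤ -(A * (el κ - (2 * w + 3))) := by
  obtain ⟨-, -, a3, a4, a5⟩ := h.A_bds
  have hA0 : 0 < A := by linarith
  have hu50 := u_ge h.win
  have hu4 := u4_ge h.win
  have hlA := (abs_le.1 a4).1
  have hlogA0 : 0 ≤ Real.log A := Real.log_nonneg a3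
  have hlogA1 : Real.log A ≤ u ^ 4 := by
    have := Real.log_le_log hA0 a5
    rwa [h.win.hm, Real.log_exp] at this
  have h1 := h.win.Phi_near hA0 (by rw [abs_of_nonneg hlogA0]; linarith)
  have hε1 : Real.exp (-(9 / 10) * u ^ 4) ≤ 1 := Real.exp_le_one_iff.2 (by linarith)
  refine h1.trans ?_
  unfold Fh
  have h3 : A * (el κ - 2 * w - 1) ≤ A * Real.log A :=
    mul_le_mul_of_nonneg_left (by linarith) hA0.le
  have h4 := mul_le_mul_of_nonneg_left hε1 hA0.le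
  linarith

/-- pure algebra -/
theorem alg {L w m v τ ρ Y A F : ℝ} (hY : 0 ≤ Y) (hw : 0 ≤ w) (hm : 0 ≤ m) (hv : 0 ≤ v)
    (hτ : 0 ≤ τ) (hτ1 : τ ≤ 1) (hbr : 2 * w + 3 ≤ L) (hA : 2 * (Y * ρ) * (1 - τ) ≤ A)
    (hF : F ≤ -(A * (L - (2 * w + 3)))) (h6 : w * m * (1 - v) ≤ 4 * (ρ * L))
    (h7 : 4 * (ρ * (2 * w + 3)) ≤ w * m * v) :
    8 * F ≤ m * Y * (-(4 * w) + 4 * w * (v + τ) + 4 * w * v) := by
  have h5 : 2 * (Y * ρ) * (1 - τ) * (L - (2 * w + 3)) ≤ A * (L - (2 * w + 3)) :=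
    mul_le_mul_of_nonneg_right hA (by linarith)
  have h20 : w * m * (1 - v) * (1 - τ) ≤ 4 * (ρ * L) * (1 - τ) :=
    mul_le_mul_of_nonneg_right h6 (by linarith)
  have h21 : 4 * (ρ * (2 * w + 3)) * (1 - τ) ≤ w * m * v * 1 := by
    apply mul_le_mul h7 (by linarith) (by linarith) (by positivity)
  have h22 : w * m * (1 - (v + τ)) - w * m * v ≤ 4 * (ρ * (1 - τ) * (L - (2 * w + 3))) := by
    have h23 : 0 ≤ w * m * (v * τ) := by positivity
    have h24 : w * m * (1 - v) * (1 - τ) = w * m * (1 - (v + τ)) + w * m * (v * τ) := by ring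
    have h25 : 4 * (ρ * (1 - τ) * (L - (2 * w + 3))) =
        4 * (ρ * L) * (1 - τ) - 4 * (ρ * (2 * w + 3)) * (1 - τ) := by ring
    rw [h25]
    linarith
  have h26 := mul_le_mul_of_nonneg_left h22 (by positivity : 0 ≤ 4 * Y)
  calc 8 * F ≤ -(8 * (A * (L - (2 * w + 3)))) := by linarith
    _ ≤ -(8 * (2 * (Y * ρ) * (1 - τ) * (L - (2 * w + 3)))) := by linarith
    _ = -(4 * Y * (4 * (ρ * (1 - τ) * (L - (2 * w + 3))))) := by ring
    _ ≤ -(4 * Y * (w * m * (1 - (v + τ)) - w * m * v)) := by linarith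
    _ = _ := by ring

/-- the term with `A` -/
theorem term3 {u q m κ Y A w : ℝ} (h : Apx u q m κ Y A w) :
    8 * Phi q A ≤ m * Y * (-(4 * w) + 4 * w * (1 / u + (2 : ℝ) ^ (-(q + 1))) + 4 * w * (1 / u)) := by
  obtain ⟨hu0, hm0, hq0, hk0, hk1⟩ := h.win.pos
  have e1 := h.win.el_bds.1
  obtain ⟨hY0, hY3, -, hwu, -, -⟩ := h.basic
  obtain ⟨r1, r2⟩ := h.ratio
  have a2 := h.A_bds.2.1
  obtain ⟨-, s2, s4⟩ := smalls h.win
  have hw1 := h.wlo
  have hu50 := u_ge h.win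
  have hu4 := u4_ge h.win
  have hel : 0 < el κ := by linarith
  set v : ℝ := 1 / u with hv
  have hv0 : 0 < v := by positivity
  have hρ0 : 0 < Y / κ := by positivity
  have hAρ : 2 * Y ^ 2 / κ = 2 * (Y * (Y / κ)) := by field_simp
  rw [hAρ] at a2
  refine alg (L := el κ) (ρ := Y / κ) (A := A) hY0.le (by linarith) hm0.le hv0.le
    (Real.rpow_nonneg (by norm_num) _) (by linarith) (by linarith) a2 (PhiA h) ?_ ?_
  · have := mul_le_mul_of_nonneg_right r1 (by positivity : 0 ≤ 4 * el κ)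
    calc w * m * (1 - v) = w * m / (4 * el κ) * (1 - v) * (4 * el κ) := by field_simp
      _ ≤ Y / κ * (4 * el κ) := this
      _ = _ := by ring
  · have h8 : 4 * (Y / κ) ≤ w * m * (2 / el κ) := by
      calc 4 * (Y / κ) ≤ 4 * (w * m / (4 * el κ) * (1 + v)) :=
            mul_le_mul_of_nonneg_left r2 (by norm_num)
        _ ≤ 4 * (w * m / (4 * el κ) * 2) := by
            gcongr
            linarith
        _ = _ := by field_simp
    have h9 : 2 / el κ * (2 * w + 3) ≤ v := by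
      rw [div_mul_eq_mul_div, div_le_iff₀ hel]
      have h10 : 2 * u * u ≤ el κ := by
        have h11 : 2 * u * u ≤ 998 / 1000 * u ^ 4 := by
          have h12 : (3 : ℝ) ≤ u * u := by
            calc (3 : ℝ) ≤ u * 1 := by linarith
              _ ≤ u * u := mul_le_mul_of_nonneg_left (by linarith) hu0.le
          have h13 : 3 * (u * u) ≤ (u * u) * (u * u) :=
            mul_le_mul_of_nonneg_right h12 (by positivity)
          have h14 : u ^ 4 = (u * u) * (u * u) := by ring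
          rw [h14]
          linarith
        linarith
      calc 2 * (2 * w + 3) ≤ 2 * u := by linarith
        _ = v * (2 * u * u) := by rw [hv]; field_simp
        _ ≤ v * el κ := mul_le_mul_of_nonneg_left h10 hv0.le
    calc 4 * (Y / κ * (2 * w + 3)) = 4 * (Y / κ) * (2 * w + 3) := by ring
      _ ≤ w * m * (2 / el κ) * (2 * w + 3) :=
          mul_le_mul_of_nonneg_right h8 (by linarith)
      _ = w * m * (2 / el κ * (2 * w + 3)) := by ring
      _ ≤ w * m * v := mul_le_mul_of_nonneg_left h9 (mul_nonneg (by linarith) hm0.le)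

/-- the far pair -/
theorem term4 {u q m κ Y A w : ℝ} (h : Apx u q m κ Y A w) :
    4 * Phi q ((2 : ℝ) ^ (-(q + 1)) * A) - 4 * q * ((2 : ℝ) ^ (-(q + 1)) * A) ≤
      m * Y * (w * (1 / u)) := by
  obtain ⟨hu0, hm0, hq0, hk0, hk1⟩ := h.win.pos
  have hmY := mY_ge h
  have hw1 := h.wlo
  have a3 := h.A_bds.2.2.1
  have hu50 := u_ge h.win
  have h1 := Phi_le_one (K := (2 : ℝ) ^ (-(q + 1)) * A) hq0
  have h2 : 0 ≤ 4 * q * ((2 : ℝ) ^ (-(q + 1)) * A) := by
    have : 0 < A := by linarith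
    positivity
  have h3 : u * u ≤ m * Y := by
    refine le_trans ?_ hmY
    calc u * u = u ^ 2 := by ring
      _ ≤ u ^ 60 := pow_le_pow_right₀ (by linarith) (by norm_num)
  have hw0 : 0 < w := by linarith
  have h4mY : 4 ≤ m * Y * (w * (1 / u)) := by
    calc (4 : ℝ) ≤ u * 1 := by linarith
      _ ≤ u * w := mul_le_mul_of_nonneg_left (by linarith) hu0.le
      _ = u * u * (w * (1 / u)) := by field_simp
      _ ≤ m * Y * (w * (1 / u)) := mul_le_mul_of_nonneg_right h3 (by positivity)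
  linarith

end SqUpAux

open SqUpAux

/-- MODULE RW26 (upper bound of the value of the lifted square).
`Esq - Base = -(8m - 4) Φ(κ) + 4 q κ + 8 (m-2) Φ(Y) + 8 Φ(A) + 4 Φ(ko) - 4 q ko`, `ko = 2^(-p) A`.
* `Φ(κ) ≥ Fh κ = κ (1 + el κ)`, `q ≤ 1.001 m u^4`, `el κ ≥ 0.998 u^4`: the first two terms are `≤ 0`;
* `Φ(Y) ≤ Fh Y + Y exp(-0.9 u^4) = Y (1 + w + exp(-0.9 u^4))`;
* `Φ(A) ≤ Fh A + A exp(-0.9 u^4)`, `Fh A = -A (log A - 1)`, `log A ≥ el κ - 2 w - 1`,
  `A ≥ (2Y²/κ)(1 - 2^(-p))`, `8 · (2Y²/κ) el κ = 4 Y (4 Y el κ)/κ ≥ 4 w m Y (1 - 1/u)`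
  (`Apx.rel`), `16 Y²/κ (2 w + 3) ≤ m Y · 4 w (1+1/u)(2w+3)/el κ`;
* `Φ(ko) ≤ Fh ko + ko exp(..)` or `Φ ≤ 1`; it is at most `1 ≤ m Y w/u`. -/
theorem E_up {u q m κ Y A w : ℝ} (h : Apx u q m κ Y A w) :
    Esq q m κ Y A ≤ Base q m κ + m * Y * (8 + 4 * w + 20 * w / u) := by
  have t1 := term1 h.win
  have t2 := term2 h
  have t3 := term3 h
  have t4 := term4 h
  obtain ⟨hu0, hm0, -, -, -⟩ := h.win.pos
  have hY0 := h.basic.1
  obtain ⟨s1, s2, s4⟩ := smalls h.win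
  have hw1 := h.wlo
  have hE : Esq q m κ Y A = Base q m κ + ((-(8 * m - 4) * Phi q κ + 4 * q * κ)
      + 8 * (m - 2) * Phi q Y + 8 * Phi q A + (4 * Phi q ((2 : ℝ) ^ (-(q + 1)) * A)
        - 4 * q * ((2 : ℝ) ^ (-(q + 1)) * A))) := by
    unfold Esq Base
    ring
  rw [hE]
  generalize (2 : ℝ) ^ (-(q + 1)) = τ at *
  generalize Real.exp (-(9 / 10) * u ^ 4) = ε at *
  have h1 : 20 * w / u = 20 * (w * (1 / u)) := by ring
  rw [h1]
  have hv0 : 0 < 1 / u := by positivity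
  generalize 1 / u = v at *
  have hmY0 : 0 < m * Y := by positivity
  have hv1 : v ≤ w * v := by
    calc v = 1 * v := (one_mul v).symm
      _ ≤ w * v := mul_le_mul_of_nonneg_right (by linarith) hv0.le
  have hτv : 4 * w * τ ≤ w * v := by
    have h2 : 4 * τ ≤ v := by linarith
    calc 4 * w * τ = w * (4 * τ) := by ring
      _ ≤ w * v := mul_le_mul_of_nonneg_left h2 (by linarith)
  have h2 : 8 + 8 * w + 8 * ε + (-(4 * w) + 4 * w * (v + τ) + 4 * w * v) + w * v ≤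
      8 + 4 * w + 20 * (w * v) := by linarith
  have h3 := mul_le_mul_of_nonneg_left h2 hmY0.le
  linarith

theorem E_lt_exp {u q m κ Y A w : ℝ} (h : Apx u q m κ Y A w) :
    Esq q m κ Y A < Real.exp (6 / 5 * u ^ 4) := by
  have h1 := E_up h
  have h2 := h.win.Base_le
  obtain ⟨hu0, hm0, hq0, hk0, hk1⟩ := h.win.pos
  have b2 := h.win.big.2.1
  obtain ⟨hY0, hY3, -, hwu, -, -⟩ := h.basic
  have hw1 := h.wlo
  have hu50 := u_ge h.win
  have hu4 := u4_ge h.win
  have h3 : 20 * w / u ≤ 1 := by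
    rw [div_le_one hu0]
    linarith
  have h30 : 0 ≤ 20 * w / u := by
    apply div_nonneg _ hu0.le
    linarith
  have h4 : m * Y * (8 + 4 * w + 20 * w / u) ≤ Real.exp (11 / 10 * u ^ 4) := by
    calc m * Y * (8 + 4 * w + 20 * w / u) ≤ m * 1 * u := by
          apply mul_le_mul
          · exact mul_le_mul_of_nonneg_left (by linarith) hm0.le
          · linarith
          · linarith
          · linarith
      _ = m * u := by ring
      _ ≤ m * Real.exp (u ^ 4 / 1000) := by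
          apply mul_le_mul_of_nonneg_left _ hm0.le
          refine le_trans ?_ b2
          calc u = u ^ 1 := (pow_one u).symm
            _ ≤ u ^ 60 := pow_le_pow_right₀ (by linarith) (by norm_num)
      _ = Real.exp (u ^ 4 + u ^ 4 / 1000) := by rw [Real.exp_add, ← h.win.hm]
      _ ≤ Real.exp (11 / 10 * u ^ 4) := Real.exp_le_exp.2 (by linarith)
  have h5 : Real.exp (6 / 5 * u ^ 4) = Real.exp (11 / 10 * u ^ 4) * Real.exp (1 / 10 * u ^ 4) := by
    rw [← Real.exp_add]; congr 1; ring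
  have h6 : (2 : ℝ) < Real.exp (1 / 10 * u ^ 4) := by
    have := Real.add_one_le_exp (1 / 10 * u ^ 4)
    linarith
  have h7 : 0 < Real.exp (11 / 10 * u ^ 4) := Real.exp_pos _
  rw [h5]
  have h8 := mul_lt_mul_of_pos_left h6 h7
  linarith

end Pool.Agent.RieszWin
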