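import Pool.Agent.RieszWin.FhF

set_option autoImplicit false

open Real Finset

namespace Pool.Agent.RieszWin

/-- `4 t e^v (1 + a - v - log t) + 4 e^v (1 + a - v) - 4 a t e^(2v)`, the limit functional near the
square (`Fh (t Y e^v) / Y = t e^v (1 + a - v - log t)` for `Y = exp(-a)`). -/
noncomputable def W4 (a t v : ℝ) : ℝ :=
  4 * t * Real.exp v * (1 + a - v - Real.log t) + 4 * Real.exp v * (1 + a - v)
    - 4 * a * t * Real.exp (2 * v)

namespace TabCAux

lemma Gbound (c L a0 E Elo Ehi t tlo thi : ℝ) (hc : 0 ≤ c) (hL : 0 ≤ c + L) (ha : 0 ≤ a0)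
    (hElo : 0 ≤ Elo) (h1 : Elo ≤ E) (h2 : E ≤ Ehi) (htlo : 0 ≤ tlo) (h3 : tlo ≤ t) (h4 : t ≤ thi) :
    4 * tlo * Elo * (c + L) + 4 * Elo * c - 4 * a0 * thi * Ehi ^ 2 ≤
      4 * t * E * (c + L) + 4 * E * c - 4 * a0 * t * E ^ 2 := by
  have hE : 0 ≤ E := hElo.trans h1
  have ht : 0 ≤ t := htlo.trans h3
  have e1 : tlo * Elo ≤ t * E := mul_le_mul h3 h1 hElo ht
  have e2 : tlo * Elo * (c + L) ≤ t * E * (c + L) := mul_le_mul_of_nonneg_right e1 hL
  have e3 : Elo * c ≤ E * c := mul_le_mul_of_nonneg_right h1 hc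
  have e4 : t * E ^ 2 ≤ thi * Ehi ^ 2 :=
    mul_le_mul h4 (pow_le_pow_left₀ hE h2 2) (by positivity) (ht.trans h4)
  have e5 : a0 * (t * E ^ 2) ≤ a0 * (thi * Ehi ^ 2) := mul_le_mul_of_nonneg_left e4 ha
  nlinarith

lemma seg (a0 R t1 t2 L1 L2 t v : ℝ) (h12 : t1 < t2) (ht1 : t1 ≤ t) (ht2 : t ≤ t2) (h0 : 0 ≤ t1)
    (hL1 : Real.negMulLog t1 = t1 * L1) (hL2 : Real.negMulLog t2 = t2 * L2)
    (G1 : R ≤ 4 * t1 * Real.exp v * ((1 + a0 - v) + L1) + 4 * Real.exp v * (1 + a0 - v)
      - 4 * a0 * t1 * Real.exp v ^ 2)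
    (G2 : R ≤ 4 * t2 * Real.exp v * ((1 + a0 - v) + L2) + 4 * Real.exp v * (1 + a0 - v)
      - 4 * a0 * t2 * Real.exp v ^ 2) :
    R ≤ W4 a0 t v := by
  have hd : 0 < t2 - t1 := by linarith
  set s := (t - t1) / (t2 - t1) with hs
  have hs0 : 0 ≤ s := by
    apply div_nonneg _ hd.le
    linarith
  have hs1 : 0 ≤ 1 - s := by
    rw [sub_nonneg, hs, div_le_one hd]
    linarith
  have ht : (1 - s) * t1 + s * t2 = t := by
    rw [hs]
    field_simp
    ring
  have hconc := Real.concaveOn_negMulLog.2 (Set.mem_Ici.2 h0) (Set.mem_Ici.2 (h0.trans h12.le))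
    hs1 hs0 (by ring)
  simp only [smul_eq_mul] at hconc
  rw [ht, hL1, hL2] at hconc
  have hE := Real.exp_pos v
  have hE2 : Real.exp (2 * v) = Real.exp v ^ 2 := by
    rw [two_mul, Real.exp_add]
    ring
  have hneg : Real.negMulLog t = -(t * Real.log t) := by
    rw [Real.negMulLog]
    ring
  rw [hneg] at hconc
  unfold W4
  rw [hE2]
  have m1 := mul_le_mul_of_nonneg_left G1 hs1
  have m2 := mul_le_mul_of_nonneg_left G2 hs0
  have m3 := mul_le_mul_of_nonneg_left hconc (show (0 : ℝ) ≤ 4 * Real.exp v by positivity)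
  have e1 : (1 - s) * (4 * t1 * Real.exp v * ((1 + a0 - v) + L1) + 4 * Real.exp v * (1 + a0 - v)
      - 4 * a0 * t1 * Real.exp v ^ 2) +
      s * (4 * t2 * Real.exp v * ((1 + a0 - v) + L2) + 4 * Real.exp v * (1 + a0 - v)
      - 4 * a0 * t2 * Real.exp v ^ 2) =
      4 * ((1 - s) * t1 + s * t2) * Real.exp v * (1 + a0 - v) +
      4 * Real.exp v * ((1 - s) * (t1 * L1) + s * (t2 * L2)) + 4 * Real.exp v * (1 + a0 - v)
      - 4 * a0 * ((1 - s) * t1 + s * t2) * Real.exp v ^ 2 := by ring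
  rw [ht] at e1
  linarith

lemma mono_a (a a0 t v : ℝ) (ha : a0 ≤ a) (hv : 0 ≤ v) (ht : t * Real.exp v ≤ 1) :
    W4 a0 t v - 4 * a0 ≤ W4 a t v - 4 * a := by
  have hE2 : Real.exp (2 * v) = Real.exp v ^ 2 := by
    rw [two_mul, Real.exp_add]
    ring
  have hE1 : 1 ≤ Real.exp v := Real.one_le_exp hv
  have h : (W4 a t v - 4 * a) - (W4 a0 t v - 4 * a0) =
      4 * ((a - a0) * ((1 - t * Real.exp v) * (Real.exp v - 1))) := by
    unfold W4
    rw [hE2]
    ring
  have h2 : 0 ≤ (a - a0) * ((1 - t * Real.exp v) * (Real.exp v - 1)) := by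
    apply mul_nonneg (by linarith)
    apply mul_nonneg <;> linarith
  linarith

lemma exp56 : (17506 / 10000 : ℝ) ≤ Real.exp (56 / 100) ∧ Real.exp (56 / 100) ≤ 17507 / 10000 := by
  constructor
  · have h := Real.sum_le_exp_of_nonneg (x := (56 / 100 : ℝ)) (by norm_num) 7
    refine le_trans ?_ h
    norm_num [Finset.sum_range_succ, Nat.factorial]
  · have h := Real.exp_bound' (x := (56 / 100 : ℝ)) (by norm_num) (by norm_num) (n := 8)
      (by norm_num)
    refine le_trans h ?_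
    norm_num [Finset.sum_range_succ, Nat.factorial]

lemma exp98 : (26644 / 10000 : ℝ) ≤ Real.exp (98 / 100) ∧ Real.exp (98 / 100) ≤ 26645 / 10000 := by
  constructor
  · have h := Real.sum_le_exp_of_nonneg (x := (98 / 100 : ℝ)) (by norm_num) 9
    refine le_trans ?_ h
    norm_num [Finset.sum_range_succ, Nat.factorial]
  · have h := Real.exp_bound' (x := (98 / 100 : ℝ)) (by norm_num) (by norm_num) (n := 9)
      (by norm_num)
    refine le_trans h ?_
    norm_num [Finset.sum_range_succ, Nat.factorial]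

lemma exp107 : (29153 / 10000 : ℝ) ≤ Real.exp (107 / 100) ∧
    Real.exp (107 / 100) ≤ 29154 / 10000 := by
  have e : Real.exp (107 / 100) = Real.exp (1 / 2) * Real.exp (57 / 100) := by
    rw [← Real.exp_add]
    norm_num
  have a1 : (16487 / 10000 : ℝ) ≤ Real.exp (1 / 2) := by
    have h := Real.sum_le_exp_of_nonneg (x := (1 / 2 : ℝ)) (by norm_num) 8
    refine le_trans ?_ h
    norm_num [Finset.sum_range_succ, Nat.factorial]
  have a2 : Real.exp (1 / 2) ≤ 164873 / 100000 := by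
    have h := Real.exp_bound' (x := (1 / 2 : ℝ)) (by norm_num) (by norm_num) (n := 8)
      (by norm_num)
    refine le_trans h ?_
    norm_num [Finset.sum_range_succ, Nat.factorial]
  have b1 : (176826 / 100000 : ℝ) ≤ Real.exp (57 / 100) := by
    have h := Real.sum_le_exp_of_nonneg (x := (57 / 100 : ℝ)) (by norm_num) 8
    refine le_trans ?_ h
    norm_num [Finset.sum_range_succ, Nat.factorial]
  have b2 : Real.exp (57 / 100) ≤ 176827 / 100000 := by
    have h := Real.exp_bound' (x := (57 / 100 : ℝ)) (by norm_num) (by norm_num) (n := 8)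
      (by norm_num)
    refine le_trans h ?_
    norm_num [Finset.sum_range_succ, Nat.factorial]
  rw [e]
  have p1 : (0 : ℝ) < Real.exp (1 / 2) := Real.exp_pos _
  have p2 : (0 : ℝ) < Real.exp (57 / 100) := Real.exp_pos _
  constructor
  · calc (29153 / 10000 : ℝ) ≤ 16487 / 10000 * (176826 / 100000) := by norm_num
      _ ≤ _ := mul_le_mul a1 b1 (by norm_num) p1.le
  · calc Real.exp (1 / 2) * Real.exp (57 / 100) ≤ 164873 / 100000 * (176827 / 100000) :=
        mul_le_mul a2 b2 p2.le (by norm_num)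
      _ ≤ _ := by norm_num

lemma expm1 : (36787 / 100000 : ℝ) ≤ Real.exp (-1) ∧ Real.exp (-1) ≤ 36788 / 100000 := by
  have h1 := Real.exp_one_gt_d9
  have h2 := Real.exp_one_lt_d9
  have h3 : Real.exp (-1) = 1 / Real.exp 1 := by
    rw [Real.exp_neg, one_div]
  rw [h3]
  constructor
  · rw [le_div_iff₀ (by linarith)]
    linarith
  · rw [div_le_iff₀ (by linarith)]
    linarith

lemma expm2 : (1353 / 10000 : ℝ) ≤ Real.exp (-2) ∧ Real.exp (-2) ≤ 1354 / 10000 := by
  have h := expm1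
  have e : Real.exp (-2) = Real.exp (-1) * Real.exp (-1) := by
    rw [← Real.exp_add]
    norm_num
  rw [e]
  constructor <;> nlinarith [h.1, h.2]

lemma expm4 : (183 / 10000 : ℝ) ≤ Real.exp (-4) ∧ Real.exp (-4) ≤ 184 / 10000 := by
  have h := expm2
  have e : Real.exp (-4) = Real.exp (-2) * Real.exp (-2) := by
    rw [← Real.exp_add]
    norm_num
  rw [e]
  constructor <;> nlinarith [h.1, h.2]

lemma expm5 : (673 / 100000 : ℝ) ≤ Real.exp (-5) ∧ Real.exp (-5) ≤ 677 / 100000 := by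
  have h := expm4
  have h1 := expm1
  have e : Real.exp (-5) = Real.exp (-4) * Real.exp (-1) := by
    rw [← Real.exp_add]
    norm_num
  have p := Real.exp_pos (-4)
  have q := Real.exp_pos (-1)
  rw [e]
  constructor <;> nlinarith [h.1, h.2, h1.1, h1.2]

lemma nml (k : ℝ) : Real.negMulLog (Real.exp (-k)) = Real.exp (-k) * k := by
  rw [Real.negMulLog, Real.log_exp]
  ring

end TabCAux

open TabCAux

/-- MODULE RW20 (coverage on the square side). For `t e^v < 1` the difference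
`W4 a t v - (8 + 4 a)` is nondecreasing in `a` (derivative
`4 t e^v + 4 e^v - 4 t e^(2v) - 4 = 4 (1 - t e^v)(e^v - 1)`), so `a = 577/500 = 1.154` is the worst
case. It is concave in `t` (`-t log t` is concave; at `t = 0` use `0 * log 0 = 0`).
Values of `W4 1.154 t v - 8 - 4.616`:
`v = 56/100`: `t = 0.369`: `0.0209`, `t = 0.135`: `0.0363`;
`v = 98/100`: `t = 0.135`: `0.0426`, `t = 0.0031`: `0.0243`;
`v = 107/100`: `t = 0.0031`: `0.1514`, `t = 0`: `0.0250`. -/
theorem tabC {a t : ℝ} (ha : 577 / 500 ≤ a) (h1 : 0 ≤ t) (h2 : t ≤ Real.exp (-1)) :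
    ∃ v : ℝ, 1 / 2 ≤ v ∧ v ≤ 11 / 10 ∧ 8 + 4 * a + 1 / 100 ≤ W4 a t v := by
  have key : ∀ v : ℝ, 0 ≤ v → t * Real.exp v ≤ 1 →
      8 + 4 * (577 / 500) + 1 / 100 ≤ W4 (577 / 500) t v →
      8 + 4 * a + 1 / 100 ≤ W4 a t v := by
    intro v hv ht hW
    have := mono_a a (577 / 500) t v ha hv ht
    linarith
  have E1 := expm1
  have E2 := expm2
  have E5 := expm5
  rcases le_total (Real.exp (-2)) t with h | h
  · refine ⟨56 / 100, by norm_num, by norm_num, key _ (by norm_num) ?_ ?_⟩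
    · have := exp56
      have p := Real.exp_pos (56 / 100)
      calc t * Real.exp (56 / 100) ≤ (36788 / 100000) * (17507 / 10000) :=
          mul_le_mul (h2.trans E1.2) this.2 p.le (by norm_num)
        _ ≤ 1 := by norm_num
    · apply seg (577 / 500) _ (Real.exp (-2)) (Real.exp (-1)) 2 1 t (56 / 100)
        (Real.exp_lt_exp.2 (by norm_num)) h h2 (Real.exp_pos _).le (nml 2) (nml 1)
      · refine le_trans ?_ (Gbound (1 + 577 / 500 - 56 / 100) 2 (577 / 500) _ _ _ _ _ _
          (by norm_num) (by norm_num) (by norm_num) (by norm_num) exp56.1 exp56.2 (by norm_num)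
          E2.1 E2.2)
        norm_num
      · refine le_trans ?_ (Gbound (1 + 577 / 500 - 56 / 100) 1 (577 / 500) _ _ _ _ _ _
          (by norm_num) (by norm_num) (by norm_num) (by norm_num) exp56.1 exp56.2 (by norm_num)
          E1.1 E1.2)
        norm_num
  · rcases le_total (Real.exp (-5)) t with h5 | h5
    · refine ⟨98 / 100, by norm_num, by norm_num, key _ (by norm_num) ?_ ?_⟩
      · have := exp98
        have p := Real.exp_pos (98 / 100)
        calc t * Real.exp (98 / 100) ≤ (1354 / 10000) * (26645 / 10000) :=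
            mul_le_mul (h.trans E2.2) this.2 p.le (by norm_num)
          _ ≤ 1 := by norm_num
      · apply seg (577 / 500) _ (Real.exp (-5)) (Real.exp (-2)) 5 2 t (98 / 100)
          (Real.exp_lt_exp.2 (by norm_num)) h5 h (Real.exp_pos _).le (nml 5) (nml 2)
        · refine le_trans ?_ (Gbound (1 + 577 / 500 - 98 / 100) 5 (577 / 500) _ _ _ _ _ _
            (by norm_num) (by norm_num) (by norm_num) (by norm_num) exp98.1 exp98.2 (by norm_num)
            E5.1 E5.2)
          norm_num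
        · refine le_trans ?_ (Gbound (1 + 577 / 500 - 98 / 100) 2 (577 / 500) _ _ _ _ _ _
            (by norm_num) (by norm_num) (by norm_num) (by norm_num) exp98.1 exp98.2 (by norm_num)
            E2.1 E2.2)
          norm_num
    · refine ⟨107 / 100, by norm_num, by norm_num, key _ (by norm_num) ?_ ?_⟩
      · have := exp107
        have p := Real.exp_pos (107 / 100)
        calc t * Real.exp (107 / 100) ≤ (677 / 100000) * (29154 / 10000) :=
            mul_le_mul (h5.trans E5.2) this.2 p.le (by norm_num)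
          _ ≤ 1 := by norm_num
      · apply seg (577 / 500) _ 0 (Real.exp (-5)) 0 5 t (107 / 100)
          (Real.exp_pos _) h1 h5 le_rfl (by simp) (nml 5)
        · refine le_trans ?_ (Gbound (1 + 577 / 500 - 107 / 100) 0 (577 / 500) _ _ _ 0 0 0
            (by norm_num) (by norm_num) (by norm_num) (by norm_num) exp107.1 exp107.2 (by norm_num)
            le_rfl le_rfl)
          norm_num
        · refine le_trans ?_ (Gbound (1 + 577 / 500 - 107 / 100) 5 (577 / 500) _ _ _ _ _ _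
            (by norm_num) (by norm_num) (by norm_num) (by norm_num) exp107.1 exp107.2
            (by norm_num) E5.1 E5.2)
          norm_num

/-- the same functional for `t e^(2v) = 1`: `W4 = 8 (1 + a) cosh v - 8 v sinh v - 4 a`, and
`v sinh v ≤ (2 + v²/6)(cosh v - 1)` (`vsinh_le`), `cosh v - 1 ≥ v²/2`; `v² ≤ 1/4`,
`a - 1 - 1/24 ≥ 7/100`. -/
theorem W4_near {a v : ℝ} (ha : 28 / 25 ≤ a) (h1 : 0 ≤ v) (h2 : v ≤ 1 / 2) :
    8 + 4 * a + 1 / 4 * v ^ 2 ≤ W4 a (Real.exp (-(2 * v))) v := by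
  have e1 : Real.exp (-(2 * v)) * Real.exp v = Real.exp (-v) := by
    rw [← Real.exp_add]
    congr 1
    ring
  have e2 : Real.exp (-(2 * v)) * Real.exp (2 * v) = 1 := by
    rw [← Real.exp_add, neg_add_cancel, Real.exp_zero]
  have hW : W4 a (Real.exp (-(2 * v))) v =
      8 * (1 + a) * Real.cosh v - 8 * (v * Real.sinh v) - 4 * a := by
    unfold W4
    rw [Real.log_exp, Real.cosh_eq, Real.sinh_eq]
    have e3 : 4 * Real.exp (-(2 * v)) * Real.exp v * (1 + a - v - -(2 * v)) =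
        4 * (Real.exp (-(2 * v)) * Real.exp v) * (1 + a - v - -(2 * v)) := by ring
    have e4 : 4 * a * Real.exp (-(2 * v)) * Real.exp (2 * v) =
        4 * a * (Real.exp (-(2 * v)) * Real.exp (2 * v)) := by ring
    rw [e3, e4, e1, e2]
    ring
  rw [hW]
  have h3 := vsinh_le v
  have h4 : v ^ 2 / 2 ≤ Real.cosh v - 1 := by
    have e5 : Real.cosh v = Real.cosh (v / 2) ^ 2 + Real.sinh (v / 2) ^ 2 := by
      rw [← Real.cosh_two_mul]
      congr 1
      ring
    have e6 := Real.cosh_sq (v / 2)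
    have e7 : v / 2 ≤ Real.sinh (v / 2) := Real.self_le_sinh_iff.2 (by linarith)
    have e8 : (v / 2) ^ 2 ≤ Real.sinh (v / 2) ^ 2 := pow_le_pow_left₀ (by linarith) e7 2
    nlinarith
  have hv2 : v ^ 2 ≤ 1 / 4 := by nlinarith
  have h5 : 0 ≤ (Real.cosh v - 1 - v ^ 2 / 2) * (a - 1 - v ^ 2 / 6) := by
    apply mul_nonneg
    · linarith
    · nlinarith
  nlinarith [h3, h5, sq_nonneg v, mul_nonneg (sq_nonneg v) (sq_nonneg v)]

end Pool.Agent.RieszWin
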