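import Pool.Agent.RieszWin.FV
import Pool.Agent.RieszWin.SqUp
import Pool.Agent.RieszWin.TabC

set_option autoImplicit false

open Real Finset

namespace Pool.Agent.RieszWin

open Pool.Agent.RieszSmall Pool.Agent.RieszLin Pool.Agent.RieszTr

namespace SqFarAux

theorem exp_le {v : ℝ} (hv : v ≤ 11 / 10) : Real.exp v ≤ 301 / 100 := by
  have h1 : Real.exp (1 / 10 : ℝ) ≤ 11052 / 10000 := by
    by_contra hcon
    push Not at hcon
    have h2 : ((11052 : ℝ) / 10000) ^ 10 < (Real.exp (1 / 10 : ℝ)) ^ 10 :=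
      pow_lt_pow_left₀ hcon (by norm_num) (by norm_num)
    have h3 : (Real.exp (1 / 10 : ℝ)) ^ 10 = Real.exp 1 := by
      rw [← Real.exp_nat_mul]
      norm_num
    rw [h3] at h2
    have h4 := Real.exp_one_lt_d9
    have h5 : (2.7182818286 : ℝ) < ((11052 : ℝ) / 10000) ^ 10 := by norm_num
    linarith
  have h2 : Real.exp v ≤ Real.exp (11 / 10) := Real.exp_le_exp.mpr hv
  have h3 : Real.exp (11 / 10 : ℝ) = Real.exp 1 * Real.exp (1 / 10) := by
    rw [← Real.exp_add]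
    norm_num
  have h4 := Real.exp_one_lt_d9
  have h5 : Real.exp 1 * Real.exp (1 / 10 : ℝ) ≤ 2.7182818286 * (11052 / 10000) :=
    mul_le_mul h4.le h1 (Real.exp_pos _).le (by norm_num)
  rw [h3] at h2
  have h6 : (2.7182818286 : ℝ) * (11052 / 10000) ≤ 301 / 100 := by norm_num
  linarith

section

variable {ι : Type*} [Fintype ι] [DecidableEq ι]

theorem rel_neg {a : ι → ℝ} (ha : Rel a) : Rel (fun i => -a i) := by
  refine ⟨?_, ?_⟩
  · rw [Finset.sum_neg_distrib, ha.sum, neg_zero]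
  · simp only [abs_neg]
    exact ha.abs

theorem Pm_le_one {u : ℝ} {a : ι → ℝ} (ha : Rel a) : Pm u a ≤ 1 := by
  have h1 : Pm u a ≤ ∑ i ∈ HP u a, (|a i| + a i) / 2 := by
    refine Finset.sum_le_sum fun i _ => ?_
    have := le_abs_self (a i)
    linarith
  have h2 : ∑ i ∈ HP u a, (|a i| + a i) / 2 ≤ ∑ i, (|a i| + a i) / 2 := by
    refine Finset.sum_le_sum_of_subset_of_nonneg (Finset.subset_univ _) fun i _ _ => ?_
    have := neg_abs_le (a i)
    linarith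
  have h3 : ∑ i, (|a i| + a i) / 2 = 1 := by
    rw [← Finset.sum_div, Finset.sum_add_distrib, ha.abs, ha.sum]
    norm_num
  linarith

theorem pos_of_HP {u : ℝ} {a : ι → ℝ} {i : ι} (hi : i ∈ HP u a) : 0 < a i := by
  rw [HP, Finset.mem_filter] at hi
  exact lt_trans (Real.exp_pos _) hi.2

theorem R3n {u : ℝ} {a : ι → ℝ} {p q : ι} : 0 ≤ R3 u a p q :=
  Finset.sum_nonneg fun _ hi => (pos_of_HP (Finset.mem_filter.mp hi).1).le

theorem R3_le {u : ℝ} {a : ι → ℝ} {p q : ι} : R3 u a p q ≤ Pm u a :=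
  Finset.sum_le_sum_of_subset_of_nonneg (Finset.filter_subset _ _) fun _ hi _ => (pos_of_HP hi).le

theorem two_abs_le {u : ℝ} {a : ι → ℝ} (hn : NonDom u a) (hn' : NonDom u (fun i => -a i))
    (hle : Pm u a ≤ Pm u (fun i => -a i)) (h0Q : 0 ≤ Pm u (fun i => -a i)) (i : ι) :
    2 * |a i| ≤ Pm u (fun i => -a i) + Real.exp (-(3 / 10) * u ^ 4) + 2 * h0 u := by
  have hh : 0 < h0 u := Real.exp_pos _
  have he : 0 < Real.exp (-(3 / 10) * u ^ 4) := Real.exp_pos _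
  by_cases h1 : h0 u < a i
  · have h2 := hn i (Finset.mem_filter.mpr ⟨Finset.mem_univ _, h1⟩)
    rw [abs_of_pos (hh.trans h1)]
    linarith
  · by_cases h3 : h0 u < -a i
    · have h2 := hn' i (Finset.mem_filter.mpr ⟨Finset.mem_univ _, h3⟩)
      have h4 : |a i| = -a i := abs_of_neg (by linarith)
      rw [h4]
      linarith
    · push Not at h1 h3
      have h4 : |a i| ≤ h0 u := abs_le.mpr ⟨by linarith, h1⟩
      linarith

end

theorem tiny {U c : ℝ} (hU : (10 : ℝ) ^ 80 ≤ U) (hc : 3 / 10 ≤ c) :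
    Real.exp (-c * U) ≤ 1 / 1000 := by
  have h0 : (0 : ℝ) < 10 ^ 80 := by positivity
  have h1 : (3 / 10 : ℝ) * 10 ^ 80 ≤ c * U := mul_le_mul hc hU h0.le (by linarith)
  have h2 : (1000 : ℝ) ≤ (3 / 10 : ℝ) * 10 ^ 80 := by norm_num
  have h3 := Real.add_one_le_exp (c * U)
  have h4 : (1000 : ℝ) ≤ Real.exp (c * U) := by linarith
  rw [neg_mul, Real.exp_neg, one_div]
  exact inv_anti₀ (by norm_num) h4

theorem tlog {t : ℝ} (h0 : 0 ≤ t) : t * (-Real.log t) ≤ 1 - t := by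
  rcases h0.eq_or_lt with h1 | h1
  · rw [← h1]
    simp
  · have h2 := Real.one_sub_inv_le_log_of_pos h1
    have h3 : t * (-Real.log t) ≤ t * (t⁻¹ - 1) := mul_le_mul_of_nonneg_left (by linarith) h0
    have h4 : t * (t⁻¹ - 1) = 1 - t := by
      rw [mul_sub, mul_inv_cancel₀ h1.ne', mul_one]
    linarith

theorem Fh_one {Y w v : ℝ} (hY : 0 < Y) (hw : w = -Real.log Y) :
    Fh (Y * Real.exp v) = Y * Real.exp v * (1 + w - v) := by
  rw [Fh, Real.log_mul hY.ne' (Real.exp_pos _).ne', Real.log_exp, hw]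
  ring

theorem Fh_t {Y w v t : ℝ} (hY : 0 < Y) (hw : w = -Real.log Y) (ht : 0 ≤ t) :
    Fh (t * (Y * Real.exp v)) = t * (Y * Real.exp v) * (1 + w - v - Real.log t) := by
  rcases ht.eq_or_lt with h1 | h1
  · rw [← h1, Fh]
    simp
  · rw [Fh, Real.log_mul h1.ne' (mul_pos hY (Real.exp_pos _)).ne',
      Real.log_mul hY.ne' (Real.exp_pos _).ne', Real.log_exp, hw]
    ring

/-- the error of the cross term -/
theorem cross {u L : ℝ} (hu : 1 ≤ u) (hL : 6 * u ≤ L) :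
    (1 + 1 / u) * (L + 3) ≤ (1 + 2 / u) * L := by
  have hu0 : 0 < u := by linarith
  have h1 : (1 + 1 / u) * (L + 3) = ((u + 1) * (L + 3)) / u := by field_simp
  have h2 : (1 + 2 / u) * L = ((u + 2) * L) / u := by field_simp
  rw [h1, h2]
  refine div_le_div_of_nonneg_right ?_ hu0.le
  nlinarith

end SqFarAux

open SqFarAux

section

variable {ι : Type*} [Fintype ι] [DecidableEq ι]

/-- MODULE RW27 (far certificate on the square side). `Q = Pm u (-a)`, `FV` with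
`σ = 2 Y e^v / Q ∈ [2 Y, 610 Y]`: `σ Q/2 = Y e^v`, `σ Pm(a)/2 = t Y e^v`,
`Fh (Y e^v) = Y e^v (1 + w - v)`, `Fh (t Y e^v) = t Y e^v (1 + w - v - log t)`,
`(4/κ) el κ (σ Pm(a)) (σ Q) = 16 t Y² e^(2v) el κ/κ ≤ 4 w t e^(2v) m Y (1 + 1/u)` (`Apx.ratio`).
So `FV` gives `≥ Base + m Y (W4 w t v + 8/5 (e^v/Q)(R3 + R3')) - m Y · 2000 w/u`: the bracket of `FV`
is at most `60 w Y`; `12 · 4 t Y² e^(2v)/κ ≤ 110 w m Y/el κ`; `3 m σ/u ≤ 1830 m Y/u`. Then `E_up`.
Conditions of `FV`: `σ ≤ 610 Y`, `w (m κ) ≥ 3.9 u^4 Y` (`Apx.mkap`), `w ≤ u/10^9`;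
`σ |a i| ≤ 2`: heavy weights satisfy `2 |a i| ≤ Pm + exp(-0.3 u^4)` (`NonDom`), `Pm ≤ Q`. -/
theorem sq_far {u q m κ Y A w : ℝ} (h : Apx u q m κ Y A w) (hc : (Fintype.card ι : ℝ) = m + 2)
    {a : ι → ℝ} (ha : Rel a) (hn : NonDom u a) (hn' : NonDom u (fun i => -a i)) {p1 p2 q1 q2 : ι}
    (hp : Top2 a p1 p2) (hq : Top2 (fun i => -a i) q1 q2) {t v : ℝ}
    (ht : Pm u a = t * Pm u (fun i => -a i)) (ht0 : 0 ≤ t) (ht1 : t ≤ 1)
    (hQ : 1 / 100 ≤ Pm u (fun i => -a i)) (hv : 0 ≤ v) (hv' : v ≤ 11 / 10)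
    (hV : 8 + 4 * w + 3000 * w / u ≤ W4 w t v + 8 / 5 * (Real.exp v / Pm u (fun i => -a i))
      * (R3 u a p1 p2 + R3 u (fun i => -a i) q1 q2)) :
    ∃ (b : ι → ℝ) (s : ℝ), Esq q m κ Y A < LB q b (fun i => s * a i) := by
  obtain ⟨hY0, hY3, _, hwu, _, _⟩ := h.basic
  have hr := h.ratio.2
  have hmk := h.mkap
  have hwin := h.win
  obtain ⟨hu0, hm0, _, hk0, _⟩ := hwin.pos
  have hel := hwin.el_bds.1
  have hw1 := h.wlo
  have hU := FactsAux.U_ge hwin
  have hU1 := FactsAux.u_le hwin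
  have hu20 := FactsAux.u20 hwin
  have hu1 : (1000 : ℝ) ≤ u := le_trans (by norm_num) hu20
  have hL6 : 6 * u ≤ el κ := by
    have h1 : (7 : ℝ) * u ≤ 10 ^ 60 * u := mul_le_mul_of_nonneg_right (by norm_num) hu0.le
    linarith
  have hL0 : 0 < el κ := by linarith
  have hE1 : 1 ≤ Real.exp v := Real.one_le_exp hv
  have hE2 : Real.exp v ≤ 301 / 100 := exp_le hv'
  have hEE : Real.exp (2 * v) = Real.exp v ^ 2 := by
    rw [← Real.exp_nat_mul]
    norm_num
  have hQ1 : Pm u (fun i => -a i) ≤ 1 := Pm_le_one (rel_neg ha)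
  have hR0 : 0 ≤ R3 u a p1 p2 := R3n
  have hR0' : 0 ≤ R3 u (fun i => -a i) q1 q2 := R3n
  have hR1 : R3 u a p1 p2 ≤ Pm u a := R3_le
  have hR1' : R3 u (fun i => -a i) q1 q2 ≤ Pm u (fun i => -a i) := R3_le
  have habs := two_abs_le hn hn'
  generalize hPdef : Pm u a = P at *
  generalize hQdef : Pm u (fun i => -a i) = Q at *
  generalize hRdef : R3 u a p1 p2 = R at *
  generalize hR'def : R3 u (fun i => -a i) q1 q2 = R' at *
  have hQ0 : 0 < Q := by linarith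
  have hPQ : P ≤ Q := by
    rw [ht]
    exact mul_le_of_le_one_left hQ0.le ht1
  have habs2 := habs hPQ hQ0.le
  obtain ⟨E, hEdef⟩ : ∃ E, E = Real.exp v := ⟨_, rfl⟩
  have hE0 : 0 < E := by rw [hEdef]; exact Real.exp_pos v
  obtain ⟨σ, hσdef⟩ : ∃ σ, σ = 2 * Y * E / Q := ⟨_, rfl⟩
  have hσQ : σ * Q = 2 * (Y * E) := by
    rw [hσdef, div_mul_cancel₀ _ hQ0.ne']
    ring
  have hσP : σ * P = 2 * (t * (Y * E)) := by
    rw [ht]
    calc σ * (t * Q) = t * (σ * Q) := by ring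
      _ = 2 * (t * (Y * E)) := by rw [hσQ]; ring
  rw [← hEdef] at hE1 hE2 hEE
  have hYE : 0 < Y * E := mul_pos hY0 hE0
  have hσ0 : 0 < σ := by
    rw [hσdef]
    exact div_pos (by linarith) hQ0
  have hYE1 : Y ≤ Y * E := le_mul_of_one_le_right hY0.le hE1
  have hYE2 : Y * E ≤ Y * (301 / 100) := mul_le_mul_of_nonneg_left hE2 hY0.le
  have hσ1 : 2 * Y ≤ σ := by
    have h1 : 2 * Y * Q ≤ σ * Q := by
      rw [hσQ]
      have : 2 * Y * Q ≤ 2 * Y * 1 := mul_le_mul_of_nonneg_left hQ1 (by linarith)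
      linarith
    exact le_of_mul_le_mul_right h1 hQ0
  have hσ2 : σ ≤ 602 * Y := by
    have h1 : σ * Q ≤ 602 * Y * Q := by
      rw [hσQ]
      have : 602 * Y * (1 / 100) ≤ 602 * Y * Q := mul_le_mul_of_nonneg_left hQ (by linarith)
      linarith
    exact le_of_mul_le_mul_right h1 hQ0
  have hu3 : 0 < u ^ 3 := pow_pos hu0 3
  have hu4 : 0 < u ^ 4 := pow_pos hu0 4
  have hmk0 : 0 < m * κ := mul_pos hm0 hk0
  have h1 : m * κ ≤ σ * u ^ 5 := by
    have e1 : 28 / 25 * (m * κ) ≤ w * (m * κ) := mul_le_mul_of_nonneg_right hw1 hmk0.le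
    have e2 : m * κ ≤ 4 * (u ^ 4 * Y) := by linarith [hmk.2, mul_pos hu4 hY0]
    have e3 : 4 * (u ^ 4 * Y) ≤ 2 * Y * u ^ 5 := by
      have : 2 * Y * u ^ 5 - 4 * (u ^ 4 * Y) = 2 * (u ^ 4 * Y) * (u - 2) := by ring
      have h5 : 0 ≤ 2 * (u ^ 4 * Y) * (u - 2) :=
        mul_nonneg (by positivity) (by linarith)
      linarith
    have e4 : 2 * Y * u ^ 5 ≤ σ * u ^ 5 := mul_le_mul_of_nonneg_right hσ1 (by positivity)
    linarith
  have h2 : 3 * σ * u ^ 3 ≤ m * κ := by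
    have e1 : 3 * σ * u ^ 3 ≤ 3 * (602 * Y) * u ^ 3 :=
      mul_le_mul_of_nonneg_right (by linarith) hu3.le
    have e2 : w * (m * κ) ≤ u / 10 ^ 9 * (m * κ) := mul_le_mul_of_nonneg_right hwu hmk0.le
    have e3 : 39 / 10 * (u ^ 4 * Y) ≤ u / 10 ^ 9 * (m * κ) := le_trans hmk.1 e2
    have e4 : 39 / 10 * (10 : ℝ) ^ 9 * (u ^ 3 * Y) ≤ m * κ := by
      have e5 : u * (39 / 10 * (10 : ℝ) ^ 9 * (u ^ 3 * Y)) ≤ u * (m * κ) := by
        have e6 : u * (39 / 10 * (10 : ℝ) ^ 9 * (u ^ 3 * Y)) =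
            10 ^ 9 * (39 / 10 * (u ^ 4 * Y)) := by ring
        have e7 : u * (m * κ) = 10 ^ 9 * (u / 10 ^ 9 * (m * κ)) := by ring
        rw [e6, e7]
        exact mul_le_mul_of_nonneg_left e3 (by norm_num)
      exact le_of_mul_le_mul_left e5 hu0
    have e8 : 3 * (602 * Y) * u ^ 3 ≤ 39 / 10 * (10 : ℝ) ^ 9 * (u ^ 3 * Y) := by
      have e9 : 0 < u ^ 3 * Y := mul_pos hu3 hY0
      have e10 : 3 * (602 * Y) * u ^ 3 = 1806 * (u ^ 3 * Y) := by ring
      rw [e10]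
      exact mul_le_mul_of_nonneg_right (by norm_num) e9.le
    linarith
  have hx : ∀ i, σ * |a i| ≤ 2 := by
    intro i
    have e1 := habs2 i
    have e2 : Real.exp (-(3 / 10) * u ^ 4) ≤ 1 / 1000 := tiny hU le_rfl
    have e3 : h0 u ≤ 1 / 1000 := tiny hU (by norm_num)
    have e4 : σ * (2 * |a i|) ≤ σ * (Q + 3 / 1000) := mul_le_mul_of_nonneg_left (by linarith) hσ0.le
    have e5 : σ * (Q + 3 / 1000) = 2 * (Y * E) + 3 / 1000 * σ := by
      rw [mul_add, hσQ]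
      ring
    linarith
  obtain ⟨b, s, hb⟩ := FV hwin hc ha hn hn' hp hq h1 h2 hx
  rw [hPdef, hQdef, hRdef, hR'def] at hb
  refine ⟨b, s, lt_of_lt_of_le ?_ hb⟩
  refine lt_of_le_of_lt (E_up h) ?_
  have hF1 : Fh (σ * Q / 2) = Y * E * (1 + w - v) := by
    rw [hσQ, hEdef, ← Fh_one hY0 h.hw]
    congr 1
    ring
  have hF2 : Fh (σ * P / 2) = t * (Y * E) * (1 + w - v - Real.log t) := by
    rw [hσP, hEdef, ← Fh_t hY0 h.hw ht0]
    congr 1
    ring
  obtain ⟨ρ, hρdef⟩ : ∃ ρ, ρ = E / Q * (R + R') := ⟨_, rfl⟩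
  have hρ2 : ρ ≤ 2 * E := by
    have e1 : E / Q * (R + R') ≤ E / Q * (2 * Q) :=
      mul_le_mul_of_nonneg_left (by linarith) (div_pos hE0 hQ0).le
    have e2 : E / Q * (2 * Q) = 2 * E := by field_simp
    rw [hρdef]
    linarith
  have hσR : 4 / 5 * (σ * R) + 4 / 5 * (σ * R') = 8 / 5 * (Y * ρ) := by
    rw [hρdef, hσdef]
    ring
  -- the bracket
  obtain ⟨B, hB⟩ : ∃ B, B = 4 * t * E * (1 + w - v - Real.log t) + 4 * E * (1 + w - v) +
      8 / 5 * ρ := ⟨_, rfl⟩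
  have hbr : 4 * Fh (σ * P / 2) + 4 * Fh (σ * Q / 2) + 4 / 5 * (σ * R) + 4 / 5 * (σ * R') =
      Y * B := by
    rw [hF1, hF2, hB]
    linear_combination hσR
  rw [hbr]
  have hB60 : B ≤ 60 * w := by
    have e1 := tlog ht0
    have e2 : t * (1 + w - v - Real.log t) ≤ 1 + w := by
      have e3 : t * (1 + w - v - Real.log t) = t * (1 - v) + t * w + t * (-Real.log t) := by ring
      have e4 : t * (1 - v) ≤ t * 1 := mul_le_mul_of_nonneg_left (by linarith) ht0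
      have e5 : t * w ≤ 1 * w := mul_le_mul_of_nonneg_right ht1 (by linarith)
      linarith
    have e6 : 4 * t * E * (1 + w - v - Real.log t) ≤ 4 * E * (1 + w) := by
      have : 4 * t * E * (1 + w - v - Real.log t) = 4 * E * (t * (1 + w - v - Real.log t)) := by
        ring
      rw [this]
      exact mul_le_mul_of_nonneg_left e2 (by linarith)
    have e7 : 4 * E * (1 + w - v) ≤ 4 * E * (1 + w) :=
      mul_le_mul_of_nonneg_left (by linarith) (by linarith)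
    have e8 : 4 * E * (1 + w) ≤ 4 * (301 / 100) * (1 + w) :=
      mul_le_mul_of_nonneg_right (by linarith) (by linarith)
    rw [hB]
    linarith
  -- the cross term
  have hcr : 4 / κ * (el κ + 3) * (σ * P * (σ * Q)) ≤
      m * Y * (4 * w * t * E ^ 2) + m * Y * (73 * (w / u)) := by
    have e1 : 4 / κ * (el κ + 3) * (σ * P * (σ * Q)) =
        16 * t * E ^ 2 * Y * (Y / κ * (el κ + 3)) := by
      rw [hσP, hσQ]
      ring
    have e2 : Y / κ * (el κ + 3) ≤ w * m / (4 * el κ) * (1 + 1 / u) * (el κ + 3) :=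
      mul_le_mul_of_nonneg_right hr (by linarith)
    have e3 : w * m / (4 * el κ) * (1 + 1 / u) * (el κ + 3) ≤
        w * m / (4 * el κ) * ((1 + 2 / u) * el κ) := by
      rw [mul_assoc]
      refine mul_le_mul_of_nonneg_left (cross (by linarith) hL6) ?_
      exact div_nonneg (mul_nonneg (by linarith) hm0.le) (by linarith)
    have e4 : w * m / (4 * el κ) * ((1 + 2 / u) * el κ) = w * m / 4 * (1 + 2 / u) := by
      field_simp
    have e5 : Y / κ * (el κ + 3) ≤ w * m / 4 * (1 + 2 / u) := by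
      rw [e4] at e3
      exact e2.trans e3
    rw [e1]
    have e6 : 16 * t * E ^ 2 * Y * (Y / κ * (el κ + 3)) ≤
        16 * t * E ^ 2 * Y * (w * m / 4 * (1 + 2 / u)) :=
      mul_le_mul_of_nonneg_left e5 (by positivity)
    refine e6.trans ?_
    have e7 : 16 * t * E ^ 2 * Y * (w * m / 4 * (1 + 2 / u)) =
        m * Y * (4 * w * t * E ^ 2) + m * Y * (8 * (t * E ^ 2) * (w / u)) := by
      field_simp
      ring
    rw [e7]
    have e8 : t * E ^ 2 ≤ 1 * (301 / 100) ^ 2 :=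
      mul_le_mul ht1 (pow_le_pow_left₀ hE0.le hE2 2) (by positivity) (by norm_num)
    have e9 : 0 ≤ w / u := div_nonneg (by linarith) hu0.le
    have e10 : 8 * (t * E ^ 2) * (w / u) ≤ 73 * (w / u) :=
      mul_le_mul_of_nonneg_right (by linarith) e9
    have e11 := mul_le_mul_of_nonneg_left e10 (mul_pos hm0 hY0).le
    linarith
  -- the last term
  have hlast : 3 * m / u * σ ≤ m * Y * (1613 * (w / u)) := by
    have e1 : 3 * m / u * σ ≤ 3 * m / u * (602 * Y) :=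
      mul_le_mul_of_nonneg_left hσ2 (by positivity)
    have e2 : 3 * m / u * (602 * Y) = m * Y * (1806 * (1 / u)) := by
      field_simp
      ring
    have e3 : 1806 * (1 / u) ≤ 1613 * (w / u) := by
      have e4 : 1613 * (w / u) = (1613 * w) * (1 / u) := by ring
      rw [e4]
      exact mul_le_mul_of_nonneg_right (by linarith) (by positivity)
    have e5 := mul_le_mul_of_nonneg_left e3 (mul_pos hm0 hY0).le
    linarith
  -- the loss in the bracket
  have hfac : m * Y * B - m * Y * (60 * (w / u)) ≤ m * (1 - 1 / u) * (Y * B) := by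
    have e1 : m * (1 - 1 / u) * (Y * B) = m * Y * B - m * Y * (B * (1 / u)) := by ring
    have e2 : B * (1 / u) ≤ 60 * (w / u) := by
      have e3 : 60 * (w / u) = (60 * w) * (1 / u) := by ring
      rw [e3]
      exact mul_le_mul_of_nonneg_right hB60 (by positivity)
    have e4 := mul_le_mul_of_nonneg_left e2 (mul_pos hm0 hY0).le
    linarith
  have hW : B = W4 w t v + 8 / 5 * (E / Q) * (R + R') + 4 * w * t * E ^ 2 := by
    rw [hB, hρdef, W4, hEE, ← hEdef]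
    ring
  rw [← hEdef] at hV
  have hV2 : 8 + 4 * w + 3000 * (w / u) + 4 * w * t * E ^ 2 ≤ B := by
    rw [hW]
    have : 3000 * w / u = 3000 * (w / u) := by ring
    linarith
  have hV3 := mul_le_mul_of_nonneg_left hV2 (mul_pos hm0 hY0).le
  have hpos : 0 < m * Y * (w / u) :=
    mul_pos (mul_pos hm0 hY0) (div_pos (by linarith) hu0)
  have hfin : m * Y * (8 + 4 * w + 20 * w / u) = m * Y * (8 + 4 * w) + 20 * (m * Y * (w / u)) := by
    ring
  rw [hfin]
  have e1 : m * Y * (8 + 4 * w + 3000 * (w / u) + 4 * w * t * E ^ 2) =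
      m * Y * (8 + 4 * w) + 3000 * (m * Y * (w / u)) + m * Y * (4 * w * t * E ^ 2) := by ring
  rw [e1] at hV3
  have e2 : m * Y * (60 * (w / u)) = 60 * (m * Y * (w / u)) := by ring
  have e3 : m * Y * (73 * (w / u)) = 73 * (m * Y * (w / u)) := by ring
  have e4 : m * Y * (1613 * (w / u)) = 1613 * (m * Y * (w / u)) := by ring
  rw [e2] at hfac
  rw [e3] at hcr
  rw [e4] at hlast
  linarith

end

end Pool.Agent.RieszWin
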