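import Pool.Agent.RieszWin.XM
import Pool.Agent.RieszWin.LossE
import Pool.Agent.RieszTr.TT

set_option autoImplicit false

open Real Finset

namespace Pool.Agent.RieszWin

open Pool.Agent.RieszSmall Pool.Agent.RieszLin Pool.Agent.RieszTr

section

variable {ι : Type*} [DecidableEq ι] {u q m θ0 : ℝ} {Z L P Q : Finset ι} {θ : ι → ℝ}

namespace XCaseAux

theorem XX_nonneg' {κ : ℝ} (hk : 0 < κ) (S : Finset ι) (θ : ι → ℝ) : 0 ≤ XX κ S θ :=
  Finset.sum_nonneg fun z _ => by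
    unfold xi
    positivity

/-- `4 + m κ` is small and `m κ ≥ 1` -/
theorem mk_bds {κ : ℝ} (h : XZ u q m κ θ0 Z L P Q θ) :
    1 ≤ m * κ ∧ 4 + m * κ ≤ Real.exp (u ^ 4 / 1000) := by
  have hw := h.win
  have hU := FactsAux.U_ge hw
  have h1 := h.mk4
  have hu := FactsAux.u_pos hw
  have hu1 : (1 : ℝ) ≤ u := le_trans (one_le_pow₀ (by norm_num)) hw.hu
  refine ⟨?_, ?_⟩
  · have : (10 : ℝ) ^ 80 ≥ 1 := one_le_pow₀ (by norm_num)
    linarith
  · have h2 := hw.big.2.1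
    refine le_trans ?_ h2
    have h3 := hw.hi
    have h4 : (10 : ℝ) ^ 105 ≤ u := le_trans (pow_le_pow_right₀ (by norm_num) (by norm_num)) hw.hu
    have h5 : (10 : ℝ) ^ 105 * u ^ 4 ≤ u * u ^ 4 :=
      mul_le_mul_of_nonneg_right h4 (FactsAux.U_pos hw).le
    have h6 : (4 : ℝ) ≤ u * u ^ 4 := by
      have h7 : (4 : ℝ) ≤ u := le_trans (by norm_num) h4
      have h8 : (1 : ℝ) ≤ u ^ 4 := one_le_pow₀ hu1
      nlinarith
    have h9 : 2 * (u * u ^ 4) ≤ u ^ 6 := by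
      have : u ^ 6 = u * (u * u ^ 4) := by ring
      rw [this]
      have h7 : (2 : ℝ) ≤ u := le_trans (by norm_num) h4
      have h8 : 0 ≤ u * u ^ 4 := by positivity
      nlinarith
    have h10 : u ^ 6 ≤ u ^ 60 := pow_le_pow_right₀ hu1 (by norm_num)
    linarith

/-- `β √κ = exp (-θ0)` -/
theorem y0_eq {κ β : ℝ} (h : XZ u q m κ θ0 Z L P Q θ) (hβ : 0 < β)
    (hβ2 : β ^ 2 = m / (4 + m * κ)) : β * √κ = Real.exp (-θ0) := by
  have hm := FactsAux.m_pos h.win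
  have hk := h.win.hk
  have hmk : 0 < m * κ := mul_pos hm hk
  have h1 : (β * √κ) ^ 2 = (Real.exp (-θ0)) ^ 2 := by
    rw [mul_pow, Real.sq_sqrt hk.le, hβ2, ← Real.exp_nat_mul]
    have e : ((2 : ℕ) : ℝ) * -θ0 = -(2 * θ0) := by push_cast; ring
    rw [e, Real.exp_neg, h.h0]
    field_simp
    ring
  exact (pow_left_inj₀ (by positivity) (Real.exp_pos _).le (by norm_num)).1 h1

theorem y0_bds {κ : ℝ} (h : XZ u q m κ θ0 Z L P Q θ) :
    Real.exp (-u) ≤ Real.exp (-θ0) ∧ Real.exp (-θ0) ≤ 1 := by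
  have hmk := (mk_bds h).1
  have hu : (10 : ℝ) ≤ u := le_trans (by norm_num) h.win.hu
  have h0 := h.h0
  have h1 : (0 : ℝ) < m * κ := by linarith
  have h2 : 0 < 4 / (m * κ) := by positivity
  have h3 : 4 / (m * κ) ≤ 4 := by
    rw [div_le_iff₀ h1]
    linarith
  constructor
  · apply Real.exp_le_exp.2
    have h4 : Real.exp (2 * θ0) ≤ Real.exp (2 * u) := by
      rw [h0]
      have := Real.add_one_le_exp (2 * u)
      linarith
    have := Real.exp_le_exp.1 h4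
    linarith
  · rw [← Real.exp_zero]
    apply Real.exp_le_exp.2
    have h4 : Real.exp 0 ≤ Real.exp (2 * θ0) := by
      rw [h0, Real.exp_zero]
      linarith
    have := Real.exp_le_exp.1 h4
    linarith

/-- the tail of `TT` -/
theorem Phi_zero {q : ℝ} : Phi q 0 = (2 : ℝ) ^ (-q) := by
  have h1 : ¬ ((2 : ℝ) ^ (-(q + 1)) ≤ 0) := not_le.2 (by positivity)
  rw [Phi, if_neg h1]
  ring

theorem tail_eq {q : ℝ} (hq : 0 < q) :
    2 * Phi q ((2 : ℝ) ^ (-(q + 1))) - 2 * q * (2 : ℝ) ^ (-(q + 1)) = 2 * Phi q 0 := by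
  rw [TTAux.Phi_two hq, Phi_zero]
  have h2 : (2 : ℝ) ^ (-q) = 2 * (2 : ℝ) ^ (-(q + 1)) := by
    have : -q = -(q + 1) + 1 := by ring
    rw [this, Real.rpow_add (by norm_num), Real.rpow_one]
    ring
  rw [h2]
  ring

/-- the common part of the two certificates -/
theorem common (h : XZ u q m (K0 q m) θ0 Z L P Q θ) {β : ℝ} (hβ : 0 < β)
    (hβ2 : β ^ 2 = m / (4 + m * K0 q m)) :
    TT q m + 9 / 10 * u ^ 4 * (K0 q m * GG L θ) + 3 * m * XX (K0 q m) P θ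
        + 6 * m * XX (K0 q m) Q θ
      ≤ PS q (K0 q m) Z θ - q * (Z.card : ℝ) * K0 q m
      + 4 * ∑ z ∈ Z, Phi q (β * √(K0 q m) * Real.exp (θ z)) + 2 * Phi q 0 := by
  have hM := h.M
  have hq := FactsAux.q_pos h.win
  have hm2 : (2 : ℝ) ≤ m := le_trans (by norm_num) (FactsAux.m_big h.win)
  have hTT := TT_eq1 hq hm2
  have ht := tail_eq hq
  have hy := y0_eq h hβ hβ2
  have hs : ∑ z ∈ Z, (1 - Phi q (Real.exp (θ z - θ0))) =
      m - ∑ z ∈ Z, Phi q (β * √(K0 q m) * Real.exp (θ z)) := by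
    rw [Finset.sum_sub_distrib, Finset.sum_const, nsmul_eq_mul, mul_one, h.card]
    congr 1
    refine Finset.sum_congr rfl fun z _ => ?_
    rw [hy, ← Real.exp_add]
    congr 2
    ring
  rw [hs] at hM
  rw [h.card]
  have e1 : m * (m - 1) * Phi q (K0 q m) = (m ^ 2 - m) * Phi q (K0 q m) := by ring
  linarith

end XCaseAux

open XCaseAux

/-- MODULE RW37 (near the block, first certificate). `κ = K₀`, `y0 = β √κ = exp(-θ0)`
(`β² κ = m κ/(4 + m κ)`), so `y0 exp θ = exp (θ - θ0)`. `TT_eq1` (RieszTr/TT.lean) with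
`2 Φ(2^(-p)) - 2 q 2^(-p) = 2 · 2^(-q) = 2 Φ(0)`. `XZ.M`; `NZ.lossE` with `T2 = β²` (`XZ.nz`);
`Win.Phi_add_ge` with `y = 0`, `z = β² e²`. -/
theorem XZ.caseE (h : XZ u q m (K0 q m) θ0 Z L P Q θ) {β e : ℝ} (hβ : 0 < β)
    (hβ2 : β ^ 2 = m / (4 + m * K0 q m)) (he : 0 ≤ e) (he1 : e ≤ Real.exp (-(u ^ 4 / 10)))
    (hQ : β * √(K0 q m) * ∑ z ∈ Q, (-Real.sinh (θ z)) ≤ 9 / 10 * e * β ^ 2) :
    TT q m + 4 / 5 * u ^ 4 * (K0 q m * GG L θ) + m * XX (K0 q m) P θ + m * XX (K0 q m) Q θ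
        + 1 / 10 * (q * (β ^ 2 * e ^ 2))
      ≤ PS q (K0 q m) Z θ - q * (Z.card : ℝ) * K0 q m
      + 2 * ∑ z ∈ Z,
          (Phi q (β * √(K0 q m) * Real.exp (θ z) + e * (β * √(K0 q m) * Real.sinh (θ z)))
            + Phi q (β * √(K0 q m) * Real.exp (θ z) - e * (β * √(K0 q m) * Real.sinh (θ z))))
      + 2 * Phi q (β ^ 2 * e ^ 2) + 2 * q * (β ^ 2 * e ^ 2) := by
  have hw := h.win
  have hk := hw.hk
  have hm := FactsAux.m_pos hw
  have hq := FactsAux.q_pos hw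
  have hU := FactsAux.U_pos hw
  have hc := common h hβ hβ2
  have hy := y0_eq h hβ hβ2
  obtain ⟨hy1, hy2⟩ := y0_bds h
  rw [← hy] at hy1 hy2
  obtain ⟨hmk1, hmk2⟩ := mk_bds h
  have hmk0 : 0 < 4 + m * K0 q m := by linarith
  have hT : Real.exp (9 / 10 * u ^ 4) ≤ β ^ 2 := by
    rw [hβ2, le_div_iff₀ hmk0]
    calc Real.exp (9 / 10 * u ^ 4) * (4 + m * K0 q m)
        ≤ Real.exp (9 / 10 * u ^ 4) * Real.exp (u ^ 4 / 1000) :=
          mul_le_mul_of_nonneg_left hmk2 (Real.exp_pos _).le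
      _ = Real.exp (9 / 10 * u ^ 4 + u ^ 4 / 1000) := (Real.exp_add _ _).symm
      _ ≤ m := by
          rw [hw.hm]
          apply Real.exp_le_exp.2
          linarith
  have hl := h.nz.lossE hy1 hy2 he he1 hT hQ
  have he2 : e ≤ 1 := by
    refine he1.trans ?_
    rw [← Real.exp_zero]
    apply Real.exp_le_exp.2
    linarith
  have hz : β ^ 2 * e ^ 2 ≤ Real.exp (3 * u ^ 4) := by
    have h1 : β ^ 2 ≤ m := by
      rw [hβ2, div_le_iff₀ hmk0]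
      nlinarith
    have h2 : e ^ 2 ≤ 1 := pow_le_one₀ he he2
    calc β ^ 2 * e ^ 2 ≤ m * 1 := mul_le_mul h1 h2 (sq_nonneg e) hm.le
      _ = Real.exp (u ^ 4) := by rw [mul_one, hw.hm]
      _ ≤ Real.exp (3 * u ^ 4) := Real.exp_le_exp.2 (by linarith)
  have hP0 := hw.Phi_add_ge (y := 0) (z := β ^ 2 * e ^ 2) le_rfl zero_le_one (by positivity) hz
  rw [zero_add] at hP0
  have hs : 2 * ∑ z ∈ Z, (2 * Phi q (β * √(K0 q m) * Real.exp (θ z))
        - Phi q (β * √(K0 q m) * Real.exp (θ z) + e * (β * √(K0 q m) * Real.sinh (θ z)))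
        - Phi q (β * √(K0 q m) * Real.exp (θ z) - e * (β * √(K0 q m) * Real.sinh (θ z)))) =
      4 * ∑ z ∈ Z, Phi q (β * √(K0 q m) * Real.exp (θ z)) -
      2 * ∑ z ∈ Z,
          (Phi q (β * √(K0 q m) * Real.exp (θ z) + e * (β * √(K0 q m) * Real.sinh (θ z)))
            + Phi q (β * √(K0 q m) * Real.exp (θ z) - e * (β * √(K0 q m) * Real.sinh (θ z)))) := by
    simp only [Finset.sum_sub_distrib, Finset.sum_add_distrib, ← Finset.mul_sum]
    ring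
  rw [hs] at hl
  have hX1 : 0 ≤ m * XX (K0 q m) P θ := mul_nonneg hm.le (XX_nonneg' hk P θ)
  have hX2 : 0 ≤ m * XX (K0 q m) Q θ := mul_nonneg hm.le (XX_nonneg' hk Q θ)
  have hG : 0 ≤ u ^ 4 * (K0 q m * GG L θ) :=
    mul_nonneg hU.le (mul_nonneg hk.le (GG_nonneg L θ))
  have hqe : 0 ≤ q * (β ^ 2 * e ^ 2) := by positivity
  nlinarith

/-- second certificate: `XZ.M`, `NZ.lossI`: the loss is `≤ 4.3 e² y0 m + ..`, `e ≤ 1/20`,
`e y0 ≤ (5/4) XX Q`. -/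
theorem XZ.caseI (h : XZ u q m (K0 q m) θ0 Z L P Q θ) {β e : ℝ} (hβ : 0 < β)
    (hβ2 : β ^ 2 = m / (4 + m * K0 q m)) (he : 0 ≤ e) (he1 : e ≤ 1 / 20)
    (hQ : 4 / 5 * (e * (β * √(K0 q m))) ≤ XX (K0 q m) Q θ) :
    TT q m + 4 / 5 * u ^ 4 * (K0 q m * GG L θ) + m * XX (K0 q m) P θ + m * XX (K0 q m) Q θ
      ≤ PS q (K0 q m) Z θ - q * (Z.card : ℝ) * K0 q m
      + 2 * ∑ z ∈ Z,
          (Phi q ((1 + e) * (β * √(K0 q m) * Real.exp (θ z)))
            + Phi q ((1 - e) * (β * √(K0 q m) * Real.exp (θ z))))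
      + 2 * Phi q 0 := by
  have hw := h.win
  have hk := hw.hk
  have hm := FactsAux.m_pos hw
  have hU := FactsAux.U_pos hw
  have hc := common h hβ hβ2
  have hy := y0_eq h hβ hβ2
  obtain ⟨hy1, hy2⟩ := y0_bds h
  rw [← hy] at hy1 hy2
  have hl := h.nz.lossI hy1 hy2 he he1
  have hs : 2 * ∑ z ∈ Z, (2 * Phi q (β * √(K0 q m) * Real.exp (θ z))
        - Phi q ((1 + e) * (β * √(K0 q m) * Real.exp (θ z)))
        - Phi q ((1 - e) * (β * √(K0 q m) * Real.exp (θ z)))) =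
      4 * ∑ z ∈ Z, Phi q (β * √(K0 q m) * Real.exp (θ z)) -
      2 * ∑ z ∈ Z,
          (Phi q ((1 + e) * (β * √(K0 q m) * Real.exp (θ z)))
            + Phi q ((1 - e) * (β * √(K0 q m) * Real.exp (θ z)))) := by
    simp only [Finset.sum_sub_distrib, Finset.sum_add_distrib, ← Finset.mul_sum]
    ring
  rw [hs] at hl
  have hX1 : 0 ≤ m * XX (K0 q m) P θ := mul_nonneg hm.le (XX_nonneg' hk P θ)
  have hX2 : 0 ≤ m * XX (K0 q m) Q θ := mul_nonneg hm.le (XX_nonneg' hk Q θ)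
  have hG : 0 ≤ u ^ 4 * (K0 q m * GG L θ) :=
    mul_nonneg hU.le (mul_nonneg hk.le (GG_nonneg L θ))
  have hy0 : 0 ≤ β * √(K0 q m) := by positivity
  have hloss : 43 / 10 * e ^ 2 * (β * √(K0 q m)) * m ≤ 1 / 2 * (m * XX (K0 q m) Q θ) := by
    have h1 : e * (β * √(K0 q m)) ≤ 5 / 4 * XX (K0 q m) Q θ := by linarith
    have h2 : 0 ≤ e * (β * √(K0 q m)) := mul_nonneg he hy0
    have h3 : e * (e * (β * √(K0 q m))) ≤ 1 / 20 * (5 / 4 * XX (K0 q m) Q θ) :=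
      mul_le_mul he1 h1 h2 (by norm_num)
    have h4 : 43 / 10 * e ^ 2 * (β * √(K0 q m)) * m =
        43 / 10 * (e * (e * (β * √(K0 q m)))) * m := by ring
    rw [h4]
    have h5 : 43 / 10 * (e * (e * (β * √(K0 q m)))) * m ≤
        43 / 10 * (1 / 20 * (5 / 4 * XX (K0 q m) Q θ)) * m := by gcongr
    have h6 : 43 / 10 * (1 / 20 * (5 / 4 * XX (K0 q m) Q θ)) * m =
        43 / 160 * (m * XX (K0 q m) Q θ) := by ring
    linarith
  linarith

end

end Pool.Agent.RieszWin
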