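import Pool.Agent.RieszWin.Core

set_option autoImplicit false

open Real Finset

namespace Pool.Agent.RieszWin

open Pool.Agent.RieszSmall Pool.Agent.RieszLin Pool.Agent.RieszTr

section

variable {ι : Type*} [DecidableEq ι]

/-- the points outside the distinguished ones, near the block -/
structure XZ (u q m κ θ0 : ℝ) (Z L P Q : Finset ι) (θ : ι → ℝ) : Prop where
  win : Win u q m κ
  hl : 21 / 20 ≤ lam m κ
  h0 : Real.exp (2 * θ0) = 1 + 4 / (m * κ)
  part : Part u Z L P Q θ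
  card : (Z.card : ℝ) = m
  sum : SS Z θ = m * Real.sinh θ0
  hP : XX κ P θ ≤ 1 / 150
  hQ : XX κ Q θ ≤ 1 / 20

/-- general near situation -/
structure NZ (u q m κ S0 : ℝ) (Z L P Q : Finset ι) (θ : ι → ℝ) : Prop where
  win : Win u q m κ
  part : Part u Z L P Q θ
  card : |(Z.card : ℝ) - m| ≤ 2
  hx : ∀ z ∈ P ∪ Q, xi κ (θ z) ≤ 1
  hS0 : S0 * u ^ 3 ≤ m * κ
  hS : κ * |SS L θ| ≤ S0
  hX : XX κ P θ + XX κ Q θ ≤ S0

/-- MODULE RW30 (symmetry). -/
theorem Part.neg {u : ℝ} {Z L P Q : Finset ι} {θ : ι → ℝ} (h : Part u Z L P Q θ) :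
    Part u Z L Q P (fun z => -θ z) := by
  refine ⟨?_, h.hLQ, h.hLP, h.hPQ.symm, ?_, ?_, ?_⟩
  · rw [← h.hZ]
    ext z
    simp only [Finset.mem_union]
    tauto
  · intro z hz
    rw [abs_neg]; exact h.hL z hz
  · intro z hz
    exact h.hQ z hz
  · intro z hz
    rw [neg_neg]; exact h.hP z hz

theorem XX_neg {κ : ℝ} (S : Finset ι) (θ : ι → ℝ) : XX κ S (fun z => -θ z) = XX κ S θ := by
  unfold XX xi
  simp only [abs_neg]

theorem GG_neg (S : Finset ι) (θ : ι → ℝ) : GG S (fun z => -θ z) = GG S θ := by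
  unfold GG CC SS
  simp only [Real.cosh_neg, Real.sinh_neg, Finset.sum_neg_distrib, neg_sq]

theorem SS_neg (S : Finset ι) (θ : ι → ℝ) : SS S (fun z => -θ z) = -SS S θ := by
  unfold SS
  simp only [Real.sinh_neg, Finset.sum_neg_distrib]

theorem PS_neg (q κ : ℝ) (S : Finset ι) (θ : ι → ℝ) : PS q κ S (fun z => -θ z) = PS q κ S θ := by
  have e : ∀ z z' : ι, Real.cosh (-θ z - -θ z') = Real.cosh (θ z - θ z') := by
    intro z z'
    rw [show -θ z - -θ z' = -(θ z - θ z') by ring, Real.cosh_neg]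
  unfold PS
  simp only [e]

theorem NZ.neg {u q m κ S0 : ℝ} {Z L P Q : Finset ι} {θ : ι → ℝ}
    (h : NZ u q m κ S0 Z L P Q θ) : NZ u q m κ S0 Z L Q P (fun z => -θ z) := by
  refine ⟨h.win, h.part.neg, h.card, ?_, h.hS0, ?_, ?_⟩
  · intro z hz
    have h1 : xi κ (-θ z) = xi κ (θ z) := by unfold xi; rw [abs_neg]
    rw [h1]
    apply h.hx
    rw [Finset.mem_union] at hz ⊢
    exact hz.symm
  · rw [SS_neg, abs_neg]; exact h.hS
  · rw [XX_neg, XX_neg]
    linarith [h.hX]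

/-- `m (1 - exp(-u^4/300)) ≤ |L|`: `card_part`, `card_small`. -/
theorem NZ.card_L {u q m κ S0 : ℝ} {Z L P Q : Finset ι} {θ : ι → ℝ}
    (h : NZ u q m κ S0 Z L P Q θ) :
    m * (1 - Real.exp (-(u ^ 4 / 300))) ≤ L.card ∧ (L.card : ℝ) ≤ m + 2 := by
  have hw := h.win
  have hk := hw.hk
  have hu : (10 : ℝ) ≤ u := le_trans (by norm_num) hw.hu
  have hu4 : (10 : ℝ) ^ 4 ≤ u ^ 4 := pow_le_pow_left₀ (by norm_num) hu 4
  have hu3 : (1 : ℝ) ≤ u ^ 3 := one_le_pow₀ (by linarith)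
  have hS00 : 0 ≤ S0 := le_trans (mul_nonneg hk.le (abs_nonneg _)) h.hS
  have hXm : XX κ P θ + XX κ Q θ ≤ m * κ := by
    have h1 := mul_le_mul_of_nonneg_left hu3 hS00
    linarith [h.hX, h.hS0]
  have h2 := card_small hw h.part hXm
  have h3 := card_part h.part
  have h4 := abs_le.mp h.card
  have hP0 : (0 : ℝ) ≤ P.card := Nat.cast_nonneg _
  have hQ0 : (0 : ℝ) ≤ Q.card := Nat.cast_nonneg _
  refine ⟨?_, by linarith [h4.2]⟩
  have hmd := hw.hm
  have e1 : m * Real.exp (-(u ^ 4 / 250)) = Real.exp (u ^ 4 * (249 / 250)) := by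
    rw [hmd, ← Real.exp_add]; congr 1; ring
  have e2 : m * Real.exp (-(u ^ 4 / 300)) =
      Real.exp (u ^ 4 * (249 / 250)) * Real.exp (u ^ 4 / 1500) := by
    rw [hmd, ← Real.exp_add, ← Real.exp_add]; congr 1; ring
  have h5 : (2 : ℝ) ≤ Real.exp (u ^ 4 / 1500) := by
    have := Real.add_one_le_exp (u ^ 4 / 1500)
    norm_num at hu4
    linarith
  have h6 : (2 : ℝ) ≤ Real.exp (u ^ 4 * (249 / 250)) := by
    have := Real.add_one_le_exp (u ^ 4 * (249 / 250))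
    norm_num at hu4
    linarith
  have h7 : 2 * Real.exp (u ^ 4 * (249 / 250)) ≤
      Real.exp (u ^ 4 * (249 / 250)) * Real.exp (u ^ 4 / 1500) := by
    rw [mul_comm]
    exact mul_le_mul_of_nonneg_left h5 (Real.exp_pos _).le
  rw [e1] at h2
  rw [mul_sub, mul_one, e2]
  linarith [h4.1]

/-- a single `ξ` is at most the sum -/
theorem xi_le_XX {κ : ℝ} (hk : 0 < κ) {S : Finset ι} {θ : ι → ℝ} {z : ι} (hz : z ∈ S) :
    xi κ (θ z) ≤ XX κ S θ := by
  unfold XX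
  exact Finset.single_le_sum (f := fun z => xi κ (θ z))
    (fun i _ => by unfold xi; positivity) hz

end

end Pool.Agent.RieszWin
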