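import Pool.Agent.RieszWin.XDefs

set_option autoImplicit false

open Real Finset

namespace Pool.Agent.RieszWin

open Pool.Agent.RieszSmall Pool.Agent.RieszLin Pool.Agent.RieszTr

section

variable {ι : Type*} [DecidableEq ι] {u q m κ θ0 : ℝ} {Z L P Q : Finset ι} {θ : ι → ℝ}

/-- MODULE RW31. `m κ = lam · el κ`, `el κ ≥ 0.998 u^4`. -/
theorem XZ.mk4 (h : XZ u q m κ θ0 Z L P Q θ) : 104 / 100 * u ^ 4 ≤ m * κ := by
  have hw := h.win
  obtain ⟨hu0, hm0, hq0, hk0, hk1⟩ := hw.pos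
  obtain ⟨e1, e2⟩ := hw.el_bds
  have hU : 0 < u ^ 4 := pow_pos hu0 4
  have hel : 0 < el κ := by linarith
  have h1 := h.hl
  unfold lam at h1
  rw [le_div_iff₀ hel] at h1
  linarith

namespace XFacAux

theorem hyps (h : XZ u q m κ θ0 Z L P Q θ) : 0 < u ∧ 0 < m ∧ 0 < κ ∧ 0 < m * κ ∧ (10 : ℝ) ^ 200 ≤ u
    ∧ (10 : ℝ) ^ 200 ≤ u ^ 4 := by
  obtain ⟨hu0, hm0, hq0, hk0, hk1⟩ := h.win.pos
  have hu1 : (1 : ℝ) ≤ u := le_trans (by norm_num) h.win.hu
  refine ⟨hu0, hm0, hk0, mul_pos hm0 hk0, h.win.hu, h.win.hu.trans ?_⟩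
  calc u = u * 1 := by ring
    _ ≤ u * u ^ 3 := mul_le_mul_of_nonneg_left (one_le_pow₀ hu1) hu0.le
    _ = u ^ 4 := by ring

/-- `|x - y| ≤ |sinh x - sinh y|` -/
theorem abs_sub_le_sinh (x y : ℝ) : |x - y| ≤ |Real.sinh x - Real.sinh y| := by
  have key : ∀ a b : ℝ, a ≤ b → b - a ≤ Real.sinh b - Real.sinh a := by
    intro a b hab
    have hmono : Monotone (fun t : ℝ => Real.sinh t - t) := by
      apply monotone_of_deriv_nonneg
      · exact Real.differentiable_sinh.sub differentiable_id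
      · intro t
        have hd : HasDerivAt (fun t : ℝ => Real.sinh t - t) (Real.cosh t - 1) t :=
          (Real.hasDerivAt_sinh t).sub (hasDerivAt_id t)
        rw [hd.deriv]
        linarith [Real.one_le_cosh t]
    have h1 := hmono hab
    simp only at h1
    linarith
  rcases le_total x y with hxy | hxy
  · have h1 := key x y hxy
    rw [abs_sub_comm x y, abs_sub_comm (Real.sinh x) (Real.sinh y)]
    rw [abs_of_nonneg (by linarith : 0 ≤ y - x)]
    exact h1.trans (le_abs_self _)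
  · have h1 := key y x hxy
    rw [abs_of_nonneg (by linarith : 0 ≤ x - y)]
    exact h1.trans (le_abs_self _)

end XFacAux

open XFacAux

/-- `m κ sinh θ0 = m κ exp(-θ0) (exp(2 θ0) - 1)/2 = 2 exp(-θ0)`. -/
theorem XZ.th0 (h : XZ u q m κ θ0 Z L P Q θ) :
    0 ≤ θ0 ∧ θ0 ≤ 1 / u ^ 3 ∧ m * κ * Real.sinh θ0 = 2 * Real.exp (-θ0) := by
  obtain ⟨hu0, hm0, hk0, hmk, hu, hU⟩ := hyps h
  have hmk4 := h.mk4
  have h0 := h.h0
  have hpos : 0 < 4 / (m * κ) := by positivity
  refine ⟨?_, ?_, ?_⟩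
  · have h1 : (0 : ℝ) ≤ 2 * θ0 := by
      rw [← Real.one_le_exp_iff, h0]; linarith
    linarith
  · have h1 := Real.add_one_le_exp (2 * θ0)
    rw [h0] at h1
    have h2 : 4 / (m * κ) ≤ 4 / (104 / 100 * u ^ 4) :=
      div_le_div_of_nonneg_left (by norm_num) (by positivity) hmk4
    have h3 : 4 / (104 / 100 * u ^ 4) ≤ 2 * (1 / u ^ 3) := by
      rw [mul_one_div, div_le_div_iff₀ (by positivity) (by positivity)]
      have h4 : (100 : ℝ) ≤ u := le_trans (by norm_num) hu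
      have h5 : u ^ 4 = u * u ^ 3 := by ring
      rw [h5]
      have h6 : 0 < u ^ 3 := by positivity
      nlinarith
    linarith
  · have h1 : Real.sinh θ0 = Real.exp (-θ0) * (Real.exp (2 * θ0) - 1) / 2 := by
      rw [Real.sinh_eq, mul_sub, ← Real.exp_add]
      congr 2
      · congr 1; ring
      · ring
    rw [h1, h0]
    field_simp
    ring

/-- `SS L = m sinh θ0 - SS P - SS Q` (`sum_part`), `0 ≤ κ SS P ≤ XX P`, `-XX Q ≤ κ SS Q ≤ 0`. -/
theorem XZ.SL (h : XZ u q m κ θ0 Z L P Q θ) :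
    κ * |SS L θ - m * Real.sinh θ0| ≤ XX κ P θ + XX κ Q θ ∧ κ * |SS L θ| ≤ 21 / 10 := by
  obtain ⟨hu0, hm0, hk0, hmk, hu, hU⟩ := hyps h
  obtain ⟨t0, t1, t2⟩ := h.th0
  have hs : SS Z θ = SS L θ + SS P θ + SS Q θ := sum_part h.part _
  rw [h.sum] at hs
  have hP := SS_heavy hk0 P θ
  have hQ := SS_heavy hk0 Q θ
  have e1 : SS L θ - m * Real.sinh θ0 = -(SS P θ + SS Q θ) := by linarith
  have h1 : κ * |SS L θ - m * Real.sinh θ0| ≤ XX κ P θ + XX κ Q θ := by
    rw [e1, abs_neg]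
    have := mul_le_mul_of_nonneg_left (abs_add_le (SS P θ) (SS Q θ)) hk0.le
    linarith
  refine ⟨h1, ?_⟩
  have h2 : κ * |SS L θ| ≤ κ * |SS L θ - m * Real.sinh θ0| + κ * |m * Real.sinh θ0| := by
    rw [← mul_add]
    apply mul_le_mul_of_nonneg_left _ hk0.le
    have := abs_add_le (SS L θ - m * Real.sinh θ0) (m * Real.sinh θ0)
    rwa [sub_add_cancel] at this
  have h3 : κ * |m * Real.sinh θ0| ≤ 2 := by
    have h4 : κ * |m * Real.sinh θ0| = |m * κ * Real.sinh θ0| := by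
      rw [← abs_of_pos hk0, ← abs_mul, abs_of_pos hk0]; congr 1; ring
    rw [h4, t2, abs_of_pos (by positivity)]
    have : Real.exp (-θ0) ≤ 1 := Real.exp_le_one_iff.2 (by linarith)
    linarith
  have := h.hP
  have := h.hQ
  linarith

/-- with `S0 = 21/10` -/
theorem XZ.nz (h : XZ u q m κ θ0 Z L P Q θ) : NZ u q m κ (21 / 10) Z L P Q θ := by
  obtain ⟨hu0, hm0, hk0, hmk, hu, hU⟩ := hyps h
  have hP := h.hP
  have hQ := h.hQ
  have hP0 := XX_nonneg hk0 P θ
  have hQ0 := XX_nonneg hk0 Q θ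
  refine ⟨h.win, h.part, ?_, ?_, ?_, h.SL.2, ?_⟩
  · rw [h.card, sub_self, abs_zero]; norm_num
  · intro z hz
    rcases Finset.mem_union.1 hz with hz | hz
    · have := xi_le_XX (κ := κ) hk0 (θ := θ) hz; linarith
    · have := xi_le_XX (κ := κ) hk0 (θ := θ) hz; linarith
  · have h1 := h.mk4
    have h4 : (100 : ℝ) ≤ u := le_trans (by norm_num) hu
    have h5 : u ^ 4 = u * u ^ 3 := by ring
    have h6 : 0 < u ^ 3 := by positivity
    rw [h5] at h1
    nlinarith
  · linarith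

/-- `c = arsinh (SS L/|L|)`; `sinh c - sinh θ0 = (SS L - m sinh θ0)/|L| + (m/|L| - 1) sinh θ0`,
`m - |L| = |P| + |Q| ≤ 2 (X+Y) exp(-u^4/200)/κ` (`card_heavy`), `|c - θ0| ≤ |sinh c - sinh θ0|`. -/
theorem XZ.center (h : XZ u q m κ θ0 Z L P Q θ) :
    ∃ c : ℝ, (L.card : ℝ) * Real.sinh c = SS L θ ∧
      |c - θ0| ≤ 11 / 10 * (XX κ P θ + XX κ Q θ) / (m * κ) := by
  obtain ⟨hu0, hm0, hk0, hmk, hu, hU⟩ := hyps h
  obtain ⟨t0, t1, t2⟩ := h.th0
  have hmk4 := h.mk4
  have hbig : (10 : ℝ) ^ 100 ≤ m * κ := by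
    have : (10 : ℝ) ^ 100 ≤ 10 ^ 200 := pow_le_pow_right₀ (by norm_num) (by norm_num)
    linarith
  have hP := h.hP
  have hQ := h.hQ
  have hP0 := XX_nonneg hk0 P θ
  have hQ0 := XX_nonneg hk0 Q θ
  set X := XX κ P θ + XX κ Q θ with hX
  have hX0 : 0 ≤ X := by linarith
  have hX1 : X ≤ 1 := by rw [hX]; linarith
  set K : ℝ := (P.card : ℝ) + Q.card with hK
  have hK0 : 0 ≤ K := by positivity
  have hcard : (L.card : ℝ) = m - K := by
    have := card_part h.part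
    rw [h.card] at this
    rw [hK]; linarith
  -- few heavy points
  have hs := card_small h.win h.part (by
    have : (1 : ℝ) ≤ 10 ^ 100 := one_le_pow₀ (by norm_num)
    linarith : XX κ P θ + XX κ Q θ ≤ m * κ)
  rw [← hK] at hs
  have he : Real.exp (-(u ^ 4 / 250)) ≤ 1 / 100 := by
    have h1 := Real.add_one_le_exp (u ^ 4 / 250)
    have h2 : (10 : ℝ) ^ 100 ≤ 10 ^ 200 := pow_le_pow_right₀ (by norm_num) (by norm_num)
    have h3 : (250 * 100 : ℝ) ≤ 10 ^ 100 := by norm_num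
    have h4 : (100 : ℝ) ≤ Real.exp (u ^ 4 / 250) := by
      have h5 : (100 : ℝ) ≤ u ^ 4 / 250 := by rw [le_div_iff₀ (by norm_num)]; linarith
      linarith
    rw [Real.exp_neg, ← one_div]
    exact one_div_le_one_div_of_le (by norm_num) h4
  have hL : 99 / 100 * m ≤ (L.card : ℝ) := by
    rw [hcard]
    have := mul_le_mul_of_nonneg_left he hm0.le
    linarith
  have hL0 : 0 < (L.card : ℝ) := lt_of_lt_of_le (by positivity) hL
  -- the number of heavy points in terms of X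
  have hh := card_heavy h.part hk0
  rw [← hK, ← hX] at hh
  have hE1 : (1 : ℝ) ≤ Real.exp (u ^ 4 / 200) := Real.one_le_exp (by positivity)
  have hKX : K * κ ≤ 2 * X := by
    have h1 : K * κ * 1 ≤ K * κ * Real.exp (u ^ 4 / 200) :=
      mul_le_mul_of_nonneg_left hE1 (mul_nonneg hK0 hk0.le)
    have h2 : K * (κ * Real.exp (u ^ 4 / 200) / 2) = K * κ * Real.exp (u ^ 4 / 200) / 2 := by ring
    rw [h2] at hh
    linarith
  refine ⟨Real.arsinh (SS L θ / L.card), ?_, ?_⟩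
  · rw [Real.sinh_arsinh]; field_simp
  · set c := Real.arsinh (SS L θ / L.card) with hc
    have hsc : Real.sinh c = SS L θ / L.card := by rw [hc, Real.sinh_arsinh]
    refine (abs_sub_le_sinh c θ0).trans ?_
    have e1 : Real.sinh c - Real.sinh θ0 = ((SS L θ - m * Real.sinh θ0) + K * Real.sinh θ0) / L.card := by
      rw [hsc, eq_div_iff hL0.ne', sub_mul, div_mul_cancel₀ _ hL0.ne', hcard]
      ring
    rw [e1, abs_div, abs_of_pos hL0, div_le_div_iff₀ hL0 hmk]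
    have h1 := h.SL.1
    have hsinh0 : 0 ≤ Real.sinh θ0 := Real.sinh_nonneg_iff.2 t0
    have hsinh1 : m * κ * Real.sinh θ0 ≤ 2 := by
      rw [t2]
      have : Real.exp (-θ0) ≤ 1 := Real.exp_le_one_iff.2 (by linarith)
      linarith
    have h2 : |SS L θ - m * Real.sinh θ0 + K * Real.sinh θ0| * κ ≤ X + K * κ * Real.sinh θ0 := by
      have h3 := abs_add_le (SS L θ - m * Real.sinh θ0) (K * Real.sinh θ0)
      rw [abs_of_nonneg (mul_nonneg hK0 hsinh0)] at h3
      have h4 := mul_le_mul_of_nonneg_right h3 hk0.le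
      nlinarith
    have h5 : K * κ * Real.sinh θ0 ≤ X * (1 / 100) := by
      have h6 : Real.sinh θ0 ≤ 1 / 200 := by
        have h7 : (10 : ℝ) ^ 100 * Real.sinh θ0 ≤ m * κ * Real.sinh θ0 :=
          mul_le_mul_of_nonneg_right hbig hsinh0
        have h8 : (400 : ℝ) ≤ 10 ^ 100 := by norm_num
        have h9 := mul_le_mul_of_nonneg_right h8 hsinh0
        linarith
      calc K * κ * Real.sinh θ0 ≤ 2 * X * Real.sinh θ0 := mul_le_mul_of_nonneg_right hKX hsinh0
        _ ≤ 2 * X * (1 / 200) := mul_le_mul_of_nonneg_left h6 (by linarith)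
        _ = X * (1 / 100) := by ring
    calc |SS L θ - m * Real.sinh θ0 + K * Real.sinh θ0| * (m * κ)
        = (|SS L θ - m * Real.sinh θ0 + K * Real.sinh θ0| * κ) * m := by ring
      _ ≤ (X + X * (1 / 100)) * m := mul_le_mul_of_nonneg_right (by linarith) hm0.le
      _ = 101 / 100 * X * m := by ring
      _ ≤ 11 / 10 * X * (99 / 100 * m) := by
          have := mul_nonneg hX0 hm0.le
          linarith
      _ ≤ 11 / 10 * X * L.card := mul_le_mul_of_nonneg_left hL (by linarith)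

end

end Pool.Agent.RieszWin
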