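import Pool.Agent.RieszWin.XDefs

set_option autoImplicit false

open Real Finset

namespace Pool.Agent.RieszWin

open Pool.Agent.RieszSmall Pool.Agent.RieszLin Pool.Agent.RieszTr

namespace XLBAux

theorem sum_two' {ι : Type*} [Fintype ι] [DecidableEq ι] {i1 i2 : ι} (hne : i1 ≠ i2)
    (f : ι → ℝ) :
    ∑ z, f z = ∑ z ∈ univ.filter (fun z => z ≠ i1 ∧ z ≠ i2), f z + f i1 + f i2 := by
  rw [← Finset.sum_filter_add_sum_filter_not univ (fun z => z ≠ i1 ∧ z ≠ i2) f]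
  have h : univ.filter (fun z => ¬(z ≠ i1 ∧ z ≠ i2)) = {i1, i2} := by
    ext z
    simp only [Finset.mem_filter, Finset.mem_univ, true_and, Finset.mem_insert,
      Finset.mem_singleton]
    tauto
  rw [h, Finset.sum_pair hne, add_assoc]

theorem mem_Z {ι : Type*} [Fintype ι] [DecidableEq ι] {i1 i2 z : ι} :
    z ∈ univ.filter (fun z => z ≠ i1 ∧ z ≠ i2) ↔ z ≠ i1 ∧ z ≠ i2 := by
  simp

/-- the pair sum and the diagonal of the points outside -/
theorem PS_eq {ι : Type*} [Fintype ι] [DecidableEq ι] {q κ : ℝ} (hk : 0 < κ) {i1 i2 : ι}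
    {θ b α : ι → ℝ}
    (hb : ∀ z, z ≠ i1 → z ≠ i2 → b z = √κ * Real.cosh (θ z))
    (ha : ∀ z, z ≠ i1 → z ≠ i2 → α z = √κ * Real.sinh (θ z)) :
    offd (univ.filter (fun z => z ≠ i1 ∧ z ≠ i2)) (fun i j => Phi q (b i * b j - α i * α j)) =
      PS q κ (univ.filter (fun z => z ≠ i1 ∧ z ≠ i2)) θ := by
  unfold PS offd
  apply Finset.sum_congr rfl
  intro i hi
  apply Finset.sum_congr rfl
  intro j hj
  rw [mem_Z] at hi hj
  have hs : √κ * √κ = κ := Real.mul_self_sqrt hk.le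
  have e : b i * b j - α i * α j = κ * Real.cosh (θ i - θ j) := by
    rw [hb i hi.1 hi.2, hb j hj.1 hj.2, ha i hi.1 hi.2, ha j hj.1 hj.2, Real.cosh_sub]
    calc √κ * Real.cosh (θ i) * (√κ * Real.cosh (θ j)) -
          √κ * Real.sinh (θ i) * (√κ * Real.sinh (θ j))
        = (√κ * √κ) * (Real.cosh (θ i) * Real.cosh (θ j) - Real.sinh (θ i) * Real.sinh (θ j)) := by
          ring
      _ = _ := by rw [hs]
  show (if i = j then 0 else Phi q (b i * b j - α i * α j)) =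
    if i = j then 0 else Phi q (κ * Real.cosh (θ i - θ j))
  rw [e]

theorem diag_eq {ι : Type*} [Fintype ι] [DecidableEq ι] {κ : ℝ} (hk : 0 < κ) {i1 i2 : ι}
    {θ b α : ι → ℝ}
    (hb : ∀ z, z ≠ i1 → z ≠ i2 → b z = √κ * Real.cosh (θ z))
    (ha : ∀ z, z ≠ i1 → z ≠ i2 → α z = √κ * Real.sinh (θ z)) :
    ∑ z ∈ univ.filter (fun z => z ≠ i1 ∧ z ≠ i2), (b z ^ 2 - α z ^ 2) =
      ((univ.filter (fun z => z ≠ i1 ∧ z ≠ i2)).card : ℝ) * κ := by
  have h : ∀ z ∈ univ.filter (fun z => z ≠ i1 ∧ z ≠ i2), b z ^ 2 - α z ^ 2 = κ := by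
    intro z hz
    rw [mem_Z] at hz
    have hs : √κ ^ 2 = κ := Real.sq_sqrt hk.le
    rw [hb z hz.1 hz.2, ha z hz.1 hz.2, mul_pow, mul_pow, hs]
    have := Real.cosh_sq (θ z)
    rw [this]; ring
  rw [Finset.sum_congr rfl h, Finset.sum_const, nsmul_eq_mul]

end XLBAux

open XLBAux

section

variable {ι : Type*} [Fintype ι] [DecidableEq ι]

/-- MODULE RW36 (sums with two distinguished indices). -/
theorem offsum_two {i1 i2 : ι} (hne : i1 ≠ i2) (f : ι → ι → ℝ) (hf : ∀ i j, f i j = f j i) :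
    offsum f = offd (univ.filter (fun z => z ≠ i1 ∧ z ≠ i2)) f
      + 2 * ∑ z ∈ univ.filter (fun z => z ≠ i1 ∧ z ≠ i2), (f i1 z + f i2 z) + 2 * f i1 i2 := by
  unfold offsum offd
  rw [sum_two' hne]
  have hin : ∀ i : ι, ∑ j, (if i = j then 0 else f i j) =
      ∑ j ∈ univ.filter (fun z => z ≠ i1 ∧ z ≠ i2), (if i = j then 0 else f i j)
        + (if i = i1 then 0 else f i i1) + (if i = i2 then 0 else f i i2) :=
    fun i => sum_two' hne _
  simp only [hin, Finset.sum_add_distrib]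
  have c1 : ∑ z ∈ univ.filter (fun z => z ≠ i1 ∧ z ≠ i2), (if z = i1 then 0 else f z i1) =
      ∑ z ∈ univ.filter (fun z => z ≠ i1 ∧ z ≠ i2), f i1 z :=
    Finset.sum_congr rfl fun z hz => by rw [if_neg (mem_Z.1 hz).1, hf]
  have c2 : ∑ z ∈ univ.filter (fun z => z ≠ i1 ∧ z ≠ i2), (if z = i2 then 0 else f z i2) =
      ∑ z ∈ univ.filter (fun z => z ≠ i1 ∧ z ≠ i2), f i2 z :=
    Finset.sum_congr rfl fun z hz => by rw [if_neg (mem_Z.1 hz).2, hf]
  have c3 : ∑ z ∈ univ.filter (fun z => z ≠ i1 ∧ z ≠ i2), (if i1 = z then 0 else f i1 z) =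
      ∑ z ∈ univ.filter (fun z => z ≠ i1 ∧ z ≠ i2), f i1 z :=
    Finset.sum_congr rfl fun z hz => by rw [if_neg (fun e => (mem_Z.1 hz).1 e.symm)]
  have c4 : ∑ z ∈ univ.filter (fun z => z ≠ i1 ∧ z ≠ i2), (if i2 = z then 0 else f i2 z) =
      ∑ z ∈ univ.filter (fun z => z ≠ i1 ∧ z ≠ i2), f i2 z :=
    Finset.sum_congr rfl fun z hz => by rw [if_neg (fun e => (mem_Z.1 hz).2 e.symm)]
  rw [c1, c2, c3, c4, if_neg hne, if_neg hne.symm, hf i2 i1]
  simp only [if_true]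
  ring

theorem sum_two {i1 i2 : ι} (hne : i1 ≠ i2) (f : ι → ℝ) :
    ∑ z, f z = ∑ z ∈ univ.filter (fun z => z ≠ i1 ∧ z ≠ i2), f z + f i1 + f i2 :=
  sum_two' hne f

/-- the certificate near the block with equal `b` at the two points -/
theorem XLB0 {q κ β e : ℝ} (hk : 0 < κ) {i1 i2 : ι} (hne : i1 ≠ i2) {θ b α : ι → ℝ}
    (hb1 : b i1 = β) (hb2 : b i2 = β) (ha1 : α i1 = -(β * (1 + e))) (ha2 : α i2 = -(β * (1 - e)))
    (hb : ∀ z, z ≠ i1 → z ≠ i2 → b z = √κ * Real.cosh (θ z))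
    (ha : ∀ z, z ≠ i1 → z ≠ i2 → α z = √κ * Real.sinh (θ z)) :
    LB q b α = PS q κ (univ.filter (fun z => z ≠ i1 ∧ z ≠ i2)) θ
      - q * ((univ.filter (fun z => z ≠ i1 ∧ z ≠ i2)).card : ℝ) * κ
      + 2 * ∑ z ∈ univ.filter (fun z => z ≠ i1 ∧ z ≠ i2),
          (Phi q (β * √κ * Real.exp (θ z) + e * (β * √κ * Real.sinh (θ z)))
            + Phi q (β * √κ * Real.exp (θ z) - e * (β * √κ * Real.sinh (θ z))))
      + 2 * Phi q (β ^ 2 * e ^ 2) + 2 * q * (β ^ 2 * e ^ 2) := by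
  unfold LB
  rw [offsum_two hne _ (fun i j => by rw [mul_comm (b i), mul_comm (α i)]),
    sum_two hne (fun i => b i ^ 2 - α i ^ 2), PS_eq hk hb ha, diag_eq hk hb ha]
  have h1 : ∑ z ∈ univ.filter (fun z => z ≠ i1 ∧ z ≠ i2),
      (Phi q (b i1 * b z - α i1 * α z) + Phi q (b i2 * b z - α i2 * α z)) =
      ∑ z ∈ univ.filter (fun z => z ≠ i1 ∧ z ≠ i2),
          (Phi q (β * √κ * Real.exp (θ z) + e * (β * √κ * Real.sinh (θ z)))
            + Phi q (β * √κ * Real.exp (θ z) - e * (β * √κ * Real.sinh (θ z)))) := by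
    apply Finset.sum_congr rfl
    intro z hz
    rw [mem_Z] at hz
    have hexp : Real.exp (θ z) = Real.cosh (θ z) + Real.sinh (θ z) := (Real.cosh_add_sinh _).symm
    rw [hb1, hb2, ha1, ha2, hb z hz.1 hz.2, ha z hz.1 hz.2, hexp]
    congr 2 <;> ring
  have h2 : b i1 * b i2 - α i1 * α i2 = β ^ 2 * e ^ 2 := by
    rw [hb1, hb2, ha1, ha2]; ring
  rw [h1, h2, hb1, hb2, ha1, ha2]
  ring

/-- the certificate near the block with `b = -α` at the two points -/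
theorem XLB1 {q κ β e : ℝ} (hk : 0 < κ) {i1 i2 : ι} (hne : i1 ≠ i2) {θ b α : ι → ℝ}
    (hb1 : b i1 = β * (1 + e)) (hb2 : b i2 = β * (1 - e)) (ha1 : α i1 = -(β * (1 + e)))
    (ha2 : α i2 = -(β * (1 - e)))
    (hb : ∀ z, z ≠ i1 → z ≠ i2 → b z = √κ * Real.cosh (θ z))
    (ha : ∀ z, z ≠ i1 → z ≠ i2 → α z = √κ * Real.sinh (θ z)) :
    LB q b α = PS q κ (univ.filter (fun z => z ≠ i1 ∧ z ≠ i2)) θ
      - q * ((univ.filter (fun z => z ≠ i1 ∧ z ≠ i2)).card : ℝ) * κ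
      + 2 * ∑ z ∈ univ.filter (fun z => z ≠ i1 ∧ z ≠ i2),
          (Phi q ((1 + e) * (β * √κ * Real.exp (θ z)))
            + Phi q ((1 - e) * (β * √κ * Real.exp (θ z))))
      + 2 * Phi q 0 := by
  unfold LB
  rw [offsum_two hne _ (fun i j => by rw [mul_comm (b i), mul_comm (α i)]),
    sum_two hne (fun i => b i ^ 2 - α i ^ 2), PS_eq hk hb ha, diag_eq hk hb ha]
  have h1 : ∑ z ∈ univ.filter (fun z => z ≠ i1 ∧ z ≠ i2),
      (Phi q (b i1 * b z - α i1 * α z) + Phi q (b i2 * b z - α i2 * α z)) =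
      ∑ z ∈ univ.filter (fun z => z ≠ i1 ∧ z ≠ i2),
          (Phi q ((1 + e) * (β * √κ * Real.exp (θ z)))
            + Phi q ((1 - e) * (β * √κ * Real.exp (θ z)))) := by
    apply Finset.sum_congr rfl
    intro z hz
    rw [mem_Z] at hz
    have hexp : Real.exp (θ z) = Real.cosh (θ z) + Real.sinh (θ z) := (Real.cosh_add_sinh _).symm
    rw [hb1, hb2, ha1, ha2, hb z hz.1 hz.2, ha z hz.1 hz.2, hexp]
    congr 2 <;> ring
  have h2 : b i1 * b i2 - α i1 * α i2 = 0 := by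
    rw [hb1, hb2, ha1, ha2]; ring
  rw [h1, h2, hb1, hb2, ha1, ha2]
  ring

end

end Pool.Agent.RieszWin
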