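import Pool.Agent.RieszWin.XFac

set_option autoImplicit false

open Real Finset

namespace Pool.Agent.RieszWin

open Pool.Agent.RieszSmall Pool.Agent.RieszLin Pool.Agent.RieszTr

section

variable {ι : Type*} [DecidableEq ι] {u q m κ θ0 : ℝ} {Z L P Q : Finset ι} {θ : ι → ℝ}

namespace XLightAux

theorem cosh_sub_le {d : ℝ} (hd : |d| ≤ 1) : Real.cosh d - 1 ≤ d ^ 2 := by
  have h1 := Real.cosh_le_exp_half_sq d
  have h0 : 0 ≤ d ^ 2 / 2 := by positivity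
  have h2 : d ^ 2 ≤ 1 := by
    rw [← sq_abs]
    exact pow_le_one₀ (abs_nonneg d) hd
  have h3 : |Real.exp (d ^ 2 / 2) - 1 - d ^ 2 / 2| ≤ (d ^ 2 / 2) ^ 2 :=
    Real.abs_exp_sub_one_sub_id_le (by rw [abs_of_nonneg h0]; linarith)
  have h4 := (abs_le.1 h3).2
  nlinarith

/-- basic numbers -/
theorem nums (h : Win u q m κ) :
    1000 ≤ u ^ 4 ∧ 1 ≤ u ∧ u ^ 2 ≤ u ^ 4 ∧ u ≤ u ^ 4 ∧ 1000 ≤ m := by
  have hu : (1:ℝ) ≤ u := le_trans (one_le_pow₀ (by norm_num)) (FactsAux.u20 h)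
  refine ⟨le_trans (by norm_num) (FactsAux.U_ge h), hu, pow_le_pow_right₀ hu (by norm_num), ?_,
    le_trans (by norm_num) (FactsAux.m_big h)⟩
  calc u = u ^ 1 := (pow_one u).symm
    _ ≤ u ^ 4 := pow_le_pow_right₀ hu (by norm_num)

omit [DecidableEq ι] in
theorem card_le {S : Finset ι} (hk : 0 < κ) (hS : ∀ z ∈ S, u ^ 4 / 200 ≤ |θ z|) :
    (S.card : ℝ) * (κ * Real.exp (u ^ 4 / 200) / 2) ≤ XX κ S θ := by
  unfold XX
  rw [← nsmul_eq_mul]
  refine Finset.card_nsmul_le_sum _ _ _ fun z hz => ?_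
  unfold xi
  have := Real.exp_le_exp.2 (hS z hz)
  have := mul_le_mul_of_nonneg_left this hk.le
  linarith

omit [DecidableEq ι] in
theorem card_fin {S : Finset ι} (h : Win u q m κ) (hmk : 104 / 100 * u ^ 4 ≤ m * κ)
    (hS : ∀ z ∈ S, u ^ 4 / 200 ≤ |θ z|) :
    4 * (S.card : ℝ) ≤ 1 / u * (m * XX κ S θ) := by
  obtain ⟨hU, hu1, hu2, hu3, hm1⟩ := nums h
  have hk := h.hk
  have h1 := card_le (u := u) hk hS
  have hu0 : 0 < u := by linarith
  have hm0 : 0 < m := by linarith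
  have he : 8 ≤ Real.exp (u ^ 4 / 200) * 2 := by
    have := Real.add_one_le_exp (u ^ 4 / 200)
    linarith
  have hn : (0:ℝ) ≤ S.card := Nat.cast_nonneg _
  have h2 : m * ((S.card : ℝ) * (κ * Real.exp (u ^ 4 / 200) / 2)) ≤ m * XX κ S θ :=
    mul_le_mul_of_nonneg_left h1 hm0.le
  have h3 : 4 * (S.card : ℝ) * u ≤ m * ((S.card : ℝ) * (κ * Real.exp (u ^ 4 / 200) / 2)) := by
    have h4 : u * 4 ≤ (m * κ) * (Real.exp (u ^ 4 / 200) / 2) := by
      have h5 : u ≤ m * κ := by linarith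
      have h6 : 2 ≤ Real.exp (u ^ 4 / 200) / 2 := by linarith
      nlinarith [Real.add_one_le_exp (u ^ 4 / 200)]
    calc 4 * (S.card : ℝ) * u = (S.card : ℝ) * (u * 4) := by ring
      _ ≤ (S.card : ℝ) * ((m * κ) * (Real.exp (u ^ 4 / 200) / 2)) :=
        mul_le_mul_of_nonneg_left h4 hn
      _ = _ := by ring
  rw [one_div, inv_mul_eq_div, le_div_iff₀ hu0]
  linarith

theorem scal1 {U m κ C W G n : ℝ} (hU : 0 < U) (hmk : 104 / 100 * U ≤ m * κ) (hk : 0 < κ)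
    (hm : 0 < m) (hC : C ≤ 101 / 100) (hW : 0 ≤ W) (hG : 2 * n * W ≤ G) (hn : 99 / 100 * m ≤ n) :
    1 / 5 * U * (2 * C * W) ≤ κ * G := by
  have e1 : C * W ≤ 101 / 100 * W := mul_le_mul_of_nonneg_right hC hW
  have e2 : 1 / 5 * U * (2 * C * W) ≤ 1 / 5 * U * (202 / 100 * W) :=
    mul_le_mul_of_nonneg_left (by linarith) (by positivity)
  have e3 : U * W ≤ m * κ * W := mul_le_mul_of_nonneg_right (by linarith) hW
  have e4 : 2 * (99 / 100 * m) * W ≤ 2 * n * W :=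
    mul_le_mul_of_nonneg_right (by linarith) hW
  have e5 : κ * (2 * (99 / 100 * m) * W) ≤ κ * G :=
    mul_le_mul_of_nonneg_left (e4.trans hG) hk.le
  have e6 : 0 ≤ m * κ * W := by positivity
  linarith

theorem scal2 {m κ d S n C : ℝ} (hu : 0 < u) (hu2 : u ^ 2 ≤ u ^ 4) (hmk : u ^ 4 ≤ m * κ)
    (hm : 0 < m) (hd2 : |d| * (m * κ) ≤ 11 / 10 * S) (hS0 : 0 ≤ S) (hS1 : S ≤ 1)
    (hn : n ≤ 2 * m) (hn0 : 0 ≤ n) (hC : C - 1 ≤ d ^ 2) :
    1 / 5 * u ^ 4 * (2 * (C - 1) * n) ≤ m / u ^ 2 * S := by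
  have hU0 : 0 < u ^ 4 := by positivity
  have hd0 := abs_nonneg d
  have e1 : (|d| * u ^ 4) ^ 2 ≤ (11 / 10 * S) ^ 2 := by
    apply pow_le_pow_left₀ (by positivity)
    exact (mul_le_mul_of_nonneg_left hmk hd0).trans hd2
  have e3 : S ^ 2 ≤ S := by nlinarith
  have e4 : d ^ 2 * u ^ 4 * u ^ 4 ≤ 121 / 100 * S := by
    have : d ^ 2 * u ^ 4 * u ^ 4 = (|d| * u ^ 4) ^ 2 := by
      rw [mul_pow, sq_abs]
      ring
    rw [this]
    refine e1.trans ?_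
    rw [mul_pow]
    linarith
  have e5 : d ^ 2 * u ^ 4 ≤ 121 / 100 * S / u ^ 4 := by
    rwa [le_div_iff₀ hU0]
  have e7 : 2 * (C - 1) * n ≤ 2 * d ^ 2 * (2 * m) := by
    apply mul_le_mul (by linarith) hn hn0 (by positivity)
  have e8 : 1 / 5 * u ^ 4 * (2 * (C - 1) * n) ≤ 4 / 5 * m * (d ^ 2 * u ^ 4) := by
    refine (mul_le_mul_of_nonneg_left e7 (by positivity : (0:ℝ) ≤ 1 / 5 * u ^ 4)).trans
      (le_of_eq ?_)
    ring
  have e9 : 4 / 5 * m * (d ^ 2 * u ^ 4) ≤ 4 / 5 * m * (121 / 100 * S / u ^ 4) :=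
    mul_le_mul_of_nonneg_left e5 (by positivity)
  have e10 : 4 / 5 * m * (121 / 100 * S / u ^ 4) ≤ m * S / u ^ 4 := by
    rw [mul_div_assoc', div_le_div_iff_of_pos_right hU0]
    have : 0 ≤ m * S := by positivity
    linarith
  have e11 : m * S / u ^ 4 ≤ m * S / u ^ 2 :=
    div_le_div_of_nonneg_left (by positivity) (by positivity) hu2
  calc 1 / 5 * u ^ 4 * (2 * (C - 1) * n) ≤ m * S / u ^ 2 := by linarith
    _ = m / u ^ 2 * S := by ring

end XLightAux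

open XLightAux

/-- MODULE RW32 (light points near the block). With `v = θ z - θ0`: `Φ(e^v) ≥ Fh (e^v)
= e^v (1 - v)`, so `1 - Φ(e^v) ≤ 2 (1 + |v|)(cosh v - 1)` (`kfun_le`), `|v| ≤ u^4/45 + 1`.
`cosh_add_le` with `x = θ z - c`, `y = c - θ0 = δ`, `|δ| ≤ 1/100`:
`∑_L (cosh v - 1) ≤ 2 cosh δ ∑ (cosh (θ - c) - 1) + 2 |L| (cosh δ - 1) ≤ 1.01 GG/|L| + 1.01 |L| δ²`
(`GG_center`). Total `≤ 0.2 u^4 (1.01 GG/|L| + 1.01 |L| δ²)`; `u^4 ≤ m κ`, `|L| ≥ 0.99 m`,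
`δ ≤ 1.1 (X+Y)/(m κ)`, `X + Y ≤ 1`. -/
theorem XZ.light (h : XZ u q m κ θ0 Z L P Q θ) :
    4 * ∑ z ∈ L, (1 - Phi q (Real.exp (θ z - θ0)))
      ≤ κ * GG L θ + m / u ^ 2 * (XX κ P θ + XX κ Q θ) := by
  obtain ⟨hU, hu1, hu2, hu3, hm1⟩ := nums h.win
  obtain ⟨-, hm0, hq, hk, -⟩ := h.win.pos
  have hmk := h.mk4
  obtain ⟨t0, t1, -⟩ := h.th0
  obtain ⟨hL1, hL2⟩ := h.nz.card_L
  obtain ⟨c, hc, hcd⟩ := h.center
  have hX := XX_nonneg hk P θ
  have hY := XX_nonneg hk Q θ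
  have hXY : XX κ P θ + XX κ Q θ ≤ 1 := by
    have := h.hP
    have := h.hQ
    linarith
  have hu0 : 0 < u := by linarith
  have hU0 : 0 < u ^ 4 := by linarith
  have ht1 : θ0 ≤ 1 := by
    refine t1.trans ?_
    rw [div_le_one (by positivity)]
    exact one_le_pow₀ hu1
  have hmk0 : 0 < m * κ := by positivity
  have hLc : 99 / 100 * m ≤ (L.card : ℝ) := by
    have he : Real.exp (-(u ^ 4 / 300)) ≤ 1 / 100 := by
      have h1 : (100:ℝ) ≤ Real.exp (u ^ 4 / 300) := by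
        have hUb : (10 : ℝ) ^ 80 ≤ u ^ 4 := FactsAux.U_ge h.win
        have hUc : (30000 : ℝ) ≤ u ^ 4 := le_trans (by norm_num) hUb
        have := Real.add_one_le_exp (u ^ 4 / 300)
        linarith
      rw [Real.exp_neg, inv_eq_one_div]
      exact one_div_le_one_div_of_le (by norm_num) h1
    nlinarith
  -- pointwise
  have hpt : ∀ z ∈ L, 4 * (1 - Phi q (Real.exp (θ z - θ0))) ≤
      1 / 5 * u ^ 4 * (2 * Real.cosh (c - θ0) * (Real.cosh (θ z - c) - 1) +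
        2 * (Real.cosh (c - θ0) - 1)) := by
    intro z hz
    have h1 := Fh_le_Phi (K := Real.exp (θ z - θ0)) hq (Real.exp_pos _)
    have h2 : Fh (Real.exp (θ z - θ0)) =
        Real.exp (θ z - θ0) - (θ z - θ0) * Real.exp (θ z - θ0) := by
      rw [Fh, Real.log_exp]
      ring
    have h3 := kfun_le (θ z - θ0)
    have h4 : |θ z - θ0| ≤ u ^ 4 / 45 + 1 := by
      have := h.part.hL z hz
      have h5 : |θ0| ≤ 1 := by rw [abs_of_nonneg t0]; exact ht1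
      exact (abs_sub _ _).trans (by linarith)
    have h6 : 0 ≤ Real.cosh (θ z - θ0) - 1 := by linarith [Real.one_le_cosh (θ z - θ0)]
    have h7 : 2 * (1 + |θ z - θ0|) * (Real.cosh (θ z - θ0) - 1) ≤
        1 / 20 * u ^ 4 * (Real.cosh (θ z - θ0) - 1) := by
      apply mul_le_mul_of_nonneg_right _ h6
      linarith
    have h8 := cosh_add_le (θ z - c) (c - θ0)
    have h9 : θ z - c + (c - θ0) = θ z - θ0 := by ring
    rw [h9] at h8
    have h10 := mul_le_mul_of_nonneg_left h8 (by positivity : (0:ℝ) ≤ 1 / 5 * u ^ 4)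
    linarith
  have hsum : 4 * ∑ z ∈ L, (1 - Phi q (Real.exp (θ z - θ0))) ≤
      1 / 5 * u ^ 4 * (2 * Real.cosh (c - θ0) * ∑ z ∈ L, (Real.cosh (θ z - c) - 1) +
        2 * (Real.cosh (c - θ0) - 1) * L.card) := by
    rw [Finset.mul_sum]
    refine (Finset.sum_le_sum hpt).trans (le_of_eq ?_)
    rw [← Finset.mul_sum, Finset.sum_add_distrib, ← Finset.mul_sum, Finset.sum_const,
      nsmul_eq_mul]
    ring
  have hG := GG_center L θ hc
  have hGG := GG_nonneg L θ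
  set W := ∑ z ∈ L, (Real.cosh (θ z - c) - 1) with hW
  have hW0 : 0 ≤ W := Finset.sum_nonneg fun z _ => by linarith [Real.one_le_cosh (θ z - c)]
  set d := c - θ0 with hd
  have hd1 : |d| ≤ 11 / 10 * (XX κ P θ + XX κ Q θ) / (m * κ) := hcd
  have hd2 : |d| * (m * κ) ≤ 11 / 10 * (XX κ P θ + XX κ Q θ) := by
    rwa [le_div_iff₀ hmk0] at hd1
  have hd0 := abs_nonneg d
  have hd3 : |d| ≤ 1 / 100 := by nlinarith
  have hch : Real.cosh d - 1 ≤ d ^ 2 := cosh_sub_le (by linarith)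
  have hsq : d ^ 2 = |d| ^ 2 := (sq_abs d).symm
  have hch1 := Real.one_le_cosh d
  have hch2 : Real.cosh d ≤ 101 / 100 := by
    have : |d| ^ 2 ≤ (1 / 100) ^ 2 := pow_le_pow_left₀ hd0 hd3 2
    linarith
  -- first part
  have p1 : 1 / 5 * u ^ 4 * (2 * Real.cosh d * W) ≤ κ * GG L θ :=
    scal1 (by linarith) hmk hk hm0 hch2 hW0 hG hLc
  -- second part
  have p2 : 1 / 5 * u ^ 4 * (2 * (Real.cosh d - 1) * L.card) ≤
      m / u ^ 2 * (XX κ P θ + XX κ Q θ) :=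
    scal2 hu0 hu2 (by linarith) hm0 hd2 (by linarith) hXY (by linarith) (Nat.cast_nonneg _) hch
  have e : 1 / 5 * u ^ 4 * (2 * Real.cosh d * W + 2 * (Real.cosh d - 1) * L.card) =
      1 / 5 * u ^ 4 * (2 * Real.cosh d * W) + 1 / 5 * u ^ 4 * (2 * (Real.cosh d - 1) * L.card) := by
    ring
  linarith

/-- Heavy positive points: `K = exp(θ - θ0) ≤ exp θ = 2 ξ/κ`, `ξ ≤ 1/150`. If `K ≤ e` then
`Φ(K) ≥ Fh K ≥ 0`; otherwise `Φ(K) ≥ K - K log K ≥ -(2 ξ/κ) el κ`. So the sum is at most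
`4 |P| + 8 (el κ/κ) XX P`, `el κ/κ = m/lam`, and `|P| ≤ 2 exp(-u^4/200) XX P/κ`, `1/κ ≤ m`. -/
theorem XZ.heavyP (h : XZ u q m κ θ0 Z L P Q θ) :
    4 * ∑ z ∈ P, (1 - Phi q (Real.exp (θ z - θ0))) ≤ (8 / lam m κ + 1 / u) * (m * XX κ P θ) := by
  obtain ⟨hU, hu1, hu2, hu3, hm1⟩ := nums h.win
  obtain ⟨-, hm0, hq, hk, -⟩ := h.win.pos
  obtain ⟨he1, -⟩ := h.win.el_bds
  obtain ⟨t0, t1, -⟩ := h.th0
  have hel : 0 < el κ := by linarith
  have hc := card_fin (S := P) (θ := θ) h.win h.mk4 fun z hz =>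
    (h.part.hP z hz).trans (le_abs_self _)
  have hpt : ∀ z ∈ P, 4 * (1 - Phi q (Real.exp (θ z - θ0))) ≤
      4 + 8 * (el κ / κ) * xi κ (θ z) := by
    intro z hz
    have hz1 := h.part.hP z hz
    have hzp : 0 < θ z := by linarith
    have hxi : xi κ (θ z) = κ * Real.exp (θ z) / 2 := by rw [xi, abs_of_pos hzp]
    have hxi1 : xi κ (θ z) ≤ 1 / 150 := (xi_le_XX hk hz).trans h.hP
    have h1 := Fh_le_Phi (K := Real.exp (θ z - θ0)) hq (Real.exp_pos _)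
    have h2 : Fh (Real.exp (θ z - θ0)) =
        Real.exp (θ z - θ0) - Real.exp (θ z - θ0) * (θ z - θ0) := by
      rw [Fh, Real.log_exp]
    have h3 : θ z - θ0 ≤ el κ := by
      have h4 : κ * Real.exp (θ z) ≤ 1 := by
        rw [hxi] at hxi1
        linarith
      have h5 : Real.log (κ * Real.exp (θ z)) ≤ 0 :=
        Real.log_nonpos (by positivity) h4
      rw [Real.log_mul hk.ne' (Real.exp_pos _).ne', Real.log_exp] at h5
      rw [el]
      linarith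
    have h6 : Real.exp (θ z - θ0) ≤ Real.exp (θ z) := Real.exp_le_exp.2 (by linarith)
    have h7 : Real.exp (θ z - θ0) * (θ z - θ0) ≤ Real.exp (θ z) * el κ :=
      (mul_le_mul_of_nonneg_left h3 (Real.exp_pos _).le).trans
        (mul_le_mul_of_nonneg_right h6 hel.le)
    have h8 : 8 * (el κ / κ) * xi κ (θ z) = 4 * (Real.exp (θ z) * el κ) := by
      rw [hxi]
      field_simp
      ring
    have h9 := Real.exp_pos (θ z - θ0)
    linarith
  have hsum : 4 * ∑ z ∈ P, (1 - Phi q (Real.exp (θ z - θ0))) ≤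
      4 * (P.card : ℝ) + 8 * (el κ / κ) * XX κ P θ := by
    rw [Finset.mul_sum]
    refine (Finset.sum_le_sum hpt).trans (le_of_eq ?_)
    rw [Finset.sum_add_distrib, ← Finset.mul_sum, Finset.sum_const, nsmul_eq_mul, XX]
    ring
  have h10 : 8 / lam m κ * (m * XX κ P θ) = 8 * (el κ / κ) * XX κ P θ := by
    rw [lam]
    field_simp
  rw [add_mul, h10]
  linarith

/-- Heavy negative points: `0 < K ≤ 1`, `Φ(K) ≥ 0`; `4 |Q| ≤ 8 exp(-u^4/200) XX Q/κ`. -/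
theorem XZ.heavyQ (h : XZ u q m κ θ0 Z L P Q θ) :
    4 * ∑ z ∈ Q, (1 - Phi q (Real.exp (θ z - θ0))) ≤ 1 / u * (m * XX κ Q θ) := by
  obtain ⟨hU, hu1, hu2, hu3, hm1⟩ := nums h.win
  obtain ⟨-, hm0, hq, hk, -⟩ := h.win.pos
  obtain ⟨t0, t1, -⟩ := h.th0
  have hc := card_fin (S := Q) (θ := θ) h.win h.mk4 fun z hz =>
    (h.part.hQ z hz).trans (neg_le_abs _)
  have hpt : ∀ z ∈ Q, 4 * (1 - Phi q (Real.exp (θ z - θ0))) ≤ 4 := by
    intro z hz
    have hz1 := h.part.hQ z hz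
    have h1 := Fh_le_Phi (K := Real.exp (θ z - θ0)) hq (Real.exp_pos _)
    have h2 : Fh (Real.exp (θ z - θ0)) =
        Real.exp (θ z - θ0) * (1 - (θ z - θ0)) := by
      rw [Fh, Real.log_exp]
      ring
    have h3 : 0 ≤ Fh (Real.exp (θ z - θ0)) := by
      rw [h2]
      exact mul_nonneg (Real.exp_pos _).le (by linarith)
    linarith
  have hsum : 4 * ∑ z ∈ Q, (1 - Phi q (Real.exp (θ z - θ0))) ≤ 4 * (Q.card : ℝ) := by
    rw [Finset.mul_sum]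
    refine (Finset.sum_le_sum hpt).trans (le_of_eq ?_)
    rw [Finset.sum_const, nsmul_eq_mul]
    ring
  linarith

end

end Pool.Agent.RieszWin
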