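import Pool.Agent.RieszWin.XLight

set_option autoImplicit false

open Real Finset

namespace Pool.Agent.RieszWin

open Pool.Agent.RieszSmall Pool.Agent.RieszLin Pool.Agent.RieszTr

namespace XMAux

/-- `5 ≤ log 150` -/
theorem log150 : (5 : ℝ) ≤ Real.log 150 := by
  rw [Real.le_log_iff_exp_le (by norm_num)]
  have h1 : Real.exp 5 = Real.exp 1 ^ 5 := by
    rw [← Real.exp_nat_mul]
    norm_num
  rw [h1]
  have h2 : Real.exp 1 ≤ 2.7182818286 := Real.exp_one_lt_d9.le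
  calc Real.exp 1 ^ 5 ≤ (2.7182818286 : ℝ) ^ 5 := pow_le_pow_left₀ (Real.exp_pos 1).le h2 5
    _ ≤ 150 := by norm_num

/-- `2.99 ≤ log 20` -/
theorem log20 : (299 / 100 : ℝ) ≤ Real.log 20 := by
  rw [Real.le_log_iff_exp_le (by norm_num)]
  have h2 : Real.exp 1 ≤ 2.7182818286 := Real.exp_one_lt_d9.le
  have h3 : Real.exp (299 / 100) = Real.exp 1 ^ 3 * Real.exp (-(1 / 100)) := by
    rw [← Real.exp_nat_mul, ← Real.exp_add]
    norm_num
  have h4 : Real.exp (-(1 / 100 : ℝ)) ≤ 1 - 1 / 100 + (1 / 100) ^ 2 := by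
    have := Real.abs_exp_sub_one_sub_id_le (x := -(1 / 100 : ℝ)) (by
      rw [abs_neg, abs_of_pos (by norm_num : (0 : ℝ) < 1 / 100)]
      norm_num)
    have := (abs_le.1 this).2
    linarith
  rw [h3]
  have h5 : Real.exp 1 ^ 3 ≤ (2.7182818286 : ℝ) ^ 3 := pow_le_pow_left₀ (Real.exp_pos 1).le h2 3
  calc Real.exp 1 ^ 3 * Real.exp (-(1 / 100))
      ≤ (2.7182818286 : ℝ) ^ 3 * (1 - 1 / 100 + (1 / 100) ^ 2) :=
        mul_le_mul h5 h4 (Real.exp_pos _).le (by norm_num)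
    _ ≤ 20 := by norm_num

/-- lower bound for `Fh` of a small number -/
theorem Fh_small {x y c : ℝ} (hx : 0 < x) (hxy : x ≤ 1 / y) (hc : c ≤ Real.log y) :
    (1 + c) * x ≤ Fh x := by
  unfold Fh
  have h1 : Real.log x ≤ Real.log (1 / y) := Real.log_le_log hx hxy
  rw [one_div, Real.log_inv] at h1
  have h2 : c ≤ -Real.log x := by linarith
  have h3 := mul_le_mul_of_nonneg_left h2 hx.le
  linarith

/-- `ξ + ξ |log ξ| = Fh ξ` for `0 < ξ ≤ 1` -/
theorem Fh_abs {x : ℝ} (hx : 0 < x) (h1 : x ≤ 1) : x + x * |Real.log x| = Fh x := by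
  unfold Fh
  rw [abs_of_nonpos (Real.log_nonpos hx.le h1)]
  ring

end XMAux

open XMAux

section

variable {ι : Type*} [DecidableEq ι] {u q m κ θ0 : ℝ} {Z L P Q : Finset ι} {θ : ι → ℝ}

/-- MODULE RW33 (main inequality near the block). `core` with `S0 = 21/10`, `B = 0`
(`2 ξ ξ' ≤ 1`), `XZ.light`, `XZ.heavyP`, `XZ.heavyQ`, `sum_part`. For `0 < ξ ≤ 1`,
`ξ + ξ |log ξ| = Fh ξ`. For `z ∈ P`: `Fh ξ ≥ ξ (1 + log 150) ≥ 6 ξ`; for `z ∈ Q`:
`Fh ξ ≥ ξ (1 + log 20) ≥ 3.99 ξ`. `(4/κ) el κ X Y = 4 m X Y/lam ≤ 0.2 m X` (`X = XX P`, `Y = XX Q`).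
Coefficients: `P`: `12 - 0.2 - 8/1.05 - small ≥ 3`; `Q`: `7.98 - small ≥ 6`. -/
theorem XZ.M (h : XZ u q m κ θ0 Z L P Q θ) :
    (m ^ 2 - m) * Phi q κ + 9 / 10 * u ^ 4 * (κ * GG L θ) + 3 * m * XX κ P θ + 6 * m * XX κ Q θ
      ≤ PS q κ Z θ - 4 * ∑ z ∈ Z, (1 - Phi q (Real.exp (θ z - θ0))) := by
  have hk : 0 < κ := h.win.hk
  have hm : 0 < m := FactsAux.m_pos h.win
  have hu : 0 < u := FactsAux.u_pos h.win
  have hu20 := FactsAux.u20 h.win
  have hu2 := FactsAux.u_sq h.win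
  have hu4 := FactsAux.U_ge h.win
  have hn := h.nz
  have hlam : 0 < lam m κ := lt_of_lt_of_le (by norm_num) h.hl
  have hel : 0 < el κ := by
    have h1 := FactsAux.el_lo h.win
    have h2 := FactsAux.U_pos h.win
    linarith
  have hX0 : 0 ≤ XX κ P θ := XX_nonneg hk P θ
  have hY0 : 0 ≤ XX κ Q θ := XX_nonneg hk Q θ
  have hxP : ∀ z ∈ P, xi κ (θ z) ≤ 1 / 150 := fun z hz => (xi_le_XX hk hz).trans h.hP
  have hxQ : ∀ z ∈ Q, xi κ (θ z) ≤ 1 / 20 := fun z hz => (xi_le_XX hk hz).trans h.hQ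
  have hx1 : ∀ z ∈ P ∪ Q, xi κ (θ z) ≤ 1 := fun z hz => by
    rcases Finset.mem_union.1 hz with h1 | h1
    · exact (hxP z h1).trans (by norm_num)
    · exact (hxQ z h1).trans (by norm_num)
  -- the core inequality
  have hcore := core (S0 := 21 / 10) (B := 0) h.win h.part hn.card
    (fun z hz => (hx1 z hz).trans (by norm_num)) hn.hS0 hn.hS hn.hX le_rfl (fun z hz w hw => by
      refine Real.log_nonpos ?_ ?_
      · have h1 : 0 < xi κ (θ z) := xi_pos hk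
        have h2 : 0 < xi κ (θ w) := xi_pos hk
        positivity
      · have h1 : 0 < xi κ (θ z) := xi_pos hk
        have h2 : 0 < xi κ (θ w) := xi_pos hk
        have h3 := hxP z hz
        have h4 := hxQ w hw
        nlinarith)
  have hcard : (Z.card : ℝ) = m := h.card
  rw [hcard] at hcore
  -- the sums of `Fh`
  have hsum : ∑ z ∈ P ∪ Q, (xi κ (θ z) + xi κ (θ z) * |Real.log (xi κ (θ z))|) =
      ∑ z ∈ P ∪ Q, Fh (xi κ (θ z)) :=
    Finset.sum_congr rfl fun z hz => Fh_abs (xi_pos hk) (hx1 z hz)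
  have hsplit : ∑ z ∈ P ∪ Q, Fh (xi κ (θ z)) =
      ∑ z ∈ P, Fh (xi κ (θ z)) + ∑ z ∈ Q, Fh (xi κ (θ z)) :=
    Finset.sum_union h.part.hPQ
  have hFP : 6 * XX κ P θ ≤ ∑ z ∈ P, Fh (xi κ (θ z)) := by
    unfold XX
    rw [Finset.mul_sum]
    refine Finset.sum_le_sum fun z hz => ?_
    have := Fh_small (xi_pos hk) (hxP z hz) log150
    linarith
  have hFQ : 399 / 100 * XX κ Q θ ≤ ∑ z ∈ Q, Fh (xi κ (θ z)) := by
    unfold XX
    rw [Finset.mul_sum]
    refine Finset.sum_le_sum fun z hz => ?_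
    have := Fh_small (xi_pos hk) (hxQ z hz) log20
    linarith
  rw [hsum, hsplit] at hcore
  -- the interaction of `P` and `Q`
  have hint : 4 / κ * (el κ + 0) * (XX κ P θ * XX κ Q θ) ≤ 2 / 10 * (m * XX κ P θ) := by
    have e1 : 4 / κ * (el κ + 0) = 4 * m / lam m κ := by
      unfold lam
      field_simp
      ring
    have e2 : 4 * m / lam m κ ≤ 4 * m / (21 / 20) :=
      div_le_div_of_nonneg_left (by positivity) (by norm_num) h.hl
    rw [e1]
    have e3 : XX κ P θ * XX κ Q θ ≤ XX κ P θ * (1 / 20) :=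
      mul_le_mul_of_nonneg_left h.hQ hX0
    have e4 : 0 ≤ XX κ P θ * XX κ Q θ := mul_nonneg hX0 hY0
    calc 4 * m / lam m κ * (XX κ P θ * XX κ Q θ)
        ≤ 4 * m / (21 / 20) * (XX κ P θ * (1 / 20)) :=
          mul_le_mul e2 e3 e4 (by positivity)
      _ ≤ 2 / 10 * (m * XX κ P θ) := by
          have : 0 ≤ m * XX κ P θ := mul_nonneg hm.le hX0
          linarith
  have hL := h.light
  have hP := h.heavyP
  have hQ := h.heavyQ
  have hZ := sum_part h.part (fun z => 1 - Phi q (Real.exp (θ z - θ0)))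
  have hG : 0 ≤ κ * GG L θ := mul_nonneg hk.le (GG_nonneg L θ)
  have hlam2 : 8 / lam m κ ≤ 762 / 100 := by
    rw [div_le_iff₀ hlam]
    have := h.hl
    linarith
  have hui : 1 / u ≤ 1 / 1000 := by
    apply one_div_le_one_div_of_le (by norm_num)
    exact le_trans (by norm_num) hu20
  have hui2 : 1 / u ^ 2 ≤ 1 / 1000 := by
    apply one_div_le_one_div_of_le (by norm_num)
    refine le_trans ?_ hu2
    calc (1000 : ℝ) = 10 ^ 3 := by norm_num
      _ ≤ 10 ^ 300 := pow_le_pow_right₀ (by norm_num) (by norm_num)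
  have hui0 : 0 ≤ 1 / u ^ 2 := by positivity
  have hmX : 0 ≤ m * XX κ P θ := mul_nonneg hm.le hX0
  have hmY : 0 ≤ m * XX κ Q θ := mul_nonneg hm.le hY0
  set FP : ℝ := ∑ z ∈ P, Fh (xi κ (θ z)) with hFPdef
  set FQ : ℝ := ∑ z ∈ Q, Fh (xi κ (θ z)) with hFQdef
  set X : ℝ := XX κ P θ with hXdef
  set Y : ℝ := XX κ Q θ with hYdef
  set G : ℝ := κ * GG L θ with hGdef
  -- main terms
  have m1 : 1998 / 1000 * (m * (FP + FQ)) ≤ 2 * m * (FP + FQ) - 2 * m / u ^ 2 * (FP + FQ) := by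
    have hF : 0 ≤ m * (FP + FQ) := by
      apply mul_nonneg hm.le
      linarith
    have e1 : 2 * m / u ^ 2 * (FP + FQ) = 2 * (m * (FP + FQ)) * (1 / u ^ 2) := by
      ring
    rw [e1]
    have e2 := mul_le_mul_of_nonneg_left hui2 (by linarith : 0 ≤ 2 * (m * (FP + FQ)))
    linarith
  have m2 : 1998 / 1000 * (6 * (m * X) + 399 / 100 * (m * Y)) ≤ 1998 / 1000 * (m * (FP + FQ)) := by
    have e1 := mul_le_mul_of_nonneg_left hFP hm.le
    have e2 := mul_le_mul_of_nonneg_left hFQ hm.le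
    linarith
  have m3 : m / u ^ 2 * (X + Y) ≤ 1 / 1000 * (m * X + m * Y) := by
    have e1 : m / u ^ 2 * (X + Y) = (m * X + m * Y) * (1 / u ^ 2) := by ring
    rw [e1]
    have e2 := mul_le_mul_of_nonneg_left hui2 (by linarith : 0 ≤ m * X + m * Y)
    linarith
  have m4 : (8 / lam m κ + 1 / u) * (m * X) ≤ (762 / 100 + 1 / 1000) * (m * X) :=
    mul_le_mul_of_nonneg_right (by linarith) hmX
  have m5 : 1 / u * (m * Y) ≤ 1 / 1000 * (m * Y) :=
    mul_le_mul_of_nonneg_right hui hmY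
  have m6 : 9 / 10 * u ^ 4 * G + G ≤ 94 / 100 * u ^ 4 * G := by
    have e1 : (1 : ℝ) ≤ 4 / 100 * u ^ 4 := by
      have : (100 : ℝ) ≤ 10 ^ 80 := by norm_num
      linarith
    have e2 := mul_le_mul_of_nonneg_right e1 hG
    linarith
  have hgoal : (m ^ 2 - m) * Phi q κ + 9 / 10 * u ^ 4 * G + 3 * (m * X) + 6 * (m * Y)
      ≤ PS q κ Z θ - 4 * (∑ z ∈ L, (1 - Phi q (Real.exp (θ z - θ0)))
        + ∑ z ∈ P, (1 - Phi q (Real.exp (θ z - θ0)))
        + ∑ z ∈ Q, (1 - Phi q (Real.exp (θ z - θ0)))) := by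
    linarith
  rw [hZ]
  linarith
end

end Pool.Agent.RieszWin
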