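import Pool.Agent.RieszWin.XDefs
import Pool.Agent.RieszWin.Angle
import Pool.Agent.RieszWin.RelF

set_option autoImplicit false

open Real Finset

namespace Pool.Agent.RieszWin

open Pool.Agent.RieszSmall Pool.Agent.RieszLin Pool.Agent.RieszTr

section

variable {ι : Type*} [Fintype ι] [DecidableEq ι]

namespace XSetAux

open FactsAux

theorem h0_pos (u : ℝ) : 0 < h0 u := Real.exp_pos _

omit [DecidableEq ι] in
theorem mem_HP {u : ℝ} {a : ι → ℝ} {i : ι} : i ∈ HP u a ↔ h0 u < a i := by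
  simp [HP]

theorem exp_small {U c : ℝ} (hU : (10 : ℝ) ^ 80 ≤ U) (hc : (1 : ℝ) / 1000 ≤ c) :
    Real.exp (-(c * U)) ≤ 1 / 10 ^ 6 := by
  have h1 : (10 : ℝ) ^ 10 ≤ U := (pow_le_pow_right₀ (by norm_num) (by norm_num)).trans hU
  have h2 := Real.add_one_le_exp (c * U)
  have h3 : (10 : ℝ) ^ 6 ≤ Real.exp (c * U) := by
    have : (1 : ℝ) / 1000 * U ≤ c * U := mul_le_mul_of_nonneg_right hc (by
      have : (0:ℝ) < 10 ^ 10 := by positivity
      linarith)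
    have h4 : (10 : ℝ) ^ 6 ≤ 1 / 1000 * 10 ^ 10 := by norm_num
    linarith
  rw [Real.exp_neg, ← one_div]
  exact one_div_le_one_div_of_le (by positivity) h3

/-- the scalar facts on `θ0` -/
theorem theta_facts {mk : ℝ} (h : (10 : ℝ) ^ 80 ≤ mk) :
    ∃ θ0 : ℝ, Real.exp (2 * θ0) = 1 + 4 / mk ∧ Real.exp (-θ0) ≤ 1 ∧
      19 / 20 ≤ Real.exp (-θ0) := by
  have hmk : 0 < mk := lt_of_lt_of_le (by positivity) h
  have h1 : 0 < 4 / mk := by positivity
  have h2 : 4 / mk ≤ 1 / 100 := by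
    rw [div_le_iff₀ hmk]
    have h3 : (4 : ℝ) * 100 ≤ 10 ^ 80 := by norm_num
    linarith
  refine ⟨Real.log (1 + 4 / mk) / 2, ?_, ?_, ?_⟩
  · rw [mul_div_cancel₀ _ (by norm_num : (2:ℝ) ≠ 0), Real.exp_log (by linarith)]
  · rw [Real.exp_le_one_iff]
    have := Real.log_nonneg (show 1 ≤ 1 + 4 / mk by linarith)
    linarith
  · have h3 : Real.log (1 + 4 / mk) ≤ 4 / mk := by
      have := Real.log_le_sub_one_of_pos (show 0 < 1 + 4 / mk by linarith)
      linarith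
    have h4 := Real.add_one_le_exp (-(Real.log (1 + 4 / mk) / 2))
    linarith

end XSetAux

open FactsAux XSetAux

/-- MODULE RW38 (from the relation to the angles, near the block). `κ = K₀`,
`r1 = -a q1`, `r2 = -a q2`, `ρ = (r1+r2)/2`, `e = (r1-r2)/(2ρ)`, `θ0 = log (1 + 4/(mκ))/2`,
`τ = exp(-θ0)/(ρ κ)`, `θ = arsinh (τ a)`. `r2` is heavy (otherwise `Pm_small` contradicts
`Pm ≥ 3/5`), `Pm(-a) = r1 + r2 + R3` (`Pm_eq_R3`), so `2ρ ≥ 0.98 · 3/5`. `tau_range` with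
`σ = exp(-θ0)/ρ ∈ [19/10, 7/2]`, `part_angle` with `Z = {z ≠ q1, q2}`,
`P = Z.filter (h0 < a z) = HP u a`, `Q = Z.filter (h0 < -a z)`, whose weights add up to `R3`.
`SS Z = τ ∑_Z a = τ · 2ρ = 2 exp(-θ0)/κ = m sinh θ0`. `XX_arsinh` (`κ τ = exp(-θ0)/ρ`):
`XX P ≤ (exp(-θ0)/ρ)(1 + tiny) Pm(a) ≤ 1/150`, `XX Q ≤ (exp(-θ0)/ρ)(1+tiny) R3 ≤ 1/20`.
`NonDom (-a)` at `q1`: `r1 - r2 - R3 = 2 r1 - Pm ≤ exp(-0.3 u^4)`; `2 ρ e = r1 - r2`. -/
theorem X_setup {u q m : ℝ} (h : Win u q m (K0 q m)) (hl : 21 / 20 ≤ lam m (K0 q m))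
    (hc : (Fintype.card ι : ℝ) = m + 2) {a : ι → ℝ} (ha : Rel a)
    (hn : NonDom u (fun i => -a i)) {q1 q2 : ι} (hq : Top2 (fun i => -a i) q1 q2)
    (hP : Pm u a ≤ 3 / 1000 * Pm u (fun i => -a i)) (hQ : 3 / 5 ≤ Pm u (fun i => -a i))
    (hR : R3 u (fun i => -a i) q1 q2 ≤ 1 / 50 * Pm u (fun i => -a i)) :
    ∃ (ρ e θ0 : ℝ) (L P Q : Finset ι),
      XZ u q m (K0 q m) θ0 (univ.filter (fun z => z ≠ q1 ∧ z ≠ q2)) L P Q
        (fun z => Real.arsinh (Real.exp (-θ0) / (ρ * K0 q m) * a z)) ∧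
      a q1 = -(ρ * (1 + e)) ∧ a q2 = -(ρ * (1 - e)) ∧ 29 / 100 ≤ ρ ∧ ρ ≤ 1 / 2 ∧ 0 ≤ e ∧
      e ≤ 1 / 40 ∧
      2 * ρ * e ≤ R3 u (fun i => -a i) q1 q2 + Real.exp (-(3 / 10) * u ^ 4) ∧
      Real.exp (-θ0) / ρ * R3 u (fun i => -a i) q1 q2
        ≤ XX (K0 q m) Q (fun z => Real.arsinh (Real.exp (-θ0) / (ρ * K0 q m) * a z)) ∧
      ∑ z ∈ Q, (-Real.sinh (Real.arsinh (Real.exp (-θ0) / (ρ * K0 q m) * a z)))
        = Real.exp (-θ0) / (ρ * K0 q m) * R3 u (fun i => -a i) q1 q2 := by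
  set κ := K0 q m with hκ
  set Q' := Pm u (fun i => -a i) with hQd
  set R := R3 u (fun i => -a i) q1 q2 with hRd
  have hu0 := u_pos h
  have hU0 := U_pos h
  have hm0 := m_pos h
  have hk0 := h.hk
  have hQ1 : Q' ≤ 1 := ha.neg.Pm_le u
  have hR0 : 0 ≤ R := R3_nonneg u (fun i => -a i) q1 q2
  have hL := el_lo h
  have hL0 : 0 < el κ := by linarith
  have hlL : lam m κ * el κ = m * κ := by
    rw [lam]
    field_simp
  have hmk : u ^ 4 ≤ m * κ := by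
    rw [← hlL]
    have h6 : 21 / 20 * (998 / 1000 * u ^ 4) ≤ lam m κ * el κ :=
      mul_le_mul hl hL (by positivity) (by linarith)
    linarith
  have hexp : Real.exp (-(3 / 10) * u ^ 4) ≤ 1 / 10 ^ 6 := by
    rw [neg_mul]
    exact exp_small (U_ge h) (by norm_num)
  have hexp2 : Real.exp (-(u ^ 4 / 100)) ≤ 1 / 10 ^ 6 := by
    have := exp_small (U_ge h) (show (1:ℝ) / 1000 ≤ 1 / 100 by norm_num)
    rwa [one_div_mul_eq_div] at this
  have hr2 : h0 u < -a q2 := by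
    by_contra hcon
    push Not at hcon
    have h1 := (Pm_small hn hq hcon).2
    rw [← hQd] at h1
    have h2 : (1:ℝ) / 10 ^ 6 < 3 / 5 := by norm_num
    linarith
  have hr12 : -a q2 ≤ -a q1 := hq.le
  have hr1 : h0 u < -a q1 := hr2.trans_le hr12
  have hPm : Q' = -a q1 + -a q2 + R := Pm_eq_R3 hq hr2
  have hnd : 2 * (-a q1) - Q' ≤ Real.exp (-(3 / 10) * u ^ 4) := hn q1 (mem_HP.2 hr1)
  obtain ⟨θ0, ht1, ht2, ht3⟩ := theta_facts ((U_ge h).trans hmk)
  set ρ : ℝ := (-a q1 + -a q2) / 2 with hρ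
  have hρ1 : 49 / 100 * Q' ≤ ρ := by
    rw [hρ]
    linarith
  have hρ2 : 29 / 100 ≤ ρ := by linarith
  have hρ3 : ρ ≤ 1 / 2 := by
    rw [hρ]
    linarith
  have hρ0 : 0 < ρ := by linarith
  set σ : ℝ := Real.exp (-θ0) / ρ with hσ
  have hσ1 : 19 / 10 ≤ σ := by
    rw [hσ, le_div_iff₀ hρ0]
    linarith
  have hσ2 : σ ≤ 7 / 2 := by
    rw [hσ, div_le_iff₀ hρ0]
    linarith
  have hσQ : σ * Q' ≤ 100 / 49 := by
    rw [hσ, div_mul_eq_mul_div, div_le_iff₀ hρ0]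
    have : Real.exp (-θ0) * Q' ≤ 1 * Q' := mul_le_mul_of_nonneg_right ht2 (by linarith)
    linarith
  have hστ : Real.exp (-θ0) / (ρ * κ) = σ / κ := by
    rw [hσ, div_div]
  have h1 : m * κ ≤ σ * u ^ 5 := by
    refine h.hi.trans ?_
    have h2 : σ * u ^ 5 = σ * u * u ^ 4 := by ring
    rw [h2]
    apply mul_le_mul_of_nonneg_right _ hU0.le
    have h3 : 19 / 10 * (10:ℝ) ^ 200 ≤ σ * u := mul_le_mul hσ1 h.hu (by positivity)
      (by linarith)
    refine le_trans ?_ h3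
    norm_num
  have h2 : 3 * σ * u ^ 3 ≤ m * κ := by
    have h3 : 3 * σ * u ^ 3 ≤ 21 / 2 * u ^ 3 := by
      apply mul_le_mul_of_nonneg_right _ (by positivity)
      linarith
    have h4 : 21 / 2 * u ^ 3 ≤ u ^ 4 := by
      have : u ^ 4 = u * u ^ 3 := by ring
      rw [this]
      apply mul_le_mul_of_nonneg_right _ (by positivity)
      refine le_trans ?_ h.hu
      norm_num
    linarith
  obtain ⟨hσ0, hτ1, hτ2⟩ := tau_range h h1 h2
  rw [← hστ] at hτ1 hτ2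
  set τ : ℝ := Real.exp (-θ0) / (ρ * κ) with hτ
  have hκτ : κ * τ = σ := by
    rw [hστ]
    field_simp
  set Z : Finset ι := univ.filter (fun z => z ≠ q1 ∧ z ≠ q2) with hZ
  have hpart := part_angle h.hu hτ1 hτ2 a Z
  set θ : ι → ℝ := fun z => Real.arsinh (τ * a z) with hθ
  set L : Finset ι := Z.filter (fun z => |a z| ≤ h0 u) with hLs
  set P : Finset ι := Z.filter (fun z => h0 u < a z) with hPs
  set Q : Finset ι := Z.filter (fun z => h0 u < -a z) with hQs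
  have hZe : Z = (univ.erase q1).erase q2 := by
    ext z
    simp [hZ, and_comm]
  have hcard : (Z.card : ℝ) = m := by
    have e1 : Z.card + 2 = Fintype.card ι := by
      rw [hZe, Finset.card_erase_of_mem (by simp [hq.ne.symm]), Finset.card_erase_of_mem (by simp),
        Finset.card_univ]
      have : 2 ≤ Fintype.card ι := by
        have := Fintype.one_lt_card_iff.2 ⟨q1, q2, hq.ne⟩
        omega
      omega
    have e2 : (Z.card : ℝ) + 2 = m + 2 := by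
      rw [← hc, ← e1]
      push_cast
      ring
    linarith
  have hsumZ : ∑ z ∈ Z, a z = 2 * ρ := by
    rw [hZe, Finset.sum_erase_eq_sub (by simp [hq.ne.symm]), Finset.sum_erase_eq_sub (by simp),
      ha.sum, hρ]
    ring
  have hSS : SS Z θ = m * Real.sinh θ0 := by
    have e1 : SS Z θ = τ * ∑ z ∈ Z, a z := by
      unfold SS
      rw [Finset.mul_sum]
      exact Finset.sum_congr rfl fun z _ => Real.sinh_arsinh _
    rw [e1, hsumZ, Real.sinh_eq]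
    have e2 : Real.exp θ0 = Real.exp (2 * θ0) * Real.exp (-θ0) := by
      rw [← Real.exp_add]
      congr 1
      ring
    rw [e2, ht1, hτ]
    field_simp
    ring
  have hPle : ∑ z ∈ P, |a z| ≤ Pm u a := by
    have e1 : ∑ z ∈ P, |a z| = ∑ z ∈ P, a z := by
      refine Finset.sum_congr rfl fun z hz => ?_
      have := (mem_filter.1 hz).2
      exact abs_of_pos ((h0_pos u).trans this)
    rw [e1]
    unfold Pm
    apply Finset.sum_le_sum_of_subset_of_nonneg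
    · intro z hz
      exact mem_HP.2 (mem_filter.1 hz).2
    · intro z hz _
      exact ((h0_pos u).trans (mem_HP.1 hz)).le
  have hQeq : ∑ z ∈ Q, -a z = R := by
    rw [hRd]
    unfold R3
    have e1 : Q = (HP u (fun i => -a i)).filter (fun z => z ≠ q1 ∧ z ≠ q2) := by
      ext z
      rw [hQs, hZ, mem_filter, mem_filter, mem_filter, mem_HP]
      simp only [mem_univ, true_and]
      exact and_comm
    rw [e1]
  have hQabs : ∑ z ∈ Q, |a z| = R := by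
    rw [← hQeq]
    refine Finset.sum_congr rfl fun z hz => ?_
    have := (mem_filter.1 hz).2
    rw [← abs_neg]
    exact abs_of_pos ((h0_pos u).trans this)
  have hXP := XX_arsinh h.hu hk0 hτ1 a P (fun z hz =>
    lt_of_lt_of_le (mem_filter.1 hz).2 (le_abs_self _))
  have hXQ := XX_arsinh h.hu hk0 hτ1 a Q (fun z hz =>
    lt_of_lt_of_le (mem_filter.1 hz).2 (neg_le_abs _))
  rw [hκτ] at hXP hXQ
  rw [hQabs] at hXQ
  have hfac : σ * (1 + Real.exp (-(u ^ 4 / 100))) ≤ σ * (1 + 1 / 10 ^ 6) :=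
    mul_le_mul_of_nonneg_left (by linarith) hσ0.le
  have hXP2 : XX κ P θ ≤ 1 / 150 := by
    refine hXP.2.trans ?_
    have e1 : σ * (1 + Real.exp (-(u ^ 4 / 100))) * ∑ z ∈ P, |a z|
        ≤ σ * (1 + 1 / 10 ^ 6) * (3 / 1000 * Q') := by
      apply mul_le_mul hfac (hPle.trans hP) (Finset.sum_nonneg fun z _ => abs_nonneg _)
      positivity
    have e2 : σ * (1 + 1 / 10 ^ 6) * (3 / 1000 * Q') = σ * Q' * ((1 + 1 / 10 ^ 6) * (3 / 1000)) := by
      ring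
    rw [e2] at e1
    norm_num at e1 ⊢
    linarith
  have hXQ2 : XX κ Q θ ≤ 1 / 20 := by
    refine hXQ.2.trans ?_
    have e1 : σ * (1 + Real.exp (-(u ^ 4 / 100))) * R
        ≤ σ * (1 + 1 / 10 ^ 6) * (1 / 50 * Q') := by
      apply mul_le_mul hfac hR hR0
      positivity
    have e2 : σ * (1 + 1 / 10 ^ 6) * (1 / 50 * Q') = σ * Q' * ((1 + 1 / 10 ^ 6) * (1 / 50)) := by
      ring
    rw [e2] at e1
    norm_num at e1 ⊢
    linarith
  refine ⟨ρ, (-a q1 - -a q2) / (2 * ρ), θ0, L, P, Q, ⟨h, hl, ht1, hpart, hcard, hSS, hXP2, hXQ2⟩,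
    ?_, ?_, hρ2, hρ3, ?_, ?_, ?_, hXQ.1, ?_⟩
  · have e1 : ρ * (1 + (-a q1 - -a q2) / (2 * ρ)) = ρ + (-a q1 - -a q2) / 2 := by
      field_simp
    rw [e1, hρ]
    ring
  · have e1 : ρ * (1 - (-a q1 - -a q2) / (2 * ρ)) = ρ - (-a q1 - -a q2) / 2 := by
      field_simp
    rw [e1, hρ]
    ring
  · apply div_nonneg (by linarith) (by linarith)
  · rw [div_le_iff₀ (by linarith)]
    have e1 : (1:ℝ) / 10 ^ 6 ≤ 1 / 1000 := by norm_num
    linarith
  · have e1 : 2 * ρ * ((-a q1 - -a q2) / (2 * ρ)) = -a q1 - -a q2 := by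
      field_simp
    rw [e1]
    linarith
  · rw [← hQeq, Finset.mul_sum]
    refine Finset.sum_congr rfl fun z _ => ?_
    rw [Real.sinh_arsinh]
    ring

end

end Pool.Agent.RieszWin
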