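import Pool.Agent.RieszWin.XCase
import Pool.Agent.RieszWin.XSet
import Pool.Agent.RieszWin.XLB
import Pool.Agent.RieszTr.PartL

set_option autoImplicit false

open Real Finset

namespace Pool.Agent.RieszWin

open Pool.Agent.RieszSmall Pool.Agent.RieszLin Pool.Agent.RieszTr

namespace XMainAux

theorem XX_nonneg {ι : Type*} {κ : ℝ} (hk : 0 < κ) (S : Finset ι) (θ : ι → ℝ) :
    0 ≤ XX κ S θ :=
  Finset.sum_nonneg fun z _ => by
    unfold xi
    positivity

theorem XX_zero {ι : Type*} {κ : ℝ} (hk : 0 < κ) {S : Finset ι} {θ : ι → ℝ}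
    (h : XX κ S θ = 0) : S = ∅ := by
  by_contra hne
  obtain ⟨z, hz⟩ := Finset.nonempty_iff_ne_empty.2 hne
  have h1 : xi κ (θ z) ≤ XX κ S θ :=
    Finset.single_le_sum (f := fun w => xi κ (θ w)) (fun w _ => by
      unfold xi
      positivity) hz
  have h2 : 0 < xi κ (θ z) := by
    unfold xi
    positivity
  linarith

/-- the small exponential -/
theorem small_e {U e ρ : ℝ} (hU : 1000 ≤ U) (hρ : 29 / 100 ≤ ρ)
    (h : 2 * ρ * e ≤ 9 / 10 * e * ρ + Real.exp (-(3 / 10) * U)) (he : 0 ≤ e) :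
    e ≤ Real.exp (-(U / 10)) := by
  have h1 : 11 / 10 * (ρ * e) ≤ Real.exp (-(3 / 10) * U) := by linarith
  have h2 : 29 / 100 * e ≤ ρ * e := mul_le_mul_of_nonneg_right hρ he
  have h3 : Real.exp (-(3 / 10) * U) = Real.exp (-(U / 10)) * Real.exp (-(U / 5)) := by
    rw [← Real.exp_add]
    congr 1
    ring
  have h4 : Real.exp (-(U / 5)) ≤ 1 / 10 := by
    have h5 : 10 ≤ Real.exp (U / 5) := by
      have h6 := Real.add_one_le_exp (U / 5)
      linarith
    rw [Real.exp_neg, inv_eq_one_div]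
    exact one_div_le_one_div_of_le (by norm_num) h5
  have h5 : 0 < Real.exp (-(U / 10)) := Real.exp_pos _
  have h6 : Real.exp (-(U / 10)) * Real.exp (-(U / 5)) ≤ Real.exp (-(U / 10)) * (1 / 10) :=
    mul_le_mul_of_nonneg_left h4 h5.le
  rw [h3] at h1
  nlinarith

end XMainAux

open XMainAux

section

variable {ι : Type*} [Fintype ι] [DecidableEq ι]

/-- MODULE RW39 (near the block). `X_setup`; `κ = K₀`, `β = √(m/(4 + m κ))`, `s = β/ρ`,
`β √κ = exp(-θ0)`; `α = s a`: `α q1 = -β (1+e)`, `α q2 = -β (1-e)`,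
`s a z = √κ sinh θ z` (`sinh θ z = exp(-θ0) a z/(ρ κ) = (β/ρ) a z/√κ`).
* If `R3 ≤ (9/10) e ρ`: `b q1 = b q2 = β`, `b z = √κ cosh θ z` otherwise; `XLB0`, `XZ.caseE`.
  Here `2 ρ e ≤ (9/10) e ρ + exp(-0.3 u^4)` gives `e ≤ exp(-u^4/10)`, and
  `β √κ ∑_Q (-sinh θ) = exp(-θ0)²/(ρ κ) R3 = β² R3/ρ ≤ (9/10) e β²`. So `TT ≤ LB`, with strict
  inequality unless `GG L = 0`, `XX P = XX Q = 0` (then `P`, `Q` are empty, `L = Z`) and `e = 0`. In
  the exceptional case all `θ z`, hence all `a z` (`arsinh` is injective), `z ≠ q1, q2`, are equal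
  (`GG_eq_zero`); they add up to `2 ρ`; this is `Blk` with `t = 2 ρ`.
* Otherwise `R3 > (9/10) e ρ`, `b q1 = β (1+e)`, `b q2 = β (1-e)`: `XLB1`, `XZ.caseI`
  (`XX Q ≥ exp(-θ0) R3/ρ ≥ (9/10) e exp(-θ0)`), and `XX Q > 0`. -/
theorem X_main {u q m : ℝ} (h : Win u q m (K0 q m)) (hl : 21 / 20 ≤ lam m (K0 q m))
    (hc : (Fintype.card ι : ℝ) = m + 2) {a : ι → ℝ} (ha : Rel a)
    (hn : NonDom u (fun i => -a i)) {q1 q2 : ι} (hq : Top2 (fun i => -a i) q1 q2)
    (hP : Pm u a ≤ 3 / 1000 * Pm u (fun i => -a i)) (hQ : 3 / 5 ≤ Pm u (fun i => -a i))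
    (hR : R3 u (fun i => -a i) q1 q2 ≤ 1 / 50 * Pm u (fun i => -a i)) :
    (∃ (b : ι → ℝ) (s : ℝ), TT q m < LB q b (fun i => s * a i)) ∨ Blk m a := by
  obtain ⟨ρ, e, θ0, L, P, Q, hX, ha1, ha2, hρ1, hρ2, he0, he1, hre, hXQ, hsQ⟩ :=
    X_setup h hl hc ha hn hq hP hQ hR
  obtain ⟨hu0, hm0, hq0, hk0, hk1⟩ := h.pos
  set κ := K0 q m with hκ
  set Z : Finset ι := univ.filter (fun z => z ≠ q1 ∧ z ≠ q2) with hZ
  set θ : ι → ℝ := fun z => Real.arsinh (Real.exp (-θ0) / (ρ * κ) * a z) with hθ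
  set y0 := Real.exp (-θ0) with hy0
  have hρ : 0 < ρ := by linarith
  have hy0p : 0 < y0 := Real.exp_pos _
  have hmk : 0 < m * κ := mul_pos hm0 hk0
  have hU0 : 0 < u ^ 4 := pow_pos hu0 4
  set β := √(m / (4 + m * κ)) with hβ
  have hβp : 0 < β := Real.sqrt_pos.2 (by positivity)
  have hβ2 : β ^ 2 = m / (4 + m * κ) := Real.sq_sqrt (by positivity)
  have hsκ : √κ ^ 2 = κ := Real.sq_sqrt hk0.le
  have hsκp : 0 < √κ := Real.sqrt_pos.2 hk0
  have hβκ : β * √κ = y0 := by
    have h1 : (β * √κ) ^ 2 = y0 ^ 2 := by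
      rw [mul_pow, hβ2, hsκ, hy0, ← Real.exp_nat_mul]
      have h3 : Real.exp (((2 : ℕ) : ℝ) * -θ0) = (Real.exp (2 * θ0))⁻¹ := by
        rw [← Real.exp_neg]
        congr 1
        push_cast
        ring
      rw [h3, hX.h0]
      field_simp
      ring
    exact (pow_left_inj₀ (by positivity) hy0p.le (by norm_num)).1 h1
  have hsinh : ∀ z, Real.sinh (θ z) = y0 / (ρ * κ) * a z := fun z => Real.sinh_arsinh _
  -- the scaled relation
  have hα1 : β / ρ * a q1 = -(β * (1 + e)) := by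
    rw [ha1]
    field_simp
  have hα2 : β / ρ * a q2 = -(β * (1 - e)) := by
    rw [ha2]
    field_simp
  have hα : ∀ z, β / ρ * a z = √κ * Real.sinh (θ z) := by
    intro z
    rw [hsinh, ← hβκ]
    have h1 : √κ * (β * √κ / (ρ * κ) * a z) = √κ ^ 2 * β / (ρ * κ) * a z := by ring
    rw [h1, hsκ]
    field_simp
  have hXP0 : 0 ≤ XX κ P θ := XX_nonneg hk0 P θ
  have hXQ0 : 0 ≤ XX κ Q θ := XX_nonneg hk0 Q θ
  have hGG0 : 0 ≤ GG L θ := GG_nonneg L θ
  have hR0 : 0 ≤ R3 u (fun i => -a i) q1 q2 := R3_nonneg u _ q1 q2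
  by_cases hcase : R3 u (fun i => -a i) q1 q2 ≤ 9 / 10 * e * ρ
  · -- equal values
    have heU : e ≤ Real.exp (-(u ^ 4 / 10)) := by
      have h1 : (1000 : ℝ) ≤ u ^ 2 := le_trans
        (by
          calc (1000 : ℝ) = 10 ^ 3 := by norm_num
            _ ≤ 10 ^ 300 := pow_le_pow_right₀ (by norm_num) (by norm_num)) (Win.big h).1
      have h3 : u ^ 4 = u ^ 2 * u ^ 2 := by ring
      have h4 : (1000 : ℝ) ≤ u ^ 4 := by
        rw [h3]
        nlinarith
      exact small_e (ρ := ρ) h4 hρ1 (by linarith) he0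
    have hQs : β * √κ * ∑ z ∈ Q, (-Real.sinh (θ z)) ≤ 9 / 10 * e * β ^ 2 := by
      rw [hsQ, hβκ]
      have h1 : y0 * (y0 / (ρ * κ) * R3 u (fun i => -a i) q1 q2) =
          β ^ 2 / ρ * R3 u (fun i => -a i) q1 q2 := by
        rw [← hβκ]
        have h2 : β * √κ * (β * √κ / (ρ * κ) * R3 u (fun i => -a i) q1 q2) =
            β ^ 2 * √κ ^ 2 / (ρ * κ) * R3 u (fun i => -a i) q1 q2 := by ring
        rw [h2, hsκ]
        field_simp
      rw [h1]
      calc β ^ 2 / ρ * R3 u (fun i => -a i) q1 q2 ≤ β ^ 2 / ρ * (9 / 10 * e * ρ) :=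
            mul_le_mul_of_nonneg_left hcase (by positivity)
        _ = 9 / 10 * e * β ^ 2 := by
            field_simp
    have hE := hX.caseE hβp hβ2 he0 heU hQs
    set b : ι → ℝ := fun z => if z = q1 then β else if z = q2 then β else √κ * Real.cosh (θ z)
      with hb
    have hb1 : b q1 = β := by simp [hb]
    have hb2 : b q2 = β := by
      have hne : q2 ≠ q1 := Ne.symm hq.ne
      simp [hb, hne]
    have hbz : ∀ z, z ≠ q1 → z ≠ q2 → b z = √κ * Real.cosh (θ z) := by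
      intro z h1 h2
      simp only [hb]
      rw [if_neg h1, if_neg h2]
    have hLB := XLB0 (q := q) (κ := κ) (β := β) (e := e) hk0 hq.ne (θ := θ) (b := b)
      (α := fun i => β / ρ * a i) hb1 hb2 hα1 hα2 hbz (fun z _ _ => hα z)
    have hTE : TT q m + 4 / 5 * u ^ 4 * (κ * GG L θ) + m * XX κ P θ + m * XX κ Q θ
        + 1 / 10 * (q * (β ^ 2 * e ^ 2)) ≤ LB q b (fun i => β / ρ * a i) := by
      rw [hLB]
      exact hE
    have n1 : 0 ≤ 4 / 5 * u ^ 4 * (κ * GG L θ) := by positivity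
    have n2 : 0 ≤ m * XX κ P θ := by positivity
    have n3 : 0 ≤ m * XX κ Q θ := by positivity
    have n4 : 0 ≤ 1 / 10 * (q * (β ^ 2 * e ^ 2)) := by positivity
    by_cases hstrict : TT q m < LB q b (fun i => β / ρ * a i)
    · exact Or.inl ⟨b, β / ρ, hstrict⟩
    · right
      have hle : LB q b (fun i => β / ρ * a i) ≤ TT q m := not_lt.1 hstrict
      have z1 : 4 / 5 * u ^ 4 * (κ * GG L θ) = 0 := by linarith
      have z2 : m * XX κ P θ = 0 := by linarith
      have z3 : m * XX κ Q θ = 0 := by linarith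
      have z4 : 1 / 10 * (q * (β ^ 2 * e ^ 2)) = 0 := by linarith
      have w1 : GG L θ = 0 := by
        rcases mul_eq_zero.1 z1 with h1 | h1
        · exact absurd h1 (by positivity)
        · rcases mul_eq_zero.1 h1 with h2 | h2
          · exact absurd h2 hk0.ne'
          · exact h2
      have w2 : P = ∅ := XX_zero hk0 ((mul_eq_zero.1 z2).resolve_left hm0.ne')
      have w3 : Q = ∅ := XX_zero hk0 ((mul_eq_zero.1 z3).resolve_left hm0.ne')
      have w4 : e = 0 := by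
        have h1 : q * (β ^ 2 * e ^ 2) = 0 := by linarith
        have h2 := (mul_eq_zero.1 h1).resolve_left hq0.ne'
        have h3 := (mul_eq_zero.1 h2).resolve_left (by positivity)
        exact pow_eq_zero_iff (by norm_num) |>.1 h3
      have hLZ : L = Z := by
        have h1 := hX.part.hZ
        rw [w2, w3] at h1
        simpa using h1
      have heq : ∀ z ∈ Z, ∀ w ∈ Z, a z = a w := by
        intro z hz w hw
        rw [← hLZ] at hz hw
        have h1 := GG_eq_zero L θ w1 z hz w hw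
        have h2 : y0 / (ρ * κ) * a z = y0 / (ρ * κ) * a w := by
          rw [← hsinh, ← hsinh, h1]
        exact mul_left_cancel₀ (by positivity) h2
      have hsum : ∑ z ∈ Z, a z = 2 * ρ := by
        have h1 := ha.sum
        rw [sum_two hq.ne, ha1, ha2] at h1
        linarith
      refine ⟨q1, q2, hq.ne, 2 * ρ, by positivity, ?_, ?_, ?_⟩
      · rw [ha1, w4]
        ring
      · rw [ha2, w4]
        ring
      · intro z hz1 hz2
        have hzZ : z ∈ Z := Finset.mem_filter.2 ⟨Finset.mem_univ z, hz1, hz2⟩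
        have h1 : ∑ w ∈ Z, a w = (Z.card : ℝ) * a z := by
          rw [Finset.sum_congr rfl fun w hw => heq w hw z hzZ, Finset.sum_const, nsmul_eq_mul]
        rw [hsum, hX.card] at h1
        rw [eq_div_iff hm0.ne']
        linarith
  · -- different values
    have hcase' := not_le.1 hcase
    have hXQ1 : 9 / 10 * e * y0 < XX κ Q θ := by
      refine lt_of_lt_of_le ?_ hXQ
      calc 9 / 10 * e * y0 = y0 / ρ * (9 / 10 * e * ρ) := by
            field_simp
        _ < y0 / ρ * R3 u (fun i => -a i) q1 q2 :=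
            mul_lt_mul_of_pos_left hcase' (by positivity)
    have hey : 0 ≤ e * y0 := by positivity
    have hI := hX.caseI hβp hβ2 he0 (by linarith) (by
      rw [hβκ]
      linarith)
    set b : ι → ℝ := fun z => if z = q1 then β * (1 + e) else if z = q2 then β * (1 - e) else
      √κ * Real.cosh (θ z) with hb
    have hb1 : b q1 = β * (1 + e) := by simp [hb]
    have hb2 : b q2 = β * (1 - e) := by
      have hne : q2 ≠ q1 := Ne.symm hq.ne
      simp [hb, hne]
    have hbz : ∀ z, z ≠ q1 → z ≠ q2 → b z = √κ * Real.cosh (θ z) := by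
      intro z h1 h2
      simp only [hb]
      rw [if_neg h1, if_neg h2]
    have hLB := XLB1 (q := q) (κ := κ) (β := β) (e := e) hk0 hq.ne (θ := θ) (b := b)
      (α := fun i => β / ρ * a i) hb1 hb2 hα1 hα2 hbz (fun z _ _ => hα z)
    left
    refine ⟨b, β / ρ, ?_⟩
    have n1 : 0 ≤ 4 / 5 * u ^ 4 * (κ * GG L θ) := by positivity
    have n2 : 0 ≤ m * XX κ P θ := by positivity
    have n3 : 0 < m * XX κ Q θ := by
      apply mul_pos hm0
      have : 0 ≤ 9 / 10 * e * y0 := by positivity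
      linarith
    have hTI : TT q m + 4 / 5 * u ^ 4 * (κ * GG L θ) + m * XX κ P θ + m * XX κ Q θ
        ≤ LB q b (fun i => β / ρ * a i) := by
      rw [hLB]
      exact hI
    linarith

end

end Pool.Agent.RieszWin
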