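import Pool.Agent.RieszWin.YDefs

set_option autoImplicit false

open Real Finset

namespace Pool.Agent.RieszWin

open Pool.Agent.RieszSmall Pool.Agent.RieszLin Pool.Agent.RieszTr

namespace YEtaAux

theorem sl_ge_neg {q K : ℝ} (hq : 0 < q) (hK : 0 < K) : -q ≤ sl q K := by
  unfold sl
  have h1 : 0 < K ^ (-(1 / (q + 1))) := Real.rpow_pos_of_pos hK _
  nlinarith

theorem abs_sinh_le (t : ℝ) : |Real.sinh t| ≤ Real.exp |t| / 2 := by
  rw [Real.abs_sinh, Real.sinh_eq]
  have := Real.exp_pos (-|t|)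
  linarith

theorem sinh_sq_le (t : ℝ) : Real.sinh t ^ 2 ≤ (Real.exp |t| / 2) ^ 2 := by
  rw [← sq_abs]
  exact pow_le_pow_left₀ (abs_nonneg _) (abs_sinh_le t) 2

/-- `8 q 2^(-p) m ≤ exp(-90 U)` -/
theorem E1 {u q m κ : ℝ} (h : Win u q m κ) :
    8 * q * (2 : ℝ) ^ (-(q + 1)) * m ≤ Real.exp (-(90 * u ^ 4)) := by
  obtain ⟨hu, hm, hq, hk, hk1⟩ := h.pos
  have hU := FactsAux.U_ge h
  have hU10 : (10 : ℝ) ≤ u ^ 4 := le_trans (by norm_num) hU
  have h1 := h.two.1
  have h2 := h.phi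
  have hT0 : (0 : ℝ) < 2 ^ (-(q + 1)) := Real.rpow_pos_of_pos (by norm_num) _
  have e0 : 8 * q ≤ 9 * (m * u ^ 4) := by
    have : 0 < m * u ^ 4 := by positivity
    linarith
  have e1 : 8 * q * (2 : ℝ) ^ (-(q + 1)) * m ≤
      9 * (m * u ^ 4) * Real.exp (-(100 * u ^ 4)) * m := by
    gcongr
  refine e1.trans ?_
  have e2 : 9 * u ^ 4 ≤ Real.exp (2 * u ^ 4) := by
    have a1 := Real.add_one_le_exp (u ^ 4)
    have a2 : (9 : ℝ) ≤ Real.exp (u ^ 4) := by linarith
    have a3 : Real.exp (2 * u ^ 4) = Real.exp (u ^ 4) * Real.exp (u ^ 4) := by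
      rw [← Real.exp_add]; congr 1; ring
    rw [a3]
    exact mul_le_mul a2 (by linarith) (by linarith) (Real.exp_pos _).le
  have e3 : 9 * (m * u ^ 4) * Real.exp (-(100 * u ^ 4)) * m =
      9 * u ^ 4 * Real.exp (-(98 * u ^ 4)) := by
    rw [h.hm]
    have : Real.exp (-(98 * u ^ 4)) =
        Real.exp (u ^ 4) * Real.exp (-(100 * u ^ 4)) * Real.exp (u ^ 4) := by
      rw [← Real.exp_add, ← Real.exp_add]; congr 1; ring
    rw [this]
    ring
  rw [e3]
  calc 9 * u ^ 4 * Real.exp (-(98 * u ^ 4))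
      ≤ Real.exp (2 * u ^ 4) * Real.exp (-(98 * u ^ 4)) :=
        mul_le_mul_of_nonneg_right e2 (Real.exp_pos _).le
    _ = Real.exp (-(96 * u ^ 4)) := by rw [← Real.exp_add]; congr 1; ring
    _ ≤ Real.exp (-(90 * u ^ 4)) := Real.exp_le_exp.2 (by linarith)

/-- `1/κ² ≤ exp (3 U)` -/
theorem inv_k {u q m κ : ℝ} (h : Win u q m κ) : 1 / κ ^ 2 ≤ Real.exp (3 * u ^ 4) := by
  obtain ⟨hu, hm, hq, hk, hk1⟩ := h.pos
  have hel := h.el_bds.2
  have hU := FactsAux.U_pos h
  have e1 : κ = Real.exp (-el κ) := by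
    unfold el
    rw [neg_neg, Real.exp_log hk]
  have e2 : 1 / κ ^ 2 = Real.exp (2 * el κ) := by
    have : κ ^ 2 = Real.exp (-(2 * el κ)) := by
      nth_rewrite 1 [e1]
      rw [← Real.exp_nat_mul]
      congr 1
      push_cast
      ring
    rw [this, Real.exp_neg, one_div, inv_inv]
  rw [e2]
  exact Real.exp_le_exp.2 (by linarith)

theorem cosh_g_le {g : ℝ} (h : |g| ≤ 9 / 20) : Real.cosh g ≤ 3 / 2 ∧ Real.cosh (2 * g) - 1 ≤ 1 := by
  have key : ∀ t : ℝ, |t| ≤ 9 / 10 → Real.cosh t ≤ 3 / 2 := by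
    intro t ht
    have h1 := Real.cosh_le_exp_half_sq t
    have h2 : t ^ 2 / 2 ≤ 81 / 200 := by
      have := abs_le.1 ht
      nlinarith
    have h3 : Real.exp (t ^ 2 / 2) ≤ Real.exp (81 / 200) := Real.exp_le_exp.2 h2
    have h4 : Real.exp (81 / 200 : ℝ) ≤ 3 / 2 := by
      have h5 := Real.exp_bound' (x := 81 / 200) (by norm_num) (by norm_num) (n := 4) (by norm_num)
      refine h5.trans ?_
      norm_num [Finset.sum_range_succ, Nat.factorial]
    linarith
  refine ⟨key g (h.trans (by norm_num)), ?_⟩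
  have : |2 * g| ≤ 9 / 10 := by
    rw [abs_mul, abs_of_pos (by norm_num : (0:ℝ) < 2)]
    linarith
  linarith [key _ this]

lemma T0pos (q : ℝ) : (0 : ℝ) < 2 ^ (-(q + 1)) := Real.rpow_pos_of_pos (by norm_num) _

lemma T0le {q : ℝ} (hq : 0 < q) : (2 : ℝ) ^ (-(q + 1)) ≤ 1 :=
  Real.rpow_le_one_of_one_le_of_nonpos (by norm_num) (by linarith)

end YEtaAux

open YEtaAux

/-- MODULE RW44. `Φ` decreases at most with slope `q` in both directions: for `K' ≤ K` this is
`Phi_slope`; for `K < K'`: if `K' < 2^(-p)` monotonicity, otherwise `Phi_le_tangent` at `K'` and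
`sl q K' ≥ -q`. -/
theorem Phi_lip {q K K' : ℝ} (hq : 0 < q) : Phi q K - q * |K' - K| ≤ Phi q K' := by
  rcases le_total K' K with h | h
  · have h1 := Phi_slope (q := q) hq h
    have h2 : |K' - K| = K - K' := by
      rw [abs_sub_comm, abs_of_nonneg (by linarith)]
    rw [h2]
    exact h1
  · have h2 : |K' - K| = K' - K := abs_of_nonneg (by linarith)
    rw [h2]
    have h0 : 0 ≤ q * (K' - K) := mul_nonneg hq.le (by linarith)
    rcases le_total K' ((2 : ℝ) ^ (-(q + 1))) with h3 | h3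
    · have h4 := Phi_mono (q := q) hq h (h3.trans (T0le hq))
      linarith
    · have h4 := Phi_le_tangent hq (K := K) h3
      have h5 := sl_ge_neg hq (lt_of_lt_of_le (T0pos q) h3)
      nlinarith

section

variable {ι : Type*} [DecidableEq ι] {u q m κ Y A w g T : ℝ} {Z L P Q : Finset ι} {θ : ι → ℝ}

/-- `Phi_lip` for every pair; `η ≤ 4 · 2^(-p) ≤ exp(-99 u^4)`;
`(∑ |sinh|)² ≤ |Z| ∑ sinh²`; `q κ η m ≤ exp(-40 u^4)`. -/
theorem eta_le (h : Win u q m κ) {η : ℝ} (h0 : 0 ≤ η)
    (h1 : η ≤ 4 * (2 : ℝ) ^ (-(q + 1))) (hc : (Z.card : ℝ) ≤ m) :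
    PS q κ Z θ - Real.exp (-(40 * u ^ 4)) * ∑ z ∈ Z, Real.sinh (θ z) ^ 2
      ≤ offd Z (fun z z' => Phi q (κ * Real.cosh (θ z - θ z')
          - κ * η * (Real.sinh (θ z) * Real.sinh (θ z')))) := by
  obtain ⟨hu, hm, hq, hk, hk1⟩ := h.pos
  have hpt : ∀ z z' : ι, Phi q (κ * Real.cosh (θ z - θ z')) -
      q * κ * η * (|Real.sinh (θ z)| * |Real.sinh (θ z')|) ≤
      Phi q (κ * Real.cosh (θ z - θ z') - κ * η * (Real.sinh (θ z) * Real.sinh (θ z'))) := by
    intro z z'
    have h2 := Phi_lip (K := κ * Real.cosh (θ z - θ z'))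
      (K' := κ * Real.cosh (θ z - θ z') - κ * η * (Real.sinh (θ z) * Real.sinh (θ z'))) hq
    have h3 : |κ * Real.cosh (θ z - θ z') - κ * η * (Real.sinh (θ z) * Real.sinh (θ z')) -
        κ * Real.cosh (θ z - θ z')| = κ * η * (|Real.sinh (θ z)| * |Real.sinh (θ z')|) := by
      rw [sub_sub_cancel_left, abs_neg, abs_mul, abs_mul, abs_mul, abs_of_pos hk,
        abs_of_nonneg h0]
    rw [h3] at h2
    calc _ = Phi q (κ * Real.cosh (θ z - θ z')) -
        q * (κ * η * (|Real.sinh (θ z)| * |Real.sinh (θ z')|)) := by ring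
      _ ≤ _ := h2
  have hsum : PS q κ Z θ - q * κ * η * (∑ z ∈ Z, |Real.sinh (θ z)|) ^ 2 ≤
      offd Z (fun z z' => Phi q (κ * Real.cosh (θ z - θ z')
          - κ * η * (Real.sinh (θ z) * Real.sinh (θ z')))) := by
    have e1 : q * κ * η * (∑ z ∈ Z, |Real.sinh (θ z)|) ^ 2 =
        ∑ z ∈ Z, ∑ z' ∈ Z, q * κ * η * (|Real.sinh (θ z)| * |Real.sinh (θ z')|) := by
      rw [sq, Finset.sum_mul_sum, Finset.mul_sum]
      refine Finset.sum_congr rfl fun z _ => ?_
      rw [Finset.mul_sum]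
    rw [e1]
    unfold PS offd
    rw [← Finset.sum_sub_distrib]
    refine Finset.sum_le_sum fun z _ => ?_
    rw [← Finset.sum_sub_distrib]
    refine Finset.sum_le_sum fun z' _ => ?_
    split_ifs with hz
    · have : 0 ≤ q * κ * η * (|Real.sinh (θ z)| * |Real.sinh (θ z')|) := by positivity
      linarith
    · exact hpt z z'
  refine le_trans ?_ hsum
  have hcs : (∑ z ∈ Z, |Real.sinh (θ z)|) ^ 2 ≤ Z.card * ∑ z ∈ Z, Real.sinh (θ z) ^ 2 := by
    have := sq_sum_le_card_mul_sum_sq (s := Z) (f := fun z => |Real.sinh (θ z)|)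
    simpa only [sq_abs] using this
  have hS0 : 0 ≤ ∑ z ∈ Z, Real.sinh (θ z) ^ 2 := Finset.sum_nonneg fun z _ => sq_nonneg _
  have hc2 : q * κ * η * m ≤ Real.exp (-(40 * u ^ 4)) := by
    have h5 := E1 h
    have hT0 : (0 : ℝ) < 2 ^ (-(q + 1)) := Real.rpow_pos_of_pos (by norm_num) _
    have hU := FactsAux.U_pos h
    calc q * κ * η * m ≤ q * 1 * (4 * (2 : ℝ) ^ (-(q + 1))) * m := by gcongr
      _ ≤ 8 * q * (2 : ℝ) ^ (-(q + 1)) * m := by
        have : 0 < q * (2 : ℝ) ^ (-(q + 1)) * m := by positivity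
        linarith
      _ ≤ Real.exp (-(90 * u ^ 4)) := h5
      _ ≤ Real.exp (-(40 * u ^ 4)) := Real.exp_le_exp.2 (by linarith)
  have hfin : q * κ * η * (∑ z ∈ Z, |Real.sinh (θ z)|) ^ 2 ≤
      Real.exp (-(40 * u ^ 4)) * ∑ z ∈ Z, Real.sinh (θ z) ^ 2 := by
    calc q * κ * η * (∑ z ∈ Z, |Real.sinh (θ z)|) ^ 2
        ≤ q * κ * η * (m * ∑ z ∈ Z, Real.sinh (θ z) ^ 2) := by
          refine mul_le_mul_of_nonneg_left ?_ (by positivity)
          exact hcs.trans (mul_le_mul_of_nonneg_right hc hS0)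
      _ = q * κ * η * m * ∑ z ∈ Z, Real.sinh (θ z) ^ 2 := by ring
      _ ≤ _ := mul_le_mul_of_nonneg_right hc2 hS0
  linarith

/-- `∑_L (cosh (g+θ) - 1) = cosh g CC + sinh g SS - |L|`, `CC ≥ √(|L|² + SS²) = |L| cosh c`
(`CC_sq_ge`), so it is at least `|L| (cosh (g + c) - 1)`; if `P` and `Q` are empty then `L = Z`,
`|L| sinh c = 4 (T/Y) sinh g` has the sign of `g` and `cosh (g+c) ≥ cosh g`. -/
theorem YZ.cosh_g (h : YZ u q m κ Y A w g T Z L P Q θ) (hP : P = ∅) (hQ : Q = ∅) :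
    (m - 2) * (Real.cosh g - 1) ≤ ∑ z ∈ L, (Real.cosh (g + θ z) - 1) := by
  have hLZ : L = Z := by
    have := h.part.hZ
    rw [hP, hQ, Finset.union_empty, Finset.union_empty] at this
    exact this
  have hY := h.apx.sqr.hY
  have hT : 0 < T := lt_of_lt_of_le (Real.exp_pos _) (h.apx.T_bds h.hT).2.2.1
  have hS := h.sum
  have hC := h.card
  rw [← hLZ] at hS hC
  have e1 : ∑ z ∈ L, (Real.cosh (g + θ z) - 1) =
      Real.cosh g * CC L θ + Real.sinh g * SS L θ - L.card := by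
    unfold CC SS
    rw [Finset.sum_sub_distrib, Finset.mul_sum, Finset.mul_sum, ← Finset.sum_add_distrib]
    simp only [Real.cosh_add, Finset.sum_const, nsmul_eq_mul, mul_one]
  have e2 : (L.card : ℝ) ≤ CC L θ := by
    unfold CC
    have := Finset.card_nsmul_le_sum L (fun z => Real.cosh (θ z)) 1
      (fun z _ => Real.one_le_cosh _)
    simpa using this
  have e3 : 0 ≤ Real.sinh g * SS L θ := by
    rw [hS]
    have : Real.sinh g * (4 * (T / Y) * Real.sinh g) = 4 * (T / Y) * Real.sinh g ^ 2 := by ring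
    rw [this]
    positivity
  have e4 : Real.cosh g * L.card ≤ Real.cosh g * CC L θ :=
    mul_le_mul_of_nonneg_left e2 (Real.cosh_pos g).le
  rw [e1, ← hC]
  linarith

/-- The exponentially small terms; `ko = 2^(-p) A ≤ exp(-99 u^4)` (`A ≤ m`).
* If `P ∪ Q` is not empty: `m (XX P + XX Q) ≥ m κ exp(u^4/200)/2` (`card_heavy`),
  `∑_L sinh² ≤ m exp(u^4/10)`, `∑_{P∪Q} sinh² ≤ ∑ (ξ/κ)² ≤ (XX P + XX Q)/κ²`,
  `8 q ko (cosh 2g - 1) ≤ 8 q ko`.
* If `P = Q = ∅`: `YZ.cosh_g`, `cosh 2g - 1 = 2 (cosh g - 1)(cosh g + 1) ≤ 5 (cosh g - 1)`,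
  `sinh² θ = (cosh θ - 1)(cosh θ + 1) ≤ exp(u^4/20)(cosh θ - 1)`,
  `cosh θ - 1 ≤ 2 cosh g (cosh (g+θ) - 1) + 2 (cosh g - 1)` (`cosh_add_le`, `x = g + θ`, `y = -g`). -/
theorem YZ.small (h : YZ u q m κ Y A w g T Z L P Q θ) :
    Real.exp (-(40 * u ^ 4)) * ∑ z ∈ Z, Real.sinh (θ z) ^ 2
      + 8 * q * ((2 : ℝ) ^ (-(q + 1)) * A) * (Real.cosh (2 * g) - 1)
      ≤ 2 * (w - 1) * Y * ∑ z ∈ L, (Real.cosh (g + θ z) - 1) + m * (XX κ P θ + XX κ Q θ) := by
  obtain ⟨hu, hm, hq, hk, hk1⟩ := h.apx.win.pos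
  have hW := h.apx.win
  obtain ⟨hY, hY3, -, -, -, hYu⟩ := h.apx.basic
  obtain ⟨-, -, hA1, -, hAm⟩ := h.apx.A_bds
  obtain ⟨hg, -, hwu, hw⟩ := h.g_le
  obtain ⟨hcg, hc2g⟩ := cosh_g_le hg
  have hU := FactsAux.U_ge hW
  have hU0 := FactsAux.U_pos hW
  have hUu := FactsAux.u_le hW
  have hu4 : u ≤ u ^ 4 := by nlinarith
  have hT0 : (0 : ℝ) < 2 ^ (-(q + 1)) := Real.rpow_pos_of_pos (by norm_num) _
  have hE := E1 hW
  set U := u ^ 4 with hUd
  have hSL0 : 0 ≤ ∑ z ∈ L, (Real.cosh (g + θ z) - 1) :=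
    Finset.sum_nonneg fun z _ => by linarith [Real.one_le_cosh (g + θ z)]
  have hc2g0 : 0 ≤ Real.cosh (2 * g) - 1 := by linarith [Real.one_le_cosh (2 * g)]
  have hqA : 8 * q * ((2 : ℝ) ^ (-(q + 1)) * A) ≤ Real.exp (-(90 * U)) := by
    refine le_trans ?_ hE
    have : (2 : ℝ) ^ (-(q + 1)) * A ≤ (2 : ℝ) ^ (-(q + 1)) * m :=
      mul_le_mul_of_nonneg_left hAm hT0.le
    calc 8 * q * ((2 : ℝ) ^ (-(q + 1)) * A) ≤ 8 * q * ((2 : ℝ) ^ (-(q + 1)) * m) :=
          mul_le_mul_of_nonneg_left this (by positivity)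
      _ = _ := by ring
  have hqA0 : 0 ≤ 8 * q * ((2 : ℝ) ^ (-(q + 1)) * A) := by positivity
  have hw1 : 0 ≤ 2 * (w - 1) * Y := by
    have : 0 ≤ w - 1 := by linarith
    positivity
  have hLbd : ∀ z ∈ L, Real.exp |θ z| ≤ Real.exp (U / 45) := fun z hz =>
    Real.exp_le_exp.2 (h.part.hL z hz)
  by_cases hPQ : P = ∅ ∧ Q = ∅
  · obtain ⟨hP, hQ⟩ := hPQ
    have hcosh := h.cosh_g hP hQ
    have hLZ : L = Z := by
      have := h.part.hZ
      rw [hP, hQ, Finset.union_empty, Finset.union_empty] at this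
      exact this
    have hC := h.card
    rw [← hLZ] at hC
    have hXX : XX κ P θ + XX κ Q θ = 0 := by
      rw [hP, hQ]
      simp [XX]
    rw [hXX, mul_zero, add_zero, ← hLZ]
    set S := ∑ z ∈ L, (Real.cosh (g + θ z) - 1) with hS
    have hcg0 : 0 ≤ Real.cosh g - 1 := by linarith [Real.one_le_cosh g]
    have hm3 : 1 ≤ m - 2 := by
      have := FactsAux.m_big hW
      have h10 : (3 : ℝ) ≤ 10 ^ 30 := by norm_num
      linarith
    have hgS : Real.cosh g - 1 ≤ S := by
      have : 1 * (Real.cosh g - 1) ≤ (m - 2) * (Real.cosh g - 1) :=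
        mul_le_mul_of_nonneg_right hm3 hcg0
      linarith
    -- second term
    have h2 : Real.cosh (2 * g) - 1 ≤ 5 * S := by
      rw [Real.cosh_two_mul, Real.sinh_sq]
      nlinarith
    have h2' : 8 * q * ((2 : ℝ) ^ (-(q + 1)) * A) * (Real.cosh (2 * g) - 1) ≤
        Real.exp (-(90 * U)) * (5 * S) :=
      mul_le_mul hqA h2 hc2g0 (Real.exp_pos _).le
    -- first term
    have h3 : ∑ z ∈ L, (Real.cosh (θ z) - 1) ≤ 5 * S := by
      have e1 : ∀ z ∈ L, Real.cosh (θ z) - 1 ≤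
          3 * (Real.cosh (g + θ z) - 1) + 2 * (Real.cosh g - 1) := by
        intro z _
        have e2 := cosh_add_le (g + θ z) (-g)
        rw [Real.cosh_neg, show g + θ z + -g = θ z by ring] at e2
        have e3 := Real.one_le_cosh (g + θ z)
        nlinarith
      refine (Finset.sum_le_sum e1).trans ?_
      rw [Finset.sum_add_distrib, ← Finset.mul_sum, Finset.sum_const, nsmul_eq_mul, hC, ← hS]
      linarith
    have h4 : ∑ z ∈ L, Real.sinh (θ z) ^ 2 ≤ 2 * Real.exp (U / 45) * (5 * S) := by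
      have e1 : ∀ z ∈ L, Real.sinh (θ z) ^ 2 ≤
          2 * Real.exp (U / 45) * (Real.cosh (θ z) - 1) := by
        intro z hz
        have e2 : Real.cosh (θ z) ≤ Real.exp (U / 45) := by
          refine le_trans ?_ (hLbd z hz)
          rw [← Real.cosh_abs, Real.cosh_eq]
          have e3 : Real.exp (-|θ z|) ≤ Real.exp |θ z| :=
            Real.exp_le_exp.2 (by linarith [abs_nonneg (θ z)])
          linarith
        have e4 := Real.one_le_cosh (θ z)
        rw [Real.sinh_sq]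
        nlinarith
      refine (Finset.sum_le_sum e1).trans ?_
      rw [← Finset.mul_sum]
      exact mul_le_mul_of_nonneg_left h3 (by positivity)
    have h5 : Real.exp (-(40 * U)) * ∑ z ∈ L, Real.sinh (θ z) ^ 2 ≤
        10 * Real.exp (-(39 * U)) * S := by
      have e1 : Real.exp (-(40 * U)) * (2 * Real.exp (U / 45) * (5 * S)) =
          10 * (Real.exp (-(40 * U)) * Real.exp (U / 45)) * S := by ring
      have e2 : Real.exp (-(40 * U)) * Real.exp (U / 45) ≤ Real.exp (-(39 * U)) := by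
        rw [← Real.exp_add]
        exact Real.exp_le_exp.2 (by linarith)
      calc _ ≤ Real.exp (-(40 * U)) * (2 * Real.exp (U / 45) * (5 * S)) :=
            mul_le_mul_of_nonneg_left h4 (Real.exp_pos _).le
        _ = 10 * (Real.exp (-(40 * U)) * Real.exp (U / 45)) * S := e1
        _ ≤ 10 * Real.exp (-(39 * U)) * S := by gcongr
    have h6 : 10 * Real.exp (-(39 * U)) + 5 * Real.exp (-(90 * U)) ≤ 2 * (w - 1) * Y := by
      have e1 : 15 * Real.exp (-(39 * U)) ≤ 24 / 100 * Real.exp (-u) := by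
        have e2 : Real.exp (-u) = Real.exp (-(39 * U)) * Real.exp (39 * U - u) := by
          rw [← Real.exp_add]; congr 1; ring
        have e3 : (100 : ℝ) ≤ Real.exp (39 * U - u) := by
          have := Real.add_one_le_exp (39 * U - u)
          have h10 : (100 : ℝ) ≤ 10 ^ 80 := by norm_num
          linarith
        rw [e2]
        have := Real.exp_pos (-(39 * U))
        nlinarith
      have e4 : Real.exp (-(90 * U)) ≤ Real.exp (-(39 * U)) := Real.exp_le_exp.2 (by linarith)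
      have e5 : 24 / 100 * Real.exp (-u) ≤ 2 * (w - 1) * Y := by
        have : 24 / 100 * Real.exp (-u) ≤ 24 / 100 * Y := by linarith
        refine this.trans ?_
        exact mul_le_mul_of_nonneg_right (by linarith) hY.le
      linarith
    calc _ ≤ 10 * Real.exp (-(39 * U)) * S + Real.exp (-(90 * U)) * (5 * S) := add_le_add h5 h2'
      _ = (10 * Real.exp (-(39 * U)) + 5 * Real.exp (-(90 * U))) * S := by ring
      _ ≤ 2 * (w - 1) * Y * S := mul_le_mul_of_nonneg_right h6 hSL0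
  · -- some heavy point
    set X := XX κ P θ + XX κ Q θ with hX
    have hcard : (1 : ℝ) ≤ (P.card : ℝ) + Q.card := by
      have : 1 ≤ P.card + Q.card := by
        rcases Finset.eq_empty_or_nonempty P with hP | hP
        · rcases Finset.eq_empty_or_nonempty Q with hQ | hQ
          · exact absurd ⟨hP, hQ⟩ hPQ
          · have := Finset.card_pos.2 hQ
            omega
        · have := Finset.card_pos.2 hP
          omega
      exact_mod_cast this
    have hheavy := card_heavy h.part hk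
    have hXlo : κ * Real.exp (U / 200) / 2 ≤ X := by
      have : 1 * (κ * Real.exp (U / 200) / 2) ≤
          ((P.card : ℝ) + Q.card) * (κ * Real.exp (U / 200) / 2) :=
        mul_le_mul_of_nonneg_right hcard (by positivity)
      linarith
    have hX0 : 0 ≤ X := le_trans (by positivity) hXlo
    -- the sum over the heavy points
    have hxi0 : ∀ t : ℝ, 0 ≤ xi κ t := fun t => by unfold xi; positivity
    have hside : ∀ (S : Finset ι) (e : ℝ), e ≤ 2 → XX κ S θ ≤ Y * e / (9 * w) →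
        ∑ z ∈ S, Real.sinh (θ z) ^ 2 ≤ XX κ S θ * Real.exp (3 * U) := by
      intro S e he hS
      have hS1 : XX κ S θ ≤ 1 := by
        refine hS.trans ?_
        rw [div_le_one (by linarith)]
        nlinarith
      have e1 : ∀ z ∈ S, Real.sinh (θ z) ^ 2 ≤ xi κ (θ z) * Real.exp (3 * U) := by
        intro z hz
        have e2 : xi κ (θ z) ≤ 1 := (xi_le_XX hk hz).trans hS1
        have e3 : Real.exp |θ z| / 2 = xi κ (θ z) / κ := by
          unfold xi
          field_simp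
        refine (sinh_sq_le _).trans ?_
        rw [e3, div_pow]
        have e4 : xi κ (θ z) ^ 2 ≤ xi κ (θ z) := by
          have := hxi0 (θ z)
          nlinarith
        calc xi κ (θ z) ^ 2 / κ ^ 2 ≤ xi κ (θ z) / κ ^ 2 := by gcongr
          _ = xi κ (θ z) * (1 / κ ^ 2) := by ring
          _ ≤ xi κ (θ z) * Real.exp (3 * U) :=
            mul_le_mul_of_nonneg_left (inv_k hW) (hxi0 _)
      refine (Finset.sum_le_sum e1).trans ?_
      rw [← Finset.sum_mul]
      exact le_rfl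
    have hexpg : Real.exp (-g) ≤ 2 ∧ Real.exp g ≤ 2 := by
      have key : ∀ t : ℝ, t ≤ 9 / 20 → Real.exp t ≤ 2 := by
        intro t ht
        have h5 := Real.exp_bound' (x := 9 / 20) (by norm_num) (by norm_num) (n := 4)
          (by norm_num)
        refine (Real.exp_le_exp.2 ht).trans (h5.trans ?_)
        norm_num [Finset.sum_range_succ, Nat.factorial]
      have := abs_le.1 hg
      exact ⟨key _ (by linarith), key _ (by linarith)⟩
    have hP2 := hside P (Real.exp (-g)) hexpg.1 h.hP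
    have hQ2 := hside Q (Real.exp g) hexpg.2 h.hQ
    have hL2 : ∑ z ∈ L, Real.sinh (θ z) ^ 2 ≤ m * Real.exp U := by
      have e1 : ∀ z ∈ L, Real.sinh (θ z) ^ 2 ≤ Real.exp U := by
        intro z hz
        refine (sinh_sq_le _).trans ?_
        have e2 : Real.exp |θ z| / 2 ≤ Real.exp (U / 45) := by
          have := hLbd z hz
          have := Real.exp_pos |θ z|
          linarith
        refine (pow_le_pow_left₀ (by positivity) e2 2).trans ?_
        rw [← Real.exp_nat_mul]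
        apply Real.exp_le_exp.2
        push_cast
        linarith
      have e3 : (L.card : ℝ) ≤ m := by
        have a1 : L.card ≤ Z.card := by
          refine Finset.card_le_card ?_
          rw [← h.part.hZ, Finset.union_assoc]
          exact Finset.subset_union_left
        have a2 : (L.card : ℝ) ≤ Z.card := by exact_mod_cast a1
        rw [h.card] at a2
        linarith
      have e4 := Finset.sum_le_card_nsmul L _ _ e1
      rw [nsmul_eq_mul] at e4
      exact e4.trans (mul_le_mul_of_nonneg_right e3 (Real.exp_pos _).le)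
    have hZ2 : ∑ z ∈ Z, Real.sinh (θ z) ^ 2 ≤ m * Real.exp U + X * Real.exp (3 * U) := by
      rw [← h.part.hZ]
      rw [Finset.sum_union (Finset.disjoint_union_left.2 ⟨h.part.hLQ, h.part.hPQ⟩),
        Finset.sum_union h.part.hLP]
      rw [hX, add_mul]
      linarith
    have hfirst : Real.exp (-(40 * U)) * ∑ z ∈ Z, Real.sinh (θ z) ^ 2 ≤
        Real.exp (-(38 * U)) + Real.exp (-(37 * U)) * X := by
      have e1 : Real.exp (-(40 * U)) * (m * Real.exp U + X * Real.exp (3 * U)) =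
          Real.exp (-(38 * U)) + Real.exp (-(37 * U)) * X := by
        rw [hW.hm]
        have a1 : Real.exp (-(38 * U)) = Real.exp (-(40 * U)) * (Real.exp U * Real.exp U) := by
          rw [← Real.exp_add, ← Real.exp_add]; congr 1; ring
        have a2 : Real.exp (-(37 * U)) = Real.exp (-(40 * U)) * Real.exp (3 * U) := by
          rw [← Real.exp_add]; congr 1; ring
        rw [a1, a2]
        ring
      rw [← e1]
      exact mul_le_mul_of_nonneg_left hZ2 (Real.exp_pos _).le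
    have hsecond : 8 * q * ((2 : ℝ) ^ (-(q + 1)) * A) * (Real.cosh (2 * g) - 1) ≤
        Real.exp (-(90 * U)) := by
      have := mul_le_mul hqA hc2g hc2g0 (Real.exp_pos _).le
      linarith
    have hmX : Real.exp (-(38 * U)) + Real.exp (-(90 * U)) ≤ m * X / 2 := by
      have a1 : Real.exp (-(38 * U)) ≤ Real.exp (-U) := Real.exp_le_exp.2 (by linarith)
      have a2 : Real.exp (-(90 * U)) ≤ Real.exp (-U) := Real.exp_le_exp.2 (by linarith)
      have a3 : m * (κ * Real.exp (U / 200) / 2) ≤ m * X :=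
        mul_le_mul_of_nonneg_left hXlo hm.le
      have a4 : 1 ≤ m * κ * U := hW.lo
      have a5 : 1 ≤ Real.exp (U / 200) := Real.one_le_exp (by positivity)
      have a6 : m * κ / 2 ≤ m * X := by
        refine le_trans ?_ a3
        have : 0 < m * κ := by positivity
        nlinarith
      -- `8 exp(-U) ≤ 1/U ≤ m κ`
      have a7 : 8 * U ≤ Real.exp U := by
        have a8 := Real.quadratic_le_exp_of_nonneg hU0.le
        have h10 : (16 : ℝ) ≤ 10 ^ 80 := by norm_num
        nlinarith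
      have a9 : 8 * Real.exp (-U) ≤ m * κ := by
        have b1 : Real.exp (-U) * Real.exp U = 1 := by
          rw [← Real.exp_add]; simp
        have b2 : 8 * Real.exp (-U) * U ≤ 1 := by
          have := mul_le_mul_of_nonneg_left a7 (Real.exp_pos (-U)).le
          linarith
        have b3 : 8 * Real.exp (-U) * U ≤ m * κ * U := b2.trans a4
        exact le_of_mul_le_mul_right b3 hU0
      linarith
    have hX37 : Real.exp (-(37 * U)) * X ≤ m * X / 2 := by
      have a1 : Real.exp (-(37 * U)) ≤ 1 := Real.exp_le_one_iff.2 (by linarith)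
      have a2 : (2 : ℝ) ≤ m := by
        have := FactsAux.m_big hW
        have h10 : (3 : ℝ) ≤ 10 ^ 30 := by norm_num
        linarith
      nlinarith
    have hpos : 0 ≤ 2 * (w - 1) * Y * ∑ z ∈ L, (Real.cosh (g + θ z) - 1) :=
      mul_nonneg hw1 hSL0
    linarith

end

end Pool.Agent.RieszWin
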