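import Pool.Agent.RieszWin.YDefs

set_option autoImplicit false

open Real Finset

namespace Pool.Agent.RieszWin

open Pool.Agent.RieszSmall Pool.Agent.RieszLin Pool.Agent.RieszTr

namespace YPairAux

/-- `|log A| ≤ 10 u^4` -/
theorem logA {u q m κ Y A w : ℝ} (h : Apx u q m κ Y A w) : |Real.log A| ≤ 10 * u ^ 4 := by
  obtain ⟨-, -, -, h4, -⟩ := h.A_bds
  obtain ⟨-, -, -, hw, -, -⟩ := h.basic
  have hel := h.win.el_bds
  have hU := FactsAux.u_le h.win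
  have hu := FactsAux.u_pos h.win
  have hU80 := FactsAux.U_ge h.win
  have h5 := abs_le.1 h4
  have hw0 := h.wlo
  have hwu : w ≤ u := hw.trans (div_le_self hu.le (by norm_num))
  have h1 : (1 : ℝ) ≤ u ^ 4 := le_trans (one_le_pow₀ (by norm_num)) hU80
  have h2 : u ≤ u ^ 4 := by
    refine le_trans ?_ hU
    have : (1 : ℝ) ≤ 10 ^ 60 := one_le_pow₀ (by norm_num)
    nlinarith
  rw [abs_le]
  constructor <;> linarith [h5.1, h5.2, hel.1, hel.2]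

/-- `K > 0` -/
theorem K_pos {B2 T A x y x' y' : ℝ} (hB : B2 + T = A) (hB0 : 0 ≤ B2) (hT0 : 0 ≤ T) (hA : 0 < A)
    (hx : 1 / 2 ≤ x) (hy : 1 / 2 ≤ y) (hx' : 1 / 2 ≤ x') (hy' : 1 / 2 ≤ y') :
    0 < B2 * (x * y) + T * (x' * y') := by
  have h1 : 1 / 4 ≤ x * y := by nlinarith
  have h2 : 1 / 4 ≤ x' * y' := by nlinarith
  have h3 : B2 * (1 / 4) ≤ B2 * (x * y) := mul_le_mul_of_nonneg_left h1 hB0
  have h4 : T * (1 / 4) ≤ T * (x' * y') := mul_le_mul_of_nonneg_left h2 hT0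
  linarith

theorem lin_sum {B2 T A e e' χ χ' : ℝ} (hB : B2 + T = A) :
    (B2 * ((1 + χ * e) * (1 + χ' * e')) + T * ((1 + e) * (1 + e')) - A) +
      (B2 * ((1 + χ * e) * (1 - χ' * e')) + T * ((1 + e) * (1 - e')) - A) +
      (B2 * ((1 - χ * e) * (1 + χ' * e')) + T * ((1 - e) * (1 + e')) - A) +
      (B2 * ((1 - χ * e) * (1 - χ' * e')) + T * ((1 - e) * (1 - e')) - A) = 0 := by
  rw [← hB]; ring

theorem sq_sum {B2 T A e e' χ χ' : ℝ} (hB : B2 + T = A) (hB0 : 0 ≤ B2)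
    (hT0 : 0 ≤ T) (he : 0 ≤ e) (he1 : e ≤ 1) (he' : 0 ≤ e')
    (hχ0 : 0 ≤ χ) (hχ1 : χ ≤ 1) (hχ0' : 0 ≤ χ') (hχ1' : χ' ≤ 1) :
    (B2 * ((1 + χ * e) * (1 + χ' * e')) + T * ((1 + e) * (1 + e')) - A) ^ 2 +
      (B2 * ((1 + χ * e) * (1 - χ' * e')) + T * ((1 + e) * (1 - e')) - A) ^ 2 +
      (B2 * ((1 - χ * e) * (1 + χ' * e')) + T * ((1 - e) * (1 + e')) - A) ^ 2 +
      (B2 * ((1 - χ * e) * (1 - χ' * e')) + T * ((1 - e) * (1 - e')) - A) ^ 2 ≤
      4 * (e ^ 2 * A ^ 2 + 2 * (e' ^ 2 * A ^ 2)) := by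
  have hD1 : (e * (χ * B2 + T)) ^ 2 ≤ e ^ 2 * A ^ 2 := by
    rw [mul_pow]
    have h1 : 0 ≤ χ * B2 + T := add_nonneg (mul_nonneg hχ0 hB0) hT0
    have h2 : χ * B2 + T ≤ A := by
      have := mul_le_mul_of_nonneg_right hχ1 hB0
      linarith
    exact mul_le_mul_of_nonneg_left (pow_le_pow_left₀ h1 h2 2) (sq_nonneg e)
  have hD2 : (e' * (χ' * B2 + T)) ^ 2 ≤ e' ^ 2 * A ^ 2 := by
    rw [mul_pow]
    have h1 : 0 ≤ χ' * B2 + T := add_nonneg (mul_nonneg hχ0' hB0) hT0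
    have h2 : χ' * B2 + T ≤ A := by
      have := mul_le_mul_of_nonneg_right hχ1' hB0
      linarith
    exact mul_le_mul_of_nonneg_left (pow_le_pow_left₀ h1 h2 2) (sq_nonneg e')
  have hD3 : (e * e' * (χ * χ' * B2 + T)) ^ 2 ≤ e' ^ 2 * A ^ 2 := by
    have h0 : 0 ≤ χ * χ' := mul_nonneg hχ0 hχ0'
    have h0' : χ * χ' ≤ 1 := mul_le_one₀ hχ1 hχ0' hχ1'
    have h1 : 0 ≤ χ * χ' * B2 + T := add_nonneg (mul_nonneg h0 hB0) hT0
    have h2 : χ * χ' * B2 + T ≤ A := by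
      have := mul_le_mul_of_nonneg_right h0' hB0
      linarith
    have h3 : e * e' ≤ e' := by
      have := mul_le_mul_of_nonneg_right he1 he'
      linarith
    rw [← mul_pow]
    refine pow_le_pow_left₀ (by positivity) ?_ 2
    exact mul_le_mul h3 h2 h1 he'
  have e0 : (B2 * ((1 + χ * e) * (1 + χ' * e')) + T * ((1 + e) * (1 + e')) - A) ^ 2 +
      (B2 * ((1 + χ * e) * (1 - χ' * e')) + T * ((1 + e) * (1 - e')) - A) ^ 2 +
      (B2 * ((1 - χ * e) * (1 + χ' * e')) + T * ((1 - e) * (1 + e')) - A) ^ 2 +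
      (B2 * ((1 - χ * e) * (1 - χ' * e')) + T * ((1 - e) * (1 - e')) - A) ^ 2 =
      4 * ((e * (χ * B2 + T)) ^ 2 + (e' * (χ' * B2 + T)) ^ 2
        + (e * e' * (χ * χ' * B2 + T)) ^ 2) := by
    rw [← hB]; ring
  rw [e0]
  linarith

theorem fin_sum {A s c P P1 P2 P3 P4 K1 K2 K3 K4 e e' : ℝ} (hA : 0 < A) (hc0 : 0 ≤ c)
    (hc : c ≤ 101 / 100 / A)
    (k1 : P + s * (K1 - A) - c * (K1 - A) ^ 2 ≤ P1)
    (k2 : P + s * (K2 - A) - c * (K2 - A) ^ 2 ≤ P2)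
    (k3 : P + s * (K3 - A) - c * (K3 - A) ^ 2 ≤ P3)
    (k4 : P + s * (K4 - A) - c * (K4 - A) ^ 2 ≤ P4)
    (hs : (K1 - A) + (K2 - A) + (K3 - A) + (K4 - A) = 0)
    (hsq : (K1 - A) ^ 2 + (K2 - A) ^ 2 + (K3 - A) ^ 2 + (K4 - A) ^ 2 ≤
      4 * (e ^ 2 * A ^ 2 + 2 * (e' ^ 2 * A ^ 2))) :
    8 * P - 24 * A * e ^ 2 - 24 * A * e' ^ 2 ≤ 2 * (P1 + P2 + P3 + P4) := by
  have hA2 : c * (4 * (e ^ 2 * A ^ 2 + 2 * (e' ^ 2 * A ^ 2))) ≤
      101 / 100 / A * (4 * (e ^ 2 * A ^ 2 + 2 * (e' ^ 2 * A ^ 2))) :=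
    mul_le_mul_of_nonneg_right hc (by positivity)
  have hA3 : 101 / 100 / A * (4 * (e ^ 2 * A ^ 2 + 2 * (e' ^ 2 * A ^ 2))) =
      101 / 100 * 4 * (A * e ^ 2 + 2 * (A * e' ^ 2)) := by
    field_simp
  have hA4 : c * ((K1 - A) ^ 2 + (K2 - A) ^ 2 + (K3 - A) ^ 2 + (K4 - A) ^ 2) ≤
      c * (4 * (e ^ 2 * A ^ 2 + 2 * (e' ^ 2 * A ^ 2))) :=
    mul_le_mul_of_nonneg_left hsq hc0
  have hs' : s * (K1 - A) + s * (K2 - A) + s * (K3 - A) + s * (K4 - A) = 0 := by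
    rw [← mul_add, ← mul_add, ← mul_add, hs, mul_zero]
  have hA5 : c * ((K1 - A) ^ 2 + (K2 - A) ^ 2 + (K3 - A) ^ 2 + (K4 - A) ^ 2) =
    c * (K1 - A) ^ 2 + c * (K2 - A) ^ 2 + c * (K3 - A) ^ 2 + c * (K4 - A) ^ 2 := by ring
  have p1 : 0 ≤ A * e ^ 2 := by positivity
  have p2 : 0 ≤ A * e' ^ 2 := by positivity
  have e1 : 24 * A * e ^ 2 = 24 * (A * e ^ 2) := by ring
  have e2 : 24 * A * e' ^ 2 = 24 * (A * e' ^ 2) := by ring
  rw [e1, e2]
  linarith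

end YPairAux

open YPairAux

section

variable {u q m κ Y A w : ℝ}

/-- MODULE RW46 (the pairs between the two sides). `B2 + T = A`. The four numbers
`K = B2 (1 ± χ e)(1 ± χ' e') + T (1 ± e)(1 ± e')` add up to `4 A` and
`|K - A| ≤ (11/10)(e + e') A`; `Phi_quad` and `Win.cv_near` at `A`. -/
theorem Apx.pairs (h : Apx u q m κ Y A w) {B2 T e e' χ χ' : ℝ} (hB : B2 + T = A) (hB0 : 0 ≤ B2)
    (hT0 : 0 ≤ T) (he : 0 ≤ e) (he1 : e ≤ 1 / 20) (he' : 0 ≤ e') (he1' : e' ≤ 1 / 20)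
    (hχ : χ = 0 ∨ χ = 1) (hχ' : χ' = 0 ∨ χ' = 1) :
    8 * Phi q A - 24 * A * e ^ 2 - 24 * A * e' ^ 2 ≤
      2 * (Phi q (B2 * ((1 + χ * e) * (1 + χ' * e')) + T * ((1 + e) * (1 + e')))
        + Phi q (B2 * ((1 + χ * e) * (1 - χ' * e')) + T * ((1 + e) * (1 - e')))
        + Phi q (B2 * ((1 - χ * e) * (1 + χ' * e')) + T * ((1 - e) * (1 + e')))
        + Phi q (B2 * ((1 - χ * e) * (1 - χ' * e')) + T * ((1 - e) * (1 - e')))) := by
  have hq : 0 < q := h.win.pos.2.2.1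
  have hA : 0 < A := h.sqr.hA
  have h2A := h.win.two_le hA (logA h)
  have hcv := h.win.cv_near hA (logA h)
  have hχ0 : 0 ≤ χ := by rcases hχ with h | h <;> rw [h] <;> norm_num
  have hχ1 : χ ≤ 1 := by rcases hχ with h | h <;> rw [h] <;> norm_num
  have hχ0' : 0 ≤ χ' := by rcases hχ' with h | h <;> rw [h] <;> norm_num
  have hχ1' : χ' ≤ 1 := by rcases hχ' with h | h <;> rw [h] <;> norm_num
  have a1 : 0 ≤ χ * e := mul_nonneg hχ0 he
  have a2 : χ * e ≤ 1 / 20 := by nlinarith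
  have a3 : 0 ≤ χ' * e' := mul_nonneg hχ0' he'
  have a4 : χ' * e' ≤ 1 / 20 := by nlinarith
  have k1 := Phi_quad hq h2A (K_pos hB hB0 hT0 hA (x := 1 + χ * e) (y := 1 + χ' * e')
    (x' := 1 + e) (y' := 1 + e') (by linarith) (by linarith) (by linarith) (by linarith))
  have k2 := Phi_quad hq h2A (K_pos hB hB0 hT0 hA (x := 1 + χ * e) (y := 1 - χ' * e')
    (x' := 1 + e) (y' := 1 - e') (by linarith) (by linarith) (by linarith) (by linarith))
  have k3 := Phi_quad hq h2A (K_pos hB hB0 hT0 hA (x := 1 - χ * e) (y := 1 + χ' * e')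
    (x' := 1 - e) (y' := 1 + e') (by linarith) (by linarith) (by linarith) (by linarith))
  have k4 := Phi_quad hq h2A (K_pos hB hB0 hT0 hA (x := 1 - χ * e) (y := 1 - χ' * e')
    (x' := 1 - e) (y' := 1 - e') (by linarith) (by linarith) (by linarith) (by linarith))
  have hA2 := sq_sum hB hB0 hT0 he (by linarith : e ≤ 1) he' hχ0 hχ1 hχ0' hχ1'
  have hs := lin_sum (e := e) (e' := e') (χ := χ) (χ' := χ') hB
  exact fin_sum hA hcv.1 hcv.2 k1 k2 k3 k4 hs hA2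

/-- The small diagonal-type terms, `ko = 2^(-p) A ≥ 2^(-p)`. `Phi_quad` at `ko` for
`K = exp(±2g) ko`, `cv q ko = ko^(-1/p)/ko ≤ 2/ko` (`ko^(-1/p) ≤ 2`), `sl q ko ≥ 0`:
`Φ(e^(2g) ko) + Φ(e^(-2g) ko) - 2 Φ(ko) ≥ -(2/ko) ko² ((e^(2g)-1)² + (1-e^(-2g))²)
 = -8 ko cosh 2g (cosh 2g - 1) ≥ -16 ko (cosh 2g - 1)`, and `q ≥ 10`. -/
theorem Apx.ko_terms (h : Apx u q m κ Y A w) {g : ℝ} (hg : |g| ≤ 9 / 20) :
    4 * Phi q ((2 : ℝ) ^ (-(q + 1)) * A) - 4 * q * ((2 : ℝ) ^ (-(q + 1)) * A)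
      - 8 * q * ((2 : ℝ) ^ (-(q + 1)) * A) * (Real.cosh (2 * g) - 1)
      ≤ 2 * Phi q (Real.exp (2 * g) * ((2 : ℝ) ^ (-(q + 1)) * A))
        - 2 * q * (Real.exp (2 * g) * ((2 : ℝ) ^ (-(q + 1)) * A))
        + 2 * Phi q (Real.exp (2 * -g) * ((2 : ℝ) ^ (-(q + 1)) * A))
        - 2 * q * (Real.exp (2 * -g) * ((2 : ℝ) ^ (-(q + 1)) * A)) := by
  have hq : 0 < q := h.win.pos.2.2.1
  have hA : 0 < A := h.sqr.hA
  obtain ⟨-, -, hA1, -, hAm⟩ := h.A_bds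
  have hp : 0 < q + 1 := by linarith
  have hq8 : 8 ≤ q := by
    have h1 := h.win.plo
    have h2 := FactsAux.m_big h.win
    have h3 := FactsAux.U_ge h.win
    have h4 : (10 : ℝ) ^ 30 * 10 ^ 80 ≤ m * u ^ 4 :=
      mul_le_mul h2 h3 (by positivity) (FactsAux.m_pos h.win).le
    have h5 : (100 : ℝ) ≤ 10 ^ 30 * 10 ^ 80 := by norm_num
    linarith
  set c : ℝ := (2 : ℝ) ^ (-(q + 1)) with hc
  have hc0 : 0 < c := Real.rpow_pos_of_pos (by norm_num) _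
  set ko : ℝ := c * A with hko
  have hko0 : 0 < ko := mul_pos hc0 hA
  have hcko : c ≤ ko := by
    rw [hko]
    nlinarith
  have hko1 : ko ≤ 1 := by
    have h1 := h.win.two.1
    have h2 : ko ≤ Real.exp (-(100 * u ^ 4)) * Real.exp (u ^ 4) := by
      rw [hko]
      refine mul_le_mul h1 ?_ hA.le (Real.exp_pos _).le
      rw [← h.win.hm]
      exact hAm
    refine h2.trans ?_
    rw [← Real.exp_add]
    rw [← Real.exp_zero]
    apply Real.exp_le_exp.2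
    have := FactsAux.U_pos h.win
    linarith
  have hr : ko ^ (-(1 / (q + 1))) = 2 * A ^ (-(1 / (q + 1))) := by
    rw [hko, Real.mul_rpow hc0.le hA.le, hc, ← Real.rpow_mul (by norm_num)]
    congr 1
    have e1 : -(q + 1) * -(1 / (q + 1)) = 1 := by
      field_simp
    rw [e1, Real.rpow_one]
  have hr2 : ko ^ (-(1 / (q + 1))) ≤ 2 := by
    rw [hr]
    have h1 : A ^ (-(1 / (q + 1))) ≤ 1 := by
      apply Real.rpow_le_one_of_one_le_of_nonpos hA1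
      have : 0 < 1 / (q + 1) := by positivity
      linarith
    linarith
  have hr1 : 1 ≤ ko ^ (-(1 / (q + 1))) := by
    apply Real.one_le_rpow_of_pos_of_le_one_of_nonpos hko0 hko1
    have : 0 < 1 / (q + 1) := by positivity
    linarith
  have hsl : 0 ≤ sl q ko := by
    rw [sl]
    exact mul_nonneg hq.le (by linarith)
  have hcv0 : 0 ≤ cv q ko := by
    rw [cv]; positivity
  have hcv : cv q ko ≤ 2 / ko := by
    rw [cv]
    exact div_le_div_of_nonneg_right hr2 hko0.le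
  have k1 := Phi_quad hq hcko (mul_pos (Real.exp_pos (2 * g)) hko0)
  have k2 := Phi_quad hq hcko (mul_pos (Real.exp_pos (2 * -g)) hko0)
  set x := Real.exp (2 * g) with hx
  set y := Real.exp (2 * -g) with hy
  have hxy : x * y = 1 := by
    rw [hx, hy, ← Real.exp_add]
    rw [show 2 * g + 2 * -g = 0 by ring, Real.exp_zero]
  have hC : Real.cosh (2 * g) = (x + y) / 2 := by
    rw [Real.cosh_eq, hx, hy]
    congr 3
    ring
  set C := Real.cosh (2 * g) with hCd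
  have hC1 : 1 ≤ C := Real.one_le_cosh _
  have hC2 : C ≤ 2 := by
    have h1 : |2 * g| ≤ 9 / 10 := by
      rw [abs_mul, abs_two]; linarith
    have h2 : C ≤ Real.cosh (9 / 10) := by
      rw [hCd]
      apply Real.cosh_le_cosh.2
      rw [abs_of_pos (show (0 : ℝ) < 9 / 10 by norm_num)]
      exact h1
    have h3 : Real.cosh (9 / 10) ≤ 2 := by
      rw [Real.cosh_eq]
      have h4 : Real.exp (9 / 10) ≤ Real.exp 1 := Real.exp_le_exp.2 (by norm_num)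
      have h5 : Real.exp (-(9 / 10)) ≤ 1 := by
        rw [← Real.exp_zero]
        exact Real.exp_le_exp.2 (by norm_num)
      have h6 := Real.exp_one_lt_d9
      linarith
    linarith
  have hxy2 : x + y = 2 * C := by rw [hC]; ring
  have hs1 : sl q ko * (x * ko - ko) + sl q ko * (y * ko - ko) = sl q ko * (ko * (2 * (C - 1))) := by
    have : y = 2 * C - x := by linarith
    rw [this]; ring
  have hs2 : 0 ≤ sl q ko * (ko * (2 * (C - 1))) :=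
    mul_nonneg hsl (mul_nonneg hko0.le (by linarith))
  have hs3 : (x * ko - ko) ^ 2 + (y * ko - ko) ^ 2 = ko ^ 2 * (4 * C * (C - 1)) := by
    have h1 : (x * ko - ko) ^ 2 + (y * ko - ko) ^ 2 =
        ko ^ 2 * ((x + y) ^ 2 - 2 * (x * y) - 2 * (x + y) + 2) := by ring
    rw [h1, hxy2, hxy]
    ring
  have hs4 : cv q ko * ((x * ko - ko) ^ 2 + (y * ko - ko) ^ 2) ≤ 16 * ko * (C - 1) := by
    rw [hs3]
    have h1 : cv q ko * (ko ^ 2 * (4 * C * (C - 1))) ≤ 2 / ko * (ko ^ 2 * (4 * C * (C - 1))) := by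
      refine mul_le_mul_of_nonneg_right hcv ?_
      have : 0 ≤ C - 1 := by linarith
      positivity
    have h2 : 2 / ko * (ko ^ 2 * (4 * C * (C - 1))) = 8 * ko * C * (C - 1) := by
      field_simp
      ring
    have h3 : 8 * ko * C * (C - 1) ≤ 8 * ko * 2 * (C - 1) := by
      refine mul_le_mul_of_nonneg_right ?_ (by linarith)
      exact mul_le_mul_of_nonneg_left hC2 (by positivity)
    linarith
  have hf : 2 * q * (x * ko) + 2 * q * (y * ko) = 4 * q * ko + 4 * q * ko * (C - 1) := by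
    have : y = 2 * C - x := by linarith
    rw [this]; ring
  have hP : 0 ≤ ko * (C - 1) := mul_nonneg hko0.le (by linarith)
  have hfin : 32 * (ko * (C - 1)) ≤ 4 * q * (ko * (C - 1)) :=
    mul_le_mul_of_nonneg_right (by linarith) hP
  have e1 : cv q ko * (x * ko - ko) ^ 2 + cv q ko * (y * ko - ko) ^ 2 ≤ 16 * ko * (C - 1) := by
    rw [← mul_add]; exact hs4
  linarith

end

end Pool.Agent.RieszWin
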