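import Pool.Agent.RieszWin.YDefs
import Pool.Agent.RieszWin.LossE

set_option autoImplicit false

open Real Finset

namespace Pool.Agent.RieszWin

open Pool.Agent.RieszSmall Pool.Agent.RieszLin Pool.Agent.RieszTr

/-- the terms of a pair of distinguished points: `B2 = (A+ko)/2`, `T = (A-ko)/2`, `y0 = Y e^g`,
`G = e^(2g)`; `χ = 0`: equal `b`, `χ = 1`: `b` proportional to `α`. -/
noncomputable def Side {ι : Type*} (q y0 G B2 T e χ : ℝ) (Z : Finset ι) (θ : ι → ℝ) : ℝ :=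
  2 * ∑ z ∈ Z, (Phi q (y0 * ((1 + χ * e) * Real.cosh (θ z) + (1 + e) * Real.sinh (θ z)))
      + Phi q (y0 * ((1 - χ * e) * Real.cosh (θ z) + (1 - e) * Real.sinh (θ z))))
    + 2 * Phi q (G * (B2 * (1 - χ ^ 2 * e ^ 2) - T * (1 - e ^ 2)))
    - q * (G * (2 * B2 * (1 + χ ^ 2 * e ^ 2) - 2 * T * (1 + e ^ 2)))

namespace YSideAux

/-- elementary facts -/
theorem basic {u q m κ Y A w g : ℝ} (h : Apx u q m κ Y A w) (hg : |g| ≤ 9 / 20) :
    1 / 10 ≤ Real.exp (2 * g) ∧ Real.exp (2 * g) ≤ 3 ∧ 11 / 20 ≤ Real.exp g ∧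
      Real.exp (-u) ≤ Y * Real.exp g ∧ Y * Real.exp g ≤ 1 := by
  obtain ⟨hY, hY3, hYe, hww, -, -⟩ := h.basic
  have hu : (1000 : ℝ) ≤ u := le_trans (by norm_num) h.win.hu
  have hg' := abs_le.1 hg
  have he1 : Real.exp 1 < 2.7182818286 := Real.exp_one_lt_d9
  refine ⟨?_, ?_, ?_, ?_, ?_⟩
  · have := Real.add_one_le_exp (2 * g)
    linarith
  · have h1 : Real.exp (2 * g) ≤ Real.exp 1 := Real.exp_le_exp.2 (by linarith)
    linarith
  · have := Real.add_one_le_exp g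
    linarith
  · rw [hYe, ← Real.exp_add]
    apply Real.exp_le_exp.2
    have h1 : u / 10 ^ 9 ≤ u / 2 := div_le_div_of_nonneg_left (by linarith) (by norm_num) (by norm_num)
    linarith
  · have h1 : Real.exp g ≤ Real.exp 1 := Real.exp_le_exp.2 (by linarith)
    have h2 : Real.exp g ≤ 3 := by linarith
    have h3 : Y * Real.exp g ≤ 1 / 3 * 3 := mul_le_mul hY3 h2 (Real.exp_pos _).le (by norm_num)
    linarith

/-- the tiny adjacent value -/
theorem ko_bds {u q m κ Y A w : ℝ} (h : Apx u q m κ Y A w) :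
    0 ≤ (2 : ℝ) ^ (-(q + 1)) * A ∧ 3 * ((2 : ℝ) ^ (-(q + 1)) * A) ≤ 1 ∧
      12 * (q * ((2 : ℝ) ^ (-(q + 1)) * A)) ≤ 1 := by
  obtain ⟨hu0, hm0, hq0, hk0, -⟩ := h.win.pos
  have hu : (1000 : ℝ) ≤ u := le_trans (by norm_num) h.win.hu
  obtain ⟨-, -, hA1, -, hAm⟩ := h.A_bds
  have h2 := h.win.two.1
  have hU : u ≤ u ^ 4 := by
    calc u = u ^ 1 := (pow_one u).symm
      _ ≤ u ^ 4 := pow_le_pow_right₀ (by linarith) (by norm_num)
  have hU1 : (1000 : ℝ) ≤ u ^ 4 := hu.trans hU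
  have hm := h.win.hm
  have hphi := h.win.phi
  have e0 : (0 : ℝ) < 2 ^ (-(q + 1)) := Real.rpow_pos_of_pos (by norm_num) _
  have hexpU : u ^ 4 ≤ Real.exp (u ^ 4) := by
    have := Real.add_one_le_exp (u ^ 4)
    linarith
  have hq2 : q ≤ 2 * (Real.exp (u ^ 4) * Real.exp (u ^ 4)) := by
    have h3 : m * u ^ 4 ≤ Real.exp (u ^ 4) * Real.exp (u ^ 4) := by
      rw [hm]
      exact mul_le_mul_of_nonneg_left hexpU (Real.exp_pos _).le
    have h4 : 0 ≤ m * u ^ 4 := by positivity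
    linarith
  have hko : (2 : ℝ) ^ (-(q + 1)) * A ≤ Real.exp (-(100 * u ^ 4)) * Real.exp (u ^ 4) := by
    rw [hm] at hAm
    exact mul_le_mul h2 hAm (by linarith) (Real.exp_pos _).le
  have hko0 : 0 ≤ (2 : ℝ) ^ (-(q + 1)) * A := mul_nonneg e0.le (by linarith)
  have hsm : 24 * Real.exp (-(97 * u ^ 4)) ≤ 1 := by
    rw [Real.exp_neg]
    have h3 := Real.add_one_le_exp (97 * u ^ 4)
    have h4 : (24 : ℝ) ≤ Real.exp (97 * u ^ 4) := by linarith
    rw [← div_eq_mul_inv, div_le_one (Real.exp_pos _)]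
    exact h4
  have e1 : Real.exp (-(100 * u ^ 4)) * Real.exp (u ^ 4) ≤ Real.exp (-(97 * u ^ 4)) := by
    rw [← Real.exp_add]
    apply Real.exp_le_exp.2
    linarith
  have e2 : 2 * (Real.exp (u ^ 4) * Real.exp (u ^ 4)) *
      (Real.exp (-(100 * u ^ 4)) * Real.exp (u ^ 4)) = 2 * Real.exp (-(97 * u ^ 4)) := by
    rw [mul_assoc, ← Real.exp_add, ← Real.exp_add, ← Real.exp_add]
    congr 2
    ring
  refine ⟨hko0, by linarith [Real.exp_pos (-(97 * u ^ 4))], ?_⟩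
  have h5 : q * ((2 : ℝ) ^ (-(q + 1)) * A) ≤ 2 * (Real.exp (u ^ 4) * Real.exp (u ^ 4)) *
      (Real.exp (-(100 * u ^ 4)) * Real.exp (u ^ 4)) :=
    mul_le_mul hq2 hko hko0 (by positivity)
  linarith

/-- `48 A ≤ Y m` -/
theorem A_small {u q m κ Y A w : ℝ} (h : Apx u q m κ Y A w) : 48 * A ≤ Y * m := by
  obtain ⟨hu0, hm0, hq0, hk0, -⟩ := h.win.pos
  obtain ⟨hY, hY3, hYe, hww, -, -⟩ := h.basic
  have hu : (1000 : ℝ) ≤ u := le_trans (by norm_num) h.win.hu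
  obtain ⟨hA, -, hA1, -, hAm⟩ := h.A_bds
  have hrat := h.ratio.2
  have hel := h.win.el_bds.1
  have hw1 := h.wlo
  have hU : u ≤ u ^ 4 := by
    calc u = u ^ 1 := (pow_one u).symm
      _ ≤ u ^ 4 := pow_le_pow_right₀ (by linarith) (by norm_num)
  have hel0 : 0 < el κ := by
    have : 0 < u ^ 4 := by positivity
    linarith
  have h1 : 1 + 1 / u ≤ 2 := by
    have : 1 / u ≤ 1 / 1000 := one_div_le_one_div_of_le (by norm_num) hu
    linarith
  have h2 : w * m / (4 * el κ) ≤ m / 10 ^ 8 := by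
    rw [div_le_div_iff₀ (by positivity) (by norm_num)]
    have h3 : w * 10 ^ 9 ≤ u := by
      rw [le_div_iff₀ (by norm_num)] at hww
      exact hww
    have h4 : w * 10 ^ 8 ≤ 4 * el κ := by linarith
    calc w * m * 10 ^ 8 = m * (w * 10 ^ 8) := by ring
      _ ≤ m * (4 * el κ) := mul_le_mul_of_nonneg_left h4 hm0.le
  have h5 : Y / κ ≤ m / 10 ^ 8 * 2 :=
    hrat.trans (mul_le_mul h2 h1 (by positivity) (by positivity))
  have h6 : 2 * Y ^ 2 / κ = 2 * Y * (Y / κ) := by ring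
  rw [h6] at hA
  have h7 : 2 * Y * (Y / κ) ≤ 2 * Y * (m / 10 ^ 8 * 2) :=
    mul_le_mul_of_nonneg_left h5 (by positivity)
  have h8 : 2 * Y * (m / 10 ^ 8 * 2) = Y * m * (4 / 10 ^ 8) := by ring
  have h9 : 0 < Y * m := by positivity
  have h10 : A ≤ Y * m * (4 / 10 ^ 8) := by
    rw [← h8]
    exact hA.trans h7
  have h11 : (4 / 10 ^ 8 : ℝ) ≤ 1 / 48 := by norm_num
  have h12 : Y * m * (4 / 10 ^ 8) ≤ Y * m * (1 / 48) := mul_le_mul_of_nonneg_left h11 h9.le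
  linarith

/-- final inequality of the first case -/
theorem fin1 {q G T A e : ℝ} (hq : 10000 ≤ q) (hG : 1 / 10 ≤ G) (hT : 1 ≤ T) (hA : A ≤ 3 * T) :
    e ^ 2 / 10 + 24 * A * e ^ 2 ≤ 13 / 100 * (q * (G * T * e ^ 2)) := by
  have h1 : 0 ≤ e ^ 2 := sq_nonneg e
  have h2 : 1000 ≤ q * G := by
    calc (1000 : ℝ) = 10000 * (1 / 10) := by norm_num
      _ ≤ q * G := mul_le_mul hq hG (by norm_num) (by linarith)
  have h3 : 1000 * T ≤ q * G * T := mul_le_mul_of_nonneg_right h2 (by linarith)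
  have h4 : 1 / 10 + 24 * A ≤ 13 / 100 * (q * G * T) := by linarith
  have h5 := mul_le_mul_of_nonneg_right h4 h1
  have e1 : (1 / 10 + 24 * A) * e ^ 2 = e ^ 2 / 10 + 24 * A * e ^ 2 := by ring
  have e2 : 13 / 100 * (q * G * T) * e ^ 2 = 13 / 100 * (q * (G * T * e ^ 2)) := by ring
  linarith

/-- final inequality of the second case -/
theorem fin2 {q m G ko y0 Y A e X : ℝ} (he : 0 ≤ e) (he1 : e ≤ 1 / 20) (hY : 0 < Y) (hm : 0 < m)
    (hq : 0 < q) (hko0 : 0 ≤ ko) (hG : G ≤ 3)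
    (hko : 12 * (q * ko) ≤ 1) (hA : 48 * A ≤ Y * m) (hy : 11 / 20 * Y ≤ y0)
    (hmy : 10 ≤ m * y0) (hX : 4 / 5 * (e * y0) ≤ X) :
    43 / 10 * e ^ 2 * y0 * m + 4 * (q * (e ^ 2 * (G * ko))) + e ^ 2 / 10 + 24 * A * e ^ 2 ≤
      1 / 2 * m * X := by
  have hy0 : 0 < y0 := by linarith
  have h1 : q * (G * ko) ≤ q * (3 * ko) :=
    mul_le_mul_of_nonneg_left (mul_le_mul_of_nonneg_right hG hko0) hq.le
  have h2 : 4 * (q * (G * ko)) ≤ 1 := by linarith
  have h3 : Y * m ≤ 20 / 11 * (m * y0) := by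
    have := mul_le_mul_of_nonneg_right hy hm.le
    linarith
  have h4 : 4 * (q * (G * ko)) + 1 / 10 + 24 * A ≤ 11 / 10 * (m * y0) := by linarith
  have he2 : e ^ 2 ≤ 1 / 20 * e := by
    have := mul_le_mul_of_nonneg_left he1 he
    linarith [sq e]
  have hmy0 : 0 ≤ m * y0 := by linarith
  have h5 : e ^ 2 * (43 / 10 * (m * y0) + (4 * (q * (G * ko)) + 1 / 10 + 24 * A)) ≤
      1 / 20 * e * (54 / 10 * (m * y0)) := by
    have h6 : 43 / 10 * (m * y0) + (4 * (q * (G * ko)) + 1 / 10 + 24 * A) ≤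
        54 / 10 * (m * y0) := by linarith
    refine (mul_le_mul_of_nonneg_left h6 (sq_nonneg e)).trans ?_
    exact mul_le_mul_of_nonneg_right he2 (by linarith)
  have h7 : 1 / 2 * m * (4 / 5 * (e * y0)) ≤ 1 / 2 * m * X :=
    mul_le_mul_of_nonneg_left hX (by linarith)
  have h8 : 0 ≤ e * (m * y0) := mul_nonneg he hmy0
  have e1 : e ^ 2 * (43 / 10 * (m * y0) + (4 * (q * (G * ko)) + 1 / 10 + 24 * A)) =
      43 / 10 * e ^ 2 * y0 * m + 4 * (q * (e ^ 2 * (G * ko))) + e ^ 2 / 10 + 24 * A * e ^ 2 := by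
    ring
  have e2 : 1 / 20 * e * (54 / 10 * (m * y0)) = 27 / 100 * (e * (m * y0)) := by ring
  have e3 : 1 / 2 * m * (4 / 5 * (e * y0)) = 2 / 5 * (e * (m * y0)) := by ring
  rw [e1, e2] at h5
  rw [e3] at h7
  linarith

end YSideAux

open YSideAux

section

variable {ι : Type*} [DecidableEq ι] {u q m κ Y A w S0 : ℝ} {Z L P Q : Finset ι} {θ : ι → ℝ}

/-- MODULE RW45 (one side). `ko = 2^(-p) A`, `G = exp (2g)`, `y0 = Y exp g ∈ [exp(-u), 1]`.
* First case: `χ = 0`. Then `y0 (cosh θ + (1±e) sinh θ) = y0 exp θ ± e y0 sinh θ`, `NZ.lossE` with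
  `T2 = G T ≥ exp(0.9 u^4)`; `G (B2 - T (1-e²)) = G ko + G T e²`, `Win.Phi_add_ge`
  (`G ko ≤ 1`); `-q G (2 B2 - 2 T (1+e²)) = -2 q G ko + 2 q G T e²`. The gain is
  `(2 - 1/50 - 37/20) q G T e² ≥ 25 A e²`.
* Second case: `χ = 1`. `y0 ((1±e) cosh θ + (1±e) sinh θ) = (1±e) y0 exp θ`, `NZ.lossI`; the other
  terms: `2 Φ(G ko (1-e²)) - 2 q G ko (1+e²) ≥ 2 Φ(G ko) - 2 q G ko - 4 q e² G ko` (`Phi_slope`).
  Losses: `4.3 e² y0 m ≤ 4.3 · (1/20) · (5/4) m XX Q ≤ 0.27 m XX Q`; `25 A e² ≤ m e y0/100` (because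
  `A ≤ 2 Y²/κ ≤ Y w m/(1.9 u^4)`), `4 q e² G ko ≤ e² ≤ m e y0/100`. -/
theorem side (h : Apx u q m κ Y A w) (hz : NZ u q m κ S0 Z L P Q θ) {g e : ℝ}
    (hg : |g| ≤ 9 / 20) (he : 0 ≤ e) (he1 : e ≤ 1 / 20)
    (hcase : (e ≤ Real.exp (-(u ^ 4 / 10)) ∧ Y * Real.exp g * ∑ z ∈ Q, (-Real.sinh (θ z))
        ≤ 9 / 10 * e * (Real.exp (2 * g) * ((A - (2 : ℝ) ^ (-(q + 1)) * A) / 2)))
      ∨ 4 / 5 * (e * (Y * Real.exp g)) ≤ XX κ Q θ) :
    ∃ χ : ℝ, (χ = 0 ∨ χ = 1) ∧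
      4 * ∑ z ∈ Z, Phi q (Y * Real.exp (g + θ z))
        + 2 * Phi q (Real.exp (2 * g) * ((2 : ℝ) ^ (-(q + 1)) * A))
        - 2 * q * (Real.exp (2 * g) * ((2 : ℝ) ^ (-(q + 1)) * A))
        - 1 / 10 * u ^ 4 * (κ * GG L θ) - 1 / 2 * m * XX κ Q θ + e ^ 2 / 10 + 24 * A * e ^ 2
      ≤ Side q (Y * Real.exp g) (Real.exp (2 * g)) ((A + (2 : ℝ) ^ (-(q + 1)) * A) / 2)
          ((A - (2 : ℝ) ^ (-(q + 1)) * A) / 2) e χ Z θ := by
  obtain ⟨hu0, hm0, hq0, hk0, -⟩ := h.win.pos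
  obtain ⟨hG1, hG2, hg1, hylo, hyhi⟩ := basic h hg
  obtain ⟨hko0, hko1, hko2⟩ := ko_bds h
  obtain ⟨hT1, hT2, hT3, hT4, hT5⟩ := h.T_bds rfl
  obtain ⟨hY, -⟩ := h.basic
  obtain ⟨-, -, hA1, -, hAm⟩ := h.A_bds
  have hu : (1000 : ℝ) ≤ u := le_trans (by norm_num) h.win.hu
  have hU : u ≤ u ^ 4 := by
    calc u = u ^ 1 := (pow_one u).symm
      _ ≤ u ^ 4 := pow_le_pow_right₀ (by linarith) (by norm_num)
  have hm := h.win.hm
  have hm1 : u ^ 4 + 1 ≤ m := by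
    rw [hm]
    exact Real.add_one_le_exp _
  have hql : (10000 : ℝ) ≤ q := by
    have h1 := h.win.plo
    have h2 : 1000 * 1000 ≤ m * u ^ 4 := mul_le_mul (by linarith) (by linarith) (by norm_num) hm0.le
    linarith
  set ko : ℝ := (2 : ℝ) ^ (-(q + 1)) * A with hko
  set G : ℝ := Real.exp (2 * g) with hG
  set T : ℝ := (A - ko) / 2 with hT
  set y0 : ℝ := Y * Real.exp g with hy0
  have hGG : 0 ≤ GG L θ := GG_nonneg L θ
  have hXX : 0 ≤ XX κ Q θ := by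
    unfold XX xi
    exact Finset.sum_nonneg fun z _ => by positivity
  have hsame : ∑ z ∈ Z, Phi q (Y * Real.exp (g + θ z)) = ∑ z ∈ Z, Phi q (y0 * Real.exp (θ z)) := by
    refine Finset.sum_congr rfl fun z _ => ?_
    rw [Real.exp_add, hy0, mul_assoc]
  rw [hsame]
  have hT0 : 1 ≤ T := by
    have h1 : (1 : ℝ) ≤ Real.exp (9 / 10 * u ^ 4 + 1) := Real.one_le_exp (by positivity)
    linarith
  rcases hcase with ⟨hc1, hc2⟩ | hc
  · refine ⟨0, Or.inl rfl, ?_⟩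
    have hGT : Real.exp (9 / 10 * u ^ 4) ≤ G * T := by
      have h1 : Real.exp (-(9 / 10)) ≤ G := by
        rw [hG]
        apply Real.exp_le_exp.2
        linarith [(abs_le.1 hg).1]
      have h2 : Real.exp (-(9 / 10)) * Real.exp (9 / 10 * u ^ 4 + 1) ≤ G * T :=
        mul_le_mul h1 hT3 (Real.exp_pos _).le (by linarith)
      rw [← Real.exp_add] at h2
      refine le_trans (Real.exp_le_exp.2 ?_) h2
      linarith
    have hloss := hz.lossE hylo hyhi he hc1 hGT hc2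
    have hadd := h.win.Phi_add_ge (y := G * ko) (z := G * T * e ^ 2)
      (by positivity) (by
        calc G * ko ≤ 3 * ko := mul_le_mul_of_nonneg_right hG2 hko0
          _ ≤ 1 := hko1) (by positivity) (by
        have h1 : G * T ≤ 3 * m := mul_le_mul hG2 (by linarith) (by linarith) (by norm_num)
        have h2 : e ^ 2 ≤ (1 / 20) ^ 2 := pow_le_pow_left₀ he he1 2
        have h3 : G * T * e ^ 2 ≤ 3 * m * (1 / 20) ^ 2 :=
          mul_le_mul h1 h2 (sq_nonneg e) (by linarith)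
        have h4 : m ≤ Real.exp (3 * u ^ 4) := by
          rw [hm]
          exact Real.exp_le_exp.2 (by linarith)
        linarith)
    have hfin := fin1 (e := e) hql hG1 hT0 hT5
    unfold Side
    have e1 : ∑ z ∈ Z, (Phi q (y0 * ((1 + 0 * e) * Real.cosh (θ z) + (1 + e) * Real.sinh (θ z)))
        + Phi q (y0 * ((1 - 0 * e) * Real.cosh (θ z) + (1 - e) * Real.sinh (θ z)))) =
        2 * ∑ z ∈ Z, Phi q (y0 * Real.exp (θ z)) -
          ∑ z ∈ Z, (2 * Phi q (y0 * Real.exp (θ z))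
            - Phi q (y0 * Real.exp (θ z) + e * (y0 * Real.sinh (θ z)))
            - Phi q (y0 * Real.exp (θ z) - e * (y0 * Real.sinh (θ z)))) := by
      rw [Finset.mul_sum, ← Finset.sum_sub_distrib]
      refine Finset.sum_congr rfl fun z _ => ?_
      have e3 : y0 * ((1 + 0 * e) * Real.cosh (θ z) + (1 + e) * Real.sinh (θ z)) =
          y0 * Real.exp (θ z) + e * (y0 * Real.sinh (θ z)) := by
        rw [← Real.cosh_add_sinh (θ z)]
        ring
      have e4 : y0 * ((1 - 0 * e) * Real.cosh (θ z) + (1 - e) * Real.sinh (θ z)) =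
          y0 * Real.exp (θ z) - e * (y0 * Real.sinh (θ z)) := by
        rw [← Real.cosh_add_sinh (θ z)]
        ring
      rw [e3, e4]
      ring
    have e2 : G * ((A + ko) / 2 * (1 - 0 ^ 2 * e ^ 2) - T * (1 - e ^ 2)) =
        G * ko + G * T * e ^ 2 := by
      rw [hT]
      ring
    have e5 : q * (G * (2 * ((A + ko) / 2) * (1 + 0 ^ 2 * e ^ 2) - 2 * T * (1 + e ^ 2))) =
        2 * q * (G * ko) - 2 * (q * (G * T * e ^ 2)) := by
      rw [hT]
      ring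
    rw [e1, e2, e5]
    have e6 : 37 / 20 * q * (G * T) * e ^ 2 = 37 / 20 * (q * (G * T * e ^ 2)) := by ring
    rw [e6] at hloss
    have e7 : q / 100 * (G * T * e ^ 2) = 1 / 100 * (q * (G * T * e ^ 2)) := by ring
    rw [e7] at hadd
    have h8 : 0 ≤ 1 / 10 * u ^ 4 * (κ * GG L θ) := by positivity
    have h9 : 0 ≤ 1 / 2 * m * XX κ Q θ := by positivity
    linarith
  · refine ⟨1, Or.inr rfl, ?_⟩
    have hloss := hz.lossI hylo hyhi he he1
    have hsl := Phi_slope hq0 (show G * ko * (1 - e ^ 2) ≤ G * ko by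
      have h1 : 0 ≤ G * ko := by positivity
      have h2 := mul_nonneg h1 (sq_nonneg e)
      linarith)
    have hmy : 10 ≤ m * y0 := by
      have h1 : m * Real.exp (-u) ≤ m * y0 := mul_le_mul_of_nonneg_left hylo hm0.le
      have h2 : m * Real.exp (-u) = Real.exp (u ^ 4 - u) := by
        rw [hm, ← Real.exp_add]
        congr 1
      have h3 := Real.add_one_le_exp (u ^ 4 - u)
      have h4 : 1000 * u ≤ u ^ 4 := by
        have h5 : u ^ 4 = u ^ 3 * u := by ring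
        have h6 : (1000 : ℝ) ≤ u ^ 3 := by
          calc (1000 : ℝ) ≤ u := hu
            _ = u ^ 1 := (pow_one u).symm
            _ ≤ u ^ 3 := pow_le_pow_right₀ (by linarith) (by norm_num)
        rw [h5]
        exact mul_le_mul_of_nonneg_right h6 hu0.le
      linarith
    have hfin := fin2 (G := G) (ko := ko) (X := XX κ Q θ) he he1 hY hm0 hq0 hko0 hG2 hko2
      (A_small h) (y0 := y0) (by
        rw [hy0]
        have := mul_le_mul_of_nonneg_left hg1 hY.le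
        linarith) hmy hc
    unfold Side
    have e1 : ∑ z ∈ Z, (Phi q (y0 * ((1 + 1 * e) * Real.cosh (θ z) + (1 + e) * Real.sinh (θ z)))
        + Phi q (y0 * ((1 - 1 * e) * Real.cosh (θ z) + (1 - e) * Real.sinh (θ z)))) =
        2 * ∑ z ∈ Z, Phi q (y0 * Real.exp (θ z)) -
          ∑ z ∈ Z, (2 * Phi q (y0 * Real.exp (θ z))
            - Phi q ((1 + e) * (y0 * Real.exp (θ z)))
            - Phi q ((1 - e) * (y0 * Real.exp (θ z)))) := by
      rw [Finset.mul_sum, ← Finset.sum_sub_distrib]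
      refine Finset.sum_congr rfl fun z _ => ?_
      have e3 : y0 * ((1 + 1 * e) * Real.cosh (θ z) + (1 + e) * Real.sinh (θ z)) =
          (1 + e) * (y0 * Real.exp (θ z)) := by
        rw [← Real.cosh_add_sinh (θ z)]
        ring
      have e4 : y0 * ((1 - 1 * e) * Real.cosh (θ z) + (1 - e) * Real.sinh (θ z)) =
          (1 - e) * (y0 * Real.exp (θ z)) := by
        rw [← Real.cosh_add_sinh (θ z)]
        ring
      rw [e3, e4]
      ring
    have e2 : G * ((A + ko) / 2 * (1 - 1 ^ 2 * e ^ 2) - T * (1 - e ^ 2)) =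
        G * ko * (1 - e ^ 2) := by
      rw [hT]
      ring
    have e5 : q * (G * (2 * ((A + ko) / 2) * (1 + 1 ^ 2 * e ^ 2) - 2 * T * (1 + e ^ 2))) =
        2 * q * (G * ko) + 2 * (q * (e ^ 2 * (G * ko))) := by
      rw [hT]
      ring
    rw [e1, e2, e5]
    have e6 : q * (G * ko - G * ko * (1 - e ^ 2)) = q * (e ^ 2 * (G * ko)) := by ring
    rw [e6] at hsl
    linarith

end

end Pool.Agent.RieszWin
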