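import Pool.Agent.RieszWin.YM
import Pool.Agent.RieszWin.YEta
import Pool.Agent.RieszWin.YSide
import Pool.Agent.RieszWin.YPair

set_option autoImplicit false

open Real Finset

namespace Pool.Agent.RieszWin

open Pool.Agent.RieszSmall Pool.Agent.RieszLin Pool.Agent.RieszTr

section

variable {ι : Type*} [DecidableEq ι] {u q m κ Y A w g T : ℝ} {Z L P Q : Finset ι} {θ : ι → ℝ}

/-- MODULE RW48 (near the square, in terms of the angles). `ko = 2^(-p) A`, `B2 = (A + ko)/2`,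
`T = (A - ko)/2`. `side` for `(θ, g, e)` and for `(-θ, -g, e')` (with `Q` and `P` exchanged,
`YZ.nz`, `NZ.neg`, `Part.neg`, `XX_neg`, `GG_neg`), `Apx.pairs`, `Apx.ko_terms`, `YZ.M`, `eta_le`
(`|Z| = m - 2`; the term `q κ η ∑ sinh²` is `≥ 0`), `YZ.small`. `(m-2)^2 - (m-2) = (m-2)(m-3)`. -/
theorem YZ.total (h : YZ u q m κ Y A w g T Z L P Q θ) {η e e' : ℝ} (h0 : 0 ≤ η)
    (h1 : η ≤ 4 * (2 : ℝ) ^ (-(q + 1))) (he : 0 ≤ e) (he1 : e ≤ 1 / 20) (he' : 0 ≤ e')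
    (he1' : e' ≤ 1 / 20)
    (hcQ : (e ≤ Real.exp (-(u ^ 4 / 10)) ∧ Y * Real.exp g * ∑ z ∈ Q, (-Real.sinh (θ z))
        ≤ 9 / 10 * e * (Real.exp (2 * g) * T)) ∨ 4 / 5 * (e * (Y * Real.exp g)) ≤ XX κ Q θ)
    (hcP : (e' ≤ Real.exp (-(u ^ 4 / 10)) ∧ Y * Real.exp (-g) * ∑ z ∈ P, Real.sinh (θ z)
        ≤ 9 / 10 * e' * (Real.exp (2 * -g) * T)) ∨ 4 / 5 * (e' * (Y * Real.exp (-g))) ≤ XX κ P θ) :
    ∃ χ χ' : ℝ, Esq q m κ Y A + 1 / 2 * u ^ 4 * (κ * GG L θ)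
        + 2 * (w - 1) * Y * ∑ z ∈ L, (Real.cosh (g + θ z) - 1) + 2 * m * (XX κ P θ + XX κ Q θ)
        + e ^ 2 / 10 + e' ^ 2 / 10
      ≤ offd Z (fun z z' => Phi q (κ * Real.cosh (θ z - θ z')
          - κ * η * (Real.sinh (θ z) * Real.sinh (θ z'))))
      - q * (Z.card : ℝ) * κ
      + q * κ * η * ∑ z ∈ Z, Real.sinh (θ z) ^ 2
      + Side q (Y * Real.exp g) (Real.exp (2 * g)) ((A + (2 : ℝ) ^ (-(q + 1)) * A) / 2) T e χ Z θ
      + Side q (Y * Real.exp (-g)) (Real.exp (2 * -g)) ((A + (2 : ℝ) ^ (-(q + 1)) * A) / 2) T e' χ'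
          Z (fun z => -θ z)
      + 2 * (Phi q ((A + (2 : ℝ) ^ (-(q + 1)) * A) / 2 * ((1 + χ * e) * (1 + χ' * e'))
            + T * ((1 + e) * (1 + e')))
        + Phi q ((A + (2 : ℝ) ^ (-(q + 1)) * A) / 2 * ((1 + χ * e) * (1 - χ' * e'))
            + T * ((1 + e) * (1 - e')))
        + Phi q ((A + (2 : ℝ) ^ (-(q + 1)) * A) / 2 * ((1 - χ * e) * (1 + χ' * e'))
            + T * ((1 - e) * (1 + e')))
        + Phi q ((A + (2 : ℝ) ^ (-(q + 1)) * A) / 2 * ((1 - χ * e) * (1 - χ' * e'))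
            + T * ((1 - e) * (1 - e')))) := by
  have hw : Win u q m κ := h.nz.win
  obtain ⟨hu0, hm0, hq0, hk0, hk1⟩ := hw.pos
  have hT := h.hT
  obtain ⟨-, -, hTlo, h2T, -⟩ := h.apx.T_bds hT
  have hT0 : 0 ≤ T := (Real.exp_pos _).le.trans hTlo
  obtain ⟨hg, -, -, hw1⟩ := h.g_le
  have hg' : |-g| ≤ 9 / 20 := by rwa [abs_neg]
  have hA0 : 0 ≤ A := by linarith
  have hko0 : 0 ≤ (2 : ℝ) ^ (-(q + 1)) * A := by positivity
  -- the two sides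
  rw [hT] at hcQ hcP
  obtain ⟨χ, hχ, s1⟩ := side (S0 := 5 / 2 * Y) (Z := Z) (L := L) (P := P) (Q := Q) (θ := θ)
    h.apx h.nz hg he he1 hcQ
  have hcP' : (e' ≤ Real.exp (-(u ^ 4 / 10)) ∧
      Y * Real.exp (-g) * ∑ z ∈ P, (-Real.sinh ((fun z => -θ z) z))
        ≤ 9 / 10 * e' * (Real.exp (2 * -g) * ((A - (2 : ℝ) ^ (-(q + 1)) * A) / 2))) ∨
      4 / 5 * (e' * (Y * Real.exp (-g))) ≤ XX κ P (fun z => -θ z) := by
    rcases hcP with ⟨a1, a2⟩ | a3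
    · left
      refine ⟨a1, ?_⟩
      have : ∑ z ∈ P, (-Real.sinh ((fun z => -θ z) z)) = ∑ z ∈ P, Real.sinh (θ z) := by
        refine Finset.sum_congr rfl fun z _ => ?_
        simp only [Real.sinh_neg, neg_neg]
      rw [this]
      exact a2
    · right
      rw [XX_neg]
      exact a3
  obtain ⟨χ', hχ', s2⟩ := side (S0 := 5 / 2 * Y) (Z := Z) (L := L) (P := Q) (Q := P)
    (θ := fun z => -θ z) h.apx h.nz.neg hg' he' he1' hcP'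
  refine ⟨χ, χ', ?_⟩
  rw [← hT] at s1 s2
  rw [GG_neg, XX_neg] at s2
  have e2 : ∑ z ∈ Z, Phi q (Y * Real.exp (-g + (fun z => -θ z) z)) =
      ∑ z ∈ Z, Phi q (Y * Real.exp (-(g + θ z))) := by
    refine Finset.sum_congr rfl fun z _ => ?_
    congr 3
    simp only
    ring
  rw [e2] at s2
  have hB : (A + (2 : ℝ) ^ (-(q + 1)) * A) / 2 + T = A := by
    rw [hT]
    ring
  have hp := h.apx.pairs hB (by positivity) hT0 he he1 he' he1' hχ hχ'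
  have hk := h.apx.ko_terms hg
  have hM := h.M
  have hcard : (Z.card : ℝ) = m - 2 := h.card
  have hη := eta_le (Z := Z) (θ := θ) hw h0 h1 (by linarith)
  have hs := h.small
  have hGG := GG_nonneg L θ
  have hXP := XX_nonneg hw.hk P θ
  have hXQ := XX_nonneg hw.hk Q θ
  have hsum : ∑ z ∈ Z, (Phi q (Y * Real.exp (g + θ z)) + Phi q (Y * Real.exp (-(g + θ z)))) =
      ∑ z ∈ Z, Phi q (Y * Real.exp (g + θ z)) + ∑ z ∈ Z, Phi q (Y * Real.exp (-(g + θ z))) :=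
    Finset.sum_add_distrib
  rw [hsum] at hM
  have hpos : 0 ≤ q * κ * η * ∑ z ∈ Z, Real.sinh (θ z) ^ 2 := by
    have : 0 ≤ ∑ z ∈ Z, Real.sinh (θ z) ^ 2 := Finset.sum_nonneg fun _ _ => sq_nonneg _
    have hq1 : 0 ≤ q := le_of_lt hq0
    have hk2 : 0 ≤ κ := le_of_lt hk0
    positivity
  have hG1 : 0 ≤ u ^ 4 * (κ * GG L θ) := by
    have hk2 : 0 ≤ κ := le_of_lt hk0
    positivity
  have hX1 : 0 ≤ m * (XX κ P θ + XX κ Q θ) := by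
    have hm2 : 0 ≤ m := le_of_lt hm0
    exact mul_nonneg hm2 (by linarith)
  rw [hcard]
  have hE : Esq q m κ Y A = ((m - 2) ^ 2 - (m - 2)) * Phi q κ - q * (m - 2) * κ
      + 8 * (m - 2) * Phi q Y + 8 * Phi q A
      + (4 * Phi q ((2 : ℝ) ^ (-(q + 1)) * A) - 4 * q * ((2 : ℝ) ^ (-(q + 1)) * A)) := by
    unfold Esq
    ring
  rw [hE]
  have x1 : 1 / 10 * u ^ 4 * (κ * GG L θ) = 1 / 10 * (u ^ 4 * (κ * GG L θ)) := by ring
  have x2 : 9 / 10 * u ^ 4 * (κ * GG L θ) = 9 / 10 * (u ^ 4 * (κ * GG L θ)) := by ring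
  have x3 : 1 / 2 * u ^ 4 * (κ * GG L θ) = 1 / 2 * (u ^ 4 * (κ * GG L θ)) := by ring
  have x4 : 2 * m * (XX κ P θ + XX κ Q θ) = 2 * (m * (XX κ P θ + XX κ Q θ)) := by ring
  have x5 : 4 * m * (XX κ P θ + XX κ Q θ) = 4 * (m * (XX κ P θ + XX κ Q θ)) := by ring
  have x6 : 1 / 2 * m * XX κ Q θ + 1 / 2 * m * XX κ P θ =
      1 / 2 * (m * (XX κ P θ + XX κ Q θ)) := by ring
  have x7 : 4 * (w - 1) * Y * ∑ z ∈ L, (Real.cosh (g + θ z) - 1) =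
      2 * (2 * (w - 1) * Y * ∑ z ∈ L, (Real.cosh (g + θ z) - 1)) := by ring
  rw [x1] at s1 s2
  rw [x2, x5, x7] at hM
  rw [x3, x4]
  linarith

end

end Pool.Agent.RieszWin
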