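import Pool.Agent.RieszWin.XDefs
import Pool.Agent.RieszWin.SqDefs

set_option autoImplicit false

open Real Finset

namespace Pool.Agent.RieszWin

open Pool.Agent.RieszSmall Pool.Agent.RieszLin Pool.Agent.RieszTr

namespace YDefsAux

theorem exp_half_le : Real.exp (1 / 2 : ℝ) ≤ 165 / 100 := by
  by_contra hcon
  push Not at hcon
  have h2 : ((165 : ℝ) / 100) ^ 2 < (Real.exp (1 / 2 : ℝ)) ^ 2 :=
    pow_lt_pow_left₀ hcon (by norm_num) (by norm_num)
  have h3 : (Real.exp (1 / 2 : ℝ)) ^ 2 = Real.exp 1 := by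
    rw [← Real.exp_nat_mul]
    norm_num
  rw [h3] at h2
  have h4 := Real.exp_one_lt_d9
  have h5 : (2.7182818286 : ℝ) < ((165 : ℝ) / 100) ^ 2 := by norm_num
  linarith

theorem exp_le {g : ℝ} (hg : |g| ≤ 9 / 20) : Real.exp g ≤ 165 / 100 ∧ Real.exp (-g) ≤ 165 / 100 := by
  have h1 := abs_le.mp hg
  constructor
  · exact (Real.exp_le_exp.mpr (by linarith)).trans exp_half_le
  · exact (Real.exp_le_exp.mpr (by linarith)).trans exp_half_le

theorem sinh_le {g : ℝ} (hg : |g| ≤ 9 / 20) : |Real.sinh g| ≤ 523 / 1000 := by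
  obtain ⟨h1, h2⟩ := exp_le hg
  have h3 : Real.exp g * Real.exp (-g) = 1 := by
    rw [← Real.exp_add, add_neg_cancel, Real.exp_zero]
  have h4 := Real.exp_pos g
  have h5 := Real.exp_pos (-g)
  have h6 : 604 / 1000 ≤ Real.exp g := by nlinarith
  have h7 : 604 / 1000 ≤ Real.exp (-g) := by nlinarith
  rw [Real.sinh_eq, abs_le]
  constructor <;> linarith

theorem abs_le_abs_sinh (c : ℝ) : |c| ≤ |Real.sinh c| := by
  rw [Real.abs_sinh]
  exact Real.self_le_sinh_iff.2 (abs_nonneg c)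

end YDefsAux

open YDefsAux

section

variable {ι : Type*} [DecidableEq ι]

/-- the points outside the four distinguished ones, near the lifted square;
`T = (A - ko)/2`, `ko = 2^(-p) A`. -/
structure YZ (u q m κ Y A w g T : ℝ) (Z L P Q : Finset ι) (θ : ι → ℝ) : Prop where
  apx : Apx u q m κ Y A w
  hT : T = (A - (2 : ℝ) ^ (-(q + 1)) * A) / 2
  hg : |g| ≤ 1 / (2 * w)
  part : Part u Z L P Q θ
  card : (Z.card : ℝ) = m - 2
  sum : SS Z θ = 4 * (T / Y) * Real.sinh g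
  hP : XX κ P θ ≤ Y * Real.exp (-g) / (9 * w)
  hQ : XX κ Q θ ≤ Y * Real.exp g / (9 * w)

variable {u q m κ Y A w g T : ℝ} {Z L P Q : Finset ι} {θ : ι → ℝ}

/-- MODULE RW40 (facts near the square). `κ T ≤ Y²` and `κ T ≥ Y² (1 - exp(-50 u^4))`
(`2 Y² = κ (A + ko)`), `T ≥ exp (9/10 u^4 + 1)` (`2 Y²/κ ≥ 2 exp(-2u) m/(10^105 u^4)`), `2 T ≤ A`,
`A ≤ 3 T`. -/
theorem Apx.T_bds (h : Apx u q m κ Y A w) (hT : T = (A - (2 : ℝ) ^ (-(q + 1)) * A) / 2) :
    κ * T ≤ Y ^ 2 ∧ Y ^ 2 * (1 - Real.exp (-(50 * u ^ 4))) ≤ κ * T ∧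
      Real.exp (9 / 10 * u ^ 4 + 1) ≤ T ∧ 2 * T ≤ A ∧ A ≤ 3 * T := by
  have hwin := h.win
  have hk := hwin.hk
  have hA := h.sqr.hA
  have he1 := h.sqr.e1
  have htwo := hwin.two.1
  have hU := FactsAux.U_ge hwin
  have hUl := FactsAux.u_le hwin
  have hu0 := FactsAux.u_pos hwin
  have hel := hwin.el_bds.1
  have hA' := (abs_le.mp h.A_bds.2.2.2.1).1
  have hwu := h.basic.2.2.2.1
  have hU1000 : (1000 : ℝ) ≤ u ^ 4 := le_trans (by norm_num) hU
  obtain ⟨e, he⟩ : ∃ e, e = (2 : ℝ) ^ (-(q + 1)) := ⟨_, rfl⟩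
  have he0 : 0 < e := by
    rw [he]
    positivity
  rw [← he] at hT he1 htwo
  have hE : 2 * e ≤ Real.exp (-(50 * u ^ 4)) := by
    have h1 : Real.exp (-(50 * u ^ 4)) = Real.exp (-(100 * u ^ 4)) * Real.exp (50 * u ^ 4) := by
      rw [← Real.exp_add]
      congr 1
      ring
    have h2 : (2 : ℝ) ≤ Real.exp (50 * u ^ 4) := by
      have := Real.add_one_le_exp (50 * u ^ 4)
      linarith
    rw [h1]
    calc 2 * e ≤ 2 * Real.exp (-(100 * u ^ 4)) := by linarith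
      _ = Real.exp (-(100 * u ^ 4)) * 2 := by ring
      _ ≤ _ := mul_le_mul_of_nonneg_left h2 (Real.exp_pos _).le
  have hE1 : Real.exp (-(50 * u ^ 4)) ≤ 1 / 3 := by
    have h1 : (3 : ℝ) ≤ Real.exp (50 * u ^ 4) := by
      have := Real.add_one_le_exp (50 * u ^ 4)
      linarith
    rw [Real.exp_neg, one_div]
    exact inv_anti₀ (by norm_num) h1
  have he3 : e ≤ 1 / 6 := by linarith
  have hkA : 0 < κ * A := mul_pos hk hA
  have hY2 : Y ^ 2 = κ * A * (1 + e) / 2 := by linarith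
  have hkT : κ * T = κ * A * (1 - e) / 2 := by
    rw [hT]
    ring
  have hT3 : A ≤ 3 * T := by
    rw [hT]
    nlinarith
  refine ⟨?_, ?_, ?_, ?_, hT3⟩
  · rw [hkT, hY2]
    nlinarith
  · rw [hkT, hY2]
    have h1 : (1 + e) * (1 - Real.exp (-(50 * u ^ 4))) ≤ 1 - e := by
      have h2 := mul_pos he0 (Real.exp_pos (-(50 * u ^ 4)))
      nlinarith
    have h3 := mul_le_mul_of_nonneg_left h1 hkA.le
    linarith
  · have h1 : Real.exp (998 / 1000 * u ^ 4 - 2 * w - 1) ≤ A := by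
      rw [← Real.exp_log hA]
      exact Real.exp_le_exp.mpr (by linarith)
    have h2 : (3 : ℝ) ≤ Real.exp 2 := by
      have := Real.add_one_le_exp (2 : ℝ)
      linarith
    have h3 : 3 * Real.exp (9 / 10 * u ^ 4 + 1) ≤ 3 * T := by
      refine le_trans ?_ (h1.trans hT3)
      calc 3 * Real.exp (9 / 10 * u ^ 4 + 1) ≤ Real.exp 2 * Real.exp (9 / 10 * u ^ 4 + 1) :=
            mul_le_mul_of_nonneg_right h2 (Real.exp_pos _).le
        _ = Real.exp (9 / 10 * u ^ 4 + 3) := by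
            rw [← Real.exp_add]
            congr 1
            ring
        _ ≤ _ := by
            apply Real.exp_le_exp.mpr
            have h4 : (1000 : ℝ) * u ≤ 10 ^ 60 * u := mul_le_mul_of_nonneg_right (by norm_num) hu0.le
            have h5 : u / 10 ^ 9 ≤ u := by
              rw [div_le_iff₀ (by positivity)]
              nlinarith
            linarith
    linarith
  · rw [hT]
    nlinarith

/-- `|SS L| ≤ |SS Z| + |SS P| + |SS Q|`, `κ |SS Z| ≤ 4 Y |sinh g| ≤ 1.9 Y`,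
`XX P + XX Q ≤ 0.35 Y`; `(5/2) Y u³ ≤ m κ` by `Apx.mkap` and `w ≤ u/10^9`. -/
theorem YZ.nz (h : YZ u q m κ Y A w g T Z L P Q θ) : NZ u q m κ (5 / 2 * Y) Z L P Q θ := by
  have hwin := h.apx.win
  have hk := hwin.hk
  obtain ⟨hY0, hY3, _, hwu, _, _⟩ := h.apx.basic
  have hu0 := FactsAux.u_pos hwin
  have hw1 := h.apx.wlo
  have hm0 := FactsAux.m_pos hwin
  have hg : |g| ≤ 9 / 20 := by
    refine h.hg.trans ?_
    rw [div_le_div_iff₀ (by linarith) (by norm_num)]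
    linarith
  obtain ⟨hg1, hg2⟩ := YDefsAux.exp_le hg
  have hsg := YDefsAux.sinh_le hg
  have hPQ : ∀ x : ℝ, x ≤ 165 / 100 → Y * x / (9 * w) ≤ 164 / 1000 * Y := by
    intro x hx
    rw [div_le_iff₀ (by linarith)]
    have h1 : Y * x ≤ Y * (165 / 100) := mul_le_mul_of_nonneg_left hx hY0.le
    have h2 : Y * (28 / 25) ≤ Y * w := mul_le_mul_of_nonneg_left hw1 hY0.le
    linarith
  have hXP : XX κ P θ ≤ 164 / 1000 * Y := h.hP.trans (hPQ _ hg2)
  have hXQ : XX κ Q θ ≤ 164 / 1000 * Y := h.hQ.trans (hPQ _ hg1)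
  have hT := (Apx.T_bds h.apx h.hT).1
  have hT0 : 0 < T := lt_of_lt_of_le (Real.exp_pos _) (Apx.T_bds h.apx h.hT).2.2.1
  refine ⟨hwin, h.part, ?_, ?_, ?_, ?_, ?_⟩
  · rw [h.card]
    norm_num
  · intro z hz
    rcases Finset.mem_union.mp hz with h1 | h1
    · exact (xi_le_XX hk h1).trans (hXP.trans (by linarith))
    · exact (xi_le_XX hk h1).trans (hXQ.trans (by linarith))
  · have hmk0 : 0 < m * κ := mul_pos hm0 hk
    have hmk := h.apx.mkap.1
    have e2 : w * (m * κ) ≤ u / 10 ^ 9 * (m * κ) := mul_le_mul_of_nonneg_right hwu hmk0.le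
    have e3 : 39 / 10 * (u ^ 4 * Y) ≤ u / 10 ^ 9 * (m * κ) := le_trans hmk e2
    have e4 : 39 / 10 * (10 : ℝ) ^ 9 * (u ^ 3 * Y) ≤ m * κ := by
      have e5 : u * (39 / 10 * (10 : ℝ) ^ 9 * (u ^ 3 * Y)) ≤ u * (m * κ) := by
        have e6 : u * (39 / 10 * (10 : ℝ) ^ 9 * (u ^ 3 * Y)) =
            10 ^ 9 * (39 / 10 * (u ^ 4 * Y)) := by ring
        have e7 : u * (m * κ) = 10 ^ 9 * (u / 10 ^ 9 * (m * κ)) := by ring
        rw [e6, e7]
        exact mul_le_mul_of_nonneg_left e3 (by norm_num)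
      exact le_of_mul_le_mul_left e5 hu0
    have e9 : 0 < u ^ 3 * Y := mul_pos (pow_pos hu0 3) hY0
    have e10 : 5 / 2 * Y * u ^ 3 = 5 / 2 * (u ^ 3 * Y) := by ring
    rw [e10]
    refine le_trans (mul_le_mul_of_nonneg_right ?_ e9.le) e4
    norm_num
  · have h1 : SS Z θ = SS L θ + SS P θ + SS Q θ := sum_part h.part (fun z => Real.sinh (θ z))
    have h2 : |SS L θ| ≤ |SS Z θ| + |SS P θ| + |SS Q θ| := by
      have h3 : SS L θ = SS Z θ + -SS P θ + -SS Q θ := by linarith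
      rw [h3]
      have h4 := abs_add_le (SS Z θ + -SS P θ) (-SS Q θ)
      have h5 := abs_add_le (SS Z θ) (-SS P θ)
      rw [abs_neg] at h4 h5
      linarith
    have h3 : κ * |SS Z θ| ≤ 4 * Y * (523 / 1000) := by
      rw [h.sum, abs_mul, abs_of_pos (by positivity : 0 < 4 * (T / Y))]
      have h4 : κ * (4 * (T / Y)) ≤ 4 * Y := by
        have h5 : κ * (4 * (T / Y)) = 4 * (κ * T) / Y := by ring
        rw [h5, div_le_iff₀ hY0]
        linarith
      calc κ * (4 * (T / Y) * |Real.sinh g|) = (κ * (4 * (T / Y))) * |Real.sinh g| := by ring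
        _ ≤ 4 * Y * (523 / 1000) := mul_le_mul h4 hsg (abs_nonneg _) (by linarith)
    have h4 := SS_heavy hk P θ
    have h5 := SS_heavy hk Q θ
    have h6 := mul_le_mul_of_nonneg_left h2 hk.le
    linarith
  · linarith

/-- `1/|L| · |SS L| ≤ (5/2) Y/(κ |L|) ≤ w/u^4` -/
theorem YZ.center (h : YZ u q m κ Y A w g T Z L P Q θ) :
    ∃ c : ℝ, (L.card : ℝ) * Real.sinh c = SS L θ ∧ |c| ≤ w / u ^ 4 := by
  have hnz := h.nz
  have hwin := h.apx.win
  have hk := hwin.hk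
  have hm0 := FactsAux.m_pos hwin
  have hu0 := FactsAux.u_pos hwin
  have hU := FactsAux.U_ge hwin
  obtain ⟨hY0, _⟩ := h.apx.basic
  have hcard := hnz.card_L.1
  have htiny : Real.exp (-(u ^ 4 / 300)) ≤ 1 / 100 := by
    have h1 : (100 : ℝ) ≤ Real.exp (u ^ 4 / 300) := by
      have h2 := Real.add_one_le_exp (u ^ 4 / 300)
      have h3 : (100 : ℝ) * 300 ≤ u ^ 4 := le_trans (by norm_num) hU
      linarith
    rw [Real.exp_neg, one_div]
    exact inv_anti₀ (by norm_num) h1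
  have hL : 99 / 100 * m ≤ (L.card : ℝ) := by
    have h1 : m * (99 / 100) ≤ m * (1 - Real.exp (-(u ^ 4 / 300))) :=
      mul_le_mul_of_nonneg_left (by linarith) hm0.le
    linarith
  have hL0 : (0 : ℝ) < (L.card : ℝ) := by linarith
  refine ⟨Real.arsinh (SS L θ / L.card), ?_, ?_⟩
  · rw [Real.sinh_arsinh, mul_div_cancel₀ _ hL0.ne']
  · refine (abs_le_abs_sinh _).trans ?_
    rw [Real.sinh_arsinh, abs_div, abs_of_pos hL0, div_le_div_iff₀ hL0 (pow_pos hu0 4)]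
    have h1 := hnz.hS
    have h2 := h.apx.mkap.1
    have hw1 := h.apx.wlo
    have h3 : κ * (|SS L θ| * u ^ 4) ≤ κ * (w * (99 / 100 * m)) := by
      have h4 : κ * |SS L θ| * u ^ 4 ≤ 5 / 2 * Y * u ^ 4 :=
        mul_le_mul_of_nonneg_right h1 (pow_pos hu0 4).le
      have h5 : 0 < w * (m * κ) := mul_pos (by linarith) (mul_pos hm0 hk)
      have h6 : κ * (|SS L θ| * u ^ 4) = κ * |SS L θ| * u ^ 4 := by ring
      have h7 : κ * (w * (99 / 100 * m)) = 99 / 100 * (w * (m * κ)) := by ring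
      have h8 : 0 < u ^ 4 * Y := mul_pos (pow_pos hu0 4) hY0
      rw [h6, h7]
      linarith
    have h9 : |SS L θ| * u ^ 4 ≤ w * (99 / 100 * m) := le_of_mul_le_mul_left h3 hk
    exact h9.trans (mul_le_mul_of_nonneg_left hL (by linarith))

/-- `w/u^4 ≤ 1/100`, `|g| ≤ 9/20` -/
theorem YZ.g_le (h : YZ u q m κ Y A w g T Z L P Q θ) :
    |g| ≤ 9 / 20 ∧ w / u ^ 4 ≤ 1 / 100 ∧ w ≤ u ∧ 28 / 25 ≤ w := by
  have hwin := h.apx.win
  have hw1 := h.apx.wlo
  have hwu := h.apx.basic.2.2.2.1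
  have hu0 := FactsAux.u_pos hwin
  have hUl := FactsAux.u_le hwin
  have hwu1 : w ≤ u := by
    refine hwu.trans ?_
    rw [div_le_iff₀ (by positivity)]
    nlinarith
  refine ⟨?_, ?_, hwu1, hw1⟩
  · refine h.hg.trans ?_
    rw [div_le_div_iff₀ (by linarith) (by norm_num)]
    linarith
  · rw [div_le_div_iff₀ (pow_pos hu0 4) (by norm_num)]
    have h4 : (100 : ℝ) * u ≤ 10 ^ 60 * u := mul_le_mul_of_nonneg_right (by norm_num) hu0.le
    linarith

end

end Pool.Agent.RieszWin
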