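import Pool.Agent.RieszWin.YDefs

set_option autoImplicit false

open Real Finset

namespace Pool.Agent.RieszWin

open Pool.Agent.RieszSmall Pool.Agent.RieszLin Pool.Agent.RieszTr

namespace YEvenAux

/-- `sinh x ≤ x (1 + x²)` for `0 ≤ x ≤ 1` -/
theorem sinh_le {x : ℝ} (hx : 0 ≤ x) (h1 : x ≤ 1) : Real.sinh x ≤ x * (1 + x ^ 2) := by
  have h2 := FhFAux.xcosh hx
  have h3 := Real.cosh_le_exp_half_sq x
  have hx2 : x ^ 2 ≤ 1 := pow_le_one₀ hx h1
  have h4 : |x ^ 2 / 2| ≤ 1 := by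
    rw [abs_of_nonneg (by positivity)]
    linarith
  have h5 := (abs_le.1 (Real.abs_exp_sub_one_sub_id_le h4)).2
  have h6 : (x ^ 2 / 2) ^ 2 ≤ x ^ 2 / 4 := by
    have : x ^ 2 * x ^ 2 ≤ 1 * x ^ 2 := mul_le_mul_of_nonneg_right hx2 (sq_nonneg x)
    nlinarith
  have h7 : Real.cosh x ≤ 1 + x ^ 2 := by
    have := sq_nonneg x
    linarith
  exact h2.trans (mul_le_mul_of_nonneg_left h7 hx)

/-- `sinh ((q+1) x) sinh x ≤ (1 + x²) x sinh ((q+1) x)` -/
theorem sinh_mul_le {x p : ℝ} (hp : 0 < p) (h1 : |x| ≤ 1) :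
    Real.sinh (p * x) * Real.sinh x ≤ (1 + x ^ 2) * (x * Real.sinh (p * x)) := by
  rcases le_total 0 x with h | h
  · rw [abs_of_nonneg h] at h1
    have h2 := sinh_le h h1
    have h3 : 0 ≤ Real.sinh (p * x) := Real.sinh_nonneg_iff.2 (mul_nonneg hp.le h)
    have := mul_le_mul_of_nonneg_left h2 h3
    nlinarith
  · rw [abs_of_nonpos h] at h1
    have h2 := sinh_le (neg_nonneg.2 h) h1
    rw [Real.sinh_neg] at h2
    have h3 : 0 ≤ Real.sinh (p * -x) := Real.sinh_nonneg_iff.2 (mul_nonneg hp.le (neg_nonneg.2 h))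
    rw [mul_neg, Real.sinh_neg] at h3
    have := mul_le_mul_of_nonneg_left h2 h3
    nlinarith

/-- `0 ≤ v sinh v` -/
theorem vsinh_nn (v : ℝ) : 0 ≤ v * Real.sinh v := by
  rcases le_total 0 v with h | h
  · exact mul_nonneg h (Real.sinh_nonneg_iff.2 h)
  · exact mul_nonneg_of_nonpos_of_nonpos h (Real.sinh_nonpos_iff.2 h)

/-- `v sinh v ≤ 5 |v| (cosh v - 1)` for `|v| ≥ 1/2` -/
theorem vsinh_far {v : ℝ} (h : 1 / 2 ≤ |v|) :
    v * Real.sinh v ≤ 5 * |v| * (Real.cosh v - 1) := by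
  have key : ∀ x : ℝ, 1 / 2 ≤ x → Real.sinh x ≤ 5 * (Real.cosh x - 1) := by
    intro x hx
    have h1 : (3 : ℝ) / 2 ≤ Real.exp x := by
      have := Real.add_one_le_exp x
      linarith
    have h2 : Real.exp x * Real.exp (-x) = 1 := by
      rw [← Real.exp_add, add_neg_cancel, Real.exp_zero]
    have h3 : 0 < Real.exp (-x) := Real.exp_pos _
    rw [Real.sinh_eq, Real.cosh_eq]
    have h4 : 0 ≤ (2 * Real.exp x - 3) * (Real.exp x - 1) * Real.exp (-x) :=
      mul_nonneg (mul_nonneg (by linarith) (by linarith)) h3.le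
    have h5 : (2 * Real.exp x - 3) * (Real.exp x - 1) * Real.exp (-x) =
        2 * Real.exp x + 3 * Real.exp (-x) - 5 := by
      linear_combination (2 * Real.exp x - 5) * h2
    linarith
  have e1 : v * Real.sinh v = |v| * Real.sinh |v| := by
    rcases le_total 0 v with h | h
    · rw [abs_of_nonneg h]
    · rw [abs_of_nonpos h, Real.sinh_neg]
      ring
  have e2 : Real.cosh v = Real.cosh |v| := (Real.cosh_abs v).symm
  rw [e1, e2]
  have := mul_le_mul_of_nonneg_left (key |v| h) (abs_nonneg v)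
  linarith

theorem cosh_ge (t : ℝ) : t ^ 2 / 2 ≤ Real.cosh t - 1 := by
  have := FhFAux.sq_le_cosh (abs_nonneg t)
  rw [Real.cosh_abs, sq_abs] at this
  exact this

theorem final_ineq {u q w v x E : ℝ} (hp : 0 < q + 1) (hvx : v = (q + 1) * x) (hx1' : |x| ≤ 1)
    (hE0 : 0 < E) (hEx : E * (1 + x ^ 2) ≤ 1 + 1 / u) (hEw : 1 + w ≤ (q + 1) * E - q) :
    (1 + w) * (Real.cosh v - 1) - (1 + 1 / u) * (v * Real.sinh v) ≤
      (q + 1) * E * (Real.cosh (v - x) - 1) - q * (Real.cosh v - 1) := by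
  have hc1 : 0 ≤ Real.cosh v - 1 := by
    have := Real.one_le_cosh v
    linarith
  have hcx : Real.cosh v - Real.sinh v * Real.sinh x ≤ Real.cosh (v - x) := by
    rw [Real.cosh_sub]
    have h1 := Real.one_le_cosh x
    have h2 := mul_le_mul_of_nonneg_left h1 (Real.cosh_pos v).le
    linarith
  have hsx : (q + 1) * (Real.sinh v * Real.sinh x) ≤ (1 + x ^ 2) * (v * Real.sinh v) := by
    have h1 := sinh_mul_le hp hx1'
    rw [← hvx] at h1
    have h2 := mul_le_mul_of_nonneg_left h1 hp.le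
    have h3 : (q + 1) * ((1 + x ^ 2) * (x * Real.sinh v)) =
        (1 + x ^ 2) * ((q + 1) * x * Real.sinh v) := by ring
    rw [h3, ← hvx] at h2
    exact h2
  have hvs := vsinh_nn v
  calc (1 + w) * (Real.cosh v - 1) - (1 + 1 / u) * (v * Real.sinh v)
      ≤ ((q + 1) * E - q) * (Real.cosh v - 1) - E * (1 + x ^ 2) * (v * Real.sinh v) :=
        sub_le_sub (mul_le_mul_of_nonneg_right hEw hc1) (mul_le_mul_of_nonneg_right hEx hvs)
    _ ≤ ((q + 1) * E - q) * (Real.cosh v - 1) - E * ((q + 1) * (Real.sinh v * Real.sinh x)) := by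
        have := mul_le_mul_of_nonneg_left hsx hE0.le
        linarith
    _ = (q + 1) * E * (Real.cosh v - Real.sinh v * Real.sinh x - 1) -
          q * (Real.cosh v - 1) := by ring
    _ ≤ (q + 1) * E * (Real.cosh (v - x) - 1) - q * (Real.cosh v - 1) := by
        have h1 : 0 ≤ (q + 1) * E := mul_nonneg hp.le hE0.le
        have := mul_le_mul_of_nonneg_left hcx h1
        linarith

/-- `E (1 + x²) ≤ 1 + 1/u` -/
theorem Ex_le {u E x : ℝ} (hu : 1000 ≤ u) (hE0 : 0 < E) (hE2 : E ≤ 1 + 1 / (50 * u))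
    (hx2 : x ^ 2 ≤ 1 / (25 * u)) : E * (1 + x ^ 2) ≤ 1 + 1 / u := by
  have hu0 : 0 < u := by linarith
  have h1 : E * (1 + x ^ 2) ≤ (1 + 1 / (50 * u)) * (1 + 1 / (25 * u)) := by
    refine mul_le_mul hE2 (by linarith) (by positivity) (by positivity)
  refine h1.trans ?_
  have e3 : (1 + 1 / (50 * u)) * (1 + 1 / (25 * u)) =
      1 + (1 / 50 + 1 / 25) * (1 / u) + 1 / 1250 * (1 / u * (1 / u)) := by
    field_simp
    ring
  rw [e3]
  have h2 : 0 < 1 / u := by positivity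
  have h3 : 1 / u ≤ 1 := by
    rw [div_le_one hu0]
    linarith
  have h4 := mul_le_mul_of_nonneg_right h3 h2.le
  linarith

/-- `exp y ≤ 1 + 1/(50 u)` for `0 ≤ y ≤ 1/(100 u)` -/
theorem exp_y_le {u y : ℝ} (hu : 1000 ≤ u) (hy0 : 0 ≤ y) (hy1 : y ≤ 1 / (100 * u)) :
    Real.exp y ≤ 1 + 1 / (50 * u) := by
  have hu0 : 0 < u := by linarith
  have hu100 : 1 / (100 * u) ≤ 1 := by
    rw [div_le_one (by positivity)]
    linarith
  have h1 : |y| ≤ 1 := by
    rw [abs_of_nonneg hy0]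
    exact hy1.trans hu100
  have h2 := (abs_le.1 (Real.abs_exp_sub_one_sub_id_le h1)).2
  have h3 : y ^ 2 ≤ 1 / (100 * u) := by
    rw [sq]
    calc y * y ≤ 1 / (100 * u) * 1 :=
          mul_le_mul hy1 (hy1.trans hu100) hy0 (by positivity)
      _ = _ := mul_one _
  have h4 : 1 / (50 * u) = 1 / (100 * u) + 1 / (100 * u) := by
    field_simp
    norm_num
  linarith

/-- `x² ≤ 1/(25 u)` -/
theorem x_sq_le {u x : ℝ} (hu : 1000 ≤ u) (hx1 : |x| ≤ 1 / (25 * u)) :
    |x| ≤ 1 ∧ x ^ 2 ≤ 1 / (25 * u) := by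
  have hu0 : 0 < u := by linarith
  have hu25 : 1 / (25 * u) ≤ 1 := by
    rw [div_le_one (by positivity)]
    linarith
  have hx1' : |x| ≤ 1 := hx1.trans hu25
  refine ⟨hx1', ?_⟩
  have h1 : x ^ 2 = |x| * |x| := by rw [← sq, sq_abs]
  rw [h1]
  calc |x| * |x| ≤ 1 / (25 * u) * 1 := mul_le_mul hx1 hx1' (abs_nonneg x) (by positivity)
    _ = _ := mul_one _

/-- sizes -/
theorem sizes {u q m κ w v : ℝ} (h : Win u q m κ) (hw : w ≤ u) (hv : |v| ≤ 3 * u ^ 4) :
    |v / (q + 1)| ≤ 1 / (25 * u) ∧ w / (q + 1) ≤ 1 / (100 * u) := by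
  obtain ⟨hu0, hm0, hq0, hk0, -⟩ := h.pos
  have hU := FactsAux.u_le h
  have hU0 : 0 < u ^ 4 := FactsAux.U_pos h
  have hp : 0 < q + 1 := by linarith
  have h60 : (200 : ℝ) ≤ 10 ^ 60 := by norm_num
  have huU : 200 * u ≤ u ^ 4 := (mul_le_mul_of_nonneg_right h60 hu0.le).trans hU
  have hmu : 200 * u ≤ m := by
    have h1 := Real.add_one_le_exp (u ^ 4)
    rw [← h.hm] at h1
    linarith
  have h2 := mul_le_mul_of_nonneg_right hmu hU0.le
  have hq1 : m * u ^ 4 / 2 ≤ q + 1 := by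
    have h1 := h.plo
    have h2 : 0 < m * u ^ 4 := mul_pos hm0 hU0
    linarith
  constructor
  · rw [abs_div, abs_of_pos hp, div_le_div_iff₀ hp (by positivity)]
    have h1 : |v| * (25 * u) ≤ 3 * u ^ 4 * (25 * u) :=
      mul_le_mul_of_nonneg_right hv (by positivity)
    have h3 : 3 * u ^ 4 * (25 * u) ≤ 200 * u * u ^ 4 / 2 := by
      have : 0 ≤ u * u ^ 4 := mul_nonneg hu0.le hU0.le
      linarith
    linarith
  · rw [div_le_div_iff₀ hp (by positivity)]
    have h1 : w * (100 * u) ≤ u ^ 4 * (100 * u) :=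
      mul_le_mul_of_nonneg_right (by linarith) (by positivity)
    linarith

end YEvenAux

open YEvenAux

section

variable {u q m κ Y A w : ℝ}

/-- MODULE RW41 (even part of `Φ` at `Y`). `p = q+1`. All of `Y`, `Y e^v`, `Y e^(-v)` are
`≥ 2^(-p)` (`Win.two_le`), so the left side is
`2 p Y^(q/p) (cosh (v q/p) - 1) - 2 q Y (cosh v - 1)` with `Y^(q/p) = Y exp(w/p)`. And
`cosh (v q/p) = cosh (v - v/p) ≥ cosh v - sinh v sinh (v/p)`,
`sinh v sinh (v/p) ≤ (1 + 1/p) (v/p) sinh v` (`|v/p| ≤ 1/p^(1/2)` is tiny: `sinh x ≤ x (1 + x²)` for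
`0 ≤ x ≤ 1`), so the left side is at least
`2 Y [(p exp(w/p) - q)(cosh v - 1) - exp(w/p)(1 + x²) v sinh v]`, `p exp(w/p) ≥ p + w`. -/
theorem Apx.even (h : Apx u q m κ Y A w) {v : ℝ} (hv : |v| ≤ 3 * u ^ 4) :
    2 * Y * ((1 + w) * (Real.cosh v - 1) - (1 + 1 / u) * (v * Real.sinh v))
      ≤ Phi q (Y * Real.exp v) + Phi q (Y * Real.exp (-v)) - 2 * Phi q Y := by
  obtain ⟨hu0, hm0, hq0, hk0, -⟩ := h.win.pos
  obtain ⟨hY, -, hYe, hww, -, -⟩ := h.basic
  have hu : (1000 : ℝ) ≤ u := le_trans (by norm_num) h.win.hu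
  have hw1 := h.wlo
  have hwu : w ≤ u := hww.trans (div_le_self (by linarith) (by norm_num))
  have hU := FactsAux.u_le h.win
  have hU0 : 0 < u ^ 4 := FactsAux.U_pos h.win
  have huU : u ≤ u ^ 4 := by
    have : (1 : ℝ) ≤ 10 ^ 60 := by norm_num
    nlinarith
  have hp : 0 < q + 1 := by linarith
  have hlogY : Real.log Y = -w := by
    rw [h.hw, neg_neg]
  -- formula for `Φ`
  have key : ∀ s : ℝ, |s| ≤ 3 * u ^ 4 → Phi q (Y * Real.exp s) =
      (q + 1) * (Y * Real.exp (w / (q + 1)) * Real.exp (s - s / (q + 1))) -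
        q * (Y * Real.exp s) := by
    intro s hs
    have hK : 0 < Y * Real.exp s := mul_pos hY (Real.exp_pos s)
    have hl : Real.log (Y * Real.exp s) = s - w := by
      rw [Real.log_mul hY.ne' (Real.exp_pos s).ne', Real.log_exp, hlogY]
      ring
    have hb : |Real.log (Y * Real.exp s)| ≤ 10 * u ^ 4 := by
      rw [hl]
      have h1 := abs_sub s w
      rw [abs_of_pos (by linarith : 0 < w)] at h1
      linarith
    rw [Phi, if_pos (h.win.two_le hK hb), Real.rpow_def_of_pos hK, hl]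
    congr 2
    rw [hYe, ← Real.exp_add, ← Real.exp_add]
    congr 1
    field_simp
    ring
  have k1 := key v hv
  have k2 := key (-v) (by rwa [abs_neg])
  have k3 := key 0 (by rw [abs_zero]; positivity)
  rw [Real.exp_zero, mul_one, zero_div, sub_zero, Real.exp_zero, mul_one] at k3
  set x : ℝ := v / (q + 1) with hx
  set E : ℝ := Real.exp (w / (q + 1)) with hE
  have hvx : v = (q + 1) * x := by
    rw [hx]
    field_simp
  have e1 : Real.exp (-v - -v / (q + 1)) = Real.exp (-(v - x)) := by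
    congr 1
    rw [hx]
    ring
  rw [e1] at k2
  have e2 : Phi q (Y * Real.exp v) + Phi q (Y * Real.exp (-v)) - 2 * Phi q Y =
      2 * Y * ((q + 1) * E * (Real.cosh (v - x) - 1) - q * (Real.cosh v - 1)) := by
    rw [k1, k2, k3, Real.cosh_eq, Real.cosh_eq]
    ring
  rw [e2]
  refine mul_le_mul_of_nonneg_left ?_ (by linarith)
  have hsz := sizes h.win hwu hv
  have hxs := x_sq_le hu hsz.1
  have hy0 : 0 ≤ w / (q + 1) := div_nonneg (by linarith) hp.le
  have hE2 := exp_y_le hu hy0 hsz.2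
  have hE0 : 0 < E := Real.exp_pos _
  refine final_ineq hp hvx hxs.1 hE0 (Ex_le hu hE0 hE2 hxs.2) ?_
  have hE1 := Real.add_one_le_exp (w / (q + 1))
  have h1 := mul_le_mul_of_nonneg_left hE1 hp.le
  have h2 : (q + 1) * (w / (q + 1) + 1) = q + 1 + w := by
    field_simp
    ring
  rw [h2] at h1
  linarith

/-- A light point, `v = g + θ`. If `|v| ≤ 1/2`: `vsinh_le` gives
`v sinh v ≤ (2 + 1/24)(cosh v - 1)`, and `1 + w - (1 + 1/u)(2 + 1/24) ≥ (w - 1)/2` because `w ≥ 1.12`.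
If `|v| > 1/2`: `|θ - c| ≥ 1/2 - 9/20 - 1/100 = 1/25`, `cosh (θ-c) - 1 ≥ 1/1250`, `cosh_add_le`
with `x = θ - c`, `y = g + c` (`|y| ≤ 46/100`, `cosh y ≤ 1.11`) gives
`cosh v - 1 ≤ 300 (cosh (θ-c) - 1)`; and
`v sinh v ≤ 5 |v| (cosh v - 1)` (`sinh v = coth (v/2) (cosh v - 1)`, `coth (1/4) ≤ 5`), so the
left side is at most `(4 w - u^5/300) Y (cosh v - 1)` and the right side at least
`-8 · 2 · 5 · (u^4/45 + 1) Y (cosh v - 1)`. -/
theorem light_pt (hu : (10 : ℝ) ^ 200 ≤ u) (hw : 28 / 25 ≤ w) (hw' : w ≤ u) (hY : 0 < Y)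
    {g c t : ℝ} (hg : |g| ≤ 9 / 20) (hc : |c| ≤ 1 / 100) (ht : |t| ≤ u ^ 4 / 45) :
    4 * (w - 1) * Y * (Real.cosh (g + t) - 1) - u ^ 5 * Y * (Real.cosh (t - c) - 1)
      ≤ 8 * Y * ((1 + w) * (Real.cosh (g + t) - 1)
        - (1 + 1 / u) * ((g + t) * Real.sinh (g + t))) := by
  have hu6 : (10 : ℝ) ^ 6 ≤ u := le_trans (pow_le_pow_right₀ (by norm_num) (by norm_num)) hu
  have hu0 : 0 < u := lt_of_lt_of_le (by norm_num) hu6
  have hiu : 1 / u ≤ 1 / 1000 := by
    apply one_div_le_one_div_of_le (by norm_num)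
    linarith
  have hiu0 : 0 < 1 / u := by positivity
  set v : ℝ := g + t with hv
  have hC : 0 ≤ Real.cosh v - 1 := by
    have := Real.one_le_cosh v
    linarith
  have hD : 0 ≤ Real.cosh (t - c) - 1 := by
    have := Real.one_le_cosh (t - c)
    linarith
  have hvs := vsinh_nn v
  have e0 : 4 * (w - 1) * Y * (Real.cosh v - 1) - u ^ 5 * Y * (Real.cosh (t - c) - 1) =
      Y * (4 * (w - 1) * (Real.cosh v - 1) - u ^ 5 * (Real.cosh (t - c) - 1)) := by ring
  have e1 : 8 * Y * ((1 + w) * (Real.cosh v - 1) - (1 + 1 / u) * (v * Real.sinh v)) =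
      Y * (8 * ((1 + w) * (Real.cosh v - 1) - (1 + 1 / u) * (v * Real.sinh v))) := by ring
  rw [e0, e1]
  refine mul_le_mul_of_nonneg_left ?_ hY.le
  rcases le_or_gt |v| (1 / 2) with h | h
  · -- near
    have h1 := vsinh_le v
    have h2 : v ^ 2 ≤ 1 / 4 := by
      rw [← sq_abs]
      have := mul_self_le_mul_self (abs_nonneg v) h
      nlinarith
    have h3 : v * Real.sinh v ≤ 49 / 24 * (Real.cosh v - 1) :=
      h1.trans (mul_le_mul_of_nonneg_right (by linarith) hC)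
    have h4 : (1 + 1 / u) * (v * Real.sinh v) ≤ 1001 / 1000 * (49 / 24 * (Real.cosh v - 1)) :=
      mul_le_mul (by linarith) h3 hvs (by norm_num)
    have h5 : 0 ≤ u ^ 5 * (Real.cosh (t - c) - 1) := mul_nonneg (by positivity) hD
    have h6 : 0 ≤ (w - 28 / 25) * (Real.cosh v - 1) := mul_nonneg (by linarith) hC
    nlinarith
  · -- far
    have hy : |g + c| ≤ 46 / 100 := by
      have := abs_add_le g c
      linarith
    have htc : 1 / 25 ≤ |t - c| := by
      have h1 : v = (t - c) + (g + c) := by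
        rw [hv]
        ring
      have h2 : |v| ≤ |t - c| + |g + c| := by
        rw [h1]
        exact abs_add_le _ _
      linarith
    have hD1 : 1 / 1250 ≤ Real.cosh (t - c) - 1 := by
      have h1 := cosh_ge (t - c)
      have h2 : (1 / 25 : ℝ) ^ 2 ≤ (t - c) ^ 2 := by
        rw [← sq_abs (t - c)]
        exact pow_le_pow_left₀ (by norm_num) htc 2
      linarith
    have hcy : Real.cosh (g + c) ≤ 1118 / 1000 := by
      have h1 := Real.cosh_le_exp_half_sq (g + c)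
      have h2 : (g + c) ^ 2 / 2 ≤ 1058 / 10000 := by
        rw [← sq_abs]
        have := pow_le_pow_left₀ (abs_nonneg (g + c)) hy 2
        linarith
      have h3 := Real.exp_le_exp.2 h2
      have h4 : |(1058 / 10000 : ℝ)| ≤ 1 := by
        rw [abs_of_pos (by norm_num)]
        norm_num
      have h5 := (abs_le.1 (Real.abs_exp_sub_one_sub_id_le h4)).2
      linarith
    have hcy1 : 1 ≤ Real.cosh (g + c) := Real.one_le_cosh _
    have hCD : Real.cosh v - 1 ≤ 300 * (Real.cosh (t - c) - 1) := by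
      have h1 := cosh_add_le (t - c) (g + c)
      have h2 : t - c + (g + c) = v := by
        rw [hv]
        ring
      rw [h2] at h1
      have h3 : 2 * Real.cosh (g + c) * (Real.cosh (t - c) - 1) ≤
          2236 / 1000 * (Real.cosh (t - c) - 1) :=
        mul_le_mul_of_nonneg_right (by linarith) hD
      linarith
    have hvb : |v| ≤ u ^ 4 / 45 + 1 := by
      have := abs_add_le g t
      linarith
    have h6 := vsinh_far h.le
    have h7 : v * Real.sinh v ≤ 5 * (u ^ 4 / 45 + 1) * (Real.cosh v - 1) :=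
      h6.trans (mul_le_mul_of_nonneg_right (by linarith) hC)
    have h8 : (1 + 1 / u) * (v * Real.sinh v) ≤
        2 * (5 * (u ^ 4 / 45 + 1) * (Real.cosh v - 1)) :=
      mul_le_mul (by linarith) h7 hvs (by norm_num)
    have h9 : u ^ 5 / 300 * (Real.cosh v - 1) ≤ u ^ 5 * (Real.cosh (t - c) - 1) := by
      have h10 : 0 ≤ u ^ 5 / 300 := by positivity
      have := mul_le_mul_of_nonneg_left hCD h10
      linarith
    have h10 : 4 * u + 80 * (u ^ 4 / 45 + 1) ≤ u ^ 5 / 300 := by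
      have hu4 : u ≤ u ^ 4 := by
        calc u = u ^ 1 := (pow_one u).symm
          _ ≤ u ^ 4 := pow_le_pow_right₀ (by linarith) (by norm_num)
      have h11 : (10 : ℝ) ^ 6 * u ^ 4 ≤ u ^ 5 := by
        have : u ^ 5 = u * u ^ 4 := by ring
        rw [this]
        exact mul_le_mul_of_nonneg_right hu6 (by positivity)
      linarith
    have h12 : (4 * (w - 1) + 80 * (u ^ 4 / 45 + 1)) * (Real.cosh v - 1) ≤
        u ^ 5 / 300 * (Real.cosh v - 1) :=
      mul_le_mul_of_nonneg_right (by linarith) hC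
    have h13 : 0 ≤ (1 + w) * (Real.cosh v - 1) := mul_nonneg (by linarith) hC
    linarith

/-- `1 + w + v - w e^v ≥ 1/2` for `|v| ≤ 1/(2w)`: with `x = |v| ≤ 1/(2w) ≤ 1/2`,
`e^v ≤ 1 + v + (3/5) v²` (for `v ≥ 0`: `e^v ≤ 1 + v + v²/2 + v³/4`...), so the left side is
`≥ 1 + v - w v - w (3/5) v²`; at `v ≥ 0`, `w v ≤ 1/2`: `≥ 1 + v - 1/2 - (3/10) v`;
for `v ≤ 0`: `e^v ≤ 1 + v + v²/2`, `≥ 1 - |v| + w |v| - |v|/4 ≥ 1/2`. -/
theorem wexp_le {v : ℝ} (hw : 28 / 25 ≤ w) (hv : |v| ≤ 1 / (2 * w)) :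
    1 / 2 ≤ 1 + w + v - w * Real.exp v := by
  have hw0 : 0 < w := by linarith
  have hv1 : |v| ≤ 1 / 2 := by
    refine hv.trans ?_
    apply one_div_le_one_div_of_le (by norm_num)
    linarith
  have h1 := (abs_le.1 (Real.abs_exp_sub_one_sub_id_le (hv1.trans (by norm_num)))).2
  have h2 : w * |v| ≤ 1 / 2 := by
    have := mul_le_mul_of_nonneg_left hv hw0.le
    have e : w * (1 / (2 * w)) = 1 / 2 := by
      field_simp
    rwa [e] at this
  have h3 : w * v ^ 2 ≤ |v| / 2 := by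
    have : v ^ 2 = |v| * |v| := by rw [← sq, sq_abs]
    rw [this]
    have := mul_le_mul_of_nonneg_right h2 (abs_nonneg v)
    linarith
  have h4 : w * Real.exp v ≤ w * (1 + v + v ^ 2) :=
    mul_le_mul_of_nonneg_left (by linarith) hw0.le
  rcases le_total 0 v with h | h
  · rw [abs_of_nonneg h] at h2 h3
    linarith
  · rw [abs_of_nonpos h] at h2 h3 hv1
    have h5 : 0 ≤ (w - 1) * (-v) := mul_nonneg (by linarith) (by linarith)
    linarith

end

end Pool.Agent.RieszWin
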