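import Pool.Agent.RieszWin.YEven

set_option autoImplicit false

open Real Finset

namespace Pool.Agent.RieszWin

open Pool.Agent.RieszSmall Pool.Agent.RieszLin Pool.Agent.RieszTr

section

variable {u q m κ Y A w : ℝ}

/-- MODULE RW42 (heavy points near the square). `K = Y e^(g+t) = 2 ξ Y e^g/κ` with `ξ = xi κ t`.
If `K ≤ e` then `Φ(K) ≥ Fh K ≥ 0`; otherwise `Φ(K) ≥ -K log K` and
`log K = log (2 ξ Y e^g) + el κ ≤ el κ` (`2 ξ Y e^g ≤ 1`). `Φ(Y e^(-g-t)) ≥ 0`, `Φ(Y) ≤ 1`. Then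
`(8 Y e^g ξ/κ) el κ ≤ 2 w e^g m ξ (1 + 1/u)` (`Apx.ratio`). -/
theorem Apx.heavy_pt (h : Apx u q m κ Y A w) {g t : ℝ} (hg : |g| ≤ 9 / 20)
    (ht : u ^ 4 / 200 ≤ t) (hx : xi κ t ≤ 1) :
    -8 - 2 * w * Real.exp g * (m * xi κ t) * (1 + 1 / u)
      ≤ 4 * (Phi q (Y * Real.exp (g + t)) + Phi q (Y * Real.exp (-(g + t))) - 2 * Phi q Y) := by
  obtain ⟨hu0, hm0, hq0, hk0, -⟩ := h.win.pos
  obtain ⟨hY, hY3, hYe, hww, -, hYu⟩ := h.basic
  have hel := h.win.el_bds
  have hu4 : 0 < u ^ 4 := by positivity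
  have hel0 : 0 < el κ := by linarith [hel.1]
  have hu1 : (10 : ℝ) ≤ u := le_trans (by norm_num) h.win.hu
  have ht0 : 0 < t := lt_of_lt_of_le (by positivity) ht
  have hg' := abs_le.1 hg
  have ht1 : 1 ≤ t := by
    have : (10 : ℝ) ^ 4 ≤ u ^ 4 := pow_le_pow_left₀ (by norm_num) hu1 4
    refine le_trans ?_ ht
    rw [le_div_iff₀ (by norm_num)]
    linarith
  -- the value `ξ`
  obtain ⟨ξ, hξ⟩ : ∃ ξ, ξ = xi κ t := ⟨_, rfl⟩
  rw [← hξ] at hx ⊢
  have hξe : ξ = κ * Real.exp t / 2 := by rw [hξ, xi, abs_of_pos ht0]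
  have hξ0 : 0 < ξ := by rw [hξe]; positivity
  obtain ⟨E, hE⟩ : ∃ E, E = Real.exp g := ⟨_, rfl⟩
  have hE0 : 0 < E := by rw [hE]; exact Real.exp_pos g
  rw [← hE]
  have hK : Y * Real.exp (g + t) = 2 * ξ * E * (Y / κ) := by
    rw [hξe, Real.exp_add, hE]
    field_simp
  have hEle : E ≤ 3 := by
    rw [hE]
    have h1 : Real.exp g ≤ Real.exp 1 := Real.exp_le_exp.2 (by linarith)
    have := Real.exp_one_lt_d9
    linarith
  have hYk : 0 < Y / κ := by positivity
  -- `Φ(K) ≥ - K el κ`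
  have h1 : -(2 * ξ * E * (Y / κ)) * el κ ≤ Phi q (Y * Real.exp (g + t)) := by
    rw [hK]
    obtain ⟨K, hKd⟩ : ∃ K, K = 2 * ξ * E * (Y / κ) := ⟨_, rfl⟩
    rw [← hKd]
    have hK0 : 0 < K := by rw [hKd]; positivity
    have h2 := Phi_lower hq0 hK0
    have h3 : Real.log K = Real.log (2 * ξ * E * Y) + el κ := by
      have : K = (2 * ξ * E * Y) / κ := by rw [hKd]; ring
      rw [this, Real.log_div (by positivity) hk0.ne', el]
      ring
    have h4 : Real.log (2 * ξ * E * Y) ≤ 1 := by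
      rw [Real.log_le_iff_le_exp (by positivity)]
      have h5 : 2 * ξ * E * Y ≤ 2 := by
        have h6 : ξ * E ≤ 1 * 3 := mul_le_mul hx hEle hE0.le zero_le_one
        have h7 : (ξ * E) * Y ≤ 3 * (1 / 3) := mul_le_mul (by linarith) hY3 hY.le (by norm_num)
        nlinarith
      have := Real.add_one_le_exp (1 : ℝ)
      linarith
    have h8 : K * (1 - Real.log (2 * ξ * E * Y)) ≥ 0 := mul_nonneg hK0.le (by linarith)
    have h9 : K - K * Real.log K = K * (1 - Real.log (2 * ξ * E * Y)) - K * el κ := by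
      rw [h3]; ring
    linarith
  -- the small value
  have h2 : 0 ≤ Phi q (Y * Real.exp (-(g + t))) := by
    have hp : 0 < Y * Real.exp (-(g + t)) := by positivity
    have h3 := Phi_lower hq0 hp
    have h4 : Y * Real.exp (-(g + t)) ≤ 1 := by
      have h5 : Real.exp (-(g + t)) ≤ 1 := Real.exp_le_one_iff.2 (by linarith)
      have := mul_le_mul hY3 h5 (Real.exp_pos _).le (by norm_num)
      linarith
    have h5 := Real.log_nonpos hp.le h4
    have h6 : Y * Real.exp (-(g + t)) * Real.log (Y * Real.exp (-(g + t))) ≤ 0 :=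
      mul_nonpos_of_nonneg_of_nonpos hp.le h5
    linarith
  have h3 : Phi q Y ≤ 1 := Phi_le_one hq0
  have h4 := h.ratio.2
  have h5 : 4 * ((2 * ξ * E * (Y / κ)) * el κ) ≤ 2 * w * E * (m * ξ) * (1 + 1 / u) := by
    have h6 : (8 * ξ * E * el κ) * (Y / κ) ≤
        (8 * ξ * E * el κ) * (w * m / (4 * el κ) * (1 + 1 / u)) :=
      mul_le_mul_of_nonneg_left h4 (by positivity)
    have h7 : (8 * ξ * E * el κ) * (w * m / (4 * el κ) * (1 + 1 / u)) =
        2 * w * E * (m * ξ) * (1 + 1 / u) := by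
      field_simp
      ring
    rw [h7] at h6
    linarith
  linarith

/-- The coefficient of a heavy point: `ξ ≤ Y e^(-g)/(9 w)`, so
`Fh ξ = ξ (1 - log ξ) ≥ ξ (1 + w + g + log (9w)) ≥ ξ (1 + w + g + 23/10)`; with `wexp_le`:
`2 Fh ξ - 2 w e^g ξ (1 + 1/u) ≥ 2 ξ (1/2 + 23/10) - 4 w ξ/u`. -/
theorem Apx.heavy_coef (h : Apx u q m κ Y A w) {g x : ℝ} (hg : |g| ≤ 1 / (2 * w))
    (hx0 : 0 < x) (hx : x ≤ Y * Real.exp (-g) / (9 * w)) :
    5 * x ≤ 2 * (1 - 1 / u ^ 2) * Fh x - 2 * w * Real.exp g * x * (1 + 1 / u) := by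
  obtain ⟨hu0, hm0, hq0, hk0, -⟩ := h.win.pos
  obtain ⟨hY, hY3, hYe, hww, -, hYu⟩ := h.basic
  have hw1 := h.wlo
  have hw0 : 0 < w := by linarith
  have hu1 : (1000 : ℝ) ≤ u := le_trans (by norm_num) h.win.hu
  have hwe := wexp_le hw1 hg
  have hg1 : |g| ≤ 1 / 2 := by
    refine hg.trans ?_
    rw [div_le_div_iff₀ (by positivity) (by norm_num)]
    linarith
  have hg' := abs_le.1 hg1
  -- `log x`
  have hlog : Real.log x ≤ -w - g - 23 / 10 := by
    have h1 : Real.log x ≤ Real.log (Y * Real.exp (-g) / (9 * w)) := Real.log_le_log hx0 hx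
    rw [Real.log_div (by positivity) (by positivity), Real.log_mul hY.ne' (Real.exp_pos _).ne',
      Real.log_exp] at h1
    have h2 : Real.log Y = -w := by rw [h.hw, neg_neg]
    have h3 : (23 : ℝ) / 10 ≤ Real.log (9 * w) := by
      rw [Real.le_log_iff_exp_le (by positivity)]
      have h4 : Real.exp (23 / 10 : ℝ) ≤ 10 := by
        have h5 : Real.exp (23 / 10 : ℝ) = Real.exp 1 * Real.exp 1 * Real.exp (3 / 10) := by
          rw [← Real.exp_add, ← Real.exp_add]; norm_num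
        have h6 := Real.exp_one_lt_d9
        have h7 : Real.exp (3 / 10 : ℝ) ≤ 27 / 20 := by
          have h8 := Real.exp_bound' (show (0 : ℝ) ≤ 3 / 10 by norm_num)
            (show (3 : ℝ) / 10 ≤ 1 by norm_num) (show 0 < 4 by norm_num)
          refine h8.trans ?_
          simp [Finset.sum_range_succ, Nat.factorial]
          norm_num
        have h9 : Real.exp 1 * Real.exp 1 ≤ 7389057 / 1000000 := by
          have := Real.exp_pos (1 : ℝ)
          nlinarith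
        have h10 := Real.exp_pos (3 / 10 : ℝ)
        rw [h5]
        nlinarith
      linarith
    linarith
  obtain ⟨e, he⟩ : ∃ e, e = Real.exp g := ⟨_, rfl⟩
  rw [← he] at hwe ⊢
  have he0 : 0 < e := by rw [he]; exact Real.exp_pos g
  have he3 : e ≤ 3 := by
    rw [he]
    have h1 : Real.exp g ≤ Real.exp 1 := Real.exp_le_exp.2 (by linarith)
    have := Real.exp_one_lt_d9
    linarith
  obtain ⟨v, hv⟩ : ∃ v, v = 1 / u := ⟨_, rfl⟩
  have hv0 : 0 < v := by rw [hv]; positivity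
  have hv1 : v ≤ 1 / 1000 := by
    rw [hv]; exact one_div_le_one_div_of_le (by norm_num) hu1
  have hwv : w * v ≤ 1 / 10 ^ 9 := by
    rw [hv, mul_one_div, div_le_div_iff₀ hu0 (by norm_num)]
    have := (le_div_iff₀ (by norm_num : (0 : ℝ) < 10 ^ 9)).1 hww
    linarith
  have e2 : 1 / u ^ 2 = v ^ 2 := by rw [hv]; field_simp
  rw [e2, ← hv]
  have hFh : Fh x ≥ x * (1 + w + g + 23 / 10) := by
    unfold Fh
    have : x * Real.log x ≤ x * (-w - g - 23 / 10) := mul_le_mul_of_nonneg_left hlog hx0.le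
    linarith
  have hv2 : v ^ 2 ≤ 1 / 1000000 := by nlinarith
  have h1 : (1 - v ^ 2) * Fh x ≥ (1 - v ^ 2) * (x * (1 + w + g + 23 / 10)) :=
    mul_le_mul_of_nonneg_left hFh (by linarith)
  have h2 : v ^ 2 * (1 + w + g + 23 / 10) ≤ 1 / 100 := by
    have h3 : v ^ 2 * w ≤ 1 / 10 ^ 9 := by
      have : v ^ 2 * w = v * (w * v) := by ring
      rw [this]
      calc v * (w * v) ≤ 1 * (1 / 10 ^ 9) :=
            mul_le_mul (by linarith) hwv (by positivity) zero_le_one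
        _ = 1 / 10 ^ 9 := one_mul _
    nlinarith
  have h4 : w * e * v ≤ 3 / 10 ^ 9 := by
    have : w * e * v = e * (w * v) := by ring
    rw [this]
    calc e * (w * v) ≤ 3 * (1 / 10 ^ 9) := mul_le_mul he3 hwv (by positivity) (by norm_num)
      _ = 3 / 10 ^ 9 := by norm_num
  have h5 : 5 / 2 ≤ (1 - v ^ 2) * (1 + w + g + 23 / 10) - w * e * (1 + v) := by
    nlinarith
  have h6 := mul_le_mul_of_nonneg_left h5 (by positivity : 0 ≤ 2 * x)
  nlinarith

end

end Pool.Agent.RieszWin
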