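import Pool.Agent.RieszWin.YSide

set_option autoImplicit false

open Real Finset

namespace Pool.Agent.RieszWin

open Pool.Agent.RieszSmall Pool.Agent.RieszLin Pool.Agent.RieszTr

section

variable {ι : Type*} [Fintype ι] [DecidableEq ι]

/-- the indices different from four given ones -/
def Rest (p1 p2 q1 q2 : ι) : Finset ι :=
  univ.filter (fun z => z ≠ p1 ∧ z ≠ p2 ∧ z ≠ q1 ∧ z ≠ q2)

namespace YLBAux

theorem sum_four' {p1 p2 q1 q2 : ι} (hp : p1 ≠ p2) (hq : q1 ≠ q2) (h11 : p1 ≠ q1)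
    (h12 : p1 ≠ q2) (h21 : p2 ≠ q1) (h22 : p2 ≠ q2) (f : ι → ℝ) :
    ∑ z, f z = ∑ z ∈ Rest p1 p2 q1 q2, f z + f p1 + f p2 + f q1 + f q2 := by
  have h1 := Finset.add_sum_erase univ f (mem_univ p1)
  have h2 := Finset.add_sum_erase (univ.erase p1) f (mem_erase.2 ⟨hp.symm, mem_univ p2⟩)
  have h3 := Finset.add_sum_erase ((univ.erase p1).erase p2) f
    (mem_erase.2 ⟨h21.symm, mem_erase.2 ⟨h11.symm, mem_univ q1⟩⟩)
  have h4 := Finset.add_sum_erase (((univ.erase p1).erase p2).erase q1) f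
    (mem_erase.2 ⟨hq.symm, mem_erase.2 ⟨h22.symm, mem_erase.2 ⟨h12.symm, mem_univ q2⟩⟩⟩)
  have h5 : (((univ.erase p1).erase p2).erase q1).erase q2 = Rest p1 p2 q1 q2 := by
    ext z
    simp only [mem_erase, mem_univ, Rest, mem_filter, true_and, and_true]
    tauto
  rw [h5] at h4
  linarith

theorem mem_rest {p1 p2 q1 q2 z : ι} (hz : z ∈ Rest p1 p2 q1 q2) :
    z ≠ p1 ∧ z ≠ p2 ∧ z ≠ q1 ∧ z ≠ q2 := by
  rw [Rest, mem_filter] at hz
  exact hz.2

end YLBAux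

open YLBAux

/-- MODULE RW47 (sums with four distinguished indices). -/
theorem offsum_four {p1 p2 q1 q2 : ι} (hp : p1 ≠ p2) (hq : q1 ≠ q2) (h11 : p1 ≠ q1)
    (h12 : p1 ≠ q2) (h21 : p2 ≠ q1) (h22 : p2 ≠ q2) (f : ι → ι → ℝ)
    (hf : ∀ i j, f i j = f j i) :
    offsum f = offd (Rest p1 p2 q1 q2) f
      + 2 * ∑ z ∈ Rest p1 p2 q1 q2, (f p1 z + f p2 z + f q1 z + f q2 z)
      + 2 * f p1 p2 + 2 * f q1 q2 + 2 * (f q1 p1 + f q1 p2 + f q2 p1 + f q2 p2) := by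
  set R := Rest p1 p2 q1 q2 with hR
  have hs := sum_four' hp hq h11 h12 h21 h22
  unfold offsum
  rw [hs (fun i => ∑ j, if i = j then 0 else f i j)]
  have hi : ∀ i ∈ R, (∑ j, if i = j then 0 else f i j) =
      (∑ j ∈ R, if i = j then 0 else f i j) + (f p1 i + f p2 i + f q1 i + f q2 i) := by
    intro i hi
    obtain ⟨n1, n2, n3, n4⟩ := mem_rest hi
    rw [hs (fun j => if i = j then 0 else f i j), if_neg n1, if_neg n2, if_neg n3, if_neg n4,
      hf i p1, hf i p2, hf i q1, hf i q2]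
    ring
  have hne : ∀ i, (∀ z ∈ R, z ≠ i) → (∑ j ∈ R, if i = j then 0 else f i j) = ∑ j ∈ R, f i j := by
    intro i h
    refine sum_congr rfl fun j hj => ?_
    rw [if_neg (fun h0 => h j hj h0.symm)]
  have e1 := hs (fun j => if p1 = j then 0 else f p1 j)
  have e2 := hs (fun j => if p2 = j then 0 else f p2 j)
  have e3 := hs (fun j => if q1 = j then 0 else f q1 j)
  have e4 := hs (fun j => if q2 = j then 0 else f q2 j)
  rw [hne p1 (fun z hz => (mem_rest hz).1), if_pos rfl, if_neg hp, if_neg h11, if_neg h12] at e1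
  rw [hne p2 (fun z hz => (mem_rest hz).2.1), if_neg hp.symm, if_pos rfl, if_neg h21,
    if_neg h22] at e2
  rw [hne q1 (fun z hz => (mem_rest hz).2.2.1), if_neg h11.symm, if_neg h21.symm, if_pos rfl,
    if_neg hq] at e3
  rw [hne q2 (fun z hz => (mem_rest hz).2.2.2), if_neg h12.symm, if_neg h22.symm, if_neg hq.symm,
    if_pos rfl] at e4
  rw [e1, e2, e3, e4, sum_congr rfl hi, sum_add_distrib, hf p1 q1, hf p1 q2, hf p2 q1, hf p2 q2,
    hf q2 q1, hf p2 p1]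
  have e5 : ∑ z ∈ R, (f p1 z + f p2 z + f q1 z + f q2 z) =
      ∑ z ∈ R, f p1 z + ∑ z ∈ R, f p2 z + ∑ z ∈ R, f q1 z + ∑ z ∈ R, f q2 z := by
    rw [sum_add_distrib, sum_add_distrib, sum_add_distrib]
  rw [e5]
  unfold offd
  ring

theorem sum_four {p1 p2 q1 q2 : ι} (hp : p1 ≠ p2) (hq : q1 ≠ q2) (h11 : p1 ≠ q1)
    (h12 : p1 ≠ q2) (h21 : p2 ≠ q1) (h22 : p2 ≠ q2) (f : ι → ℝ) :
    ∑ z, f z = ∑ z ∈ Rest p1 p2 q1 q2, f z + f p1 + f p2 + f q1 + f q2 :=
  sum_four' hp hq h11 h12 h21 h22 f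

/-- The certificate near the square: `b = (Y/√κ) e^g (1 ± χ e)`, `α = -√T e^g (1 ± e)` at
`q1`, `q2`; `b = (Y/√κ) e^(-g) (1 ± χ' e')`, `α = √T e^(-g) (1 ± e')` at `p1`, `p2`;
`b = √κ cosh θ`, `α = (Y/√T) sinh θ` at the others. With `Y²/κ = B2` and `Y²/T = κ (1 + η)`:
`K z z' = κ cosh (θ - θ') - κ η sinh θ sinh θ'`, `K q1 z = Y e^g ((1+χe) cosh θ + (1+e) sinh θ)`,
`K p1 z = Y e^(-g) ((1+χ'e') cosh θ - (1+e') sinh θ)`, and so on. -/
theorem YLB {q κ Y B2 T η g e e' χ χ' : ℝ} (hk : 0 < κ) (hY : 0 < Y) (hT : 0 < T)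
    (hB : Y ^ 2 = κ * B2) (hη : Y ^ 2 = κ * (1 + η) * T)
    {p1 p2 q1 q2 : ι} (hp : p1 ≠ p2) (hq : q1 ≠ q2) (h11 : p1 ≠ q1)
    (h12 : p1 ≠ q2) (h21 : p2 ≠ q1) (h22 : p2 ≠ q2) {θ b α : ι → ℝ}
    (hbq1 : b q1 = Y / √κ * Real.exp g * (1 + χ * e))
    (hbq2 : b q2 = Y / √κ * Real.exp g * (1 - χ * e))
    (haq1 : α q1 = -(√T * Real.exp g * (1 + e))) (haq2 : α q2 = -(√T * Real.exp g * (1 - e)))
    (hbp1 : b p1 = Y / √κ * Real.exp (-g) * (1 + χ' * e'))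
    (hbp2 : b p2 = Y / √κ * Real.exp (-g) * (1 - χ' * e'))
    (hap1 : α p1 = √T * Real.exp (-g) * (1 + e')) (hap2 : α p2 = √T * Real.exp (-g) * (1 - e'))
    (hb : ∀ z ∈ Rest p1 p2 q1 q2, b z = √κ * Real.cosh (θ z))
    (ha : ∀ z ∈ Rest p1 p2 q1 q2, α z = Y / √T * Real.sinh (θ z)) :
    LB q b α = offd (Rest p1 p2 q1 q2) (fun z z' => Phi q (κ * Real.cosh (θ z - θ z')
          - κ * η * (Real.sinh (θ z) * Real.sinh (θ z'))))
      - q * ((Rest p1 p2 q1 q2).card : ℝ) * κ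
      + q * κ * η * ∑ z ∈ Rest p1 p2 q1 q2, Real.sinh (θ z) ^ 2
      + Side q (Y * Real.exp g) (Real.exp (2 * g)) B2 T e χ (Rest p1 p2 q1 q2) θ
      + Side q (Y * Real.exp (-g)) (Real.exp (2 * -g)) B2 T e' χ' (Rest p1 p2 q1 q2)
          (fun z => -θ z)
      + 2 * (Phi q (B2 * ((1 + χ * e) * (1 + χ' * e')) + T * ((1 + e) * (1 + e')))
        + Phi q (B2 * ((1 + χ * e) * (1 - χ' * e')) + T * ((1 + e) * (1 - e')))
        + Phi q (B2 * ((1 - χ * e) * (1 + χ' * e')) + T * ((1 - e) * (1 + e')))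
        + Phi q (B2 * ((1 - χ * e) * (1 - χ' * e')) + T * ((1 - e) * (1 - e')))) := by
  set R := Rest p1 p2 q1 q2 with hR
  have sκ : √κ * √κ = κ := Real.mul_self_sqrt hk.le
  have sT : √T * √T = T := Real.mul_self_sqrt hT.le
  have nκ : √κ ≠ 0 := (Real.sqrt_pos.2 hk).ne'
  have nT : √T ≠ 0 := (Real.sqrt_pos.2 hT).ne'
  have hYY : Y / √κ * (Y / √κ) = B2 := by
    rw [div_mul_div_comm, sκ, div_eq_iff hk.ne']
    linarith
  have hYT : Y / √T * (Y / √T) = κ * (1 + η) := by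
    rw [div_mul_div_comm, sT, div_eq_iff hT.ne']
    linarith
  have c1 : Y / √κ * √κ = Y := div_mul_cancel₀ _ nκ
  have c2 : √T * (Y / √T) = Y := mul_div_cancel₀ _ nT
  have eg : Real.exp g * Real.exp (-g) = 1 := by rw [← Real.exp_add]; simp
  have eg2 : Real.exp g * Real.exp g = Real.exp (2 * g) := by rw [← Real.exp_add]; congr 1; ring
  have eg3 : Real.exp (-g) * Real.exp (-g) = Real.exp (2 * -g) := by
    rw [← Real.exp_add]; congr 1; ring
  generalize hα1 : Y / √κ = y1 at *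
  generalize hα2 : Y / √T = y2 at *
  generalize hα3 : √κ = sk at *
  generalize hα4 : √T = st at *
  generalize hE1 : Real.exp g = E1 at *
  generalize hE2 : Real.exp (-g) = E2 at *
  generalize hE3 : Real.exp (2 * g) = E3 at *
  generalize hE4 : Real.exp (2 * -g) = E4 at *
  set f : ι → ι → ℝ := fun i j => Phi q (b i * b j - α i * α j) with hfdef
  have hf : ∀ i j, f i j = f j i := by
    intro i j
    simp only [hfdef]
    rw [mul_comm (b i), mul_comm (α i)]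
  have m1 : ∀ z ∈ R, f p1 z =
      Phi q (Y * E2 * ((1 + χ' * e') * Real.cosh (-θ z) + (1 + e') * Real.sinh (-θ z))) := by
    intro z hz
    simp only [hfdef]
    rw [hbp1, hap1, hb z hz, ha z hz, Real.cosh_neg, Real.sinh_neg]
    congr 1
    linear_combination (E2 * (1 + χ' * e') * Real.cosh (θ z)) * c1
      - (E2 * (1 + e') * Real.sinh (θ z)) * c2
  have m2 : ∀ z ∈ R, f p2 z =
      Phi q (Y * E2 * ((1 - χ' * e') * Real.cosh (-θ z) + (1 - e') * Real.sinh (-θ z))) := by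
    intro z hz
    simp only [hfdef]
    rw [hbp2, hap2, hb z hz, ha z hz, Real.cosh_neg, Real.sinh_neg]
    congr 1
    linear_combination (E2 * (1 - χ' * e') * Real.cosh (θ z)) * c1
      - (E2 * (1 - e') * Real.sinh (θ z)) * c2
  have m3 : ∀ z ∈ R, f q1 z =
      Phi q (Y * E1 * ((1 + χ * e) * Real.cosh (θ z) + (1 + e) * Real.sinh (θ z))) := by
    intro z hz
    simp only [hfdef]
    rw [hbq1, haq1, hb z hz, ha z hz]
    congr 1
    linear_combination (E1 * (1 + χ * e) * Real.cosh (θ z)) * c1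
      + (E1 * (1 + e) * Real.sinh (θ z)) * c2
  have m4 : ∀ z ∈ R, f q2 z =
      Phi q (Y * E1 * ((1 - χ * e) * Real.cosh (θ z) + (1 - e) * Real.sinh (θ z))) := by
    intro z hz
    simp only [hfdef]
    rw [hbq2, haq2, hb z hz, ha z hz]
    congr 1
    linear_combination (E1 * (1 - χ * e) * Real.cosh (θ z)) * c1
      + (E1 * (1 - e) * Real.sinh (θ z)) * c2
  have k1 : f p1 p2 = Phi q (E4 * (B2 * (1 - χ' ^ 2 * e' ^ 2) - T * (1 - e' ^ 2))) := by
    simp only [hfdef]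
    rw [hbp1, hbp2, hap1, hap2]
    congr 1
    rw [← eg3, ← hYY, ← sT]
    ring
  have k2 : f q1 q2 = Phi q (E3 * (B2 * (1 - χ ^ 2 * e ^ 2) - T * (1 - e ^ 2))) := by
    simp only [hfdef]
    rw [hbq1, hbq2, haq1, haq2]
    congr 1
    rw [← eg2, ← hYY, ← sT]
    ring
  have k3 : f q1 p1 = Phi q (B2 * ((1 + χ * e) * (1 + χ' * e')) + T * ((1 + e) * (1 + e'))) := by
    simp only [hfdef]
    rw [hbq1, hbp1, haq1, hap1]
    congr 1
    rw [← hYY, ← sT]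
    linear_combination (y1 * y1 * ((1 + χ * e) * (1 + χ' * e'))
      + st * st * ((1 + e) * (1 + e'))) * eg
  have k4 : f q1 p2 = Phi q (B2 * ((1 + χ * e) * (1 - χ' * e')) + T * ((1 + e) * (1 - e'))) := by
    simp only [hfdef]
    rw [hbq1, hbp2, haq1, hap2]
    congr 1
    rw [← hYY, ← sT]
    linear_combination (y1 * y1 * ((1 + χ * e) * (1 - χ' * e'))
      + st * st * ((1 + e) * (1 - e'))) * eg
  have k5 : f q2 p1 = Phi q (B2 * ((1 - χ * e) * (1 + χ' * e')) + T * ((1 - e) * (1 + e'))) := by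
    simp only [hfdef]
    rw [hbq2, hbp1, haq2, hap1]
    congr 1
    rw [← hYY, ← sT]
    linear_combination (y1 * y1 * ((1 - χ * e) * (1 + χ' * e'))
      + st * st * ((1 - e) * (1 + e'))) * eg
  have k6 : f q2 p2 = Phi q (B2 * ((1 - χ * e) * (1 - χ' * e')) + T * ((1 - e) * (1 - e'))) := by
    simp only [hfdef]
    rw [hbq2, hbp2, haq2, hap2]
    congr 1
    rw [← hYY, ← sT]
    linear_combination (y1 * y1 * ((1 - χ * e) * (1 - χ' * e'))
      + st * st * ((1 - e) * (1 - e'))) * eg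
  have moff : offd R f = offd R (fun z z' => Phi q (κ * Real.cosh (θ z - θ z')
      - κ * η * (Real.sinh (θ z) * Real.sinh (θ z')))) := by
    unfold offd
    refine sum_congr rfl fun z hz => sum_congr rfl fun z' hz' => ?_
    split_ifs with h0
    · rfl
    · simp only [hfdef]
      rw [hb z hz, hb z' hz', ha z hz, ha z' hz', Real.cosh_sub]
      congr 1
      linear_combination (Real.cosh (θ z) * Real.cosh (θ z')) * sκ
        - (Real.sinh (θ z) * Real.sinh (θ z')) * hYT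
  have msum : ∑ z ∈ R, (b z ^ 2 - α z ^ 2) =
      (R.card : ℝ) * κ - κ * η * ∑ z ∈ R, Real.sinh (θ z) ^ 2 := by
    have h1 : ∀ z ∈ R, b z ^ 2 - α z ^ 2 = κ - κ * η * Real.sinh (θ z) ^ 2 := by
      intro z hz
      rw [hb z hz, ha z hz]
      have h2 := Real.cosh_sq (θ z)
      linear_combination (Real.cosh (θ z) ^ 2) * sκ - (Real.sinh (θ z) ^ 2) * hYT + κ * h2
    rw [sum_congr rfl h1, sum_sub_distrib, sum_const, nsmul_eq_mul, mul_sum]
  have d1 : b p1 ^ 2 - α p1 ^ 2 + (b p2 ^ 2 - α p2 ^ 2) =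
      E4 * (2 * B2 * (1 + χ' ^ 2 * e' ^ 2) - 2 * T * (1 + e' ^ 2)) := by
    rw [hbp1, hbp2, hap1, hap2, ← eg3, ← hYY, ← sT]
    ring
  have d2 : b q1 ^ 2 - α q1 ^ 2 + (b q2 ^ 2 - α q2 ^ 2) =
      E3 * (2 * B2 * (1 + χ ^ 2 * e ^ 2) - 2 * T * (1 + e ^ 2)) := by
    rw [hbq1, hbq2, haq1, haq2, ← eg2, ← hYY, ← sT]
    ring
  have hz1 : ∑ z ∈ R, (f p1 z + f p2 z + f q1 z + f q2 z) =
      ∑ z ∈ R, (Phi q (Y * E2 * ((1 + χ' * e') * Real.cosh (-θ z) + (1 + e') * Real.sinh (-θ z)))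
        + Phi q (Y * E2 * ((1 - χ' * e') * Real.cosh (-θ z) + (1 - e') * Real.sinh (-θ z))))
      + ∑ z ∈ R, (Phi q (Y * E1 * ((1 + χ * e) * Real.cosh (θ z) + (1 + e) * Real.sinh (θ z)))
        + Phi q (Y * E1 * ((1 - χ * e) * Real.cosh (θ z) + (1 - e) * Real.sinh (θ z)))) := by
    rw [← sum_add_distrib]
    refine sum_congr rfl fun z hz => ?_
    rw [m1 z hz, m2 z hz, m3 z hz, m4 z hz]
    ring
  have hLB : LB q b α = offsum f - q * ∑ i, (b i ^ 2 - α i ^ 2) := rfl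
  rw [hLB, offsum_four hp hq h11 h12 h21 h22 f hf,
    sum_four hp hq h11 h12 h21 h22 (fun i => b i ^ 2 - α i ^ 2), ← hR, moff, hz1, k1, k2, k3, k4,
    k5, k6, msum]
  unfold Side
  linear_combination (-q) * d1 - q * d2

end

end Pool.Agent.RieszWin
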