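import Pool.Agent.RieszWin.YHeavy

set_option autoImplicit false

open Real Finset

namespace Pool.Agent.RieszWin

open Pool.Agent.RieszSmall Pool.Agent.RieszLin Pool.Agent.RieszTr

namespace YMAux

/-- `ξ + ξ |log ξ| = Fh ξ` for `0 < ξ ≤ 1` -/
theorem Fh_abs {x : ℝ} (hx : 0 < x) (h1 : x ≤ 1) : x + x * |Real.log x| = Fh x := by
  unfold Fh
  rw [abs_of_nonpos (Real.log_nonpos hx.le h1)]
  ring

/-- `exp g ≤ 17/10` for `|g| ≤ 9/20` -/
theorem exp_g {g : ℝ} (hg : |g| ≤ 9 / 20) : Real.exp g ≤ 17 / 10 := by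
  have h1 := (abs_le.1 hg).2
  have h2 : Real.exp g ≤ Real.exp (1 / 2) := Real.exp_le_exp.2 (by linarith)
  have h3 : Real.exp (1 / 2 : ℝ) ^ 2 = Real.exp 1 := by
    rw [← Real.exp_nat_mul]
    norm_num
  have h4 := Real.exp_one_lt_d9
  have h5 := Real.exp_pos (1 / 2 : ℝ)
  nlinarith

/-- a single heavy side -/
theorem heavy_set {ι : Type*} {u q m κ Y A w : ℝ} (h : Apx u q m κ Y A w) {g : ℝ}
    (hg : |g| ≤ 9 / 20) (hg' : |g| ≤ 1 / (2 * w)) {S : Finset ι} {t : ι → ℝ}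
    (ht : ∀ z ∈ S, u ^ 4 / 200 ≤ t z) (hx : ∀ z ∈ S, xi κ (t z) ≤ 1)
    (hx' : ∀ z ∈ S, xi κ (t z) ≤ Y * Real.exp (-g) / (9 * w)) :
    5 * m * XX κ S t - 8 * (S.card : ℝ)
      ≤ 2 * m * (1 - 1 / u ^ 2) * ∑ z ∈ S, Fh (xi κ (t z))
        + 4 * ∑ z ∈ S, (Phi q (Y * Real.exp (g + t z)) + Phi q (Y * Real.exp (-(g + t z)))
          - 2 * Phi q Y) := by
  have hk := h.win.hk
  have hm : 0 < m := FactsAux.m_pos h.win
  have e1 : (S.card : ℝ) = ∑ z ∈ S, (1 : ℝ) := by simp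
  unfold XX
  rw [e1, Finset.mul_sum, Finset.mul_sum, Finset.mul_sum, Finset.mul_sum,
    ← Finset.sum_sub_distrib, ← Finset.sum_add_distrib]
  refine Finset.sum_le_sum fun z hz => ?_
  have h1 := h.heavy_pt hg (ht z hz) (hx z hz)
  have h2 := h.heavy_coef hg' (xi_pos hk) (hx' z hz)
  have h3 := mul_le_mul_of_nonneg_left h2 hm.le
  linarith

section

variable {ι : Type*} [DecidableEq ι] {u q m κ Y A w g T : ℝ} {Z L P Q : Finset ι} {θ : ι → ℝ}

/-- the light points -/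
theorem light (h : YZ u q m κ Y A w g T Z L P Q θ) :
    4 * (w - 1) * Y * ∑ z ∈ L, (Real.cosh (g + θ z) - 1)
      ≤ 4 / 100 * u ^ 4 * (κ * GG L θ)
        + 4 * ∑ z ∈ L, (Phi q (Y * Real.exp (g + θ z)) + Phi q (Y * Real.exp (-(g + θ z)))
          - 2 * Phi q Y) := by
  have hk := h.apx.win.hk
  have hm : 0 < m := FactsAux.m_pos h.apx.win
  have hu := FactsAux.u_pos h.apx.win
  have hu20 := FactsAux.u20 h.apx.win
  have hu4 := FactsAux.U_ge h.apx.win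
  obtain ⟨hY, hY3, hYe, hww, -, -⟩ := h.apx.basic
  obtain ⟨hg, hwu, hwu', hw1⟩ := h.g_le
  obtain ⟨c, hc, hc'⟩ := h.center
  have hn := h.nz
  have hL := hn.card_L.1
  have hLm : m / 2 ≤ (L.card : ℝ) := by
    have h1 : Real.exp (-(u ^ 4 / 300)) ≤ 1 / 2 := by
      rw [Real.exp_neg, inv_eq_one_div]
      refine one_div_le_one_div_of_le (by norm_num) ?_
      have h2 := Real.add_one_le_exp (u ^ 4 / 300)
      have h3 : (300 : ℝ) ≤ 10 ^ 80 := by norm_num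
      have h4 : 1 ≤ u ^ 4 / 300 := by
        rw [le_div_iff₀ (by norm_num)]
        linarith
      linarith
    have h2 : m * (1 / 2) ≤ m * (1 - Real.exp (-(u ^ 4 / 300))) :=
      mul_le_mul_of_nonneg_left (by linarith) hm.le
    linarith
  have hcc : |c| ≤ 1 / 100 := hc'.trans hwu
  have hW := GG_center L θ hc
  set W : ℝ := ∑ z ∈ L, (Real.cosh (θ z - c) - 1) with hWdef
  have hW0 : 0 ≤ W := Finset.sum_nonneg fun z _ => by linarith [Real.one_le_cosh (θ z - c)]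
  -- pointwise
  have hpt : 4 * (w - 1) * Y * ∑ z ∈ L, (Real.cosh (g + θ z) - 1) - u ^ 5 * Y * W
      ≤ 4 * ∑ z ∈ L, (Phi q (Y * Real.exp (g + θ z)) + Phi q (Y * Real.exp (-(g + θ z)))
          - 2 * Phi q Y) := by
    rw [hWdef, Finset.mul_sum, Finset.mul_sum, Finset.mul_sum, ← Finset.sum_sub_distrib]
    refine Finset.sum_le_sum fun z hz => ?_
    have hz1 := h.part.hL z hz
    have hv : |g + θ z| ≤ 3 * u ^ 4 := by
      have h1 := abs_add_le g (θ z)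
      have h2 : (1 : ℝ) ≤ 10 ^ 80 := by norm_num
      linarith
    have h1 := h.apx.even hv
    have h2 := light_pt h.apx.win.hu hw1 hwu' hY hg hcc hz1
    linarith
  -- the loss
  have hloss : u ^ 5 * Y * W ≤ 4 / 100 * u ^ 4 * (κ * GG L θ) := by
    have h1 := h.apx.mkap.1
    have h2 : w * (m * κ) ≤ u / 10 ^ 9 * (m * κ) :=
      mul_le_mul_of_nonneg_right hww (by positivity)
    have h3 : 39 / 10 * 10 ^ 9 * (u ^ 3 * Y) ≤ m * κ := by
      have h4 : u * (39 / 10 * 10 ^ 9 * (u ^ 3 * Y)) ≤ u * (m * κ) := by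
        have e1 : u * (39 / 10 * 10 ^ 9 * (u ^ 3 * Y)) = 10 ^ 9 * (39 / 10 * (u ^ 4 * Y)) := by
          ring
        have e2 : u * (m * κ) = 10 ^ 9 * (u / 10 ^ 9 * (m * κ)) := by ring
        rw [e1, e2]
        exact mul_le_mul_of_nonneg_left (h1.trans h2) (by norm_num)
      exact le_of_mul_le_mul_left h4 hu
    have h5 : u * Y ≤ u ^ 3 * Y := by
      refine mul_le_mul_of_nonneg_right ?_ hY.le
      have h6 : (1 : ℝ) ≤ u := le_trans (by norm_num) hu20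
      calc u = u ^ 1 := (pow_one u).symm
        _ ≤ u ^ 3 := pow_le_pow_right₀ h6 (by norm_num)
    have h6 : 0 < u * Y := by positivity
    have h7 : u * Y ≤ 4 / 100 * (m * κ) := by linarith
    have h8 : u * Y * W ≤ 4 / 100 * (κ * GG L θ) := by
      have h9 : m * W ≤ GG L θ := by
        have h10 : m / 2 * W ≤ (L.card : ℝ) * W := mul_le_mul_of_nonneg_right hLm hW0
        linarith
      have h11 := mul_le_mul_of_nonneg_right h7 hW0
      have h12 := mul_le_mul_of_nonneg_left h9 hk.le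
      linarith
    have h13 := mul_le_mul_of_nonneg_left h8 (by positivity : 0 ≤ u ^ 4)
    calc u ^ 5 * Y * W = u ^ 4 * (u * Y * W) := by ring
      _ ≤ u ^ 4 * (4 / 100 * (κ * GG L θ)) := h13
      _ = 4 / 100 * u ^ 4 * (κ * GG L θ) := by ring
  linarith

/-- the number of heavy points -/
theorem card_PQ (h : YZ u q m κ Y A w g T Z L P Q θ) :
    8 * ((P.card : ℝ) + Q.card) ≤ 1 / u * (m * (XX κ P θ + XX κ Q θ)) := by
  have hw := h.apx.win
  have hk := hw.hk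
  have hm : 0 < m := FactsAux.m_pos hw
  have hu := FactsAux.u_pos hw
  have hu20 := FactsAux.u20 hw
  have hc := card_heavy h.part hk
  have hX : 0 ≤ XX κ P θ + XX κ Q θ := add_nonneg (XX_nonneg hk P θ) (XX_nonneg hk Q θ)
  -- `16 u ^ 5 ≤ exp (u ^ 4 / 200)`
  have h1 : 16 * u ^ 5 ≤ Real.exp (u ^ 4 / 200) := by
    have e1 : Real.exp (u ^ 4 / 200) = Real.exp (u ^ 4 / 400) ^ 2 := by
      rw [← Real.exp_nat_mul]
      congr 1
      push_cast
      ring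
    have e2 : u ^ 4 / 400 ≤ Real.exp (u ^ 4 / 400) := by
      linarith [Real.add_one_le_exp (u ^ 4 / 400)]
    have e3 : (u ^ 4 / 400) ^ 2 ≤ Real.exp (u ^ 4 / 400) ^ 2 :=
      pow_le_pow_left₀ (by positivity) e2 2
    rw [e1]
    refine le_trans ?_ e3
    have e4 : (16 * 160000 : ℝ) ≤ u ^ 3 := by
      have e5 : ((10 : ℝ) ^ 20) ^ 3 ≤ u ^ 3 := pow_le_pow_left₀ (by positivity) hu20 3
      exact le_trans (by norm_num) e5
    have e6 : (u ^ 4 / 400) ^ 2 = u ^ 3 * u ^ 5 / 160000 := by ring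
    rw [e6, le_div_iff₀ (by norm_num)]
    have e7 := mul_le_mul_of_nonneg_right e4 (by positivity : 0 ≤ u ^ 5)
    linarith
  -- `16 u ≤ m κ exp (u ^ 4 / 200)`
  have h2 : 16 * u ≤ m * κ * Real.exp (u ^ 4 / 200) := by
    have e1 := hw.lo
    have e2 : m * κ * (16 * u ^ 5) ≤ m * κ * Real.exp (u ^ 4 / 200) :=
      mul_le_mul_of_nonneg_left h1 (by positivity)
    have e3 : 16 * u * 1 ≤ 16 * u * (m * κ * u ^ 4) :=
      mul_le_mul_of_nonneg_left e1 (by positivity)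
    linarith
  have hE := Real.exp_pos (u ^ 4 / 200)
  set E : ℝ := Real.exp (u ^ 4 / 200) with hEdef
  set X : ℝ := XX κ P θ + XX κ Q θ with hXdef
  set N : ℝ := (P.card : ℝ) + Q.card with hNdef
  have hN : 0 ≤ N := by positivity
  -- `8 N u ≤ m X`
  have h3 : 8 * N * u ≤ m * X := by
    have e1 := mul_le_mul_of_nonneg_left h2 hN
    have e2 := mul_le_mul_of_nonneg_left hc hm.le
    linarith
  have e4 : 8 * N = 1 / u * (8 * N * u) := by
    field_simp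
  rw [e4]
  exact mul_le_mul_of_nonneg_left h3 (by positivity)

end

end YMAux

open YMAux

section

variable {ι : Type*} [DecidableEq ι] {u q m κ Y A w g T : ℝ} {Z L P Q : Finset ι} {θ : ι → ℝ}

/-- MODULE RW43 (main inequality near the square). `core` with `S0 = (5/2) Y`, `B = 0`
(`2 ξ ξ' ≤ 1`); for `0 < ξ ≤ 1`, `ξ + ξ |log ξ| = Fh ξ`. Split `∑_Z = ∑_L + ∑_P + ∑_Q`
(`sum_part`) of `4 (Φ(Y e^v) + Φ(Y e^(-v)) - 2 Φ(Y))`, `v = g + θ z`:
* `L`: `Apx.even`, `light_pt` with the `c` of `YZ.center`, `GG_center`: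
  `u^5 Y ∑ (cosh(θ-c) - 1) ≤ u^5 Y GG/(2|L|) ≤ u^4 κ GG/100` (`100 u Y ≤ m κ` by `Apx.mkap` and
  `w ≤ u/10^9`; `|L| ≥ 0.9 m`);
* `P`: `Apx.heavy_pt`, `Apx.heavy_coef`; `Q`: the same with `-θ z`, `-g`
  (`Y exp(-(g+θ)) = Y exp(-g + |θ|)`);
* `8 (|P| + |Q|) ≤ 16 exp(-u^4/200)(XX P + XX Q)/κ ≤ (m/u)(XX P + XX Q)` (`card_heavy`);
* `(4/κ) el κ XX P XX Q ≤ (4 el κ/κ) XX P Y e^g/(9w) ≤ (1/9) e^g (1+1/u) m XX P ≤ (1/5) m XX P`. -/
theorem YZ.M (h : YZ u q m κ Y A w g T Z L P Q θ) :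
    ((m - 2) ^ 2 - (m - 2)) * Phi q κ + 8 * (m - 2) * Phi q Y + 9 / 10 * u ^ 4 * (κ * GG L θ)
      + 4 * (w - 1) * Y * ∑ z ∈ L, (Real.cosh (g + θ z) - 1)
      + 4 * m * (XX κ P θ + XX κ Q θ)
      ≤ PS q κ Z θ + 4 * ∑ z ∈ Z,
        (Phi q (Y * Real.exp (g + θ z)) + Phi q (Y * Real.exp (-(g + θ z)))) := by
  have hw := h.apx.win
  have hk := hw.hk
  have hm : 0 < m := FactsAux.m_pos hw
  have hu := FactsAux.u_pos hw
  have hu20 := FactsAux.u20 hw
  have hu4 := FactsAux.U_pos hw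
  obtain ⟨hY, hY3, hYe, hww, -, -⟩ := h.apx.basic
  obtain ⟨hg, hwu, hwu', hw1⟩ := h.g_le
  have hw0 : 0 < w := by linarith
  have hn := h.nz
  have hel : 0 < el κ := by
    have h1 := FactsAux.el_lo hw
    linarith
  have hX0 : 0 ≤ XX κ P θ := XX_nonneg hk P θ
  have hY0 : 0 ≤ XX κ Q θ := XX_nonneg hk Q θ
  have hxP : ∀ z ∈ P, xi κ (θ z) ≤ XX κ P θ := fun z hz => xi_le_XX hk hz
  have hxQ : ∀ z ∈ Q, xi κ (θ z) ≤ XX κ Q θ := fun z hz => xi_le_XX hk hz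
  have hneg : ∀ t : ℝ, xi κ (-t) = xi κ t := fun t => by
    unfold xi
    rw [abs_neg]
  -- the core inequality
  have hcore := core (S0 := 5 / 2 * Y) (B := 0) hw h.part hn.card
    (fun z hz => (hn.hx z hz).trans (by norm_num)) hn.hS0 hn.hS hn.hX le_rfl (fun z hz w hw => by
      have h1 : 0 < xi κ (θ z) := xi_pos hk
      have h2 : 0 < xi κ (θ w) := xi_pos hk
      refine Real.log_nonpos (by positivity) ?_
      have h3 := hxP z hz
      have h4 := hxQ w hw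
      have h5 := hn.hX
      have h6 : xi κ (θ z) + xi κ (θ w) ≤ 1 := by linarith
      nlinarith [sq_nonneg (xi κ (θ z) - xi κ (θ w))])
  rw [h.card] at hcore
  have hsum : ∑ z ∈ P ∪ Q, (xi κ (θ z) + xi κ (θ z) * |Real.log (xi κ (θ z))|) =
      ∑ z ∈ P ∪ Q, Fh (xi κ (θ z)) :=
    Finset.sum_congr rfl fun z hz => Fh_abs (xi_pos hk) (hn.hx z hz)
  have hsplit : ∑ z ∈ P ∪ Q, Fh (xi κ (θ z)) =
      ∑ z ∈ P, Fh (xi κ (θ z)) + ∑ z ∈ Q, Fh (xi κ (θ z)) :=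
    Finset.sum_union h.part.hPQ
  rw [hsum, hsplit] at hcore
  -- the interaction of `P` and `Q`
  have hint : 4 / κ * (el κ + 0) * (XX κ P θ * XX κ Q θ) ≤ 2 / 10 * (m * XX κ P θ) := by
    have e1 : Y / κ ≤ w * m / (4 * el κ) * (1 + 1 / u) := h.apx.ratio.2
    have hui : 1 / u ≤ 1 / 1000 := by
      apply one_div_le_one_div_of_le (by norm_num)
      exact le_trans (by norm_num) hu20
    have e2 : Real.exp g ≤ 17 / 10 := exp_g hg
    have e3 : 4 / κ * (el κ + 0) * (XX κ P θ * XX κ Q θ)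
        ≤ 4 / κ * (el κ + 0) * (XX κ P θ * (Y * Real.exp g / (9 * w))) :=
      mul_le_mul_of_nonneg_left (mul_le_mul_of_nonneg_left h.hQ hX0) (by positivity)
    have e4 : 4 / κ * (el κ + 0) * (XX κ P θ * (Y * Real.exp g / (9 * w)))
        = (Y / κ) * (XX κ P θ * Real.exp g * (4 * el κ / (9 * w))) := by
      field_simp
      ring
    have e5 : (Y / κ) * (XX κ P θ * Real.exp g * (4 * el κ / (9 * w)))
        ≤ w * m / (4 * el κ) * (1 + 1 / u) * (XX κ P θ * Real.exp g * (4 * el κ / (9 * w))) :=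
      mul_le_mul_of_nonneg_right e1 (by positivity)
    have e6 : w * m / (4 * el κ) * (1 + 1 / u) * (XX κ P θ * Real.exp g * (4 * el κ / (9 * w)))
        = (m * XX κ P θ) / 9 * (Real.exp g * (1 + 1 / u)) := by
      field_simp
    have e7 : Real.exp g * (1 + 1 / u) ≤ 17 / 10 * (1 + 1 / 1000) :=
      mul_le_mul e2 (by linarith) (by positivity) (by norm_num)
    have hmX : 0 ≤ m * XX κ P θ := mul_nonneg hm.le hX0
    have e8 : (m * XX κ P θ) / 9 * (Real.exp g * (1 + 1 / u))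
        ≤ (m * XX κ P θ) / 9 * (17 / 10 * (1 + 1 / 1000)) :=
      mul_le_mul_of_nonneg_left e7 (by positivity)
    rw [e4] at e3
    rw [e6] at e5
    linarith
  have hL := light h
  have hPQ := card_PQ h
  have hP := heavy_set (S := P) (t := θ) h.apx hg h.hg h.part.hP
    (fun z hz => hn.hx z (Finset.mem_union_left _ hz)) (fun z hz => (hxP z hz).trans h.hP)
  have hQ := heavy_set (g := -g) (S := Q) (t := fun z => -θ z) h.apx (by rw [abs_neg]; exact hg)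
    (by rw [abs_neg]; exact h.hg) h.part.hQ
    (fun z hz => by
      rw [hneg]
      exact hn.hx z (Finset.mem_union_right _ hz))
    (fun z hz => by
      rw [hneg, neg_neg]
      exact (hxQ z hz).trans h.hQ)
  rw [XX_neg] at hQ
  have hQ1 : ∑ z ∈ Q, Fh (xi κ (-θ z)) = ∑ z ∈ Q, Fh (xi κ (θ z)) :=
    Finset.sum_congr rfl fun z _ => by rw [hneg]
  have hQ2 : ∑ z ∈ Q, (Phi q (Y * Real.exp (-g + -θ z)) + Phi q (Y * Real.exp (-(-g + -θ z)))
        - 2 * Phi q Y)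
      = ∑ z ∈ Q, (Phi q (Y * Real.exp (g + θ z)) + Phi q (Y * Real.exp (-(g + θ z)))
        - 2 * Phi q Y) := by
    refine Finset.sum_congr rfl fun z _ => ?_
    rw [show -g + -θ z = -(g + θ z) by ring, neg_neg]
    ring
  rw [hQ1, hQ2] at hQ
  have hZ := sum_part h.part (fun z => Phi q (Y * Real.exp (g + θ z))
    + Phi q (Y * Real.exp (-(g + θ z))) - 2 * Phi q Y)
  have hZ2 : ∑ z ∈ Z, (Phi q (Y * Real.exp (g + θ z)) + Phi q (Y * Real.exp (-(g + θ z)))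
        - 2 * Phi q Y)
      = ∑ z ∈ Z, (Phi q (Y * Real.exp (g + θ z)) + Phi q (Y * Real.exp (-(g + θ z))))
        - 2 * (m - 2) * Phi q Y := by
    rw [Finset.sum_sub_distrib, Finset.sum_const, nsmul_eq_mul, h.card]
    ring
  rw [hZ2] at hZ
  set SL : ℝ := ∑ z ∈ L, (Phi q (Y * Real.exp (g + θ z)) + Phi q (Y * Real.exp (-(g + θ z)))
    - 2 * Phi q Y) with hSL
  set SP : ℝ := ∑ z ∈ P, (Phi q (Y * Real.exp (g + θ z)) + Phi q (Y * Real.exp (-(g + θ z)))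
    - 2 * Phi q Y) with hSP
  set SQ : ℝ := ∑ z ∈ Q, (Phi q (Y * Real.exp (g + θ z)) + Phi q (Y * Real.exp (-(g + θ z)))
    - 2 * Phi q Y) with hSQ
  set SZ : ℝ := ∑ z ∈ Z, (Phi q (Y * Real.exp (g + θ z)) + Phi q (Y * Real.exp (-(g + θ z))))
    with hSZ
  set FP : ℝ := ∑ z ∈ P, Fh (xi κ (θ z)) with hFP
  set FQ : ℝ := ∑ z ∈ Q, Fh (xi κ (θ z)) with hFQ
  set X1 : ℝ := XX κ P θ with hX1
  set X2 : ℝ := XX κ Q θ with hX2
  set G : ℝ := κ * GG L θ with hGdef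
  have hmX : 0 ≤ m * (X1 + X2) := mul_nonneg hm.le (by linarith)
  have hui : 1 / u ≤ 1 / 1000 := by
    apply one_div_le_one_div_of_le (by norm_num)
    exact le_trans (by norm_num) hu20
  have m1 : 1 / u * (m * (X1 + X2)) ≤ 1 / 1000 * (m * (X1 + X2)) :=
    mul_le_mul_of_nonneg_right hui hmX
  have m2 : 0 ≤ m * X1 := mul_nonneg hm.le hX0
  have m3 : 0 ≤ m * X2 := mul_nonneg hm.le hY0
  have m4 : 2 * m * (FP + FQ) - 2 * m / u ^ 2 * (FP + FQ)
      = 2 * m * (1 - 1 / u ^ 2) * FP + 2 * m * (1 - 1 / u ^ 2) * FQ := by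
    ring
  linarith

end

end Pool.Agent.RieszWin
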